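import Mathlib

/-!
# EE3 / QF

A quantitative form of Farkas' lemma over the integers, by Fourier-Motzkin elimination.
-/

set_option autoImplicit false

namespace Pool.Agent.EE3

open Finset

/-- the bound of the quantitative Farkas lemma -/
def FQ : ℕ → ℕ → ℕ
  | 0, _ => 1
  | r + 1, N => (r + 2) * (N + 1) * FQ r (2 * (N + 1) ^ 2)

theorem FQ_three (N : ℕ) : FQ 3 N ≤ (8 * (N + 1)) ^ 20 := by
  have e : FQ 3 N = (2 + 2) * (N + 1) * ((1 + 2) * (2 * (N + 1) ^ 2 + 1) *
      ((0 + 2) * (2 * (2 * (N + 1) ^ 2 + 1) ^ 2 + 1) * 1)) := rfl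
  rw [e]
  generalize hM : N + 1 = M
  have h1 : 1 ≤ M := by omega
  have h2 : 1 ≤ M ^ 2 := Nat.one_le_pow _ _ h1
  have h4 : 1 ≤ M ^ 4 := Nat.one_le_pow _ _ h1
  have a1 : 2 * M ^ 2 + 1 ≤ 3 * M ^ 2 := by omega
  have a2 : (2 * M ^ 2 + 1) ^ 2 ≤ 9 * M ^ 4 := by
    calc (2 * M ^ 2 + 1) ^ 2 ≤ (3 * M ^ 2) ^ 2 := Nat.pow_le_pow_left a1 2
      _ = 9 * M ^ 4 := by ring
  have a3 : 2 * (2 * M ^ 2 + 1) ^ 2 + 1 ≤ 19 * M ^ 4 := by omega
  calc (2 + 2) * M * ((1 + 2) * (2 * M ^ 2 + 1) * ((0 + 2) * (2 * (2 * M ^ 2 + 1) ^ 2 + 1) * 1))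
      ≤ (2 + 2) * M * ((1 + 2) * (3 * M ^ 2) * ((0 + 2) * (19 * M ^ 4) * 1)) := by gcongr
    _ = 1368 * M ^ 7 := by ring
    _ ≤ 8 ^ 20 * M ^ 20 := Nat.mul_le_mul (by norm_num) (Nat.pow_le_pow_right h1 (by norm_num))
    _ = (8 * M) ^ 20 := by rw [mul_pow]

/-- weights of the elimination of a variable -/
private def qw (a b : ℤ) : ℕ × ℕ :=
  if 0 < a ∧ b < 0 then (b.natAbs, a.natAbs) else if a ≤ 0 then (1, 0) else (0, 0)

private theorem qw_col (a b : ℤ) : ((qw a b).1 : ℤ) * a + ((qw a b).2 : ℤ) * b ≤ 0 := by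
  unfold qw
  split_ifs with h1 h2
  · show (b.natAbs : ℤ) * a + (a.natAbs : ℤ) * b ≤ 0
    rw [Int.natCast_natAbs, Int.natCast_natAbs, abs_of_neg h1.2, abs_of_pos h1.1]
    linarith [mul_comm a b]
  · show ((1 : ℕ) : ℤ) * a + ((0 : ℕ) : ℤ) * b ≤ 0
    push_cast
    linarith
  · show ((0 : ℕ) : ℤ) * a + ((0 : ℕ) : ℤ) * b ≤ 0
    push_cast
    linarith

private theorem qw_le {a b : ℤ} {N : ℕ} (ha : |a| ≤ N) (hb : |b| ≤ N) :
    (qw a b).1 ≤ N + 1 ∧ (qw a b).2 ≤ N + 1 := by
  unfold qw
  split_ifs with h1 h2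
  · show b.natAbs ≤ N + 1 ∧ a.natAbs ≤ N + 1
    rw [← Int.natCast_natAbs] at ha hb
    omega
  · show 1 ≤ N + 1 ∧ 0 ≤ N + 1
    omega
  · show 0 ≤ N + 1 ∧ 0 ≤ N + 1
    omega

private theorem qw_bd {w1 w2 N : ℕ} {x y : ℤ} (h1 : w1 ≤ N + 1) (h2 : w2 ≤ N + 1)
    (hx : |x| ≤ N) (hy : |y| ≤ N) : |(w1 : ℤ) * x + (w2 : ℤ) * y| ≤ ((2 * (N + 1) ^ 2 : ℕ) : ℤ) := by
  have k1 : ((w1 : ℤ)) ≤ N + 1 := by exact_mod_cast h1
  have k2 : ((w2 : ℤ)) ≤ N + 1 := by exact_mod_cast h2
  have e1 : |(w1 : ℤ) * x| ≤ (N + 1) * (N + 1) := by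
    rw [abs_mul, abs_of_nonneg (Int.natCast_nonneg w1)]
    exact mul_le_mul k1 (hx.trans (by linarith)) (abs_nonneg _) (by positivity)
  have e2 : |(w2 : ℤ) * y| ≤ (N + 1) * (N + 1) := by
    rw [abs_mul, abs_of_nonneg (Int.natCast_nonneg w2)]
    exact mul_le_mul k2 (hy.trans (by linarith)) (abs_nonneg _) (by positivity)
  have e3 := abs_add_le ((w1 : ℤ) * x) ((w2 : ℤ) * y)
  push_cast
  nlinarith

/-- an integral point between finitely many lower and upper bounds -/
private theorem qmid {ι : Type} (s : Finset ι) (a y : ι → ℤ)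
    (h0 : ∀ i ∈ s, a i ≤ 0 → 0 ≤ y i)
    (h1 : ∀ p ∈ s, ∀ q ∈ s, 0 < a p → a q < 0 → 0 ≤ -a q * y p + a p * y q) :
    (∀ i ∈ s, 0 ≤ y i) ∨ ∃ p ∈ s, 0 < a p ∧ y p ≤ 0 ∧
      ∀ i ∈ s, 0 ≤ a i * (-y p) + a p * y i := by
  classical
  by_cases hall : ∀ i ∈ s, 0 ≤ y i
  · exact Or.inl hall
  right
  push Not at hall
  obtain ⟨i0, hi0, hy0⟩ := hall
  have ha0 : 0 < a i0 := by
    by_contra h
    exact absurd (h0 i0 hi0 (not_lt.1 h)) (not_le.2 hy0)
  obtain ⟨p, hp, hmax⟩ := (s.filter fun i => 0 < a i).exists_max_image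
    (fun i => -(y i : ℚ) / a i) ⟨i0, mem_filter.2 ⟨hi0, ha0⟩⟩
  rw [mem_filter] at hp
  have hpos : (0 : ℚ) < a p := by exact_mod_cast hp.2
  have cmp : ∀ i ∈ s, 0 < a i → a i * (-y p) ≥ a p * (-y i) := by
    intro i hi hai
    have hai' : (0 : ℚ) < a i := by exact_mod_cast hai
    have := hmax i (mem_filter.2 ⟨hi, hai⟩)
    rw [div_le_div_iff₀ hai' hpos] at this
    have h2 : -(y i) * a p ≤ -(y p) * a i := by exact_mod_cast this
    linarith
  refine ⟨p, hp.1, hp.2, ?_, fun i hi => ?_⟩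
  · have := cmp i0 hi0 ha0
    by_contra h
    push Not at h
    have e1 : a i0 * (-y p) < 0 := mul_neg_of_pos_of_neg ha0 (by linarith)
    have e2 : 0 < a p * (-y i0) := mul_pos hp.2 (by linarith)
    linarith
  · have hyp : y p ≤ 0 := by
      have := cmp i0 hi0 ha0
      by_contra h
      push Not at h
      have e1 : a i0 * (-y p) < 0 := mul_neg_of_pos_of_neg ha0 (by linarith)
      have e2 : 0 < a p * (-y i0) := mul_pos hp.2 (by linarith)
      linarith
    rcases lt_trichotomy (a i) 0 with h | h | h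
    · have := h1 p hp.1 i hi hp.2 h
      linarith
    · rw [h, zero_mul, zero_add]
      exact mul_nonneg hp.2.le (h0 i hi h.le)
    · have := cmp i hi h
      linarith

/-- **Quantitative Farkas lemma.** -/
theorem qfarkas (r : ℕ) : ∀ {ι : Type} [DecidableEq ι] (s : Finset ι) (A : ι → Fin r → ℤ)
    (b : ι → ℤ) (N : ℕ), (∀ i ∈ s, ∀ j, |A i j| ≤ N) → (∀ i ∈ s, |b i| ≤ N) →
    (∃ (l : Fin r → ℕ) (q : ℕ), 0 < q ∧ q ≤ FQ r N ∧ (∀ j, l j ≤ FQ r N) ∧
      ∀ i ∈ s, (q : ℤ) * b i ≤ ∑ j, A i j * l j) ∨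
    (∃ m : ι → ℕ, ∑ i ∈ s, m i ≤ FQ r N ∧ (∀ j, ∑ i ∈ s, (m i : ℤ) * A i j ≤ 0) ∧
      0 < ∑ i ∈ s, (m i : ℤ) * b i) := by
  induction r with
  | zero =>
    intro ι _ s A b N hA hb
    by_cases h : ∀ i ∈ s, b i ≤ 0
    · left
      refine ⟨fun _ => 0, 1, one_pos, le_rfl, fun j => j.elim0, fun i hi => ?_⟩
      simpa using h i hi
    · right
      push Not at h
      obtain ⟨i, hi, hr⟩ := h
      refine ⟨fun j => if j = i then 1 else 0, ?_, fun j => j.elim0, ?_⟩
      · rw [Finset.sum_ite_eq' s i, if_pos hi]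
        exact le_rfl
      · simp only [Nat.cast_ite, Nat.cast_one, Nat.cast_zero, ite_mul, one_mul, zero_mul]
        rw [Finset.sum_ite_eq' s i, if_pos hi]
        exact hr
  | succ r ih =>
    intro ι _ s A b N hA hb
    set W : ι × ι → ℕ × ℕ := fun pq => qw (A pq.1 0) (A pq.2 0) with hW
    have hWle : ∀ pq ∈ s ×ˢ s, (W pq).1 ≤ N + 1 ∧ (W pq).2 ≤ N + 1 := by
      intro pq hpq
      obtain ⟨h1, h2⟩ := mem_product.1 hpq
      exact qw_le (hA _ h1 0) (hA _ h2 0)
    set K := FQ r (2 * (N + 1) ^ 2) with hK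
    have hF : FQ (r + 1) N = (r + 2) * (N + 1) * K := rfl
    have hK1 : K ≤ FQ (r + 1) N := by
      rw [hF]
      exact Nat.le_mul_of_pos_left _ (by positivity)
    rcases ih (s ×ˢ s)
      (fun pq j => ((W pq).1 : ℤ) * A pq.1 j.succ + ((W pq).2 : ℤ) * A pq.2 j.succ)
      (fun pq => ((W pq).1 : ℤ) * b pq.1 + ((W pq).2 : ℤ) * b pq.2) (2 * (N + 1) ^ 2)
      (fun pq hpq j => qw_bd (hWle pq hpq).1 (hWle pq hpq).2
        (hA _ (mem_product.1 hpq).1 _) (hA _ (mem_product.1 hpq).2 _))
      (fun pq hpq => qw_bd (hWle pq hpq).1 (hWle pq hpq).2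
        (hb _ (mem_product.1 hpq).1) (hb _ (mem_product.1 hpq).2))
      with ⟨l, q, hq, hqK, hl, hl2⟩ | ⟨m, hm, hm2, hm3⟩
    · left
      set y : ι → ℤ := fun i => (∑ j, A i j.succ * (l j : ℤ)) - q * b i with hy
      have key : ∀ p ∈ s, ∀ q' ∈ s,
          0 ≤ ((W (p, q')).1 : ℤ) * y p + ((W (p, q')).2 : ℤ) * y q' := by
        intro p hp q' hq'
        have h := hl2 (p, q') (mem_product.2 ⟨hp, hq'⟩)
        simp only at h
        have e : ∑ j, (((W (p, q')).1 : ℤ) * A p j.succ + ((W (p, q')).2 : ℤ) * A q' j.succ) *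
            (l j : ℤ) = ((W (p, q')).1 : ℤ) * (∑ j, A p j.succ * (l j : ℤ)) +
              ((W (p, q')).2 : ℤ) * (∑ j, A q' j.succ * (l j : ℤ)) := by
          rw [mul_sum, mul_sum, ← sum_add_distrib]
          exact sum_congr rfl fun j _ => by ring
        rw [e] at h
        simp only [hy]
        linarith
      rcases qmid s (fun i => A i 0) y
        (fun i hi h => by
          have := key i hi i hi
          have e1 : W (i, i) = (1, 0) := by
            simp only [hW, qw]
            rw [if_neg (fun h' => absurd h'.1 (not_lt.2 h)), if_pos h]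
          rw [e1] at this
          simpa using this)
        (fun p hp q' hq' h h' => by
          have := key p hp q' hq'
          have e1 : W (p, q') = ((A q' 0).natAbs, (A p 0).natAbs) := by
            simp only [hW, qw]
            rw [if_pos ⟨h, h'⟩]
          rw [e1] at this
          simp only [Int.natCast_natAbs] at this
          rw [abs_of_neg h', abs_of_pos h] at this
          exact this) with hall | ⟨p, hp, hap, hyp, hyi⟩
      · refine ⟨Fin.cons 0 l, q, hq, hqK.trans hK1, fun j => ?_, fun i hi => ?_⟩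
        · refine Fin.cases ?_ (fun j => ?_) j
          · rw [Fin.cons_zero]
            exact Nat.zero_le _
          · rw [Fin.cons_succ]
            exact (hl j).trans hK1
        · rw [Fin.sum_univ_succ, Fin.cons_zero]
          simp only [Fin.cons_succ]
          have := hall i hi
          simp only [hy] at this
          push_cast
          linarith
      · have hapN : (A p 0).toNat ≤ N := by
          have := hA p hp 0
          rw [abs_of_pos hap] at this
          omega
        have hcast : (((A p 0).toNat : ℕ) : ℤ) = A p 0 := Int.toNat_of_nonneg hap.le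
        have hyc : (((-y p).toNat : ℕ) : ℤ) = -y p := Int.toNat_of_nonneg (by linarith)
        have hmul : ∀ k : ℕ, k ≤ K → (A p 0).toNat * k ≤ FQ (r + 1) N := by
          intro k hk
          rw [hF]
          exact Nat.mul_le_mul (hapN.trans (by nlinarith)) hk
        have hy0 : (-y p).toNat ≤ FQ (r + 1) N := by
          have e1 : -y p ≤ (((r + 1) * N * K : ℕ) : ℤ) := by
            have e2 : -(∑ j, A p j.succ * (l j : ℤ)) ≤ (r : ℤ) * (N * K) := by
              rw [← sum_neg_distrib]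
              refine (sum_le_card_nsmul univ _ ((N : ℤ) * K) fun j _ => ?_).trans ?_
              · have f1 : -(A p j.succ * (l j : ℤ)) ≤ |A p j.succ * (l j : ℤ)| := neg_le_abs _
                rw [abs_mul, abs_of_nonneg (Int.natCast_nonneg (l j))] at f1
                refine f1.trans (mul_le_mul (hA p hp _) ?_ (Int.natCast_nonneg _)
                  (Int.natCast_nonneg _))
                exact_mod_cast hl j
              · rw [card_univ, Fintype.card_fin, nsmul_eq_mul]
            have e3 : (q : ℤ) * b p ≤ K * N := by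
              have g1 : (q : ℤ) ≤ K := by exact_mod_cast hqK
              have g2 : b p ≤ N := (le_abs_self _).trans (hb p hp)
              have g3 : (0 : ℤ) ≤ q := Int.natCast_nonneg _
              calc (q : ℤ) * b p ≤ q * N := mul_le_mul_of_nonneg_left g2 g3
                _ ≤ K * N := mul_le_mul_of_nonneg_right g1 (Int.natCast_nonneg _)
            simp only [hy]
            push_cast
            nlinarith
          have e4 : (-y p).toNat ≤ (r + 1) * N * K := by
            have : (((-y p).toNat : ℕ) : ℤ) ≤ (((r + 1) * N * K : ℕ) : ℤ) := by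
              rw [hyc]
              exact e1
            exact_mod_cast this
          rw [hF]
          refine e4.trans (Nat.mul_le_mul_right _ ?_)
          exact Nat.mul_le_mul (by omega) (by omega)
        refine ⟨Fin.cons (-y p).toNat (fun j => (A p 0).toNat * l j), (A p 0).toNat * q,
          Nat.mul_pos (by omega) hq, hmul q hqK, fun j => ?_, fun i hi => ?_⟩
        · refine Fin.cases ?_ (fun j => ?_) j
          · rw [Fin.cons_zero]
            exact hy0
          · rw [Fin.cons_succ]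
            exact hmul _ (hl j)
        · rw [Fin.sum_univ_succ, Fin.cons_zero]
          simp only [Fin.cons_succ]
          rw [hyc]
          push_cast
          rw [hcast]
          have e1 : ∑ j, A i j.succ * (A p 0 * (l j : ℤ)) = A p 0 * ∑ j, A i j.succ * (l j : ℤ) := by
            rw [mul_sum]
            exact sum_congr rfl fun j _ => by ring
          rw [e1]
          have := hyi i hi
          have e2 : A p 0 * y i = A p 0 * (∑ j, A i j.succ * (l j : ℤ)) - A p 0 * q * b i := by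
            simp only [hy]
            ring
          rw [e2] at this
          linarith
    · right
      have hsum : ∀ X : ι → ℤ, ∑ i ∈ s, ((∑ pq ∈ s ×ˢ s, m pq *
          ((W pq).1 * (if pq.1 = i then 1 else 0) +
            (W pq).2 * (if pq.2 = i then 1 else 0)) : ℕ) : ℤ) * X i =
          ∑ pq ∈ s ×ˢ s, (m pq : ℤ) * (((W pq).1 : ℤ) * X pq.1 + ((W pq).2 : ℤ) * X pq.2) := by
        intro X
        push_cast
        simp only [sum_mul]
        rw [sum_comm]
        refine sum_congr rfl fun pq hpq => ?_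
        obtain ⟨h1, h2⟩ := mem_product.1 hpq
        have e1 : ∀ i ∈ s, (m pq : ℤ) * (((W pq).1 : ℤ) * (if pq.1 = i then 1 else 0) +
            ((W pq).2 : ℤ) * (if pq.2 = i then 1 else 0)) * X i =
            (if pq.1 = i then (m pq : ℤ) * (W pq).1 * X i else 0) +
            (if pq.2 = i then (m pq : ℤ) * (W pq).2 * X i else 0) := by
          intro i _
          split_ifs <;> ring
        rw [sum_congr rfl e1, sum_add_distrib, Finset.sum_ite_eq, Finset.sum_ite_eq, if_pos h1,
          if_pos h2]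
        ring
      refine ⟨fun i => ∑ pq ∈ s ×ˢ s, m pq *
          ((W pq).1 * (if pq.1 = i then 1 else 0) +
            (W pq).2 * (if pq.2 = i then 1 else 0)), ?_, fun j => ?_, ?_⟩
      · have h1 := hsum fun _ => 1
        simp only [mul_one] at h1
        have h2 : ∑ pq ∈ s ×ˢ s, (m pq : ℤ) * (((W pq).1 : ℤ) + ((W pq).2 : ℤ)) ≤
            ∑ pq ∈ s ×ˢ s, (m pq : ℤ) * (2 * (N + 1)) := by
          refine sum_le_sum fun pq hpq => mul_le_mul_of_nonneg_left ?_ (Int.natCast_nonneg _)
          have := hWle pq hpq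
          omega
        rw [← sum_mul] at h2
        have h3 : (∑ pq ∈ s ×ˢ s, (m pq : ℤ)) ≤ K := by exact_mod_cast hm
        have h4 : ((∑ i ∈ s, ∑ pq ∈ s ×ˢ s, m pq *
          ((W pq).1 * (if pq.1 = i then 1 else 0) +
            (W pq).2 * (if pq.2 = i then 1 else 0)) : ℕ) : ℤ) ≤ ((K * (2 * (N + 1)) : ℕ) : ℤ) := by
          rw [Nat.cast_sum, h1]
          refine h2.trans ?_
          push_cast
          exact mul_le_mul_of_nonneg_right h3 (by positivity)
        have h5 : K * (2 * (N + 1)) ≤ FQ (r + 1) N := by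
          rw [hF, mul_comm K]
          exact Nat.mul_le_mul_right _ (Nat.mul_le_mul_right _ (by omega))
        exact le_trans (by exact_mod_cast h4) h5
      · rw [hsum fun i => A i j]
        refine Fin.cases ?_ (fun j => ?_) j
        · refine sum_nonpos fun pq _ => ?_
          exact mul_nonpos_of_nonneg_of_nonpos (Int.natCast_nonneg _) (qw_col _ _)
        · exact hm2 j
      · rw [hsum b]
        exact hm3

end Pool.Agent.EE3
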