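import Pool.Agent.EE3.Defs
import Pool.Agent.EE3.QF

/-!
# EE3 / Alt: increasing closed walks or a small weight
-/

set_option autoImplicit false
set_option linter.unusedSectionVars false

namespace Pool.Agent.EE3

open Pool.Agent.EEF Pool.Agent.REV Pool.Agent.EE2 Finset

variable {Q : Type} {T : VASS Q 3}

/-- walks between states of the component stay in the component -/
theorem walkIn_comp [Fintype Q] [DecidableEq Q] {p₀ : Q} {S : Finset Q}
    (hS : ∀ r, r ∈ S ↔ InS T p₀ r) {p q : Q} {u : List (Vec 3)} (h : Walk T p u q)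
    (hp : InS T p₀ p) (hq : InS T p₀ q) : WalkIn T S p u q := by
  induction h with
  | nil p => exact .nil ((hS p).2 hp)
  | @cons p p' q v w h1 h2 ih =>
    refine .cons ((hS p).2 hp) h1 (ih ?_ hq)
    exact inS_mid hp hq (.cons h1 (.nil p')) h2

/-- the weight `∑ lam k * v k` -/
def wgt (lam : Fin 3 → ℕ) : Vec 3 →+ ℤ where
  toFun v := ∑ k, (lam k : ℤ) * v k
  map_zero' := by simp
  map_add' v w := by
    rw [← sum_add_distrib]
    exact sum_congr rfl fun k _ => by rw [Pi.add_apply]; ring

theorem wgt_apply (lam : Fin 3 → ℕ) (v : Vec 3) : wgt lam v = ∑ k, (lam k : ℤ) * v k := rfl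

/-- effects of short closed walks in the component -/
def Eff (T : VASS Q 3) (p₀ : Q) (n : ℕ) : Set (Vec 3) :=
  {g | ∃ r u, InS T p₀ r ∧ Walk T r u r ∧ u.length ≤ n ∧ u.sum = g}

theorem walk_abs {p q : Q} {u : List (Vec 3)} (h : Walk T p u q) (k : Fin 3) :
    |u.sum k| ≤ u.length * maxNorm T := by
  refine sum_le (fun v hv k => ?_) k
  obtain ⟨a, b, hab⟩ := h.letters v hv
  exact abs_le_maxNorm hab k

theorem eff_abs {p₀ : Q} {n : ℕ} {g : Vec 3} (h : g ∈ Eff T p₀ n) (k : Fin 3) :
    |g k| ≤ ((n * maxNorm T : ℕ) : ℤ) := by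
  obtain ⟨r, u, -, h1, h2, rfl⟩ := h
  refine (walk_abs h1 k).trans ?_
  push_cast
  exact mul_le_mul_of_nonneg_right (by exact_mod_cast h2) (Int.natCast_nonneg _)

theorem eff_finite (T : VASS Q 3) (p₀ : Q) (n : ℕ) : (Eff T p₀ n).Finite := by
  refine (Set.finite_Icc (fun _ => -((n * maxNorm T : ℕ) : ℤ) : Vec 3)
    (fun _ => ((n * maxNorm T : ℕ) : ℤ))).subset fun g hg => ?_
  exact ⟨fun k => (abs_le.1 (eff_abs hg k)).1, fun k => (abs_le.1 (eff_abs hg k)).2⟩

/-- closed walks at `r` which repeat given short closed walks -/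
theorem tour [Fintype Q] {p₀ r : Q} (hr : InS T p₀ r) (m : Vec 3 → ℕ) (L : ℕ)
    (G : Finset (Vec 3)) (hG : ∀ g ∈ G, g ∈ Eff T p₀ (Fintype.card Q)) :
    ∃ θ, Walk T r θ r ∧
      θ.length ≤ (∑ g ∈ G, m g) * (2 * Fintype.card Q + Fintype.card Q * L) ∧
      ∀ k, (L : ℤ) * (∑ g ∈ G, (m g : ℤ) * g k) -
        ((∑ g ∈ G, m g : ℕ) : ℤ) * (2 * Fintype.card Q * maxNorm T) ≤ θ.sum k := by
  classical
  induction G using Finset.induction_on with
  | empty => exact ⟨[], .nil _, by simp, fun k => by simp⟩
  | insert g G hgG ih =>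
    obtain ⟨θ, h1, h2, h3⟩ := ih fun g hg => hG g (mem_insert_of_mem hg)
    rcases Nat.eq_zero_or_pos (m g) with hm | hm
    · refine ⟨θ, h1, ?_, fun k => ?_⟩
      · rw [sum_insert hgG, hm, zero_add]
        exact h2
      · rw [sum_insert hgG, sum_insert hgG, hm]
        simpa using h3 k
    · obtain ⟨s, u, hs, h4, h5, h6⟩ := hG g (mem_insert_self g G)
      obtain ⟨a, ha, hal⟩ := inS_path hr hs
      obtain ⟨b, hb, hbl⟩ := inS_path hs hr
      refine ⟨a ++ rep (L * m g) u ++ b ++ θ, (((ha.append (h4.rep _)).append hb).append h1),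
        ?_, fun k => ?_⟩
      · rw [sum_insert hgG, List.length_append, List.length_append, List.length_append,
          rep_length, add_mul]
        have e1 : L * m g * u.length ≤ m g * (Fintype.card Q * L) := by
          calc L * m g * u.length ≤ L * m g * Fintype.card Q := Nat.mul_le_mul_left _ h5
            _ = m g * (Fintype.card Q * L) := by ring
        have e2 : 2 * Fintype.card Q ≤ m g * (2 * Fintype.card Q) := Nat.le_mul_of_pos_left _ hm
        have e3 : m g * (2 * Fintype.card Q + Fintype.card Q * L) =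
          m g * (2 * Fintype.card Q) + m g * (Fintype.card Q * L) := by ring
        omega
      · rw [sum_insert hgG, sum_insert hgG, List.sum_append, List.sum_append, List.sum_append,
          rep_sum, h6]
        have e1 := (abs_le.1 (walk_abs ha k)).1
        have e2 := (abs_le.1 (walk_abs hb k)).1
        have e3 := h3 k
        have hM : (0 : ℤ) ≤ maxNorm T := Int.natCast_nonneg _
        have e4 : (a.length : ℤ) * maxNorm T ≤ Fintype.card Q * maxNorm T :=
          mul_le_mul_of_nonneg_right (by exact_mod_cast hal) hM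
        have e5 : (b.length : ℤ) * maxNorm T ≤ Fintype.card Q * maxNorm T :=
          mul_le_mul_of_nonneg_right (by exact_mod_cast hbl) hM
        have e6 : (1 : ℤ) * (2 * Fintype.card Q * maxNorm T) ≤
            m g * (2 * Fintype.card Q * maxNorm T) := by
          refine mul_le_mul_of_nonneg_right (by exact_mod_cast hm) ?_
          positivity
        have e7 : ((L * m g) • g : Vec 3) k = (L : ℤ) * m g * g k := by
          rw [Pi.smul_apply, nsmul_eq_mul]
          push_cast
          ring
        rw [Pi.add_apply, Pi.add_apply, Pi.add_apply, e7]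
        push_cast at e3 ⊢
        linarith

theorem num_alt {n M F : ℕ} (hn : 1 ≤ n) (hF : F ≤ (8 * n * (M + 1)) ^ 20) :
    F * (2 * n + n * (2 * n * M * F + 1)) ≤ (8 * n * (M + 1)) ^ 45 := by
  set X := 8 * n * (M + 1) with hX
  have h1 : 8 * n ≤ X := by
    rw [hX]
    exact Nat.le_mul_of_pos_right _ (Nat.succ_pos _)
  have h2 : M ≤ X := by
    rw [hX]
    nlinarith
  have hX1 : 8 ≤ X := by omega
  have h3 : F * (2 * n + n * (2 * n * M * F + 1)) = 3 * n * F + 2 * n * n * M * (F * F) := by
    ring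
  have h4 : F * F ≤ X ^ 40 := by
    calc F * F ≤ X ^ 20 * X ^ 20 := Nat.mul_le_mul hF hF
      _ = X ^ 40 := by ring
  have h5 : 3 * n * F ≤ X * X ^ 20 := Nat.mul_le_mul (by omega) hF
  have h6 : 2 * n * n * M * (F * F) ≤ X * X * X * X ^ 40 := by
    refine Nat.mul_le_mul (Nat.mul_le_mul ?_ h2) h4
    exact Nat.mul_le_mul (by omega) (by omega)
  have h7 : X * X ^ 20 ≤ X ^ 43 := by
    rw [← pow_succ']
    exact Nat.pow_le_pow_right (by omega) (by norm_num)
  have h8 : X * X * X * X ^ 40 = X ^ 43 := by ring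
  have h9 : X ^ 43 + X ^ 43 ≤ X ^ 45 := by
    have : X ^ 45 = X * X * X ^ 43 := by ring
    rw [this]
    have h10 : 2 ≤ X * X := by nlinarith
    calc X ^ 43 + X ^ 43 = 2 * X ^ 43 := by ring
      _ ≤ X * X * X ^ 43 := Nat.mul_le_mul_right _ h10
  rw [h3]
  omega

/-- either short closed walks at every state of the component of `p₀` increase all three counters,
or a small non-zero non-negative weight is not increased by any closed walk in the component -/
theorem alt3 [Fintype Q] (p₀ : Q) :
    (∀ r, InS T p₀ r → ∃ θ, Walk T r θ r ∧ (∀ k, 1 ≤ θ.sum k) ∧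
      θ.length ≤ cPmp (Fintype.card Q) (maxNorm T)) ∨
    (∃ lam : Fin 3 → ℕ, (∃ k, lam k ≠ 0) ∧ (∀ k, lam k ≤ cLam (Fintype.card Q) (maxNorm T)) ∧
      ∀ r u, InS T p₀ r → Walk T r u r → ∑ k, (lam k : ℤ) * u.sum k ≤ 0) := by
  classical
  have hn : 1 ≤ Fintype.card Q := Fintype.card_pos_iff.2 ⟨p₀⟩
  rcases Nat.eq_zero_or_pos (maxNorm T) with hM0 | hM
  · right
    refine ⟨fun _ => 1, ⟨0, one_ne_zero⟩, fun k => ?_, fun r u _ hu => ?_⟩
    · unfold cLam
      exact Nat.one_le_pow _ _ (by positivity)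
    · refine le_of_eq (sum_eq_zero fun k _ => ?_)
      have h1 := walk_abs hu k
      rw [hM0, Nat.cast_zero, mul_zero] at h1
      rw [abs_nonpos_iff.1 h1, mul_zero]
  set n := Fintype.card Q with hnn
  set M := maxNorm T with hMM
  have hF : FQ 3 (n * M) ≤ (8 * n * (M + 1)) ^ 20 := by
    refine (FQ_three _).trans (Nat.pow_le_pow_left ?_ _)
    nlinarith
  set Γ := (eff_finite T p₀ n).toFinset with hΓ
  have hmem : ∀ g, g ∈ Γ ↔ g ∈ Eff T p₀ n := fun g => Set.Finite.mem_toFinset _
  have hN1 : 1 ≤ n * M := Nat.mul_pos hn hM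
  rcases qfarkas 3 (insert none (Γ.image some))
      (fun i j => match i with | none => 1 | some g => - g j)
      (fun i => match i with | none => 1 | some _ => 0) (n * M) (by
        intro i hi j
        match i with
        | none =>
          show |(1 : ℤ)| ≤ _
          rw [abs_one]
          exact_mod_cast hN1
        | some g =>
          show |-(g j)| ≤ _
          rw [abs_neg]
          have hg : g ∈ Γ := by simpa using hi
          exact eff_abs ((hmem g).1 hg) j) (by
        intro i hi
        match i with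
        | none =>
          show |(1 : ℤ)| ≤ _
          rw [abs_one]
          exact_mod_cast hN1
        | some g =>
          show |(0 : ℤ)| ≤ _
          rw [abs_zero]
          exact Int.natCast_nonneg _) with
    ⟨l, q, hq, -, hl, hl2⟩ | ⟨m, hm1, hm2, hm3⟩
  · right
    have h0 := hl2 none (mem_insert_self _ _)
    simp only [one_mul, mul_one] at h0
    have hg : ∀ g ∈ Γ, ∑ k, (l k : ℤ) * g k ≤ 0 := by
      intro g hg
      have h1 := hl2 (some g) (mem_insert_of_mem (mem_image_of_mem _ hg))
      simp only [mul_zero] at h1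
      have h2 : ∑ k, (l k : ℤ) * g k = -∑ j, -g j * (l j : ℤ) := by
        rw [← sum_neg_distrib]
        exact sum_congr rfl fun k _ => by ring
      rw [h2]
      linarith
    refine ⟨l, ?_, fun k => (hl k).trans hF, fun r u hr hu => ?_⟩
    · by_contra hc
      push Not at hc
      have h1 : ∑ j, (l j : ℤ) = 0 := sum_eq_zero fun j _ => by rw [hc j]; rfl
      rw [h1] at h0
      have : (0 : ℤ) < q := by exact_mod_cast hq
      linarith
    · by_contra hc
      push Not at hc
      rw [← wgt_apply] at hc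
      have hw := walkIn_comp (S := univ.filter fun r => InS T p₀ r) (fun r => by simp) hu hr hr
      obtain ⟨r', u', h1, h2, h3⟩ := short_pos (wgt l) _ le_rfl hw hc
      have h4 : InS T p₀ r' := (mem_filter.1 h1.start).2
      have h5 := hg u'.sum ((hmem _).2 ⟨r', u', h4, h1.walk, h2, rfl⟩)
      rw [wgt_apply] at h3
      linarith
  · left
    have hns : (none : Option (Vec 3)) ∉ Γ.image some := by simp
    rw [sum_insert hns, sum_image (by simp)] at hm1 hm3
    have hm0 : 1 ≤ (m none : ℤ) := by
      simp only [mul_one, mul_zero, sum_const_zero, add_zero] at hm3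
      exact hm3
    have hm4 : ∀ j, (1 : ℤ) ≤ ∑ g ∈ Γ, (m (some g) : ℤ) * g j := by
      intro j
      have h1 := hm2 j
      rw [sum_insert hns, sum_image (by simp)] at h1
      simp only [mul_one] at h1
      have h2 : ∑ g ∈ Γ, (m (some g) : ℤ) * -g j = -∑ g ∈ Γ, (m (some g) : ℤ) * g j := by
        rw [← sum_neg_distrib]
        exact sum_congr rfl fun k _ => by ring
      rw [h2] at h1
      linarith
    intro r hr
    have hms : ∑ g ∈ Γ, m (some g) ≤ FQ 3 (n * M) := by omega
    obtain ⟨θ, h1, h2, h3⟩ := tour hr (fun g => m (some g)) (2 * n * M * FQ 3 (n * M) + 1) Γ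
      (fun g hg => (hmem g).1 hg)
    refine ⟨θ, h1, fun k => ?_, ?_⟩
    · refine le_trans ?_ (h3 k)
      have e1 := hm4 k
      have e2 : ((∑ g ∈ Γ, m (some g) : ℕ) : ℤ) * (2 * n * M) ≤
          (FQ 3 (n * M) : ℤ) * (2 * n * M) :=
        mul_le_mul_of_nonneg_right (by exact_mod_cast hms) (by positivity)
      have e3 : ((2 * n * M * FQ 3 (n * M) + 1 : ℕ) : ℤ) * 1 ≤
          ((2 * n * M * FQ 3 (n * M) + 1 : ℕ) : ℤ) * ∑ g ∈ Γ, (m (some g) : ℤ) * g k :=
        mul_le_mul_of_nonneg_left e1 (Int.natCast_nonneg _)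
      push_cast at e2 e3 ⊢
      linarith
    · refine h2.trans ?_
      refine (Nat.mul_le_mul_right _ hms).trans ?_
      exact num_alt hn hF

end Pool.Agent.EE3
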