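import Pool.Agent.EE3.Pot1
import Pool.Agent.EEF.Main

/-!
# EE3 / Chain1: exchange of loop iterations in a path scheme whose loops are on one line
-/

set_option autoImplicit false
set_option linter.unusedSectionVars false

namespace Pool.Agent.EE3

open Pool.Agent.EEF Finset

variable {d : ℕ}

/-- raising or slightly lowering the start of a short word -/
private theorem ch1_word {M : ℕ} {w : List (Vec d)} (hM : ∀ v ∈ w, ∀ k, |v k| ≤ M) :
    ∀ {y Δ : Vec d}, Ok y w → (∀ k, 0 ≤ Δ k ∨ (w.length * M : ℤ) ≤ y k + Δ k) →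
      Ok (y + Δ) w := by
  induction w with
  | nil =>
    intro y Δ _ _
    trivial
  | cons v w ih =>
    intro y Δ h hΔ
    have hv := hM v List.mem_cons_self
    have hwM : (0 : ℤ) ≤ w.length * M := by positivity
    refine ⟨fun k => ?_, ?_⟩
    · have h1 := h.1 k
      have h2 := abs_le.1 (hv k)
      have h3 := hΔ k
      simp only [Pi.zero_apply, Pi.add_apply, List.length_cons] at h1 h3 ⊢
      push_cast at h3
      rcases h3 with h3 | h3
      · linarith
      · linarith [h2.1]
    · have e : y + Δ + v = (y + v) + Δ := add_right_comm _ _ _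
      rw [e]
      refine ih (fun u hu => hM u (List.mem_cons_of_mem _ hu)) h.2 fun k => ?_
      have h2 := abs_le.1 (hv k)
      have h3 := hΔ k
      simp only [Pi.add_apply, List.length_cons] at h3 ⊢
      push_cast at h3
      rcases h3 with h3 | h3
      · exact Or.inl h3
      · right
        linarith [h2.1]

/-- an item is executable -/
private def ch1Ok (y : Vec d) (α β : List (Vec d)) (a : ℕ) : Prop :=
  Ok y α ∧ ∀ κ < a, Ok (y + α.sum + κ • β.sum) β

private theorem ch1_rep {n : ℕ} {x : Vec d} {w : List (Vec d)} (h : Ok x (rep n w)) :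
    ∀ j < n, Ok (x + j • w.sum) w := by
  induction n generalizing x with
  | zero =>
    intro j hj
    exact absurd hj (Nat.not_lt_zero _)
  | succ n ih =>
    intro j hj
    rw [rep_succ, Ok_append] at h
    cases j with
    | zero => simpa using h.1
    | succ j =>
      have h1 := ih h.2 j (by omega)
      have e : x + (j + 1) • w.sum = x + w.sum + j • w.sum := by
        rw [succ_nsmul', add_assoc]
      rw [e]
      exact h1

private theorem ch1_wrd (y : Vec d) (α β : List (Vec d)) (a : ℕ) :
    Ok y (wrd (α, β, a)) ↔ ch1Ok y α β a := by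
  unfold ch1Ok wrd
  rw [Ok_append]
  exact ⟨fun h => ⟨h.1, ch1_rep h.2⟩, fun h => ⟨h.1, Ok_rep h.2⟩⟩

private theorem ch1_wrd_sum (α β : List (Vec d)) (a : ℕ) :
    (wrd (α, β, a)).sum = α.sum + a • β.sum := by
  unfold wrd
  rw [List.sum_append, rep_sum]

/-- the configuration before the item `l` -/
private def ch1cf (x : Vec d) (α β : ℕ → List (Vec d)) (a : ℕ → ℕ) (l : ℕ) : Vec d :=
  x + ∑ j ∈ range l, ((α j).sum + a j • (β j).sum)

private theorem ch1cf_succ (x : Vec d) (α β : ℕ → List (Vec d)) (a : ℕ → ℕ) (l : ℕ) :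
    ch1cf x α β a (l + 1) = ch1cf x α β a l + (α l).sum + a l • (β l).sum := by
  unfold ch1cf
  rw [sum_range_succ]
  simp only [add_assoc]

private theorem ch1_unroll (x : Vec d) (α β : ℕ → List (Vec d)) (a : ℕ → ℕ) (N : ℕ) :
    (Ok x (unroll ((List.range N).map fun i => (α i, β i, a i))) ↔
      ∀ l < N, ch1Ok (ch1cf x α β a l) (α l) (β l) (a l)) ∧
    x + (unroll ((List.range N).map fun i => (α i, β i, a i))).sum = ch1cf x α β a N := by
  induction N with
  | zero =>
    constructor
    · simp [unroll_nil, Ok]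
    · simp [unroll_nil, ch1cf]
  | succ N ih =>
    obtain ⟨ih1, ih2⟩ := ih
    rw [List.range_succ, List.map_append, unroll_append, Ok_append, List.sum_append, ih2,
      List.map_singleton, unroll_cons, unroll_nil, List.append_nil, ch1_wrd, ih1]
    constructor
    · constructor
      · rintro ⟨h1, h2⟩ l hl
        by_cases h : l = N
        · rw [h]
          exact h2
        · exact h1 l (by omega)
      · intro h
        exact ⟨fun l hl => h l (by omega), h N (by omega)⟩
    · rw [← add_assoc, ih2, ch1_wrd_sum, ch1cf_succ, add_assoc]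

private theorem ch1_mid {v u : ℤ} {a κ : ℕ} {b : ℤ} (h1 : b ≤ v) (h2 : b ≤ v + a * u)
    (h : κ ≤ a) : b ≤ v + κ * u := by
  have h' : (κ : ℤ) ≤ a := by exact_mod_cast h
  rcases le_total 0 u with hu | hu
  · have : 0 ≤ (κ : ℤ) * u := mul_nonneg (Int.natCast_nonneg _) hu
    linarith
  · have : (a : ℤ) * u ≤ κ * u := mul_le_mul_of_nonpos_right h' hu
    linarith

/-- shifting the start of an item -/
private theorem ch1_item {M B : ℕ} {y Δ : Vec d} {α β : List (Vec d)} {a : ℕ}
    (hα : ∀ v ∈ α, ∀ k, |v k| ≤ M) (hβ : ∀ v ∈ β, ∀ k, |v k| ≤ M)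
    (lα : (α.length * M : ℤ) ≤ B) (lβ : (β.length * M : ℤ) ≤ B) (h : ch1Ok y α β a)
    (hΔ : ∀ k, 0 ≤ Δ k ∨ ((B : ℤ) ≤ y k + Δ k ∧ (B : ℤ) ≤ y k + α.sum k + Δ k ∧
      (B : ℤ) ≤ y k + α.sum k + a * β.sum k + Δ k)) : ch1Ok (y + Δ) α β a := by
  refine ⟨ch1_word hα h.1 fun k => ?_, fun κ hκ => ?_⟩
  · rcases hΔ k with h1 | ⟨h1, _, _⟩
    · exact Or.inl h1
    · exact Or.inr (lα.trans h1)
  · have e : y + Δ + α.sum + κ • β.sum = (y + α.sum + κ • β.sum) + Δ := by abel
    rw [e]
    refine ch1_word hβ (h.2 κ hκ) fun k => ?_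
    rcases hΔ k with h1 | ⟨_, h2, h3⟩
    · exact Or.inl h1
    · right
      have h4 : (B : ℤ) ≤ (y k + α.sum k + Δ k) + κ * β.sum k :=
        ch1_mid (a := a) h2 (by linarith) hκ.le
      simp only [Pi.add_apply, Pi.smul_apply]
      simp only [nsmul_eq_mul]
      linarith

/-- removal of iterations of two loops -/
private def ch1a (a : ℕ → ℕ) (i j p r : ℕ) (l : ℕ) : ℕ :=
  if l = i then a i - p else if l = j then a j - r else a l

private theorem ch1_mod (x : Vec d) (α β : ℕ → List (Vec d)) (a : ℕ → ℕ) (i j p r : ℕ)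
    (hij : i < j) (hp : p ≤ a i) (hr : r ≤ a j) (l : ℕ) :
    ch1cf x α β (ch1a a i j p r) l = ch1cf x α β a l +
      -((if i < l then p • (β i).sum else 0) + (if j < l then r • (β j).sum else 0)) := by
  induction l with
  | zero => simp [ch1cf]
  | succ l ih =>
    rw [ch1cf_succ, ch1cf_succ, ih]
    unfold ch1a
    by_cases h1 : l = i
    · subst h1
      rw [if_pos rfl, if_neg (lt_irrefl l), if_neg (by omega), if_pos (by omega),
        if_neg (by omega), sub_nsmul _ hp]
      abel
    · by_cases h2 : l = j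
      · subst h2
        rw [if_neg h1, if_pos rfl, if_neg (lt_irrefl l), if_pos hij, if_pos (by omega),
          if_pos (by omega), sub_nsmul _ hr]
        abel
      · rw [if_neg h1, if_neg h2]
        have e1 : (i < l + 1) ↔ (i < l) := by omega
        have e2 : (j < l + 1) ↔ (j < l) := by omega
        simp only [e1, e2]
        abel

/-- removing iterations makes the total smaller -/
private theorem ch1_sum {N : ℕ} (a : ℕ → ℕ) (i j p r : ℕ) (hi : i < N) (hp : 1 ≤ p)
    (hpa : p ≤ a i) : ∑ l ∈ range N, ch1a a i j p r l < ∑ l ∈ range N, a l := by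
  refine Finset.sum_lt_sum (fun l _ => ?_) ⟨i, mem_range.2 hi, ?_⟩
  · unfold ch1a
    split_ifs with h1 h2
    · rw [h1]
      omega
    · rw [h2]
      omega
    · exact le_rfl
  · unfold ch1a
    rw [if_pos rfl]
    omega

/-- the index form -/
private theorem ch1_core (N s M H : ℕ) (x : Vec d) (hx : 0 ≤ x) (α β : ℕ → List (Vec d))
    (a₀ : ℕ → ℕ) (hα : ∀ l < N, ∀ v ∈ α l, ∀ k, |v k| ≤ M)
    (hβ : ∀ l < N, ∀ v ∈ β l, ∀ k, |v k| ≤ M)
    (hs : ∀ l < N, (α l).length + (β l).length ≤ s)
    (hk : ∀ i < N, ∀ j < N, ∀ k l, (β i).sum k * (β j).sum l = (β i).sum l * (β j).sum k)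
    (hok : ∀ l < N, ch1Ok (ch1cf x α β a₀ l) (α l) (β l) (a₀ l))
    (hH : ∀ k, ch1cf x α β a₀ N k ≤ H) :
    ∃ a : ℕ → ℕ, (∀ l < N, ch1Ok (ch1cf x α β a l) (α l) (β l) (a l)) ∧
      ch1cf x α β a₀ N ≤ ch1cf x α β a N ∧
      ∑ i ∈ range N, a i ≤ 4 * (s * M + 2) ^ 2 * (N + H + 1) := by
  classical
  have hP : ∃ t : ℕ, ∃ a : ℕ → ℕ, (∀ l < N, ch1Ok (ch1cf x α β a l) (α l) (β l) (a l)) ∧
      ch1cf x α β a₀ N ≤ ch1cf x α β a N ∧ ∑ i ∈ range N, a i = t :=
    ⟨_, a₀, hok, le_rfl, rfl⟩
  obtain ⟨a, h1, h2, h3⟩ := Nat.find_spec hP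
  have hmin : ∀ a' : ℕ → ℕ, (∀ l < N, ch1Ok (ch1cf x α β a' l) (α l) (β l) (a' l)) →
      ch1cf x α β a₀ N ≤ ch1cf x α β a' N → ∑ i ∈ range N, a i ≤ ∑ i ∈ range N, a' i := by
    intro a' g1 g2
    rw [h3]
    exact Nat.find_min' hP ⟨a', g1, g2, rfl⟩
  refine ⟨a, h1, h2, ?_⟩
  obtain ⟨B, hB⟩ : ∃ B : ℕ, B = s * M := ⟨_, rfl⟩
  have lα : ∀ l < N, ((α l).length * M : ℤ) ≤ B := by
    intro l hl
    rw [hB]
    exact_mod_cast Nat.mul_le_mul_right M (by have := hs l hl; omega)
  have lβ : ∀ l < N, ((β l).length * M : ℤ) ≤ B := by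
    intro l hl
    rw [hB]
    exact_mod_cast Nat.mul_le_mul_right M (by have := hs l hl; omega)
  have bα : ∀ l < N, ∀ k, |(α l).sum k| ≤ B := fun l hl k => (sum_le (hα l hl) k).trans (lα l hl)
  have bβ : ∀ l < N, ∀ k, |(β l).sum k| ≤ B := fun l hl k => (sum_le (hβ l hl) k).trans (lβ l hl)
  -- non-negative configurations
  have n1 : ∀ l ≤ N, 0 ≤ ch1cf x α β a l := by
    intro l
    induction l with
    | zero =>
      intro _
      simpa [ch1cf] using hx
    | succ l ih =>
      intro hl
      have h4 := Ok_end (ih (by omega)) ((ch1_wrd _ _ _ _).2 (h1 l (by omega)))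
      rw [ch1_wrd_sum, ← add_assoc] at h4
      rw [ch1cf_succ]
      exact h4
  have n2 : ∀ l < N, 0 ≤ ch1cf x α β a l + (α l).sum :=
    fun l hl => Ok_end (n1 l hl.le) (h1 l hl).1
  -- coordinates of the next configuration
  have csucc : ∀ l k, ch1cf x α β a (l + 1) k =
      ch1cf x α β a l k + (α l).sum k + a l * (β l).sum k := by
    intro l k
    rw [ch1cf_succ]
    simp only [Pi.add_apply, Pi.smul_apply]
    simp only [nsmul_eq_mul]
  have hG : ((((B + 1) + 1) ^ 2 : ℕ) : ℤ) = (B : ℤ) ^ 2 + 4 * B + 4 := by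
    push_cast
    ring
  have hB0 : (0 : ℤ) ≤ B := Int.natCast_nonneg B
  -- one iteration less
  have H1 : ∀ i < N, B + 1 ≤ a i → ∃ c : Fin d, 0 < (β i).sum c ∧
      ((∃ l, i < l ∧ l ≤ N ∧ ch1cf x α β a l c < (((B + 1) + 1) ^ 2 : ℕ)) ∨
      ch1cf x α β a N c < ((H + (B + 1) + 1 : ℕ) : ℤ)) := by
    intro i hi hai
    by_contra hcon
    have hk3 : ∀ k, (β i).sum k ≤ 0 ∨
        ((∀ l, i < l → l ≤ N → ((((B + 1) + 1) ^ 2 : ℕ) : ℤ) ≤ ch1cf x α β a l k) ∧
        ((H + (B + 1) + 1 : ℕ) : ℤ) ≤ ch1cf x α β a N k) := by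
      intro k
      by_cases hc : 0 < (β i).sum k
      · right
        refine ⟨fun l h5 h6 => ?_, ?_⟩
        · by_contra h7
          exact hcon ⟨k, hc, Or.inl ⟨l, h5, h6, not_le.1 h7⟩⟩
        · by_contra h7
          exact hcon ⟨k, hc, Or.inr (not_le.1 h7)⟩
      · exact Or.inl (not_lt.1 hc)
    have hd : ∀ l, i < l → ch1cf x α β (ch1a a i (i + 1) 1 0) l =
        ch1cf x α β a l + -(β i).sum := by
      intro l hl
      rw [ch1_mod x α β a i (i + 1) 1 0 (Nat.lt_succ_self i) (by omega) (Nat.zero_le _) l,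
        if_pos hl]
      simp
    have hlt := ch1_sum (N := N) a i (i + 1) 1 0 hi le_rfl (by omega)
    refine absurd (hmin (ch1a a i (i + 1) 1 0) ?_ ?_) (not_le.2 hlt)
    · intro l hl
      rcases lt_trichotomy l i with hli | hli | hli
      · have e1 : ch1a a i (i + 1) 1 0 l = a l := by
          unfold ch1a
          rw [if_neg (by omega), if_neg (by omega)]
        have e2 : ch1cf x α β (ch1a a i (i + 1) 1 0) l = ch1cf x α β a l := by
          rw [ch1_mod x α β a i (i + 1) 1 0 (Nat.lt_succ_self i) (by omega) (Nat.zero_le _) l,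
            if_neg (by omega), if_neg (by omega)]
          simp
        rw [e1, e2]
        exact h1 l hl
      · subst hli
        have e1 : ch1a a l (l + 1) 1 0 l = a l - 1 := by
          unfold ch1a
          rw [if_pos rfl]
        have e2 : ch1cf x α β (ch1a a l (l + 1) 1 0) l = ch1cf x α β a l := by
          rw [ch1_mod x α β a l (l + 1) 1 0 (Nat.lt_succ_self l) (by omega) (Nat.zero_le _) l,
            if_neg (by omega), if_neg (by omega)]
          simp
        rw [e1, e2]
        exact ⟨(h1 l hl).1, fun κ hκ => (h1 l hl).2 κ (by omega)⟩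
      · have e1 : ch1a a i (i + 1) 1 0 l = a l := by
          unfold ch1a
          rw [if_neg (by omega)]
          split_ifs with h
          · rw [h, Nat.sub_zero]
          · rfl
        rw [e1, hd l hli]
        refine ch1_item (hα l hl) (hβ l hl) (lα l hl) (lβ l hl) (h1 l hl) fun k => ?_
        rcases hk3 k with h5 | ⟨h5, _⟩
        · left
          simp only [Pi.neg_apply]
          linarith
        · right
          have h7 := h5 l hli hl.le
          have h9 := h5 (l + 1) (by omega) (by omega)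
          have h10 := csucc l k
          have h11 := (abs_le.1 (bβ i hi k)).2
          have h8 := (abs_le.1 (bα l hl k)).1
          rw [hG] at h7 h9
          simp only [Pi.neg_apply]
          have h12 : 0 ≤ (B : ℤ) ^ 2 := sq_nonneg _
          refine ⟨by linarith, by linarith, by linarith⟩
    · rw [hd N hi]
      intro k
      rcases hk3 k with h5 | ⟨_, h6⟩
      · have h7 := h2 k
        simp only [Pi.add_apply, Pi.neg_apply]
        linarith
      · have h7 := hH k
        have h11 := (abs_le.1 (bβ i hi k)).2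
        push_cast at h6
        simp only [Pi.add_apply, Pi.neg_apply]
        linarith
  -- exchange
  have H3 : ∀ (i j : ℕ) (c : Fin d), i < j → j < N → B + 1 ≤ a i → B + 1 ≤ a j →
      (β i).sum c * (β j).sum c < 0 →
      ∃ l c', i < l ∧ l ≤ j ∧ 0 < (β i).sum c' ∧
        ch1cf x α β a l c' < (((B + 1) + 1) ^ 2 : ℕ) := by
    intro i j c hij hj hai haj hneg
    have hi : i < N := hij.trans hj
    by_contra hcon
    have hlow : ∀ l, i < l → l ≤ j → ∀ k, (β i).sum k ≤ 0 ∨
        ((((B + 1) + 1) ^ 2 : ℕ) : ℤ) ≤ ch1cf x α β a l k := by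
      intro l h5 h6 k
      by_contra h7
      rw [not_or] at h7
      exact hcon ⟨l, k, h5, h6, not_le.1 h7.1, not_le.1 h7.2⟩
    obtain ⟨p, hp⟩ : ∃ p : ℕ, (p : ℤ) = |(β j).sum c| := ⟨_, Int.natCast_natAbs _⟩
    obtain ⟨r, hr⟩ : ∃ r : ℕ, (r : ℤ) = |(β i).sum c| := ⟨_, Int.natCast_natAbs _⟩
    have hjc : (β j).sum c ≠ 0 := by
      intro h
      rw [h, mul_zero] at hneg
      exact lt_irrefl _ hneg
    have hp1 : 1 ≤ p := by
      have : (1 : ℤ) ≤ p := by
        rw [hp]
        exact Int.one_le_abs hjc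
      exact_mod_cast this
    have hpB : p ≤ B := by
      have : (p : ℤ) ≤ B := by rw [hp]; exact bβ j hj c
      exact_mod_cast this
    have hrB : r ≤ B := by
      have : (r : ℤ) ≤ B := by rw [hr]; exact bβ i hi c
      exact_mod_cast this
    have hmod := ch1_mod x α β a i j p r hij (by omega) (by omega)
    have hlt := ch1_sum (N := N) a i j p r hi hp1 (by omega)
    -- the final change is zero
    have hfin : ∀ k, (p : ℤ) * (β i).sum k + r * (β j).sum k = 0 := by
      intro k
      have h5 := hk i hi j hj c k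
      rw [hp, hr]
      rcases lt_trichotomy ((β i).sum c) 0 with h6 | h6 | h6
      · have h7 : 0 < (β j).sum c := by
          by_contra h8
          have := mul_nonneg_of_nonpos_of_nonpos h6.le (not_lt.1 h8)
          linarith
        rw [abs_of_neg h6, abs_of_pos h7]
        linarith
      · rw [h6, zero_mul] at hneg
        exact absurd hneg (lt_irrefl _)
      · have h7 : (β j).sum c < 0 := by
          by_contra h8
          have := mul_nonneg h6.le (not_lt.1 h8)
          linarith
        rw [abs_of_pos h6, abs_of_neg h7]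
        linarith
    have hfinv : p • (β i).sum + r • (β j).sum = 0 := by
      funext k
      simp only [Pi.add_apply, Pi.smul_apply, Pi.zero_apply]
      simp only [nsmul_eq_mul]
      exact hfin k
    have hpk : ∀ k, (p : ℤ) * (β i).sum k ≤ (B : ℤ) ^ 2 := by
      intro k
      have h5 := (abs_le.1 (bβ i hi k)).2
      have h6 : (p : ℤ) ≤ B := by exact_mod_cast hpB
      have h7 : (p : ℤ) * (β i).sum k ≤ p * B :=
        mul_le_mul_of_nonneg_left h5 (Int.natCast_nonneg _)
      have h8 : (p : ℤ) * B ≤ B * B := mul_le_mul_of_nonneg_right h6 hB0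
      nlinarith
    refine absurd (hmin (ch1a a i j p r) ?_ ?_) (not_le.2 hlt)
    · intro l hl
      rcases lt_trichotomy l i with hli | hli | hli
      · have e1 : ch1a a i j p r l = a l := by
          unfold ch1a
          rw [if_neg (by omega), if_neg (by omega)]
        have e2 : ch1cf x α β (ch1a a i j p r) l = ch1cf x α β a l := by
          rw [hmod l, if_neg (by omega), if_neg (by omega)]
          simp
        rw [e1, e2]
        exact h1 l hl
      · subst hli
        have e1 : ch1a a l j p r l = a l - p := by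
          unfold ch1a
          rw [if_pos rfl]
        have e2 : ch1cf x α β (ch1a a l j p r) l = ch1cf x α β a l := by
          rw [hmod l, if_neg (by omega), if_neg (by omega)]
          simp
        rw [e1, e2]
        exact ⟨(h1 l hl).1, fun κ hκ => (h1 l hl).2 κ (by omega)⟩
      · rcases lt_trichotomy l j with hlj | hlj | hlj
        · have e1 : ch1a a i j p r l = a l := by
            unfold ch1a
            rw [if_neg (by omega), if_neg (by omega)]
          have e2 : ch1cf x α β (ch1a a i j p r) l =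
              ch1cf x α β a l + -(p • (β i).sum) := by
            rw [hmod l, if_pos hli, if_neg (by omega), add_zero]
          rw [e1, e2]
          refine ch1_item (hα l hl) (hβ l hl) (lα l hl) (lβ l hl) (h1 l hl) fun k => ?_
          simp only [Pi.neg_apply, Pi.smul_apply]
          simp only [nsmul_eq_mul]
          by_cases hk0 : (β i).sum k ≤ 0
          · left
            have : (p : ℤ) * (β i).sum k ≤ 0 :=
              mul_nonpos_of_nonneg_of_nonpos (Int.natCast_nonneg _) hk0
            linarith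
          · right
            have h7 := (hlow l hli hlj.le k).resolve_left hk0
            have h9 := (hlow (l + 1) (by omega) (by omega) k).resolve_left hk0
            have h10 := csucc l k
            have h8 := (abs_le.1 (bα l hl k)).1
            have h11 := hpk k
            rw [hG] at h7 h9
            refine ⟨by linarith, by linarith, by linarith⟩
        · subst hlj
          have e1 : ch1a a i l p r l = a l - r := by
            unfold ch1a
            rw [if_neg (by omega), if_pos rfl]
          have e2 : ch1cf x α β (ch1a a i l p r) l =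
              ch1cf x α β a l + -(p • (β i).sum) := by
            rw [hmod l, if_pos hli, if_neg (by omega), add_zero]
          rw [e1, e2]
          refine ⟨ch1_word (hα l hl) (h1 l hl).1 fun k => ?_, fun κ hκ => ?_⟩
          · simp only [Pi.neg_apply, Pi.smul_apply]
            simp only [nsmul_eq_mul]
            by_cases hk0 : (β i).sum k ≤ 0
            · left
              have : (p : ℤ) * (β i).sum k ≤ 0 :=
                mul_nonpos_of_nonneg_of_nonpos (Int.natCast_nonneg _) hk0
              linarith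
            · right
              have h7 := (hlow l hli le_rfl k).resolve_left hk0
              have h11 := hpk k
              rw [hG] at h7
              have := lα l hl
              linarith
          · have h5 := (h1 l hl).2 (κ + r) (by omega)
            have e3 : ch1cf x α β a l + -(p • (β i).sum) + (α l).sum + κ • (β l).sum =
                ch1cf x α β a l + (α l).sum + (κ + r) • (β l).sum := by
              have h6 : -(p • (β i).sum) = r • (β l).sum := neg_eq_of_add_eq_zero_right hfinv
              rw [h6, add_nsmul]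
              abel
            rw [e3]
            exact h5
        · have e1 : ch1a a i j p r l = a l := by
            unfold ch1a
            rw [if_neg (by omega), if_neg (by omega)]
          have e2 : ch1cf x α β (ch1a a i j p r) l = ch1cf x α β a l := by
            rw [hmod l, if_pos hli, if_pos hlj, hfinv]
            simp
          rw [e1, e2]
          exact h1 l hl
    · rw [hmod N, if_pos hi, if_pos hj, hfinv]
      simpa using h2
  -- the potential argument
  have key := pot1 N (B + 1) (((B + 1) + 1) ^ 2) (H + (B + 1) + 1)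
    (fun i c => (β i).sum c) (fun i c => (α i).sum c)
    (fun i c => ch1cf x α β a i c) a
    (fun i _ c => csucc i _)
    (fun i hi c => (bβ i hi _).trans (by push_cast; linarith))
    (fun i hi c => (bα i hi _).trans (by push_cast; linarith))
    (fun i hi c => n2 i hi _) hk H1 H3
  refine key.trans ?_
  rw [← hB]
  obtain ⟨D, hD⟩ : ∃ D : ℕ, D = B + 2 := ⟨_, rfl⟩
  have hD2 : 2 ≤ D := by omega
  have e1 : B + 1 + 1 = D := by omega
  rw [e1]
  have e2 : (B + 1) ^ 2 ≤ D ^ 2 := Nat.pow_le_pow_left (by omega) _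
  have e3 : 2 * (B + 1) ≤ D ^ 2 := by
    calc 2 * (B + 1) ≤ D * D := Nat.mul_le_mul hD2 (by omega)
      _ = D ^ 2 := by ring
  have e4 : H + (B + 1) + 1 ≤ D ^ 2 * (H + 1) := by
    have h5 : D ≤ D ^ 2 := by
      rw [pow_two]
      exact Nat.le_mul_of_pos_left _ (by omega)
    calc H + (B + 1) + 1 = H + D := by omega
      _ ≤ D ^ 2 * H + D ^ 2 := Nat.add_le_add (Nat.le_mul_of_pos_left _ (by positivity)) h5
      _ = D ^ 2 * (H + 1) := by ring
  calc (D ^ 2 + (B + 1) ^ 2 + 2 * (B + 1)) * N + (H + (B + 1) + 1)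
      ≤ (D ^ 2 + D ^ 2 + D ^ 2) * N + D ^ 2 * (H + 1) :=
        Nat.add_le_add (Nat.mul_le_mul_right _ (by omega)) e4
    _ ≤ (D ^ 2 + D ^ 2 + D ^ 2) * N + D ^ 2 * (H + 1) + (D ^ 2 * N + 3 * (D ^ 2 * (H + 1))) :=
        Nat.le_add_right _ _
    _ = 4 * D ^ 2 * (N + H + 1) := by ring

private theorem ch1_lsum (a : ℕ → ℕ) (N : ℕ) :
    ((List.range N).map a).sum = ∑ i ∈ range N, a i := by
  induction N with
  | zero => simp
  | succ N ih =>
    rw [List.range_succ, List.map_append, List.sum_append, ih, sum_range_succ]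
    simp

/-- the bound on the exponents -/
def cC1 (s M : ℕ) : ℕ := 4 * (s * M + 2) ^ 2

theorem chain1 {Q : Type} {T : VASS Q d} {p q : Q} {x : Vec d} {I : List (Itm d)}
    {s H : ℕ} (hI : IsScheme T p (I.map isk) q) (hx : 0 ≤ x) (hok : Ok x (unroll I))
    (hk : ∀ e ∈ I, ∀ e' ∈ I, ∀ k l, e.2.1.sum k * e'.2.1.sum l = e.2.1.sum l * e'.2.1.sum k)
    (hs : ∀ e ∈ I, e.1.length + e.2.1.length ≤ s)
    (hH : ∀ k, (x + (unroll I).sum) k ≤ H) :
    ∃ J : List (Itm d), J.map isk = I.map isk ∧ Ok x (unroll J) ∧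
      (unroll I).sum ≤ (unroll J).sum ∧
      (J.map fun e => e.2.2).sum ≤ cC1 s (maxNorm T) * (I.length + H + 1) := by
  obtain ⟨g, hg⟩ : ∃ g : ℕ → Itm d, g = fun i => I.getD i ([], [], 0) := ⟨_, rfl⟩
  have hmem : ∀ l < I.length, g l ∈ I := by
    intro l hl
    rw [hg]
    simp only
    rw [List.getD_eq_getElem _ _ hl]
    exact List.getElem_mem hl
  have hI' : I = (List.range I.length).map
      (fun i => ((g i).1, (g i).2.1, (g i).2.2)) := by
    apply List.ext_getElem
    · simp
    · intro i h1 h2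
      rw [List.getElem_map, List.getElem_range, hg]
      simp only
      rw [List.getD_eq_getElem _ _ h1]
  have hlet : ∀ l < I.length, (∀ v ∈ (g l).1, ∀ k, |v k| ≤ maxNorm T) ∧
      ∀ v ∈ (g l).2.1, ∀ k, |v k| ≤ maxNorm T := by
    intro l hl
    obtain ⟨⟨p', q', h4⟩, r, h5⟩ := scheme_loops I hI (g l) (hmem l hl)
    refine ⟨fun v hv k => ?_, fun v hv k => ?_⟩
    · obtain ⟨a, b, hab⟩ := h4.letters v hv
      exact abs_le_maxNorm hab k
    · obtain ⟨a, b, hab⟩ := h5.letters v hv
      exact abs_le_maxNorm hab k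
  obtain ⟨u1, u2⟩ := ch1_unroll x (fun i => (g i).1) (fun i => (g i).2.1) (fun i => (g i).2.2)
    I.length
  rw [← hI'] at u1 u2
  obtain ⟨a, h1, h2, h3⟩ := ch1_core I.length s (maxNorm T) H x hx (fun i => (g i).1)
    (fun i => (g i).2.1) (fun i => (g i).2.2) (fun l hl => (hlet l hl).1)
    (fun l hl => (hlet l hl).2) (fun l hl => hs _ (hmem l hl))
    (fun i hi j hj => hk _ (hmem i hi) _ (hmem j hj))
    (u1.1 hok) (fun k => by rw [← u2]; exact hH k)
  obtain ⟨v1, v2⟩ := ch1_unroll x (fun i => (g i).1) (fun i => (g i).2.1) a I.length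
  refine ⟨(List.range I.length).map fun i => ((g i).1, (g i).2.1, a i), ?_, v1.2 h1, ?_, ?_⟩
  · conv_rhs => rw [hI']
    rw [List.map_map, List.map_map]
    rfl
  · rw [← u2, ← v2] at h2
    exact (add_le_add_iff_left x).1 h2
  · rw [List.map_map]
    have e : ((fun e : Itm d => e.2.2) ∘ fun i => ((g i).1, (g i).2.1, a i)) = a := rfl
    rw [e, ch1_lsum]
    exact h3

end Pool.Agent.EE3
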