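import Pool.Agent.EE3.Pot2
import Pool.Agent.EEF.Main

/-!
# EE3 / Chain2: exchange of loop iterations in a path scheme whose loops do not change a counter
-/

set_option autoImplicit false
set_option linter.unusedSectionVars false

namespace Pool.Agent.EE3

open Pool.Agent.EEF Finset

/-- raising or slightly lowering the start of a short word -/
private theorem ch2_word {M : ℕ} {w : List (Vec 3)} (hM : ∀ v ∈ w, ∀ k, |v k| ≤ M) :
    ∀ {y Δ : Vec 3}, Ok y w → (∀ k, 0 ≤ Δ k ∨ (w.length * M : ℤ) ≤ y k + Δ k) →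
      Ok (y + Δ) w := by
  induction w with
  | nil =>
    intro y Δ _ _
    trivial
  | cons v w ih =>
    intro y Δ h hΔ
    have hv := hM v List.mem_cons_self
    have hwM : (0 : ℤ) ≤ w.length * M := by positivity
    refine ⟨fun k => ?_, ?_⟩
    · have h1 := h.1 k
      have h2 := abs_le.1 (hv k)
      have h3 := hΔ k
      simp only [Pi.zero_apply, Pi.add_apply, List.length_cons] at h1 h3 ⊢
      push_cast at h3
      rcases h3 with h3 | h3
      · linarith
      · linarith [h2.1]
    · have e : y + Δ + v = (y + v) + Δ := add_right_comm _ _ _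
      rw [e]
      refine ih (fun u hu => hM u (List.mem_cons_of_mem _ hu)) h.2 fun k => ?_
      have h2 := abs_le.1 (hv k)
      have h3 := hΔ k
      simp only [Pi.add_apply, List.length_cons] at h3 ⊢
      push_cast at h3
      rcases h3 with h3 | h3
      · exact Or.inl h3
      · right
        linarith [h2.1]

/-- an item is executable -/
private def ch2Ok (y : Vec 3) (α β : List (Vec 3)) (a : ℕ) : Prop :=
  Ok y α ∧ ∀ κ < a, Ok (y + α.sum + κ • β.sum) β

private theorem ch2_rep {n : ℕ} {x : Vec 3} {w : List (Vec 3)} (h : Ok x (rep n w)) :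
    ∀ j < n, Ok (x + j • w.sum) w := by
  induction n generalizing x with
  | zero =>
    intro j hj
    exact absurd hj (Nat.not_lt_zero _)
  | succ n ih =>
    intro j hj
    rw [rep_succ, Ok_append] at h
    cases j with
    | zero => simpa using h.1
    | succ j =>
      have h1 := ih h.2 j (by omega)
      have e : x + (j + 1) • w.sum = x + w.sum + j • w.sum := by
        rw [succ_nsmul', add_assoc]
      rw [e]
      exact h1

private theorem ch2_wrd (y : Vec 3) (α β : List (Vec 3)) (a : ℕ) :
    Ok y (wrd (α, β, a)) ↔ ch2Ok y α β a := by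
  unfold ch2Ok wrd
  rw [Ok_append]
  exact ⟨fun h => ⟨h.1, ch2_rep h.2⟩, fun h => ⟨h.1, Ok_rep h.2⟩⟩

private theorem ch2_wrd_sum (α β : List (Vec 3)) (a : ℕ) :
    (wrd (α, β, a)).sum = α.sum + a • β.sum := by
  unfold wrd
  rw [List.sum_append, rep_sum]

/-- the configuration before the item `l` -/
private def ch2cf (x : Vec 3) (α β : ℕ → List (Vec 3)) (a : ℕ → ℕ) (l : ℕ) : Vec 3 :=
  x + ∑ j ∈ range l, ((α j).sum + a j • (β j).sum)

private theorem ch2cf_succ (x : Vec 3) (α β : ℕ → List (Vec 3)) (a : ℕ → ℕ) (l : ℕ) :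
    ch2cf x α β a (l + 1) = ch2cf x α β a l + (α l).sum + a l • (β l).sum := by
  unfold ch2cf
  rw [sum_range_succ]
  simp only [add_assoc]

private theorem ch2_unroll (x : Vec 3) (α β : ℕ → List (Vec 3)) (a : ℕ → ℕ) (N : ℕ) :
    (Ok x (unroll ((List.range N).map fun i => (α i, β i, a i))) ↔
      ∀ l < N, ch2Ok (ch2cf x α β a l) (α l) (β l) (a l)) ∧
    x + (unroll ((List.range N).map fun i => (α i, β i, a i))).sum = ch2cf x α β a N := by
  induction N with
  | zero =>
    constructor
    · simp [unroll_nil, Ok]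
    · simp [unroll_nil, ch2cf]
  | succ N ih =>
    obtain ⟨ih1, ih2⟩ := ih
    rw [List.range_succ, List.map_append, unroll_append, Ok_append, List.sum_append, ih2,
      List.map_singleton, unroll_cons, unroll_nil, List.append_nil, ch2_wrd, ih1]
    constructor
    · constructor
      · rintro ⟨h1, h2⟩ l hl
        by_cases h : l = N
        · rw [h]
          exact h2
        · exact h1 l (by omega)
      · intro h
        exact ⟨fun l hl => h l (by omega), h N (by omega)⟩
    · rw [← add_assoc, ih2, ch2_wrd_sum, ch2cf_succ, add_assoc]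

private theorem ch2_mid {v u : ℤ} {a κ : ℕ} {b : ℤ} (h1 : b ≤ v) (h2 : b ≤ v + a * u)
    (h : κ ≤ a) : b ≤ v + κ * u := by
  have h' : (κ : ℤ) ≤ a := by exact_mod_cast h
  rcases le_total 0 u with hu | hu
  · have : 0 ≤ (κ : ℤ) * u := mul_nonneg (Int.natCast_nonneg _) hu
    linarith
  · have : (a : ℤ) * u ≤ κ * u := mul_le_mul_of_nonpos_right h' hu
    linarith

/-- shifting the start of an item -/
private theorem ch2_item {M B : ℕ} {y Δ : Vec 3} {α β : List (Vec 3)} {a : ℕ}
    (hα : ∀ v ∈ α, ∀ k, |v k| ≤ M) (hβ : ∀ v ∈ β, ∀ k, |v k| ≤ M)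
    (lα : (α.length * M : ℤ) ≤ B) (lβ : (β.length * M : ℤ) ≤ B) (h : ch2Ok y α β a)
    (hΔ : ∀ k, 0 ≤ Δ k ∨ ((B : ℤ) ≤ y k + Δ k ∧ (B : ℤ) ≤ y k + α.sum k + Δ k ∧
      (B : ℤ) ≤ y k + α.sum k + a * β.sum k + Δ k)) : ch2Ok (y + Δ) α β a := by
  refine ⟨ch2_word hα h.1 fun k => ?_, fun κ hκ => ?_⟩
  · rcases hΔ k with h1 | ⟨h1, _, _⟩
    · exact Or.inl h1
    · exact Or.inr (lα.trans h1)
  · have e : y + Δ + α.sum + κ • β.sum = (y + α.sum + κ • β.sum) + Δ := by abel
    rw [e]
    refine ch2_word hβ (h.2 κ hκ) fun k => ?_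
    rcases hΔ k with h1 | ⟨_, h2, h3⟩
    · exact Or.inl h1
    · right
      have h4 : (B : ℤ) ≤ (y k + α.sum k + Δ k) + κ * β.sum k :=
        ch2_mid (a := a) h2 (by linarith) hκ.le
      simp only [Pi.add_apply, Pi.smul_apply]
      simp only [nsmul_eq_mul]
      linarith

/-- removal of iterations of two loops -/
private def ch2a (a : ℕ → ℕ) (i j p r : ℕ) (l : ℕ) : ℕ :=
  if l = i then a i - p else if l = j then a j - r else a l

private theorem ch2_mod (x : Vec 3) (α β : ℕ → List (Vec 3)) (a : ℕ → ℕ) (i j p r : ℕ)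
    (hij : i < j) (hp : p ≤ a i) (hr : r ≤ a j) (l : ℕ) :
    ch2cf x α β (ch2a a i j p r) l = ch2cf x α β a l +
      -((if i < l then p • (β i).sum else 0) + (if j < l then r • (β j).sum else 0)) := by
  induction l with
  | zero => simp [ch2cf]
  | succ l ih =>
    rw [ch2cf_succ, ch2cf_succ, ih]
    unfold ch2a
    by_cases h1 : l = i
    · subst h1
      rw [if_pos rfl, if_neg (lt_irrefl l), if_neg (by omega), if_pos (by omega),
        if_neg (by omega), sub_nsmul _ hp]
      abel
    · by_cases h2 : l = j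
      · subst h2
        rw [if_neg h1, if_pos rfl, if_neg (lt_irrefl l), if_pos hij, if_pos (by omega),
          if_pos (by omega), sub_nsmul _ hr]
        abel
      · rw [if_neg h1, if_neg h2]
        have e1 : (i < l + 1) ↔ (i < l) := by omega
        have e2 : (j < l + 1) ↔ (j < l) := by omega
        simp only [e1, e2]
        abel

/-- removing iterations makes the total smaller -/
private theorem ch2_sum {N : ℕ} (a : ℕ → ℕ) (i j p r : ℕ) (hi : i < N) (hp : 1 ≤ p)
    (hpa : p ≤ a i) : ∑ l ∈ range N, ch2a a i j p r l < ∑ l ∈ range N, a l := by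
  refine Finset.sum_lt_sum (fun l _ => ?_) ⟨i, mem_range.2 hi, ?_⟩
  · unfold ch2a
    split_ifs with h1 h2
    · rw [h1]
      omega
    · rw [h2]
      omega
    · exact le_rfl
  · unfold ch2a
    rw [if_pos rfl]
    omega

/-- the index form -/
private theorem ch2_core (N s M H : ℕ) (x : Vec 3) (hx : 0 ≤ x) (α β : ℕ → List (Vec 3))
    (a₀ : ℕ → ℕ) (k₀ : Fin 3) (hα : ∀ l < N, ∀ v ∈ α l, ∀ k, |v k| ≤ M)
    (hβ : ∀ l < N, ∀ v ∈ β l, ∀ k, |v k| ≤ M)
    (hs : ∀ l < N, (α l).length + (β l).length ≤ s) (hk : ∀ l < N, (β l).sum k₀ = 0)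
    (hok : ∀ l < N, ch2Ok (ch2cf x α β a₀ l) (α l) (β l) (a₀ l))
    (hH : ∀ k, ch2cf x α β a₀ N k ≤ H) :
    ∃ a : ℕ → ℕ, (∀ l < N, ch2Ok (ch2cf x α β a l) (α l) (β l) (a l)) ∧
      ch2cf x α β a₀ N ≤ ch2cf x α β a N ∧
      ∑ i ∈ range N, a i ≤ 8 * (s * M + 2) ^ 8 * (N + H + 1) := by
  classical
  have hP : ∃ t : ℕ, ∃ a : ℕ → ℕ, (∀ l < N, ch2Ok (ch2cf x α β a l) (α l) (β l) (a l)) ∧
      ch2cf x α β a₀ N ≤ ch2cf x α β a N ∧ ∑ i ∈ range N, a i = t :=
    ⟨_, a₀, hok, le_rfl, rfl⟩
  obtain ⟨a, h1, h2, h3⟩ := Nat.find_spec hP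
  have hmin : ∀ a' : ℕ → ℕ, (∀ l < N, ch2Ok (ch2cf x α β a' l) (α l) (β l) (a' l)) →
      ch2cf x α β a₀ N ≤ ch2cf x α β a' N → ∑ i ∈ range N, a i ≤ ∑ i ∈ range N, a' i := by
    intro a' g1 g2
    rw [h3]
    exact Nat.find_min' hP ⟨a', g1, g2, rfl⟩
  refine ⟨a, h1, h2, ?_⟩
  obtain ⟨B, hB⟩ : ∃ B : ℕ, B = s * M := ⟨_, rfl⟩
  have lα : ∀ l < N, ((α l).length * M : ℤ) ≤ B := by
    intro l hl
    rw [hB]
    exact_mod_cast Nat.mul_le_mul_right M (by have := hs l hl; omega)
  have lβ : ∀ l < N, ((β l).length * M : ℤ) ≤ B := by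
    intro l hl
    rw [hB]
    exact_mod_cast Nat.mul_le_mul_right M (by have := hs l hl; omega)
  have bα : ∀ l < N, ∀ k, |(α l).sum k| ≤ B := fun l hl k => (sum_le (hα l hl) k).trans (lα l hl)
  have bβ : ∀ l < N, ∀ k, |(β l).sum k| ≤ B := fun l hl k => (sum_le (hβ l hl) k).trans (lβ l hl)
  -- non-negative configurations
  have n1 : ∀ l ≤ N, 0 ≤ ch2cf x α β a l := by
    intro l
    induction l with
    | zero =>
      intro _
      simpa [ch2cf] using hx
    | succ l ih =>
      intro hl
      have h4 := Ok_end (ih (by omega)) ((ch2_wrd _ _ _ _).2 (h1 l (by omega)))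
      rw [ch2_wrd_sum, ← add_assoc] at h4
      rw [ch2cf_succ]
      exact h4
  have n2 : ∀ l < N, 0 ≤ ch2cf x α β a l + (α l).sum :=
    fun l hl => Ok_end (n1 l hl.le) (h1 l hl).1
  -- coordinates of the next configuration
  have csucc : ∀ l k, ch2cf x α β a (l + 1) k =
      ch2cf x α β a l k + (α l).sum k + a l * (β l).sum k := by
    intro l k
    rw [ch2cf_succ]
    simp only [Pi.add_apply, Pi.smul_apply]
    simp only [nsmul_eq_mul]
  have hG : ((((B + 1) + 1) ^ 2 : ℕ) : ℤ) = (B : ℤ) ^ 2 + 4 * B + 4 := by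
    push_cast
    ring
  have hB0 : (0 : ℤ) ≤ B := Int.natCast_nonneg B
  -- one iteration less
  have H1 : ∀ i < N, B + 1 ≤ a i → ∃ c : Fin 2, 0 < (β i).sum (k₀.succAbove c) ∧
      ((∃ l, i < l ∧ l ≤ N ∧
        ch2cf x α β a l (k₀.succAbove c) < (((B + 1) + 1) ^ 2 : ℕ)) ∨
      (∃ l, i < l ∧ l < N ∧ ch2cf x α β a l (k₀.succAbove c) + (α l).sum (k₀.succAbove c) <
        (((B + 1) + 1) ^ 2 : ℕ)) ∨
      ch2cf x α β a N (k₀.succAbove c) < ((H + (B + 1) + 1 : ℕ) : ℤ)) := by
    intro i hi hai
    by_contra hcon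
    have hk3 : ∀ k, (β i).sum k ≤ 0 ∨
        ((∀ l, i < l → l ≤ N → ((((B + 1) + 1) ^ 2 : ℕ) : ℤ) ≤ ch2cf x α β a l k) ∧
        (∀ l, i < l → l < N →
          ((((B + 1) + 1) ^ 2 : ℕ) : ℤ) ≤ ch2cf x α β a l k + (α l).sum k) ∧
        ((H + (B + 1) + 1 : ℕ) : ℤ) ≤ ch2cf x α β a N k) := by
      intro k
      rcases Fin.eq_self_or_eq_succAbove k₀ k with rfl | ⟨c, rfl⟩
      · exact Or.inl (hk i hi).le
      · by_cases hc : 0 < (β i).sum (k₀.succAbove c)
        · right
          refine ⟨fun l h5 h6 => ?_, fun l h5 h6 => ?_, ?_⟩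
          · by_contra h7
            exact hcon ⟨c, hc, Or.inl ⟨l, h5, h6, not_le.1 h7⟩⟩
          · by_contra h7
            exact hcon ⟨c, hc, Or.inr (Or.inl ⟨l, h5, h6, not_le.1 h7⟩)⟩
          · by_contra h7
            exact hcon ⟨c, hc, Or.inr (Or.inr (not_le.1 h7))⟩
        · exact Or.inl (not_lt.1 hc)
    have hd : ∀ l, i < l → ch2cf x α β (ch2a a i (i + 1) 1 0) l =
        ch2cf x α β a l + -(β i).sum := by
      intro l hl
      rw [ch2_mod x α β a i (i + 1) 1 0 (Nat.lt_succ_self i) (by omega) (Nat.zero_le _) l,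
        if_pos hl]
      simp
    have hlt := ch2_sum (N := N) a i (i + 1) 1 0 hi le_rfl (by omega)
    refine absurd (hmin (ch2a a i (i + 1) 1 0) ?_ ?_) (not_le.2 hlt)
    · intro l hl
      rcases lt_trichotomy l i with hli | hli | hli
      · have e1 : ch2a a i (i + 1) 1 0 l = a l := by
          unfold ch2a
          rw [if_neg (by omega), if_neg (by omega)]
        have e2 : ch2cf x α β (ch2a a i (i + 1) 1 0) l = ch2cf x α β a l := by
          rw [ch2_mod x α β a i (i + 1) 1 0 (Nat.lt_succ_self i) (by omega) (Nat.zero_le _) l,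
            if_neg (by omega), if_neg (by omega)]
          simp
        rw [e1, e2]
        exact h1 l hl
      · subst hli
        have e1 : ch2a a l (l + 1) 1 0 l = a l - 1 := by
          unfold ch2a
          rw [if_pos rfl]
        have e2 : ch2cf x α β (ch2a a l (l + 1) 1 0) l = ch2cf x α β a l := by
          rw [ch2_mod x α β a l (l + 1) 1 0 (Nat.lt_succ_self l) (by omega) (Nat.zero_le _) l,
            if_neg (by omega), if_neg (by omega)]
          simp
        rw [e1, e2]
        exact ⟨(h1 l hl).1, fun κ hκ => (h1 l hl).2 κ (by omega)⟩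
      · have e1 : ch2a a i (i + 1) 1 0 l = a l := by
          unfold ch2a
          rw [if_neg (by omega)]
          split_ifs with h
          · rw [h, Nat.sub_zero]
          · rfl
        rw [e1, hd l hli]
        refine ch2_item (hα l hl) (hβ l hl) (lα l hl) (lβ l hl) (h1 l hl) fun k => ?_
        rcases hk3 k with h5 | ⟨h5, h6, _⟩
        · left
          simp only [Pi.neg_apply]
          linarith
        · right
          have h7 := h5 l hli hl.le
          have h8 := h6 l hli hl
          have h9 := h5 (l + 1) (by omega) (by omega)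
          have h10 := csucc l k
          have h11 := (abs_le.1 (bβ i hi k)).2
          rw [hG] at h7 h8 h9
          simp only [Pi.neg_apply]
          have h12 : 0 ≤ (B : ℤ) ^ 2 := sq_nonneg _
          refine ⟨by linarith, by linarith, by linarith⟩
    · rw [hd N hi]
      intro k
      rcases hk3 k with h5 | ⟨_, _, h6⟩
      · have h7 := h2 k
        simp only [Pi.add_apply, Pi.neg_apply]
        linarith
      · have h7 := hH k
        have h11 := (abs_le.1 (bβ i hi k)).2
        push_cast at h6
        simp only [Pi.add_apply, Pi.neg_apply]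
        linarith
  -- exchange
  have H3 : ∀ (i j : ℕ) (c c' : Fin 2), i < j → j < N → B + 1 ≤ a i → B + 1 ≤ a j → c ≠ c' →
      0 < (β i).sum (k₀.succAbove c) → (β i).sum (k₀.succAbove c') < 0 →
      (β j).sum (k₀.succAbove c) < 0 → 0 < (β j).sum (k₀.succAbove c') →
      (β i).sum (k₀.succAbove c) * (β j).sum (k₀.succAbove c') ≤
        (β i).sum (k₀.succAbove c') * (β j).sum (k₀.succAbove c) →
      ∃ l, i < l ∧ l ≤ j ∧ (ch2cf x α β a l (k₀.succAbove c) < (((B + 1) + 1) ^ 2 : ℕ) ∨
        ch2cf x α β a l (k₀.succAbove c) + (α l).sum (k₀.succAbove c) <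
          (((B + 1) + 1) ^ 2 : ℕ)) := by
    intro i j c c' hij hj hai haj hcc s1 s2 s3 s4 hprod
    have hi : i < N := hij.trans hj
    by_contra hcon
    have hlow : ∀ l, i < l → l ≤ j →
        ((((B + 1) + 1) ^ 2 : ℕ) : ℤ) ≤ ch2cf x α β a l (k₀.succAbove c) ∧
        ((((B + 1) + 1) ^ 2 : ℕ) : ℤ) ≤
          ch2cf x α β a l (k₀.succAbove c) + (α l).sum (k₀.succAbove c) := by
      intro l h5 h6
      constructor
      · by_contra h7
        exact hcon ⟨l, h5, h6, Or.inl (not_le.1 h7)⟩
      · by_contra h7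
        exact hcon ⟨l, h5, h6, Or.inr (not_le.1 h7)⟩
    obtain ⟨p, hp⟩ : ∃ p : ℕ, (p : ℤ) = -(β j).sum (k₀.succAbove c) :=
      ⟨(-(β j).sum (k₀.succAbove c)).toNat, Int.toNat_of_nonneg (by linarith)⟩
    obtain ⟨r, hr⟩ : ∃ r : ℕ, (r : ℤ) = (β i).sum (k₀.succAbove c) :=
      ⟨((β i).sum (k₀.succAbove c)).toNat, Int.toNat_of_nonneg s1.le⟩
    have hp1 : 1 ≤ p := by
      have : (1 : ℤ) ≤ p := by rw [hp]; linarith
      exact_mod_cast this
    have hpB : p ≤ B := by
      have h5 := (abs_le.1 (bβ j hj (k₀.succAbove c))).1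
      have : (p : ℤ) ≤ B := by rw [hp]; linarith
      exact_mod_cast this
    have hrB : r ≤ B := by
      have h5 := (abs_le.1 (bβ i hi (k₀.succAbove c))).2
      have : (r : ℤ) ≤ B := by rw [hr]; exact h5
      exact_mod_cast this
    have hpr : (p : ℤ) * r ≤ (B : ℤ) ^ 2 := by
      rw [sq]
      exact mul_le_mul (by exact_mod_cast hpB) (by exact_mod_cast hrB) (Int.natCast_nonneg _) hB0
    have hmod := ch2_mod x α β a i j p r hij (by omega) (by omega)
    have hlt := ch2_sum (N := N) a i j p r hi hp1 (by omega)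
    -- the three counters
    have hcases : ∀ k, k = k₀ ∨ k = k₀.succAbove c ∨ k = k₀.succAbove c' := by
      intro k
      rcases Fin.eq_self_or_eq_succAbove k₀ k with h | ⟨d, rfl⟩
      · exact Or.inl h
      · right
        have : d = c ∨ d = c' := by
          revert hcc
          clear * -
          revert c c' d
          decide
        rcases this with rfl | rfl
        · exact Or.inl rfl
        · exact Or.inr rfl
    -- the final change is non-negative
    have hfin : ∀ k, 0 ≤ -((p : ℤ) * (β i).sum k + r * (β j).sum k) := by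
      intro k
      rcases hcases k with rfl | rfl | rfl
      · rw [hk i hi, hk j hj]
        simp
      · rw [hp, ← hr]
        apply le_of_eq
        ring
      · rw [hp, hr]
        linarith
    -- the change in between
    have hmidΔ : ∀ k, 0 ≤ -((p : ℤ) * (β i).sum k) ∨ k = k₀.succAbove c := by
      intro k
      rcases hcases k with rfl | rfl | rfl
      · left
        rw [hk i hi]
        simp
      · exact Or.inr rfl
      · left
        have : (p : ℤ) * (β i).sum (k₀.succAbove c') ≤ 0 :=
          mul_nonpos_of_nonneg_of_nonpos (Int.natCast_nonneg _) s2.le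
        linarith
    refine absurd (hmin (ch2a a i j p r) ?_ ?_) (not_le.2 hlt)
    · intro l hl
      rcases lt_trichotomy l i with hli | hli | hli
      · have e1 : ch2a a i j p r l = a l := by
          unfold ch2a
          rw [if_neg (by omega), if_neg (by omega)]
        have e2 : ch2cf x α β (ch2a a i j p r) l = ch2cf x α β a l := by
          rw [hmod l, if_neg (by omega), if_neg (by omega)]
          simp
        rw [e1, e2]
        exact h1 l hl
      · subst hli
        have e1 : ch2a a l j p r l = a l - p := by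
          unfold ch2a
          rw [if_pos rfl]
        have e2 : ch2cf x α β (ch2a a l j p r) l = ch2cf x α β a l := by
          rw [hmod l, if_neg (by omega), if_neg (by omega)]
          simp
        rw [e1, e2]
        exact ⟨(h1 l hl).1, fun κ hκ => (h1 l hl).2 κ (by omega)⟩
      · rcases lt_trichotomy l j with hlj | hlj | hlj
        · have e1 : ch2a a i j p r l = a l := by
            unfold ch2a
            rw [if_neg (by omega), if_neg (by omega)]
          have e2 : ch2cf x α β (ch2a a i j p r) l =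
              ch2cf x α β a l + -(p • (β i).sum) := by
            rw [hmod l, if_pos hli, if_neg (by omega), add_zero]
          rw [e1, e2]
          refine ch2_item (hα l hl) (hβ l hl) (lα l hl) (lβ l hl) (h1 l hl) fun k => ?_
          simp only [Pi.neg_apply, Pi.smul_apply]
          simp only [nsmul_eq_mul]
          rcases hmidΔ k with h5 | rfl
          · exact Or.inl h5
          · right
            obtain ⟨h7, h8⟩ := hlow l hli hlj.le
            obtain ⟨h9, _⟩ := hlow (l + 1) (by omega) (by omega)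
            have h10 := csucc l (k₀.succAbove c)
            rw [hG] at h7 h8 h9
            rw [← hr]
            refine ⟨by linarith, by linarith, by linarith⟩
        · subst hlj
          have e1 : ch2a a i l p r l = a l - r := by
            unfold ch2a
            rw [if_neg (by omega), if_pos rfl]
          have e2 : ch2cf x α β (ch2a a i l p r) l =
              ch2cf x α β a l + -(p • (β i).sum) := by
            rw [hmod l, if_pos hli, if_neg (by omega), add_zero]
          rw [e1, e2]
          refine ⟨ch2_word (hα l hl) (h1 l hl).1 fun k => ?_, fun κ hκ => ?_⟩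
          · simp only [Pi.neg_apply, Pi.smul_apply]
            simp only [nsmul_eq_mul]
            rcases hmidΔ k with h5 | rfl
            · exact Or.inl h5
            · right
              obtain ⟨h7, _⟩ := hlow l hli le_rfl
              rw [hG] at h7
              rw [← hr]
              have := lα l hl
              linarith
          · refine Ok_between ((h1 l hl).2 κ (by omega)) ((h1 l hl).2 (κ + r) (by omega))
              fun k => ?_
            simp only [Pi.add_apply, Pi.neg_apply, Pi.smul_apply]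
            simp only [nsmul_eq_mul]
            push_cast
            rcases hmidΔ k with h5 | rfl
            · refine (min_le_left _ _).trans ?_
              linarith
            · refine (min_le_right _ _).trans (le_of_eq ?_)
              rw [hp, ← hr]
              ring
        · have e1 : ch2a a i j p r l = a l := by
            unfold ch2a
            rw [if_neg (by omega), if_neg (by omega)]
          have e2 : ch2cf x α β (ch2a a i j p r) l =
              ch2cf x α β a l + -(p • (β i).sum + r • (β j).sum) := by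
            rw [hmod l, if_pos hli, if_pos hlj]
          rw [e1, e2]
          refine ch2_item (hα l hl) (hβ l hl) (lα l hl) (lβ l hl) (h1 l hl) fun k => ?_
          left
          simp only [Pi.neg_apply, Pi.add_apply, Pi.smul_apply]
          simp only [nsmul_eq_mul]
          exact hfin k
    · rw [hmod N, if_pos hi, if_pos hj]
      refine h2.trans fun k => ?_
      have h5 := hfin k
      simp only [Pi.neg_apply, Pi.add_apply, Pi.smul_apply]
      simp only [nsmul_eq_mul]
      linarith
  -- the potential argument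
  have key := pot2 N (B + 1) (((B + 1) + 1) ^ 2) (H + (B + 1) + 1)
    (fun i c => (β i).sum (k₀.succAbove c)) (fun i c => (α i).sum (k₀.succAbove c))
    (fun i c => ch2cf x α β a i (k₀.succAbove c)) a
    (fun i _ c => csucc i _)
    (fun i hi c => (bβ i hi _).trans (by push_cast; linarith))
    (fun i hi c => (bα i hi _).trans (by push_cast; linarith))
    (fun i hi c => n1 i hi _) (fun i hi c => n2 i hi _) H1 H3
  refine key.trans ?_
  rw [← hB]
  obtain ⟨D, hD⟩ : ∃ D : ℕ, D = B + 2 := ⟨_, rfl⟩
  have hD2 : 2 ≤ D := by omega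
  have e1 : B + 1 + 1 = D := by omega
  rw [e1]
  have b1 : D ^ 2 + 1 ≤ 2 * D ^ 2 := by
    have : 1 ≤ D ^ 2 := Nat.one_le_pow _ _ (by omega)
    omega
  have b2 : N + (H + (B + 1) + 1) ≤ D * (N + H + 1) := by
    have h5 : N + (H + (B + 1) + 1) = N + H + D := by omega
    rw [h5]
    nlinarith
  calc 4 * D ^ 5 * (D ^ 2 + 1) * (N + (H + (B + 1) + 1))
      ≤ 4 * D ^ 5 * (2 * D ^ 2) * (D * (N + H + 1)) :=
        Nat.mul_le_mul (Nat.mul_le_mul_left _ b1) b2
    _ = 8 * D ^ 8 * (N + H + 1) := by ring

private theorem ch2_lsum (a : ℕ → ℕ) (N : ℕ) :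
    ((List.range N).map a).sum = ∑ i ∈ range N, a i := by
  induction N with
  | zero => simp
  | succ N ih =>
    rw [List.range_succ, List.map_append, List.sum_append, ih, sum_range_succ]
    simp

/-- the bound on the exponents -/
def cCh (s M : ℕ) : ℕ := 8 * (s * M + 2) ^ 8

theorem chain2 {Q : Type} {T : VASS Q 3} {p q : Q} {x : Vec 3} {I : List (Itm 3)} {k₀ : Fin 3}
    {s H : ℕ} (hI : IsScheme T p (I.map isk) q) (hx : 0 ≤ x) (hok : Ok x (unroll I))
    (hk : ∀ e ∈ I, e.2.1.sum k₀ = 0) (hs : ∀ e ∈ I, e.1.length + e.2.1.length ≤ s)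
    (hH : ∀ k, (x + (unroll I).sum) k ≤ H) :
    ∃ J : List (Itm 3), J.map isk = I.map isk ∧ Ok x (unroll J) ∧
      (unroll I).sum ≤ (unroll J).sum ∧
      (J.map fun e => e.2.2).sum ≤ cCh s (maxNorm T) * (I.length + H + 1) := by
  obtain ⟨g, hg⟩ : ∃ g : ℕ → Itm 3, g = fun i => I.getD i ([], [], 0) := ⟨_, rfl⟩
  have hmem : ∀ l < I.length, g l ∈ I := by
    intro l hl
    rw [hg]
    simp only
    rw [List.getD_eq_getElem _ _ hl]
    exact List.getElem_mem hl
  have hI' : I = (List.range I.length).map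
      (fun i => ((g i).1, (g i).2.1, (g i).2.2)) := by
    apply List.ext_getElem
    · simp
    · intro i h1 h2
      rw [List.getElem_map, List.getElem_range, hg]
      simp only
      rw [List.getD_eq_getElem _ _ h1]
  have hlet : ∀ l < I.length, (∀ v ∈ (g l).1, ∀ k, |v k| ≤ maxNorm T) ∧
      ∀ v ∈ (g l).2.1, ∀ k, |v k| ≤ maxNorm T := by
    intro l hl
    obtain ⟨⟨p', q', h4⟩, r, h5⟩ := scheme_loops I hI (g l) (hmem l hl)
    refine ⟨fun v hv k => ?_, fun v hv k => ?_⟩
    · obtain ⟨a, b, hab⟩ := h4.letters v hv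
      exact abs_le_maxNorm hab k
    · obtain ⟨a, b, hab⟩ := h5.letters v hv
      exact abs_le_maxNorm hab k
  obtain ⟨u1, u2⟩ := ch2_unroll x (fun i => (g i).1) (fun i => (g i).2.1) (fun i => (g i).2.2)
    I.length
  rw [← hI'] at u1 u2
  obtain ⟨a, h1, h2, h3⟩ := ch2_core I.length s (maxNorm T) H x hx (fun i => (g i).1)
    (fun i => (g i).2.1) (fun i => (g i).2.2) k₀ (fun l hl => (hlet l hl).1)
    (fun l hl => (hlet l hl).2) (fun l hl => hs _ (hmem l hl)) (fun l hl => hk _ (hmem l hl))
    (u1.1 hok) (fun k => by rw [← u2]; exact hH k)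
  obtain ⟨v1, v2⟩ := ch2_unroll x (fun i => (g i).1) (fun i => (g i).2.1) a I.length
  refine ⟨(List.range I.length).map fun i => ((g i).1, (g i).2.1, a i), ?_, v1.2 h1, ?_, ?_⟩
  · conv_rhs => rw [hI']
    rw [List.map_map, List.map_map]
    rfl
  · rw [← u2, ← v2] at h2
    exact (add_le_add_iff_left x).1 h2
  · rw [List.map_map]
    have e : ((fun e : Itm 3 => e.2.2) ∘ fun i => ((g i).1, (g i).2.1, a i)) = a := rfl
    rw [e, ch2_lsum]
    exact h3

end Pool.Agent.EE3
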