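import Pool.Agent.EE3.PotS
import Pool.Agent.EEF.Main

/-!
# EE3 / ChainS: exchange of loop iterations in a path scheme with a weight on two counters
-/

set_option autoImplicit false
set_option linter.unusedSectionVars false

namespace Pool.Agent.EE3

open Pool.Agent.EEF Finset

/-- raising or slightly lowering the start of a short word -/
private theorem chS_word {M : ℕ} {w : List (Vec 3)} (hM : ∀ v ∈ w, ∀ k, |v k| ≤ M) :
    ∀ {y Δ : Vec 3}, Ok y w → (∀ k, 0 ≤ Δ k ∨ (w.length * M : ℤ) ≤ y k + Δ k) →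
      Ok (y + Δ) w := by
  induction w with
  | nil =>
    intro y Δ _ _
    trivial
  | cons v w ih =>
    intro y Δ h hΔ
    have hv := hM v List.mem_cons_self
    have hwM : (0 : ℤ) ≤ w.length * M := by positivity
    refine ⟨fun k => ?_, ?_⟩
    · have h1 := h.1 k
      have h2 := abs_le.1 (hv k)
      have h3 := hΔ k
      simp only [Pi.zero_apply, Pi.add_apply, List.length_cons] at h1 h3 ⊢
      push_cast at h3
      rcases h3 with h3 | h3
      · linarith
      · linarith [h2.1]
    · have e : y + Δ + v = (y + v) + Δ := add_right_comm _ _ _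
      rw [e]
      refine ih (fun u hu => hM u (List.mem_cons_of_mem _ hu)) h.2 fun k => ?_
      have h2 := abs_le.1 (hv k)
      have h3 := hΔ k
      simp only [Pi.add_apply, List.length_cons] at h3 ⊢
      push_cast at h3
      rcases h3 with h3 | h3
      · exact Or.inl h3
      · right
        linarith [h2.1]

/-- an item is executable -/
private def chSOk (y : Vec 3) (α β : List (Vec 3)) (a : ℕ) : Prop :=
  Ok y α ∧ ∀ κ < a, Ok (y + α.sum + κ • β.sum) β

private theorem chS_rep {n : ℕ} {x : Vec 3} {w : List (Vec 3)} (h : Ok x (rep n w)) :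
    ∀ j < n, Ok (x + j • w.sum) w := by
  induction n generalizing x with
  | zero =>
    intro j hj
    exact absurd hj (Nat.not_lt_zero _)
  | succ n ih =>
    intro j hj
    rw [rep_succ, Ok_append] at h
    cases j with
    | zero => simpa using h.1
    | succ j =>
      have h1 := ih h.2 j (by omega)
      have e : x + (j + 1) • w.sum = x + w.sum + j • w.sum := by
        rw [succ_nsmul', add_assoc]
      rw [e]
      exact h1

private theorem chS_wrd (y : Vec 3) (α β : List (Vec 3)) (a : ℕ) :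
    Ok y (wrd (α, β, a)) ↔ chSOk y α β a := by
  unfold chSOk wrd
  rw [Ok_append]
  exact ⟨fun h => ⟨h.1, chS_rep h.2⟩, fun h => ⟨h.1, Ok_rep h.2⟩⟩

private theorem chS_wrd_sum (α β : List (Vec 3)) (a : ℕ) :
    (wrd (α, β, a)).sum = α.sum + a • β.sum := by
  unfold wrd
  rw [List.sum_append, rep_sum]

/-- the configuration before the item `l` -/
private def chScf (x : Vec 3) (α β : ℕ → List (Vec 3)) (a : ℕ → ℕ) (l : ℕ) : Vec 3 :=
  x + ∑ j ∈ range l, ((α j).sum + a j • (β j).sum)

private theorem chScf_succ (x : Vec 3) (α β : ℕ → List (Vec 3)) (a : ℕ → ℕ) (l : ℕ) :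
    chScf x α β a (l + 1) = chScf x α β a l + (α l).sum + a l • (β l).sum := by
  unfold chScf
  rw [sum_range_succ]
  simp only [add_assoc]

private theorem chS_unroll (x : Vec 3) (α β : ℕ → List (Vec 3)) (a : ℕ → ℕ) (N : ℕ) :
    (Ok x (unroll ((List.range N).map fun i => (α i, β i, a i))) ↔
      ∀ l < N, chSOk (chScf x α β a l) (α l) (β l) (a l)) ∧
    x + (unroll ((List.range N).map fun i => (α i, β i, a i))).sum = chScf x α β a N := by
  induction N with
  | zero =>
    constructor
    · simp [unroll_nil, Ok]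
    · simp [unroll_nil, chScf]
  | succ N ih =>
    obtain ⟨ih1, ih2⟩ := ih
    rw [List.range_succ, List.map_append, unroll_append, Ok_append, List.sum_append, ih2,
      List.map_singleton, unroll_cons, unroll_nil, List.append_nil, chS_wrd, ih1]
    constructor
    · constructor
      · rintro ⟨h1, h2⟩ l hl
        by_cases h : l = N
        · rw [h]
          exact h2
        · exact h1 l (by omega)
      · intro h
        exact ⟨fun l hl => h l (by omega), h N (by omega)⟩
    · rw [← add_assoc, ih2, chS_wrd_sum, chScf_succ, add_assoc]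

private theorem chS_mid {v u : ℤ} {a κ : ℕ} {b : ℤ} (h1 : b ≤ v) (h2 : b ≤ v + a * u)
    (h : κ ≤ a) : b ≤ v + κ * u := by
  have h' : (κ : ℤ) ≤ a := by exact_mod_cast h
  rcases le_total 0 u with hu | hu
  · have : 0 ≤ (κ : ℤ) * u := mul_nonneg (Int.natCast_nonneg _) hu
    linarith
  · have : (a : ℤ) * u ≤ κ * u := mul_le_mul_of_nonpos_right h' hu
    linarith

/-- shifting the start of an item -/
private theorem chS_item {M B : ℕ} {y Δ : Vec 3} {α β : List (Vec 3)} {a : ℕ}
    (hα : ∀ v ∈ α, ∀ k, |v k| ≤ M) (hβ : ∀ v ∈ β, ∀ k, |v k| ≤ M)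
    (lα : (α.length * M : ℤ) ≤ B) (lβ : (β.length * M : ℤ) ≤ B) (h : chSOk y α β a)
    (hΔ : ∀ k, 0 ≤ Δ k ∨ ((B : ℤ) ≤ y k + Δ k ∧ (B : ℤ) ≤ y k + α.sum k + Δ k ∧
      (B : ℤ) ≤ y k + α.sum k + a * β.sum k + Δ k)) : chSOk (y + Δ) α β a := by
  refine ⟨chS_word hα h.1 fun k => ?_, fun κ hκ => ?_⟩
  · rcases hΔ k with h1 | ⟨h1, _, _⟩
    · exact Or.inl h1
    · exact Or.inr (lα.trans h1)
  · have e : y + Δ + α.sum + κ • β.sum = (y + α.sum + κ • β.sum) + Δ := by abel
    rw [e]
    refine chS_word hβ (h.2 κ hκ) fun k => ?_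
    rcases hΔ k with h1 | ⟨_, h2, h3⟩
    · exact Or.inl h1
    · right
      have h4 : (B : ℤ) ≤ (y k + α.sum k + Δ k) + κ * β.sum k :=
        chS_mid (a := a) h2 (by linarith) hκ.le
      simp only [Pi.add_apply, Pi.smul_apply]
      simp only [nsmul_eq_mul]
      linarith

/-- removal of iterations of two loops -/
private def chSa (a : ℕ → ℕ) (i j p r : ℕ) (l : ℕ) : ℕ :=
  if l = i then a i - p else if l = j then a j - r else a l

private theorem chS_mod (x : Vec 3) (α β : ℕ → List (Vec 3)) (a : ℕ → ℕ) (i j p r : ℕ)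
    (hij : i < j) (hp : p ≤ a i) (hr : r ≤ a j) (l : ℕ) :
    chScf x α β (chSa a i j p r) l = chScf x α β a l +
      -((if i < l then p • (β i).sum else 0) + (if j < l then r • (β j).sum else 0)) := by
  induction l with
  | zero => simp [chScf]
  | succ l ih =>
    rw [chScf_succ, chScf_succ, ih]
    unfold chSa
    by_cases h1 : l = i
    · subst h1
      rw [if_pos rfl, if_neg (lt_irrefl l), if_neg (by omega), if_pos (by omega),
        if_neg (by omega), sub_nsmul _ hp]
      abel
    · by_cases h2 : l = j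
      · subst h2
        rw [if_neg h1, if_pos rfl, if_neg (lt_irrefl l), if_pos hij, if_pos (by omega),
          if_pos (by omega), sub_nsmul _ hr]
        abel
      · rw [if_neg h1, if_neg h2]
        have e1 : (i < l + 1) ↔ (i < l) := by omega
        have e2 : (j < l + 1) ↔ (j < l) := by omega
        simp only [e1, e2]
        abel

/-- removing iterations makes the total smaller -/
private theorem chS_sum {N : ℕ} (a : ℕ → ℕ) (i j p r : ℕ) (hi : i < N) (hp : 1 ≤ p)
    (hpa : p ≤ a i) : ∑ l ∈ range N, chSa a i j p r l < ∑ l ∈ range N, a l := by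
  refine Finset.sum_lt_sum (fun l _ => ?_) ⟨i, mem_range.2 hi, ?_⟩
  · unfold chSa
    split_ifs with h1 h2
    · rw [h1]
      omega
    · rw [h2]
      omega
    · exact le_rfl
  · unfold chSa
    rw [if_pos rfl]
    omega

/-- the index form -/
private theorem chS_core (N s M H A : ℕ) (hA : s * M + 1 ≤ A) (x : Vec 3) (hx : 0 ≤ x)
    (hxH : ∀ k, x k ≤ H) (α β : ℕ → List (Vec 3)) (a₀ : ℕ → ℕ) (k₀ : Fin 3) (l0 l1 : ℕ)
    (hl : 1 ≤ l0 ∧ l0 ≤ A ∧ 1 ≤ l1 ∧ l1 ≤ A)
    (hα : ∀ l < N, ∀ v ∈ α l, ∀ k, |v k| ≤ M) (hβ : ∀ l < N, ∀ v ∈ β l, ∀ k, |v k| ≤ M)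
    (hs : ∀ l < N, (α l).length + (β l).length ≤ s)
    (hk : ∀ l < N, (l0 : ℤ) * (β l).sum (k₀.succAbove 0) + l1 * (β l).sum (k₀.succAbove 1) = 0)
    (hok : ∀ l < N, chSOk (chScf x α β a₀ l) (α l) (β l) (a₀ l))
    (hH : ∀ k, chScf x α β a₀ N k ≤ H) :
    ∃ a : ℕ → ℕ, (∀ l < N, chSOk (chScf x α β a l) (α l) (β l) (a l)) ∧
      chScf x α β a₀ N ≤ chScf x α β a N ∧
      ∑ i ∈ range N, a i ≤ 100000 * (A + 1) ^ 20 * (N + H + 1) := by
  classical
  have hP : ∃ t : ℕ, ∃ a : ℕ → ℕ, (∀ l < N, chSOk (chScf x α β a l) (α l) (β l) (a l)) ∧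
      chScf x α β a₀ N ≤ chScf x α β a N ∧ ∑ i ∈ range N, a i = t :=
    ⟨_, a₀, hok, le_rfl, rfl⟩
  obtain ⟨a, h1, h2, h3⟩ := Nat.find_spec hP
  have hmin : ∀ a' : ℕ → ℕ, (∀ l < N, chSOk (chScf x α β a' l) (α l) (β l) (a' l)) →
      chScf x α β a₀ N ≤ chScf x α β a' N → ∑ i ∈ range N, a i ≤ ∑ i ∈ range N, a' i := by
    intro a' g1 g2
    rw [h3]
    exact Nat.find_min' hP ⟨a', g1, g2, rfl⟩
  refine ⟨a, h1, h2, ?_⟩
  clear h3
  obtain ⟨B, hB⟩ : ∃ B : ℕ, B = s * M := ⟨_, rfl⟩
  have hBA : B + 1 ≤ A := by rw [hB]; exact hA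
  have lα : ∀ l < N, ((α l).length * M : ℤ) ≤ B := by
    intro l hl
    rw [hB]
    exact_mod_cast Nat.mul_le_mul_right M (by have := hs l hl; omega)
  have lβ : ∀ l < N, ((β l).length * M : ℤ) ≤ B := by
    intro l hl
    rw [hB]
    exact_mod_cast Nat.mul_le_mul_right M (by have := hs l hl; omega)
  have bα : ∀ l < N, ∀ k, |(α l).sum k| ≤ B := fun l hl k => (sum_le (hα l hl) k).trans (lα l hl)
  have bβ : ∀ l < N, ∀ k, |(β l).sum k| ≤ B := fun l hl k => (sum_le (hβ l hl) k).trans (lβ l hl)
  -- non-negative configurations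
  have n1 : ∀ l ≤ N, 0 ≤ chScf x α β a l := by
    intro l
    induction l with
    | zero =>
      intro _
      simpa [chScf] using hx
    | succ l ih =>
      intro hl
      have h4 := Ok_end (ih (by omega)) ((chS_wrd _ _ _ _).2 (h1 l (by omega)))
      rw [chS_wrd_sum, ← add_assoc] at h4
      rw [chScf_succ]
      exact h4
  have n2 : ∀ l < N, 0 ≤ chScf x α β a l + (α l).sum :=
    fun l hl => Ok_end (n1 l hl.le) (h1 l hl).1
  -- coordinates of the next configuration
  have csucc : ∀ (a : ℕ → ℕ) l k, chScf x α β a (l + 1) k =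
      chScf x α β a l k + (α l).sum k + a l * (β l).sum k := by
    intro a l k
    rw [chScf_succ]
    simp only [Pi.add_apply, Pi.smul_apply]
    simp only [nsmul_eq_mul]
  have hB0 : (0 : ℤ) ≤ B := Int.natCast_nonneg B
  have hBz : (B : ℤ) + 1 ≤ A := by exact_mod_cast hBA
  obtain ⟨G, hG⟩ : ∃ G : ℕ, G = 2 * (A + 1) ^ 2 := ⟨_, rfl⟩
  have hG1 : 2 * (B : ℤ) ^ 2 + 2 * B + 2 ≤ G := by
    rw [hG]
    push_cast
    nlinarith
  obtain ⟨E', hE'⟩ : ∃ E' : ℕ, E' = H + G := ⟨_, rfl⟩
  have hE1 : (E' : ℤ) = H + G := by rw [hE']; push_cast; ring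
  -- one iteration less
  have rem1 : ∀ i < N, 1 ≤ a i → (∀ k, k ≠ k₀ → (β i).sum k = 0) →
      ((β i).sum k₀ ≤ 0 ∨ ((∀ l, i < l → l ≤ N → (G : ℤ) ≤ chScf x α β a l k₀) ∧
        (∀ l, i < l → l < N → (G : ℤ) ≤ chScf x α β a l k₀ + (α l).sum k₀) ∧
        (E' : ℤ) ≤ chScf x α β a N k₀)) → False := by
    intro i hi hai hz hlow
    have hd : ∀ l, i < l → chScf x α β (chSa a i (i + 1) 1 0) l =
        chScf x α β a l + -(β i).sum := by
      intro l hl
      rw [chS_mod x α β a i (i + 1) 1 0 (Nat.lt_succ_self i) (by omega) (Nat.zero_le _) l,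
        if_pos hl]
      simp
    have hlt := chS_sum (N := N) a i (i + 1) 1 0 hi le_rfl (by omega)
    refine absurd (hmin (chSa a i (i + 1) 1 0) ?_ ?_) (not_le.2 hlt)
    · intro l hl
      rcases lt_trichotomy l i with hli | hli | hli
      · have e1 : chSa a i (i + 1) 1 0 l = a l := by
          unfold chSa
          rw [if_neg (by omega), if_neg (by omega)]
        have e2 : chScf x α β (chSa a i (i + 1) 1 0) l = chScf x α β a l := by
          rw [chS_mod x α β a i (i + 1) 1 0 (Nat.lt_succ_self i) (by omega) (Nat.zero_le _) l,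
            if_neg (by omega), if_neg (by omega)]
          simp
        rw [e1, e2]
        exact h1 l hl
      · subst hli
        have e1 : chSa a l (l + 1) 1 0 l = a l - 1 := by
          unfold chSa
          rw [if_pos rfl]
        have e2 : chScf x α β (chSa a l (l + 1) 1 0) l = chScf x α β a l := by
          rw [chS_mod x α β a l (l + 1) 1 0 (Nat.lt_succ_self l) (by omega) (Nat.zero_le _) l,
            if_neg (by omega), if_neg (by omega)]
          simp
        rw [e1, e2]
        exact ⟨(h1 l hl).1, fun κ hκ => (h1 l hl).2 κ (by omega)⟩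
      · have e1 : chSa a i (i + 1) 1 0 l = a l := by
          unfold chSa
          rw [if_neg (by omega)]
          split_ifs with h
          · rw [h, Nat.sub_zero]
          · rfl
        rw [e1, hd l hli]
        refine chS_item (hα l hl) (hβ l hl) (lα l hl) (lβ l hl) (h1 l hl) fun k => ?_
        simp only [Pi.neg_apply]
        by_cases hkk : k = k₀
        · subst hkk
          rcases hlow with h5 | ⟨h5, h6, _⟩
          · left
            linarith
          · right
            have h7 := h5 l hli hl.le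
            have h8 := h6 l hli hl
            have h9 := h5 (l + 1) (by omega) (by omega)
            have h10 := csucc a l k
            have h11 := (abs_le.1 (bβ i hi k)).2
            have h12 : 0 ≤ (B : ℤ) ^ 2 := sq_nonneg _
            refine ⟨by linarith, by linarith, by linarith⟩
        · left
          rw [hz k hkk, neg_zero]
    · rw [hd N hi]
      intro k
      simp only [Pi.add_apply, Pi.neg_apply]
      have h7 := h2 k
      by_cases hkk : k = k₀
      · subst hkk
        rcases hlow with h5 | ⟨_, _, h6⟩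
        · linarith
        · have h8 := hH k
          have h11 := (abs_le.1 (bβ i hi k)).2
          have h12 : 0 ≤ (B : ℤ) ^ 2 := sq_nonneg _
          linarith
      · rw [hz k hkk]
        linarith
  -- exchange
  have exch : ∀ i j p r : ℕ, i < j → j < N → 1 ≤ p → p ≤ B → r ≤ B → B + 1 ≤ a i → B + 1 ≤ a j →
      (∀ k, k ≠ k₀ → (p : ℤ) * (β i).sum k + r * (β j).sum k = 0) →
      (∀ k, 0 ≤ -((p : ℤ) * (β i).sum k) ∨ ∀ l, i < l → l ≤ j →
        (G : ℤ) ≤ chScf x α β a l k ∧ (G : ℤ) ≤ chScf x α β a l k + (α l).sum k) →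
      (0 ≤ -((p : ℤ) * (β i).sum k₀ + r * (β j).sum k₀) ∨
        ((∀ l, j < l → l ≤ N → (G : ℤ) ≤ chScf x α β a l k₀) ∧
        (∀ l, j < l → l < N → (G : ℤ) ≤ chScf x α β a l k₀ + (α l).sum k₀) ∧
        (E' : ℤ) ≤ chScf x α β a N k₀ ∧
        (G : ℤ) ≤ chScf x α β a j k₀ + (α j).sum k₀)) → False := by
    intro i j p r hij hj hp1 hpB hrB hai haj hzero hbet haft
    have hi : i < N := hij.trans hj
    have hmod := chS_mod x α β a i j p r hij (by omega) (by omega)
    have hlt := chS_sum (N := N) a i j p r hi hp1 (by omega)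
    have hpz : (p : ℤ) ≤ B := by exact_mod_cast hpB
    have hrz : (r : ℤ) ≤ B := by exact_mod_cast hrB
    have hpz0 : (0 : ℤ) ≤ p := Int.natCast_nonneg p
    have hrz0 : (0 : ℤ) ≤ r := Int.natCast_nonneg r
    have hpu : ∀ k, (p : ℤ) * (β i).sum k ≤ (B : ℤ) ^ 2 := by
      intro k
      have h5 := (abs_le.1 (bβ i hi k)).2
      calc (p : ℤ) * (β i).sum k ≤ p * B := mul_le_mul_of_nonneg_left h5 hpz0
        _ ≤ B * B := mul_le_mul_of_nonneg_right hpz hB0
        _ = (B : ℤ) ^ 2 := (sq _).symm
    have hru : ∀ k, (r : ℤ) * (β j).sum k ≤ (B : ℤ) ^ 2 := by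
      intro k
      have h5 := (abs_le.1 (bβ j hj k)).2
      calc (r : ℤ) * (β j).sum k ≤ r * B := mul_le_mul_of_nonneg_left h5 hrz0
        _ ≤ B * B := mul_le_mul_of_nonneg_right hrz hB0
        _ = (B : ℤ) ^ 2 := (sq _).symm
    have hBB : 0 ≤ (B : ℤ) ^ 2 := sq_nonneg _
    refine absurd (hmin (chSa a i j p r) ?_ ?_) (not_le.2 hlt)
    · intro l hl
      rcases lt_trichotomy l i with hli | hli | hli
      · have e1 : chSa a i j p r l = a l := by
          unfold chSa
          rw [if_neg (by omega), if_neg (by omega)]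
        have e2 : chScf x α β (chSa a i j p r) l = chScf x α β a l := by
          rw [hmod l, if_neg (by omega), if_neg (by omega)]
          simp
        rw [e1, e2]
        exact h1 l hl
      · subst hli
        have e1 : chSa a l j p r l = a l - p := by
          unfold chSa
          rw [if_pos rfl]
        have e2 : chScf x α β (chSa a l j p r) l = chScf x α β a l := by
          rw [hmod l, if_neg (by omega), if_neg (by omega)]
          simp
        rw [e1, e2]
        exact ⟨(h1 l hl).1, fun κ hκ => (h1 l hl).2 κ (by omega)⟩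
      · rcases lt_trichotomy l j with hlj | hlj | hlj
        · have e1 : chSa a i j p r l = a l := by
            unfold chSa
            rw [if_neg (by omega), if_neg (by omega)]
          have e2 : chScf x α β (chSa a i j p r) l =
              chScf x α β a l + -(p • (β i).sum) := by
            rw [hmod l, if_pos hli, if_neg (by omega), add_zero]
          rw [e1, e2]
          refine chS_item (hα l hl) (hβ l hl) (lα l hl) (lβ l hl) (h1 l hl) fun k => ?_
          simp only [Pi.neg_apply, Pi.smul_apply]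
          simp only [nsmul_eq_mul]
          rcases hbet k with h5 | h5
          · exact Or.inl h5
          · right
            obtain ⟨h7, h8⟩ := h5 l hli hlj.le
            obtain ⟨h9, _⟩ := h5 (l + 1) (by omega) (by omega)
            have h10 := csucc a l k
            have h11 := hpu k
            refine ⟨by linarith, by linarith, by linarith⟩
        · subst hlj
          have e1 : chSa a i l p r l = a l - r := by
            unfold chSa
            rw [if_neg (by omega), if_pos rfl]
          have e2 : chScf x α β (chSa a i l p r) l =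
              chScf x α β a l + -(p • (β i).sum) := by
            rw [hmod l, if_pos hli, if_neg (by omega), add_zero]
          rw [e1, e2]
          refine ⟨chS_word (hα l hl) (h1 l hl).1 fun k => ?_, fun κ hκ => ?_⟩
          · simp only [Pi.neg_apply, Pi.smul_apply]
            simp only [nsmul_eq_mul]
            rcases hbet k with h5 | h5
            · exact Or.inl h5
            · right
              obtain ⟨h7, _⟩ := h5 l hli le_rfl
              have h11 := hpu k
              have := lα l hl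
              linarith
          · have e3 : chScf x α β a l + -(p • (β i).sum) + (α l).sum + κ • (β l).sum =
                (chScf x α β a l + (α l).sum + (κ + r) • (β l).sum) +
                  -(p • (β i).sum + r • (β l).sum) := by
              rw [add_smul]
              abel
            rw [e3]
            refine chS_word (hβ l hl) ((h1 l hl).2 (κ + r) (by omega)) fun k => ?_
            simp only [Pi.neg_apply, Pi.add_apply, Pi.smul_apply]
            simp only [nsmul_eq_mul]
            by_cases hkk : k = k₀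
            · subst hkk
              rcases haft with h5 | ⟨h5, _, _, h6⟩
              · exact Or.inl h5
              · right
                have h9 := h5 (l + 1) (by omega) (by omega)
                have h10 := csucc a l k
                have h11 := hpu k
                have h12 := hru k
                have h13 : (G : ℤ) ≤ (chScf x α β a l k + (α l).sum k) +
                    (κ + r : ℕ) * (β l).sum k :=
                  chS_mid (a := a l) h6 (by linarith) (by omega)
                have := lβ l hl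
                linarith
            · left
              rw [hzero k hkk, neg_zero]
        · have e1 : chSa a i j p r l = a l := by
            unfold chSa
            rw [if_neg (by omega), if_neg (by omega)]
          have e2 : chScf x α β (chSa a i j p r) l =
              chScf x α β a l + -(p • (β i).sum + r • (β j).sum) := by
            rw [hmod l, if_pos hli, if_pos hlj]
          rw [e1, e2]
          refine chS_item (hα l hl) (hβ l hl) (lα l hl) (lβ l hl) (h1 l hl) fun k => ?_
          simp only [Pi.neg_apply, Pi.add_apply, Pi.smul_apply]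
          simp only [nsmul_eq_mul]
          by_cases hkk : k = k₀
          · subst hkk
            rcases haft with h5 | ⟨h5, h6, _, _⟩
            · exact Or.inl h5
            · right
              have h7 := h5 l hlj hl.le
              have h8 := h6 l hlj hl
              have h9 := h5 (l + 1) (by omega) (by omega)
              have h10 := csucc a l k
              have h11 := hpu k
              have h12 := hru k
              refine ⟨by linarith, by linarith, by linarith⟩
          · left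
            rw [hzero k hkk, neg_zero]
    · rw [hmod N, if_pos hi, if_pos hj]
      intro k
      have h6 := h2 k
      simp only [Pi.neg_apply, Pi.add_apply, Pi.smul_apply]
      simp only [nsmul_eq_mul]
      by_cases hkk : k = k₀
      · subst hkk
        rcases haft with h5 | ⟨_, _, h5, _⟩
        · linarith
        · have h8 := hH k
          have h11 := hpu k
          have h12 := hru k
          linarith
      · rw [hzero k hkk]
        linarith
  -- the two other counters
  have hk0 : ∀ k, k ≠ k₀ → k = k₀.succAbove 0 ∨ k = k₀.succAbove 1 := by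
    intro k hkk
    obtain ⟨c, rfl⟩ := Fin.exists_succAbove_eq hkk
    fin_cases c
    · exact Or.inl rfl
    · exact Or.inr rfl
  have hlz0 : (1 : ℤ) ≤ l0 := by exact_mod_cast hl.1
  have hlz1 : (1 : ℤ) ≤ l1 := by exact_mod_cast hl.2.2.1
  -- the second coordinate is determined by the first one
  have hneg : ∀ l < N, ((β l).sum (k₀.succAbove 0) = 0 ↔ (β l).sum (k₀.succAbove 1) = 0) ∧
      (0 < (β l).sum (k₀.succAbove 0) → (β l).sum (k₀.succAbove 1) < 0) ∧
      ((β l).sum (k₀.succAbove 0) < 0 → 0 < (β l).sum (k₀.succAbove 1)) := by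
    intro l hl'
    have h5 := hk l hl'
    refine ⟨⟨fun h => ?_, fun h => ?_⟩, fun h => ?_, fun h => ?_⟩
    · rw [h, mul_zero, zero_add] at h5
      rcases mul_eq_zero.1 h5 with h6 | h6
      · omega
      · exact h6
    · rw [h, mul_zero, add_zero] at h5
      rcases mul_eq_zero.1 h5 with h6 | h6
      · omega
      · exact h6
    · by_contra h6
      have h7 : 0 ≤ (l1 : ℤ) * (β l).sum (k₀.succAbove 1) :=
        mul_nonneg (by linarith) (not_lt.1 h6)
      have h8 : 0 < (l0 : ℤ) * (β l).sum (k₀.succAbove 0) := mul_pos (by linarith) h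
      linarith
    · by_contra h6
      have h7 : (l1 : ℤ) * (β l).sum (k₀.succAbove 1) ≤ 0 :=
        mul_nonpos_of_nonneg_of_nonpos (by linarith) (not_lt.1 h6)
      have h8 : (l0 : ℤ) * (β l).sum (k₀.succAbove 0) < 0 :=
        mul_neg_of_pos_of_neg (by linarith) h
      linarith
  -- proportional coordinates
  have hprop : ∀ i < N, ∀ j < N, ∀ P R : ℤ,
      P * (β i).sum (k₀.succAbove 0) + R * (β j).sum (k₀.succAbove 0) = 0 →
      ∀ k, k ≠ k₀ → P * (β i).sum k + R * (β j).sum k = 0 := by
    intro i hi j hj P R h k hkk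
    rcases hk0 k hkk with rfl | rfl
    · exact h
    · have h5 := hk i hi
      have h6 := hk j hj
      have h7 : (l1 : ℤ) * (P * (β i).sum (k₀.succAbove 1) + R * (β j).sum (k₀.succAbove 1)) =
          0 := by
        have e : (l1 : ℤ) * (P * (β i).sum (k₀.succAbove 1) + R * (β j).sum (k₀.succAbove 1)) =
          P * ((l0 : ℤ) * (β i).sum (k₀.succAbove 0) + l1 * (β i).sum (k₀.succAbove 1)) +
          R * ((l0 : ℤ) * (β j).sum (k₀.succAbove 0) + l1 * (β j).sum (k₀.succAbove 1)) -
          l0 * (P * (β i).sum (k₀.succAbove 0) + R * (β j).sum (k₀.succAbove 0)) := by ring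
        rw [e, h5, h6, h]
        ring
      rcases mul_eq_zero.1 h7 with h8 | h8
      · omega
      · exact h8
  -- big flat loops increase the free counter
  have K1 : ∀ i < N, A ≤ a i → (β i).sum (k₀.succAbove 0) = 0 → 0 < (β i).sum k₀ := by
    intro i hi hai h
    by_contra h5
    refine rem1 i hi (by omega) (fun k hkk => ?_) (Or.inl (not_lt.1 h5))
    rcases hk0 k hkk with rfl | rfl
    · exact h
    · exact ((hneg i hi).1).1 h
  -- the pairs up / down
  have pairUD : ∀ i j, i < j → j < N → A ≤ a i → A ≤ a j →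
      0 < (β i).sum (k₀.succAbove 0) → (β j).sum (k₀.succAbove 0) < 0 →
      (∀ l, i < l → l ≤ j → (G : ℤ) ≤ chScf x α β a l (k₀.succAbove 0) ∧
        (G : ℤ) ≤ chScf x α β a l (k₀.succAbove 0) + (α l).sum (k₀.succAbove 0)) →
      (0 < (β i).sum k₀ → ∀ l, i < l → l ≤ j → (G : ℤ) ≤ chScf x α β a l k₀ ∧
        (G : ℤ) ≤ chScf x α β a l k₀ + (α l).sum k₀) →
      ((β i).sum (k₀.succAbove 0) * (β j).sum k₀ ≤ (β j).sum (k₀.succAbove 0) * (β i).sum k₀ ∨
        ((∀ l, j < l → l ≤ N → (G : ℤ) ≤ chScf x α β a l k₀) ∧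
        (∀ l, j < l → l < N → (G : ℤ) ≤ chScf x α β a l k₀ + (α l).sum k₀) ∧
        (E' : ℤ) ≤ chScf x α β a N k₀ ∧
        (G : ℤ) ≤ chScf x α β a j k₀ + (α j).sum k₀)) → False := by
    intro i j hij hj hai haj s1 s2 hl1 hl2 haft
    have hi : i < N := hij.trans hj
    obtain ⟨p, hp⟩ : ∃ p : ℕ, (p : ℤ) = -(β j).sum (k₀.succAbove 0) :=
      ⟨(-(β j).sum (k₀.succAbove 0)).toNat, Int.toNat_of_nonneg (by linarith)⟩
    obtain ⟨r, hr⟩ : ∃ r : ℕ, (r : ℤ) = (β i).sum (k₀.succAbove 0) :=
      ⟨((β i).sum (k₀.succAbove 0)).toNat, Int.toNat_of_nonneg s1.le⟩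
    have hp1 : 1 ≤ p := by
      have : (1 : ℤ) ≤ p := by rw [hp]; linarith
      exact_mod_cast this
    have hpB : p ≤ B := by
      have h5 := (abs_le.1 (bβ j hj (k₀.succAbove 0))).1
      have : (p : ℤ) ≤ B := by rw [hp]; linarith
      exact_mod_cast this
    have hrB : r ≤ B := by
      have h5 := (abs_le.1 (bβ i hi (k₀.succAbove 0))).2
      have : (r : ℤ) ≤ B := by rw [hr]; exact h5
      exact_mod_cast this
    have hp0 : (0 : ℤ) ≤ p := Int.natCast_nonneg p
    refine exch i j p r hij hj hp1 hpB hrB (by omega) (by omega)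
      (hprop i hi j hj p r (by rw [hp, hr]; ring)) (fun k => ?_) ?_
    · by_cases hkk : k = k₀
      · subst hkk
        by_cases h5 : 0 < (β i).sum k
        · exact Or.inr (hl2 h5)
        · left
          have := mul_nonpos_of_nonneg_of_nonpos hp0 (not_lt.1 h5)
          linarith
      · rcases hk0 k hkk with rfl | rfl
        · exact Or.inr hl1
        · left
          have := mul_nonpos_of_nonneg_of_nonpos hp0 ((hneg i hi).2.1 s1).le
          linarith
    · rcases haft with h5 | h5
      · left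
        rw [hp, hr]
        linarith
      · exact Or.inr h5
  -- the pairs down / up
  have pairDU : ∀ i j, i < j → j < N → A ≤ a i → A ≤ a j →
      (β i).sum (k₀.succAbove 0) < 0 → 0 < (β j).sum (k₀.succAbove 0) →
      (∀ l, i < l → l ≤ j → (G : ℤ) ≤ chScf x α β a l (k₀.succAbove 1) ∧
        (G : ℤ) ≤ chScf x α β a l (k₀.succAbove 1) + (α l).sum (k₀.succAbove 1)) →
      (0 < (β i).sum k₀ → ∀ l, i < l → l ≤ j → (G : ℤ) ≤ chScf x α β a l k₀ ∧
        (G : ℤ) ≤ chScf x α β a l k₀ + (α l).sum k₀) →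
      ((β j).sum (k₀.succAbove 0) * (β i).sum k₀ ≤ (β i).sum (k₀.succAbove 0) * (β j).sum k₀ ∨
        ((∀ l, j < l → l ≤ N → (G : ℤ) ≤ chScf x α β a l k₀) ∧
        (∀ l, j < l → l < N → (G : ℤ) ≤ chScf x α β a l k₀ + (α l).sum k₀) ∧
        (E' : ℤ) ≤ chScf x α β a N k₀ ∧
        (G : ℤ) ≤ chScf x α β a j k₀ + (α j).sum k₀)) → False := by
    intro i j hij hj hai haj s1 s2 hl1 hl2 haft
    have hi : i < N := hij.trans hj
    obtain ⟨p, hp⟩ : ∃ p : ℕ, (p : ℤ) = (β j).sum (k₀.succAbove 0) :=
      ⟨((β j).sum (k₀.succAbove 0)).toNat, Int.toNat_of_nonneg s2.le⟩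
    obtain ⟨r, hr⟩ : ∃ r : ℕ, (r : ℤ) = -(β i).sum (k₀.succAbove 0) :=
      ⟨(-(β i).sum (k₀.succAbove 0)).toNat, Int.toNat_of_nonneg (by linarith)⟩
    have hp1 : 1 ≤ p := by
      have : (1 : ℤ) ≤ p := by rw [hp]; linarith
      exact_mod_cast this
    have hpB : p ≤ B := by
      have h5 := (abs_le.1 (bβ j hj (k₀.succAbove 0))).2
      have : (p : ℤ) ≤ B := by rw [hp]; exact h5
      exact_mod_cast this
    have hrB : r ≤ B := by
      have h5 := (abs_le.1 (bβ i hi (k₀.succAbove 0))).1
      have : (r : ℤ) ≤ B := by rw [hr]; linarith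
      exact_mod_cast this
    have hp0 : (0 : ℤ) ≤ p := Int.natCast_nonneg p
    refine exch i j p r hij hj hp1 hpB hrB (by omega) (by omega)
      (hprop i hi j hj p r (by rw [hp, hr]; ring)) (fun k => ?_) ?_
    · by_cases hkk : k = k₀
      · subst hkk
        by_cases h5 : 0 < (β i).sum k
        · exact Or.inr (hl2 h5)
        · left
          have := mul_nonpos_of_nonneg_of_nonpos hp0 (not_lt.1 h5)
          linarith
      · rcases hk0 k hkk with rfl | rfl
        · left
          have := mul_nonpos_of_nonneg_of_nonpos hp0 s1.le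
          linarith
        · exact Or.inr hl1
    · rcases haft with h5 | h5
      · left
        rw [hp, hr]
        linarith
      · exact Or.inr h5
  -- the weight
  have wsucc : ∀ (a : ℕ → ℕ), ∀ l < N,
      (l0 : ℤ) * chScf x α β a (l + 1) (k₀.succAbove 0) +
        l1 * chScf x α β a (l + 1) (k₀.succAbove 1) =
      (l0 : ℤ) * chScf x α β a l (k₀.succAbove 0) + l1 * chScf x α β a l (k₀.succAbove 1) +
        (l0 * (α l).sum (k₀.succAbove 0) + l1 * (α l).sum (k₀.succAbove 1)) := by
    intro a l hl'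
    rw [csucc, csucc]
    have h5 := hk l hl'
    have e : (l0 : ℤ) * (chScf x α β a l (k₀.succAbove 0) + (α l).sum (k₀.succAbove 0) +
        a l * (β l).sum (k₀.succAbove 0)) + l1 * (chScf x α β a l (k₀.succAbove 1) +
        (α l).sum (k₀.succAbove 1) + a l * (β l).sum (k₀.succAbove 1)) =
      (l0 : ℤ) * chScf x α β a l (k₀.succAbove 0) + l1 * chScf x α β a l (k₀.succAbove 1) +
        (l0 * (α l).sum (k₀.succAbove 0) + l1 * (α l).sum (k₀.succAbove 1)) +
        a l * ((l0 : ℤ) * (β l).sum (k₀.succAbove 0) + l1 * (β l).sum (k₀.succAbove 1)) := by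
      ring
    rw [e, h5, mul_zero, add_zero]
  have weq : ∀ l ≤ N, (l0 : ℤ) * chScf x α β a l (k₀.succAbove 0) +
        l1 * chScf x α β a l (k₀.succAbove 1) =
      (l0 : ℤ) * chScf x α β a₀ l (k₀.succAbove 0) +
        l1 * chScf x α β a₀ l (k₀.succAbove 1) := by
    intro l
    induction l with
    | zero =>
      intro _
      simp [chScf]
    | succ l ih =>
      intro hl'
      rw [wsucc a l (by omega), wsucc a₀ l (by omega), ih (by omega)]
  have hAz0 : (l0 : ℤ) ≤ A := by exact_mod_cast hl.2.1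
  have hAz1 : (l1 : ℤ) ≤ A := by exact_mod_cast hl.2.2.2
  have hAz : (0 : ℤ) ≤ A := Int.natCast_nonneg A
  have hHz : (0 : ℤ) ≤ H := Int.natCast_nonneg H
  have wle : ∀ l ≤ N, (l0 : ℤ) * chScf x α β a l (k₀.succAbove 0) +
      l1 * chScf x α β a l (k₀.succAbove 1) ≤ 2 * A * H + 2 * A ^ 2 * l := by
    intro l
    induction l with
    | zero =>
      intro _
      have e1 : chScf x α β a 0 = x := by simp [chScf]
      rw [e1]
      have h5 : (l0 : ℤ) * x (k₀.succAbove 0) ≤ A * H :=
        mul_le_mul hAz0 (hxH _) (hx _) hAz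
      have h6 : (l1 : ℤ) * x (k₀.succAbove 1) ≤ A * H :=
        mul_le_mul hAz1 (hxH _) (hx _) hAz
      push_cast
      linarith
    | succ l ih =>
      intro hl'
      rw [wsucc a l (by omega)]
      have h5 := ih (by omega)
      have h6 : (l0 : ℤ) * (α l).sum (k₀.succAbove 0) ≤ A * A := by
        have h7 := (abs_le.1 (bα l (by omega) (k₀.succAbove 0))).2
        calc (l0 : ℤ) * (α l).sum (k₀.succAbove 0) ≤ l0 * A :=
              mul_le_mul_of_nonneg_left (by linarith) (by linarith)
          _ ≤ A * A := mul_le_mul_of_nonneg_right hAz0 hAz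
      have h8 : (l1 : ℤ) * (α l).sum (k₀.succAbove 1) ≤ A * A := by
        have h7 := (abs_le.1 (bα l (by omega) (k₀.succAbove 1))).2
        calc (l1 : ℤ) * (α l).sum (k₀.succAbove 1) ≤ l1 * A :=
              mul_le_mul_of_nonneg_left (by linarith) (by linarith)
          _ ≤ A * A := mul_le_mul_of_nonneg_right hAz1 hAz
      push_cast
      nlinarith
  have up : ∀ l ≤ N, ∀ k, k ≠ k₀ → chScf x α β a l k ≤ 2 * A * H + 2 * A ^ 2 * N := by
    intro l hl' k hkk
    have h5 := wle l hl'
    have h6 : (l : ℤ) ≤ N := by exact_mod_cast hl'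
    have h7 : 2 * (A : ℤ) ^ 2 * l ≤ 2 * A ^ 2 * N :=
      mul_le_mul_of_nonneg_left h6 (by positivity)
    have h8 := n1 l hl' (k₀.succAbove 0)
    have h9 := n1 l hl' (k₀.succAbove 1)
    simp only [Pi.zero_apply] at h8 h9
    have h10 : chScf x α β a l (k₀.succAbove 0) ≤ l0 * chScf x α β a l (k₀.succAbove 0) :=
      le_mul_of_one_le_left h8 hlz0
    have h11 : chScf x α β a l (k₀.succAbove 1) ≤ l1 * chScf x α β a l (k₀.succAbove 1) :=
      le_mul_of_one_le_left h9 hlz1
    rcases hk0 k hkk with rfl | rfl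
    · linarith
    · linarith
  -- the end in the two other counters
  have fin2 : ∀ k, k ≠ k₀ → chScf x α β a N k ≤ H := by
    intro k hkk
    have h5 := weq N le_rfl
    have h6 := h2 (k₀.succAbove 0)
    have h7 := h2 (k₀.succAbove 1)
    have h8 : 0 ≤ (l0 : ℤ) * (chScf x α β a N (k₀.succAbove 0) -
        chScf x α β a₀ N (k₀.succAbove 0)) := mul_nonneg (by linarith) (by linarith)
    have h9 : 0 ≤ (l1 : ℤ) * (chScf x α β a N (k₀.succAbove 1) -
        chScf x α β a₀ N (k₀.succAbove 1)) := mul_nonneg (by linarith) (by linarith)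
    rw [mul_sub] at h8 h9
    rcases hk0 k hkk with rfl | rfl
    · have h10 : (l0 : ℤ) * (chScf x α β a N (k₀.succAbove 0) -
          chScf x α β a₀ N (k₀.succAbove 0)) ≤ 0 := by
        rw [mul_sub]
        linarith
      have h11 : chScf x α β a N (k₀.succAbove 0) - chScf x α β a₀ N (k₀.succAbove 0) ≤ 0 := by
        by_contra h12
        have := mul_pos (show (0 : ℤ) < l0 by linarith) (not_le.1 h12)
        linarith
      have := hH (k₀.succAbove 0)
      linarith
    · have h10 : (l1 : ℤ) * (chScf x α β a N (k₀.succAbove 1) -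
          chScf x α β a₀ N (k₀.succAbove 1)) ≤ 0 := by
        rw [mul_sub]
        linarith
      have h11 : chScf x α β a N (k₀.succAbove 1) - chScf x α β a₀ N (k₀.succAbove 1) ≤ 0 := by
        by_contra h12
        have := mul_pos (show (0 : ℤ) < l1 by linarith) (not_le.1 h12)
        linarith
      have := hH (k₀.succAbove 1)
      linarith
  -- the order of the counters
  obtain ⟨σ, hσ⟩ : ∃ σ : Fin 3 → Fin 3, σ = ![k₀.succAbove 0, k₀.succAbove 1, k₀] := ⟨_, rfl⟩
  have σ0 : σ 0 = k₀.succAbove 0 := by rw [hσ]; rfl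
  have σ1 : σ 1 = k₀.succAbove 1 := by rw [hσ]; rfl
  have σ2 : σ 2 = k₀ := by rw [hσ]; rfl
  have σne : ∀ c : Fin 3, c ≠ 2 → σ c ≠ k₀ := by
    intro c hc
    fin_cases c
    · show σ 0 ≠ k₀
      rw [σ0]
      exact Fin.succAbove_ne _ _
    · show σ 1 ≠ k₀
      rw [σ1]
      exact Fin.succAbove_ne _ _
    · exact absurd rfl hc
  -- potS on an initial segment
  have runS : ∀ N' ≤ N, ∀ E : ℕ, (∀ k, chScf x α β a N' k ≤ E) →
      ∑ i ∈ range N', a i ≤ 1000 * (A + 1) ^ 12 * (G + 1) * (N' + E) := by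
    intro N' hN' E hE
    refine potS N' A G E l0 l1 hl (fun i c => (β i).sum (σ c)) (fun i c => (α i).sum (σ c))
      (fun i c => chScf x α β a i (σ c)) a ?_ (fun i _ c => csucc a i _)
      (fun i hi c => (bβ i (by omega) _).trans (by linarith))
      (fun i hi c => (bα i (by omega) _).trans (by linarith))
      (fun i hi c => n1 i (by omega) _) (fun i hi c => n2 i (by omega) _) ?_ ?_ ?_
      (fun c => hE _)
    · intro i hi
      simp only [σ0, σ1]
      exact hk i (by omega)
    · intro i hi hai h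
      simp only [σ0, σ2] at h ⊢
      exact K1 i (by omega) hai h
    · intro i j hij hj hai haj s1 s2 hprod
      simp only [σ0, σ2] at s1 s2 hprod ⊢
      by_contra hcon
      refine pairUD i j hij (by omega) hai haj s1 s2 (fun l h5 h6 => ⟨?_, ?_⟩)
        (fun h4 l h5 h6 => ⟨?_, ?_⟩) (Or.inl hprod)
      · by_contra h7
        exact hcon ⟨l, h5, h6, Or.inl (Or.inl (not_le.1 h7))⟩
      · by_contra h7
        exact hcon ⟨l, h5, h6, Or.inl (Or.inr (not_le.1 h7))⟩
      · by_contra h7
        exact hcon ⟨l, h5, h6, Or.inr ⟨h4, Or.inl (not_le.1 h7)⟩⟩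
      · by_contra h7
        exact hcon ⟨l, h5, h6, Or.inr ⟨h4, Or.inr (not_le.1 h7)⟩⟩
    · intro i j hij hj hai haj s1 s2 hprod
      simp only [σ0, σ1, σ2] at s1 s2 hprod ⊢
      by_contra hcon
      refine pairDU i j hij (by omega) hai haj s1 s2 (fun l h5 h6 => ⟨?_, ?_⟩)
        (fun h4 l h5 h6 => ⟨?_, ?_⟩) (Or.inl hprod)
      · by_contra h7
        exact hcon ⟨l, h5, h6, Or.inl (Or.inl (not_le.1 h7))⟩
      · by_contra h7
        exact hcon ⟨l, h5, h6, Or.inl (Or.inr (not_le.1 h7))⟩
      · by_contra h7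
        exact hcon ⟨l, h5, h6, Or.inr ⟨h4, Or.inl (not_le.1 h7)⟩⟩
      · by_contra h7
        exact hcon ⟨l, h5, h6, Or.inr ⟨h4, Or.inr (not_le.1 h7)⟩⟩
  -- potL on a final segment without lows of the free counter
  have runL : ∀ l₁ N' : ℕ, l₁ + N' = N → (E' : ℤ) ≤ chScf x α β a N k₀ →
      (∀ l, l₁ < l → l ≤ N → (G : ℤ) ≤ chScf x α β a l k₀) →
      (∀ l, l₁ < l → l < N → (G : ℤ) ≤ chScf x α β a l k₀ + (α l).sum k₀) →
      ∑ i ∈ range N', a (l₁ + i) ≤ 1000 * (A + 1) ^ 12 * (G + 1) * (N' + H) := by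
    intro l₁ N' hN' hend hg1 hg2
    refine potL N' A G H l0 l1 hl (fun i c => (β (l₁ + i)).sum (σ c))
      (fun i c => (α (l₁ + i)).sum (σ c)) (fun i c => chScf x α β a (l₁ + i) (σ c))
      (fun i => a (l₁ + i)) ?_ (fun i _ c => csucc a (l₁ + i) _)
      (fun i hi c => (bβ (l₁ + i) (by omega) _).trans (by linarith))
      (fun i hi c => (bα (l₁ + i) (by omega) _).trans (by linarith))
      (fun i hi c => n1 (l₁ + i) (by omega) _) (fun i hi c => n2 (l₁ + i) (by omega) _) ?_ ?_ ?_
      (fun c hc => by rw [hN']; exact fin2 _ (σne c hc))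
    · intro i hi
      simp only [σ0, σ1]
      exact hk (l₁ + i) (by omega)
    · intro i hi hai h
      simp only [σ0] at h
      refine rem1 (l₁ + i) (by omega) (by omega) (fun k hkk => ?_) (Or.inr ⟨fun l h5 h6 => ?_,
        fun l h5 h6 => ?_, hend⟩)
      · rcases hk0 k hkk with rfl | rfl
        · exact h
        · exact ((hneg (l₁ + i) (by omega)).1).1 h
      · exact hg1 l (by omega) h6
      · exact hg2 l (by omega) h6
    · intro i j hij hj hai haj s1 s2
      simp only [σ0] at s1 s2 ⊢
      by_contra hcon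
      refine pairUD (l₁ + i) (l₁ + j) (by omega) (by omega) hai haj s1 s2
        (fun l h5 h6 => ?_) (fun h4 l h5 h6 => ⟨hg1 l (by omega) (by omega),
          hg2 l (by omega) (by omega)⟩)
        (Or.inr ⟨fun l h5 h6 => hg1 l (by omega) h6, fun l h5 h6 => hg2 l (by omega) h6, hend,
          hg2 (l₁ + j) (by omega) (by omega)⟩)
      obtain ⟨l', rfl⟩ : ∃ l', l = l₁ + l' := ⟨l - l₁, by omega⟩
      constructor
      · by_contra h7
        exact hcon ⟨l', by omega, by omega, Or.inl (not_le.1 h7)⟩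
      · by_contra h7
        exact hcon ⟨l', by omega, by omega, Or.inr (not_le.1 h7)⟩
    · intro i j hij hj hai haj s1 s2
      simp only [σ0, σ1] at s1 s2 ⊢
      by_contra hcon
      refine pairDU (l₁ + i) (l₁ + j) (by omega) (by omega) hai haj s1 s2
        (fun l h5 h6 => ?_) (fun h4 l h5 h6 => ⟨hg1 l (by omega) (by omega),
          hg2 l (by omega) (by omega)⟩)
        (Or.inr ⟨fun l h5 h6 => hg1 l (by omega) h6, fun l h5 h6 => hg2 l (by omega) h6, hend,
          hg2 (l₁ + j) (by omega) (by omega)⟩)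
      obtain ⟨l', rfl⟩ : ∃ l', l = l₁ + l' := ⟨l - l₁, by omega⟩
      constructor
      · by_contra h7
        exact hcon ⟨l', by omega, by omega, Or.inl (not_le.1 h7)⟩
      · by_contra h7
        exact hcon ⟨l', by omega, by omega, Or.inr (not_le.1 h7)⟩
  -- numbers
  obtain ⟨D, hD⟩ : ∃ D : ℕ, D = A + 1 := ⟨_, rfl⟩
  have hD2 : 2 ≤ D := by omega
  have hDD : A ≤ D ^ 2 := by nlinarith
  have hGD : G + 1 ≤ 3 * D ^ 2 := by
    rw [hG, ← hD]
    have : 1 ≤ D ^ 2 := Nat.one_le_pow _ _ (by omega)
    omega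
  rw [← hD] at runS runL ⊢
  have hpow : D ^ 16 ≤ D ^ 20 := Nat.pow_le_pow_right (by omega) (by norm_num)
  have hpow14 : D ^ 14 ≤ D ^ 20 := Nat.pow_le_pow_right (by omega) (by norm_num)
  by_cases hend : (E' : ℤ) ≤ chScf x α β a N k₀
  · by_cases hlow : ∃ l, l ≤ N ∧ (chScf x α β a l k₀ < G ∨
        (l < N ∧ chScf x α β a l k₀ + (α l).sum k₀ < G))
    · -- the last low of the free counter
      obtain ⟨l₁, ⟨hl1, hl1'⟩, hlast⟩ : ∃ l₁, (l₁ ≤ N ∧ (chScf x α β a l₁ k₀ < G ∨
          (l₁ < N ∧ chScf x α β a l₁ k₀ + (α l₁).sum k₀ < G))) ∧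
          ∀ l, l₁ < l → l ≤ N → ¬ (chScf x α β a l k₀ < G ∨
            (l < N ∧ chScf x α β a l k₀ + (α l).sum k₀ < G)) := by
        have hbd : ∀ l, (l ≤ N ∧ (chScf x α β a l k₀ < G ∨
          (l < N ∧ chScf x α β a l k₀ + (α l).sum k₀ < G))) → l ≤ N := fun l h => h.1
        refine ⟨Nat.findGreatest (fun l => l ≤ N ∧ (chScf x α β a l k₀ < G ∨
          (l < N ∧ chScf x α β a l k₀ + (α l).sum k₀ < G))) N, ?_, ?_⟩
        · obtain ⟨l, h5⟩ := hlow
          exact Nat.findGreatest_spec (P := fun l => l ≤ N ∧ (chScf x α β a l k₀ < G ∨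
            (l < N ∧ chScf x α β a l k₀ + (α l).sum k₀ < G))) (hbd l h5) h5
        · intro l h5 h6 h7
          exact Nat.findGreatest_is_greatest h5 h6 ⟨h6, h7⟩
      obtain ⟨N', hN'⟩ : ∃ N', l₁ + N' = N := ⟨N - l₁, by omega⟩
      have hS := runS l₁ hl1 (2 * A * H + 2 * A ^ 2 * N + G + A) (by
        intro k
        push_cast
        by_cases hkk : k = k₀
        · subst hkk
          have h5 : chScf x α β a l₁ k ≤ G + A := by
            rcases hl1' with h6 | ⟨h6, h7⟩
            · linarith
            · have h8 := (abs_le.1 (bα l₁ h6 k)).1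
              linarith
          have h6 : (0 : ℤ) ≤ 2 * A * H + 2 * A ^ 2 * N := by positivity
          linarith
        · have h5 := up l₁ hl1 k hkk
          have h6 : (0 : ℤ) ≤ G := Int.natCast_nonneg G
          linarith)
      have hL := runL l₁ N' hN' hend
        (fun l h5 h6 => not_lt.1 fun h7 => hlast l h5 h6 (Or.inl h7))
        (fun l h5 h6 => not_lt.1 fun h7 => hlast l h5 h6.le (Or.inr ⟨h6, h7⟩))
      have hsum : ∑ i ∈ range N, a i = ∑ i ∈ range l₁, a i + ∑ i ∈ range N', a (l₁ + i) := by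
        rw [← hN', Finset.sum_range_add]
      rw [hsum]
      have q1 : l₁ + (2 * A * H + 2 * A ^ 2 * N + G + A) ≤ 6 * D ^ 2 * (N + H + 1) := by
        have r1 : 2 * A * H ≤ 2 * D ^ 2 * H := by
          have := Nat.mul_le_mul_right H hDD
          nlinarith
        have r2 : 2 * A ^ 2 * N ≤ 2 * D ^ 2 * N := by
          have : A ^ 2 ≤ D ^ 2 := Nat.pow_le_pow_left (by omega) 2
          have := Nat.mul_le_mul_right N this
          nlinarith
        have r3 : l₁ ≤ D ^ 2 * N := by
          have h5 : 1 ≤ D ^ 2 := Nat.one_le_pow _ _ (by omega)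
          have h6 := Nat.mul_le_mul_right N h5
          omega
        have r4 : G + A ≤ 4 * D ^ 2 := by omega
        nlinarith
      have q2 : N' + H ≤ N + H + 1 := by omega
      have t1 : 1000 * D ^ 12 * (G + 1) * (l₁ + (2 * A * H + 2 * A ^ 2 * N + G + A)) ≤
          18000 * D ^ 20 * (N + H + 1) := by
        calc 1000 * D ^ 12 * (G + 1) * (l₁ + (2 * A * H + 2 * A ^ 2 * N + G + A))
            ≤ 1000 * D ^ 12 * (3 * D ^ 2) * (6 * D ^ 2 * (N + H + 1)) :=
              Nat.mul_le_mul (Nat.mul_le_mul_left _ hGD) q1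
          _ = 18000 * D ^ 16 * (N + H + 1) := by ring
          _ ≤ 18000 * D ^ 20 * (N + H + 1) :=
              Nat.mul_le_mul_right _ (Nat.mul_le_mul_left _ hpow)
      have t2 : 1000 * D ^ 12 * (G + 1) * (N' + H) ≤ 3000 * D ^ 20 * (N + H + 1) := by
        calc 1000 * D ^ 12 * (G + 1) * (N' + H)
            ≤ 1000 * D ^ 12 * (3 * D ^ 2) * (N + H + 1) :=
              Nat.mul_le_mul (Nat.mul_le_mul_left _ hGD) q2
          _ = 3000 * D ^ 14 * (N + H + 1) := by ring
          _ ≤ 3000 * D ^ 20 * (N + H + 1) :=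
              Nat.mul_le_mul_right _ (Nat.mul_le_mul_left _ hpow14)
      have t3 : 18000 * D ^ 20 * (N + H + 1) + 3000 * D ^ 20 * (N + H + 1) ≤
          100000 * D ^ 20 * (N + H + 1) := by
        rw [← add_mul, ← add_mul]
        exact Nat.mul_le_mul_right _ (Nat.mul_le_mul_right _ (by norm_num))
      exact (add_le_add (hS.trans t1) (hL.trans t2)).trans t3
    · -- the free counter is never low
      have hL := runL 0 N (Nat.zero_add N) hend
        (fun l h5 h6 => not_lt.1 fun h7 => hlow ⟨l, h6, Or.inl h7⟩)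
        (fun l h5 h6 => not_lt.1 fun h7 => hlow ⟨l, h6.le, Or.inr ⟨h6, h7⟩⟩)
      simp only [Nat.zero_add] at hL
      refine hL.trans ?_
      calc 1000 * D ^ 12 * (G + 1) * (N + H)
          ≤ 1000 * D ^ 12 * (3 * D ^ 2) * (N + H + 1) :=
            Nat.mul_le_mul (Nat.mul_le_mul_left _ hGD) (by omega)
        _ = 3000 * D ^ 14 * (N + H + 1) := by ring
        _ ≤ 100000 * D ^ 20 * (N + H + 1) :=
            Nat.mul_le_mul_right _ (Nat.mul_le_mul (by norm_num) hpow14)
  · have hS := runS N le_rfl E' (by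
      intro k
      by_cases hkk : k = k₀
      · subst hkk
        linarith
      · have h5 := fin2 k hkk
        have h6 : (0 : ℤ) ≤ G := Int.natCast_nonneg G
        linarith)
    refine hS.trans ?_
    have q1 : N + E' ≤ 3 * D ^ 2 * (N + H + 1) := by
      rw [hE']
      have h5 : 1 ≤ D ^ 2 := Nat.one_le_pow _ _ (by omega)
      have h6 := Nat.mul_le_mul_right (N + H) h5
      nlinarith
    calc 1000 * D ^ 12 * (G + 1) * (N + E')
        ≤ 1000 * D ^ 12 * (3 * D ^ 2) * (3 * D ^ 2 * (N + H + 1)) :=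
          Nat.mul_le_mul (Nat.mul_le_mul_left _ hGD) q1
      _ = 9000 * D ^ 16 * (N + H + 1) := by ring
      _ ≤ 100000 * D ^ 20 * (N + H + 1) :=
          Nat.mul_le_mul_right _ (Nat.mul_le_mul (by norm_num) hpow)

private theorem chS_lsum (a : ℕ → ℕ) (N : ℕ) :
    ((List.range N).map a).sum = ∑ i ∈ range N, a i := by
  induction N with
  | zero => simp
  | succ N ih =>
    rw [List.range_succ, List.map_append, List.sum_append, ih, sum_range_succ]
    simp

theorem chainS {Q : Type} {T : VASS Q 3} {p q : Q} {x : Vec 3} {I : List (Itm 3)} {k₀ : Fin 3}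
    {lam : Fin 3 → ℕ} (h0 : lam k₀ = 0) (hl : ∀ k, k ≠ k₀ → lam k ≠ 0)
    {s H A : ℕ} (hI : IsScheme T p (I.map isk) q) (hx : 0 ≤ x) (hxH : ∀ k, x k ≤ H)
    (hok : Ok x (unroll I)) (hk : ∀ e ∈ I, ∑ k, (lam k : ℤ) * e.2.1.sum k = 0)
    (hs : ∀ e ∈ I, e.1.length + e.2.1.length ≤ s) (hA : s * maxNorm T + 1 ≤ A)
    (hb : ∀ k, lam k ≤ A) (hH : ∀ k, (x + (unroll I).sum) k ≤ H) :
    ∃ J : List (Itm 3), J.map isk = I.map isk ∧ Ok x (unroll J) ∧
      (unroll I).sum ≤ (unroll J).sum ∧
      (J.map fun e => e.2.2).sum ≤ 100000 * (A + 1) ^ 20 * (I.length + H + 1) := by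
  obtain ⟨g, hg⟩ : ∃ g : ℕ → Itm 3, g = fun i => I.getD i ([], [], 0) := ⟨_, rfl⟩
  have hmem : ∀ l < I.length, g l ∈ I := by
    intro l hl
    rw [hg]
    simp only
    rw [List.getD_eq_getElem _ _ hl]
    exact List.getElem_mem hl
  have hI' : I = (List.range I.length).map
      (fun i => ((g i).1, (g i).2.1, (g i).2.2)) := by
    apply List.ext_getElem
    · simp
    · intro i h1 h2
      rw [List.getElem_map, List.getElem_range, hg]
      simp only
      rw [List.getD_eq_getElem _ _ h1]
  have hlet : ∀ l < I.length, (∀ v ∈ (g l).1, ∀ k, |v k| ≤ maxNorm T) ∧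
      ∀ v ∈ (g l).2.1, ∀ k, |v k| ≤ maxNorm T := by
    intro l hl
    obtain ⟨⟨p', q', h4⟩, r, h5⟩ := scheme_loops I hI (g l) (hmem l hl)
    refine ⟨fun v hv k => ?_, fun v hv k => ?_⟩
    · obtain ⟨a, b, hab⟩ := h4.letters v hv
      exact abs_le_maxNorm hab k
    · obtain ⟨a, b, hab⟩ := h5.letters v hv
      exact abs_le_maxNorm hab k
  have hkl : ∀ l < I.length, (lam (k₀.succAbove 0) : ℤ) * (g l).2.1.sum (k₀.succAbove 0) +
      lam (k₀.succAbove 1) * (g l).2.1.sum (k₀.succAbove 1) = 0 := by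
    intro l hl'
    have h5 := hk _ (hmem l hl')
    rw [Fin.sum_univ_succAbove _ k₀, h0, Fin.sum_univ_two] at h5
    simpa using h5
  have hl0 : 1 ≤ lam (k₀.succAbove 0) :=
    Nat.one_le_iff_ne_zero.2 (hl _ (Fin.succAbove_ne _ _))
  have hl1 : 1 ≤ lam (k₀.succAbove 1) :=
    Nat.one_le_iff_ne_zero.2 (hl _ (Fin.succAbove_ne _ _))
  obtain ⟨u1, u2⟩ := chS_unroll x (fun i => (g i).1) (fun i => (g i).2.1) (fun i => (g i).2.2)
    I.length
  rw [← hI'] at u1 u2
  obtain ⟨a, h1, h2, h3⟩ := chS_core I.length s (maxNorm T) H A hA x hx hxH (fun i => (g i).1)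
    (fun i => (g i).2.1) (fun i => (g i).2.2) k₀ (lam (k₀.succAbove 0)) (lam (k₀.succAbove 1))
    ⟨hl0, hb _, hl1, hb _⟩ (fun l hl => (hlet l hl).1)
    (fun l hl => (hlet l hl).2) (fun l hl => hs _ (hmem l hl)) hkl
    (u1.1 hok) (fun k => by rw [← u2]; exact hH k)
  obtain ⟨v1, v2⟩ := chS_unroll x (fun i => (g i).1) (fun i => (g i).2.1) a I.length
  refine ⟨(List.range I.length).map fun i => ((g i).1, (g i).2.1, a i), ?_, v1.2 h1, ?_, ?_⟩
  · conv_rhs => rw [hI']
    rw [List.map_map, List.map_map]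
    rfl
  · rw [← u2, ← v2] at h2
    exact (add_le_add_iff_left x).1 h2
  · rw [List.map_map]
    have e : ((fun e : Itm 3 => e.2.2) ∘ fun i => ((g i).1, (g i).2.1, a i)) = a := rfl
    rw [e, chS_lsum]
    exact h3

end Pool.Agent.EE3
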