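import Mathlib

/-!
# EE3 / Circ: conformal rounding of rational solutions
-/

set_option autoImplicit false
set_option linter.unusedSectionVars false

namespace Pool.Agent.EE3

open Finset

/-- a determinant is at most the product of the row sums -/
theorem det_abs_le (κ : ℕ) (r : ℕ) : ∀ (M : Matrix (Fin r) (Fin r) ℤ),
    (∀ a, ∑ b, |M a b| ≤ κ) → |M.det| ≤ (κ : ℤ) ^ r := by
  induction r with
  | zero =>
    intro M _
    simp
  | succ r ih =>
    intro M hM
    rw [Matrix.det_succ_row_zero]
    have h1 : ∀ j : Fin (r + 1), |(-1) ^ (j : ℕ) * M 0 j * (M.submatrix Fin.succ j.succAbove).det|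
        ≤ |M 0 j| * (κ : ℤ) ^ r := by
      intro j
      rw [abs_mul, abs_mul, abs_pow, abs_neg, abs_one, one_pow, one_mul]
      refine mul_le_mul_of_nonneg_left (ih _ fun a => ?_) (abs_nonneg _)
      refine le_trans ?_ (hM a.succ)
      rw [Fin.sum_univ_succAbove (fun b => |M a.succ b|) j]
      have : 0 ≤ |M a.succ j| := abs_nonneg _
      simp only [Matrix.submatrix_apply]
      linarith
    calc |∑ j : Fin (r + 1), (-1) ^ (j : ℕ) * M 0 j * (M.submatrix Fin.succ j.succAbove).det|
        ≤ ∑ j : Fin (r + 1),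
          |(-1) ^ (j : ℕ) * M 0 j * (M.submatrix Fin.succ j.succAbove).det| :=
          abs_sum_le_sum_abs _ _
      _ ≤ ∑ j : Fin (r + 1), |M 0 j| * (κ : ℤ) ^ r := sum_le_sum fun j _ => h1 j
      _ = (∑ j : Fin (r + 1), |M 0 j|) * (κ : ℤ) ^ r := by rw [sum_mul]
      _ ≤ κ * (κ : ℤ) ^ r := mul_le_mul_of_nonneg_right (hM 0) (by positivity)
      _ = (κ : ℤ) ^ (r + 1) := by ring

variable {R C : Type} [Fintype R] [Fintype C] [DecidableEq R] [DecidableEq C]

/-- sum over an injective family of columns -/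
theorem sum_inj_le {r : ℕ} {s : Fin r → C} (hs : Function.Injective s) {f : C → ℤ}
    (hf : ∀ j, 0 ≤ f j) : ∑ b, f (s b) ≤ ∑ j, f j := by
  have h : ∑ b, f (s b) = ∑ j ∈ univ.map ⟨s, hs⟩, f j := by
    rw [sum_map]
    rfl
  rw [h]
  exact sum_le_sum_of_subset_of_nonneg (subset_univ _) fun j _ _ => hf j

/-- a nonsingular square submatrix with columns in `S` -/
def Mnr (A : R → C → ℤ) (S : Finset C) (r : ℕ) : Prop :=
  ∃ (I : Fin r → R) (s : Fin r → C), (∀ a, s a ∈ S) ∧
    (Matrix.of fun a b => A (I a) (s b)).det ≠ 0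

theorem Mnr_inj {A : R → C → ℤ} {r : ℕ} {I : Fin r → R} {s : Fin r → C}
    (h : (Matrix.of fun a b => A (I a) (s b)).det ≠ 0) :
    Function.Injective I ∧ Function.Injective s := by
  constructor
  · intro a a' he
    by_contra hne
    refine h (Matrix.det_zero_of_row_eq hne ?_)
    funext b
    simp only [Matrix.of_apply, he]
  · intro a a' he
    by_contra hne
    refine h (Matrix.det_zero_of_column_eq hne ?_)
    intro b
    simp only [Matrix.of_apply, he]

/-- a small integer vector in the kernel with given support -/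
theorem ker_int (A : R → C → ℤ) (κ : ℕ) (hκ1 : 1 ≤ κ) (hκ : ∀ i, ∑ j, |A i j| ≤ κ)
    (S : Finset C) (v : C → ℚ) (hv : v ≠ 0) (hS : ∀ j, j ∉ S → v j = 0)
    (h : ∀ i, ∑ j, (A i j : ℚ) * v j = 0) :
    ∃ g : C → ℤ, g ≠ 0 ∧ (∀ j, j ∉ S → g j = 0) ∧ (∀ i, ∑ j, A i j * g j = 0) ∧
      ∀ j, |g j| ≤ (κ : ℤ) ^ Fintype.card R := by
  classical
  have h0 : Mnr A S 0 := ⟨Fin.elim0, Fin.elim0, fun a => a.elim0, by simp⟩
  have hle : ∀ r, Mnr A S r → r ≤ Fintype.card R := by
    intro r ⟨I, s, _, h2⟩
    simpa using Fintype.card_le_of_injective I (Mnr_inj h2).1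
  obtain ⟨r, hr, hr1⟩ : ∃ r, Mnr A S r ∧ ¬ Mnr A S (r + 1) := by
    by_contra hc
    push Not at hc
    have : ∀ r, Mnr A S r := by
      intro r
      induction r with
      | zero => exact h0
      | succ r ih => exact hc r ih
    have := hle _ (this (Fintype.card R + 1))
    omega
  obtain ⟨I, s, hs, hdet⟩ := hr
  have hsinj := (Mnr_inj hdet).2
  have hrR := hle r ⟨I, s, hs, hdet⟩
  -- a column outside
  obtain ⟨j₀, hj₀, hj₀s⟩ : ∃ j₀ ∈ S, ∀ b, s b ≠ j₀ := by
    by_contra hc
    push Not at hc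
    have hdetQ : (Matrix.of fun a b => (A (I a) (s b) : ℚ)).det ≠ 0 := by
      have e : (Matrix.of fun a b => (A (I a) (s b) : ℚ)).det =
          (((Matrix.of fun a b => A (I a) (s b)).det : ℤ) : ℚ) := by
        exact ((Int.castRingHom ℚ).map_det (Matrix.of fun a b => A (I a) (s b))).symm
      rw [e]
      exact_mod_cast hdet
    have hw : (Matrix.of fun a b => (A (I a) (s b) : ℚ)).mulVec (fun b => v (s b)) = 0 := by
      funext a
      show ∑ b, (A (I a) (s b) : ℚ) * v (s b) = 0
      rw [← h (I a)]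
      have e1 : ∑ b, (A (I a) (s b) : ℚ) * v (s b) =
          ∑ j ∈ univ.map ⟨s, hsinj⟩, (A (I a) j : ℚ) * v j := by
        rw [sum_map]
        rfl
      rw [e1]
      refine sum_subset (subset_univ _) fun j _ hj => ?_
      have : v j = 0 := by
        by_cases hjS : j ∈ S
        · obtain ⟨b, hb⟩ := hc j hjS
          exact absurd (mem_map.2 ⟨b, mem_univ _, hb⟩) hj
        · exact hS j hjS
      rw [this, mul_zero]
    have hw0 := Matrix.eq_zero_of_mulVec_eq_zero hdetQ hw
    apply hv
    funext j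
    by_cases hjS : j ∈ S
    · obtain ⟨b, hb⟩ := hc j hjS
      rw [← hb]
      exact congrFun hw0 b
    · exact hS j hjS
  set s' : Fin (r + 1) → C := Fin.cons j₀ s with hs'
  have hs'inj : Function.Injective s' := by
    rw [hs', Fin.cons_injective_iff]
    refine ⟨?_, hsinj⟩
    rintro ⟨b, hb⟩
    exact hj₀s b hb
  have hs'S : ∀ b, s' b ∈ S := by
    intro b
    refine Fin.cases ?_ (fun b => ?_) b
    · rw [hs', Fin.cons_zero]
      exact hj₀
    · rw [hs', Fin.cons_succ]
      exact hs b
  set c : Fin (r + 1) → ℤ := fun b => (-1) ^ (b : ℕ) *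
    (Matrix.of fun (a : Fin r) (b' : Fin r) => A (I a) (s' (b.succAbove b'))).det with hc
  have hsum : ∀ f : C → ℤ, ∑ j, f j * (∑ b, if s' b = j then c b else 0) =
      ∑ b, f (s' b) * c b := by
    intro f
    calc ∑ j, f j * (∑ b, if s' b = j then c b else 0)
        = ∑ j, ∑ b, (if s' b = j then f j * c b else 0) := by
          refine sum_congr rfl fun j _ => ?_
          rw [mul_sum]
          exact sum_congr rfl fun b _ => by split_ifs <;> simp
      _ = ∑ b, ∑ j, (if s' b = j then f j * c b else 0) := sum_comm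
      _ = ∑ b, f (s' b) * c b := by
          refine sum_congr rfl fun b _ => ?_
          rw [sum_ite_eq]
          simp
  have hval : ∀ b, (∑ b', if s' b' = s' b then c b' else 0) = c b := by
    intro b
    have : ∀ b', (if s' b' = s' b then c b' else 0) = if b' = b then c b' else 0 := by
      intro b'
      by_cases hb : b' = b
      · rw [hb, if_pos rfl, if_pos rfl]
      · rw [if_neg hb, if_neg fun h => hb (hs'inj h)]
    simp_rw [this]
    simp
  refine ⟨fun j => ∑ b, if s' b = j then c b else 0, ?_, ?_, ?_, ?_⟩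
  · intro h1
    have h2 := congrFun h1 (s' 0)
    have h3 : c 0 = 0 := by
      rw [← hval 0]
      exact h2
    apply hdet
    rw [← h3, hc]
    simp only [Fin.val_zero, pow_zero, one_mul]
    congr 1
  · intro j hj
    refine sum_eq_zero fun b _ => ?_
    rw [if_neg]
    intro hb
    exact hj (hb ▸ hs'S b)
  · intro i
    have e1 := hsum (fun j => A i j)
    rw [e1]
    have e2 : (Matrix.of fun (a b : Fin (r + 1)) => A ((Fin.cons i I : Fin (r + 1) → R) a) (s' b)).det
        = 0 := by
      by_contra hne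
      exact hr1 ⟨Fin.cons i I, s', hs'S, hne⟩
    rw [Matrix.det_succ_row_zero] at e2
    rw [← e2]
    refine sum_congr rfl fun b _ => ?_
    have e3 : ((Matrix.of fun (a b : Fin (r + 1)) =>
        A ((Fin.cons i I : Fin (r + 1) → R) a) (s' b)).submatrix Fin.succ b.succAbove).det =
        (Matrix.of fun (a : Fin r) (b' : Fin r) => A (I a) (s' (b.succAbove b'))).det := by
      congr 1
    rw [e3, hc]
    simp only [Matrix.of_apply, Fin.cons_zero]
    ring
  · intro j
    by_cases hj : ∃ b, s' b = j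
    · obtain ⟨b, rfl⟩ := hj
      show |∑ b', if s' b' = s' b then c b' else 0| ≤ _
      rw [hval, hc]
      simp only [abs_mul, abs_pow, abs_neg, abs_one, one_pow, one_mul]
      refine (det_abs_le κ r _ fun a => ?_).trans ?_
      · refine le_trans ?_ (hκ (I a))
        exact sum_inj_le (s := fun b' => s' (b.succAbove b'))
          (hs'inj.comp Fin.succAbove_right_injective) (f := fun j => |A (I a) j|)
          fun j => abs_nonneg _
      · exact pow_le_pow_right₀ (by exact_mod_cast hκ1) hrR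
    · have : (∑ b, if s' b = j then c b else 0) = 0 :=
        sum_eq_zero fun b _ => if_neg fun hb => hj ⟨b, hb⟩
      show |∑ b, if s' b = j then c b else 0| ≤ _
      rw [this, abs_zero]
      positivity

/-- a small integer vector in the kernel conformal to a given one -/
theorem conf_int (A : R → C → ℤ) (κ : ℕ) (hκ1 : 1 ≤ κ) (hκ : ∀ i, ∑ j, |A i j| ≤ κ)
    (v : C → ℚ) (hv : v ≠ 0) (h : ∀ i, ∑ j, (A i j : ℚ) * v j = 0) :
    ∃ g : C → ℤ, g ≠ 0 ∧ (∀ j, v j = 0 → g j = 0) ∧ (∀ j, 0 ≤ (g j : ℚ) * v j) ∧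
      (∀ i, ∑ j, A i j * g j = 0) ∧ ∀ j, |g j| ≤ (κ : ℤ) ^ Fintype.card R := by
  classical
  -- a conformal vector with minimal support
  have hex : ∃ n, ∃ w : C → ℚ, w ≠ 0 ∧ (∀ i, ∑ j, (A i j : ℚ) * w j = 0) ∧
      (∀ j, v j = 0 → w j = 0) ∧ (∀ j, 0 ≤ w j * v j) ∧ (univ.filter fun j => w j ≠ 0).card = n :=
    ⟨_, v, hv, h, fun _ h => h, fun j => mul_self_nonneg _, rfl⟩
  obtain ⟨w, hw0, hwA, hwv, hwc, hwn⟩ := Nat.find_spec hex
  have hmin : ∀ w' : C → ℚ, w' ≠ 0 → (∀ i, ∑ j, (A i j : ℚ) * w' j = 0) →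
      (∀ j, v j = 0 → w' j = 0) → (∀ j, 0 ≤ w' j * v j) →
      Nat.find hex ≤ (univ.filter fun j => w' j ≠ 0).card :=
    fun w' a b c d => Nat.find_min' hex ⟨w', a, b, c, d, rfl⟩
  obtain ⟨g, hg0, hgS, hgA, hgb⟩ := ker_int A κ hκ1 hκ (univ.filter fun j => w j ≠ 0) w hw0
    (fun j hj => by
      by_contra hc
      exact hj (mem_filter.2 ⟨mem_univ _, hc⟩)) hwA
  have hgS' : ∀ j, w j = 0 → g j = 0 := fun j hj => hgS j fun h => (mem_filter.1 h).2 hj
  have hSne : (univ.filter fun j => w j ≠ 0).Nonempty := by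
    by_contra hc
    rw [not_nonempty_iff_eq_empty, filter_eq_empty_iff] at hc
    apply hw0
    funext j
    have := hc (mem_univ j)
    simpa using this
  obtain ⟨j₁, hj₁, hmax⟩ := exists_max_image _ (fun j => (g j : ℚ) / w j) hSne
  have hj₁w : w j₁ ≠ 0 := (mem_filter.1 hj₁).2
  set l : ℚ := (g j₁ : ℚ) / w j₁ with hl
  have hgl : ∀ j, (g j : ℚ) = l * w j := by
    by_contra hc
    push Not at hc
    obtain ⟨j₂, hj₂⟩ := hc
    have h1 := hmin (fun j => l * w j - g j) (by
      intro h0
      have := congrFun h0 j₂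
      apply hj₂
      simp only [Pi.zero_apply] at this
      linarith) (by
      intro i
      have e : ∀ j, (A i j : ℚ) * (l * w j - g j) = l * ((A i j : ℚ) * w j) -
        ((A i j * g j : ℤ) : ℚ) := by
        intro j
        push_cast
        ring
      simp_rw [e]
      rw [sum_sub_distrib, ← mul_sum, hwA i, mul_zero, ← Int.cast_sum, hgA i]
      simp) (by
      intro j hj
      have h2 := hwv j hj
      rw [h2, hgS' j h2]
      simp) (by
      intro j
      by_cases h2 : w j = 0
      · rw [h2, hgS' j h2]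
        simp
      · have h3 := hmax j (mem_filter.2 ⟨mem_univ _, h2⟩)
        have h4 : (g j : ℚ) = (g j : ℚ) / w j * w j := by
          rw [div_mul_cancel₀]
          exact h2
        have h5 : (l * w j - g j) * v j = (l - (g j : ℚ) / w j) * (w j * v j) := by
          calc (l * w j - g j) * v j = (l * w j - (g j : ℚ) / w j * w j) * v j := by rw [← h4]
            _ = (l - (g j : ℚ) / w j) * (w j * v j) := by ring
        rw [h5]
        exact mul_nonneg (sub_nonneg.2 h3) (hwc j))
    have h2 : (univ.filter fun j => l * w j - g j ≠ 0) ⊂ univ.filter fun j => w j ≠ 0 := by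
      refine (ssubset_iff_of_subset ?_).2 ⟨j₁, hj₁, ?_⟩
      · intro j hj
        rw [mem_filter] at hj ⊢
        refine ⟨mem_univ _, fun h3 => hj.2 ?_⟩
        rw [h3, hgS' j h3]
        simp
      · rw [mem_filter]
        rintro ⟨-, h3⟩
        apply h3
        rw [hl, div_mul_cancel₀ _ hj₁w, sub_self]
    have h3 := card_lt_card h2
    omega
  have hl0 : l ≠ 0 := by
    intro h0
    apply hg0
    funext j
    have := hgl j
    rw [h0, zero_mul] at this
    exact_mod_cast this
  have hgv : ∀ j, v j = 0 → g j = 0 := fun j hj => hgS' j (hwv j hj)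
  rcases lt_or_gt_of_ne hl0 with hneg | hpos
  · refine ⟨fun j => - g j, ?_, ?_, ?_, ?_, ?_⟩
    · intro h0
      apply hg0
      funext j
      have := congrFun h0 j
      simpa using this
    · intro j hj
      show - g j = 0
      rw [hgv j hj, neg_zero]
    · intro j
      have e : (((-g j : ℤ)) : ℚ) * v j = (-l) * (w j * v j) := by
        push_cast
        rw [hgl j]
        ring
      rw [e]
      exact mul_nonneg (by linarith) (hwc j)
    · intro i
      have e : ∀ j, A i j * -g j = -(A i j * g j) := fun j => by ring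
      simp_rw [e]
      rw [sum_neg_distrib, hgA i, neg_zero]
    · intro j
      rw [abs_neg]
      exact hgb j
  · refine ⟨g, hg0, hgv, ?_, hgA, hgb⟩
    intro j
    rw [hgl j, mul_assoc]
    exact mul_nonneg hpos.le (hwc j)

/-- the rounding, by induction on the size of the support -/
theorem circ_ind (A : R → C → ℤ) (κ : ℕ) (hκ1 : 1 ≤ κ) (hκ : ∀ i, ∑ j, |A i j| ≤ κ) (s : ℕ) :
    ∀ (z : C → ℤ) (x : C → ℚ), (univ.filter fun j => (z j : ℚ) - x j ≠ 0).card ≤ s →
      (∀ i, ∑ j, (A i j : ℚ) * ((z j : ℚ) - x j) = 0) →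
    ∃ z' : C → ℤ, (∀ i, ∑ j, A i j * (z' j - z j) = 0) ∧
      (∀ j, min (z j : ℚ) (x j) ≤ z' j ∧ (z' j : ℚ) ≤ max (z j : ℚ) (x j)) ∧
      ∀ j, |(z' j : ℚ) - x j| ≤ s * (κ : ℚ) ^ Fintype.card R := by
  classical
  have hK : (0 : ℚ) ≤ (κ : ℚ) ^ Fintype.card R := by positivity
  induction s with
  | zero =>
    intro z x hs _
    refine ⟨z, fun i => by simp, fun j => ⟨min_le_left _ _, le_max_left _ _⟩, fun j => ?_⟩
    rw [Nat.le_zero, card_eq_zero, filter_eq_empty_iff] at hs
    have h1 := hs (mem_univ j)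
    rw [not_not] at h1
    rw [h1]
    simp
  | succ s ih =>
    intro z x hs hA
    by_cases hv : (fun j => (z j : ℚ) - x j) = 0
    · refine ⟨z, fun i => by simp, fun j => ⟨min_le_left _ _, le_max_left _ _⟩, fun j => ?_⟩
      have h1 : (z j : ℚ) - x j = 0 := congrFun hv j
      rw [h1, abs_zero]
      positivity
    · obtain ⟨g, hg0, hgv, hgc, hgA, hgb⟩ := conf_int A κ hκ1 hκ _ hv hA
      have hgne : (univ.filter fun j => g j ≠ 0).Nonempty := by
        by_contra hc
        rw [not_nonempty_iff_eq_empty, filter_eq_empty_iff] at hc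
        apply hg0
        funext j
        have := hc (mem_univ j)
        simpa using this
      obtain ⟨j₁, hj₁, hmin⟩ := exists_min_image _
        (fun j => ((z j : ℚ) - x j) / (g j : ℚ)) hgne
      have hj₁g : g j₁ ≠ 0 := (mem_filter.1 hj₁).2
      have hj₁q : (g j₁ : ℚ) ≠ 0 := by exact_mod_cast hj₁g
      set t : ℚ := ((z j₁ : ℚ) - x j₁) / (g j₁ : ℚ) with ht
      have ht0 : 0 ≤ t := by
        have h1 := hgc j₁
        have h2 : t = ((g j₁ : ℚ) * ((z j₁ : ℚ) - x j₁)) / ((g j₁ : ℚ) * g j₁) := by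
          rw [ht]
          field_simp
        rw [h2]
        exact div_nonneg h1 (mul_self_nonneg _)
      set q : ℤ := ⌊t⌋ with hq
      have hq0 : (0 : ℚ) ≤ q := by exact_mod_cast Int.floor_nonneg.2 ht0
      have hqt : (q : ℚ) ≤ t := Int.floor_le t
      have hqt1 : t - q ≤ 1 := by
        have := Int.lt_floor_add_one t
        rw [← hq] at this
        linarith
      -- the ratio test
      have htg : ∀ j, 0 < g j → t * g j ≤ (z j : ℚ) - x j := by
        intro j hj
        have h1 : t ≤ ((z j : ℚ) - x j) / (g j : ℚ) :=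
          hmin j (mem_filter.2 ⟨mem_univ _, hj.ne'⟩)
        have h2 : (0 : ℚ) < g j := by exact_mod_cast hj
        exact (le_div_iff₀ h2).1 h1
      have htg' : ∀ j, g j < 0 → (z j : ℚ) - x j ≤ t * g j := by
        intro j hj
        have h1 : t ≤ ((z j : ℚ) - x j) / (g j : ℚ) :=
          hmin j (mem_filter.2 ⟨mem_univ _, hj.ne⟩)
        have h2 : (g j : ℚ) < 0 := by exact_mod_cast hj
        exact (le_div_iff_of_neg h2).1 h1
      have hz1 : ∀ j, (((z j - q * g j : ℤ)) : ℚ) - (x j + (t - q) * g j) =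
          (z j : ℚ) - x j - t * g j := by
        intro j
        push_cast
        ring
      obtain ⟨z', k1, k2, k3⟩ := ih (fun j => z j - q * g j) (fun j => x j + (t - q) * g j) (by
        have h2 : (univ.filter fun j => (((z j - q * g j : ℤ)) : ℚ) - (x j + (t - q) * g j) ≠ 0)
            ⊂ univ.filter fun j => (z j : ℚ) - x j ≠ 0 := by
          refine (ssubset_iff_of_subset ?_).2 ⟨j₁, ?_, ?_⟩
          · intro j hj
            rw [mem_filter] at hj ⊢
            refine ⟨mem_univ _, fun h3 => hj.2 ?_⟩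
            rw [hz1, h3, hgv j h3]
            simp
          · rw [mem_filter]
            exact ⟨mem_univ _, fun h3 => hj₁g (hgv j₁ h3)⟩
          · rw [mem_filter]
            rintro ⟨-, h3⟩
            apply h3
            rw [hz1, ht, div_mul_cancel₀ _ hj₁q, sub_self]
        have h3 := card_lt_card h2
        omega) (by
        intro i
        have e : ∀ j, (A i j : ℚ) * ((((z j - q * g j : ℤ)) : ℚ) - (x j + (t - q) * g j)) =
            (A i j : ℚ) * ((z j : ℚ) - x j) - t * ((A i j * g j : ℤ) : ℚ) := by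
          intro j
          rw [hz1]
          push_cast
          ring
        simp_rw [e]
        rw [sum_sub_distrib, hA i, ← mul_sum, ← Int.cast_sum, hgA i]
        simp)
      -- both points are between `z` and `x`
      have hbt : ∀ j, (min (z j : ℚ) (x j) ≤ ((z j - q * g j : ℤ) : ℚ) ∧
          ((z j - q * g j : ℤ) : ℚ) ≤ max (z j : ℚ) (x j)) ∧
          (min (z j : ℚ) (x j) ≤ x j + (t - q) * g j ∧
          x j + (t - q) * g j ≤ max (z j : ℚ) (x j)) := by
        intro j
        have hcast : (((z j - q * g j : ℤ)) : ℚ) = (z j : ℚ) - q * g j := by push_cast; ring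
        rw [hcast]
        have htq0 : 0 ≤ t - q := by linarith
        rcases lt_trichotomy (g j) 0 with hj | hj | hj
        · have h1 := htg' j hj
          have h2 : (g j : ℚ) < 0 := by exact_mod_cast hj
          have h3 : (q : ℚ) * g j ≤ 0 := mul_nonpos_of_nonneg_of_nonpos hq0 h2.le
          have h4 : (t - q) * (g j : ℚ) ≤ 0 := mul_nonpos_of_nonneg_of_nonpos htq0 h2.le
          have h5 : t * (g j : ℚ) = q * g j + (t - q) * g j := by ring
          have h6 : (z j : ℚ) ≤ x j := by linarith
          rw [min_eq_left h6, max_eq_right h6]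
          refine ⟨⟨by linarith, by linarith⟩, ⟨by linarith, by linarith⟩⟩
        · have h2 : (g j : ℚ) = 0 := by exact_mod_cast hj
          rw [h2, mul_zero, mul_zero, sub_zero, add_zero]
          exact ⟨⟨min_le_left _ _, le_max_left _ _⟩, ⟨min_le_right _ _, le_max_right _ _⟩⟩
        · have h1 := htg j hj
          have h2 : (0 : ℚ) < g j := by exact_mod_cast hj
          have h3 : 0 ≤ (q : ℚ) * g j := mul_nonneg hq0 h2.le
          have h4 : 0 ≤ (t - q) * (g j : ℚ) := mul_nonneg htq0 h2.le
          have h5 : t * (g j : ℚ) = q * g j + (t - q) * g j := by ring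
          have h6 : x j ≤ (z j : ℚ) := by linarith
          rw [min_eq_right h6, max_eq_left h6]
          refine ⟨⟨by linarith, by linarith⟩, ⟨by linarith, by linarith⟩⟩
      refine ⟨z', ?_, ?_, ?_⟩
      · intro i
        have e : ∀ j, A i j * (z' j - z j) = A i j * (z' j - (z j - q * g j)) -
            q * (A i j * g j) := fun j => by ring
        simp_rw [e]
        rw [sum_sub_distrib, k1 i, ← mul_sum, hgA i]
        simp
      · intro j
        obtain ⟨m1, m2⟩ := k2 j
        obtain ⟨⟨n1, n2⟩, n3, n4⟩ := hbt j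
        exact ⟨(le_min n1 n3).trans m1, m2.trans (max_le n2 n4)⟩
      · intro j
        have h1 := k3 j
        have h2 : |(t - q) * (g j : ℚ)| ≤ (κ : ℚ) ^ Fintype.card R := by
          rw [abs_mul, abs_of_nonneg (by linarith : 0 ≤ t - q)]
          have h3 : |(g j : ℚ)| ≤ (κ : ℚ) ^ Fintype.card R := by
            have h4 := hgb j
            have h5 : ((|g j| : ℤ) : ℚ) ≤ (((κ : ℤ) ^ Fintype.card R : ℤ) : ℚ) := by
              exact_mod_cast h4
            push_cast at h5
            exact h5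
          calc (t - q) * |(g j : ℚ)| ≤ 1 * |(g j : ℚ)| :=
                mul_le_mul_of_nonneg_right hqt1 (abs_nonneg _)
            _ ≤ (κ : ℚ) ^ Fintype.card R := by
                rw [one_mul]
                exact h3
        have h3 : (z' j : ℚ) - x j = ((z' j : ℚ) - (x j + (t - q) * g j)) + (t - q) * g j := by
          ring
        rw [h3]
        refine (abs_add_le _ _).trans ?_
        push_cast
        linarith

/-- conformal rounding -/
theorem circ3 {R C : Type} [Fintype R] [Fintype C] [DecidableEq R] [DecidableEq C] (A : R → C → ℤ)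
    (κ : ℕ) (hκ1 : 1 ≤ κ) (hκ : ∀ i, ∑ j, |A i j| ≤ κ) (z : C → ℤ) (x : C → ℚ)
    (h : ∀ i, ∑ j, (A i j : ℚ) * ((z j : ℚ) - x j) = 0) :
    ∃ z' : C → ℤ, (∀ i, ∑ j, A i j * (z' j - z j) = 0) ∧
      (∀ j, min (z j : ℚ) (x j) ≤ z' j ∧ (z' j : ℚ) ≤ max (z j : ℚ) (x j)) ∧
      ∀ j, |(z' j : ℚ) - x j| ≤ Fintype.card C * (κ : ℚ) ^ Fintype.card R :=
  circ_ind A κ hκ1 hκ (Fintype.card C) z x (card_le_univ _) h

end Pool.Agent.EE3
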