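import Pool.Agent.EE3.Num3
import Pool.Agent.EE3.Alt
import Pool.Agent.REV.Drain

/-!
# EE3 / Class3: strong linearity for VASS with three counters and planar, cycle-monotone or
productive components
-/

set_option autoImplicit false
set_option linter.unusedSectionVars false

namespace Pool.Agent.EE3

open Pool.Agent.EEF Pool.Agent.REV Pool.Agent.EE2 Finset

variable {Q : Type}

section General

variable {d : ℕ} {T : VASS Q d}

/-- some closed walk at `p` increases every counter -/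
def ProdAt (T : VASS Q d) (p : Q) : Prop := ∃ u, Walk T p u p ∧ ∀ k, 1 ≤ u.sum k

theorem prodAt_mov {p : Q} (h : ProdAt T p) (k : Fin d) : Mov T p k := by
  obtain ⟨u, hu, h1⟩ := h
  exact ⟨u, hu, by have := h1 k; omega⟩

theorem ok_large {p q : Q} {w : List (Vec d)} (hw : Walk T p w q) : ∀ {x : Vec d},
    (∀ k, (maxNorm T * w.length : ℤ) ≤ x k) → Ok x w := by
  induction hw with
  | nil p => intro x _; trivial
  | @cons p p' q v w h1 _ ih =>
    intro x hx
    have h2 : ∀ k, (maxNorm T * w.length : ℤ) ≤ (x + v) k := by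
      intro k
      have h3 := hx k
      have h4 := (abs_le.1 (abs_le_maxNorm h1 k)).1
      rw [List.length_cons] at h3
      push_cast at h3
      rw [Pi.add_apply]
      linarith
    refine ⟨fun k => le_trans ?_ (h2 k), ih h2⟩
    rw [Pi.zero_apply]
    positivity

theorem pw_comp {p₀ : Q} {p q : Q} {w : List (Vec d)} (hw : Walk T p w q) :
    ∀ {x : Vec d}, 0 ≤ x → Ok x w → Reach T p₀ p → Reach T q p₀ →
    PW T (fun r y => InS T p₀ r ∧ 0 ≤ y) p x w q := by
  induction hw with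
  | nil p => exact fun hx _ h1 h2 => .nil ⟨⟨h1, h2⟩, hx⟩
  | @cons p p' q v w h1 h2 ih =>
    intro x hx hok h3 h4
    exact .cons ⟨⟨h3, Reach.trans ⟨_, .cons h1 h2⟩ h4⟩, hx⟩ h1
      (ih hok.1 hok.2 (h3.trans ⟨[v], .cons h1 (.nil _)⟩) h4)

theorem prodAt_conj {p r : Q} (hr : InS T p r) (h : ProdAt T p) : ProdAt T r := by
  obtain ⟨u, hu, h1⟩ := h
  obtain ⟨a, ha⟩ := hr.1
  obtain ⟨b, hb⟩ := hr.2
  obtain ⟨N, hN⟩ : ∃ N : ℕ, ∀ k, -(a.sum k + b.sum k) + 1 ≤ N := by
    refine ⟨∑ k, (|a.sum k + b.sum k| + 1).toNat, fun k => ?_⟩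
    have h2 : (|a.sum k + b.sum k| + 1).toNat ≤ ∑ k, (|a.sum k + b.sum k| + 1).toNat :=
      single_le_sum (f := fun k => (|a.sum k + b.sum k| + 1).toNat) (fun _ _ => Nat.zero_le _)
        (mem_univ k)
    have h3 := neg_abs_le (a.sum k + b.sum k)
    have h4 := Int.self_le_toNat (|a.sum k + b.sum k| + 1)
    have h5 : (((|a.sum k + b.sum k| + 1).toNat : ℕ) : ℤ) ≤
        ((∑ k, (|a.sum k + b.sum k| + 1).toNat : ℕ) : ℤ) := by exact_mod_cast h2
    linarith
  refine ⟨(b ++ rep N u) ++ a, (hb.append (hu.rep N)).append ha, fun k => ?_⟩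
  rw [List.sum_append, List.sum_append, Pi.add_apply, Pi.add_apply, rep_sum_apply]
  have h2 := hN k
  have h3 : (N : ℤ) * 1 ≤ N * u.sum k :=
    mul_le_mul_of_nonneg_left (h1 k) (Int.natCast_nonneg _)
  linarith

/-- short paths -/
theorem reach_short [Fintype Q] {p q : Q} (h : Reach T p q) :
    ∃ w, Walk T p w q ∧ w.length ≤ Fintype.card Q := by
  obtain ⟨w, hw⟩ := h
  obtain ⟨w', h1, h2, -⟩ := erase_mod (0 : Vec d →+ ℤ) one_pos _ le_rfl hw.walkIn
  exact ⟨w', h1.walk, by simpa using h2⟩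

end General

variable {T : VASS Q 3}

/-- one component -/
theorem part3 [Fintype Q] {p p' : Q} (h2 : (TwoAt T p ∨ MonAt T p) ∨ ProdAt T p) {x : Vec 3}
    {w : List (Vec 3)} (hx : 0 ≤ x) (hp' : Reach T p' p) (hw : Walk T p w p') (hok : Ok x w) :
    Rlz T p x w.sum p' (cOne (Fintype.card Q) (geomDim T) (maxNorm T)) ∨
    ∃ r z, Rlz T p x z r (cOne (Fintype.card Q) (geomDim T) (maxNorm T)) ∧ Reach T r p' ∧
      ProdAt T r ∧ ∀ j, (cI (Fintype.card Q) (maxNorm T) : ℤ) ≤ (x + z) j := by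
  rcases h2 with h2 | h2
  · exact Or.inl ((pm_part h2 hx hp' hw hok).mono (Nat.le_add_right _ _))
  · rcases scc3 (prodAt_mov h2) (pw_comp hw hx hok ⟨[], .nil _⟩ hp') with h3 | ⟨r, z, h3, h4, h5⟩
    · exact Or.inl (h3.mono (Nat.le_add_left _ _))
    · exact Or.inr ⟨r, z, h4.mono (Nat.le_add_left _ _), h3.2.trans ⟨_, hw⟩,
        prodAt_conj h3 h2, h5⟩

/-- all components in turn -/
theorem chain3 [Fintype Q] (hT : ∀ p, (TwoAt T p ∨ MonAt T p) ∨ ProdAt T p) :
    ∀ (n : ℕ) {S : Finset Q},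
    S.card ≤ n → ∀ {p q : Q} {x : Vec 3} {w : List (Vec 3)}, 0 ≤ x → WalkIn T S p w q → Ok x w →
    Rlz T p x w.sum q (n * (cOne (Fintype.card Q) (geomDim T) (maxNorm T) + 2)) ∨
    ∃ r z, Rlz T p x z r (n * (cOne (Fintype.card Q) (geomDim T) (maxNorm T) + 2)) ∧
      Reach T r q ∧ ProdAt T r ∧
      ∀ j, (cI (Fintype.card Q) (maxNorm T) : ℤ) ≤ (x + z) j := by
  classical
  obtain ⟨C, hC⟩ : ∃ C, C = cOne (Fintype.card Q) (geomDim T) (maxNorm T) := ⟨_, rfl⟩
  rw [← hC]
  intro n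
  induction n with
  | zero =>
    intro S hS p q x w hx h hok
    have : S = ∅ := Finset.card_eq_zero.1 (Nat.le_zero.1 hS)
    have h' := h.start
    rw [this] at h'
    simp at h'
  | succ n ih =>
    intro S hS p q x w hx h hok
    have hexp : (n + 1) * (C + 2) = n * (C + 2) + (C + 2) := by ring
    have hpp : Reach T p p := ⟨[], .nil p⟩
    by_cases hq : Reach T q p
    · have h1 := part3 (hT p) hx hq h.walk hok
      rw [← hC] at h1
      rcases h1 with h1 | ⟨r, z, h1, h2, h3, h4⟩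
      · exact Or.inl (h1.mono (by rw [hexp]; omega))
      · exact Or.inr ⟨r, z, h1.mono (by rw [hexp]; omega), h2, h3, h4⟩
    · obtain ⟨u, v, p₂, p₃, w', rfl, h1, h2, h3, h4⟩ := leave hq h hpp
      rw [Ok_append] at hok
      obtain ⟨o1, o2, o3⟩ := hok
      have h5 := part3 (hT p) hx h2 h1 o1
      rw [← hC] at h5
      have hcard : (S.erase p).card ≤ n := by
        rw [card_erase_of_mem h.start]
        omega
      rcases h5 with h5 | ⟨r, z, h5, h6, h7, h8⟩
      · rcases ih hcard o2 h4 o3 with h6 | ⟨r, z, h6, h7, h8, h9⟩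
        · left
          have h7 := (h5.append (Rlz.step h3 o2)).append (by rw [← add_assoc]; exact h6)
          have e : (u ++ v :: w').sum = u.sum + v + w'.sum := by
            rw [List.sum_append, List.sum_cons, add_assoc]
          rw [e]
          exact h7.mono (by rw [hexp]; omega)
        · right
          have h10 := (h5.append (Rlz.step h3 o2)).append (by rw [← add_assoc]; exact h6)
          refine ⟨r, u.sum + v + z, h10.mono (by rw [hexp]; omega), h7, h8, fun j => ?_⟩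
          have := h9 j
          have e : x + (u.sum + v + z) = x + u.sum + v + z := by abel
          rw [e]
          exact this
      · right
        refine ⟨r, z, h5.mono (by rw [hexp]; omega), ?_, h7, h8⟩
        exact h6.trans ⟨v :: w', .cons h3 h4.walk⟩

/-- pumping -/
theorem pump3 [Fintype Q] {r q : Q} (hr : ProdAt T r) (hq : Reach T r q) {x : Vec 3}
    (hx : ∀ j, (cI (Fintype.card Q) (maxNorm T) : ℤ) ≤ x j) (Y : Vec 3) :
    RlzC T r x Y q (cPmp (Fintype.card Q) (maxNorm T) + Fintype.card Q + 2) := by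
  have hθ : ∃ θ, Walk T r θ r ∧ (∀ k, 1 ≤ θ.sum k) ∧
      θ.length ≤ cPmp (Fintype.card Q) (maxNorm T) := by
    rcases alt3 (T := T) r with h | ⟨lam, ⟨k, hk⟩, -, h⟩
    · exact h r (inS_refl T r)
    · exfalso
      obtain ⟨u, hu, h1⟩ := hr
      have h2 := h r u (inS_refl T r) hu
      have h3 : (lam k : ℤ) ≤ ∑ k, (lam k : ℤ) * u.sum k := by
        refine le_trans ?_ (single_le_sum (f := fun k => (lam k : ℤ) * u.sum k)
          (fun j _ => mul_nonneg (Int.natCast_nonneg _) (by linarith [h1 j])) (mem_univ k))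
        have : (lam k : ℤ) * 1 ≤ lam k * u.sum k :=
          mul_le_mul_of_nonneg_left (h1 k) (Int.natCast_nonneg _)
        linarith
      have : (0 : ℤ) < lam k := by exact_mod_cast Nat.pos_of_ne_zero hk
      linarith
  obtain ⟨θ, h1, h2, h3⟩ := hθ
  obtain ⟨τ, h4, h5⟩ := reach_short hq
  obtain ⟨n, hn⟩ : ∃ n, n = Fintype.card Q := ⟨_, rfl⟩
  obtain ⟨M, hM⟩ : ∃ M, M = maxNorm T := ⟨_, rfl⟩
  rw [← hn, ← hM] at hx h3 ⊢
  rw [← hn] at h5
  obtain ⟨a, ha⟩ : ∃ a : ℕ, ∀ k, |Y k| + (M * n : ℕ) ≤ a := by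
    refine ⟨∑ k, (|Y k| + (M * n : ℕ)).toNat, fun k => ?_⟩
    have e1 : (|Y k| + (M * n : ℕ)).toNat ≤ ∑ k, (|Y k| + (M * n : ℕ)).toNat :=
      single_le_sum (f := fun k => (|Y k| + (M * n : ℕ)).toNat) (fun _ _ => Nat.zero_le _)
        (mem_univ k)
    have e3 := Int.self_le_toNat (|Y k| + (M * n : ℕ))
    have e4 : (((|Y k| + (M * n : ℕ)).toNat : ℕ) : ℤ) ≤
        ((∑ k, (|Y k| + (M * n : ℕ)).toNat : ℕ) : ℤ) := by exact_mod_cast e1
    linarith
  have hxθ : ∀ k, (M * θ.length : ℤ) ≤ x k := by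
    intro k
    refine le_trans ?_ (hx k)
    unfold cI
    push_cast
    have e1 : (θ.length : ℤ) ≤ cPmp n M := by exact_mod_cast h3
    have e2 := mul_le_mul_of_nonneg_left e1 (Int.natCast_nonneg M)
    linarith
  have hrep : Ok x (rep a θ) := by
    refine Ok_rep fun j _ => ok_large h1 fun k => ?_
    rw [← hM, Pi.add_apply, Pi.smul_apply, nsmul_eq_mul]
    have e1 : (0 : ℤ) ≤ j * θ.sum k :=
      mul_nonneg (Int.natCast_nonneg _) (by linarith [h2 k])
    linarith [hxθ k]
  have hend : ∀ k, |Y k| + (M * n : ℕ) ≤ (x + (rep a θ).sum) k := by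
    intro k
    rw [Pi.add_apply, rep_sum_apply]
    have e1 : (a : ℤ) * 1 ≤ a * θ.sum k :=
      mul_le_mul_of_nonneg_left (h2 k) (Int.natCast_nonneg _)
    have e2 : (0 : ℤ) ≤ x k := le_trans (Int.natCast_nonneg _) (hx k)
    linarith [ha k]
  have hlen : (M * τ.length : ℤ) ≤ (M * n : ℕ) := by
    exact_mod_cast Nat.mul_le_mul_left M h5
  have hτ : Ok (x + (rep a θ).sum) τ := by
    refine ok_large h4 fun k => ?_
    rw [← hM]
    have := hend k
    have e2 := abs_nonneg (Y k)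
    linarith
  have hfin : ∀ k, Y k ≤ (x + (rep a θ).sum + τ.sum) k := by
    intro k
    rw [Pi.add_apply]
    have e1 := hend k
    have e2 := le_abs_self (Y k)
    have e3 := (abs_le.1 (walk_le h4 k)).1
    rw [← hM] at e3
    linarith
  refine ⟨[([], θ, a), (τ, [], 0)], .cons (.nil _) h1 (.cons h4 (.nil _) (.nil _)), ?_, ?_, ?_⟩
  · simp only [unroll_cons, unroll_nil, wrd, rep_zero, List.nil_append, List.append_nil]
    rw [Ok_append]
    exact ⟨hrep, hτ⟩
  · intro k
    simp only [unroll_cons, unroll_nil, wrd, rep_zero, List.nil_append, List.append_nil,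
      List.sum_append]
    rw [← add_assoc]
    exact hfin k
  · simp only [schemeSize, isk, List.map_cons, List.map_nil, List.sum_cons, List.sum_nil,
      List.length_nil]
    omega

/-- schemes give short covering runs -/
theorem rlzC_run {d : ℕ} {T : VASS Q d} {s t : Q} {x y : Fin d → ℕ} {N : ℕ}
    (h : RlzC T s (zv x) (zv y) t N) :
    ∃ (w' : List (Fin d → ℤ)) (y'' : Fin d → ℕ), Run T s x w' t y'' ∧ (∀ k, y k ≤ y'' k) ∧
      w'.length ≤ max 1 (supN y) *
        (45 * (N + 1) ^ 4 * (d + 1) ^ 3 * (maxNorm T + 1) ^ 2) ^ (geomDim T + 1) := by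
  obtain ⟨I, e1, e2, e3, e4⟩ := h
  obtain ⟨a, ha⟩ := exists_items I
  have hw : unroll I = schemeWord (I.map isk) a := by
    conv_lhs => rw [ha]
    rw [items_unroll]
  have hend : ∃ z : Fin d → ℕ, zv z = zv x + (unroll I).sum := by
    refine ⟨fun k => ((zv x + (unroll I).sum) k).toNat, ?_⟩
    funext k
    have h1 := e3 k
    have h2 : (0 : ℤ) ≤ zv y k := zv_nonneg y k
    exact Int.toNat_of_nonneg (h2.trans h1)
  obtain ⟨z, hz⟩ := hend
  have hyz : ∀ k, y k ≤ z k := by
    intro k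
    have h1 := e3 k
    rw [← hz] at h1
    have h2 : (y k : ℤ) ≤ z k := h1
    omega
  have hrun' : Run T s x (schemeWord (I.map isk) a) t z := by
    rw [← hw]
    exact run_iff.2 ⟨scheme_walk I e1, e2, hz⟩
  obtain ⟨a', y'', h8, h9, h10⟩ := scheme_main e1 hrun' hyz
  refine ⟨_, y'', h8, h9, h10.trans ?_⟩
  refine mono_bound ?_ (by positivity) (schemeDim_le e1)
  gcongr

/-- **Strong linearity for VASS with three counters and planar, cycle-monotone or productive
components.** -/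
theorem three_main [Fintype Q] (hT : ∀ p, (TwoAt T p ∨ MonAt T p) ∨ ProdAt T p) {s t : Q}
    {x y y' : Fin 3 → ℕ} {w : List (Fin 3 → ℤ)} (hrun : Run T s x w t y')
    (hy : ∀ k, y k ≤ y' k) :
    ∃ (w' : List (Fin 3 → ℤ)) (y'' : Fin 3 → ℕ), Run T s x w' t y'' ∧ (∀ k, y k ≤ y'' k) ∧
      w'.length ≤ max 1 (supN y) *
        ((8 * Fintype.card Q * (maxNorm T + 1)) ^ 17000) ^ (geomDim T + 1) := by
  classical
  obtain ⟨h1, h2, h3⟩ := run_iff.1 hrun
  have hin : WalkIn T univ s w t := h1.walkIn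
  have hn : 1 ≤ Fintype.card Q := Fintype.card_pos_iff.2 ⟨s⟩
  have hg : geomDim T ≤ 3 := by
    refine (Submodule.finrank_le _).trans ?_
    rw [Module.finrank_fintype_fun_eq_card, Fintype.card_fin]
  have key : RlzC T s (zv x) (zv y) t (cAll (Fintype.card Q) (geomDim T) (maxNorm T)) := by
    obtain ⟨c, hc⟩ : ∃ c, c = cOne (Fintype.card Q) (geomDim T) (maxNorm T) := ⟨_, rfl⟩
    rcases chain3 hT (Fintype.card Q) (le_of_eq card_univ) (zv_nonneg x) hin h2 with
      h4 | ⟨r, z, h4, h5, h6, h7⟩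
    · have h8 := rlz_toC h4
      rw [← h3] at h8
      obtain ⟨I, e1, e2, e3, e4⟩ := h8
      refine ⟨I, e1, e2, le_trans ?_ e3, e4.trans ?_⟩
      · intro k
        have := hy k
        simp only [zv]
        exact_mod_cast this
      · unfold cAll
        omega
    · have h8 := (rlz_toC h4).append (pump3 h6 h5 h7 (zv y))
      refine h8.mono ?_
      unfold cAll
      omega
  obtain ⟨w', y'', h4, h5, h6⟩ := rlzC_run key
  refine ⟨w', y'', h4, h5, h6.trans ?_⟩
  refine mono_bound (num3 hn hg le_rfl) ?_ le_rfl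
  positivity

end Pool.Agent.EE3
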