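import Pool.Agent.EE3.NonInc

/-!
# EE3 / Items3: the items of a walk with small loss of mass
-/

set_option autoImplicit false
set_option linter.unusedSectionVars false

namespace Pool.Agent.EE3

open Pool.Agent.EEF Pool.Agent.REV Pool.Agent.EE2 Finset

/-- number and size of the items -/
def cIt (n M : ℕ) : ℕ := (8 * n * (M + 1)) ^ 120

/-- one tight piece as a scheme with the same effect (any weight) -/
theorem it_tight {Q : Type} [Fintype Q] {lam : Fin 3 → ℕ} (hlam : ∃ k, lam k ≠ 0) {π : Q → ℤ}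
    {T T₀ : VASS Q 3}
    (hT₀ : ∀ r v r', (r, v, r') ∈ T₀ → wt3 lam v + π r' = π r) (hsub : T₀ ⊆ T)
    {p q : Q} {x : Vec 3} {u : List (Vec 3)} (hx : 0 ≤ x)
    (hu : Walk T₀ p u q) (hok : Ok x u) {s : ℕ}
    (hs : Fintype.card Q * (cPM (Fintype.card Q) 3 (geomDim T₀) (maxNorm T₀) + 2) ≤ s) :
    ∃ I : List (Itm 3), IsScheme T p (I.map isk) q ∧ Ok x (unroll I) ∧
      (unroll I).sum = u.sum ∧ (∀ e ∈ I, wt3 lam e.2.1.sum = 0) ∧
      (∀ e ∈ I, e.1.length + e.2.1.length ≤ s) ∧ I.length ≤ s := by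
  classical
  obtain ⟨h1, -⟩ := tight_two hlam hT₀
  have hwk : ∀ {p q : Q} {w : List (Vec 3)}, Walk T₀ p w q →
      wt3 lam w.sum + π q = π p := by
    intro p q w h
    induction h with
    | nil p => rw [List.sum_nil, wt3_zero, zero_add]
    | cons h1 _ ih =>
      rw [List.sum_cons, wt3_add, add_assoc, ih]
      exact hT₀ _ _ _ h1
  obtain ⟨I, h2, h3, h4, h5⟩ := pm_scheme (fun p => Or.inl (h1 p)) (Fintype.card Q)
    (le_of_eq card_univ) hx hu.walkIn hok
  refine ⟨I, scheme_sub hsub h2, h3, h4, fun e he => ?_, fun e he => ?_, ?_⟩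
  · obtain ⟨-, r, hr⟩ := scheme_loops I h2 e he
    have := hwk hr
    linarith
  · have := size_mem.2 (isk e) (List.mem_map_of_mem he)
    have h6 : (isk e).1.length + (isk e).2.length = e.1.length + e.2.1.length := rfl
    omega
  · have := (size_mem (L := I.map isk)).1
    rw [List.length_map] at this
    omega

theorem items3 {Q : Type} [Fintype Q] {T : VASS Q 3} {p₀ : Q} {lam : Fin 3 → ℕ}
    (hlam : ∃ k, lam k ≠ 0) (hb : ∀ k, lam k ≤ cLam (Fintype.card Q) (maxNorm T))
    (hc : ∀ r u, InS T p₀ r → Walk T r u r → ∑ k, (lam k : ℤ) * u.sum k ≤ 0)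
    {p q : Q} {x : Vec 3} {w : List (Vec 3)}
    (h : PW T (fun r y => InS T p₀ r ∧ 0 ≤ y) p x w q) (D : ℕ)
    (hD : -∑ k, (lam k : ℤ) * w.sum k ≤ D) :
    ∃ I : List (Itm 3), IsScheme T p (I.map isk) q ∧ Ok x (unroll I) ∧ (unroll I).sum = w.sum ∧
      (∀ e ∈ I, ∑ k, (lam k : ℤ) * e.2.1.sum k = 0) ∧
      (∀ e ∈ I, e.1.length + e.2.1.length ≤ cIt (Fintype.card Q) (maxNorm T)) ∧
      I.length ≤ (D + 1) * cIt (Fintype.card Q) (maxNorm T) := by
  classical
  obtain ⟨π, hπ1, hπ2⟩ := exists_pot (T := T) (p₀ := p₀) (lam := lam) hb hc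
  obtain ⟨T₀, hT₀⟩ : ∃ T₀ : VASS Q 3,
      T₀ = T.filter fun t => wt3 lam t.2.1 + π t.2.2 = π t.1 := ⟨_, rfl⟩
  have hsub : T₀ ⊆ T := by rw [hT₀]; exact filter_subset _ _
  have htight : ∀ r v r', (r, v, r') ∈ T₀ → wt3 lam v + π r' = π r := by
    intro r v r' h
    rw [hT₀, mem_filter] at h
    exact h.2
  obtain ⟨n, hn⟩ : ∃ n, n = Fintype.card Q := ⟨_, rfl⟩
  obtain ⟨M, hM⟩ : ∃ M, M = maxNorm T := ⟨_, rfl⟩
  have hn1 : 1 ≤ n := by
    rw [hn]
    exact Fintype.card_pos_iff.2 ⟨p⟩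
  obtain ⟨X, hX⟩ : ∃ X, X = 8 * n * (M + 1) := ⟨_, rfl⟩
  have hX8 : 8 ≤ X := by
    rw [hX]
    have : 1 ≤ n * (M + 1) := Nat.mul_pos hn1 (by omega)
    calc 8 = 8 * 1 := by ring
      _ ≤ 8 * (n * (M + 1)) := Nat.mul_le_mul_left _ this
      _ = 8 * n * (M + 1) := by ring
  have hX1 : 1 ≤ X := by omega
  have hnX : 8 * n ≤ X := by
    rw [hX]
    exact Nat.le_mul_of_pos_right _ (by omega)
  -- the size of the schemes
  obtain ⟨s, hs⟩ : ∃ s, s = X ^ 80 := ⟨_, rfl⟩
  have hs0 : Fintype.card Q * (cPM (Fintype.card Q) 3 (geomDim T₀) (maxNorm T₀) + 2) ≤ s := by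
    have hg : geomDim T₀ ≤ 3 := by
      refine (Submodule.finrank_le _).trans ?_
      rw [Module.finrank_fintype_fun_eq_card, Fintype.card_fin]
    have hM0 : maxNorm T₀ ≤ M := by
      rw [hM]
      exact Finset.sup_mono hsub
    have h1 := cTot_pow (d := 3) (M := maxNorm T₀) hn1
    have h2 := num_cyc (d := 3) (M := maxNorm T₀) hn1 hg
    have hN : 2 * n * (3 + 1) * (maxNorm T₀ + 1) ≤ X := by
      rw [hX]
      have : 2 * n * (3 + 1) = 8 * n := by ring
      rw [this]
      exact Nat.mul_le_mul_left _ (by omega)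
    have h3 : cPM n 3 (geomDim T₀) (maxNorm T₀) + 1 ≤ X ^ 79 := by
      unfold cPM
      rcases le_total (cTot n 3 (maxNorm T₀)) (cCyc n 3 (geomDim T₀) (maxNorm T₀)) with h | h
      · rw [max_eq_right h]
        exact (h2.trans (Nat.pow_le_pow_left hN _)).trans
          (Nat.pow_le_pow_right hX1 (by norm_num))
      · rw [max_eq_left h]
        exact h1.trans (Nat.pow_le_pow_left hN _)
    rw [← hn, hs]
    obtain ⟨c, hc⟩ : ∃ c, c = cPM n 3 (geomDim T₀) (maxNorm T₀) := ⟨_, rfl⟩
    rw [← hc] at h3 ⊢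
    calc n * (c + 2) ≤ n * (2 * X ^ 79) := Nat.mul_le_mul_left _ (by omega)
      _ = (2 * n) * X ^ 79 := by ring
      _ ≤ X * X ^ 79 := Nat.mul_le_mul_right _ (by omega)
      _ = X ^ 80 := by ring
  have hs1 : 1 ≤ s := by
    rw [hs]
    exact Nat.one_le_pow _ _ (by omega)
  have hwk : ∀ {p q : Q} {w : List (Vec 3)}, Walk T₀ p w q →
      wt3 lam w.sum + π q = π p := by
    intro p q w h
    induction h with
    | nil p => rw [List.sum_nil, wt3_zero, zero_add]
    | cons h1 _ ih =>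
      rw [List.sum_cons, wt3_add, add_assoc, ih]
      exact htight _ _ _ h1
  have hPok : ∀ {T' : VASS Q 3} {p q : Q} {x : Vec 3} {w : List (Vec 3)},
      PW T' (fun r y => InS T p₀ r ∧ 0 ≤ y) p x w q → Ok x w := by
    intro T' p q x w h
    induction h with
    | nil _ => trivial
    | cons _ _ h2 ih => exact ⟨h2.start.2, ih⟩
  have main : ∀ (N : ℕ) {p : Q} {x : Vec 3} {w : List (Vec 3)}, w.length ≤ N →
      PW T (fun r y => InS T p₀ r ∧ 0 ≤ y) p x w q →
      ∃ I : List (Itm 3), IsScheme T p (I.map isk) q ∧ Ok x (unroll I) ∧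
        (unroll I).sum = w.sum ∧ (∀ e ∈ I, wt3 lam e.2.1.sum = 0) ∧
        (∀ e ∈ I, e.1.length + e.2.1.length ≤ s) ∧
        (I.length : ℤ) ≤ (π p - (wt3 lam w.sum + π q)) * (s + 1) + s := by
    intro N
    induction N with
    | zero =>
      intro p x w hl h
      have hw : w = [] := List.length_eq_zero_iff.1 (Nat.le_zero.1 hl)
      subst hw
      cases h with
      | nil h0 =>
        refine ⟨[], .nil _, trivial, rfl, by simp, by simp, ?_⟩
        rw [List.sum_nil, wt3_zero, zero_add, sub_self, zero_mul, zero_add]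
        simp
    | succ N ih =>
      intro p x w hl h
      rcases first_loose (T₀ := T₀) h with h1 | ⟨u, v, r, r', w₁, rfl, h1, h2, h3, h4⟩
      · obtain ⟨I, a1, a2, a3, a4, a5, a6⟩ := it_tight hlam htight hsub h1.start.2
          h1.walk (hPok h1) hs0
        refine ⟨I, a1, a2, a3, a4, a5, ?_⟩
        have h5 := hwk h1.walk
        rw [h5, sub_self, zero_mul, zero_add]
        exact_mod_cast a6
      · obtain ⟨I, a1, a2, a3, a4, a5, a6⟩ := it_tight hlam htight hsub h1.start.2
          h1.walk (hPok h1) hs0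
        have hl2 : w₁.length ≤ N := by
          rw [List.length_append, List.length_cons] at hl
          omega
        obtain ⟨J, b1, b2, b3, b4, b5, b6⟩ := ih hl2 h4
        have h5 := hwk h1.walk
        have h6 : wt3 lam v + π r' + 1 ≤ π r := by
          have h7 := hπ2 _ _ _ h1.stop.1 h4.start.1 h2
          have h8 : wt3 lam v + π r' ≠ π r := by
            intro he
            apply h3
            rw [hT₀, mem_filter]
            exact ⟨h2, he⟩
          omega
        have hu0 : unroll (([v], [], 0) :: J) = v :: unroll J := by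
          rw [unroll_cons, wrd, rep_zero]
          rfl
        refine ⟨I ++ ([v], [], 0) :: J, ?_, ?_, ?_, ?_, ?_, ?_⟩
        · rw [List.map_append]
          exact a1.append (.cons (.cons h2 (.nil _)) (.nil _) b1)
        · rw [unroll_append, Ok_append, hu0, a3]
          exact ⟨a2, h4.start.2, b2⟩
        · rw [unroll_append, List.sum_append, hu0, List.sum_cons, a3, b3, List.sum_append,
            List.sum_cons]
        · intro e he
          rcases List.mem_append.1 he with he | he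
          · exact a4 e he
          · rcases List.mem_cons.1 he with rfl | he
            · simp only [List.sum_nil]
              exact wt3_zero lam
            · exact b4 e he
        · intro e he
          rcases List.mem_append.1 he with he | he
          · exact a5 e he
          · rcases List.mem_cons.1 he with rfl | he
            · simpa using hs1
            · exact b5 e he
        · rw [List.sum_append, List.sum_cons, wt3_add, wt3_add, List.length_append,
            List.length_cons]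
          have a7 : (I.length : ℤ) ≤ s := by exact_mod_cast a6
          push_cast
          have h9 : π p - (wt3 lam u.sum + (wt3 lam v + wt3 lam w₁.sum) + π q) ≥
              π r' - (wt3 lam w₁.sum + π q) + 1 := by linarith
          have hK0 : (0 : ℤ) ≤ (s : ℤ) + 1 := by positivity
          have h10 := mul_le_mul_of_nonneg_right h9 hK0
          nlinarith
  obtain ⟨I, c1, c2, c3, c4, c5, c6⟩ := main w.length le_rfl h
  rw [← hn, ← hM] at hπ1
  rw [← hn, ← hM]
  have hlamX : cLam n M = X ^ 20 := by rw [cLam, hX]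
  have hItX : cIt n M = X ^ 120 := by rw [cIt, hX]
  have hsI : s ≤ X ^ 120 := by
    rw [hs]
    exact Nat.pow_le_pow_right hX1 (by norm_num)
  refine ⟨I, c1, c2, c3, c4, fun e he => (c5 e he).trans (by rw [hItX]; exact hsI), ?_⟩
  have hd : π p - (wt3 lam w.sum + π q) ≤ (D : ℤ) + 2 * (3 * (cLam n M : ℤ) *
      ((n * M : ℕ) : ℤ)) := by
    have h1 := (abs_le.1 (hπ1 p h.start.1)).2
    have h2 := (abs_le.1 (hπ1 q h.stop.1)).1
    have h3 : -wt3 lam w.sum ≤ D := hD
    linarith
  have h1 : (I.length : ℤ) ≤ ((D : ℤ) + 2 * (3 * (cLam n M : ℤ) *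
      ((n * M : ℕ) : ℤ))) * (s + 1) + s := by
    have hK0 : (0 : ℤ) ≤ (s : ℤ) + 1 := by positivity
    have := mul_le_mul_of_nonneg_right hd hK0
    linarith
  have h2 : I.length ≤ (D + 2 * (3 * cLam n M * (n * M))) * (s + 1) + s := by
    exact_mod_cast h1
  have h3 : D + 2 * (3 * cLam n M * (n * M)) ≤ (D + 1) * X ^ 21 := by
    rw [hlamX]
    have h6 : 6 * (n * M) ≤ X := by
      rw [hX]
      nlinarith
    have h5 : 2 * (3 * X ^ 20 * (n * M)) ≤ X ^ 21 := by
      calc 2 * (3 * X ^ 20 * (n * M)) = X ^ 20 * (6 * (n * M)) := by ring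
        _ ≤ X ^ 20 * X := Nat.mul_le_mul_left _ h6
        _ = X ^ 21 := by ring
    have h7 : D ≤ D * X ^ 21 := Nat.le_mul_of_pos_right _ (by positivity)
    calc D + 2 * (3 * X ^ 20 * (n * M)) ≤ D * X ^ 21 + X ^ 21 := Nat.add_le_add h7 h5
      _ = (D + 1) * X ^ 21 := by ring
  have h4 : s + 1 ≤ X ^ 81 := by
    rw [hs]
    have : 1 ≤ X ^ 80 := Nat.one_le_pow _ _ (by omega)
    calc X ^ 80 + 1 ≤ 2 * X ^ 80 := by omega
      _ ≤ X * X ^ 80 := Nat.mul_le_mul_right _ (by omega)
      _ = X ^ 81 := by ring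
  rw [hItX]
  have h5 : X ^ 81 ≤ (D + 1) * X ^ 102 := by
    calc X ^ 81 ≤ X ^ 102 := Nat.pow_le_pow_right hX1 (by norm_num)
      _ ≤ (D + 1) * X ^ 102 := Nat.le_mul_of_pos_left _ (by omega)
  calc I.length ≤ (D + 2 * (3 * cLam n M * (n * M))) * (s + 1) + s := h2
    _ ≤ ((D + 1) * X ^ 21) * X ^ 81 + X ^ 81 :=
        Nat.add_le_add (Nat.mul_le_mul h3 h4) (by omega)
    _ = (D + 1) * X ^ 102 + X ^ 81 := by ring
    _ ≤ (D + 1) * X ^ 102 + (D + 1) * X ^ 102 := Nat.add_le_add_left h5 _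
    _ = (D + 1) * (2 * X ^ 102) := by ring
    _ ≤ (D + 1) * (X * X ^ 102) := Nat.mul_le_mul_left _ (Nat.mul_le_mul_right _ (by omega))
    _ = (D + 1) * X ^ 103 := by ring
    _ ≤ (D + 1) * X ^ 120 :=
        Nat.mul_le_mul_left _ (Nat.pow_le_pow_right hX1 (by norm_num))

end Pool.Agent.EE3
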