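import Pool.Agent.EE3.Window3
import Pool.Agent.EEF.Main
/-!
# EE3 / Log3: path schemes with `O(log H)` items
-/

set_option autoImplicit false
set_option linter.unusedSectionVars false

namespace Pool.Agent.EE3

open Pool.Agent.EEF Finset

def cLg (A C : ℕ) : ℕ := (A + 8) ^ 100 * (C + 1) ^ 10

section
variable {Q : Type} {T : VASS Q 3}

/-- the mass -/
private def lgm (lam : Fin 3 → ℕ) (v : Vec 3) : ℤ := ∑ k, (lam k : ℤ) * v k

private theorem lgm_add (lam : Fin 3 → ℕ) (v w : Vec 3) :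
    lgm lam (v + w) = lgm lam v + lgm lam w := by
  simp only [lgm, Pi.add_apply, mul_add, sum_add_distrib]

private theorem lgm_nsmul (lam : Fin 3 → ℕ) (n : ℕ) (v : Vec 3) :
    lgm lam (n • v) = n * lgm lam v := by
  simp only [lgm, Pi.smul_apply, nsmul_eq_mul, mul_sum]
  exact sum_congr rfl fun k _ => by ring

private theorem lgm_coord {lam : Fin 3 → ℕ} (hlam : ∀ k, 1 ≤ lam k) {x : Vec 3} (hx : 0 ≤ x)
    (k : Fin 3) : x k ≤ lgm lam x := by
  have h1 : (lam k : ℤ) * x k ≤ lgm lam x := by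
    unfold lgm
    exact single_le_sum (f := fun k => (lam k : ℤ) * x k)
      (fun j _ => mul_nonneg (Int.natCast_nonneg _) (hx j)) (mem_univ k)
  have h2 : (1 : ℤ) ≤ lam k := by exact_mod_cast hlam k
  have h3 : 0 ≤ x k := hx k
  nlinarith

private theorem lg_walk {p q : Q} {w : List (Vec 3)} (h : Walk T p w q) (k : Fin 3) :
    |w.sum k| ≤ w.length * maxNorm T := by
  apply sum_le
  intro v hv j
  obtain ⟨a, b, hab⟩ := h.letters v hv
  have h1 : supZ v ≤ maxNorm T := by
    unfold maxNorm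
    exact Finset.le_sup (f := fun t : Q × (Fin 3 → ℤ) × Q => supZ t.2.1) hab
  have h2 : (v j).natAbs ≤ supZ v := by
    unfold supZ
    exact Finset.le_sup (f := fun k => (v k).natAbs) (mem_univ j)
  have h3 : |v j| = ((v j).natAbs : ℤ) := Int.abs_eq_natAbs _
  rw [h3]
  exact_mod_cast h2.trans h1

private theorem lg_item {lam : Fin 3 → ℕ} {s A : ℕ} (hA : s * maxNorm T + 1 ≤ A)
    (hlam : ∀ k, 1 ≤ lam k ∧ lam k ≤ A) {p q : Q} {e : Itm 3} (hw : Walk T p e.1 q)
    (hk : ∑ k, (lam k : ℤ) * e.2.1.sum k = 0) (hs : e.1.length + e.2.1.length ≤ s) :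
    lgm lam (wrd e).sum ≤ 3 * A * A := by
  have e1 : (wrd e).sum = e.1.sum + e.2.2 • e.2.1.sum := by
    rw [wrd, List.sum_append, rep_sum]
  rw [e1, lgm_add, lgm_nsmul]
  have e2 : lgm lam e.2.1.sum = 0 := hk
  rw [e2, mul_zero, add_zero]
  unfold lgm
  have h1 : ∀ k ∈ (univ : Finset (Fin 3)), (lam k : ℤ) * e.1.sum k ≤ A * A := by
    intro k _
    have h2 := (le_abs_self _).trans (lg_walk hw k)
    have h3 : (e.1.length : ℤ) * maxNorm T ≤ A := by
      have : e.1.length * maxNorm T ≤ A := by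
        have := Nat.mul_le_mul_right (maxNorm T) (show e.1.length ≤ s by omega)
        omega
      exact_mod_cast this
    have h4 : (lam k : ℤ) ≤ A := by exact_mod_cast (hlam k).2
    have h5 : (0 : ℤ) ≤ lam k := Int.natCast_nonneg _
    have h6 : (0 : ℤ) ≤ A := Int.natCast_nonneg _
    nlinarith
  have h7 := sum_le_card_nsmul univ _ _ h1
  rw [card_univ, Fintype.card_fin, nsmul_eq_mul] at h7
  push_cast at h7
  linarith

private theorem lg_mass {lam : Fin 3 → ℕ} {s A : ℕ} (hA : s * maxNorm T + 1 ≤ A)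
    (hlam : ∀ k, 1 ≤ lam k ∧ lam k ≤ A) : ∀ (I : List (Itm 3)) (p q : Q),
    IsScheme T p (I.map isk) q → (∀ e ∈ I, ∑ k, (lam k : ℤ) * e.2.1.sum k = 0) →
    (∀ e ∈ I, e.1.length + e.2.1.length ≤ s) →
    lgm lam (unroll I).sum ≤ 3 * A * A * I.length := by
  intro I
  induction I with
  | nil =>
    intro p q _ _ _
    simp [unroll_nil, lgm]
  | cons e I ih =>
    intro p q hI hk hs
    rw [List.map_cons] at hI
    cases hI with
    | cons h1 h2 h3 =>
      have h4 := ih _ _ h3 (fun e' he' => hk e' (List.mem_cons_of_mem _ he'))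
        (fun e' he' => hs e' (List.mem_cons_of_mem _ he'))
      have h5 := lg_item hA hlam h1 (hk e List.mem_cons_self) (hs e List.mem_cons_self)
      rw [unroll_cons, List.sum_append, lgm_add, List.length_cons]
      push_cast
      linarith

private theorem lg_split {r : Q} : ∀ (L L' : List (List (Vec 3) × List (Vec 3))) (p : Q),
    IsScheme T p (L ++ L') r → ∃ q, IsScheme T p L q ∧ IsScheme T q L' r := by
  intro L
  induction L with
  | nil =>
    intro L' p h
    exact ⟨p, .nil p, h⟩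
  | cons a L ih =>
    intro L' p h
    rw [List.cons_append] at h
    cases h with
    | cons h1 h2 h3 =>
      obtain ⟨q, h4, h5⟩ := ih L' _ h3
      exact ⟨q, .cons h1 h2 h4, h5⟩

private theorem lg_windows {lam : Fin 3 → ℕ} {s A : ℕ} (hA : s * maxNorm T + 1 ≤ A)
    (hlam : ∀ k, 1 ≤ lam k ∧ lam k ≤ A) (w M : ℕ) : ∀ (m : ℕ) (I : List (Itm 3)) (p q : Q)
    (x : Vec 3), IsScheme T p (I.map isk) q → I.length ≤ m * w → 0 ≤ x →
    lgm lam x + 3 * A * A * I.length ≤ M → Ok x (unroll I) →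
    (∀ e ∈ I, ∑ k, (lam k : ℤ) * e.2.1.sum k = 0) →
    (∀ e ∈ I, e.1.length + e.2.1.length ≤ s) →
    ∃ J : List (Itm 3), J.map isk = I.map isk ∧ Ok x (unroll J) ∧
      (unroll J).sum = (unroll I).sum ∧ (J.map fun e => e.2.2).sum ≤
        m * (1000 * (A + 1) ^ 8 * (M + w + 1) + (A + 8) ^ (7 * w + 8)) := by
  intro m
  induction m with
  | zero =>
    intro I p q x hI hlen hx hM hok hk hs
    have : I = [] := List.length_eq_zero_iff.1 (by omega)
    subst this
    exact ⟨[], rfl, hok, rfl, by simp⟩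
  | succ m ih =>
    intro I p q x hI hlen hx hM hok hk hs
    have hI1 : I = I.take w ++ I.drop w := (List.take_append_drop w I).symm
    set I1 := I.take w with hI1d
    set I2 := I.drop w with hI2d
    have hl1 : I1.length ≤ w := by
      rw [hI1d, List.length_take]
      omega
    have hl2 : I2.length ≤ m * w := by
      rw [hI2d, List.length_drop]
      have : (m + 1) * w = m * w + w := by ring
      omega
    have hll : I.length = I1.length + I2.length := by
      conv_lhs => rw [hI1, List.length_append]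
    have hk1 : ∀ e ∈ I1, ∑ k, (lam k : ℤ) * e.2.1.sum k = 0 := fun e he =>
      hk e (List.mem_of_mem_take he)
    have hk2 : ∀ e ∈ I2, ∑ k, (lam k : ℤ) * e.2.1.sum k = 0 := fun e he =>
      hk e (List.mem_of_mem_drop he)
    have hs1 : ∀ e ∈ I1, e.1.length + e.2.1.length ≤ s := fun e he =>
      hs e (List.mem_of_mem_take he)
    have hs2 : ∀ e ∈ I2, e.1.length + e.2.1.length ≤ s := fun e he =>
      hs e (List.mem_of_mem_drop he)
    rw [hI1, List.map_append] at hI
    obtain ⟨r, hr1, hr2⟩ := lg_split (r := q) _ _ p hI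
    rw [hI1, unroll_append, Ok_append] at hok
    obtain ⟨hok1, hok2⟩ := hok
    have hx2 : 0 ≤ x + (unroll I1).sum := Ok_end hx hok1
    have hm1 := lg_mass hA hlam I1 p r hr1 hk1 hs1
    have hA0 : (0 : ℤ) ≤ 3 * A * A := by positivity
    have hM1 : lgm lam x ≤ M := by
      have : (0 : ℤ) ≤ 3 * A * A * I.length := by positivity
      linarith
    have hM2 : lgm lam (x + (unroll I1).sum) + 3 * A * A * I2.length ≤ M := by
      rw [lgm_add]
      rw [hll] at hM
      push_cast at hM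
      have e : 3 * (A : ℤ) * A * (I1.length + I2.length) =
        3 * A * A * I1.length + 3 * A * A * I2.length := by ring
      rw [e] at hM
      linarith
    obtain ⟨J1, a1, a2, a3, a4⟩ := window3 (H := M) hA hlam hr1 hx
      (fun k => (lgm_coord (fun k => (hlam k).1) hx k).trans hM1) hok1 hk1 hs1
    obtain ⟨J2, b1, b2, b3, b4⟩ := ih I2 r q _ hr2 hl2 hx2 hM2 hok2 hk2 hs2
    refine ⟨J1 ++ J2, ?_, ?_, ?_, ?_⟩
    · rw [List.map_append, a1, b1, ← List.map_append, ← hI1]
    · rw [unroll_append, Ok_append, a3]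
      exact ⟨a2, b2⟩
    · rw [unroll_append, List.sum_append, a3, b3, ← List.sum_append, ← unroll_append, ← hI1]
    · rw [List.map_append, List.sum_append]
      have c1 : 1000 * (A + 1) ^ 8 * (M + I1.length + 1) ≤ 1000 * (A + 1) ^ 8 * (M + w + 1) :=
        Nat.mul_le_mul_left _ (by omega)
      have c2 : (A + 8) ^ (7 * I1.length + 8) ≤ (A + 8) ^ (7 * w + 8) :=
        Nat.pow_le_pow_right (by omega) (by omega)
      have c3 : (m + 1) * (1000 * (A + 1) ^ 8 * (M + w + 1) + (A + 8) ^ (7 * w + 8)) =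
        (1000 * (A + 1) ^ 8 * (M + w + 1) + (A + 8) ^ (7 * w + 8)) +
        m * (1000 * (A + 1) ^ 8 * (M + w + 1) + (A + 8) ^ (7 * w + 8)) := by ring
      omega

end

private theorem lg_pow (A H : ℕ) (hH : 1 ≤ H) :
    (A + 8) ^ (7 * ((Nat.log 2 H + 1) / (16 * (Nat.log 2 (A + 8) + 1)) + 1) + 8) ≤
      (A + 8) ^ 15 * H := by
  set L := Nat.log 2 H + 1 with hL
  set e := Nat.log 2 (A + 8) + 1 with he
  have h1 : A + 8 ≤ 2 ^ e := (Nat.lt_pow_succ_log_self (by norm_num) _).le
  have h2 : 7 * (L / (16 * e) + 1) + 8 = 15 + 7 * (L / (16 * e)) := by ring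
  rw [h2, pow_add]
  apply Nat.mul_le_mul_left
  have h3 : (A + 8) ^ (7 * (L / (16 * e))) ≤ 2 ^ (e * (7 * (L / (16 * e)))) := by
    rw [pow_mul 2 e]
    exact Nat.pow_le_pow_left h1 _
  have h4 : e * (7 * (L / (16 * e))) ≤ Nat.log 2 H := by
    have h5 : L / (16 * e) * (16 * e) ≤ L := Nat.div_mul_le_self _ _
    have h6 : 16 * (e * (L / (16 * e))) ≤ L := by
      calc 16 * (e * (L / (16 * e))) = L / (16 * e) * (16 * e) := by ring
        _ ≤ L := h5
    have h7 : e * (7 * (L / (16 * e))) = 7 * (e * (L / (16 * e))) := by ring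
    rw [h7]
    omega
  calc (A + 8) ^ (7 * (L / (16 * e))) ≤ 2 ^ (e * (7 * (L / (16 * e)))) := h3
    _ ≤ 2 ^ Nat.log 2 H := Nat.pow_le_pow_right (by norm_num) h4
    _ ≤ H := Nat.pow_log_le_self 2 (by omega)

private theorem lg_num (A C H w : ℕ) (hw : w ≤ H) (hH : 1 ≤ H) :
    (16 * (A + 8) * C + 1) * (1000 * (A + 1) ^ 8 * ((3 * A * H + 3 * A * A * (C * H)) + w + 1) +
      (A + 8) ^ 15 * H) ≤ cLg A C * H := by
  set a := A + 8 with ha
  have ha8 : 8 ≤ a := by omega
  have hAa : A ≤ a := by omega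
  have k1 : 3 * A * H + 3 * A * A * (C * H) + w + 1 ≤ 4 * (a * a) * (C + 1) * H := by
    have q1 : 3 * A * H ≤ a * a * H := by
      have : 3 * A ≤ a * a := by nlinarith
      exact Nat.mul_le_mul_right _ this
    have q2 : 3 * A * A * (C * H) ≤ 3 * (a * a) * (C * H) := by
      have : A * A ≤ a * a := Nat.mul_le_mul hAa hAa
      have : 3 * A * A ≤ 3 * (a * a) := by nlinarith
      exact Nat.mul_le_mul_right _ this
    have q3 : w + 1 ≤ 2 * H := by omega
    have q4 : 2 * H ≤ a * a * H := by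
      have : 2 ≤ a * a := by nlinarith
      exact Nat.mul_le_mul_right _ this
    have q5 : 4 * (a * a) * (C + 1) * H = 4 * (a * a) * (C * H) + 4 * (a * a) * H := by ring
    have q6 : 3 * (a * a) * (C * H) ≤ 4 * (a * a) * (C * H) :=
      Nat.mul_le_mul_right _ (Nat.mul_le_mul_right _ (by norm_num))
    have q7 : a * a * H + a * a * H ≤ 4 * (a * a) * H := by nlinarith [Nat.zero_le (a * a * H)]
    omega
  have k2 : 1000 * (A + 1) ^ 8 * ((3 * A * H + 3 * A * A * (C * H)) + w + 1) ≤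
      a ^ 14 * (C + 1) * H := by
    calc 1000 * (A + 1) ^ 8 * ((3 * A * H + 3 * A * A * (C * H)) + w + 1)
        ≤ 1000 * a ^ 8 * (4 * (a * a) * (C + 1) * H) := by
          apply Nat.mul_le_mul _ k1
          exact Nat.mul_le_mul_left _ (Nat.pow_le_pow_left (by omega) _)
      _ = 4000 * a ^ 10 * (C + 1) * H := by ring
      _ ≤ a ^ 4 * a ^ 10 * (C + 1) * H := by
          apply Nat.mul_le_mul_right
          apply Nat.mul_le_mul_right
          apply Nat.mul_le_mul_right
          calc 4000 ≤ 8 ^ 4 := by norm_num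
            _ ≤ a ^ 4 := Nat.pow_le_pow_left ha8 _
      _ = a ^ 14 * (C + 1) * H := by ring
  have k3 : 1000 * (A + 1) ^ 8 * ((3 * A * H + 3 * A * A * (C * H)) + w + 1) + a ^ 15 * H ≤
      a ^ 16 * (C + 1) * H := by
    have r1 : a ^ 14 * (C + 1) * H ≤ a ^ 15 * (C + 1) * H := by
      apply Nat.mul_le_mul_right
      apply Nat.mul_le_mul_right
      exact Nat.pow_le_pow_right (by omega) (by norm_num)
    have r2 : a ^ 15 * H ≤ a ^ 15 * (C + 1) * H := by
      apply Nat.mul_le_mul_right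
      exact Nat.le_mul_of_pos_right _ (Nat.succ_pos C)
    have r3 : 2 * (a ^ 15 * (C + 1) * H) ≤ a ^ 16 * (C + 1) * H := by
      calc 2 * (a ^ 15 * (C + 1) * H) ≤ a * (a ^ 15 * (C + 1) * H) :=
            Nat.mul_le_mul_right _ (by omega)
        _ = a ^ 16 * (C + 1) * H := by ring
    omega
  have k4 : 16 * a * C + 1 ≤ a ^ 3 * (C + 1) := by
    have s1 : 16 * a ≤ a ^ 3 := by
      calc 16 * a ≤ (8 * 8) * a := Nat.mul_le_mul_right _ (by norm_num)
        _ ≤ (a * a) * a := Nat.mul_le_mul_right _ (Nat.mul_le_mul ha8 ha8)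
        _ = a ^ 3 := by ring
    have s2 : 16 * a * C ≤ a ^ 3 * C := Nat.mul_le_mul_right _ s1
    have s3 : 1 ≤ a ^ 3 := Nat.one_le_pow _ _ (by omega)
    have s4 : a ^ 3 * (C + 1) = a ^ 3 * C + a ^ 3 := by ring
    omega
  calc (16 * a * C + 1) * (1000 * (A + 1) ^ 8 * ((3 * A * H + 3 * A * A * (C * H)) + w + 1) +
      a ^ 15 * H) ≤ (a ^ 3 * (C + 1)) * (a ^ 16 * (C + 1) * H) := Nat.mul_le_mul k4 k3
    _ = a ^ 19 * (C + 1) ^ 2 * H := by ring
    _ ≤ a ^ 100 * (C + 1) ^ 10 * H := by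
      apply Nat.mul_le_mul_right
      apply Nat.mul_le_mul
      · exact Nat.pow_le_pow_right (by omega) (by norm_num)
      · exact Nat.pow_le_pow_right (Nat.succ_pos C) (by norm_num)

theorem chainlog3 {Q : Type} {T : VASS Q 3} {p q : Q} {x : Vec 3} {I : List (Itm 3)}
    {lam : Fin 3 → ℕ} {s H A C : ℕ} (hA : s * maxNorm T + 1 ≤ A)
    (hlam : ∀ k, 1 ≤ lam k ∧ lam k ≤ A) (hH : 1 ≤ H) (hI : IsScheme T p (I.map isk) q)
    (hx : 0 ≤ x) (hxH : ∀ k, x k ≤ H) (hok : Ok x (unroll I))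
    (hk : ∀ e ∈ I, ∑ k, (lam k : ℤ) * e.2.1.sum k = 0)
    (hs : ∀ e ∈ I, e.1.length + e.2.1.length ≤ s) (hC : I.length ≤ C * (Nat.log 2 H + 1)) :
    ∃ J : List (Itm 3), J.map isk = I.map isk ∧ Ok x (unroll J) ∧
      (unroll J).sum = (unroll I).sum ∧ (J.map fun e => e.2.2).sum ≤ cLg A C * H := by
  set L := Nat.log 2 H + 1 with hL
  set e := Nat.log 2 (A + 8) + 1 with he
  set w := L / (16 * e) + 1 with hw
  have hLH : L ≤ H := by
    have := Nat.log_lt_self 2 (show H ≠ 0 by omega)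
    omega
  have he4 : 1 ≤ e := by omega
  have hwL : w ≤ L := by
    have h1 : L / (16 * e) ≤ L / 16 := Nat.div_le_div_left (by omega) (by norm_num)
    omega
  have heA : e ≤ A + 8 := by
    have := Nat.log_lt_self 2 (show A + 8 ≠ 0 by omega)
    omega
  -- the number of windows
  have hlen : I.length ≤ (16 * (A + 8) * C + 1) * w := by
    have h1 : L ≤ 16 * e * w := by
      have h2 := Nat.div_add_mod L (16 * e)
      have h3 := Nat.mod_lt L (show 0 < 16 * e by omega)
      have h4 : 16 * e * w = 16 * e * (L / (16 * e)) + 16 * e := by rw [hw]; ring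
      omega
    have h5 : 16 * e * w ≤ 16 * (A + 8) * w :=
      Nat.mul_le_mul_right _ (Nat.mul_le_mul_left _ heA)
    calc I.length ≤ C * L := hC
      _ ≤ C * (16 * (A + 8) * w) := Nat.mul_le_mul_left _ (h1.trans h5)
      _ = (16 * (A + 8) * C) * w := by ring
      _ ≤ (16 * (A + 8) * C + 1) * w := Nat.mul_le_mul_right _ (Nat.le_succ _)
  have hmass : lgm lam x + 3 * A * A * I.length ≤
      ((3 * A * H + 3 * A * A * (C * H) : ℕ) : ℤ) := by
    have h1 : lgm lam x ≤ 3 * A * H := by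
      unfold lgm
      have h2 : ∀ k ∈ (univ : Finset (Fin 3)), (lam k : ℤ) * x k ≤ A * H := by
        intro k _
        have h3 : (lam k : ℤ) ≤ A := by exact_mod_cast (hlam k).2
        have h4 : (0 : ℤ) ≤ x k := hx k
        have h5 := hxH k
        have h6 : (0 : ℤ) ≤ A := Int.natCast_nonneg _
        exact mul_le_mul h3 h5 h4 h6
      have h7 := sum_le_card_nsmul univ _ _ h2
      rw [card_univ, Fintype.card_fin, nsmul_eq_mul] at h7
      push_cast at h7
      linarith
    have h8 : (I.length : ℤ) ≤ C * H := by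
      have : I.length ≤ C * H := hC.trans (Nat.mul_le_mul_left _ hLH)
      exact_mod_cast this
    have h9 : (3 : ℤ) * A * A * I.length ≤ 3 * A * A * (C * H) :=
      mul_le_mul_of_nonneg_left h8 (by positivity)
    push_cast
    linarith
  obtain ⟨J, j1, j2, j3, j4⟩ := lg_windows hA hlam w (3 * A * H + 3 * A * A * (C * H))
    (16 * (A + 8) * C + 1) I p q x hI hlen hx hmass hok hk hs
  refine ⟨J, j1, j2, j3, j4.trans ?_⟩
  have h10 : (A + 8) ^ (7 * w + 8) ≤ (A + 8) ^ 15 * H := lg_pow A H hH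
  refine le_trans ?_ (lg_num A C H w (hwL.trans hLH) hH)
  exact Nat.mul_le_mul_left _ (Nat.add_le_add_left h10 _)

end Pool.Agent.EE3
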