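import Pool.Agent.EE3.Defs2

/-!
# EE3 / Rack: one counter is large
-/

set_option autoImplicit false
set_option linter.unusedSectionVars false

namespace Pool.Agent.EE3

open Pool.Agent.EEF Pool.Agent.REV Pool.Agent.EE2 Finset

variable {Q : Type}

/-- forget the counter `k` -/
def rkPr (k : Fin 3) (v : Vec 3) : Vec 2 := fun i => v (k.succAbove i)

theorem rkPr_sum (k : Fin 3) (w : List (Vec 3)) : (w.map (rkPr k)).sum = rkPr k w.sum := by
  induction w with
  | nil => rfl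
  | cons v w ih =>
    rw [List.map_cons, List.sum_cons, ih, List.sum_cons]
    rfl

open Classical in
/-- the system without the counter `k` -/
noncomputable def rkT (k : Fin 3) (T : VASS Q 3) : VASS Q 2 :=
  T.image fun t => (t.1, rkPr k t.2.1, t.2.2)

theorem rkT_mem {k : Fin 3} {T : VASS Q 3} {p q : Q} {u : Vec 2} :
    (p, u, q) ∈ rkT k T ↔ ∃ v, (p, v, q) ∈ T ∧ rkPr k v = u := by
  classical
  unfold rkT
  rw [mem_image]
  constructor
  · rintro ⟨⟨a, b, c⟩, h1, h2⟩
    simp only [Prod.mk.injEq] at h2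
    obtain ⟨rfl, h3, rfl⟩ := h2
    exact ⟨b, h1, h3⟩
  · rintro ⟨v, h1, rfl⟩
    exact ⟨(p, v, q), h1, rfl⟩

theorem rk_walk {k : Fin 3} {T : VASS Q 3} {p q : Q} {w : List (Vec 3)} (h : Walk T p w q) :
    Walk (rkT k T) p (w.map (rkPr k)) q := by
  induction h with
  | nil p => exact .nil p
  | cons h1 _ ih => exact .cons (rkT_mem.2 ⟨_, h1, rfl⟩) ih

theorem rk_lift {k : Fin 3} {T : VASS Q 3} {p q : Q} {u : List (Vec 2)}
    (h : Walk (rkT k T) p u q) : ∃ w, Walk T p w q ∧ w.map (rkPr k) = u := by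
  induction h with
  | nil p => exact ⟨[], .nil p, rfl⟩
  | cons h1 _ ih =>
    obtain ⟨v, h2, rfl⟩ := rkT_mem.1 h1
    obtain ⟨w, h3, rfl⟩ := ih
    exact ⟨v :: w, .cons h2 h3, rfl⟩

theorem rk_norm (k : Fin 3) (T : VASS Q 3) : maxNorm (rkT k T) ≤ maxNorm T := by
  unfold maxNorm
  refine Finset.sup_le ?_
  rintro ⟨p, u, q⟩ ht
  obtain ⟨v, h1, rfl⟩ := rkT_mem.1 ht
  refine le_trans ?_ (Finset.le_sup (f := fun t : Q × (Fin 3 → ℤ) × Q => supZ t.2.1) h1)
  unfold supZ
  refine Finset.sup_le fun i _ => ?_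
  exact Finset.le_sup (f := fun j => (v j).natAbs) (mem_univ (k.succAbove i))

theorem rk_ok {k : Fin 3} {x : Vec 3} {w : List (Vec 3)} (h : Ok x w) :
    Ok (rkPr k x) (w.map (rkPr k)) := by
  induction w generalizing x with
  | nil => trivial
  | cons v w ih => exact ⟨fun i => h.1 _, ih h.2⟩

theorem rk_ok_lift {k : Fin 3} {M : ℕ} {x : Vec 3} {w : List (Vec 3)}
    (hM : ∀ v ∈ w, |v k| ≤ (M : ℤ)) (h : Ok (rkPr k x) (w.map (rkPr k)))
    (hk : (M : ℤ) * w.length ≤ x k) : Ok x w := by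
  induction w generalizing x with
  | nil => trivial
  | cons v w ih =>
    have h1 : |v k| ≤ (M : ℤ) := hM v (List.mem_cons_self)
    have h2 : -(M : ℤ) ≤ v k := (abs_le.1 h1).1
    rw [List.length_cons] at hk
    push_cast at hk
    have h3 : (M : ℤ) * w.length ≤ x k + v k := by
      have : (M : ℤ) * (w.length + 1) = M * w.length + M := by ring
      linarith
    have h4 : (0 : ℤ) ≤ M * w.length := by positivity
    refine ⟨fun j => ?_, ?_⟩
    · by_cases hj : j = k
      · subst hj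
        exact le_trans h4 h3
      · obtain ⟨i, rfl⟩ := Fin.exists_succAbove_eq hj
        exact h.1 i
    · exact ih (fun u hu => hM u (List.mem_cons_of_mem _ hu)) h.2 h3

theorem rk_two (T : VASS Q 2) (p : Q) : TwoAt T p := by
  unfold TwoAt
  refine (Submodule.finrank_le _).trans ?_
  rw [Module.finrank_fintype_fun_eq_card, Fintype.card_fin]

theorem rk_geom (T : VASS Q 2) : geomDim T ≤ 2 := by
  unfold geomDim
  refine (Submodule.finrank_le _).trans ?_
  rw [Module.finrank_fintype_fun_eq_card, Fintype.card_fin]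

theorem rk_num {n m M g : ℕ} (hn : 1 ≤ n) (hm : m ≤ M) (hg : g ≤ 2) :
    ((2 * n * (2 + 1) * (m + 1)) ^ 400) ^ (g + 1) ≤ cP2 n M := by
  unfold cP2
  have h0 : 1 ≤ 2 * n * (2 + 1) * (m + 1) := by
    have : 0 < 2 * n * (2 + 1) * (m + 1) := by positivity
    omega
  calc ((2 * n * (2 + 1) * (m + 1)) ^ 400) ^ (g + 1)
      ≤ ((2 * n * (2 + 1) * (m + 1)) ^ 400) ^ 3 :=
        Nat.pow_le_pow_right (Nat.pos_of_ne_zero (by positivity)) (by omega)
    _ = (2 * n * (2 + 1) * (m + 1)) ^ 1200 := by rw [← pow_mul]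
    _ ≤ (8 * n * (M + 1)) ^ 1200 := by
        refine Nat.pow_le_pow_left ?_ _
        have : 2 * n * (2 + 1) = 6 * n := by ring
        rw [this]
        exact Nat.mul_le_mul (Nat.mul_le_mul_right _ (by norm_num)) (by omega)

theorem rack3 [Fintype Q] {T : VASS Q 3} {s t : Q} {x : Vec 3} {y : Fin 3 → ℕ}
    {w : List (Vec 3)} (hx : 0 ≤ x) (hw : Walk T s w t) (hok : Ok x w)
    (hy : ∀ k, (y k : ℤ) ≤ (x + w.sum) k) {k : Fin 3}
    (hk : ((maxNorm T * (max 1 (supN y) * cP2 (Fintype.card Q) (maxNorm T)) + supN y : ℕ) : ℤ)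
      ≤ x k) :
    ∃ w', Walk T s w' t ∧ Ok x w' ∧ (∀ k, (y k : ℤ) ≤ (x + w'.sum) k) ∧
      w'.length ≤ max 1 (supN y) * cP2 (Fintype.card Q) (maxNorm T) := by
  have hn : 1 ≤ Fintype.card Q := Fintype.card_pos_iff.2 ⟨s⟩
  obtain ⟨B, hB⟩ : ∃ B, B = max 1 (supN y) * cP2 (Fintype.card Q) (maxNorm T) := ⟨_, rfl⟩
  rw [← hB] at hk ⊢
  obtain ⟨M, hM⟩ : ∃ M, M = maxNorm T := ⟨_, rfl⟩
  have hend : 0 ≤ x + w.sum := Ok_end hx hok
  -- the projected run
  have e1 : zv (fun i => (rkPr k x i).toNat) = rkPr k x := by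
    funext i
    exact Int.toNat_of_nonneg (hx _)
  have e2 : zv (fun i => (rkPr k (x + w.sum) i).toNat) = rkPr k (x + w.sum) := by
    funext i
    exact Int.toNat_of_nonneg (hend _)
  have hrun : Run (rkT k T) s (fun i => (rkPr k x i).toNat) (w.map (rkPr k)) t
      (fun i => (rkPr k (x + w.sum) i).toNat) := by
    refine run_iff.2 ⟨rk_walk hw, ?_, ?_⟩
    · rw [e1]
      exact rk_ok hok
    · rw [e1, e2, rkPr_sum]
      rfl
  have hy2 : ∀ i, (fun i => y (k.succAbove i)) i ≤ (fun i => (rkPr k (x + w.sum) i).toNat) i := by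
    intro i
    have h1 := hy (k.succAbove i)
    show y (k.succAbove i) ≤ ((x + w.sum) (k.succAbove i)).toNat
    omega
  obtain ⟨u, y'', h1, h2, h3⟩ := pm_main (fun p => Or.inl (rk_two _ p)) hrun hy2
  obtain ⟨h4, h5, h6⟩ := run_iff.1 h1
  obtain ⟨w', h7, rfl⟩ := rk_lift h4
  rw [e1] at h5 h6
  rw [List.length_map] at h3
  have hsup : supN (fun i => y (k.succAbove i)) ≤ supN y := by
    unfold supN
    refine Finset.sup_le fun i _ => ?_
    exact Finset.le_sup (f := y) (mem_univ (k.succAbove i))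
  have hlen : w'.length ≤ B := by
    rw [hB]
    refine h3.trans (Nat.mul_le_mul (max_le_max le_rfl hsup) ?_)
    exact rk_num hn (rk_norm k T) (rk_geom _)
  have hlet : ∀ v ∈ w', |v k| ≤ (M : ℤ) := by
    intro v hv
    obtain ⟨a, b, hab⟩ := h7.letters v hv
    rw [hM]
    exact abs_le_maxNorm hab k
  rw [← hM] at hk
  push_cast at hk
  have hlen' : (M : ℤ) * w'.length ≤ M * B := by
    exact mul_le_mul_of_nonneg_left (by exact_mod_cast hlen) (Int.natCast_nonneg _)
  have hsy : (0 : ℤ) ≤ (supN y : ℤ) := Int.natCast_nonneg _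
  have hok' : Ok x w' := rk_ok_lift hlet h5 (by linarith)
  refine ⟨w', h7, hok', fun j => ?_, hlen⟩
  by_cases hj : j = k
  · subst hj
    have h8 := walk_le h7 j
    rw [← hM] at h8
    have h9 := (abs_le.1 h8).1
    have h10 : (y j : ℤ) ≤ supN y := by
      exact_mod_cast (Finset.le_sup (f := y) (mem_univ j))
    have h11 : (w'.length : ℤ) * M = M * w'.length := by ring
    rw [Pi.add_apply]
    rw [h11] at h9
    linarith
  · obtain ⟨i, rfl⟩ := Fin.exists_succAbove_eq hj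
    have h8 := congrFun h6 i
    have h9 := h2 i
    rw [rkPr_sum] at h8
    have h10 : ((y'' i : ℕ) : ℤ) = (x + w'.sum) (k.succAbove i) := h8
    rw [← h10]
    exact_mod_cast h9

end Pool.Agent.EE3
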