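import Pool.Agent.EE3.Part3q
import Pool.Agent.EE3.Rack

/-!
# EE3 / Quad: covering runs of quadratic length for all VASS with three counters
-/

set_option autoImplicit false
set_option linter.unusedSectionVars false

namespace Pool.Agent.EE3

open Pool.Agent.EEF Pool.Agent.REV Pool.Agent.EE2 Finset

section

variable {Q : Type} {d : ℕ} {T : VASS Q d}

theorem ok_mono {x z : Vec d} {w : List (Vec d)} (hx : Ok x w) (h : x ≤ z) : Ok z w :=
  Ok_between hx hx fun k => by rw [min_self]; exact h k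

/-- properties of the configurations which do not depend on the state -/
theorem pw_transfer {P : Vec d → Prop} {p q : Q} {x : Vec d} {w : List (Vec d)}
    (h : PW T (fun _ y => P y) p x w q) : ∀ {p' q' : Q}, Walk T p' w q' →
    PW T (fun _ y => P y) p' x w q' := by
  induction h with
  | nil h0 =>
    intro p' q' hw
    cases hw
    exact .nil h0
  | cons h0 _ _ ih =>
    intro p' q' hw
    cases hw with
    | cons h1 h2 => exact .cons h0 h1 (ih h2)

theorem pw_of_ok {p q : Q} {w : List (Vec d)} (hw : Walk T p w q) : ∀ {x : Vec d}, 0 ≤ x →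
    Ok x w → PW T (fun _ y => 0 ≤ y) p x w q := by
  induction hw with
  | nil p => exact fun hx _ => .nil hx
  | cons h1 _ ih => exact fun hx hok => .cons hx h1 (ih hok.1 hok.2)

theorem ok_of_pw {P : Q → Vec d → Prop} (hP : ∀ r y, P r y → 0 ≤ y) {p q : Q} {x : Vec d}
    {w : List (Vec d)} (h : PW T P p x w q) : Ok x w := by
  induction h with
  | nil _ => trivial
  | cons _ _ h2 ih => exact ⟨hP _ _ h2.start, ih⟩

end

/-- all components in turn, for any property of the configurations -/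
theorem chain_box {Q : Type} [Fintype Q] {T : VASS Q 3} {P : Vec 3 → Prop}
    (hP : ∀ z, P z → 0 ≤ z) (L : ℕ)
    (hL : ∀ (p p' : Q) (x : Vec 3) (w : List (Vec 3)), Reach T p' p →
      PW T (fun _ z => P z) p x w p' →
      ∃ w', Walk T p w' p' ∧ Ok x w' ∧ w.sum ≤ w'.sum ∧ w'.length ≤ L) : ∀ (n : ℕ)
    {S : Finset Q}, S.card ≤ n → ∀ {p q : Q} {x : Vec 3} {w : List (Vec 3)}, WalkIn T S p w q →
    PW T (fun _ z => P z) p x w q →
    ∃ w', Walk T p w' q ∧ Ok x w' ∧ w.sum ≤ w'.sum ∧ w'.length ≤ n * (L + 1) := by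
  classical
  intro n
  induction n with
  | zero =>
    intro S hS p q x w h _
    have : S = ∅ := Finset.card_eq_zero.1 (Nat.le_zero.1 hS)
    have h' := h.start
    rw [this] at h'
    simp at h'
  | succ n ih =>
    intro S hS p q x w h hpw
    have hexp : (n + 1) * (L + 1) = n * (L + 1) + (L + 1) := by ring
    have hpp : Reach T p p := ⟨[], .nil p⟩
    by_cases hq : Reach T q p
    · obtain ⟨w', h1, h2, h3, h4⟩ := hL _ _ _ _ hq hpw
      exact ⟨w', h1, h2, h3, by rw [hexp]; omega⟩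
    · obtain ⟨u, v, p₂, p₃, w₂, rfl, h1, h2, h3, h4⟩ := leave hq h hpp
      obtain ⟨q', h5, h6⟩ := hpw.split
      have h7 := pw_transfer (P := P) h5 h1
      obtain ⟨u', a1, a2, a3, a4⟩ := hL _ _ _ _ h2 h7
      have h8 := pw_transfer (P := P) h6 (.cons h3 h4.walk)
      cases h8 with
      | cons h9 h10 h11 =>
        have h12 := pw_transfer (P := P) h11 h4.walk
        have hcard : (S.erase p).card ≤ n := by
          rw [card_erase_of_mem h.start]
          omega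
        obtain ⟨w₂', b1, b2, b3, b4⟩ := ih hcard h4 h12
        have hle : x + u.sum + v ≤ x + u'.sum + v :=
          add_le_add_left (add_le_add_right a3 x) v
        refine ⟨u' ++ v :: w₂', a1.append (.cons h3 b1), ?_, ?_, ?_⟩
        · rw [Ok_append]
          exact ⟨a2, (hP _ h12.start).trans hle, ok_mono b2 hle⟩
        · rw [List.sum_append, List.sum_append, List.sum_cons, List.sum_cons]
          exact add_le_add a3 (add_le_add le_rfl b3)
        · rw [List.length_append, List.length_cons, hexp]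
          omega

/-- all components in turn -/
theorem chain3q {Q : Type} [Fintype Q] {T : VASS Q 3} {H : ℕ} (hH : 1 ≤ H) : ∀ (n : ℕ)
    {S : Finset Q}, S.card ≤ n → ∀ {p q : Q} {x : Vec 3} {w : List (Vec 3)}, WalkIn T S p w q →
    PW T (fun _ y => 0 ≤ y ∧ ∀ k, y k ≤ H) p x w q →
    ∃ w', Walk T p w' q ∧ Ok x w' ∧ w.sum ≤ w'.sum ∧
      w'.length ≤ n * (H ^ 2 * cQ1 (Fintype.card Q) (maxNorm T) + 1) :=
  chain_box (P := fun y => 0 ≤ y ∧ ∀ k, y k ≤ H) (fun _ h => h.1) _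
    fun _ _ _ _ h1 h2 => part3q hH h1 h2

theorem quad_num {n M Y H N : ℕ} (hn : 1 ≤ n) (hN : N = 8 * n * (M + 1)) (hY : 1 ≤ Y)
    (hH : H ≤ M * (Y * N ^ 1200) + Y + M + 1) :
    n * (H ^ 2 * N ^ 68000 + 1) + Y * N ^ 1200 ≤ Y ^ 2 * N ^ 71000 := by
  obtain ⟨h8, h1, h2⟩ := nm_big hN hn
  have hN1 : 1 ≤ N := by omega
  obtain ⟨a, ha⟩ : ∃ a, a = N ^ 1200 := ⟨_, rfl⟩
  have ha1 : 1 ≤ a := by rw [ha]; exact Nat.one_le_pow _ _ hN1
  rw [← ha] at hH ⊢
  have h3 : H ≤ Y * (N * a) := by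
    have e1 : Y ≤ Y * a := Nat.le_mul_of_pos_right _ ha1
    have e2 : M + 1 ≤ (M + 1) * (Y * a) :=
      Nat.le_mul_of_pos_right _ (Nat.mul_pos hY ha1)
    calc H ≤ M * (Y * a) + Y + M + 1 := hH
      _ ≤ M * (Y * a) + Y * a + (M + 1) * (Y * a) := by omega
      _ = (2 * M + 2) * (Y * a) := by ring
      _ ≤ N * (Y * a) := Nat.mul_le_mul_right _ (by omega)
      _ = Y * (N * a) := by ring
  have h4 : H ^ 2 ≤ Y ^ 2 * (N ^ 2 * a ^ 2) := by
    calc H ^ 2 ≤ (Y * (N * a)) ^ 2 := Nat.pow_le_pow_left h3 2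
      _ = Y ^ 2 * (N ^ 2 * a ^ 2) := by ring
  obtain ⟨b, hb⟩ : ∃ b, b = N ^ 68000 := ⟨_, rfl⟩
  have hb1 : 1 ≤ b := by rw [hb]; exact Nat.one_le_pow _ _ hN1
  have hY2 : Y ≤ Y ^ 2 := by rw [pow_two]; exact Nat.le_mul_of_pos_right _ hY
  have hY1 : 1 ≤ Y ^ 2 := Nat.one_le_pow _ _ hY
  have ha2 : a ≤ a ^ 2 := by rw [pow_two]; exact Nat.le_mul_of_pos_right _ ha1
  rw [← hb]
  have hc1 : 1 ≤ N ^ 2 * a ^ 2 * b := Nat.mul_pos (Nat.mul_pos (by positivity) (by positivity)) hb1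
  have h5 : n * (H ^ 2 * b + 1) + Y * a ≤ Y ^ 2 * (N * (N ^ 2 * a ^ 2 * b)) := by
    calc n * (H ^ 2 * b + 1) + Y * a
        ≤ n * (Y ^ 2 * (N ^ 2 * a ^ 2) * b + Y ^ 2 * (N ^ 2 * a ^ 2 * b)) +
            Y ^ 2 * (N ^ 2 * a ^ 2 * b) := by
          refine Nat.add_le_add (Nat.mul_le_mul_left _ (Nat.add_le_add ?_ ?_)) ?_
          · exact Nat.mul_le_mul_right _ h4
          · exact Nat.mul_pos hY1 hc1
          · refine Nat.mul_le_mul hY2 (ha2.trans ?_)
            calc a ^ 2 = 1 * a ^ 2 * 1 := by ring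
              _ ≤ N ^ 2 * a ^ 2 * b :=
                Nat.mul_le_mul (Nat.mul_le_mul_right _ (Nat.one_le_pow _ _ hN1)) hb1
      _ = (2 * n + 1) * (Y ^ 2 * (N ^ 2 * a ^ 2 * b)) := by ring
      _ ≤ N * (Y ^ 2 * (N ^ 2 * a ^ 2 * b)) := Nat.mul_le_mul_right _ (by omega)
      _ = Y ^ 2 * (N * (N ^ 2 * a ^ 2 * b)) := by ring
  refine h5.trans (Nat.mul_le_mul_left _ ?_)
  have e : N * (N ^ 2 * a ^ 2 * b) = N ^ 70403 := by
    rw [ha, hb, ← pow_mul]
    rw [← pow_add, ← pow_add, ← pow_succ']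
  rw [e]
  exact Nat.pow_le_pow_right hN1 (by norm_num)

/-- a short covering run from short covering runs inside the components, near the origin -/
theorem box_main {Q : Type} [Fintype Q] {T : VASS Q 3} {s t : Q} {x y y' : Fin 3 → ℕ}
    {w : List (Vec 3)} (hrun : Run T s x w t y') (hy : ∀ k, y k ≤ y' k) (L : ℕ)
    (hL : ∀ (p p' : Q) (x : Vec 3) (w : List (Vec 3)), Reach T p' p →
      PW T (fun _ z => 0 ≤ z ∧ ∀ k, z k ≤ ((maxNorm T *
        (max 1 (supN y) * cP2 (Fintype.card Q) (maxNorm T)) + supN y + maxNorm T : ℕ) : ℤ))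
        p x w p' →
      ∃ w', Walk T p w' p' ∧ Ok x w' ∧ w.sum ≤ w'.sum ∧ w'.length ≤ L) :
    ∃ w', Covers T s x t y w' ∧ w'.length ≤ Fintype.card Q * (L + 1) +
      max 1 (supN y) * cP2 (Fintype.card Q) (maxNorm T) := by
  classical
  obtain ⟨h1, h2, h3⟩ := run_iff.1 hrun
  obtain ⟨H₀, hH₀⟩ : ∃ H₀, H₀ = maxNorm T *
    (max 1 (supN y) * cP2 (Fintype.card Q) (maxNorm T)) + supN y := ⟨_, rfl⟩
  rw [← hH₀] at hL
  have hpw := pw_of_ok h1 (zv_nonneg x) h2
  -- from a walk to a covering run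
  have fin : ∀ {w' : List (Vec 3)}, Walk T s w' t → Ok (zv x) w' →
      (∀ k, (y k : ℤ) ≤ (zv x + w'.sum) k) → Covers T s x t y w' := by
    intro w' e1 e2 e3
    refine ⟨fun k => ((zv x + w'.sum) k).toNat, run_iff.2 ⟨e1, e2, ?_⟩, fun k => ?_⟩
    · funext k
      exact Int.toNat_of_nonneg ((Int.natCast_nonneg _).trans (e3 k))
    · have h := e3 k
      show y k ≤ ((zv x + w'.sum) k).toNat
      omega
  have hyy : ∀ k, (y k : ℤ) ≤ (zv x + w.sum) k := by
    intro k
    rw [← h3]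
    show (y k : ℤ) ≤ (y' k : ℤ)
    exact_mod_cast hy k
  have chain : ∀ {p q : Q} {x : Vec 3} {w : List (Vec 3)}, WalkIn T univ p w q →
      PW T (fun _ z => 0 ≤ z ∧ ∀ k, z k ≤ ((H₀ + maxNorm T : ℕ) : ℤ)) p x w q →
      ∃ w', Walk T p w' q ∧ Ok x w' ∧ w.sum ≤ w'.sum ∧
        w'.length ≤ Fintype.card Q * (L + 1) := fun h1 h2 => chain_box (T := T)
    (P := fun z => 0 ≤ z ∧ ∀ k, z k ≤ ((H₀ + maxNorm T : ℕ) : ℤ)) (fun _ h => h.1) L hL
    (Fintype.card Q) (le_of_eq card_univ) h1 h2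
  rcases hpw.firstBad (fun _ z => ∀ k, z k < (H₀ : ℤ)) with
    h4 | ⟨u₁, u₂, r, rfl, h5, h6, h7, h8⟩
  · have h5 : PW T (fun _ z => 0 ≤ z ∧ ∀ k, z k ≤ ((H₀ + maxNorm T : ℕ) : ℤ)) s (zv x) w t :=
      h4.mono fun _ z hz => ⟨hz.1, fun k => by
        have := hz.2 k
        push_cast
        omega⟩
    obtain ⟨w', a1, a2, a3, a4⟩ := chain h1.walkIn h5
    refine ⟨w', fin a1 a2 fun k => (hyy k).trans ?_, a4.trans (Nat.le_add_right _ _)⟩
    exact add_le_add le_rfl (a3 k)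
  · push Not at h6
    obtain ⟨k, hk⟩ := h6
    have h9 : ∃ u', Walk T s u' r ∧ Ok (zv x) u' ∧ u₁.sum ≤ u'.sum ∧
        u'.length ≤ Fintype.card Q * (L + 1) := by
      rcases h8 with ⟨rfl, rfl⟩ | ⟨u₀, v, r₀, rfl, h8, h9⟩
      · exact ⟨[], .nil _, trivial, le_rfl, Nat.zero_le _⟩
      · have h10 : PW T (fun _ z => 0 ≤ z ∧ ∀ k, z k ≤ ((H₀ + maxNorm T : ℕ) : ℤ)) s (zv x)
            u₀ r₀ :=
          h8.mono fun _ z hz => ⟨hz.1, fun k => by
            have := hz.2 k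
            push_cast
            omega⟩
        have h11 : PW T (fun _ z => 0 ≤ z ∧ ∀ k, z k ≤ ((H₀ + maxNorm T : ℕ) : ℤ)) r₀
            (zv x + u₀.sum) [v] r := by
          refine .cons h10.stop h9 (.nil ⟨?_, fun k => ?_⟩)
          · rw [List.sum_append, List.sum_singleton, ← add_assoc] at h5
            exact h5
          · have e1 := h8.stop.2 k
            have e2 := (abs_le.1 (abs_le_maxNorm h9 k)).2
            rw [Pi.add_apply]
            push_cast
            linarith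
        exact chain (h10.append h11).walk.walkIn (h10.append h11)
    obtain ⟨u', a1, a2, a3, a4⟩ := h9
    have hle : zv x + u₁.sum ≤ zv x + u'.sum := add_le_add le_rfl a3
    have hok₂ : Ok (zv x + u₁.sum) u₂ := ok_of_pw (fun _ _ h => h) h7
    obtain ⟨w', b1, b2, b3, b4⟩ := rack3 (T := T) (x := zv x + u'.sum) (y := y) (k := k)
      (h5.trans hle) h7.walk (ok_mono hok₂ hle) (fun k => by
        have h := hyy k
        rw [List.sum_append, ← add_assoc] at h
        exact h.trans (add_le_add (hle k) le_rfl)) (by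
        rw [← hH₀]
        exact hk.trans (hle k))
    refine ⟨u' ++ w', fin (a1.append b1) ?_ fun k => ?_, ?_⟩
    · rw [Ok_append]
      exact ⟨a2, b2⟩
    · rw [List.sum_append, ← add_assoc]
      exact b3 k
    · rw [List.length_append]
      exact Nat.add_le_add a4 b4

/-- **Covering runs of quadratic length for every VASS with three counters.** -/
theorem quad_main {Q : Type} [Fintype Q] {T : VASS Q 3} {s t : Q} {x y y' : Fin 3 → ℕ}
    {w : List (Vec 3)} (hrun : Run T s x w t y') (hy : ∀ k, y k ≤ y' k) :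
    ∃ w', Covers T s x t y w' ∧ w'.length ≤ (max 1 (supN y)) ^ 2 *
      (8 * Fintype.card Q * (maxNorm T + 1)) ^ 71000 := by
  have hn : 1 ≤ Fintype.card Q := Fintype.card_pos_iff.2 ⟨s⟩
  obtain ⟨H, hH⟩ : ∃ H, H = maxNorm T *
    (max 1 (supN y) * cP2 (Fintype.card Q) (maxNorm T)) + supN y + maxNorm T + 1 := ⟨_, rfl⟩
  obtain ⟨w', h1, h2⟩ := box_main hrun hy (H ^ 2 * cQ1 (Fintype.card Q) (maxNorm T))
    fun p p' x w hr h => part3q (by omega) hr (h.mono fun _ z hz => ⟨hz.1, fun k => by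
      have := hz.2 k
      rw [hH]
      push_cast at this ⊢
      linarith⟩)
  refine ⟨w', h1, h2.trans ?_⟩
  exact quad_num hn rfl (le_max_left _ _) (by
    rw [hH]
    have : supN y ≤ max 1 (supN y) := le_max_right _ _
    unfold cP2
    omega)

end Pool.Agent.EE3
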