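import Pool.Agent.EE3.Tour3
import Pool.Agent.EE3.Quad

/-!
# EE3 / Reroute3: from a deep configuration to a deep configuration with a loss of weight

`RrSys` is an abstract system of moves between configurations which contains tours; `rr_line` moves
along a line, `rr_fwd` / `rr_bwd` raise the small counters by doublings, `rr_main` combines them.
-/

set_option autoImplicit false
set_option linter.unusedSectionVars false
set_option maxHeartbeats 4000000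

namespace Pool.Agent.EE3

open Pool.Agent.EEF Pool.Agent.REV Pool.Agent.EE2 Finset

/-- bound for the rerouting -/
def cRr (n M : ℕ) : ℕ := (8 * n * (M + 1)) ^ 1000000

/-- bounded moves between configurations, with tours -/
structure RrSys (K : ℕ) (lam : Fin 3 → ℕ) (Mv : ℕ → Vec 3 → Vec 3 → Prop) : Prop where
  refl : ∀ y z, z ≤ y → Mv 0 y z
  trans : ∀ L L' x y z, Mv L x y → Mv L' y z → Mv (L + L') x z
  mono : ∀ L L' x y, L ≤ L' → Mv L x y → Mv L' x y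
  tour : ∀ a b : Fin 3, a ≠ b → ∃ (c : ℕ) (l : Vec 3), 1 ≤ c ∧ c ≤ K ∧ (∀ k, |l k| ≤ K) ∧
    ∑ k, (lam k : ℤ) * l k ≤ 0 ∧ ∀ (t : ℕ) (x : Vec 3), (∀ k, ((K * (t + 1) : ℕ) : ℤ) ≤ x k) →
      Mv (K * (t + 1)) x (fun k => x k + l k + (c * t : ℕ) * trv lam a b k)

theorem rr_mass (lam : Fin 3 → ℕ) {a b : Fin 3} (hab : a ≠ b) (x l : Vec 3) (n : ℤ) :
    ∑ k, (lam k : ℤ) * (x k + l k + n * trv lam a b k) =
      ∑ k, (lam k : ℤ) * x k + ∑ k, (lam k : ℤ) * l k := by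
  have h : ∑ k, (lam k : ℤ) * trv lam a b k = 0 := by
    revert hab
    rw [Fin.sum_univ_three]
    unfold trv
    fin_cases a <;> fin_cases b <;> simp <;> ring
  have e : ∀ k, (lam k : ℤ) * (x k + l k + n * trv lam a b k) =
      (lam k : ℤ) * x k + (lam k : ℤ) * l k + n * ((lam k : ℤ) * trv lam a b k) := by
    intro k
    ring
  rw [Finset.sum_congr rfl fun k _ => e k, Finset.sum_add_distrib, Finset.sum_add_distrib,
    ← Finset.mul_sum, h, mul_zero, add_zero]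

theorem rr_massl {K : ℕ} (lam : Fin 3 → ℕ) (hlam : ∀ k, 1 ≤ lam k ∧ lam k ≤ K)
    (l : Vec 3) (hl : ∀ k, |l k| ≤ K) : -(3 * (K : ℤ) ^ 2) ≤ ∑ k, (lam k : ℤ) * l k := by
  have h : ∀ k, -((K : ℤ) * K) ≤ (lam k : ℤ) * l k := by
    intro k
    have h1 := (abs_le.1 (hl k)).1
    have h2 : (lam k : ℤ) ≤ K := by exact_mod_cast (hlam k).2
    have h3 : (0 : ℤ) ≤ lam k := Int.natCast_nonneg _
    have h4 : (0 : ℤ) ≤ K := Int.natCast_nonneg _
    nlinarith
  have h0 := h 0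
  have h1 := h 1
  have h2 := h 2
  rw [Fin.sum_univ_three]
  nlinarith

theorem rr_fix {K : ℕ} {lam : Fin 3 → ℕ} {Mv : ℕ → Vec 3 → Vec 3 → Prop}
    (h : RrSys K lam Mv) (hlam : ∀ k, 1 ≤ lam k ∧ lam k ≤ K) {a : Fin 3} (ha : a ≠ 0)
    (x : Vec 3) (g : ℤ) (τ : ℕ) (hτ : |x a - g| ≤ τ)
    (hx : ∀ k, ((K * (τ + K + 3) : ℕ) : ℤ) ≤ x k) :
    ∃ x' : Vec 3, Mv (K * (τ + K + 3)) x x' ∧ g ≤ x' a ∧ x' a ≤ g + 2 * K + (K : ℤ) ^ 2 ∧
      (∀ k, k ≠ a → k ≠ 0 → x k - K ≤ x' k ∧ x' k ≤ x k + K) ∧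
      x 0 - K - (K : ℤ) ^ 2 * (τ + K + 2) ≤ x' 0 ∧
      ∑ k, (lam k : ℤ) * x k - 3 * (K : ℤ) ^ 2 ≤ ∑ k, (lam k : ℤ) * x' k := by
  have hK0 : (0 : ℤ) ≤ K := Int.natCast_nonneg _
  have hτ1 := abs_le.1 hτ
  have hτ0 : (0 : ℤ) ≤ τ := Int.natCast_nonneg _
  have l0 : (1 : ℤ) ≤ lam 0 := by exact_mod_cast (hlam 0).1
  have l0' : (lam 0 : ℤ) ≤ K := by exact_mod_cast (hlam 0).2
  have la : (1 : ℤ) ≤ lam a := by exact_mod_cast (hlam a).1
  have la' : (lam a : ℤ) ≤ K := by exact_mod_cast (hlam a).2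
  -- the common estimate of the remainder
  have common : ∀ (c : ℕ), 1 ≤ c → c ≤ K → ∀ d : ℤ,
      0 ≤ d % ((c : ℤ) * lam 0) ∧ d % ((c : ℤ) * lam 0) ≤ (K : ℤ) ^ 2 := by
    intro c hc1 hcK d
    have c1 : (1 : ℤ) ≤ c := by exact_mod_cast hc1
    have c2 : (c : ℤ) ≤ K := by exact_mod_cast hcK
    have he : 0 < (c : ℤ) * lam 0 := mul_pos (by linarith) (by linarith)
    have he2 : (c : ℤ) * lam 0 ≤ (K : ℤ) ^ 2 := by
      rw [sq]
      exact mul_le_mul c2 l0' (by linarith) hK0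
    exact ⟨Int.emod_nonneg _ he.ne', (Int.emod_lt_of_pos _ he).le.trans he2⟩
  rcases le_or_gt 0 (x a - g - K) with hd | hd
  · obtain ⟨c, l, hc1, hcK, hl, hll, ht⟩ := h.tour 0 a ha.symm
    obtain ⟨m1, m2⟩ := common c hc1 hcK (x a - g - K)
    have c1 : (1 : ℤ) ≤ c := by exact_mod_cast hc1
    have c2 : (c : ℤ) ≤ K := by exact_mod_cast hcK
    have he : 0 < (c : ℤ) * lam 0 := mul_pos (by linarith) (by linarith)
    have hdiv := Int.mul_ediv_add_emod (x a - g - K) ((c : ℤ) * lam 0)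
    obtain ⟨t, htd⟩ : ∃ t : ℕ, (t : ℤ) = (x a - g - K) / ((c : ℤ) * lam 0) :=
      ⟨((x a - g - K) / ((c : ℤ) * lam 0)).toNat, Int.toNat_of_nonneg (Int.ediv_nonneg hd he.le)⟩
    rw [← htd] at hdiv
    have ht0 : (0 : ℤ) ≤ t := Int.natCast_nonneg _
    have htτ : (t : ℤ) ≤ τ := by nlinarith
    have htτ' : t ≤ τ := by exact_mod_cast htτ
    have hle : K * (t + 1) ≤ K * (τ + K + 3) := Nat.mul_le_mul_left _ (by omega)
    refine ⟨_, h.mono _ _ _ _ hle (ht t x fun k => le_trans (by exact_mod_cast hle) (hx k)),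
      ?_, ?_, ?_, ?_, ?_⟩
    · have h1 := (abs_le.1 (hl a)).1
      have e : trv lam 0 a a = -(lam 0 : ℤ) := by simp [trv, ha]
      rw [e]
      push_cast
      nlinarith
    · have h1 := (abs_le.1 (hl a)).2
      have e : trv lam 0 a a = -(lam 0 : ℤ) := by simp [trv, ha]
      rw [e]
      push_cast
      nlinarith
    · intro k hka hk0
      have h1 := abs_le.1 (hl k)
      have e : trv lam 0 a k = 0 := by simp [trv, hka, hk0]
      rw [e, mul_zero, add_zero]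
      exact ⟨by linarith [h1.1], by linarith [h1.2]⟩
    · have h1 := (abs_le.1 (hl 0)).1
      have e : trv lam 0 a 0 = (lam a : ℤ) := by simp [trv]
      rw [e]
      push_cast
      have h2 : (0 : ℤ) ≤ (c : ℤ) * t * lam a := by positivity
      have h3 : (0 : ℤ) ≤ (K : ℤ) ^ 2 * (τ + K + 2) := by positivity
      linarith
    · rw [rr_mass lam ha.symm]
      have := rr_massl lam hlam l hl
      linarith
  · obtain ⟨c, l, hc1, hcK, hl, hll, ht⟩ := h.tour a 0 ha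
    obtain ⟨m1, m2⟩ := common c hc1 hcK (x a - g - K)
    have c1 : (1 : ℤ) ≤ c := by exact_mod_cast hc1
    have c2 : (c : ℤ) ≤ K := by exact_mod_cast hcK
    have he : 0 < (c : ℤ) * lam 0 := mul_pos (by linarith) (by linarith)
    have he1 : 1 ≤ (c : ℤ) * lam 0 := he
    have hdiv := Int.mul_ediv_add_emod (x a - g - K) ((c : ℤ) * lam 0)
    have hneg : (x a - g - K) / ((c : ℤ) * lam 0) ≤ 0 := Int.ediv_nonpos_of_nonpos_of_neg hd.le he
    obtain ⟨t, htd⟩ : ∃ t : ℕ, (t : ℤ) = -((x a - g - K) / ((c : ℤ) * lam 0)) :=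
      ⟨(-((x a - g - K) / ((c : ℤ) * lam 0))).toNat, Int.toNat_of_nonneg (by linarith)⟩
    have htd' : (x a - g - K) / ((c : ℤ) * lam 0) = -t := by linarith
    rw [htd'] at hdiv
    have ht0 : (0 : ℤ) ≤ t := Int.natCast_nonneg _
    have hlow : x a - g - K ≤ -(t : ℤ) := by
      rw [← htd']
      rw [Int.le_ediv_iff_mul_le he]
      nlinarith
    have htτ : (t : ℤ) ≤ τ + K := by linarith [hτ1.1]
    have htτ' : t ≤ τ + K := by exact_mod_cast htτ
    have hle : K * (t + 1) ≤ K * (τ + K + 3) := Nat.mul_le_mul_left _ (by omega)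
    refine ⟨_, h.mono _ _ _ _ hle (ht t x fun k => le_trans (by exact_mod_cast hle) (hx k)),
      ?_, ?_, ?_, ?_, ?_⟩
    · have h1 := (abs_le.1 (hl a)).1
      have e : trv lam a 0 a = (lam 0 : ℤ) := by simp [trv]
      rw [e]
      push_cast
      nlinarith
    · have h1 := (abs_le.1 (hl a)).2
      have e : trv lam a 0 a = (lam 0 : ℤ) := by simp [trv]
      rw [e]
      push_cast
      nlinarith
    · intro k hka hk0
      have h1 := abs_le.1 (hl k)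
      have e : trv lam a 0 k = 0 := by simp [trv, hka, hk0]
      rw [e, mul_zero, add_zero]
      exact ⟨by linarith [h1.1], by linarith [h1.2]⟩
    · have h1 := (abs_le.1 (hl 0)).1
      have e : trv lam a 0 0 = -(lam a : ℤ) := by simp [trv, ha.symm]
      rw [e]
      push_cast
      have h2 : (c : ℤ) * t * lam a ≤ K * (τ + K + 2) * K := by
        have h3 : (c : ℤ) * t ≤ K * (τ + K + 2) :=
          mul_le_mul c2 (by linarith) ht0 hK0
        exact mul_le_mul h3 la' (by linarith) (by positivity)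
      nlinarith
    · rw [rr_mass lam ha]
      have := rr_massl lam hlam l hl
      linarith

theorem rr_step {K : ℕ} {lam : Fin 3 → ℕ} {Mv : ℕ → Vec 3 → Vec 3 → Prop}
    (h : RrSys K lam Mv) (hK : 1000 ≤ K) (hlam : ∀ k, 1 ≤ lam k ∧ lam k ≤ K)
    (y z : Vec 3) (τ : ℕ) (hyz : ∀ k, |y k - z k| ≤ τ)
    (hy : ∀ k, ((K ^ 6 * (τ + 1) : ℕ) : ℤ) ≤ y k)
    (hm : ∑ k, (lam k : ℤ) * z k + (K : ℤ) ^ 4 ≤ ∑ k, (lam k : ℤ) * y k) :
    Mv (K ^ 4 * (τ + 1)) y z := by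
  have hKz : (1000 : ℤ) ≤ K := by exact_mod_cast hK
  have hK0 : (0 : ℤ) ≤ K := by linarith
  have hτ0 : (0 : ℤ) ≤ τ := Int.natCast_nonneg _
  obtain ⟨q, hq⟩ : ∃ q : ℤ, q = τ + 1 := ⟨_, rfl⟩
  have hq1 : 1 ≤ q := by linarith
  have hy' : ∀ k, (K : ℤ) ^ 6 * q ≤ y k := by
    intro k
    have := hy k
    push_cast at this
    rw [hq]
    exact this
  have e1 : (τ : ℤ) + 2 * K + 3 ≤ 3 * K * q := by rw [hq]; nlinarith
  have e2 : (K : ℤ) * (τ + 2 * K + 3) ≤ 3 * K ^ 2 * q := by nlinarith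
  have e3 : (K : ℤ) ^ 2 * (τ + 2 * K + 3) ≤ 3 * K ^ 3 * q := by
    have : (K : ℤ) ^ 2 * (τ + 2 * K + 3) ≤ K ^ 2 * (3 * K * q) :=
      mul_le_mul_of_nonneg_left e1 (sq_nonneg _)
    calc _ ≤ _ := this
      _ = _ := by ring
  have p23 : (K : ℤ) ^ 2 * q ≤ K ^ 3 * q := by
    apply mul_le_mul_of_nonneg_right _ (by linarith)
    exact pow_le_pow_right₀ (by linarith) (by norm_num)
  have p12 : (K : ℤ) ≤ K ^ 2 * q := by nlinarith
  have p34 : 1000 * ((K : ℤ) ^ 3 * q) ≤ K ^ 4 * q := by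
    have : (K : ℤ) ^ 4 * q = K * (K ^ 3 * q) := by ring
    rw [this]
    exact mul_le_mul_of_nonneg_right hKz (by positivity)
  have p46 : (K : ℤ) ^ 4 * q ≤ K ^ 6 * q := by
    apply mul_le_mul_of_nonneg_right _ (by linarith)
    exact pow_le_pow_right₀ (by linarith) (by norm_num)
  have pq : q ≤ K ^ 2 * q := by nlinarith
  have hc : ((K * ((τ + K) + K + 3) : ℕ) : ℤ) = K * (τ + 2 * K + 3) := by
    push_cast
    ring
  have a1 := abs_le.1 (hyz 1)
  have a2 := abs_le.1 (hyz 2)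
  obtain ⟨x, hx0, hx1, hx2, hx3, hx4, hx5⟩ := rr_fix h hlam (a := 1) (by decide) y (z 1 + K)
    (τ + K) (by
      rw [abs_le]
      push_cast
      constructor <;> linarith [a1.1, a1.2]) (fun k => by
      rw [hc]
      have := hy' k
      linarith)
  obtain ⟨b1, b2⟩ := hx3 2 (by decide) (by decide)
  push_cast at hx4
  have hx4' : y 0 - K - 3 * K ^ 3 * q ≤ x 0 := by
    have : (K : ℤ) ^ 2 * (τ + K + K + 2) ≤ K ^ 2 * (τ + 2 * K + 3) := by
      apply mul_le_mul_of_nonneg_left _ (sq_nonneg _)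
      linarith
    linarith
  have y0 := hy' 0
  have y1 := hy' 1
  have y2 := hy' 2
  obtain ⟨x', hx0', hx1', hx2', hx3', hx4'', hx5'⟩ := rr_fix h hlam (a := 2) (by decide) x (z 2)
    (τ + K) (by
      rw [abs_le]
      push_cast
      constructor <;> linarith [a2.1, a2.2]) (fun k => by
      rw [hc]
      fin_cases k
      · show _ ≤ x 0
        linarith
      · show _ ≤ x 1
        linarith [a1.2]
      · show _ ≤ x 2
        linarith)
  obtain ⟨b1', b2'⟩ := hx3' 1 (by decide) (by decide)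
  have hz : z ≤ x' := by
    have h1 : z 1 ≤ x' 1 := by linarith
    have h2 : z 2 ≤ x' 2 := hx1'
    have h0 : z 0 ≤ x' 0 := by
      rw [Fin.sum_univ_three, Fin.sum_univ_three] at hm hx5 hx5'
      have m1 : (lam 1 : ℤ) * (x' 1 - z 1) ≤ K * (4 * K + K ^ 2) := by
        refine mul_le_mul (by exact_mod_cast (hlam 1).2) (by linarith) (by linarith) hK0
      have m2 : (lam 2 : ℤ) * (x' 2 - z 2) ≤ K * (2 * K + K ^ 2) := by
        refine mul_le_mul (by exact_mod_cast (hlam 2).2) (by linarith) (by linarith) hK0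
      have m3 : 14 * (K : ℤ) ^ 2 + 2 * K ^ 3 ≤ K ^ 4 := by
        have k2 : 0 ≤ (K : ℤ) ^ 2 := sq_nonneg _
        have e5 : (K : ℤ) ^ 3 = K * K ^ 2 := by ring
        have e6 : (K : ℤ) ^ 4 = K * K * K ^ 2 := by ring
        rw [e5, e6]
        nlinarith
      have l0 : (1 : ℤ) ≤ lam 0 := by exact_mod_cast (hlam 0).1
      by_contra hcon
      have m4 : (lam 0 : ℤ) * (x' 0 - z 0) ≤ lam 0 * (-1) := by
        have : x' 0 - z 0 ≤ -1 := by
          have := not_le.1 hcon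
          omega
        exact mul_le_mul_of_nonneg_left this (by linarith)
      have m5 : (K : ℤ) * (4 * K + K ^ 2) = 4 * K ^ 2 + K ^ 3 := by ring
      have m6 : (K : ℤ) * (2 * K + K ^ 2) = 2 * K ^ 2 + K ^ 3 := by ring
      rw [mul_sub] at m1 m2 m4
      rw [m5] at m1
      rw [m6] at m2
      have m7 : (0 : ℤ) ≤ (K : ℤ) ^ 2 := sq_nonneg _
      clear hcon
      linarith
    intro k
    fin_cases k
    · exact h0
    · exact h1
    · exact h2
  have hfin := h.trans _ _ _ _ _ (h.trans _ _ _ _ _ hx0 hx0') (h.refl _ _ hz)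
  refine h.mono _ _ _ _ ?_ hfin
  have e7 : ((K * ((τ + K) + K + 3) + K * ((τ + K) + K + 3) + 0 : ℕ) : ℤ) ≤
      ((K ^ 4 * (τ + 1) : ℕ) : ℤ) := by
    push_cast
    rw [← hq]
    have : (K : ℤ) * (τ + K + K + 3) = K * (τ + 2 * K + 3) := by ring
    rw [this]
    linarith
  exact_mod_cast e7

/-- the point of the segment, rounded down -/
def rrP (y z : Vec 3) (J j : ℕ) : Vec 3 :=
  fun k => (((J : ℤ) - j) * y k + j * z k) / J

theorem rr_line {K : ℕ} {lam : Fin 3 → ℕ} {Mv : ℕ → Vec 3 → Vec 3 → Prop}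
    (h : RrSys K lam Mv) (hK : 1000 ≤ K) (hlam : ∀ k, 1 ≤ lam k ∧ lam k ≤ K)
    (y z : Vec 3) (m V : ℕ) (hm : K ^ 8 ≤ m) (hy : ∀ k, (m : ℤ) ≤ y k)
    (hz : ∀ k, (m : ℤ) ≤ z k) (hV : ∀ k, |y k - z k| ≤ V) (hVm : V ≤ K ^ 2 * m)
    (hmass : ∑ k, (lam k : ℤ) * z k + (K : ℤ) ^ 15 ≤ ∑ k, (lam k : ℤ) * y k) :
    Mv (K ^ 4 * (V + 3 * K ^ 10)) y z := by
  have hKz : (1000 : ℤ) ≤ K := by exact_mod_cast hK
  have hK0 : (0 : ℤ) ≤ K := by linarith
  obtain ⟨J, hJ⟩ : ∃ J : ℕ, J = K ^ 10 := ⟨_, rfl⟩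
  have hJ1 : 1 ≤ J := by rw [hJ]; exact Nat.one_le_pow _ _ (by omega)
  have hJz : (0 : ℤ) < J := by exact_mod_cast hJ1
  obtain ⟨D, hD⟩ : ∃ D : ℕ, D = V / J := ⟨_, rfl⟩
  have hD1 : J * D ≤ V := by rw [hD]; exact Nat.mul_div_le V J
  have hD2 : V < J * (D + 1) := by
    rw [hD]
    exact Nat.lt_mul_div_succ V (by omega)
  -- deep
  have hdeep : K ^ 6 * ((D + 2) + 1) ≤ m := by
    have h1 : K ^ 2 * (K ^ 8 * D) ≤ K ^ 2 * m := by
      calc K ^ 2 * (K ^ 8 * D) = J * D := by rw [hJ]; ring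
        _ ≤ V := hD1
        _ ≤ K ^ 2 * m := hVm
    have h2 : K ^ 8 * D ≤ m := Nat.le_of_mul_le_mul_left h1 (by positivity)
    have h3 : 2 * (K ^ 6 * D) ≤ m := by
      refine le_trans ?_ h2
      have : K ^ 8 * D = K ^ 2 * (K ^ 6 * D) := by ring
      rw [this]
      exact Nat.mul_le_mul_right _ (by nlinarith)
    have h4 : 2 * (3 * K ^ 6) ≤ m := by
      refine le_trans ?_ hm
      have : K ^ 8 = K ^ 2 * K ^ 6 := by ring
      rw [this]
      have h5 : 6 ≤ K ^ 2 := by nlinarith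
      calc 2 * (3 * K ^ 6) = 6 * K ^ 6 := by ring
        _ ≤ K ^ 2 * K ^ 6 := Nat.mul_le_mul_right _ h5
    have h6 : K ^ 6 * ((D + 2) + 1) = K ^ 6 * D + 3 * K ^ 6 := by ring
    omega
  have hP0 : rrP y z J 0 = y := by
    funext k
    unfold rrP
    simp only [Nat.cast_zero, sub_zero, zero_mul, add_zero]
    exact Int.mul_ediv_cancel_left _ hJz.ne'
  have hPJ : rrP y z J J = z := by
    funext k
    unfold rrP
    simp only [sub_self, zero_mul, zero_add]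
    exact Int.mul_ediv_cancel_left _ hJz.ne'
  have key : ∀ j, j ≤ J → Mv (j * (K ^ 4 * ((D + 2) + 1))) y (rrP y z J j) := by
    intro j
    induction j with
    | zero =>
      intro _
      rw [hP0, Nat.zero_mul]
      exact h.refl _ _ le_rfl
    | succ j ih =>
      intro hj
      have hjz : ((j : ℤ)) + 1 ≤ J := by exact_mod_cast hj
      have hj0 : (0 : ℤ) ≤ j := Int.natCast_nonneg _
      -- bounds of the rounding
      have r1 : ∀ i : ℕ, ∀ k, (J : ℤ) * rrP y z J i k ≤ ((J : ℤ) - i) * y k + i * z k := by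
        intro i k
        unfold rrP
        exact Int.mul_ediv_self_le hJz.ne'
      have r2 : ∀ i : ℕ, ∀ k, ((J : ℤ) - i) * y k + i * z k < (J : ℤ) * rrP y z J i k + J := by
        intro i k
        unfold rrP
        exact Int.lt_mul_ediv_self_add hJz
      have hs := rr_step h hK hlam (rrP y z J j) (rrP y z J (j + 1)) (D + 2) (fun k => by
        have q1 := r1 j k
        have q2 := r2 j k
        have q3 := r1 (j + 1) k
        have q4 := r2 (j + 1) k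
        push_cast at q3 q4
        have v := abs_le.1 (hV k)
        have d2 : (V : ℤ) < J * (D + 1) := by exact_mod_cast hD2
        rw [abs_le]
        push_cast
        constructor
        · by_contra hc
          have : (J : ℤ) * (rrP y z J j k - rrP y z J (j + 1) k) ≤ J * (-(D + 2) - 1) :=
            mul_le_mul_of_nonneg_left (by omega) hJz.le
          nlinarith
        · by_contra hc
          have : (J : ℤ) * ((D + 2) + 1) ≤ J * (rrP y z J j k - rrP y z J (j + 1) k) :=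
            mul_le_mul_of_nonneg_left (by omega) hJz.le
          nlinarith) (fun k => by
        have q5 : (m : ℤ) ≤ rrP y z J j k := by
          unfold rrP
          rw [Int.le_ediv_iff_mul_le hJz]
          have v1 := hy k
          have v2 := hz k
          have w1 : ((J : ℤ) - j) * m ≤ ((J : ℤ) - j) * y k :=
            mul_le_mul_of_nonneg_left v1 (by linarith)
          have w2 : (j : ℤ) * m ≤ j * z k := mul_le_mul_of_nonneg_left v2 hj0
          linarith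
        refine le_trans ?_ q5
        exact_mod_cast hdeep) (by
        -- mass
        have w : ∀ k, (J : ℤ) * ((lam k : ℤ) * rrP y z J (j + 1) k) + lam k * (y k - z k) ≤
            (J : ℤ) * ((lam k : ℤ) * rrP y z J j k) + lam k * J := by
          intro k
          have q3 := r1 (j + 1) k
          have q2 := r2 j k
          push_cast at q3
          have l0 : (0 : ℤ) ≤ lam k := Int.natCast_nonneg _
          have : (lam k : ℤ) * ((J : ℤ) * rrP y z J (j + 1) k + (y k - z k)) ≤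
              lam k * ((J : ℤ) * rrP y z J j k + J) :=
            mul_le_mul_of_nonneg_left (by linarith) l0
          linarith
        have w0 := w 0
        have w1 := w 1
        have w2 := w 2
        have l0 : (lam 0 : ℤ) ≤ K := by exact_mod_cast (hlam 0).2
        have l1 : (lam 1 : ℤ) ≤ K := by exact_mod_cast (hlam 1).2
        have l2 : (lam 2 : ℤ) ≤ K := by exact_mod_cast (hlam 2).2
        have t0 : (lam 0 : ℤ) * J ≤ K * J := mul_le_mul_of_nonneg_right l0 hJz.le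
        have t1 : (lam 1 : ℤ) * J ≤ K * J := mul_le_mul_of_nonneg_right l1 hJz.le
        have t2 : (lam 2 : ℤ) * J ≤ K * J := mul_le_mul_of_nonneg_right l2 hJz.le
        rw [Fin.sum_univ_three, Fin.sum_univ_three] at hmass ⊢
        have hJK : (J : ℤ) * (K ^ 5) = K ^ 15 := by rw [hJ]; push_cast; ring
        have hJ5 : (J : ℤ) * (K ^ 4 + 3 * K) ≤ J * K ^ 5 := by
          apply mul_le_mul_of_nonneg_left _ hJz.le
          have e5 : (K : ℤ) ^ 5 = K * K ^ 4 := by ring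
          have k4 : (K : ℤ) ≤ K ^ 4 := by
            calc (K : ℤ) = K ^ 1 := (pow_one _).symm
              _ ≤ K ^ 4 := pow_le_pow_right₀ (by linarith) (by norm_num)
          rw [e5]
          nlinarith
        have hfinal : (J : ℤ) * ((lam 0 : ℤ) * rrP y z J (j + 1) 0 +
            lam 1 * rrP y z J (j + 1) 1 + lam 2 * rrP y z J (j + 1) 2 + K ^ 4) ≤
            J * ((lam 0 : ℤ) * rrP y z J j 0 + lam 1 * rrP y z J j 1 + lam 2 * rrP y z J j 2) := by
          linarith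
        exact le_of_mul_le_mul_left hfinal hJz)
      have := h.trans _ _ _ _ _ (ih (by omega)) hs
      refine h.mono _ _ _ _ (le_of_eq ?_) this
      ring
  have hfin := key J le_rfl
  rw [hPJ] at hfin
  refine h.mono _ _ _ _ ?_ hfin
  calc J * (K ^ 4 * ((D + 2) + 1)) = K ^ 4 * (J * D + 3 * J) := by ring
    _ ≤ K ^ 4 * (V + 3 * K ^ 10) := Nat.mul_le_mul_left _ (by rw [← hJ]; omega)

/-- the weight of the raised counters -/
def rrW (lam : Fin 3 → ℕ) (y : Vec 3) (b : Fin 3) (m : ℤ) : ℤ :=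
  ∑ k ∈ univ.erase b, (lam k : ℤ) * max (y k) m

/-- raise the counters to `m`, the counter `b` pays; weight `S` -/
def rrQ (lam : Fin 3 → ℕ) (y : Vec 3) (b : Fin 3) (m S : ℤ) : Vec 3 :=
  fun k => if k = b then (S - rrW lam y b m) / lam b else max (y k) m

theorem rrQ_self (lam : Fin 3 → ℕ) (y : Vec 3) (b : Fin 3) (m S : ℤ) :
    rrQ lam y b m S b = (S - rrW lam y b m) / lam b := if_pos rfl

theorem rrQ_ne (lam : Fin 3 → ℕ) (y : Vec 3) {b k : Fin 3} (h : k ≠ b) (m S : ℤ) :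
    rrQ lam y b m S k = max (y k) m := if_neg h

theorem rrQ_sum (lam : Fin 3 → ℕ) (y : Vec 3) (b : Fin 3) (m S : ℤ) :
    ∑ k, (lam k : ℤ) * rrQ lam y b m S k =
      (lam b : ℤ) * ((S - rrW lam y b m) / lam b) + rrW lam y b m := by
  rw [← Finset.add_sum_erase _ _ (Finset.mem_univ b), rrQ_self]
  congr 1
  refine Finset.sum_congr rfl fun k hk => ?_
  rw [rrQ_ne lam y (Finset.ne_of_mem_erase hk)]

theorem rrQ_mass (lam : Fin 3 → ℕ) (hl : ∀ k, 1 ≤ lam k) (y : Vec 3) (b : Fin 3) (m S : ℤ) :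
    ∑ k, (lam k : ℤ) * rrQ lam y b m S k ≤ S ∧
      S < ∑ k, (lam k : ℤ) * rrQ lam y b m S k + lam b := by
  have hb : (0 : ℤ) < lam b := by exact_mod_cast hl b
  rw [rrQ_sum]
  have h1 := Int.mul_ediv_self_le (x := S - rrW lam y b m) hb.ne'
  have h2 := Int.lt_mul_ediv_self_add (x := S - rrW lam y b m) hb
  constructor <;> linarith

theorem rrW_le {K : ℕ} (lam : Fin 3 → ℕ) (hlam : ∀ k, 1 ≤ lam k ∧ lam k ≤ K) (y : Vec 3)
    (b : Fin 3) (m : ℤ) (hm : 0 ≤ m) (hy : ∀ k, 0 ≤ y k)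
    (hb : ∀ k, (lam k : ℤ) * y k ≤ lam b * y b) :
    3 * rrW lam y b m ≤ 2 * (∑ k, (lam k : ℤ) * y k) + 6 * K * m := by
  have h1 : rrW lam y b m ≤ ∑ k ∈ univ.erase b, ((lam k : ℤ) * y k + K * m) := by
    refine Finset.sum_le_sum fun k _ => ?_
    have h2 : max (y k) m ≤ y k + m := max_le (by linarith) (by linarith [hy k])
    have h3 : (lam k : ℤ) * max (y k) m ≤ lam k * (y k + m) :=
      mul_le_mul_of_nonneg_left h2 (Int.natCast_nonneg _)
    have h4 : (lam k : ℤ) * m ≤ K * m :=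
      mul_le_mul_of_nonneg_right (by exact_mod_cast (hlam k).2) hm
    linarith
  have hcard : (univ.erase b : Finset (Fin 3)).card = 2 := by
    rw [Finset.card_erase_of_mem (Finset.mem_univ b)]
    rfl
  rw [Finset.sum_add_distrib, Finset.sum_const, hcard, two_nsmul] at h1
  have h5 : ∑ k ∈ univ.erase b, (lam k : ℤ) * y k ≤
      ∑ k ∈ univ.erase b, (lam b : ℤ) * y b := Finset.sum_le_sum fun k _ => hb k
  rw [Finset.sum_const, hcard, two_nsmul] at h5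
  have h6 := Finset.add_sum_erase univ (fun k => (lam k : ℤ) * y k) (Finset.mem_univ b)
  linarith

theorem rrW_mono {K : ℕ} (lam : Fin 3 → ℕ) (hlam : ∀ k, 1 ≤ lam k ∧ lam k ≤ K) (y : Vec 3)
    (b : Fin 3) (m m' : ℤ) (hm : m ≤ m') :
    rrW lam y b m ≤ rrW lam y b m' ∧ rrW lam y b m' ≤ rrW lam y b m + 2 * K * (m' - m) := by
  have hcard : (univ.erase b : Finset (Fin 3)).card = 2 := by
    rw [Finset.card_erase_of_mem (Finset.mem_univ b)]
    rfl
  constructor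
  · exact Finset.sum_le_sum fun k _ => mul_le_mul_of_nonneg_left (max_le_max le_rfl hm)
      (Int.natCast_nonneg _)
  · have h1 : rrW lam y b m' ≤ ∑ k ∈ univ.erase b, ((lam k : ℤ) * max (y k) m + K * (m' - m)) := by
      refine Finset.sum_le_sum fun k _ => ?_
      have h2 : max (y k) m' ≤ max (y k) m + (m' - m) := by
        refine max_le ?_ ?_
        · have := le_max_left (y k) m
          linarith
        · have := le_max_right (y k) m
          linarith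
      have h3 : (lam k : ℤ) * max (y k) m' ≤ lam k * (max (y k) m + (m' - m)) :=
        mul_le_mul_of_nonneg_left h2 (Int.natCast_nonneg _)
      have h4 : (lam k : ℤ) * (m' - m) ≤ K * (m' - m) :=
        mul_le_mul_of_nonneg_right (by exact_mod_cast (hlam k).2) (by linarith)
      linarith
    rw [Finset.sum_add_distrib, Finset.sum_const, hcard, two_nsmul] at h1
    have e : rrW lam y b m = ∑ k ∈ univ.erase b, (lam k : ℤ) * max (y k) m := rfl
    rw [e]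
    linarith

/-- the raised points are deep -/
theorem rrQ_deep {K : ℕ} (lam : Fin 3 → ℕ) (hlam : ∀ k, 1 ≤ lam k ∧ lam k ≤ K) (y : Vec 3)
    (b : Fin 3) (m S X : ℤ) (hm : 0 ≤ m) (hy : ∀ k, 0 ≤ y k)
    (hb : ∀ k, (lam k : ℤ) * y k ≤ lam b * y b) (hX : X = ∑ k, (lam k : ℤ) * y k)
    (hXm : 24 * K * m ≤ X) (hS : 19 * X ≤ 20 * S) : ∀ k, m ≤ rrQ lam y b m S k := by
  intro k
  by_cases hk : k = b
  · subst hk
    rw [rrQ_self]
    have hlb : (0 : ℤ) < lam k := by exact_mod_cast (hlam k).1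
    rw [Int.le_ediv_iff_mul_le hlb]
    have h1 := rrW_le lam hlam y k m hm hy hb
    rw [← hX] at h1
    have h2 : m * lam k ≤ K * m := by
      rw [mul_comm]
      exact mul_le_mul_of_nonneg_right (by exact_mod_cast (hlam k).2) hm
    have h3 : 0 ≤ (K : ℤ) * m := mul_nonneg (Int.natCast_nonneg _) hm
    have h4 : 24 * ((K : ℤ) * m) ≤ X := by linarith
    linarith
  · rw [rrQ_ne lam y hk]
    exact le_max_right _ _

/-- consecutive raised points are close -/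
theorem rrQ_close {K : ℕ} (hK : 1000 ≤ K) (lam : Fin 3 → ℕ)
    (hlam : ∀ k, 1 ≤ lam k ∧ lam k ≤ K) (y : Vec 3) (b : Fin 3) (m S S' : ℤ)
    (hm : (K : ℤ) ^ 15 ≤ m) (hS : |S - S'| ≤ 2 * (K : ℤ) ^ 15) :
    ∀ k, |rrQ lam y b m S k - rrQ lam y b (2 * m) S' k| ≤ 4 * K * m := by
  intro k
  have hKz : (1000 : ℤ) ≤ K := by exact_mod_cast hK
  have hK15 : (1 : ℤ) ≤ K ^ 15 := one_le_pow₀ (by linarith)
  have hm0 : 0 < m := by linarith
  have hKm : m ≤ K * m := le_mul_of_one_le_left hm0.le (by linarith)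
  have hS' := abs_le.1 hS
  by_cases hk : k = b
  · subst hk
    rw [rrQ_self, rrQ_self]
    have hlb : (0 : ℤ) < lam k := by exact_mod_cast (hlam k).1
    have hl1 : (1 : ℤ) ≤ lam k := by exact_mod_cast (hlam k).1
    obtain ⟨w1, w2⟩ := rrW_mono lam hlam y k m (2 * m) (by linarith)
    have h1 := Int.mul_ediv_self_le (x := S - rrW lam y k m) hlb.ne'
    have h2 := Int.lt_mul_ediv_self_add (x := S - rrW lam y k m) hlb
    have h3 := Int.mul_ediv_self_le (x := S' - rrW lam y k (2 * m)) hlb.ne'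
    have h4 := Int.lt_mul_ediv_self_add (x := S' - rrW lam y k (2 * m)) hlb
    obtain ⟨A, hA⟩ : ∃ A, A = (S - rrW lam y k m) / (lam k : ℤ) := ⟨_, rfl⟩
    obtain ⟨C, hC⟩ : ∃ C, C = (S' - rrW lam y k (2 * m)) / (lam k : ℤ) := ⟨_, rfl⟩
    rw [← hA] at h1 h2 ⊢
    rw [← hC] at h3 h4 ⊢
    have h5 : (lam k : ℤ) * (A - C) ≤ 2 * m + 2 * (K * m) + lam k := by
      rw [mul_sub]
      linarith
    have h6 : -(2 * m + lam k) ≤ (lam k : ℤ) * (A - C) := by
      rw [mul_sub]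
      linarith
    rw [abs_le]
    constructor
    · by_contra hc
      have h7 : A - C ≤ -(4 * K * m) - 1 := by
        have := not_le.1 hc
        omega
      have h8 : (lam k : ℤ) * (A - C) ≤ lam k * (-(4 * K * m) - 1) :=
        mul_le_mul_of_nonneg_left h7 hlb.le
      have h9 : 4 * (K : ℤ) * m ≤ lam k * (4 * K * m) :=
        le_mul_of_one_le_left (by positivity) hl1
      nlinarith
    · by_contra hc
      have h7 : 4 * K * m + 1 ≤ A - C := by
        have := not_le.1 hc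
        omega
      have h8 : (lam k : ℤ) * (4 * K * m + 1) ≤ lam k * (A - C) :=
        mul_le_mul_of_nonneg_left h7 hlb.le
      have h9 : 4 * (K : ℤ) * m ≤ lam k * (4 * K * m) :=
        le_mul_of_one_le_left (by positivity) hl1
      nlinarith
  · rw [rrQ_ne lam y hk, rrQ_ne lam y hk]
    have h1 : max (y k) m ≤ max (y k) (2 * m) := max_le_max le_rfl (by linarith)
    have h2 : max (y k) (2 * m) ≤ max (y k) m + m := by
      refine max_le ?_ ?_
      · have := le_max_left (y k) m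
        linarith
      · have := le_max_right (y k) m
        linarith
    rw [abs_le]
    constructor <;> linarith

/-- the start of the ray -/
theorem rrQ_start (lam : Fin 3 → ℕ) (hl : ∀ k, 1 ≤ lam k) (y : Vec 3) (b : Fin 3) (m : ℤ)
    (hy : ∀ k, m ≤ y k) : rrQ lam y b m (∑ k, (lam k : ℤ) * y k) = y := by
  have hW : rrW lam y b m = ∑ k ∈ univ.erase b, (lam k : ℤ) * y k :=
    Finset.sum_congr rfl fun k _ => by rw [max_eq_left (hy k)]
  funext k
  by_cases hk : k = b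
  · subst hk
    rw [rrQ_self, hW, ← Finset.add_sum_erase _ _ (Finset.mem_univ k), add_sub_cancel_right]
    have hlb : (lam k : ℤ) ≠ 0 := by
      have := hl k
      have : (1 : ℤ) ≤ lam k := by exact_mod_cast this
      linarith
    exact Int.mul_ediv_cancel_left _ hlb
  · rw [rrQ_ne lam y hk, max_eq_left (hy k)]

theorem rr_pow {K : ℕ} (hK : 1000 ≤ K) {a b : ℕ} (h : a ≤ b) : (K : ℤ) ^ a ≤ K ^ b := by
  have hKz : (1000 : ℤ) ≤ K := by exact_mod_cast hK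
  exact pow_le_pow_right₀ (by linarith) h

/-- one doubling -/
theorem rr_dbl {K : ℕ} {lam : Fin 3 → ℕ} {Mv : ℕ → Vec 3 → Vec 3 → Prop}
    (h : RrSys K lam Mv) (hK : 1000 ≤ K) (hlam : ∀ k, 1 ≤ lam k ∧ lam k ≤ K)
    (m : ℕ) (hm : K ^ 15 ≤ m) (x x' : Vec 3) (hx : ∀ k, (m : ℤ) ≤ x k)
    (hx' : ∀ k, (m : ℤ) ≤ x' k) (hd : ∀ k, |x k - x' k| ≤ 4 * K * m)
    (hmass : ∑ k, (lam k : ℤ) * x' k + (K : ℤ) ^ 15 ≤ ∑ k, (lam k : ℤ) * x k) :
    Mv (K ^ 7 * m) x x' := by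
  have hK1 : 1 ≤ K := by omega
  have e8 : K ^ 8 ≤ m := le_trans (Nat.pow_le_pow_right hK1 (by norm_num)) hm
  have h1 := rr_line h hK hlam x x' m (4 * K * m) e8 hx hx'
    (fun k => by have := hd k; push_cast; exact this)
    (by
      have : 4 * K ≤ K ^ 2 := by nlinarith
      exact Nat.mul_le_mul_right _ this) hmass
  refine h.mono _ _ _ _ ?_ h1
  have e1 : 3 * K ^ 14 ≤ m := by
    have : 3 * K ^ 14 ≤ K ^ 15 := by
      rw [pow_succ K 14]
      nlinarith [Nat.pos_of_ne_zero (pow_ne_zero 14 (by omega : K ≠ 0))]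
    exact this.trans hm
  have e2 : K ^ 4 * (4 * K * m + 3 * K ^ 10) = 4 * K ^ 5 * m + 3 * K ^ 14 := by ring
  have e3 : K ^ 7 * m = K ^ 2 * (K ^ 5 * m) := by ring
  have e4 : 1000 * 1000 ≤ K ^ 2 := by rw [pow_two]; exact Nat.mul_le_mul hK hK
  have e5 : m ≤ K ^ 5 * m := Nat.le_mul_of_pos_left _ (pow_pos (by omega) 5)
  rw [e2, e3]
  have e6 : 1000 * 1000 * (K ^ 5 * m) ≤ K ^ 2 * (K ^ 5 * m) := Nat.mul_le_mul_right _ e4
  have e7 : 4 * K ^ 5 * m = 4 * (K ^ 5 * m) := by ring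
  omega

theorem rr_fwd {K : ℕ} {lam : Fin 3 → ℕ} {Mv : ℕ → Vec 3 → Vec 3 → Prop}
    (h : RrSys K lam Mv) (hK : 1000 ≤ K) (hlam : ∀ k, 1 ≤ lam k ∧ lam k ≤ K)
    (m₀ : ℕ) (hm0 : K ^ 15 ≤ m₀) (y : Vec 3) (hy : ∀ k, (m₀ : ℤ) ≤ y k) (b : Fin 3)
    (hb : ∀ k, (lam k : ℤ) * y k ≤ lam b * y b) (X : ℤ) (hX : X = ∑ k, (lam k : ℤ) * y k) :
    ∀ J : ℕ, 24 * (K : ℤ) * (2 ^ J * m₀ : ℕ) ≤ X → 20 * ((J : ℤ) + 1) * (2 * (K : ℤ) ^ 15) ≤ X →
      Mv (K ^ 7 * (2 ^ J * m₀)) y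
        (rrQ lam y b ((2 ^ J * m₀ : ℕ) : ℤ) (X - J * (2 * (K : ℤ) ^ 15))) := by
  have hKz : (1000 : ℤ) ≤ K := by exact_mod_cast hK
  have hK0 : (0 : ℤ) ≤ K := by linarith
  have hm00 : (0 : ℤ) ≤ m₀ := Int.natCast_nonneg _
  have hy0 : ∀ k, 0 ≤ y k := fun k => hm00.trans (hy k)
  have hP : (0 : ℤ) ≤ (K : ℤ) ^ 15 := by positivity
  have hKP : (K : ℤ) ≤ K ^ 15 := by
    have := rr_pow hK (show 1 ≤ 15 by norm_num)
    simpa using this
  intro J
  induction J with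
  | zero =>
    intro _ _
    have e : rrQ lam y b ((2 ^ 0 * m₀ : ℕ) : ℤ) (X - ((0 : ℕ) : ℤ) * (2 * (K : ℤ) ^ 15)) = y := by
      rw [pow_zero, one_mul, Nat.cast_zero, zero_mul, sub_zero, hX]
      exact rrQ_start lam (fun k => (hlam k).1) y b m₀ hy
    rw [e]
    exact h.mono _ _ _ _ (Nat.zero_le _) (h.refl y y le_rfl)
  | succ J ih =>
    intro h1 h2
    obtain ⟨m, hm⟩ : ∃ m : ℕ, m = 2 ^ J * m₀ := ⟨_, rfl⟩
    have e2m : 2 ^ (J + 1) * m₀ = 2 * m := by rw [hm, pow_succ]; ring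
    have hmge : K ^ 15 ≤ m := by
      rw [hm]
      exact hm0.trans (Nat.le_mul_of_pos_left _ (by positivity))
    have hmz : (K : ℤ) ^ 15 ≤ m := by exact_mod_cast hmge
    have hmz0 : (0 : ℤ) ≤ m := Int.natCast_nonneg _
    rw [e2m] at h1 ⊢
    push_cast at h1 h2 ⊢
    have hKm : 0 ≤ (K : ℤ) * m := mul_nonneg hK0 hmz0
    have h1' : 24 * (K : ℤ) * m ≤ X := by nlinarith
    have h2' : 20 * ((J : ℤ) + 1) * (2 * (K : ℤ) ^ 15) ≤ X := by nlinarith
    have h2'' : 20 * (J : ℤ) * (2 * (K : ℤ) ^ 15) ≤ X := by nlinarith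
    rw [← hm] at ih
    have h3 := ih h1' h2'
    obtain ⟨S, hS⟩ : ∃ S : ℤ, S = X - J * (2 * (K : ℤ) ^ 15) := ⟨_, rfl⟩
    obtain ⟨S', hS'⟩ : ∃ S' : ℤ, S' = X - (J + 1) * (2 * (K : ℤ) ^ 15) := ⟨_, rfl⟩
    rw [← hS] at h3
    rw [← hS']
    have hSS : S - S' = 2 * (K : ℤ) ^ 15 := by rw [hS, hS']; ring
    have d1 := rrQ_deep lam hlam y b m S X hmz0 hy0 hb hX h1' (by rw [hS]; linarith)
    have d2 := rrQ_deep lam hlam y b (2 * m) S' X (by linarith) hy0 hb hX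
      (by linarith) (by rw [hS']; linarith)
    have d3 := rrQ_close hK lam hlam y b m S S' hmz (by
      rw [hSS, abs_of_nonneg (by positivity)])
    obtain ⟨q1, q2⟩ := rrQ_mass lam (fun k => (hlam k).1) y b m S
    obtain ⟨q3, q4⟩ := rrQ_mass lam (fun k => (hlam k).1) y b (2 * m) S'
    have hlb : (lam b : ℤ) ≤ K := by exact_mod_cast (hlam b).2
    have h4 := rr_dbl h hK hlam m hmge _ _ d1 (fun k => by have := d2 k; linarith) d3
      (by linarith)
    have h5 := h.trans _ _ _ _ _ h3 h4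
    refine h.mono _ _ _ _ ?_ h5
    exact le_of_eq (by ring)

theorem rr_bwd {K : ℕ} {lam : Fin 3 → ℕ} {Mv : ℕ → Vec 3 → Vec 3 → Prop}
    (h : RrSys K lam Mv) (hK : 1000 ≤ K) (hlam : ∀ k, 1 ≤ lam k ∧ lam k ≤ K)
    (m₀ : ℕ) (hm0 : K ^ 15 ≤ m₀) (y : Vec 3) (hy : ∀ k, (m₀ : ℤ) ≤ y k) (b : Fin 3)
    (hb : ∀ k, (lam k : ℤ) * y k ≤ lam b * y b) (X : ℤ) (hX : X = ∑ k, (lam k : ℤ) * y k) :
    ∀ J : ℕ, 24 * (K : ℤ) * (2 ^ J * m₀ : ℕ) ≤ X →
      Mv (K ^ 7 * (2 ^ J * m₀))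
        (rrQ lam y b ((2 ^ J * m₀ : ℕ) : ℤ) (X + J * (2 * (K : ℤ) ^ 15))) y := by
  have hKz : (1000 : ℤ) ≤ K := by exact_mod_cast hK
  have hK0 : (0 : ℤ) ≤ K := by linarith
  have hm00 : (0 : ℤ) ≤ m₀ := Int.natCast_nonneg _
  have hy0 : ∀ k, 0 ≤ y k := fun k => hm00.trans (hy k)
  have hP : (0 : ℤ) ≤ (K : ℤ) ^ 15 := by positivity
  have hKP : (K : ℤ) ≤ K ^ 15 := by
    have := rr_pow hK (show 1 ≤ 15 by norm_num)
    simpa using this
  intro J
  induction J with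
  | zero =>
    intro _
    have e : rrQ lam y b ((2 ^ 0 * m₀ : ℕ) : ℤ) (X + ((0 : ℕ) : ℤ) * (2 * (K : ℤ) ^ 15)) = y := by
      rw [pow_zero, one_mul, Nat.cast_zero, zero_mul, add_zero, hX]
      exact rrQ_start lam (fun k => (hlam k).1) y b m₀ hy
    rw [e]
    exact h.mono _ _ _ _ (Nat.zero_le _) (h.refl y y le_rfl)
  | succ J ih =>
    intro h1
    obtain ⟨m, hm⟩ : ∃ m : ℕ, m = 2 ^ J * m₀ := ⟨_, rfl⟩
    have e2m : 2 ^ (J + 1) * m₀ = 2 * m := by rw [hm, pow_succ]; ring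
    have hmge : K ^ 15 ≤ m := by
      rw [hm]
      exact hm0.trans (Nat.le_mul_of_pos_left _ (by positivity))
    have hmz : (K : ℤ) ^ 15 ≤ m := by exact_mod_cast hmge
    have hmz0 : (0 : ℤ) ≤ m := Int.natCast_nonneg _
    rw [e2m] at h1 ⊢
    push_cast at h1 ⊢
    have hKm : 0 ≤ (K : ℤ) * m := mul_nonneg hK0 hmz0
    have h1' : 24 * (K : ℤ) * m ≤ X := by nlinarith
    have hX0 : 0 ≤ X := by nlinarith
    rw [← hm] at ih
    have h3 := ih h1'
    obtain ⟨S, hS⟩ : ∃ S : ℤ, S = X + J * (2 * (K : ℤ) ^ 15) := ⟨_, rfl⟩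
    obtain ⟨S', hS'⟩ : ∃ S' : ℤ, S' = X + (J + 1) * (2 * (K : ℤ) ^ 15) := ⟨_, rfl⟩
    rw [← hS] at h3
    rw [← hS']
    have hSS : S' - S = 2 * (K : ℤ) ^ 15 := by rw [hS, hS']; ring
    have hSX : X ≤ S := by
      rw [hS]
      have : 0 ≤ (J : ℤ) * (2 * (K : ℤ) ^ 15) := by positivity
      linarith
    have d1 := rrQ_deep lam hlam y b m S X hmz0 hy0 hb hX h1' (by linarith)
    have d2 := rrQ_deep lam hlam y b (2 * m) S' X (by linarith) hy0 hb hX
      (by linarith) (by linarith)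
    have d3 := rrQ_close hK lam hlam y b m S S' hmz (by
      rw [abs_sub_comm, hSS, abs_of_nonneg (by positivity)])
    obtain ⟨q1, q2⟩ := rrQ_mass lam (fun k => (hlam k).1) y b m S
    obtain ⟨q3, q4⟩ := rrQ_mass lam (fun k => (hlam k).1) y b (2 * m) S'
    have hlb : (lam b : ℤ) ≤ K := by exact_mod_cast (hlam b).2
    have h4 := rr_dbl h hK hlam m hmge _ _ (fun k => by have := d2 k; linarith) d1
      (fun k => by rw [abs_sub_comm]; exact d3 k)
      (by linarith)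
    have h5 := h.trans _ _ _ _ _ h4 h3
    refine h.mono _ _ _ _ ?_ h5
    exact le_of_eq (by ring)

theorem rr_argmax (lam : Fin 3 → ℕ) (y : Vec 3) :
    ∃ b : Fin 3, ∀ k, (lam k : ℤ) * y k ≤ lam b * y b := by
  obtain ⟨b, _, hb⟩ := Finset.exists_max_image (univ : Finset (Fin 3))
    (fun k => (lam k : ℤ) * y k) ⟨0, mem_univ 0⟩
  exact ⟨b, fun k => hb k (mem_univ k)⟩

/-- the number of doublings -/
theorem rr_log {K m₀ : ℕ} (hK : 1000 ≤ K) (hm0 : 1 ≤ m₀) (X : ℕ) (hX : 24 * K * m₀ ≤ X) :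
    ∃ J : ℕ, 24 * K * (2 ^ J * m₀) ≤ X ∧ X < 48 * K * (2 ^ J * m₀) := by
  obtain ⟨d, hd⟩ : ∃ d : ℕ, d = 24 * K * m₀ := ⟨_, rfl⟩
  have hd0 : 0 < d := by rw [hd]; positivity
  rw [← hd] at hX
  refine ⟨Nat.log 2 (X / d), ?_, ?_⟩
  · have h1 := Nat.pow_log_le_self 2 (x := X / d) (Nat.div_pos hX hd0).ne'
    have h2 : d * 2 ^ Nat.log 2 (X / d) ≤ X :=
      (Nat.mul_le_mul_left d h1).trans (Nat.mul_div_le X d)
    calc 24 * K * (2 ^ Nat.log 2 (X / d) * m₀) = d * 2 ^ Nat.log 2 (X / d) := by rw [hd]; ring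
      _ ≤ X := h2
  · have h1 := Nat.lt_pow_succ_log_self (b := 2) (by norm_num) (X / d)
    have h2 : X < 2 ^ (Nat.log 2 (X / d) + 1) * d := (Nat.div_lt_iff_lt_mul hd0).1 h1
    calc X < 2 ^ (Nat.log 2 (X / d) + 1) * d := h2
      _ = 48 * K * (2 ^ Nat.log 2 (X / d) * m₀) := by rw [hd, pow_succ]; ring

theorem rr_single (lam : Fin 3 → ℕ) (hlam : ∀ k, 1 ≤ lam k) (x : Vec 3) (hx : ∀ k, 0 ≤ x k)
    (k : Fin 3) : x k ≤ ∑ k, (lam k : ℤ) * x k := by
  have h1 : (lam k : ℤ) * x k ≤ ∑ k, (lam k : ℤ) * x k :=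
    Finset.single_le_sum (f := fun k => (lam k : ℤ) * x k)
      (fun i _ => mul_nonneg (Int.natCast_nonneg _) (hx i)) (mem_univ k)
  have h2 : x k ≤ (lam k : ℤ) * x k :=
    le_mul_of_one_le_left (hx k) (by exact_mod_cast hlam k)
  exact h2.trans h1

theorem rr_main {K : ℕ} {lam : Fin 3 → ℕ} {Mv : ℕ → Vec 3 → Vec 3 → Prop}
    (h : RrSys K lam Mv) (hK : 1000 ≤ K) (hlam : ∀ k, 1 ≤ lam k ∧ lam k ≤ K)
    (y z : Vec 3) (hy : ∀ k, (K : ℤ) ^ 15 ≤ y k) (hz : ∀ k, (K : ℤ) ^ 15 ≤ z k)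
    (X E : ℕ) (hX : (X : ℤ) = ∑ k, (lam k : ℤ) * y k) (hE : X < 2 ^ E)
    (hm : ∑ k, (lam k : ℤ) * z k + (K : ℤ) ^ 18 * E ≤ X) : Mv (K ^ 8 * X) y z := by
  have hKz : (1000 : ℤ) ≤ K := by exact_mod_cast hK
  have hK0 : (0 : ℤ) ≤ K := by linarith
  have hP : (1 : ℤ) ≤ (K : ℤ) ^ 15 := one_le_pow₀ (by linarith)
  have hKP : (K : ℤ) ≤ K ^ 15 := by
    have := rr_pow hK (show 1 ≤ 15 by norm_num)
    simpa using this
  have hlam1 : ∀ k, 1 ≤ lam k := fun k => (hlam k).1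
  have hy0 : ∀ k, 0 ≤ y k := fun k => by linarith [hy k]
  have hz0 : ∀ k, 0 ≤ z k := fun k => by linarith [hz k]
  have hZ0 : 0 ≤ ∑ k, (lam k : ℤ) * z k := (hz0 0).trans (rr_single lam hlam1 z hz0 0)
  have hX1 : 1 ≤ X := by
    have h1 := (hy 0).trans (rr_single lam hlam1 y hy0 0)
    rw [← hX] at h1
    have : (1 : ℤ) ≤ X := by linarith
    exact_mod_cast this
  have hE1 : 1 ≤ E := by
    rcases Nat.eq_zero_or_pos E with h0 | h0
    · rw [h0] at hE
      simp at hE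
      omega
    · exact h0
  have hEz : (1 : ℤ) ≤ E := by exact_mod_cast hE1
  -- powers in units of `P = K ^ 15`
  obtain ⟨P, hPd⟩ : ∃ P : ℤ, P = (K : ℤ) ^ 15 := ⟨_, rfl⟩
  have e16 : (K : ℤ) ^ 16 = K * P := by rw [hPd]; ring
  have e18 : (K : ℤ) ^ 18 = K ^ 3 * P := by rw [hPd]; ring
  have hK3 : 1000 * (1000 * (K : ℤ)) ≤ K ^ 3 := by
    have : (K : ℤ) ^ 3 = K * (K * K) := by ring
    rw [this]
    have h1 : 1000 * (K : ℤ) ≤ K * K := mul_le_mul_of_nonneg_right hKz hK0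
    have h2 : 1000 * (1000 * (K : ℤ)) ≤ 1000 * (K * K) := by linarith
    have h3 : 1000 * ((K : ℤ) * K) ≤ K * (K * K) :=
      mul_le_mul_of_nonneg_right hKz (mul_nonneg hK0 hK0)
    linarith
  rw [← hPd] at hP hKP hy hz
  obtain ⟨W, hW⟩ : ∃ W : ℤ, W = P * E := ⟨_, rfl⟩
  have hPW : P ≤ W := by
    rw [hW]
    exact le_mul_of_one_le_right (by linarith) hEz
  have hW0 : 0 ≤ W := by linarith
  obtain ⟨Γ, hΓ⟩ : ∃ Γ : ℤ, Γ = K * W := ⟨_, rfl⟩
  have hΓW : 1000 * W ≤ Γ := by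
    rw [hΓ]
    exact mul_le_mul_of_nonneg_right hKz hW0
  have hXW : 1000 * (1000 * (K * W)) ≤ X := by
    have h1 : (K : ℤ) ^ 18 * E = K ^ 3 * W := by rw [e18, hW]; ring
    have h2 : 1000 * (1000 * (K : ℤ)) * W ≤ K ^ 3 * W := mul_le_mul_of_nonneg_right hK3 hW0
    have h3 : 1000 * (1000 * (K : ℤ)) * W = 1000 * (1000 * (K * W)) := by ring
    linarith
  have hm' : ∑ k, (lam k : ℤ) * z k + 1000 * (1000 * Γ) ≤ X := by
    have h1 : (K : ℤ) ^ 18 * E = K ^ 3 * W := by rw [e18, hW]; ring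
    have h2 : 1000 * (1000 * (K : ℤ)) * W ≤ K ^ 3 * W := mul_le_mul_of_nonneg_right hK3 hW0
    have h3 : 1000 * (1000 * (K : ℤ)) * W = 1000 * (1000 * (K * W)) := by ring
    rw [hΓ]
    linarith
  -- padding
  have hl0 : (0 : ℤ) < lam 0 := by exact_mod_cast hlam1 0
  have hl0K : (lam 0 : ℤ) ≤ K := by exact_mod_cast (hlam 0).2
  obtain ⟨t, ht⟩ : ∃ t : ℤ, t = (X - Γ - ∑ k, (lam k : ℤ) * z k) / lam 0 := ⟨_, rfl⟩
  have ht0 : 0 ≤ t := by
    rw [ht]
    exact Int.ediv_nonneg (by linarith) hl0.le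
  have ht1 : lam 0 * t ≤ X - Γ - ∑ k, (lam k : ℤ) * z k := by
    rw [ht]
    exact Int.mul_ediv_self_le hl0.ne'
  have ht2 : X - Γ - ∑ k, (lam k : ℤ) * z k < lam 0 * t + lam 0 := by
    rw [ht]
    exact Int.lt_mul_ediv_self_add hl0
  obtain ⟨z', hz'⟩ : ∃ z' : Vec 3, z' = fun k => if k = 0 then z k + t else z k := ⟨_, rfl⟩
  have hzz : z ≤ z' := by
    intro k
    rw [hz']
    by_cases hk : k = 0
    · simp [hk, ht0]
    · simp [hk]
  have hz'P : ∀ k, P ≤ z' k := fun k => (hz k).trans (hzz k)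
  have hz'0 : ∀ k, 0 ≤ z' k := fun k => (hz0 k).trans (hzz k)
  obtain ⟨Z, hZ⟩ : ∃ Z : ℤ, Z = ∑ k, (lam k : ℤ) * z' k := ⟨_, rfl⟩
  have hZe : Z = ∑ k, (lam k : ℤ) * z k + lam 0 * t := by
    rw [hZ, hz', Fin.sum_univ_three, Fin.sum_univ_three]
    simp
    ring
  have hZ1 : Z ≤ X - Γ := by linarith
  have hZ2 : X - Γ - K < Z := by linarith
  have hZpos : 0 ≤ Z := by linarith
  obtain ⟨Zn, hZn⟩ := Int.eq_ofNat_of_zero_le hZpos
  -- numbers of doublings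
  obtain ⟨m₀, hm0⟩ : ∃ m₀ : ℕ, m₀ = K ^ 15 := ⟨_, rfl⟩
  have hm01 : 1 ≤ m₀ := by rw [hm0]; exact Nat.one_le_pow _ _ (by omega)
  have hm0z : (m₀ : ℤ) = P := by rw [hm0, hPd]; push_cast; ring
  have hKPW : K * P ≤ K * W := mul_le_mul_of_nonneg_left hPW hK0
  have hKP0 : 0 ≤ K * P := mul_nonneg hK0 (by linarith)
  have hbig : 24 * K * m₀ ≤ X := by
    have : 24 * (K : ℤ) * m₀ ≤ X := by
      rw [hm0z]
      linarith
    exact_mod_cast this
  have hbigZ : 24 * K * m₀ ≤ Zn := by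
    have : 24 * (K : ℤ) * m₀ ≤ Zn := by
      rw [hm0z]
      have : Z = (Zn : ℤ) := hZn
      linarith
    exact_mod_cast this
  obtain ⟨J, hJ1, hJ2⟩ := rr_log hK hm01 X hbig
  obtain ⟨J', hJ'1, hJ'2⟩ := rr_log hK hm01 Zn hbigZ
  have hZX : Zn ≤ X := by
    have : Z = (Zn : ℤ) := hZn
    have : (Zn : ℤ) ≤ X := by linarith
    exact_mod_cast this
  have hJE : ∀ (J Y : ℕ), 24 * K * (2 ^ J * m₀) ≤ Y → Y ≤ X → J + 1 ≤ E := by
    intro J Y h1 h2
    have h3 : 2 ^ J ≤ 24 * K * (2 ^ J * m₀) := by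
      calc 2 ^ J = 1 * (2 ^ J * 1) := by ring
        _ ≤ 24 * K * (2 ^ J * m₀) := Nat.mul_le_mul (by omega) (Nat.mul_le_mul_left _ hm01)
    have h4 : 2 ^ J < 2 ^ E := by omega
    exact (Nat.pow_lt_pow_iff_right (by norm_num)).1 h4
  have hJE1 := hJE J X hJ1 le_rfl
  have hJE2 := hJE J' Zn hJ'1 hZX
  have hJz : (J : ℤ) + 1 ≤ E := by exact_mod_cast hJE1
  have hJz' : (J' : ℤ) + 1 ≤ E := by exact_mod_cast hJE2
  have hJW : ((J : ℤ) + 1) * P ≤ W := by
    rw [hW, mul_comm P]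
    exact mul_le_mul_of_nonneg_right hJz (by linarith)
  have hJW' : ((J' : ℤ) + 1) * P ≤ W := by
    rw [hW, mul_comm P]
    exact mul_le_mul_of_nonneg_right hJz' (by linarith)
  have hWK : W ≤ K * W := le_mul_of_one_le_left hW0 (by linarith)
  obtain ⟨m, hmd⟩ : ∃ m : ℕ, m = 2 ^ J * m₀ := ⟨_, rfl⟩
  obtain ⟨m', hmd'⟩ : ∃ m' : ℕ, m' = 2 ^ J' * m₀ := ⟨_, rfl⟩
  have hmm0 : m₀ ≤ m := by rw [hmd]; exact Nat.le_mul_of_pos_left _ (by positivity)
  have hmm0' : m₀ ≤ m' := by rw [hmd']; exact Nat.le_mul_of_pos_left _ (by positivity)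
  rw [← hmd] at hJ1 hJ2
  rw [← hmd'] at hJ'1 hJ'2
  have hJ1z : 24 * (K : ℤ) * m ≤ X := by exact_mod_cast hJ1
  have hJ1z' : 24 * (K : ℤ) * m' ≤ Z := by rw [hZn]; exact_mod_cast hJ'1
  obtain ⟨b, hb⟩ := rr_argmax lam y
  obtain ⟨b', hb'⟩ := rr_argmax lam z'
  have f1 := rr_fwd h hK hlam m₀ hm0.ge y (fun k => by rw [hm0z]; exact hy k) b hb X hX J
    (by rw [← hmd]; exact hJ1z) (by
      rw [← hPd]
      have e : 20 * ((J : ℤ) + 1) * (2 * P) = 40 * (((J : ℤ) + 1) * P) := by ring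
      rw [e]
      linarith)
  have f2 := rr_bwd h hK hlam m₀ hm0.ge z' (fun k => by rw [hm0z]; exact hz'P k) b' hb' Z hZ J'
    (by rw [← hmd']; exact hJ1z')
  rw [← hmd, ← hPd] at f1
  rw [← hmd', ← hPd] at f2
  obtain ⟨S, hS⟩ : ∃ S : ℤ, S = X - J * (2 * P) := ⟨_, rfl⟩
  obtain ⟨S', hS'⟩ : ∃ S' : ℤ, S' = Z + J' * (2 * P) := ⟨_, rfl⟩
  rw [← hS] at f1
  rw [← hS'] at f2
  have hSX : S ≤ X := by
    have : 0 ≤ (J : ℤ) * (2 * P) := mul_nonneg (Int.natCast_nonneg _) (by linarith)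
    linarith
  have hS1 : X - 2 * W ≤ S := by
    rw [hS]
    have : ((J : ℤ) + 1) * P = J * P + P := by ring
    linarith
  have hS'1 : Z ≤ S' := by
    have : 0 ≤ (J' : ℤ) * (2 * P) := mul_nonneg (Int.natCast_nonneg _) (by linarith)
    linarith
  have hS'2 : S' ≤ Z + 2 * W := by
    rw [hS']
    have : ((J' : ℤ) + 1) * P = J' * P + P := by ring
    linarith
  obtain ⟨q1, q2⟩ := rrQ_mass lam hlam1 y b m S
  obtain ⟨q3, q4⟩ := rrQ_mass lam hlam1 z' b' m' S'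
  have hlb : (lam b : ℤ) ≤ K := by exact_mod_cast (hlam b).2
  have hm0' : (0 : ℤ) ≤ m := Int.natCast_nonneg _
  have hm0'' : (0 : ℤ) ≤ m' := Int.natCast_nonneg _
  have d1 := rrQ_deep lam hlam y b m S X hm0' hy0 hb hX hJ1z (by linarith)
  have d2 := rrQ_deep lam hlam z' b' m' S' Z hm0'' hz'0 hb' hZ hJ1z' (by linarith)
  have d3 := fun k => rr_single lam hlam1 (rrQ lam y b m S) (fun k => hm0'.trans (d1 k)) k
  have d4 := fun k => rr_single lam hlam1 (rrQ lam z' b' m' S') (fun k => hm0''.trans (d2 k)) k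
  have hKK : ∀ u : ℕ, 96 * K * u ≤ K ^ 2 * u := fun u =>
    Nat.mul_le_mul_right _ (by nlinarith)
  have hX2 : X ≤ K ^ 2 * m := by
    have := hKK m
    have e : 48 * K * m ≤ 96 * K * m := Nat.mul_le_mul_right _ (by omega)
    omega
  have hX2' : X ≤ K ^ 2 * m' := by
    have := hKK m'
    have e : (X : ℤ) ≤ 2 * Zn := by
      have : Z = (Zn : ℤ) := hZn
      linarith
    have e' : X ≤ 2 * Zn := by exact_mod_cast e
    have e2 : 96 * K * m' = 2 * (48 * K * m') := by ring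
    omega
  have f3 := rr_line h hK hlam (rrQ lam y b m S) (rrQ lam z' b' m' S') (min m m') X
    (by
      refine le_min ?_ ?_
      · refine le_trans ?_ hmm0
        rw [hm0]
        exact Nat.pow_le_pow_right (by omega) (by norm_num)
      · refine le_trans ?_ hmm0'
        rw [hm0]
        exact Nat.pow_le_pow_right (by omega) (by norm_num))
    (fun k => by
      have := d1 k
      have h2 : ((min m m' : ℕ) : ℤ) ≤ m := by exact_mod_cast min_le_left m m'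
      linarith)
    (fun k => by
      have := d2 k
      have h2 : ((min m m' : ℕ) : ℤ) ≤ m' := by exact_mod_cast min_le_right m m'
      linarith)
    (fun k => by
      have h1 := d1 k
      have h2 := d2 k
      have h3 := d3 k
      have h4 := d4 k
      rw [abs_le]
      constructor <;> linarith)
    (by
      rcases min_choice m m' with h5 | h5 <;> rw [h5]
      · exact hX2
      · exact hX2')
    (by rw [← hPd]; linarith)
  have f4 := h.trans _ _ _ _ _ (h.trans _ _ _ _ _ (h.trans _ _ _ _ _ f1 f3) f2)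
    (h.refl z' z hzz)
  refine h.mono _ _ _ _ ?_ f4
  have g1 : m ≤ X := by
    refine le_trans ?_ hJ1
    exact Nat.le_mul_of_pos_left _ (by positivity)
  have g2 : m' ≤ X := by
    refine le_trans ?_ (hJ'1.trans hZX)
    exact Nat.le_mul_of_pos_left _ (by positivity)
  have g3 : K ^ 10 ≤ X := by
    have : K ^ 10 ≤ m := by
      refine le_trans ?_ hmm0
      rw [hm0]
      exact Nat.pow_le_pow_right (by omega) (by norm_num)
    omega
  have g4 : K ^ 4 * (X + 3 * K ^ 10) ≤ K ^ 4 * (4 * X) := Nat.mul_le_mul_left _ (by omega)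
  have g5 : K ^ 7 * m ≤ K ^ 7 * X := Nat.mul_le_mul_left _ g1
  have g6 : K ^ 7 * m' ≤ K ^ 7 * X := Nat.mul_le_mul_left _ g2
  have g7 : K ^ 4 * (4 * X) ≤ K ^ 7 * (4 * X) :=
    Nat.mul_le_mul_right _ (Nat.pow_le_pow_right (by omega) (by norm_num))
  have g8 : K ^ 8 * X = K * (K ^ 7 * X) := by ring
  have g9 : 1000 * (K ^ 7 * X) ≤ K * (K ^ 7 * X) := Nat.mul_le_mul_right _ hK
  have g10 : K ^ 7 * (4 * X) = 4 * (K ^ 7 * X) := by ring
  omega

theorem rr_consts {n M : ℕ} (hn : 1 ≤ n) : 1000 ≤ cTo n M ∧ cLam n M ≤ cTo n M ∧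
    n * M ≤ cTo n M ∧ n ≤ cTo n M ∧ cRr n M = cTo n M ^ 250 := by
  have h8 : 8 ≤ 8 * n * (M + 1) := by
    have := Nat.mul_le_mul (Nat.mul_le_mul_left 8 hn) (Nat.succ_le_succ (Nat.zero_le M))
    simpa using this
  unfold cTo cLam cRr
  obtain ⟨X, hX⟩ : ∃ X, X = 8 * n * (M + 1) := ⟨_, rfl⟩
  have hX1 : X ≤ X ^ 4000 := Nat.le_self_pow (by norm_num) X
  have hnM : n * M ≤ X := by
    rw [hX]
    nlinarith
  have hnX : n ≤ X := by
    rw [hX]
    nlinarith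
  rw [← hX] at h8 ⊢
  refine ⟨?_, Nat.pow_le_pow_right (by omega) (by norm_num), hnM.trans hX1, hnX.trans hX1, ?_⟩
  · calc 1000 ≤ 8 ^ 4 := by norm_num
      _ ≤ X ^ 4 := Nat.pow_le_pow_left h8 4
      _ ≤ X ^ 4000 := Nat.pow_le_pow_right (by omega) (by norm_num)
  · rw [← pow_mul]

/-- the moves given by closed walks at `q` -/
def rrMv {Q : Type} (T : VASS Q 3) (q : Q) (L : ℕ) (x z : Vec 3) : Prop :=
  ∃ w, Walk T q w q ∧ w.length ≤ L ∧ Ok x w ∧ z ≤ x + w.sum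

theorem rr_sys {Q : Type} [Fintype Q] {T : VASS Q 3} {p₀ : Q} {lam : Fin 3 → ℕ}
    (hlam : ∀ k, 1 ≤ lam k) (hb : ∀ k, lam k ≤ cLam (Fintype.card Q) (maxNorm T))
    (hc : ∀ r u, InS T p₀ r → Walk T r u r → ∑ k, (lam k : ℤ) * u.sum k ≤ 0)
    (hw : ¬ WedgeAt T p₀) {q : Q} (hq : InS T p₀ q) :
    RrSys (cTo (Fintype.card Q) (maxNorm T)) lam (rrMv T q) where
  refl := fun y z h => ⟨[], .nil _, le_rfl, trivial, by simpa using h⟩
  trans := by
    rintro L L' x y z ⟨w, h1, h2, h3, h4⟩ ⟨w', h1', h2', h3', h4'⟩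
    refine ⟨w ++ w', h1.append h1', ?_, ?_, ?_⟩
    · rw [List.length_append]
      exact Nat.add_le_add h2 h2'
    · exact (Ok_append _ _ _).2 ⟨h3, ok_mono h3' h4⟩
    · rw [List.sum_append, ← add_assoc]
      exact h4'.trans (add_le_add h4 le_rfl)
  mono := by
    rintro L L' x y hL ⟨w, h1, h2, h3, h4⟩
    exact ⟨w, h1, h2.trans hL, h3, h4⟩
  tour := by
    intro a b hab
    obtain ⟨c, l, h1, h2, h3, h4, h5⟩ := tour3 ⟨0, by have := hlam 0; omega⟩ hb hc hw hab hq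
    refine ⟨c, l, h1, h2, h3, h4, fun t x hx => ?_⟩
    obtain ⟨w, g1, g2, g3, g4⟩ := h5 t
    refine ⟨w, g1, g2, g4 x hx, fun k => ?_⟩
    show x k + l k + (c * t : ℕ) * trv lam a b k ≤ x k + w.sum k
    rw [g3 k, add_assoc]

theorem reroute3 {Q : Type} [Fintype Q] {T : VASS Q 3} {p₀ : Q} {lam : Fin 3 → ℕ}
    (hlam : ∀ k, 1 ≤ lam k) (hb : ∀ k, lam k ≤ cLam (Fintype.card Q) (maxNorm T))
    (hc : ∀ r u, InS T p₀ r → Walk T r u r → ∑ k, (lam k : ℤ) * u.sum k ≤ 0)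
    (hw : ¬ WedgeAt T p₀) {H : ℕ} (hH : 1 ≤ H) {p q : Q} (hp : InS T p₀ p) (hq : InS T p₀ q)
    {y z : Vec 3} (hy : ∀ k, (cRr (Fintype.card Q) (maxNorm T) : ℕ) ≤ y k)
    (hz : ∀ k, (cRr (Fintype.card Q) (maxNorm T) : ℕ) ≤ z k) (hyH : ∀ k, y k ≤ H)
    (hm : ∑ k, (lam k : ℤ) * z k + (cRr (Fintype.card Q) (maxNorm T) * (Nat.log 2 H + 1) : ℕ) ≤
      ∑ k, (lam k : ℤ) * y k) :
    ∃ w, Walk T p w q ∧ Ok y w ∧ z ≤ y + w.sum ∧
      w.length ≤ H * cRr (Fintype.card Q) (maxNorm T) := by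
  have hn : 1 ≤ Fintype.card Q := Fintype.card_pos_iff.2 ⟨p₀⟩
  obtain ⟨c1, c2, c3, c4, c5⟩ := rr_consts (M := maxNorm T) hn
  have hS := rr_sys hlam hb hc hw hq
  rw [c5] at hy hz hm ⊢
  obtain ⟨K, hK⟩ : ∃ K, K = cTo (Fintype.card Q) (maxNorm T) := ⟨_, rfl⟩
  rw [← hK] at c1 c2 c3 c4 hy hz hm hS ⊢
  have hlK : ∀ k, 1 ≤ lam k ∧ lam k ≤ K := fun k => ⟨hlam k, (hb k).trans c2⟩
  obtain ⟨θ, hθ, hθl⟩ := inS_path hp hq
  have hθM : θ.length * maxNorm T ≤ K := (Nat.mul_le_mul_right _ hθl).trans c3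
  have hKz : (1000 : ℤ) ≤ K := by exact_mod_cast c1
  have hK0 : (0 : ℤ) ≤ K := by linarith
  have hpz : ∀ {a b : ℕ}, a ≤ b → (K : ℤ) ^ a ≤ K ^ b := fun h => rr_pow c1 h
  -- the configuration after the short path
  have hθa : ∀ k, |θ.sum k| ≤ K := fun k => (walk_abs hθ k).trans (by exact_mod_cast hθM)
  obtain ⟨y', hy'⟩ : ∃ y' : Vec 3, y' = y + θ.sum := ⟨_, rfl⟩
  have hyk : ∀ k, y k - K ≤ y' k ∧ y' k ≤ y k + K := by
    intro k
    have e : y' k = y k + θ.sum k := by rw [hy']; rfl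
    have := abs_le.1 (hθa k)
    constructor <;> linarith
  have hyz : ∀ k, (K : ℤ) ^ 250 ≤ y k := fun k => by have := hy k; push_cast at this; exact this
  have hzz : ∀ k, (K : ℤ) ^ 250 ≤ z k := fun k => by have := hz k; push_cast at this; exact this
  have hok : Ok y θ := by
    refine ok_of_long hθ hθM fun k => ?_
    have h1 : (K : ℤ) ^ 1 ≤ K ^ 250 := hpz (by norm_num)
    rw [pow_one] at h1
    exact h1.trans (hyz k)
  have h16 : (K : ℤ) ^ 15 + K ≤ K ^ 16 := by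
    have h1 : (K : ℤ) ^ 1 ≤ K ^ 15 := hpz (by norm_num)
    rw [pow_one] at h1
    have h2 : (K : ℤ) ^ 16 = K * K ^ 15 := by ring
    have h3 : 1000 * (K : ℤ) ^ 15 ≤ K * K ^ 15 := mul_le_mul_of_nonneg_right hKz (by positivity)
    linarith
  have hy15 : ∀ k, (K : ℤ) ^ 15 ≤ y' k := by
    intro k
    have h1 : (K : ℤ) ^ 16 ≤ K ^ 250 := hpz (by norm_num)
    have := hyz k
    have := (hyk k).1
    linarith
  have hz15 : ∀ k, (K : ℤ) ^ 15 ≤ z k := fun k => (hpz (by norm_num)).trans (hzz k)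
  have hy0 : ∀ k, 0 ≤ y' k := fun k => le_trans (by positivity) (hy15 k)
  obtain ⟨X, hX⟩ := Int.eq_ofNat_of_zero_le ((hy0 0).trans (rr_single lam hlam y' hy0 0))
  have hX' : (X : ℤ) = ∑ k, (lam k : ℤ) * y' k := hX.symm
  obtain ⟨L, hL⟩ : ∃ L, L = Nat.log 2 H + 1 := ⟨_, rfl⟩
  have hHL : H < 2 ^ L := by rw [hL]; exact Nat.lt_pow_succ_log_self (by norm_num) H
  have hL1 : 1 ≤ L := by rw [hL]; omega
  rw [← hL] at hm
  have hHz : (1 : ℤ) ≤ H := by exact_mod_cast hH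
  -- the weight of the start
  have hXH : X ≤ K ^ 3 * H := by
    have h1 : ∀ k, (lam k : ℤ) * y' k ≤ 2 * (K * (K * H)) := by
      intro k
      have h2 : y' k ≤ H + K := (hyk k).2.trans (by linarith [hyH k])
      have h3 : (lam k : ℤ) * y' k ≤ K * (H + K) :=
        mul_le_mul (by exact_mod_cast (hlK k).2) h2 (hy0 k) hK0
      have h4 : (H : ℤ) ≤ K * H := le_mul_of_one_le_left (by linarith) (by linarith)
      have h5 : (K : ℤ) ≤ K * H := le_mul_of_one_le_right hK0 hHz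
      have h6 : (K : ℤ) * (H + K) ≤ K * (2 * (K * H)) :=
        mul_le_mul_of_nonneg_left (by linarith) hK0
      linarith
    have h2 : (X : ℤ) ≤ 6 * (K * (K * H)) := by
      rw [hX', Fin.sum_univ_three]
      linarith [h1 0, h1 1, h1 2]
    have h3 : 1000 * ((K : ℤ) * (K * H)) ≤ K * (K * (K * H)) :=
      mul_le_mul_of_nonneg_right hKz (by positivity)
    have h4 : (K : ℤ) ^ 3 * H = K * (K * (K * H)) := by ring
    have h5 : (0 : ℤ) ≤ K * (K * H) := by positivity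
    have h6 : (X : ℤ) ≤ (K : ℤ) ^ 3 * H := by linarith
    exact_mod_cast h6
  have hXE : X < 2 ^ (K ^ 3 + L) := by
    calc X ≤ K ^ 3 * H := hXH
      _ < K ^ 3 * 2 ^ L := Nat.mul_lt_mul_of_pos_left hHL (by positivity)
      _ ≤ 2 ^ K ^ 3 * 2 ^ L := Nat.mul_le_mul_right _ Nat.lt_two_pow_self.le
      _ = 2 ^ (K ^ 3 + L) := (pow_add _ _ _).symm
  have hLz : (1 : ℤ) ≤ L := by exact_mod_cast hL1
  have hmass : ∑ k, (lam k : ℤ) * z k + (K : ℤ) ^ 18 * (K ^ 3 + L : ℕ) ≤ X := by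
    have h1 : ∀ k, (lam k : ℤ) * y k - K * K ≤ lam k * y' k := by
      intro k
      have h2 : (lam k : ℤ) * (y k - K) ≤ lam k * y' k :=
        mul_le_mul_of_nonneg_left (hyk k).1 (Int.natCast_nonneg _)
      have h3 : (lam k : ℤ) * K ≤ K * K :=
        mul_le_mul_of_nonneg_right (by exact_mod_cast (hlK k).2) hK0
      linarith
    have h2 : ∑ k, (lam k : ℤ) * y k - 3 * (K * K) ≤ X := by
      rw [hX', Fin.sum_univ_three, Fin.sum_univ_three]
      linarith [h1 0, h1 1, h1 2]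
    have h3 : (K : ℤ) ^ 22 * L ≤ K ^ 250 * L :=
      mul_le_mul_of_nonneg_right (hpz (by norm_num)) (by linarith)
    push_cast at hm ⊢
    have h4 : (K : ℤ) ^ 3 ≤ K ^ 3 * L := le_mul_of_one_le_right (by positivity) hLz
    have h5 : (L : ℤ) ≤ K ^ 3 * L :=
      le_mul_of_one_le_left (by linarith) (one_le_pow₀ (by linarith))
    have h6 : (K : ℤ) ^ 18 * (K ^ 3 + L) ≤ K ^ 18 * (2 * (K ^ 3 * L)) :=
      mul_le_mul_of_nonneg_left (by linarith) (by positivity)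
    have h7 : (K : ℤ) ^ 18 * (2 * (K ^ 3 * L)) = 2 * (K ^ 21 * L) := by ring
    have h8 : (K : ℤ) ^ 22 * L = K * (K ^ 21 * L) := by ring
    have h9 : 1000 * ((K : ℤ) ^ 21 * L) ≤ K * (K ^ 21 * L) :=
      mul_le_mul_of_nonneg_right hKz (by positivity)
    have h10 : (K : ℤ) * K ≤ K ^ 21 * L := by
      have e1 : (K : ℤ) ^ 2 ≤ K ^ 21 := hpz (by norm_num)
      have e2 : (K : ℤ) ^ 21 ≤ K ^ 21 * L := le_mul_of_one_le_right (by positivity) hLz
      have e3 : (K : ℤ) ^ 2 = K * K := by ring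
      linarith
    have h11 : (0 : ℤ) ≤ (K : ℤ) ^ 21 * L := by positivity
    linarith
  obtain ⟨w, g1, g2, g3, g4⟩ := rr_main hS c1 hlK y' z hy15 hz15 X (K ^ 3 + L) hX' hXE hmass
  refine ⟨θ ++ w, hθ.append g1, (Ok_append _ _ _).2 ⟨hok, by rw [← hy']; exact g3⟩, ?_, ?_⟩
  · rw [List.sum_append, ← add_assoc, ← hy']
    exact g4
  · rw [List.length_append]
    have e1 : K ^ 8 * X ≤ K ^ 8 * (K ^ 3 * H) := Nat.mul_le_mul_left _ hXH
    have e2 : K ^ 8 * (K ^ 3 * H) = K ^ 11 * H := by ring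
    have e3 : Fintype.card Q ≤ K ^ 11 * H := by
      have h1 : K ≤ K ^ 11 := Nat.le_self_pow (by norm_num) K
      have h2 : K ^ 11 ≤ K ^ 11 * H := Nat.le_mul_of_pos_right _ hH
      omega
    have e4 : K ^ 12 * H ≤ K ^ 250 * H :=
      Nat.mul_le_mul_right _ (Nat.pow_le_pow_right (by omega) (by norm_num))
    have e5 : K ^ 12 * H = K * (K ^ 11 * H) := by ring
    have e6 : 1000 * (K ^ 11 * H) ≤ K * (K ^ 11 * H) := Nat.mul_le_mul_right _ c1
    rw [mul_comm H]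
    omega

end Pool.Agent.EE3
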