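import Pool.Agent.EE3.Shallow3
import Pool.Agent.EE3.Reroute3
import Pool.Agent.EE3.Log3
import Pool.Agent.EE3.Items3

/-!
# EE3 / Half3: components with a weight with positive coordinates which no cycle increases
-/

set_option autoImplicit false
set_option linter.unusedSectionVars false

namespace Pool.Agent.EE3

open Pool.Agent.EEF Pool.Agent.REV Pool.Agent.EE2 Finset

/-- length factor for these components -/
def cHa (n M : ℕ) : ℕ := (8 * n * (M + 1)) ^ 10000000000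

variable {Q : Type} {T : VASS Q 3}

/-- the last configuration with the property `D` -/
theorem last_good {P : Q → Vec 3 → Prop} (D : Vec 3 → Prop) {p q : Q} {x : Vec 3}
    {w : List (Vec 3)} (h : PW T P p x w q) :
    PW T (fun r y => P r y ∧ ¬ D y) p x w q ∨
      ∃ u r, PW T P p x u r ∧ D (x + u.sum) ∧ ((w = u ∧ r = q) ∨
        ∃ v r' w', w = u ++ v :: w' ∧ (r, v, r') ∈ T ∧
          PW T (fun r y => P r y ∧ ¬ D y) r' (x + u.sum + v) w' q) := by
  induction h with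
  | @nil p x h0 =>
    by_cases hD : D x
    · exact Or.inr ⟨[], p, .nil h0, by simpa using hD, Or.inl ⟨rfl, rfl⟩⟩
    · exact Or.inl (.nil ⟨h0, hD⟩)
  | @cons p p' q v x w h0 h1 h2 ih =>
    rcases ih with ih | ⟨u, r, h3, h4, h5⟩
    · by_cases hD : D x
      · exact Or.inr ⟨[], p, .nil h0, by simpa using hD, Or.inr ⟨v, p', w, rfl, h1,
          by simpa using ih⟩⟩
      · exact Or.inl (.cons ⟨h0, hD⟩ h1 ih)
    · have es : x + (v :: u).sum = x + v + u.sum := by rw [List.sum_cons, add_assoc]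
      refine Or.inr ⟨v :: u, r, .cons h0 h1 h3, by rw [es]; exact h4, ?_⟩
      rcases h5 with ⟨rfl, rfl⟩ | ⟨v', r', w', rfl, h6, h7⟩
      · exact Or.inl ⟨rfl, rfl⟩
      · exact Or.inr ⟨v', r', w', rfl, h6, by rw [es]; exact h7⟩

/-- a walk with the same ends, at least the same effect, and length `≤ L` -/
def Shrt (T : VASS Q 3) (p : Q) (x : Vec 3) (e : Vec 3) (q : Q) (L : ℕ) : Prop :=
  ∃ w', Walk T p w' q ∧ Ok x w' ∧ e ≤ w'.sum ∧ w'.length ≤ L

theorem Shrt.trans {p q r : Q} {x e f : Vec 3} {L K : ℕ} (h1 : Shrt T p x e q L)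
    (h2 : Shrt T q (x + e) f r K) : Shrt T p x (e + f) r (L + K) := by
  obtain ⟨u, a1, a2, a3, a4⟩ := h1
  obtain ⟨v, b1, b2, b3, b4⟩ := h2
  refine ⟨u ++ v, a1.append b1, ?_, ?_, ?_⟩
  · rw [Ok_append]
    exact ⟨a2, ok_mono b2 (add_le_add_right a3 x)⟩
  · rw [List.sum_append]
    exact add_le_add a3 b3
  · rw [List.length_append]
    exact Nat.add_le_add a4 b4

theorem Shrt.step {p q : Q} {x v : Vec 3} (h1 : (p, v, q) ∈ T) (h2 : 0 ≤ x + v) :
    Shrt T p x v q 1 :=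
  ⟨[v], .cons h1 (.nil _), ⟨h2, trivial⟩, by simp, by simp⟩

theorem Shrt.refl {p : Q} {x : Vec 3} : Shrt T p x 0 p 0 :=
  ⟨[], .nil _, trivial, by simp, by simp⟩

/-- from a deep configuration to a deep configuration -/
theorem half_mid [Fintype Q] {p₀ : Q} {lam : Fin 3 → ℕ}
    (hlam : ∀ k, 1 ≤ lam k) (hb : ∀ k, lam k ≤ cLam (Fintype.card Q) (maxNorm T))
    (hc : ∀ r u, InS T p₀ r → Walk T r u r → ∑ k, (lam k : ℤ) * u.sum k ≤ 0)
    (hw : ¬ WedgeAt T p₀) {H : ℕ} (hH : 1 ≤ H) {p q : Q} {x : Vec 3} {w : List (Vec 3)}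
    (h : PW T (fun r y => InS T p₀ r ∧ 0 ≤ y ∧ ∀ k, y k ≤ H) p x w q)
    (hx : ∀ k, (cRr (Fintype.card Q) (maxNorm T) : ℕ) ≤ x k)
    (hz : ∀ k, (cRr (Fintype.card Q) (maxNorm T) : ℕ) ≤ (x + w.sum) k) :
    Shrt T p x w.sum q (H * (8 * Fintype.card Q * (maxNorm T + 1)) ^ 20000000) := by
  classical
  obtain ⟨n, hn⟩ : ∃ n, n = Fintype.card Q := ⟨_, rfl⟩
  obtain ⟨M, hM⟩ : ∃ M, M = maxNorm T := ⟨_, rfl⟩
  have hn1 : 1 ≤ n := by
    rw [hn]
    exact Fintype.card_pos_iff.2 ⟨p⟩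
  rw [← hn, ← hM] at hx hz ⊢
  obtain ⟨X, hX⟩ : ∃ X, X = 8 * n * (M + 1) := ⟨_, rfl⟩
  rw [← hX]
  have hX8 : 8 ≤ X := by
    rw [hX]
    have : 1 ≤ n * (M + 1) := Nat.mul_pos hn1 (by omega)
    calc 8 = 8 * 1 := by ring
      _ ≤ 8 * (n * (M + 1)) := Nat.mul_le_mul_left _ this
      _ = 8 * n * (M + 1) := by ring
  have hX1 : 1 ≤ X := by omega
  have hMX : M + 1 ≤ X := by
    rw [hX]
    exact Nat.le_mul_of_pos_left _ (by omega)
  obtain ⟨R, hR⟩ : ∃ R, R = cRr n M := ⟨_, rfl⟩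
  have hRX : R = X ^ 1000000 := by rw [hR, hX]; rfl
  have hcI : cIt n M = X ^ 120 := by rw [hX]; rfl
  have hpowle : ∀ {a b : ℕ}, a ≤ b → X ^ a ≤ X ^ b := fun hab => Nat.pow_le_pow_right hX1 hab
  have hpow1 : ∀ a : ℕ, 1 ≤ X ^ a := fun a => Nat.one_le_pow _ _ (by omega)
  rw [← hR] at hx hz
  by_cases hm : ∑ k, (lam k : ℤ) * (x + w.sum) k + (R * (Nat.log 2 H + 1) : ℕ) ≤
      ∑ k, (lam k : ℤ) * x k
  · obtain ⟨w', a1, a2, a3, a4⟩ := reroute3 hlam hb hc hw hH h.start.1 h.stop.1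
      (y := x) (z := x + w.sum) (by rw [← hn, ← hM, ← hR]; exact hx)
      (by rw [← hn, ← hM, ← hR]; exact hz) h.start.2.2 (by rw [← hn, ← hM, ← hR]; exact hm)
    refine ⟨w', a1, a2, le_of_add_le_add_left a3, a4.trans (Nat.mul_le_mul_left _ ?_)⟩
    rw [← hn, ← hM, ← hR, hRX]
    exact hpowle (by norm_num)
  · have hD : -∑ k, (lam k : ℤ) * w.sum k ≤ (R * (Nat.log 2 H + 1) : ℕ) := by
      have e : ∑ k, (lam k : ℤ) * (x + w.sum) k =
          ∑ k, (lam k : ℤ) * x k + ∑ k, (lam k : ℤ) * w.sum k := by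
        rw [← sum_add_distrib]
        exact sum_congr rfl fun k _ => by rw [Pi.add_apply, mul_add]
      rw [e] at hm
      omega
    have hne : ∃ k, lam k ≠ 0 := ⟨0, by have := hlam 0; omega⟩
    obtain ⟨I, b1, b2, b3, b4, b5, b6⟩ := items3 hne hb hc (h.mono fun r y hy => ⟨hy.1, hy.2.1⟩) _ hD
    rw [← hn, ← hM, hcI] at b5 b6
    obtain ⟨L, hL⟩ : ∃ L, L = Nat.log 2 H + 1 := ⟨_, rfl⟩
    rw [← hL] at b6
    have hLH : L ≤ 2 * H := by
      have := Nat.log_le_self 2 H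
      omega
    have hlen : I.length ≤ ((R + 1) * X ^ 120) * L := by
      calc I.length ≤ (R * L + 1) * X ^ 120 := b6
        _ ≤ (R * L + L) * X ^ 120 := Nat.mul_le_mul_right _ (by omega)
        _ = ((R + 1) * X ^ 120) * L := by ring
    have hA1 : X ^ 120 * maxNorm T + 1 ≤ X ^ 121 := by
      rw [← hM]
      calc X ^ 120 * M + 1 ≤ X ^ 120 * M + X ^ 120 := Nat.add_le_add_left (hpow1 _) _
        _ = X ^ 120 * (M + 1) := by ring
        _ ≤ X ^ 120 * X := Nat.mul_le_mul_left _ hMX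
        _ = X ^ 121 := by ring
    have hA2 : ∀ k, 1 ≤ lam k ∧ lam k ≤ X ^ 121 := by
      intro k
      refine ⟨hlam k, (hb k).trans ?_⟩
      rw [← hn, ← hM]
      unfold cLam
      rw [← hX]
      exact hpowle (by norm_num)
    rw [hL] at hlen
    obtain ⟨J, c1, c2, c3, c4⟩ := chainlog3 hA1 hA2 hH b1 h.start.2.1 h.start.2.2 b2 b4 b5 hlen
    rw [← hL] at hlen
    have hJs : ∀ e ∈ J, e.1.length + e.2.1.length ≤ X ^ 120 := by
      intro e he
      have h1 : isk e ∈ I.map isk := by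
        rw [← c1]
        exact List.mem_map_of_mem he
      obtain ⟨e', he', h2⟩ := List.mem_map.1 h1
      have h3 := b5 e' he'
      have h4 : e'.1 = e.1 := congrArg (fun z : List (Vec 3) × List (Vec 3) => z.1) h2
      have h5 : e'.2.1 = e.2.1 := congrArg (fun z : List (Vec 3) × List (Vec 3) => z.2) h2
      rw [h4, h5] at h3
      exact h3
    have hJl : J.length = I.length := by
      have := congrArg List.length c1
      rwa [List.length_map, List.length_map] at this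
    refine ⟨unroll J, scheme_walk J (by rw [c1]; exact b1), c2, by rw [c3, b3], ?_⟩
    have h6 := unroll_length_le hJs
    rw [hJl] at h6
    refine h6.trans ?_
    have h7 : R + 1 ≤ X ^ 1000001 := by
      rw [hRX]
      calc X ^ 1000000 + 1 ≤ X ^ 1000000 + X ^ 1000000 := Nat.add_le_add_left (hpow1 _) _
        _ = 2 * X ^ 1000000 := by rw [two_mul]
        _ ≤ X * X ^ 1000000 := Nat.mul_le_mul_right _ (by omega)
        _ = X ^ 1000001 := (pow_succ' X 1000000).symm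
    have h8 : (R + 1) * X ^ 120 + 1 ≤ X ^ 1000122 := by
      calc (R + 1) * X ^ 120 + 1 ≤ X ^ 1000001 * X ^ 120 + 1 :=
            Nat.add_le_add_right (Nat.mul_le_mul_right _ h7) _
        _ = X ^ 1000121 + 1 := by rw [← pow_add]
        _ ≤ X ^ 1000121 + X ^ 1000121 := Nat.add_le_add_left (hpow1 _) _
        _ = 2 * X ^ 1000121 := by rw [two_mul]
        _ ≤ X * X ^ 1000121 := Nat.mul_le_mul_right _ (by omega)
        _ = X ^ 1000122 := (pow_succ' X 1000121).symm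
    have h9 : X ^ 121 + 8 ≤ X ^ 122 := by
      calc X ^ 121 + 8 ≤ X ^ 121 + X := by omega
        _ ≤ X ^ 121 + X ^ 121 := Nat.add_le_add_left (Nat.le_self_pow (by norm_num) _) _
        _ = 2 * X ^ 121 := by rw [two_mul]
        _ ≤ X * X ^ 121 := Nat.mul_le_mul_right _ (by omega)
        _ = X ^ 122 := (pow_succ' X 121).symm
    have h10 : cLg (X ^ 121) ((R + 1) * X ^ 120) ≤ X ^ 10013420 := by
      unfold cLg
      calc (X ^ 121 + 8) ^ 100 * ((R + 1) * X ^ 120 + 1) ^ 10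
          ≤ (X ^ 122) ^ 100 * (X ^ 1000122) ^ 10 :=
            Nat.mul_le_mul (Nat.pow_le_pow_left h9 _) (Nat.pow_le_pow_left h8 _)
        _ = X ^ 10013420 := by rw [← pow_mul, ← pow_mul, ← pow_add]
    have h11 : I.length ≤ 2 * H * X ^ 1000122 := by
      calc I.length ≤ ((R + 1) * X ^ 120) * L := hlen
        _ ≤ X ^ 1000122 * (2 * H) := Nat.mul_le_mul ((Nat.le_succ _).trans h8) hLH
        _ = 2 * H * X ^ 1000122 := by ring
    calc X ^ 120 * (I.length + (J.map fun e => e.2.2).sum)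
        ≤ X ^ 120 * (2 * H * X ^ 10013420 + X ^ 10013420 * H) := by
          refine Nat.mul_le_mul_left _ (Nat.add_le_add ?_ ?_)
          · exact h11.trans (Nat.mul_le_mul_left _ (hpowle (by norm_num)))
          · exact c4.trans (Nat.mul_le_mul_right _ h10)
      _ = H * (3 * X ^ 120 * X ^ 10013420) := by ring
      _ ≤ H * (X * X ^ 120 * X ^ 10013420) :=
          Nat.mul_le_mul_left _ (Nat.mul_le_mul_right _ (Nat.mul_le_mul_right _ (by omega)))
      _ = H * X ^ 10013541 := by rw [← pow_succ', ← pow_add]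
      _ ≤ H * X ^ 20000000 := Nat.mul_le_mul_left _ (hpowle (by norm_num))

theorem half3 [Fintype Q] {p₀ : Q} {lam : Fin 3 → ℕ}
    (hlam : ∀ k, 1 ≤ lam k) (hb : ∀ k, lam k ≤ cLam (Fintype.card Q) (maxNorm T))
    (hc : ∀ r u, InS T p₀ r → Walk T r u r → ∑ k, (lam k : ℤ) * u.sum k ≤ 0)
    (hw : ¬ WedgeAt T p₀) {H : ℕ} (hH : 1 ≤ H) {p q : Q} {x : Vec 3} {w : List (Vec 3)}
    (h : PW T (fun r y => InS T p₀ r ∧ 0 ≤ y ∧ ∀ k, y k ≤ H) p x w q) :
    ∃ w', Walk T p w' q ∧ Ok x w' ∧ w.sum ≤ w'.sum ∧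
      w'.length ≤ H * cHa (Fintype.card Q) (maxNorm T) := by
  classical
  obtain ⟨n, hn⟩ : ∃ n, n = Fintype.card Q := ⟨_, rfl⟩
  obtain ⟨M, hM⟩ : ∃ M, M = maxNorm T := ⟨_, rfl⟩
  have hn1 : 1 ≤ n := by
    rw [hn]
    exact Fintype.card_pos_iff.2 ⟨p⟩
  obtain ⟨X, hX⟩ : ∃ X, X = 8 * n * (M + 1) := ⟨_, rfl⟩
  have hX8 : 8 ≤ X := by
    rw [hX]
    have : 1 ≤ n * (M + 1) := Nat.mul_pos hn1 (by omega)
    calc 8 = 8 * 1 := by ring
      _ ≤ 8 * (n * (M + 1)) := Nat.mul_le_mul_left _ this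
      _ = 8 * n * (M + 1) := by ring
  have hX1 : 1 ≤ X := by omega
  obtain ⟨R, hR⟩ : ∃ R, R = cRr n M := ⟨_, rfl⟩
  have hRX : R = X ^ 1000000 := by rw [hR, hX]; rfl
  have hpowle : ∀ {a b : ℕ}, a ≤ b → X ^ a ≤ X ^ b := fun hab => Nat.pow_le_pow_right hX1 hab
  have hpow1 : ∀ a : ℕ, 1 ≤ X ^ a := fun a => Nat.one_le_pow _ _ (by omega)
  obtain ⟨S, hS⟩ : ∃ S, S = X ^ 4000000000 := ⟨_, rfl⟩
  have hS1 : 1 ≤ S := by rw [hS]; exact hpow1 _
  have hHS : 1 ≤ H * S := Nat.mul_pos hH hS1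
  have hSh : cSh n M R ≤ S := by
    unfold cSh
    rw [hS, ← hX]
    have : R + 1 ≤ X ^ 1000001 := by
      rw [hRX]
      calc X ^ 1000000 + 1 ≤ X ^ 1000000 + X ^ 1000000 := Nat.add_le_add_left (hpow1 _) _
        _ = 2 * X ^ 1000000 := by rw [two_mul]
        _ ≤ X * X ^ 1000000 := Nat.mul_le_mul_right _ (by omega)
        _ = X ^ 1000001 := (pow_succ' X 1000000).symm
    calc (X * (R + 1)) ^ 3000 ≤ (X * X ^ 1000001) ^ 3000 :=
          Nat.pow_le_pow_left (Nat.mul_le_mul_left _ this) _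
      _ = X ^ (1000002 * 3000) := by rw [← pow_succ', ← pow_mul]
      _ ≤ X ^ 4000000000 := hpowle (by norm_num)
  have hMid : X ^ 20000000 ≤ S := by
    rw [hS]
    exact hpowle (by norm_num)
  -- shallow pieces
  have shal : ∀ {r r' : Q} {y : Vec 3} {u : List (Vec 3)},
      PW T (fun r y => (InS T p₀ r ∧ 0 ≤ y ∧ ∀ k, y k ≤ H) ∧ ¬ ∀ k, (R : ℤ) ≤ y k) r y u r' →
      Shrt T r y u.sum r' (H * S) := by
    intro r r' y u hu
    obtain ⟨w', a1, a2, a3, a4⟩ := shallow3 hlam hb hc hw R hH (hu.mono fun r y hy =>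
      ⟨hy.1.1, hy.1.2.1, hy.1.2.2, by
        have h1 := hy.2
        push Not at h1
        exact h1⟩)
    refine ⟨w', a1, a2, a3, a4.trans (Nat.mul_le_mul_left _ ?_)⟩
    rw [← hn, ← hM]
    exact hSh
  -- from a deep configuration
  have deep : ∀ {r : Q} {y : Vec 3} {u : List (Vec 3)},
      PW T (fun r y => InS T p₀ r ∧ 0 ≤ y ∧ ∀ k, y k ≤ H) r y u q → (∀ k, (R : ℤ) ≤ y k) →
      Shrt T r y u.sum q (H * S + (1 + H * S)) := by
    intro r y u hu hy
    rcases last_good (fun y => ∀ k, (R : ℤ) ≤ y k) hu with h1 | ⟨u₁, r₁, h1, h2, h3⟩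
    · exact absurd hy h1.start.2
    · have hm := half_mid hlam hb hc hw hH h1 (by rw [← hn, ← hM, ← hR]; exact hy)
        (by rw [← hn, ← hM, ← hR]; exact h2)
      rw [← hn, ← hM, ← hX] at hm
      have hm' : Shrt T r y u₁.sum r₁ (H * S) := by
        obtain ⟨w', a1, a2, a3, a4⟩ := hm
        exact ⟨w', a1, a2, a3, a4.trans (Nat.mul_le_mul_left _ hMid)⟩
      rcases h3 with ⟨rfl, rfl⟩ | ⟨v, r', w', rfl, h4, h5⟩
      · obtain ⟨w', a1, a2, a3, a4⟩ := hm'
        exact ⟨w', a1, a2, a3, by omega⟩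
      · have h6 := (hm'.trans (Shrt.step h4 h5.start.1.2.1)).trans
          (by have := shal h5; rwa [add_assoc] at this)
        rw [List.sum_append, List.sum_cons, ← add_assoc]
        obtain ⟨w'', a1, a2, a3, a4⟩ := h6
        exact ⟨w'', a1, a2, a3, by omega⟩
  have fin : Shrt T p x w.sum q (H * S + (1 + (H * S + (1 + H * S)))) := by
    rcases h.firstBad (fun _ y => ¬ ∀ k, (R : ℤ) ≤ y k) with h1 | ⟨u₁, u₂, r, rfl, h1, h2, h3, h4⟩
    · obtain ⟨w', a1, a2, a3, a4⟩ := shal h1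
      exact ⟨w', a1, a2, a3, by omega⟩
    · rw [not_not] at h2
      have h5 := deep h3 h2
      rcases h4 with ⟨rfl, rfl⟩ | ⟨u₀, v, r₀, rfl, h6, h7⟩
      · rw [List.sum_nil, add_zero] at h5
        obtain ⟨w', a1, a2, a3, a4⟩ := h5
        exact ⟨w', a1, a2, a3, by omega⟩
      · have e : x + u₀.sum + v = x + (u₀ ++ [v]).sum := by
          rw [List.sum_append, List.sum_singleton, add_assoc]
        have h8 := (shal h6).trans (Shrt.step h7 (by rw [e]; exact h1.2.1))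
        have h9 := h8.trans (by rw [← add_assoc, e]; exact h5)
        rw [List.sum_append, List.sum_append, List.sum_singleton]
        obtain ⟨w', a1, a2, a3, a4⟩ := h9
        exact ⟨w', a1, a2, a3, by omega⟩
  obtain ⟨w', a1, a2, a3, a4⟩ := fin
  refine ⟨w', a1, a2, a3, a4.trans ?_⟩
  have h1 : cHa n M = X ^ 10000000000 := by rw [hX]; rfl
  rw [← hn, ← hM, h1]
  calc H * S + (1 + (H * S + (1 + H * S))) ≤ 8 * (H * S) := by omega
    _ ≤ X * (H * S) := Nat.mul_le_mul_right _ hX8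
    _ = H * (X * X ^ 4000000000) := by rw [hS]; ring
    _ = H * X ^ 4000000001 := by rw [← pow_succ']
    _ ≤ H * X ^ 10000000000 := Nat.mul_le_mul_left _ (hpowle (by norm_num))

end Pool.Agent.EE3
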