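import Pool.Agent.EE3.Defs2

/-!
# EE3 / WDefs: components whose cycles have a linear functional with zero set on a line
-/

set_option autoImplicit false
set_option linter.unusedSectionVars false

namespace Pool.Agent.EE3

open Pool.Agent.EEF Pool.Agent.REV Pool.Agent.EE2 Finset

/-- some linear functional is non-negative on the effects of the closed walks of the component, and
the effects on which it vanishes are pairwise proportional -/
def WedgeAt {Q : Type} (T : VASS Q 3) (p₀ : Q) : Prop :=
  ∃ mu : Fin 3 → ℤ,
    (∀ r u, InS T p₀ r → Walk T r u r → 0 ≤ ∑ k, mu k * u.sum k) ∧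
    ∀ r u r' u', InS T p₀ r → InS T p₀ r' → Walk T r u r → Walk T r' u' r' →
      ∑ k, mu k * u.sum k = 0 → ∑ k, mu k * u'.sum k = 0 →
      ∀ k l, u.sum k * u'.sum l = u.sum l * u'.sum k

/-- length factor for these components -/
def cWe (n M : ℕ) : ℕ := (8 * n * (M + 1)) ^ 1000

end Pool.Agent.EE3
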