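import Pool.Agent.EE3.Mu
import Pool.Agent.EE3.WDefs

/-!
# EE3 / MuW: a bounded linear functional for components with zero set on a line
-/

set_option autoImplicit false
set_option linter.unusedSectionVars false

namespace Pool.Agent.EE3

open Pool.Agent.EEF Pool.Agent.REV Pool.Agent.EE2 Finset

variable {Q : Type} {T : VASS Q 3}

/-- a bounded functional exists -/
theorem exists_muW [Fintype Q] {p₀ : Q} (hp : WedgeAt T p₀) :
    ∃ mu : Fin 3 → ℤ,
      (∀ k, |mu k| ≤ (((8 * Fintype.card Q * (maxNorm T + 1)) ^ 300 : ℕ) : ℤ)) ∧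
      (∀ r u, InS T p₀ r → Walk T r u r → 0 ≤ ∑ k, mu k * u.sum k) ∧
      ∀ r u r' u', InS T p₀ r → InS T p₀ r' → Walk T r u r → Walk T r' u' r' →
        ∑ k, mu k * u.sum k = 0 → ∑ k, mu k * u'.sum k = 0 →
        ∀ k l, u.sum k * u'.sum l = u.sum l * u'.sum k := by
  classical
  have hn : 1 ≤ Fintype.card Q := Fintype.card_pos_iff.2 ⟨p₀⟩
  obtain ⟨nu, hnu, hnu2⟩ := hp
  set n := Fintype.card Q with hnn
  set M := maxNorm T with hMM
  set Γ₁ := (eff_finite T p₀ n).toFinset with hΓ₁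
  have hmem : ∀ g, g ∈ Γ₁ ↔ g ∈ Eff T p₀ n := fun g => by
    rw [hΓ₁, Set.Finite.mem_toFinset]
  set Γ := Γ₁ ∪ (Γ₁.filter (fun g => ∑ k, nu k * g k = 0)).image (fun g => -g) with hΓ
  have hpos₁ : ∀ g ∈ Γ₁, 0 ≤ ∑ k, nu k * g k := by
    intro g hg
    obtain ⟨r, u, h1, h2, -, rfl⟩ := (hmem g).1 hg
    exact hnu r u h1 h2
  have hpos : ∀ g ∈ Γ, 0 ≤ ∑ k, nu k * g k := by
    intro g hg
    rcases mem_union.1 hg with hg | hg
    · exact hpos₁ g hg
    · obtain ⟨g', hg', rfl⟩ := mem_image.1 hg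
      have h1 := (mem_filter.1 hg').2
      have h2 : ∑ k, nu k * (-g') k = -∑ k, nu k * g' k := by
        rw [← sum_neg_distrib]
        exact sum_congr rfl fun k _ => by rw [Pi.neg_apply]; ring
      rw [h2, h1, neg_zero]
  have habs₁ : ∀ g ∈ Γ₁, ∀ k, |g k| ≤ ((n * M + 1 : ℕ) : ℤ) := by
    intro g hg k
    refine (eff_abs ((hmem g).1 hg) k).trans ?_
    push_cast
    linarith
  have habs : ∀ g ∈ Γ, ∀ k, |g k| ≤ ((n * M + 1 : ℕ) : ℤ) := by
    intro g hg k
    rcases mem_union.1 hg with hg | hg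
    · exact habs₁ g hg k
    · obtain ⟨g', hg', rfl⟩ := mem_image.1 hg
      rw [Pi.neg_apply, abs_neg]
      exact habs₁ g' (mem_filter.1 hg').1 k
  obtain ⟨b, hbdef⟩ : ∃ b : Vec 3 → ℤ, b = fun g => if 0 < ∑ k, nu k * g k then 1 else 0 :=
    ⟨_, rfl⟩
  have hb0 : ∀ g, 0 ≤ b g := by
    intro g
    rw [hbdef]
    show (0 : ℤ) ≤ if 0 < ∑ k, nu k * g k then 1 else 0
    split_ifs <;> norm_num
  have hb1 : ∀ g, b g ≤ 1 := by
    intro g
    rw [hbdef]
    show (if 0 < ∑ k, nu k * g k then (1 : ℤ) else 0) ≤ 1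
    split_ifs <;> norm_num
  have hbn : ∀ g ∈ Γ, b g ≤ ∑ k, nu k * g k := by
    intro g hg
    have h0 := hpos g hg
    rw [hbdef]
    show (if 0 < ∑ k, nu k * g k then (1 : ℤ) else 0) ≤ ∑ k, nu k * g k
    split_ifs with h
    · omega
    · exact h0
  rcases qfarkas 6 Γ (fun g j => ![g 0, g 1, g 2, -g 0, -g 1, -g 2] j) b
      (n * M + 1) (by
        intro g hg j
        have h := habs g hg
        fin_cases j
        · exact h 0
        · exact h 1
        · exact h 2
        · show |-(g 0)| ≤ _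
          rw [abs_neg]
          exact h 0
        · show |-(g 1)| ≤ _
          rw [abs_neg]
          exact h 1
        · show |-(g 2)| ≤ _
          rw [abs_neg]
          exact h 2) (by
        intro g hg
        rw [abs_of_nonneg (hb0 g)]
        refine (hb1 g).trans ?_
        push_cast
        have : (0 : ℤ) ≤ (n : ℤ) * M := by positivity
        linarith) with
    ⟨l, q, hq, -, hl, hl2⟩ | ⟨m, -, hm2, hm3⟩
  · have hF := FQ_six (n := n) (M := M) hn
    have hg1 : ∀ g ∈ Γ, b g ≤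
        ∑ k, (![(l 0 : ℤ) - l 3, (l 1 : ℤ) - l 4, (l 2 : ℤ) - l 5] k) * g k := by
      intro g hg
      have h1 := hl2 g hg
      rw [Fin.sum_univ_six] at h1
      rw [Fin.sum_univ_three]
      have h2 : (1 : ℤ) ≤ q := by exact_mod_cast hq
      have h3 : (q : ℤ) * b g ≤ g 0 * l 0 + g 1 * l 1 + g 2 * l 2 + -g 0 * l 3 + -g 1 * l 4
        + -g 2 * l 5 := h1
      have h4 : 1 * b g ≤ q * b g := mul_le_mul_of_nonneg_right h2 (hb0 g)
      show b g ≤ ((l 0 : ℤ) - l 3) * g 0 + ((l 1 : ℤ) - l 4) * g 1 + ((l 2 : ℤ) - l 5) * g 2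
      linarith
    have hb : ∀ i j : Fin 6, |(l i : ℤ) - l j| ≤ (((8 * n * (M + 1)) ^ 300 : ℕ) : ℤ) := by
      intro i j
      have h1 : (l i : ℤ) ≤ (((8 * n * (M + 1)) ^ 300 : ℕ) : ℤ) := by
        exact_mod_cast (hl i).trans hF
      have h2 : (l j : ℤ) ≤ (((8 * n * (M + 1)) ^ 300 : ℕ) : ℤ) := by
        exact_mod_cast (hl j).trans hF
      have h3 : (0 : ℤ) ≤ l i := Int.natCast_nonneg _
      have h4 : (0 : ℤ) ≤ l j := Int.natCast_nonneg _
      rw [abs_le]
      constructor <;> linarith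
    set mu : Fin 3 → ℤ := ![(l 0 : ℤ) - l 3, (l 1 : ℤ) - l 4, (l 2 : ℤ) - l 5] with hmu
    -- short closed walks
    have hA : ∀ g ∈ Γ₁, 0 ≤ ∑ k, mu k * g k := fun g hg =>
      (hb0 g).trans (hg1 g (mem_union_left _ hg))
    have hB : ∀ g ∈ Γ₁, 0 < ∑ k, nu k * g k → 1 ≤ ∑ k, mu k * g k := by
      intro g hg h
      have h1 := hg1 g (mem_union_left _ hg)
      have h2 : b g = 1 := by
        rw [hbdef]
        show (if 0 < ∑ k, nu k * g k then (1 : ℤ) else 0) = 1
        rw [if_pos h]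
      rw [h2] at h1
      exact h1
    have hC : ∀ g ∈ Γ₁, ∑ k, nu k * g k = 0 → ∑ k, mu k * g k = 0 := by
      intro g hg h
      have h1 := hA g hg
      have h2 := hg1 (-g) (mem_union_right _ (mem_image.2 ⟨g, mem_filter.2 ⟨hg, h⟩, rfl⟩))
      have h3 : ∑ k, mu k * (-g) k = -∑ k, mu k * g k := by
        rw [← sum_neg_distrib]
        exact sum_congr rfl fun k _ => by rw [Pi.neg_apply]; ring
      rw [h3] at h2
      have h4 := hb0 (-g)
      linarith
    have hshort : ∀ (f : Vec 3 →+ ℤ) {r : Q} {u : List (Vec 3)}, InS T p₀ r → Walk T r u r →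
        0 < f u.sum → ∃ g ∈ Γ₁, 0 < f g := by
      intro f r u hr hu h1
      have hw := walkIn_comp (S := univ.filter fun r => InS T p₀ r) (fun r => by simp) hu hr hr
      obtain ⟨r', u', k1, k2, k3⟩ := short_pos _ _ le_rfl hw h1
      have k4 : InS T p₀ r' := (mem_filter.1 k1.start).2
      exact ⟨u'.sum, (hmem _).2 ⟨r', u', k4, k1.walk, k2, rfl⟩, k3⟩
    have hD : ∀ r u, InS T p₀ r → Walk T r u r → 0 ≤ ∑ k, mu k * u.sum k := by
      intro r u hr hu
      by_contra hc
      push Not at hc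
      have h1 : zwgt (fun k => -mu k) u.sum = -∑ k, mu k * u.sum k := by
        rw [zwgt_apply, ← sum_neg_distrib]
        exact sum_congr rfl fun k _ => by ring
      obtain ⟨g, hg, h2⟩ := hshort (zwgt fun k => -mu k) hr hu (by rw [h1]; linarith)
      have h3 : zwgt (fun k => -mu k) g = -∑ k, mu k * g k := by
        rw [zwgt_apply, ← sum_neg_distrib]
        exact sum_congr rfl fun k _ => by ring
      rw [h3] at h2
      have := hA g hg
      linarith
    have hE : ∀ r u, InS T p₀ r → Walk T r u r → ∑ k, mu k * u.sum k = 0 →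
        ∑ k, nu k * u.sum k = 0 := by
      intro r u hr hu h0
      by_contra hc
      have h1 : 0 < ∑ k, nu k * u.sum k := lt_of_le_of_ne (hnu r u hr hu) (Ne.symm hc)
      obtain ⟨K, hK⟩ : ∃ K : ℤ, K = ∑ g ∈ Γ₁, |∑ k, nu k * g k| := ⟨_, rfl⟩
      have hK0 : 0 ≤ K := by
        rw [hK]
        exact sum_nonneg fun g _ => abs_nonneg _
      have hKg : ∀ g ∈ Γ₁, ∑ k, nu k * g k ≤ K := by
        intro g hg
        rw [hK]
        exact (le_abs_self _).trans
          (single_le_sum (f := fun g : Vec 3 => |∑ k, nu k * g k|) (fun g _ => abs_nonneg _) hg)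
      have hf : ∀ v : Vec 3, zwgt (fun k => nu k - K * mu k) v =
          (∑ k, nu k * v k) - K * ∑ k, mu k * v k := by
        intro v
        rw [zwgt_apply, mul_sum, ← sum_sub_distrib]
        exact sum_congr rfl fun k _ => by ring
      obtain ⟨g, hg, h2⟩ := hshort (zwgt fun k => nu k - K * mu k) hr hu (by
        rw [hf, h0, mul_zero, sub_zero]
        exact h1)
      rw [hf] at h2
      rcases (hpos₁ g hg).lt_or_eq with h3 | h3
      · have k8 := hB g hg h3
        have k7 := hKg g hg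
        have k9 : K * 1 ≤ K * ∑ k, mu k * g k := mul_le_mul_of_nonneg_left k8 hK0
        linarith
      · rw [hC g hg h3.symm, ← h3] at h2
        simp at h2
    refine ⟨mu, ?_, hD, ?_⟩
    · intro k
      fin_cases k
      · exact hb 0 3
      · exact hb 1 4
      · exact hb 2 5
    · intro r u r' u' hr hr' hu hu' h1 h2
      exact hnu2 r u r' u' hr hr' hu hu' (hE r u hr hu h1) (hE r' u' hr' hu' h2)
  · exfalso
    have h0 : ∀ k : Fin 3, ∑ g ∈ Γ, (m g : ℤ) * g k = 0 := by
      intro k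
      have key : ∀ (a b : Fin 6), (∀ g : Vec 3, ![g 0, g 1, g 2, -g 0, -g 1, -g 2] a = g k) →
          (∀ g : Vec 3, ![g 0, g 1, g 2, -g 0, -g 1, -g 2] b = -g k) →
          ∑ g ∈ Γ, (m g : ℤ) * g k = 0 := by
        intro a b ha hb
        have e1 := hm2 a
        have e2 := hm2 b
        simp only [ha] at e1
        simp only [hb, mul_neg, sum_neg_distrib] at e2
        linarith
      fin_cases k
      · exact key 0 3 (fun g => rfl) (fun g => rfl)
      · exact key 1 4 (fun g => rfl) (fun g => rfl)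
      · exact key 2 5 (fun g => rfl) (fun g => rfl)
    have h1 : ∑ g ∈ Γ, (m g : ℤ) * ∑ k, nu k * g k = 0 := by
      calc ∑ g ∈ Γ, (m g : ℤ) * ∑ k, nu k * g k
          = ∑ k, nu k * ∑ g ∈ Γ, (m g : ℤ) * g k := by
            simp_rw [mul_sum]
            rw [sum_comm]
            exact sum_congr rfl fun k _ => sum_congr rfl fun g _ => by ring
        _ = 0 := sum_eq_zero fun k _ => by rw [h0 k, mul_zero]
    have h2 : ∑ g ∈ Γ, (m g : ℤ) * b g ≤ ∑ g ∈ Γ, (m g : ℤ) * ∑ k, nu k * g k :=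
      sum_le_sum fun g hg => mul_le_mul_of_nonneg_left (hbn g hg) (Int.natCast_nonneg _)
    linarith

end Pool.Agent.EE3
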