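import Pool.Agent.EE3.Defs2

/-!
# EE3 / Costly: components with a small weight which no cycle increases
-/

set_option autoImplicit false
set_option linter.unusedSectionVars false

namespace Pool.Agent.EE3

open Pool.Agent.EEF Pool.Agent.REV Pool.Agent.EE2 Finset

variable {Q : Type} {T : VASS Q 3}

/-- the weight of a vector -/
def wt3 (lam : Fin 3 → ℕ) (v : Vec 3) : ℤ := ∑ k, (lam k : ℤ) * v k

theorem wt3_add (lam : Fin 3 → ℕ) (u v : Vec 3) : wt3 lam (u + v) = wt3 lam u + wt3 lam v := by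
  simp only [wt3, Pi.add_apply, mul_add, Finset.sum_add_distrib]

theorem wt3_zero (lam : Fin 3 → ℕ) : wt3 lam 0 = 0 := by simp [wt3]

theorem wt3_abs {lam : Fin 3 → ℕ} {L : ℕ} (hb : ∀ k, lam k ≤ L) {v : Vec 3} {B : ℕ}
    (hv : ∀ k, |v k| ≤ (B : ℤ)) : |wt3 lam v| ≤ 3 * L * B := by
  have h1 : |wt3 lam v| ≤ ∑ k : Fin 3, |(lam k : ℤ) * v k| := Finset.abs_sum_le_sum_abs _ _
  have h2 : ∀ k : Fin 3, |(lam k : ℤ) * v k| ≤ (L : ℤ) * B := by
    intro k
    rw [abs_mul, abs_of_nonneg (Int.natCast_nonneg (lam k))]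
    have h3 : (lam k : ℤ) ≤ L := by exact_mod_cast hb k
    exact mul_le_mul h3 (hv k) (abs_nonneg _) (Int.natCast_nonneg _)
  have h3 := Finset.sum_le_sum fun k (_ : k ∈ (univ : Finset (Fin 3))) => h2 k
  rw [Finset.sum_const, card_univ, Fintype.card_fin] at h3
  have h4 : (3 : ℕ) • ((L : ℤ) * B) = 3 * L * B := by
    rw [nsmul_eq_mul]
    push_cast
    ring
  rw [h4] at h3
  exact h1.trans h3

theorem cwalk_abs {p q : Q} {w : List (Vec 3)} (h : Walk T p w q) (k : Fin 3) :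
    |w.sum k| ≤ ((w.length * maxNorm T : ℕ) : ℤ) := by
  have h1 : ∀ v ∈ w, ∀ k, |v k| ≤ (maxNorm T : ℤ) := by
    intro v hv k
    obtain ⟨a, b, hab⟩ := h.letters v hv
    exact abs_le_maxNorm hab k
  have := sum_le h1 k
  push_cast
  exact this

theorem short_walk [Fintype Q] {p q : Q} {w : List (Vec 3)} (h : Walk T p w q) :
    ∃ w', Walk T p w' q ∧ w'.length ≤ Fintype.card Q := by
  classical
  have key : ∀ {p q : Q} {w : List (Vec 3)}, Walk T p w q → ∀ x : Vec 3,
      PW T (fun _ _ => True) p x w q := by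
    intro p q w h
    induction h with
    | nil p => intro x; exact .nil trivial
    | cons h1 _ ih => intro x; exact .cons trivial h1 (ih _)
  obtain ⟨w', h1, -, h2⟩ := PW.shorten (P := fun _ _ => True) (E := ∅)
    (fun _ _ _ _ h => h) (C := (univ : Finset Q)) (fun r _ => r) (p := p) (x := (0 : Vec 3))
    (fun r y _ => mem_univ r)
    (fun r₁ r₂ u₁ u₂ _ _ _ _ h => ⟨h, fun j hj => absurd hj (Set.notMem_empty j)⟩)
    w.length le_rfl (key h 0)
  exact ⟨w', h1.walk, by rw [card_univ] at h2; omega⟩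

/-- the potential -/
theorem exists_pot [Fintype Q] {p₀ : Q} {lam : Fin 3 → ℕ} {L : ℕ} (hb : ∀ k, lam k ≤ L)
    (hc : ∀ r u, InS T p₀ r → Walk T r u r → wt3 lam u.sum ≤ 0) :
    ∃ π : Q → ℤ,
      (∀ r, InS T p₀ r → |π r| ≤ 3 * L * (Fintype.card Q * maxNorm T : ℕ)) ∧
      (∀ r v r', InS T p₀ r → InS T p₀ r' → (r, v, r') ∈ T → wt3 lam v + π r' ≤ π r) := by
  classical
  obtain ⟨S, hS⟩ : ∃ S : Q → Set ℤ, S = fun r => {z | ∃ w, Walk T r w p₀ ∧ z = wt3 lam w.sum} :=
    ⟨_, rfl⟩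
  have hmem : ∀ r z, z ∈ S r ↔ ∃ w, Walk T r w p₀ ∧ z = wt3 lam w.sum := by
    intro r z
    rw [hS]
    rfl
  have hsm : ∀ {p q : Q} {w : List (Vec 3)}, Walk T p w q → w.length ≤ Fintype.card Q →
      |wt3 lam w.sum| ≤ 3 * L * (Fintype.card Q * maxNorm T : ℕ) := by
    intro p q w hw hl
    refine wt3_abs hb fun k => (cwalk_abs hw k).trans ?_
    exact_mod_cast Nat.mul_le_mul_right _ hl
  have hub : ∀ r, InS T p₀ r → ∀ z ∈ S r, z ≤ 3 * L * (Fintype.card Q * maxNorm T : ℕ) := by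
    intro r hr z hz
    obtain ⟨w, hw, rfl⟩ := (hmem r z).1 hz
    obtain ⟨b, hb1⟩ := hr.1
    obtain ⟨b', hb2, hb3⟩ := short_walk hb1
    have h1 := hc r (w ++ b') hr (hw.append hb2)
    rw [List.sum_append, wt3_add] at h1
    have h2 := (abs_le.1 (hsm hb2 hb3)).1
    linarith
  have hne : ∀ r, InS T p₀ r → (S r).Nonempty := by
    intro r hr
    obtain ⟨b, hb1⟩ := hr.2
    exact ⟨_, (hmem r _).2 ⟨b, hb1, rfl⟩⟩
  have hbdd : ∀ r, InS T p₀ r → BddAbove (S r) := fun r hr => ⟨_, fun z hz => hub r hr z hz⟩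
  refine ⟨fun r => sSup (S r), fun r hr => ?_, fun r v r' hr hr' hv => ?_⟩
  · rw [abs_le]
    constructor
    · obtain ⟨b, hb1⟩ := hr.2
      obtain ⟨b', hb2, hb3⟩ := short_walk hb1
      have h2 := (abs_le.1 (hsm hb2 hb3)).1
      exact h2.trans (le_csSup (hbdd r hr) ((hmem r _).2 ⟨b', hb2, rfl⟩))
    · exact csSup_le (hne r hr) fun z hz => hub r hr z hz
  · obtain ⟨w, hw, he⟩ := (hmem r' _).1 (Int.csSup_mem (hne r' hr') (hbdd r' hr'))
    show wt3 lam v + sSup (S r') ≤ sSup (S r)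
    rw [he, ← wt3_add]
    refine le_csSup (hbdd r hr) ((hmem r _).2 ⟨v :: w, .cons hv hw, ?_⟩)
    rw [List.sum_cons]

/-- the tight transitions -/
theorem tight_two {lam : Fin 3 → ℕ} (hlam : ∃ k, lam k ≠ 0) {π : Q → ℤ} {T₀ : VASS Q 3}
    (hT₀ : ∀ r v r', (r, v, r') ∈ T₀ → wt3 lam v + π r' = π r) :
    (∀ p, TwoAt T₀ p) ∧ geomDim T₀ ≤ 2 := by
  classical
  have hwk : ∀ {p q : Q} {w : List (Vec 3)}, Walk T₀ p w q → wt3 lam w.sum + π q = π p := by
    intro p q w h
    induction h with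
    | nil p => rw [List.sum_nil, wt3_zero, zero_add]
    | cons h1 _ ih =>
      rw [List.sum_cons, wt3_add, add_assoc, ih]
      exact hT₀ _ _ _ h1
  obtain ⟨F, hF⟩ : ∃ F : (Fin 3 → ℚ) →ₗ[ℚ] ℚ, ∀ x, F x = ∑ k, (lam k : ℚ) * x k :=
    ⟨∑ k, (lam k : ℚ) • LinearMap.proj k, fun x => by simp⟩
  have hcl : ∀ {p : Q} {w : List (Vec 3)}, Walk T₀ p w p → qv w.sum ∈ LinearMap.ker F := by
    intro p w h
    have h1 := hwk h
    have h2 : wt3 lam w.sum = 0 := by linarith
    rw [LinearMap.mem_ker, hF]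
    have h3 : ((wt3 lam w.sum : ℤ) : ℚ) = 0 := by rw [h2]; norm_num
    rw [wt3] at h3
    push_cast at h3
    exact h3
  have hker : Module.finrank ℚ (LinearMap.ker F) ≤ 2 := by
    have h1 : LinearMap.ker F ≠ ⊤ := by
      intro h
      obtain ⟨k, hk⟩ := hlam
      have h2 : (Pi.single k 1 : Fin 3 → ℚ) ∈ LinearMap.ker F := by rw [h]; trivial
      rw [LinearMap.mem_ker, hF] at h2
      rw [Finset.sum_eq_single k] at h2
      · rw [Pi.single_eq_same, mul_one] at h2
        exact hk (by exact_mod_cast h2)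
      · intro j _ hj
        rw [Pi.single_eq_of_ne hj, mul_zero]
      · intro h
        exact absurd (mem_univ k) h
    have h2 := Submodule.finrank_lt h1
    rw [Module.finrank_fintype_fun_eq_card, Fintype.card_fin] at h2
    omega
  constructor
  · intro p
    refine (Submodule.finrank_mono ?_).trans hker
    rw [VS, Submodule.span_le]
    rintro c ⟨w, hw, rfl⟩
    exact hcl hw
  · refine (Submodule.finrank_mono ?_).trans hker
    rw [Submodule.span_le]
    rintro c ⟨q, w, hw, rfl⟩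
    exact hcl hw

/-- one tight piece -/
theorem tight_piece [Fintype Q] {lam : Fin 3 → ℕ} (hlam : ∃ k, lam k ≠ 0) {π : Q → ℤ}
    {T₀ : VASS Q 3} (hT₀ : ∀ r v r', (r, v, r') ∈ T₀ → wt3 lam v + π r' = π r) (hsub : T₀ ⊆ T)
    {H : ℕ} (hH : 1 ≤ H) {p q : Q} {x : Vec 3} {u : List (Vec 3)} (hx : 0 ≤ x)
    (hu : Walk T₀ p u q) (hok : Ok x u) (hHu : ∀ k, (x + u.sum) k ≤ H) :
    ∃ u', Walk T p u' q ∧ Ok x u' ∧ u.sum ≤ u'.sum ∧
      u'.length ≤ H * cP2 (Fintype.card Q) (maxNorm T) := by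
  classical
  obtain ⟨h1, h2⟩ := tight_two hlam hT₀
  have hend : 0 ≤ x + u.sum := Ok_end hx hok
  have e1 : zv (fun k => (x k).toNat) = x := by
    funext k
    exact Int.toNat_of_nonneg (hx k)
  have e2 : zv (fun k => ((x + u.sum) k).toNat) = x + u.sum := by
    funext k
    exact Int.toNat_of_nonneg (hend k)
  have hrun : Run T₀ p (fun k => (x k).toNat) u q (fun k => ((x + u.sum) k).toNat) := by
    refine run_iff.2 ⟨hu, ?_, ?_⟩
    · rw [e1]; exact hok
    · rw [e1, e2]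
  obtain ⟨w', y'', h3, h4, h5⟩ := pm_main (fun p => Or.inl (h1 p)) hrun (fun k => le_rfl)
  obtain ⟨h6, h7, h8⟩ := run_iff.1 h3
  rw [e1] at h7 h8
  have hmono : ∀ {a b : Q} {w : List (Vec 3)}, Walk T₀ a w b → Walk T a w b := by
    intro a b w h
    induction h with
    | nil p => exact .nil p
    | cons h1 _ ih => exact .cons (hsub h1) ih
  refine ⟨w', hmono h6, h7, fun k => ?_, h5.trans ?_⟩
  · have h9 := h4 k
    have h10 := congrFun h8 k
    have h11 := congrFun e2 k
    simp only [zv, Pi.add_apply] at h10 h11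
    have h12 : ((((x + u.sum) k).toNat : ℕ) : ℤ) ≤ (y'' k : ℤ) := by exact_mod_cast h9
    simp only [Pi.add_apply] at h12
    linarith
  · have h13 : max 1 (supN fun k => ((x + u.sum) k).toNat) ≤ H := by
      refine max_le hH (Finset.sup_le fun k _ => ?_)
      have := hHu k
      omega
    have h14 : maxNorm T₀ ≤ maxNorm T := Finset.sup_mono hsub
    refine Nat.mul_le_mul h13 ?_
    have hn : 1 ≤ Fintype.card Q := Fintype.card_pos_iff.2 ⟨p⟩
    calc ((2 * Fintype.card Q * (3 + 1) * (maxNorm T₀ + 1)) ^ 400) ^ (geomDim T₀ + 1)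
        ≤ ((8 * Fintype.card Q * (maxNorm T + 1)) ^ 400) ^ (geomDim T₀ + 1) := by
          refine Nat.pow_le_pow_left (Nat.pow_le_pow_left ?_ _) _
          have : 2 * Fintype.card Q * (3 + 1) = 8 * Fintype.card Q := by ring
          rw [this]
          exact Nat.mul_le_mul_left _ (by omega)
      _ ≤ ((8 * Fintype.card Q * (maxNorm T + 1)) ^ 400) ^ 3 := by
          refine Nat.pow_le_pow_right ?_ (by omega)
          positivity
      _ = cP2 (Fintype.card Q) (maxNorm T) := by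
          rw [cP2, ← pow_mul]

/-- the first transition which is not tight -/
theorem first_loose {P : Q → Vec 3 → Prop} {T₀ : VASS Q 3} {p q : Q} {x : Vec 3}
    {w : List (Vec 3)} (h : PW T P p x w q) : PW T₀ P p x w q ∨
      ∃ u v r r' w₁, w = u ++ v :: w₁ ∧ PW T₀ P p x u r ∧ (r, v, r') ∈ T ∧ (r, v, r') ∉ T₀ ∧
        PW T P r' (x + u.sum + v) w₁ q := by
  induction h with
  | @nil p x h0 => exact Or.inl (.nil h0)
  | @cons p p' q v x w h0 h1 h2 ih =>
    by_cases hT : (p, v, p') ∈ T₀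
    · rcases ih with ih | ⟨u, v', r, r', w₁, e, h3, h4, h5, h6⟩
      · exact Or.inl (.cons h0 hT ih)
      · refine Or.inr ⟨v :: u, v', r, r', w₁, by rw [e, List.cons_append],
          .cons h0 hT h3, h4, h5, ?_⟩
        have es : x + (v :: u).sum + v' = x + v + u.sum + v' := by
          rw [List.sum_cons, ← add_assoc]
        rw [es]
        exact h6
    · exact Or.inr ⟨[], v, p, p', w, rfl, .nil h0, h1, hT, by simpa using h2⟩

theorem costly3 {Q : Type} [Fintype Q] {T : VASS Q 3} {p₀ : Q} {lam : Fin 3 → ℕ}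
    (hlam : ∃ k, lam k ≠ 0) (hb : ∀ k, lam k ≤ cLam (Fintype.card Q) (maxNorm T))
    (hc : ∀ r u, InS T p₀ r → Walk T r u r → ∑ k, (lam k : ℤ) * u.sum k ≤ 0) {H : ℕ}
    (hH : 1 ≤ H) {p q : Q} {x : Vec 3} {w : List (Vec 3)}
    (h : PW T (fun r y => InS T p₀ r ∧ 0 ≤ y ∧ ∀ k, y k ≤ H) p x w q) :
    ∃ w', Walk T p w' q ∧ Ok x w' ∧ w.sum ≤ w'.sum ∧
      w'.length ≤ H ^ 2 * cCo (Fintype.card Q) (maxNorm T) := by
  classical
  obtain ⟨π, hπ1, hπ2⟩ := exists_pot (T := T) (p₀ := p₀) (lam := lam) hb hc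
  obtain ⟨T₀, hT₀⟩ : ∃ T₀ : VASS Q 3, T₀ = T.filter fun t => wt3 lam t.2.1 + π t.2.2 = π t.1 :=
    ⟨_, rfl⟩
  have hsub : T₀ ⊆ T := by rw [hT₀]; exact filter_subset _ _
  have htight : ∀ r v r', (r, v, r') ∈ T₀ → wt3 lam v + π r' = π r := by
    intro r v r' h
    rw [hT₀, mem_filter] at h
    exact h.2
  obtain ⟨K, hK⟩ : ∃ K, K = H * cP2 (Fintype.card Q) (maxNorm T) := ⟨_, rfl⟩
  have hwk : ∀ {p q : Q} {w : List (Vec 3)}, Walk T₀ p w q → wt3 lam w.sum + π q = π p := by
    intro p q w h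
    induction h with
    | nil p => rw [List.sum_nil, wt3_zero, zero_add]
    | cons h1 _ ih =>
      rw [List.sum_cons, wt3_add, add_assoc, ih]
      exact htight _ _ _ h1
  have hdown : ∀ {p q : Q} {x : Vec 3} {w : List (Vec 3)},
      PW T (fun r y => InS T p₀ r ∧ 0 ≤ y ∧ ∀ k, y k ≤ H) p x w q →
      wt3 lam w.sum + π q ≤ π p := by
    intro p q x w h
    induction h with
    | nil _ => rw [List.sum_nil, wt3_zero, zero_add]
    | cons h0 h1 h2 ih =>
      rw [List.sum_cons, wt3_add, add_assoc]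
      have := hπ2 _ _ _ h0.1 h2.start.1 h1
      linarith
  have hPok : ∀ {T' : VASS Q 3} {p q : Q} {x : Vec 3} {w : List (Vec 3)},
      PW T' (fun r y => InS T p₀ r ∧ 0 ≤ y ∧ ∀ k, y k ≤ H) p x w q → Ok x w := by
    intro T' p q x w h
    induction h with
    | nil _ => trivial
    | cons _ _ h2 ih => exact ⟨h2.start.2.1, ih⟩
  have hokm : ∀ {x x' : Vec 3} {w : List (Vec 3)}, Ok x w → x ≤ x' → Ok x' w := by
    intro x x' w h hx
    refine Ok_between h h fun k => ?_
    rw [min_self]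
    exact hx k
  have main : ∀ (N : ℕ) {p : Q} {x : Vec 3} {w : List (Vec 3)}, w.length ≤ N →
      PW T (fun r y => InS T p₀ r ∧ 0 ≤ y ∧ ∀ k, y k ≤ H) p x w q →
      ∃ w', Walk T p w' q ∧ Ok x w' ∧ w.sum ≤ w'.sum ∧
        (w'.length : ℤ) ≤ (π p - (wt3 lam w.sum + π q)) * (K + 1) + K := by
    intro N
    induction N with
    | zero =>
      intro p x w hl h
      have hw : w = [] := List.length_eq_zero_iff.1 (Nat.le_zero.1 hl)
      subst hw
      cases h with
      | nil h0 =>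
        refine ⟨[], .nil _, trivial, le_rfl, ?_⟩
        rw [List.sum_nil, wt3_zero, zero_add, sub_self, zero_mul, zero_add]
        simp
    | succ N ih =>
      intro p x w hl h
      rcases first_loose (T₀ := T₀) h with h1 | ⟨u, v, r, r', w₁, rfl, h1, h2, h3, h4⟩
      · obtain ⟨u', a1, a2, a3, a4⟩ := tight_piece (T := T) hlam htight hsub hH h1.start.2.1
          h1.walk (hPok h1) h1.stop.2.2
        refine ⟨u', a1, a2, a3, ?_⟩
        have h5 := hwk h1.walk
        rw [h5, sub_self, zero_mul, zero_add, hK]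
        exact_mod_cast a4
      · obtain ⟨u', a1, a2, a3, a4⟩ := tight_piece (T := T) hlam htight hsub hH h1.start.2.1
          h1.walk (hPok h1) h1.stop.2.2
        have hl2 : w₁.length ≤ N := by
          rw [List.length_append, List.length_cons] at hl
          omega
        obtain ⟨w₂, b1, b2, b3, b4⟩ := ih hl2 h4
        have h5 := hwk h1.walk
        have h6 : wt3 lam v + π r' + 1 ≤ π r := by
          have h7 := hπ2 _ _ _ h1.stop.1 h4.start.1 h2
          have h8 : wt3 lam v + π r' ≠ π r := by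
            intro he
            apply h3
            rw [hT₀, mem_filter]
            exact ⟨h2, he⟩
          omega
        have hle : x + u.sum + v ≤ x + u'.sum + v := by
          intro k
          have := a3 k
          simp only [Pi.add_apply]
          linarith
        refine ⟨u' ++ v :: w₂, a1.append (.cons h2 b1), ?_, ?_, ?_⟩
        · rw [Ok_append]
          refine ⟨a2, ?_, hokm b2 hle⟩
          exact h4.start.2.1.trans hle
        · rw [List.sum_append, List.sum_append, List.sum_cons, List.sum_cons]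
          exact add_le_add a3 (add_le_add le_rfl b3)
        · rw [List.sum_append, List.sum_cons, wt3_add, wt3_add, List.length_append,
            List.length_cons]
          rw [← hK] at a4
          have a5 : (u'.length : ℤ) ≤ K := by exact_mod_cast a4
          push_cast
          have h9 : π p - (wt3 lam u.sum + (wt3 lam v + wt3 lam w₁.sum) + π q) ≥
              π r' - (wt3 lam w₁.sum + π q) + 1 := by linarith
          have hK0 : (0 : ℤ) ≤ (K : ℤ) + 1 := by positivity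
          have h10 := mul_le_mul_of_nonneg_right h9 hK0
          nlinarith
  obtain ⟨w', c1, c2, c3, c4⟩ := main w.length le_rfl h
  refine ⟨w', c1, c2, c3, ?_⟩
  obtain ⟨n, hn⟩ : ∃ n, n = Fintype.card Q := ⟨_, rfl⟩
  obtain ⟨M, hM⟩ : ∃ M, M = maxNorm T := ⟨_, rfl⟩
  have hn1 : 1 ≤ n := by
    rw [hn]
    exact Fintype.card_pos_iff.2 ⟨p⟩
  rw [← hn, ← hM] at hK hb hπ1
  rw [← hn, ← hM]
  have hd : π p - (wt3 lam w.sum + π q) ≤ 3 * (cLam n M : ℤ) * H + 2 * (3 * (cLam n M : ℤ) *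
      ((n * M : ℕ) : ℤ)) := by
    have h1 := (abs_le.1 (hπ1 p h.start.1)).2
    have h2 := (abs_le.1 (hπ1 q h.stop.1)).1
    have h3 : -(3 * (cLam n M : ℤ) * H) ≤ wt3 lam w.sum := by
      have h4 : 0 ≤ wt3 lam (x + w.sum) := by
        refine Finset.sum_nonneg fun k _ => mul_nonneg (Int.natCast_nonneg _) ?_
        exact h.stop.2.1 k
      have h5 : |wt3 lam x| ≤ 3 * (cLam n M : ℤ) * H := by
        refine wt3_abs hb fun k => ?_
        rw [abs_of_nonneg (h.start.2.1 k)]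
        exact h.start.2.2 k
      rw [wt3_add] at h4
      have := (abs_le.1 h5).2
      linarith
    linarith
  obtain ⟨X, hX⟩ : ∃ X, X = 8 * n * (M + 1) := ⟨_, rfl⟩
  have hX8 : 8 ≤ X := by
    rw [hX]
    have : 1 ≤ n * (M + 1) := Nat.mul_pos hn1 (by omega)
    calc 8 = 8 * 1 := by ring
      _ ≤ 8 * (n * (M + 1)) := Nat.mul_le_mul_left _ this
      _ = 8 * n * (M + 1) := by ring
  have hlamX : cLam n M = X ^ 20 := by rw [cLam, hX]
  have hP2X : cP2 n M = X ^ 1200 := by rw [cP2, hX]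
  have hCoX : cCo n M = X ^ 1300 := by rw [cCo, hX]
  have h1 : (w'.length : ℤ) ≤ (3 * (cLam n M : ℤ) * H + 2 * (3 * (cLam n M : ℤ) *
      ((n * M : ℕ) : ℤ))) * (K + 1) + K := by
    have hK0 : (0 : ℤ) ≤ (K : ℤ) + 1 := by positivity
    have := mul_le_mul_of_nonneg_right hd hK0
    linarith
  have h2 : w'.length ≤ (3 * cLam n M * H + 2 * (3 * cLam n M * (n * M))) * (K + 1) + K := by
    exact_mod_cast h1
  have h3 : 3 * cLam n M * H + 2 * (3 * cLam n M * (n * M)) ≤ X ^ 21 * H := by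
    rw [hlamX]
    have h4 : 3 * H + 2 * (3 * (n * M)) ≤ X * H := by
      have h5 : 2 * (3 * (n * M)) ≤ 6 * (n * M) * H := by
        calc 2 * (3 * (n * M)) = 6 * (n * M) * 1 := by ring
          _ ≤ 6 * (n * M) * H := Nat.mul_le_mul_left _ hH
      have h6 : 3 + 6 * (n * M) ≤ X := by
        rw [hX]
        nlinarith
      calc 3 * H + 2 * (3 * (n * M)) ≤ 3 * H + 6 * (n * M) * H := by omega
        _ = (3 + 6 * (n * M)) * H := by ring
        _ ≤ X * H := Nat.mul_le_mul_right _ h6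
    calc 3 * X ^ 20 * H + 2 * (3 * X ^ 20 * (n * M)) =
        X ^ 20 * (3 * H + 2 * (3 * (n * M))) := by ring
      _ ≤ X ^ 20 * (X * H) := Nat.mul_le_mul_left _ h4
      _ = X ^ 21 * H := by ring
  have h7 : K + 1 ≤ X ^ 1201 * H := by
    rw [hK, hP2X]
    have h8 : 1 ≤ H * X ^ 1200 := Nat.mul_pos hH (by positivity)
    calc H * X ^ 1200 + 1 ≤ 2 * (H * X ^ 1200) := by omega
      _ ≤ X * (H * X ^ 1200) := Nat.mul_le_mul_right _ (by omega)
      _ = X ^ 1201 * H := by ring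
  have h9 : H ≤ H ^ 2 := by
    rw [pow_two]
    exact Nat.le_mul_of_pos_left H hH
  calc w'.length ≤ (3 * cLam n M * H + 2 * (3 * cLam n M * (n * M))) * (K + 1) + K := h2
    _ ≤ (X ^ 21 * H) * (X ^ 1201 * H) + X ^ 1201 * H := by
        refine Nat.add_le_add (Nat.mul_le_mul h3 h7) (by omega)
    _ ≤ (X ^ 21 * H) * (X ^ 1201 * H) + X ^ 1201 * H ^ 2 := by
        refine Nat.add_le_add_left (Nat.mul_le_mul_left _ h9) _
    _ = H ^ 2 * (X ^ 1222 + X ^ 1201) := by ring
    _ ≤ H ^ 2 * cCo n M := by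
        rw [hCoX]
        refine Nat.mul_le_mul_left _ ?_
        calc X ^ 1222 + X ^ 1201 ≤ X ^ 1222 + X ^ 1222 := by
              refine Nat.add_le_add_left (Nat.pow_le_pow_right (by omega) (by norm_num)) _
          _ = 2 * X ^ 1222 := by ring
          _ ≤ X * X ^ 1222 := Nat.mul_le_mul_right _ (by omega)
          _ = X ^ 1223 := by ring
          _ ≤ X ^ 1300 := Nat.pow_le_pow_right (by omega) (by norm_num)

end Pool.Agent.EE3
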