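import Pool.Agent.EE3.Chain2
import Pool.Agent.EE3.Costly
import Pool.Agent.EE2.ClassPM

/-!
# EE3 / NonInc: components with a counter which no cycle increases
-/

set_option autoImplicit false
set_option linter.unusedSectionVars false

namespace Pool.Agent.EE3

open Pool.Agent.EEF Pool.Agent.REV Pool.Agent.EE2 Finset

/-- length factor for components with a counter which no cycle increases -/
def cNI (n M : ℕ) : ℕ := (8 * n * (M + 1)) ^ 1000

/-- the weight of one counter -/
def lam1 (k₀ : Fin 3) (k : Fin 3) : ℕ := if k = k₀ then 1 else 0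

theorem wt3_lam1 (k₀ : Fin 3) (v : Vec 3) : wt3 (lam1 k₀) v = v k₀ := by
  simp [wt3, lam1]

theorem scheme_sub {Q : Type} {T T₀ : VASS Q 3} (hsub : T₀ ⊆ T) {p q : Q}
    {L : List (List (Vec 3) × List (Vec 3))} (h : IsScheme T₀ p L q) : IsScheme T p L q := by
  have hmono : ∀ {a b : Q} {w : List (Vec 3)}, Walk T₀ a w b → Walk T a w b := by
    intro a b w h
    induction h with
    | nil p => exact .nil p
    | cons h1 _ ih => exact .cons (hsub h1) ih
  induction h with
  | nil p => exact .nil p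
  | cons h1 h2 _ ih => exact .cons (hmono h1) (hmono h2) ih

theorem size_mem {L : List (List (Vec 3) × List (Vec 3))} :
    L.length ≤ schemeSize L ∧ ∀ e ∈ L, e.1.length + e.2.length ≤ schemeSize L := by
  induction L with
  | nil => simp [schemeSize]
  | cons a L ih =>
    have e : schemeSize (a :: L) = (a.1.length + a.2.length + 1) + schemeSize L := by
      simp [schemeSize]
    rw [e]
    refine ⟨by rw [List.length_cons]; omega, fun b hb => ?_⟩
    rcases List.mem_cons.1 hb with rfl | hb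
    · omega
    · have := ih.2 b hb
      omega

theorem unroll_length_le {s : ℕ} : ∀ {J : List (Itm 3)},
    (∀ e ∈ J, e.1.length + e.2.1.length ≤ s) →
    (unroll J).length ≤ s * (J.length + (J.map fun e => e.2.2).sum) := by
  intro J
  induction J with
  | nil => simp [unroll_nil]
  | cons a J ih =>
    intro h
    have h1 := ih fun e he => h e (List.mem_cons_of_mem _ he)
    have h2 := h a List.mem_cons_self
    rw [unroll_cons, List.length_append, wrd, List.length_append, rep_length, List.map_cons,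
      List.sum_cons, List.length_cons]
    have h3 : a.2.2 * a.2.1.length ≤ a.2.2 * s := Nat.mul_le_mul_left _ (by omega)
    nlinarith

/-- one tight piece as a scheme with the same effect -/
theorem tight_scheme {Q : Type} [Fintype Q] {k₀ : Fin 3} {π : Q → ℤ} {T T₀ : VASS Q 3}
    (hT₀ : ∀ r v r', (r, v, r') ∈ T₀ → wt3 (lam1 k₀) v + π r' = π r) (hsub : T₀ ⊆ T)
    {p q : Q} {x : Vec 3} {u : List (Vec 3)} (hx : 0 ≤ x)
    (hu : Walk T₀ p u q) (hok : Ok x u) {s : ℕ}
    (hs : Fintype.card Q * (cPM (Fintype.card Q) 3 (geomDim T₀) (maxNorm T₀) + 2) ≤ s) :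
    ∃ I : List (Itm 3), IsScheme T p (I.map isk) q ∧ Ok x (unroll I) ∧
      (unroll I).sum = u.sum ∧ (∀ e ∈ I, e.2.1.sum k₀ = 0) ∧
      (∀ e ∈ I, e.1.length + e.2.1.length ≤ s) ∧ I.length ≤ s := by
  classical
  have hlam : ∃ k, lam1 k₀ k ≠ 0 := ⟨k₀, by simp [lam1]⟩
  obtain ⟨h1, -⟩ := tight_two hlam hT₀
  have hwk : ∀ {p q : Q} {w : List (Vec 3)}, Walk T₀ p w q →
      wt3 (lam1 k₀) w.sum + π q = π p := by
    intro p q w h
    induction h with
    | nil p => rw [List.sum_nil, wt3_zero, zero_add]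
    | cons h1 _ ih =>
      rw [List.sum_cons, wt3_add, add_assoc, ih]
      exact hT₀ _ _ _ h1
  obtain ⟨I, h2, h3, h4, h5⟩ := pm_scheme (fun p => Or.inl (h1 p)) (Fintype.card Q)
    (le_of_eq card_univ) hx hu.walkIn hok
  refine ⟨I, scheme_sub hsub h2, h3, h4, fun e he => ?_, fun e he => ?_, ?_⟩
  · obtain ⟨-, r, hr⟩ := scheme_loops I h2 e he
    have := hwk hr
    rw [wt3_lam1] at this
    linarith
  · have := size_mem.2 (isk e) (List.mem_map_of_mem he)
    have h6 : (isk e).1.length + (isk e).2.length = e.1.length + e.2.1.length := rfl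
    omega
  · have := (size_mem (L := I.map isk)).1
    rw [List.length_map] at this
    omega

theorem noninc3 {Q : Type} [Fintype Q] {T : VASS Q 3} {p₀ : Q} {k₀ : Fin 3}
    (hc : ∀ r u, InS T p₀ r → Walk T r u r → u.sum k₀ ≤ 0) {H : ℕ}
    (hH : 1 ≤ H) {p q : Q} {x : Vec 3} {w : List (Vec 3)}
    (h : PW T (fun r y => InS T p₀ r ∧ 0 ≤ y ∧ ∀ k, y k ≤ H) p x w q) :
    ∃ w', Walk T p w' q ∧ Ok x w' ∧ w.sum ≤ w'.sum ∧
      w'.length ≤ H * cNI (Fintype.card Q) (maxNorm T) := by
  classical
  have hb : ∀ k, lam1 k₀ k ≤ 1 := by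
    intro k
    unfold lam1
    split_ifs <;> omega
  obtain ⟨π, hπ1, hπ2⟩ := exists_pot (T := T) (p₀ := p₀) (lam := lam1 k₀) hb
    (fun r u hr hu => by rw [wt3_lam1]; exact hc r u hr hu)
  obtain ⟨T₀, hT₀⟩ : ∃ T₀ : VASS Q 3,
      T₀ = T.filter fun t => wt3 (lam1 k₀) t.2.1 + π t.2.2 = π t.1 := ⟨_, rfl⟩
  have hsub : T₀ ⊆ T := by rw [hT₀]; exact filter_subset _ _
  have htight : ∀ r v r', (r, v, r') ∈ T₀ → wt3 (lam1 k₀) v + π r' = π r := by
    intro r v r' h
    rw [hT₀, mem_filter] at h
    exact h.2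
  obtain ⟨n, hn⟩ : ∃ n, n = Fintype.card Q := ⟨_, rfl⟩
  obtain ⟨M, hM⟩ : ∃ M, M = maxNorm T := ⟨_, rfl⟩
  have hn1 : 1 ≤ n := by
    rw [hn]
    exact Fintype.card_pos_iff.2 ⟨p⟩
  obtain ⟨X, hX⟩ : ∃ X, X = 8 * n * (M + 1) := ⟨_, rfl⟩
  have hX8 : 8 ≤ X := by
    rw [hX]
    have : 1 ≤ n * (M + 1) := Nat.mul_pos hn1 (by omega)
    calc 8 = 8 * 1 := by ring
      _ ≤ 8 * (n * (M + 1)) := Nat.mul_le_mul_left _ this
      _ = 8 * n * (M + 1) := by ring
  have hX1 : 1 ≤ X := by omega
  have hnX : 8 * n ≤ X := by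
    rw [hX]
    exact Nat.le_mul_of_pos_right _ (by omega)
  have hMX : M + 1 ≤ X := by
    rw [hX]
    exact Nat.le_mul_of_pos_left _ (by omega)
  -- the size of the schemes
  obtain ⟨s, hs⟩ : ∃ s, s = X ^ 80 := ⟨_, rfl⟩
  have hs0 : Fintype.card Q * (cPM (Fintype.card Q) 3 (geomDim T₀) (maxNorm T₀) + 2) ≤ s := by
    have hg : geomDim T₀ ≤ 3 := by
      refine (Submodule.finrank_le _).trans ?_
      rw [Module.finrank_fintype_fun_eq_card, Fintype.card_fin]
    have hM0 : maxNorm T₀ ≤ M := by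
      rw [hM]
      exact Finset.sup_mono hsub
    have h1 := cTot_pow (d := 3) (M := maxNorm T₀) hn1
    have h2 := num_cyc (d := 3) (M := maxNorm T₀) hn1 hg
    have hN : 2 * n * (3 + 1) * (maxNorm T₀ + 1) ≤ X := by
      rw [hX]
      have : 2 * n * (3 + 1) = 8 * n := by ring
      rw [this]
      exact Nat.mul_le_mul_left _ (by omega)
    have h3 : cPM n 3 (geomDim T₀) (maxNorm T₀) + 1 ≤ X ^ 79 := by
      unfold cPM
      rcases le_total (cTot n 3 (maxNorm T₀)) (cCyc n 3 (geomDim T₀) (maxNorm T₀)) with h | h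
      · rw [max_eq_right h]
        exact (h2.trans (Nat.pow_le_pow_left hN _)).trans
          (Nat.pow_le_pow_right hX1 (by norm_num))
      · rw [max_eq_left h]
        exact h1.trans (Nat.pow_le_pow_left hN _)
    rw [← hn, hs]
    obtain ⟨c, hc⟩ : ∃ c, c = cPM n 3 (geomDim T₀) (maxNorm T₀) := ⟨_, rfl⟩
    rw [← hc] at h3 ⊢
    calc n * (c + 2) ≤ n * (2 * X ^ 79) := Nat.mul_le_mul_left _ (by omega)
      _ = (2 * n) * X ^ 79 := by ring
      _ ≤ X * X ^ 79 := Nat.mul_le_mul_right _ (by omega)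
      _ = X ^ 80 := by ring
  have hs1 : 1 ≤ s := by
    rw [hs]
    exact Nat.one_le_pow _ _ (by omega)
  have hwk : ∀ {p q : Q} {w : List (Vec 3)}, Walk T₀ p w q →
      wt3 (lam1 k₀) w.sum + π q = π p := by
    intro p q w h
    induction h with
    | nil p => rw [List.sum_nil, wt3_zero, zero_add]
    | cons h1 _ ih =>
      rw [List.sum_cons, wt3_add, add_assoc, ih]
      exact htight _ _ _ h1
  have hPok : ∀ {T' : VASS Q 3} {p q : Q} {x : Vec 3} {w : List (Vec 3)},
      PW T' (fun r y => InS T p₀ r ∧ 0 ≤ y ∧ ∀ k, y k ≤ H) p x w q → Ok x w := by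
    intro T' p q x w h
    induction h with
    | nil _ => trivial
    | cons _ _ h2 ih => exact ⟨h2.start.2.1, ih⟩
  have main : ∀ (N : ℕ) {p : Q} {x : Vec 3} {w : List (Vec 3)}, w.length ≤ N →
      PW T (fun r y => InS T p₀ r ∧ 0 ≤ y ∧ ∀ k, y k ≤ H) p x w q →
      ∃ I : List (Itm 3), IsScheme T p (I.map isk) q ∧ Ok x (unroll I) ∧
        (unroll I).sum = w.sum ∧ (∀ e ∈ I, e.2.1.sum k₀ = 0) ∧
        (∀ e ∈ I, e.1.length + e.2.1.length ≤ s) ∧
        (I.length : ℤ) ≤ (π p - (wt3 (lam1 k₀) w.sum + π q)) * (s + 1) + s := by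
    intro N
    induction N with
    | zero =>
      intro p x w hl h
      have hw : w = [] := List.length_eq_zero_iff.1 (Nat.le_zero.1 hl)
      subst hw
      cases h with
      | nil h0 =>
        refine ⟨[], .nil _, trivial, rfl, by simp, by simp, ?_⟩
        rw [List.sum_nil, wt3_zero, zero_add, sub_self, zero_mul, zero_add]
        simp
    | succ N ih =>
      intro p x w hl h
      rcases first_loose (T₀ := T₀) h with h1 | ⟨u, v, r, r', w₁, rfl, h1, h2, h3, h4⟩
      · obtain ⟨I, a1, a2, a3, a4, a5, a6⟩ := tight_scheme htight hsub h1.start.2.1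
          h1.walk (hPok h1) hs0
        refine ⟨I, a1, a2, a3, a4, a5, ?_⟩
        have h5 := hwk h1.walk
        rw [h5, sub_self, zero_mul, zero_add]
        exact_mod_cast a6
      · obtain ⟨I, a1, a2, a3, a4, a5, a6⟩ := tight_scheme htight hsub h1.start.2.1
          h1.walk (hPok h1) hs0
        have hl2 : w₁.length ≤ N := by
          rw [List.length_append, List.length_cons] at hl
          omega
        obtain ⟨J, b1, b2, b3, b4, b5, b6⟩ := ih hl2 h4
        have h5 := hwk h1.walk
        have h6 : wt3 (lam1 k₀) v + π r' + 1 ≤ π r := by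
          have h7 := hπ2 _ _ _ h1.stop.1 h4.start.1 h2
          have h8 : wt3 (lam1 k₀) v + π r' ≠ π r := by
            intro he
            apply h3
            rw [hT₀, mem_filter]
            exact ⟨h2, he⟩
          omega
        have hu0 : unroll (([v], [], 0) :: J) = v :: unroll J := by
          rw [unroll_cons, wrd, rep_zero]
          rfl
        refine ⟨I ++ ([v], [], 0) :: J, ?_, ?_, ?_, ?_, ?_, ?_⟩
        · rw [List.map_append]
          exact a1.append (.cons (.cons h2 (.nil _)) (.nil _) b1)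
        · rw [unroll_append, Ok_append, hu0, a3]
          exact ⟨a2, h4.start.2.1, b2⟩
        · rw [unroll_append, List.sum_append, hu0, List.sum_cons, a3, b3, List.sum_append,
            List.sum_cons]
        · intro e he
          rcases List.mem_append.1 he with he | he
          · exact a4 e he
          · rcases List.mem_cons.1 he with rfl | he
            · simp
            · exact b4 e he
        · intro e he
          rcases List.mem_append.1 he with he | he
          · exact a5 e he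
          · rcases List.mem_cons.1 he with rfl | he
            · simpa using hs1
            · exact b5 e he
        · rw [List.sum_append, List.sum_cons, wt3_add, wt3_add, List.length_append,
            List.length_cons]
          have a7 : (I.length : ℤ) ≤ s := by exact_mod_cast a6
          push_cast
          have h9 : π p - (wt3 (lam1 k₀) u.sum + (wt3 (lam1 k₀) v + wt3 (lam1 k₀) w₁.sum) + π q) ≥
              π r' - (wt3 (lam1 k₀) w₁.sum + π q) + 1 := by linarith
          have hK0 : (0 : ℤ) ≤ (s : ℤ) + 1 := by positivity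
          have h10 := mul_le_mul_of_nonneg_right h9 hK0
          nlinarith
  obtain ⟨I, c1, c2, c3, c4, c5, c6⟩ := main w.length le_rfl h
  have hHend : ∀ k, (x + (unroll I).sum) k ≤ H := by
    rw [c3]
    exact h.stop.2.2
  obtain ⟨J, d1, d2, d3, d4⟩ := chain2 c1 h.start.2.1 c2 c4 c5 hHend
  have hJs : ∀ e ∈ J, e.1.length + e.2.1.length ≤ s := by
    intro e he
    have h1 : isk e ∈ I.map isk := by
      rw [← d1]
      exact List.mem_map_of_mem he
    obtain ⟨e', he', h2⟩ := List.mem_map.1 h1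
    have h3 := c5 e' he'
    have h4 : e'.1 = e.1 := congrArg (fun z : List (Vec 3) × List (Vec 3) => z.1) h2
    have h5 : e'.2.1 = e.2.1 := congrArg (fun z : List (Vec 3) × List (Vec 3) => z.2) h2
    rw [h4, h5] at h3
    exact h3
  have hJl : J.length = I.length := by
    have := congrArg List.length d1
    rwa [List.length_map, List.length_map] at this
  have hJw : Walk T p (unroll J) q := scheme_walk J (by rw [d1]; exact c1)
  refine ⟨unroll J, hJw, d2, by rw [← c3]; exact d3, ?_⟩
  have hlen := unroll_length_le hJs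
  rw [hJl] at hlen
  rw [← hM] at d4
  rw [← hn, ← hM] at hπ1
  rw [← hn, ← hM]
  -- the number of items
  have hd : π p - (wt3 (lam1 k₀) w.sum + π q) ≤ (H : ℤ) + 6 * ((n * M : ℕ) : ℤ) := by
    have h1 := (abs_le.1 (hπ1 p h.start.1)).2
    have h2 := (abs_le.1 (hπ1 q h.stop.1)).1
    have h3 : -(H : ℤ) ≤ wt3 (lam1 k₀) w.sum := by
      rw [wt3_lam1]
      have h4 := h.stop.2.1 k₀
      have h5 := h.start.2.2 k₀
      simp only [Pi.zero_apply, Pi.add_apply] at h4
      linarith
    push_cast at h1 h2 ⊢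
    linarith
  have h1 : (I.length : ℤ) ≤ ((H : ℤ) + 6 * ((n * M : ℕ) : ℤ)) * (s + 1) + s := by
    have hK0 : (0 : ℤ) ≤ (s : ℤ) + 1 := by positivity
    have := mul_le_mul_of_nonneg_right hd hK0
    linarith
  have h2 : I.length ≤ (H + 6 * (n * M)) * (s + 1) + s := by exact_mod_cast h1
  have h3 : I.length + H + 1 ≤ H * X ^ 83 := by
    have h4 : H + 6 * (n * M) + 1 ≤ H * X := by
      have h5 : 6 * (n * M) ≤ H * (6 * (n * M)) := Nat.le_mul_of_pos_left _ hH
      have h6 : 2 + 6 * (n * M) ≤ X := by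
        rw [hX]
        nlinarith
      calc H + 6 * (n * M) + 1 ≤ H + H * (6 * (n * M)) + H := by omega
        _ = H * (2 + 6 * (n * M)) := by ring
        _ ≤ H * X := Nat.mul_le_mul_left _ h6
    have h7 : s + 1 ≤ X ^ 81 := by
      rw [hs]
      have : 1 ≤ X ^ 80 := Nat.one_le_pow _ _ (by omega)
      calc X ^ 80 + 1 ≤ 2 * X ^ 80 := by omega
        _ ≤ X * X ^ 80 := Nat.mul_le_mul_right _ (by omega)
        _ = X ^ 81 := by ring
    have h8 : 1 ≤ H * X ^ 82 := Nat.mul_pos hH (by positivity)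
    have h9 : H ≤ H * X ^ 82 := Nat.le_mul_of_pos_right _ (by positivity)
    calc I.length + H + 1 ≤ (H + 6 * (n * M)) * (s + 1) + s + H + 1 := by omega
      _ ≤ (H + 6 * (n * M) + 1) * (s + 1) + H := by nlinarith
      _ ≤ (H * X) * X ^ 81 + H := Nat.add_le_add_right (Nat.mul_le_mul h4 h7) _
      _ = H * X ^ 82 + H := by ring
      _ ≤ H * X ^ 82 + H * X ^ 82 := by omega
      _ = 2 * (H * X ^ 82) := by ring
      _ ≤ X * (H * X ^ 82) := Nat.mul_le_mul_right _ (by omega)
      _ = H * X ^ 83 := by ring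
  have h4 : s * M + 2 ≤ X ^ 82 := by
    rw [hs]
    have : 1 ≤ X ^ 80 := Nat.one_le_pow _ _ (by omega)
    calc X ^ 80 * M + 2 ≤ X ^ 80 * M + 2 * X ^ 80 := by omega
      _ = X ^ 80 * (M + 2) := by ring
      _ ≤ X ^ 80 * (X * X) := by
          refine Nat.mul_le_mul_left _ ?_
          nlinarith
      _ = X ^ 82 := by ring
  have h5 : cCh s M ≤ X ^ 657 := by
    unfold cCh
    calc 8 * (s * M + 2) ^ 8 ≤ X * (X ^ 82) ^ 8 := Nat.mul_le_mul hX8 (Nat.pow_le_pow_left h4 8)
      _ = X ^ 657 := by ring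
  calc (unroll J).length ≤ s * (I.length + (J.map fun e => e.2.2).sum) := hlen
    _ ≤ s * (I.length + cCh s M * (I.length + H + 1)) := by
        exact Nat.mul_le_mul_left _ (by omega)
    _ ≤ X ^ 80 * (H * X ^ 83 + X ^ 657 * (H * X ^ 83)) := by
        rw [hs]
        refine Nat.mul_le_mul_left _ (Nat.add_le_add (by omega) ?_)
        rw [← hs]
        exact Nat.mul_le_mul h5 h3
    _ = H * X ^ 163 + H * X ^ 820 := by ring
    _ ≤ H * X ^ 820 + H * X ^ 820 := by
        refine Nat.add_le_add_right (Nat.mul_le_mul_left _ ?_) _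
        exact Nat.pow_le_pow_right (by omega) (by norm_num)
    _ = 2 * (H * X ^ 820) := by ring
    _ ≤ X * (H * X ^ 820) := Nat.mul_le_mul_right _ (by omega)
    _ = H * X ^ 821 := by ring
    _ ≤ H * X ^ 1000 := Nat.mul_le_mul_left _ (Nat.pow_le_pow_right (by omega) (by norm_num))
    _ = H * cNI n M := by rw [cNI, hX]

end Pool.Agent.EE3
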