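import Pool.Agent.EE3.WDefs
import Pool.Agent.EE3.Chain1
import Pool.Agent.EE3.NonInc
import Pool.Agent.EE3.MuW

/-!
# EE3 / Wedge: components whose cycles have a linear functional with zero set on a line
-/

set_option autoImplicit false
set_option linter.unusedSectionVars false

namespace Pool.Agent.EE3

open Pool.Agent.EEF Pool.Agent.REV Pool.Agent.EE2 Finset

variable {Q : Type} {T : VASS Q 3}

theorem zwgt_abs {nu : Fin 3 → ℤ} {L : ℕ} (hb : ∀ k, |nu k| ≤ (L : ℤ)) {v : Vec 3} {B : ℕ}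
    (hv : ∀ k, |v k| ≤ (B : ℤ)) : |zwgt nu v| ≤ 3 * L * B := by
  rw [zwgt_apply]
  have h1 : |∑ k, nu k * v k| ≤ ∑ k : Fin 3, |nu k * v k| := Finset.abs_sum_le_sum_abs _ _
  have h2 : ∀ k : Fin 3, |nu k * v k| ≤ (L : ℤ) * B := by
    intro k
    rw [abs_mul]
    exact mul_le_mul (hb k) (hv k) (abs_nonneg _) (Int.natCast_nonneg _)
  have h3 := Finset.sum_le_sum fun k (_ : k ∈ (univ : Finset (Fin 3))) => h2 k
  rw [Finset.sum_const, card_univ, Fintype.card_fin] at h3
  have h4 : (3 : ℕ) • ((L : ℤ) * B) = 3 * L * B := by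
    rw [nsmul_eq_mul]
    push_cast
    ring
  rw [h4] at h3
  exact h1.trans h3

/-- the potential -/
theorem exists_potZ [Fintype Q] {p₀ : Q} {nu : Fin 3 → ℤ} {L : ℕ} (hb : ∀ k, |nu k| ≤ (L : ℤ))
    (hc : ∀ r u, InS T p₀ r → Walk T r u r → zwgt nu u.sum ≤ 0) :
    ∃ π : Q → ℤ,
      (∀ r, InS T p₀ r → |π r| ≤ 3 * L * (Fintype.card Q * maxNorm T : ℕ)) ∧
      (∀ r v r', InS T p₀ r → InS T p₀ r' → (r, v, r') ∈ T → zwgt nu v + π r' ≤ π r) := by
  classical
  obtain ⟨S, hS⟩ : ∃ S : Q → Set ℤ, S = fun r => {z | ∃ w, Walk T r w p₀ ∧ z = zwgt nu w.sum} :=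
    ⟨_, rfl⟩
  have hmem : ∀ r z, z ∈ S r ↔ ∃ w, Walk T r w p₀ ∧ z = zwgt nu w.sum := by
    intro r z
    rw [hS]
    rfl
  have hsm : ∀ {p q : Q} {w : List (Vec 3)}, Walk T p w q → w.length ≤ Fintype.card Q →
      |zwgt nu w.sum| ≤ 3 * L * (Fintype.card Q * maxNorm T : ℕ) := by
    intro p q w hw hl
    refine zwgt_abs hb fun k => (cwalk_abs hw k).trans ?_
    exact_mod_cast Nat.mul_le_mul_right _ hl
  have hub : ∀ r, InS T p₀ r → ∀ z ∈ S r, z ≤ 3 * L * (Fintype.card Q * maxNorm T : ℕ) := by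
    intro r hr z hz
    obtain ⟨w, hw, rfl⟩ := (hmem r z).1 hz
    obtain ⟨b, hb1⟩ := hr.1
    obtain ⟨b', hb2, hb3⟩ := short_walk hb1
    have h1 := hc r (w ++ b') hr (hw.append hb2)
    rw [List.sum_append, map_add] at h1
    have h2 := (abs_le.1 (hsm hb2 hb3)).1
    linarith
  have hne : ∀ r, InS T p₀ r → (S r).Nonempty := by
    intro r hr
    obtain ⟨b, hb1⟩ := hr.2
    exact ⟨_, (hmem r _).2 ⟨b, hb1, rfl⟩⟩
  have hbdd : ∀ r, InS T p₀ r → BddAbove (S r) := fun r hr => ⟨_, fun z hz => hub r hr z hz⟩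
  refine ⟨fun r => sSup (S r), fun r hr => ?_, fun r v r' hr hr' hv => ?_⟩
  · rw [abs_le]
    constructor
    · obtain ⟨b, hb1⟩ := hr.2
      obtain ⟨b', hb2, hb3⟩ := short_walk hb1
      have h2 := (abs_le.1 (hsm hb2 hb3)).1
      exact h2.trans (le_csSup (hbdd r hr) ((hmem r _).2 ⟨b', hb2, rfl⟩))
    · exact csSup_le (hne r hr) fun z hz => hub r hr z hz
  · obtain ⟨w, hw, he⟩ := (hmem r' _).1 (Int.csSup_mem (hne r' hr') (hbdd r' hr'))
    show zwgt nu v + sSup (S r') ≤ sSup (S r)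
    rw [he, ← map_add]
    refine le_csSup (hbdd r hr) ((hmem r _).2 ⟨v :: w, .cons hv hw, ?_⟩)
    rw [List.sum_cons]

/-- pairwise proportional effects span a line -/
theorem line_two {T₀ : VASS Q 3} {p : Q}
    (h : ∀ u u', Walk T₀ p u p → Walk T₀ p u' p → ∀ k l,
      u.sum k * u'.sum l = u.sum l * u'.sum k) : TwoAt T₀ p := by
  classical
  by_cases h0 : ∃ u, Walk T₀ p u p ∧ u.sum ≠ 0
  · obtain ⟨u, hu, hu0⟩ := h0
    obtain ⟨k, hk⟩ : ∃ k, u.sum k ≠ 0 := by
      by_contra hc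
      push Not at hc
      exact hu0 (funext hc)
    have h1 : VS T₀ p ≤ Submodule.span ℚ {qv u.sum} := by
      rw [VS, Submodule.span_le]
      rintro c ⟨w, hw, rfl⟩
      rw [SetLike.mem_coe, Submodule.mem_span_singleton]
      refine ⟨(w.sum k : ℚ) / u.sum k, ?_⟩
      funext l
      have h2 := h u w hu hw k l
      have h3 : (u.sum k : ℚ) * w.sum l = u.sum l * w.sum k := by exact_mod_cast h2
      have h4 : (u.sum k : ℚ) ≠ 0 := by exact_mod_cast hk
      rw [Pi.smul_apply, smul_eq_mul]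
      show (w.sum k : ℚ) / u.sum k * (u.sum l : ℚ) = (w.sum l : ℚ)
      rw [div_mul_eq_mul_div, div_eq_iff h4]
      linarith
    have h2 := Submodule.finrank_mono h1
    have h3 : Module.finrank ℚ (Submodule.span ℚ {qv u.sum}) ≤ 1 :=
      (finrank_span_le_card _).trans (by simp)
    exact h2.trans (h3.trans (by norm_num))
  · push Not at h0
    have h1 : VS T₀ p ≤ ⊥ := by
      rw [VS, Submodule.span_le]
      rintro c ⟨w, hw, rfl⟩
      rw [h0 w hw]
      show qv (0 : Vec 3) ∈ (⊥ : Submodule ℚ (Fin 3 → ℚ))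
      rw [qv_zero]
      exact Submodule.zero_mem _
    have h2 := Submodule.finrank_mono h1
    rw [finrank_bot] at h2
    exact h2.trans (by norm_num)

theorem wedge3 {Q : Type} [Fintype Q] {T : VASS Q 3} {p₀ : Q} (hp : WedgeAt T p₀) {H : ℕ}
    (hH : 1 ≤ H) {p q : Q} {x : Vec 3} {w : List (Vec 3)}
    (h : PW T (fun r y => InS T p₀ r ∧ 0 ≤ y ∧ ∀ k, y k ≤ H) p x w q) :
    ∃ w', Walk T p w' q ∧ Ok x w' ∧ w.sum ≤ w'.sum ∧
      w'.length ≤ H * cWe (Fintype.card Q) (maxNorm T) := by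
  classical
  obtain ⟨n, hn⟩ : ∃ n, n = Fintype.card Q := ⟨_, rfl⟩
  obtain ⟨M, hM⟩ : ∃ M, M = maxNorm T := ⟨_, rfl⟩
  have hn1 : 1 ≤ n := by
    rw [hn]
    exact Fintype.card_pos_iff.2 ⟨p⟩
  obtain ⟨X, hX⟩ : ∃ X, X = 8 * n * (M + 1) := ⟨_, rfl⟩
  have hX8 : 8 ≤ X := by
    rw [hX]
    have : 1 ≤ n * (M + 1) := Nat.mul_pos hn1 (by omega)
    calc 8 = 8 * 1 := by ring
      _ ≤ 8 * (n * (M + 1)) := Nat.mul_le_mul_left _ this
      _ = 8 * n * (M + 1) := by ring
  have hX1 : 1 ≤ X := by omega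
  have hnX : 8 * n ≤ X := by
    rw [hX]
    exact Nat.le_mul_of_pos_right _ (by omega)
  have hMX : M + 1 ≤ X := by
    rw [hX]
    exact Nat.le_mul_of_pos_left _ (by omega)
  obtain ⟨L, hL⟩ : ∃ L, L = X ^ 300 := ⟨_, rfl⟩
  -- the functional
  obtain ⟨mu, hmu1, hmu2, hmu3⟩ := exists_muW hp
  obtain ⟨nu, hnu⟩ : ∃ nu : Fin 3 → ℤ, nu = fun k => -mu k := ⟨_, rfl⟩
  have hnuv : ∀ v : Vec 3, zwgt nu v = -∑ k, mu k * v k := by
    intro v
    rw [zwgt_apply, hnu, ← sum_neg_distrib]
    exact sum_congr rfl fun k _ => by ring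
  have hb : ∀ k, |nu k| ≤ (L : ℤ) := by
    intro k
    rw [hnu, hL, hX, hn, hM]
    show |-mu k| ≤ _
    rw [abs_neg]
    exact hmu1 k
  obtain ⟨π, hπ1, hπ2⟩ := exists_potZ (T := T) (p₀ := p₀) (nu := nu) hb
    (fun r u hr hu => by
      rw [hnuv]
      have := hmu2 r u hr hu
      linarith)
  obtain ⟨T₀, hT₀⟩ : ∃ T₀ : VASS Q 3, T₀ = T.filter fun t =>
      InS T p₀ t.1 ∧ InS T p₀ t.2.2 ∧ zwgt nu t.2.1 + π t.2.2 = π t.1 := ⟨_, rfl⟩
  have hsub : T₀ ⊆ T := by rw [hT₀]; exact filter_subset _ _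
  have htight : ∀ r v r', (r, v, r') ∈ T₀ → InS T p₀ r ∧ zwgt nu v + π r' = π r := by
    intro r v r' h
    rw [hT₀, mem_filter] at h
    exact ⟨h.2.1, h.2.2.2⟩
  have hmono : ∀ {a b : Q} {w : List (Vec 3)}, Walk T₀ a w b → Walk T a w b := by
    intro a b w h
    induction h with
    | nil p => exact .nil p
    | cons h1 _ ih => exact .cons (hsub h1) ih
  have hwk : ∀ {p q : Q} {w : List (Vec 3)}, Walk T₀ p w q →
      zwgt nu w.sum + π q = π p := by
    intro p q w h
    induction h with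
    | nil p => rw [List.sum_nil, map_zero, zero_add]
    | cons h1 _ ih =>
      rw [List.sum_cons, map_add, add_assoc, ih]
      exact (htight _ _ _ h1).2
  -- closed walks of tight transitions
  have hcl : ∀ {r : Q} {u : List (Vec 3)}, Walk T₀ r u r → u = [] ∨
      (InS T p₀ r ∧ ∑ k, mu k * u.sum k = 0) := by
    intro r u hu
    have h1 := hwk hu
    rw [hnuv] at h1
    cases hu with
    | nil => exact Or.inl rfl
    | cons h2 h3 => exact Or.inr ⟨(htight _ _ _ h2).1, by linarith⟩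
  have hline : ∀ {r r' : Q} {u u' : List (Vec 3)}, Walk T₀ r u r → Walk T₀ r' u' r' →
      ∀ k l, u.sum k * u'.sum l = u.sum l * u'.sum k := by
    intro r r' u u' hu hu' k l
    rcases hcl hu with rfl | ⟨h1, h2⟩
    · simp
    · rcases hcl hu' with rfl | ⟨h3, h4⟩
      · simp
      · exact hmu3 r u r' u' h1 h3 (hmono hu) (hmono hu') h2 h4 k l
  have htwo : ∀ p, TwoAt T₀ p := fun p => line_two fun u u' hu hu' => hline hu hu'
  -- the size of the schemes
  obtain ⟨s, hs⟩ : ∃ s, s = X ^ 80 := ⟨_, rfl⟩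
  have hs0 : Fintype.card Q * (cPM (Fintype.card Q) 3 (geomDim T₀) (maxNorm T₀) + 2) ≤ s := by
    have hg : geomDim T₀ ≤ 3 := by
      refine (Submodule.finrank_le _).trans ?_
      rw [Module.finrank_fintype_fun_eq_card, Fintype.card_fin]
    have hM0 : maxNorm T₀ ≤ M := by
      rw [hM]
      exact Finset.sup_mono hsub
    have h1 := cTot_pow (d := 3) (M := maxNorm T₀) hn1
    have h2 := num_cyc (d := 3) (M := maxNorm T₀) hn1 hg
    have hN : 2 * n * (3 + 1) * (maxNorm T₀ + 1) ≤ X := by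
      rw [hX]
      have : 2 * n * (3 + 1) = 8 * n := by ring
      rw [this]
      exact Nat.mul_le_mul_left _ (by omega)
    have h3 : cPM n 3 (geomDim T₀) (maxNorm T₀) + 1 ≤ X ^ 79 := by
      unfold cPM
      rcases le_total (cTot n 3 (maxNorm T₀)) (cCyc n 3 (geomDim T₀) (maxNorm T₀)) with h | h
      · rw [max_eq_right h]
        exact (h2.trans (Nat.pow_le_pow_left hN _)).trans
          (Nat.pow_le_pow_right hX1 (by norm_num))
      · rw [max_eq_left h]
        exact h1.trans (Nat.pow_le_pow_left hN _)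
    rw [← hn, hs]
    obtain ⟨c, hc⟩ : ∃ c, c = cPM n 3 (geomDim T₀) (maxNorm T₀) := ⟨_, rfl⟩
    rw [← hc] at h3 ⊢
    calc n * (c + 2) ≤ n * (2 * X ^ 79) := Nat.mul_le_mul_left _ (by omega)
      _ = (2 * n) * X ^ 79 := by ring
      _ ≤ X * X ^ 79 := Nat.mul_le_mul_right _ (by omega)
      _ = X ^ 80 := by ring
  have hs1 : 1 ≤ s := by
    rw [hs]
    exact Nat.one_le_pow _ _ (by omega)
  have hPok : ∀ {T' : VASS Q 3} {p q : Q} {x : Vec 3} {w : List (Vec 3)},
      PW T' (fun r y => InS T p₀ r ∧ 0 ≤ y ∧ ∀ k, y k ≤ H) p x w q → Ok x w := by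
    intro T' p q x w h
    induction h with
    | nil _ => trivial
    | cons _ _ h2 ih => exact ⟨h2.start.2.1, ih⟩
  -- one tight piece as a scheme of tight transitions with the same effect
  have hpiece : ∀ {p q : Q} {x : Vec 3} {u : List (Vec 3)}, 0 ≤ x → Walk T₀ p u q → Ok x u →
      ∃ I : List (Itm 3), IsScheme T₀ p (I.map isk) q ∧ Ok x (unroll I) ∧
        (unroll I).sum = u.sum ∧
        (∀ e ∈ I, e.1.length + e.2.1.length ≤ s) ∧ I.length ≤ s := by
    intro p q x u hx hu hok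
    obtain ⟨I, h2, h3, h4, h5⟩ := pm_scheme (fun p => Or.inl (htwo p)) (Fintype.card Q)
      (le_of_eq card_univ) hx hu.walkIn hok
    refine ⟨I, h2, h3, h4, fun e he => ?_, ?_⟩
    · have := size_mem.2 (isk e) (List.mem_map_of_mem he)
      have h6 : (isk e).1.length + (isk e).2.length = e.1.length + e.2.1.length := rfl
      omega
    · have := (size_mem (L := I.map isk)).1
      rw [List.length_map] at this
      omega
  have main : ∀ (N : ℕ) {p : Q} {x : Vec 3} {w : List (Vec 3)}, w.length ≤ N →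
      PW T (fun r y => InS T p₀ r ∧ 0 ≤ y ∧ ∀ k, y k ≤ H) p x w q →
      ∃ I : List (Itm 3), IsScheme T p (I.map isk) q ∧ Ok x (unroll I) ∧
        (unroll I).sum = w.sum ∧ (∀ e ∈ I, ∃ r, Walk T₀ r e.2.1 r) ∧
        (∀ e ∈ I, e.1.length + e.2.1.length ≤ s) ∧
        (I.length : ℤ) ≤ (π p - (zwgt nu w.sum + π q)) * (s + 1) + s := by
    intro N
    induction N with
    | zero =>
      intro p x w hl h
      have hw : w = [] := List.length_eq_zero_iff.1 (Nat.le_zero.1 hl)
      subst hw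
      cases h with
      | nil h0 =>
        refine ⟨[], .nil _, trivial, rfl, by simp, by simp, ?_⟩
        rw [List.sum_nil, map_zero, zero_add, sub_self, zero_mul, zero_add]
        simp
    | succ N ih =>
      intro p x w hl h
      rcases first_loose (T₀ := T₀) h with h1 | ⟨u, v, r, r', w₁, rfl, h1, h2, h3, h4⟩
      · obtain ⟨I, a1, a2, a3, a5, a6⟩ := hpiece h1.start.2.1 h1.walk (hPok h1)
        refine ⟨I, scheme_sub hsub a1, a2, a3, fun e he => (scheme_loops I a1 e he).2, a5, ?_⟩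
        have h5 := hwk h1.walk
        rw [h5, sub_self, zero_mul, zero_add]
        exact_mod_cast a6
      · obtain ⟨I, a1, a2, a3, a5, a6⟩ := hpiece h1.start.2.1 h1.walk (hPok h1)
        have hl2 : w₁.length ≤ N := by
          rw [List.length_append, List.length_cons] at hl
          omega
        obtain ⟨J, b1, b2, b3, b4, b5, b6⟩ := ih hl2 h4
        have h5 := hwk h1.walk
        have h6 : zwgt nu v + π r' + 1 ≤ π r := by
          have h7 := hπ2 _ _ _ h1.stop.1 h4.start.1 h2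
          have h8 : zwgt nu v + π r' ≠ π r := by
            intro he
            apply h3
            rw [hT₀, mem_filter]
            exact ⟨h2, h1.stop.1, h4.start.1, he⟩
          omega
        have hu0 : unroll (([v], [], 0) :: J) = v :: unroll J := by
          rw [unroll_cons, wrd, rep_zero]
          rfl
        refine ⟨I ++ ([v], [], 0) :: J, ?_, ?_, ?_, ?_, ?_, ?_⟩
        · rw [List.map_append]
          exact (scheme_sub hsub a1).append (.cons (.cons h2 (.nil _)) (.nil _) b1)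
        · rw [unroll_append, Ok_append, hu0, a3]
          exact ⟨a2, h4.start.2.1, b2⟩
        · rw [unroll_append, List.sum_append, hu0, List.sum_cons, a3, b3, List.sum_append,
            List.sum_cons]
        · intro e he
          rcases List.mem_append.1 he with he | he
          · exact (scheme_loops I a1 e he).2
          · rcases List.mem_cons.1 he with rfl | he
            · exact ⟨r, .nil r⟩
            · exact b4 e he
        · intro e he
          rcases List.mem_append.1 he with he | he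
          · exact a5 e he
          · rcases List.mem_cons.1 he with rfl | he
            · simpa using hs1
            · exact b5 e he
        · rw [List.sum_append, List.sum_cons, map_add, map_add, List.length_append,
            List.length_cons]
          have a7 : (I.length : ℤ) ≤ s := by exact_mod_cast a6
          push_cast
          have h9 : π p - (zwgt nu u.sum + (zwgt nu v + zwgt nu w₁.sum) + π q) ≥
              π r' - (zwgt nu w₁.sum + π q) + 1 := by linarith
          have hK0 : (0 : ℤ) ≤ (s : ℤ) + 1 := by positivity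
          have h10 := mul_le_mul_of_nonneg_right h9 hK0
          nlinarith
  obtain ⟨I, c1, c2, c3, c4, c5, c6⟩ := main w.length le_rfl h
  have hHend : ∀ k, (x + (unroll I).sum) k ≤ H := by
    rw [c3]
    exact h.stop.2.2
  have c7 : ∀ e ∈ I, ∀ e' ∈ I, ∀ k l,
      e.2.1.sum k * e'.2.1.sum l = e.2.1.sum l * e'.2.1.sum k := by
    intro e he e' he'
    obtain ⟨r, hr⟩ := c4 e he
    obtain ⟨r', hr'⟩ := c4 e' he'
    exact hline hr hr'
  obtain ⟨J, d1, d2, d3, d4⟩ := chain1 c1 h.start.2.1 c2 c7 c5 hHend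
  have hJs : ∀ e ∈ J, e.1.length + e.2.1.length ≤ s := by
    intro e he
    have h1 : isk e ∈ I.map isk := by
      rw [← d1]
      exact List.mem_map_of_mem he
    obtain ⟨e', he', h2⟩ := List.mem_map.1 h1
    have h3 := c5 e' he'
    have h4 : e'.1 = e.1 := congrArg (fun z : List (Vec 3) × List (Vec 3) => z.1) h2
    have h5 : e'.2.1 = e.2.1 := congrArg (fun z : List (Vec 3) × List (Vec 3) => z.2) h2
    rw [h4, h5] at h3
    exact h3
  have hJl : J.length = I.length := by
    have := congrArg List.length d1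
    rwa [List.length_map, List.length_map] at this
  have hJw : Walk T p (unroll J) q := scheme_walk J (by rw [d1]; exact c1)
  refine ⟨unroll J, hJw, d2, by rw [← c3]; exact d3, ?_⟩
  have hlen := unroll_length_le hJs
  rw [hJl] at hlen
  rw [← hM] at d4
  rw [← hn, ← hM] at hπ1
  rw [← hn, ← hM]
  -- the number of items
  have hd : π p - (zwgt nu w.sum + π q) ≤ 6 * (L : ℤ) * H + 6 * (L : ℤ) * ((n * M : ℕ) : ℤ) := by
    have h1 := (abs_le.1 (hπ1 p h.start.1)).2
    have h2 := (abs_le.1 (hπ1 q h.stop.1)).1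
    have h3 : -(6 * (L : ℤ) * H) ≤ zwgt nu w.sum := by
      have h4 : |zwgt nu (x + w.sum)| ≤ 3 * L * H := by
        refine zwgt_abs hb fun k => ?_
        rw [abs_of_nonneg (h.stop.2.1 k)]
        exact h.stop.2.2 k
      have h5 : |zwgt nu x| ≤ 3 * L * H := by
        refine zwgt_abs hb fun k => ?_
        rw [abs_of_nonneg (h.start.2.1 k)]
        exact h.start.2.2 k
      rw [map_add] at h4
      have h6 := (abs_le.1 h4).1
      have h7 := (abs_le.1 h5).2
      linarith
    linarith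
  have h1 : (I.length : ℤ) ≤ (6 * (L : ℤ) * H + 6 * (L : ℤ) * ((n * M : ℕ) : ℤ)) * (s + 1) + s := by
    have hK0 : (0 : ℤ) ≤ (s : ℤ) + 1 := by positivity
    have := mul_le_mul_of_nonneg_right hd hK0
    linarith
  have h2 : I.length ≤ (6 * L * H + 6 * L * (n * M)) * (s + 1) + s := by exact_mod_cast h1
  have hL1 : 1 ≤ L := by
    rw [hL]
    exact Nat.one_le_pow _ _ (by omega)
  have h3 : I.length + H + 1 ≤ H * X ^ 384 := by
    have h4 : 6 * L * H + 6 * L * (n * M) + 1 ≤ H * X ^ 302 := by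
      have h5 : 6 * L * (n * M) ≤ H * (6 * L * (n * M)) := Nat.le_mul_of_pos_left _ hH
      have h6 : 6 + 6 * (n * M) + 1 ≤ X ^ 2 := by
        have h7 : n * M ≤ n * (M + 1) := Nat.mul_le_mul_left _ (by omega)
        have h8 : 8 * (n * (M + 1)) = X := by rw [hX]; ring
        nlinarith
      have h9 : 1 ≤ H * L := Nat.mul_pos hH hL1
      calc 6 * L * H + 6 * L * (n * M) + 1 ≤ 6 * L * H + H * (6 * L * (n * M)) + H * L := by omega
        _ = (H * L) * (6 + 6 * (n * M) + 1) := by ring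
        _ ≤ (H * L) * X ^ 2 := Nat.mul_le_mul_left _ h6
        _ = H * X ^ 302 := by rw [hL]; ring
    have h7 : s + 1 ≤ X ^ 81 := by
      rw [hs]
      have : 1 ≤ X ^ 80 := Nat.one_le_pow _ _ (by omega)
      calc X ^ 80 + 1 ≤ 2 * X ^ 80 := by omega
        _ ≤ X * X ^ 80 := Nat.mul_le_mul_right _ (by omega)
        _ = X ^ 81 := by ring
    have h9 : H ≤ H * X ^ 383 := Nat.le_mul_of_pos_right _ (by positivity)
    calc I.length + H + 1 ≤ (6 * L * H + 6 * L * (n * M)) * (s + 1) + s + H + 1 := by omega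
      _ = (6 * L * H + 6 * L * (n * M) + 1) * (s + 1) + H := by ring
      _ ≤ (H * X ^ 302) * X ^ 81 + H := Nat.add_le_add_right (Nat.mul_le_mul h4 h7) _
      _ = H * X ^ 383 + H := by ring
      _ ≤ H * X ^ 383 + H * X ^ 383 := by omega
      _ = 2 * (H * X ^ 383) := by ring
      _ ≤ X * (H * X ^ 383) := Nat.mul_le_mul_right _ (by omega)
      _ = H * X ^ 384 := by ring
  have h4 : s * M + 2 ≤ X ^ 82 := by
    rw [hs]
    have : 1 ≤ X ^ 80 := Nat.one_le_pow _ _ (by omega)
    calc X ^ 80 * M + 2 ≤ X ^ 80 * M + 2 * X ^ 80 := by omega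
      _ = X ^ 80 * (M + 2) := by ring
      _ ≤ X ^ 80 * (X * X) := by
          refine Nat.mul_le_mul_left _ ?_
          nlinarith
      _ = X ^ 82 := by ring
  have h5 : cC1 s M ≤ X ^ 165 := by
    unfold cC1
    calc 4 * (s * M + 2) ^ 2 ≤ X * (X ^ 82) ^ 2 :=
          Nat.mul_le_mul (by omega) (Nat.pow_le_pow_left h4 2)
      _ = X ^ 165 := by ring
  calc (unroll J).length ≤ s * (I.length + (J.map fun e => e.2.2).sum) := hlen
    _ ≤ s * (I.length + cC1 s M * (I.length + H + 1)) := by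
        exact Nat.mul_le_mul_left _ (by omega)
    _ ≤ X ^ 80 * (H * X ^ 384 + X ^ 165 * (H * X ^ 384)) := by
        rw [hs]
        refine Nat.mul_le_mul_left _ (Nat.add_le_add (by omega) ?_)
        rw [← hs]
        exact Nat.mul_le_mul h5 h3
    _ = H * X ^ 464 + H * X ^ 629 := by ring
    _ ≤ H * X ^ 629 + H * X ^ 629 := by
        refine Nat.add_le_add_right (Nat.mul_le_mul_left _ ?_) _
        exact Nat.pow_le_pow_right (by omega) (by norm_num)
    _ = 2 * (H * X ^ 629) := by ring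
    _ ≤ X * (H * X ^ 629) := Nat.mul_le_mul_right _ (by omega)
    _ = H * X ^ 630 := by ring
    _ ≤ H * X ^ 1000 := Nat.mul_le_mul_left _ (Nat.pow_le_pow_right (by omega) (by norm_num))
    _ = H * cWe n M := by rw [cWe, hX]

end Pool.Agent.EE3
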