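import Pool.Agent.EE3.Supp3
import Pool.Agent.EE3.Wedge
import Pool.Agent.EE3.Quad
import Pool.Agent.EE3.Half3

/-!
# EE3 / Main3L: covering runs of linear length for every VASS with three counters
-/

set_option autoImplicit false
set_option linter.unusedSectionVars false

namespace Pool.Agent.EE3

open Pool.Agent.EEF Pool.Agent.REV Pool.Agent.EE2 Finset

variable {Q : Type} {T : VASS Q 3}

/-- a run inside a component, near the origin -/
theorem part3l [Fintype Q] {p p' : Q} {x : Vec 3} {w : List (Vec 3)}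
    {H : ℕ} (hH : 1 ≤ H) (hp' : Reach T p' p)
    (h : PW T (fun _ y => 0 ≤ y ∧ ∀ k, y k ≤ H) p x w p') :
    ∃ w', Walk T p w' p' ∧ Ok x w' ∧ w.sum ≤ w'.sum ∧
      w'.length ≤ H * cHa (Fintype.card Q) (maxNorm T) := by
  classical
  have hn : 1 ≤ Fintype.card Q := Fintype.card_pos_iff.2 ⟨p⟩
  have hok : Ok x w := pw_ok (fun _ _ h => h.1) h
  have hX : 1 ≤ 8 * Fintype.card Q * (maxNorm T + 1) :=
    Nat.mul_pos (Nat.mul_pos (by norm_num) hn) (by omega)
  have hb : ∀ e, e ≤ 10000000000 → (8 * Fintype.card Q * (maxNorm T + 1)) ^ e ≤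
      cHa (Fintype.card Q) (maxNorm T) := by
    intro e he
    unfold cHa
    exact Nat.pow_le_pow_right hX he
  rcases alt3 (T := T) p with h1 | ⟨lam, h1, h2, h3⟩
  · obtain ⟨θ, h2, h3, -⟩ := h1 p (inS_refl T p)
    obtain ⟨w', h4, h5, h6, h7⟩ := prod_partq ⟨θ, h2, h3⟩ hH h.start.1 hok h.walk hp' h.stop
    exact ⟨w', h4, h5, h6, h7.trans (Nat.mul_le_mul_left _ (hb _ (by norm_num)))⟩
  · have hin : PW T (fun r y => InS T p r ∧ 0 ≤ y ∧ ∀ k, y k ≤ H) p x w p' := by
      have key : ∀ {q q' : Q} {x : Vec 3} {w : List (Vec 3)},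
          PW T (fun _ y => 0 ≤ y ∧ ∀ k, y k ≤ H) q x w q' → Reach T p q → Reach T q' p →
          PW T (fun r y => InS T p r ∧ 0 ≤ y ∧ ∀ k, y k ≤ H) q x w q' := by
        intro q q' x w h
        induction h with
        | nil h => exact fun a b => .nil ⟨⟨a, b⟩, h⟩
        | @cons q₁ q₂ q₃ v x w h0 h1 h2 ih =>
          intro a b
          refine .cons ⟨⟨a, Reach.trans ⟨_, .cons h1 h2.walk⟩ b⟩, h0⟩ h1
            (ih (a.trans ⟨[v], .cons h1 (.nil _)⟩) b)
      exact key h ⟨[], .nil _⟩ hp'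
    by_cases hpos : ∀ k, 1 ≤ lam k
    · by_cases hw : WedgeAt T p
      · obtain ⟨w', h4, h5, h6, h7⟩ := wedge3 hw hH hin
        exact ⟨w', h4, h5, h6, h7.trans (Nat.mul_le_mul_left _ (hb _ (by norm_num)))⟩
      · exact half3 hpos h2 h3 hw hH hin
    · push Not at hpos
      obtain ⟨k₀, hk₀⟩ := hpos
      have h0 : lam k₀ = 0 := by omega
      by_cases hz : ∀ k, k ≠ k₀ → lam k ≠ 0
      · obtain ⟨w', h4, h5, h6, h7⟩ := supp3 h0 hz h2 h3 hH hin
        exact ⟨w', h4, h5, h6, h7.trans (Nat.mul_le_mul_left _ (hb _ (by norm_num)))⟩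
      · push Not at hz
        obtain ⟨k₁, hk₁, h01⟩ := hz
        obtain ⟨k₂, hk₂⟩ := h1
        have h20 : k₂ ≠ k₀ := by
          rintro rfl
          exact hk₂ h0
        have h21 : k₂ ≠ k₁ := by
          rintro rfl
          exact hk₂ h01
        obtain ⟨w', h4, h5, h6, h7⟩ := noninc3 (k₀ := k₂) (fun r u hr hu => by
          have h := h3 r u hr hu
          have hall : ∀ k, k ≠ k₂ → lam k = 0 := by
            intro k hk
            by_cases e0 : k = k₀
            · rw [e0, h0]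
            · by_cases e1 : k = k₁
              · rw [e1, h01]
              · exfalso
                omega
          rw [Finset.sum_eq_single k₂ (fun k _ hk => by rw [hall k hk]; simp)
            (fun h => absurd (mem_univ _) h)] at h
          have hpos : (0 : ℤ) < lam k₂ := by
            have : 0 < lam k₂ := Nat.pos_of_ne_zero hk₂
            exact_mod_cast this
          nlinarith) hH hin
        exact ⟨w', h4, h5, h6, h7.trans (Nat.mul_le_mul_left _ (hb _ (by norm_num)))⟩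

/-- near the origin, all components in turn -/
theorem chain3l [Fintype Q] {H : ℕ} (hH : 1 ≤ H) {p q : Q} {x : Vec 3}
    {w : List (Vec 3)} (h : PW T (fun _ y => 0 ≤ y ∧ ∀ k, y k ≤ H) p x w q) :
    ∃ w', Walk T p w' q ∧ Ok x w' ∧ w.sum ≤ w'.sum ∧
      w'.length ≤ Fintype.card Q * (H * cHa (Fintype.card Q) (maxNorm T) + 1) :=
  chain_box (T := T) (P := fun z => 0 ≤ z ∧ ∀ k, z k ≤ (H : ℤ)) (fun _ h => h.1) _
    (fun _ _ _ _ h1 h2 => part3l hH h1 h2) (Fintype.card Q) (le_of_eq card_univ)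
    h.walk.walkIn h

theorem lin_num {n M Y H N e : ℕ} (hn : 1 ≤ n) (hN : N = 8 * n * (M + 1)) (hY : 1 ≤ Y)
    (hH : H ≤ M * (Y * N ^ 1200) + Y + M + 1) :
    n * (H * N ^ e + 1) + Y * N ^ 1200 ≤ Y * N ^ (e + 2400) := by
  obtain ⟨h8, h1, h2⟩ := nm_big hN hn
  have hN1 : 1 ≤ N := by omega
  obtain ⟨a, ha⟩ : ∃ a, a = N ^ 1200 := ⟨_, rfl⟩
  have ha1 : 1 ≤ a := by rw [ha]; exact Nat.one_le_pow _ _ hN1
  rw [← ha] at hH ⊢
  have h3 : H ≤ Y * (N * a) := by
    have e1 : Y ≤ Y * a := Nat.le_mul_of_pos_right _ ha1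
    have e2 : M + 1 ≤ (M + 1) * (Y * a) :=
      Nat.le_mul_of_pos_right _ (Nat.mul_pos hY ha1)
    calc H ≤ M * (Y * a) + Y + M + 1 := hH
      _ ≤ M * (Y * a) + Y * a + (M + 1) * (Y * a) := by omega
      _ = (2 * M + 2) * (Y * a) := by ring
      _ ≤ N * (Y * a) := Nat.mul_le_mul_right _ (by omega)
      _ = Y * (N * a) := by ring
  obtain ⟨b, hb⟩ : ∃ b, b = N ^ e := ⟨_, rfl⟩
  have hb1 : 1 ≤ b := by rw [hb]; exact Nat.one_le_pow _ _ hN1
  rw [← hb]
  have hNa : 1 ≤ N * a := Nat.mul_pos hN1 ha1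
  have h5 : n * (H * b + 1) + Y * a ≤ Y * (N * (N * a * b)) := by
    calc n * (H * b + 1) + Y * a
        ≤ n * (Y * (N * a) * b + Y * (N * a * b)) + Y * (N * a * b) := by
          refine Nat.add_le_add (Nat.mul_le_mul_left _ (Nat.add_le_add ?_ ?_)) ?_
          · exact Nat.mul_le_mul_right _ h3
          · exact Nat.mul_pos hY (Nat.mul_pos hNa hb1)
          · refine Nat.mul_le_mul_left _ ?_
            calc a = 1 * a * 1 := by ring
              _ ≤ N * a * b := Nat.mul_le_mul (Nat.mul_le_mul_right _ hN1) hb1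
      _ = (2 * n + 1) * (Y * (N * a * b)) := by ring
      _ ≤ N * (Y * (N * a * b)) := Nat.mul_le_mul_right _ (by omega)
      _ = Y * (N * (N * a * b)) := by ring
  refine h5.trans (Nat.mul_le_mul_left _ ?_)
  calc N * (N * a * b) = N ^ e * N ^ (1200 + 2) := by
        rw [ha, hb]
        ring
    _ = N ^ (e + (1200 + 2)) := by rw [pow_add N e]
    _ ≤ N ^ (e + 2400) := Nat.pow_le_pow_right hN1 (by omega)

/-- **Covering runs of linear length for every VASS with three counters.** -/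
theorem lin_main {Q : Type} [Fintype Q] {T : VASS Q 3} {s t : Q} {x y y' : Fin 3 → ℕ}
    {w : List (Vec 3)} (hrun : Run T s x w t y') (hy : ∀ k, y k ≤ y' k) :
    ∃ w', Covers T s x t y w' ∧ w'.length ≤ max 1 (supN y) *
      (8 * Fintype.card Q * (maxNorm T + 1)) ^ 20000000000 := by
  have hn : 1 ≤ Fintype.card Q := Fintype.card_pos_iff.2 ⟨s⟩
  obtain ⟨H, hH⟩ : ∃ H, H = maxNorm T *
    (max 1 (supN y) * cP2 (Fintype.card Q) (maxNorm T)) + supN y + maxNorm T + 1 := ⟨_, rfl⟩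
  obtain ⟨w', h1, h2⟩ := box_main hrun hy (H * cHa (Fintype.card Q) (maxNorm T))
    fun p p' x w hr h => part3l (by omega) hr (h.mono fun _ z hz => ⟨hz.1, fun k => by
      have := hz.2 k
      rw [hH]
      push_cast at this ⊢
      linarith⟩)
  refine ⟨w', h1, h2.trans ?_⟩
  have hX : 1 ≤ 8 * Fintype.card Q * (maxNorm T + 1) :=
    Nat.mul_pos (Nat.mul_pos (by norm_num) hn) (by omega)
  have hH' : H ≤ maxNorm T * (max 1 (supN y) *
      (8 * Fintype.card Q * (maxNorm T + 1)) ^ 1200) + max 1 (supN y) + maxNorm T + 1 := by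
    rw [hH]
    have : supN y ≤ max 1 (supN y) := le_max_right _ _
    unfold cP2
    omega
  have h3 := lin_num (e := 10000000000) (M := maxNorm T) hn rfl (le_max_left 1 (supN y)) hH'
  have h4 : (8 * Fintype.card Q * (maxNorm T + 1)) ^ (10000000000 + 2400) ≤
      (8 * Fintype.card Q * (maxNorm T + 1)) ^ 20000000000 :=
    Nat.pow_le_pow_right hX (by norm_num)
  unfold cHa cP2
  exact h3.trans (Nat.mul_le_mul_left _ h4)

end Pool.Agent.EE3
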