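import Pool.Agent.EE3.SeqDefs
import Pool.Agent.EE3.Main3L

/-!
# EE3 / CompThree: a component which changes at most three counters
-/

set_option autoImplicit false
set_option linter.unusedSectionVars false

namespace Pool.Agent.EE3

open Pool.Agent.EEF Pool.Agent.REV Pool.Agent.EE2 Finset

/-- three of the counters -/
def cmPr {d : ℕ} (e : Fin 3 → Option (Fin d)) (v : Vec d) : Vec 3 := fun c => (e c).elim 0 v

theorem cmPr_add {d : ℕ} (e : Fin 3 → Option (Fin d)) (u v : Vec d) :
    cmPr e (u + v) = cmPr e u + cmPr e v := by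
  funext c
  simp only [cmPr, Pi.add_apply]
  cases e c with
  | none => simp
  | some k => simp

theorem cmPr_zero {d : ℕ} (e : Fin 3 → Option (Fin d)) : cmPr e (0 : Vec d) = 0 := by
  funext c
  simp only [cmPr]
  cases e c with
  | none => simp
  | some k => simp

theorem cmPr_sum {d : ℕ} (e : Fin 3 → Option (Fin d)) (w : List (Vec d)) :
    (w.map (cmPr e)).sum = cmPr e w.sum := by
  induction w with
  | nil => simp [cmPr_zero]
  | cons v w ih => rw [List.map_cons, List.sum_cons, List.sum_cons, cmPr_add, ih]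

theorem cmPr_some {d : ℕ} {e : Fin 3 → Option (Fin d)} {c : Fin 3} {k : Fin d}
    (h : e c = some k) (v : Vec d) : cmPr e v c = v k := by
  simp only [cmPr, h]
  rfl

theorem compThree {Q : Type} [Fintype Q] {d : ℕ} {T : VASS Q d} {p p' : Q} (h3 : ThreeAt T p)
    (hp' : Reach T p' p) {H : ℕ} (hH : 1 ≤ H) {x : Vec d} {w : List (Vec d)}
    (h : PW T (fun _ z => 0 ≤ z ∧ ∀ k, MovedBy T k → z k ≤ H) p x w p') :
    ∃ w', Walk T p w' p' ∧ Ok x w' ∧ w.sum ≤ w'.sum ∧
      w'.length ≤ Fintype.card Q * (H * cHa (Fintype.card Q) (maxNorm T) + 1) := by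
  classical
  obtain ⟨K₀, hK₀, hcl₀⟩ := h3
  obtain ⟨K, hKd⟩ : ∃ K : Finset (Fin d), K = K₀.filter fun k => MovedBy T k := ⟨_, rfl⟩
  have hKmem : ∀ k, k ∈ K ↔ k ∈ K₀ ∧ MovedBy T k := by
    intro k
    rw [hKd, mem_filter]
  have hKc : K.card ≤ 3 := by
    rw [hKd]
    exact (card_filter_le _ _).trans hK₀
  have hcl : ∀ u, Walk T p u p → ∀ k, k ∉ K → u.sum k = 0 := by
    intro u hu k hk
    by_cases h0 : k ∈ K₀
    · by_contra hne
      exact hk ((hKmem k).2 ⟨h0, p, u, hu, hne⟩)
    · exact hcl₀ u hu k h0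
  -- the three counters
  obtain ⟨e, he⟩ : ∃ e : Fin 3 → Option (Fin d), e = fun c => (K.toList)[c.val]? := ⟨_, rfl⟩
  have he1 : ∀ k ∈ K, ∃ c, e c = some k := by
    intro k hk
    obtain ⟨i, hi, hik⟩ := List.mem_iff_getElem.1 (mem_toList.2 hk)
    have hi3 : i < 3 := by
      have : K.toList.length = K.card := length_toList K
      omega
    refine ⟨⟨i, hi3⟩, ?_⟩
    rw [he]
    show (K.toList)[i]? = some k
    rw [List.getElem?_eq_getElem hi, hik]
  have he2 : ∀ c k, e c = some k → k ∈ K := by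
    intro c k hc
    rw [he] at hc
    exact mem_toList.1 (List.mem_of_getElem? hc)
  -- the visited states
  obtain ⟨Rv, hRv⟩ : ∃ Rv : Q → Prop, ∀ r, Rv r ↔ ∃ u v, w = u ++ v ∧ Walk T p u r ∧
      0 ≤ x + u.sum ∧ Walk T r v p' := ⟨_, fun r => Iff.rfl⟩
  obtain ⟨T₁, hT₁⟩ : ∃ T₁ : VASS Q d, T₁ = T.filter fun t => Rv t.1 ∧ Rv t.2.2 := ⟨_, rfl⟩
  have hT₁mem : ∀ a v b, (a, v, b) ∈ T₁ ↔ (a, v, b) ∈ T ∧ Rv a ∧ Rv b := by
    intro a v b
    rw [hT₁, mem_filter]
  have hmono : ∀ {a b : Q} {u : List (Vec d)}, Walk T₁ a u b → Walk T a u b := by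
    intro a b u hu
    induction hu with
    | nil a => exact .nil a
    | cons h1 _ ih => exact .cons ((hT₁mem _ _ _).1 h1).1 ih
  have hRend : ∀ {a b : Q} {u : List (Vec d)}, Walk T₁ a u b → Rv a → Rv b := by
    intro a b u hu
    induction hu with
    | nil a => exact id
    | cons h1 _ ih => exact fun _ => ih ((hT₁mem _ _ _).1 h1).2.2
  obtain ⟨T₃, hT₃⟩ : ∃ T₃ : VASS Q 3, T₃ = T₁.image fun t => (t.1, cmPr e t.2.1, t.2.2) :=
    ⟨_, rfl⟩
  have hT₃mem : ∀ a v b, (a, v, b) ∈ T₁ → (a, cmPr e v, b) ∈ T₃ := by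
    intro a v b hv
    rw [hT₃]
    exact mem_image.2 ⟨(a, v, b), hv, rfl⟩
  have hT₃out : ∀ a v₃ b, (a, v₃, b) ∈ T₃ → ∃ v, (a, v, b) ∈ T₁ ∧ cmPr e v = v₃ := by
    intro a v₃ b hv
    rw [hT₃] at hv
    obtain ⟨⟨a', v, b'⟩, h1, h2⟩ := mem_image.1 hv
    obtain ⟨rfl, h3⟩ := Prod.mk.inj h2
    obtain ⟨h4, rfl⟩ := Prod.mk.inj h3
    exact ⟨v, h1, h4⟩
  have hnorm : maxNorm T₃ ≤ maxNorm T := by
    refine Finset.sup_le fun t ht => ?_
    obtain ⟨a, v₃, b⟩ := t
    obtain ⟨v, h1, rfl⟩ := hT₃out a v₃ b ht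
    have h2 : supZ (cmPr e v) ≤ supZ v := by
      refine Finset.sup_le fun c _ => ?_
      rcases hec : e c with - | k
      · have : cmPr e v c = 0 := by
          simp only [cmPr, hec]
          rfl
        rw [this]
        exact Nat.zero_le _
      · rw [cmPr_some hec]
        exact Finset.le_sup (f := fun k => (v k).natAbs) (mem_univ k)
    exact h2.trans (Finset.le_sup (f := fun t : Q × (Fin d → ℤ) × Q => supZ t.2.1)
      ((hT₁mem a v b).1 h1).1)
  -- the run
  have hrun : ∀ (v u : List (Vec d)) (r : Q), w = u ++ v → Walk T p u r →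
      PW T (fun _ z => 0 ≤ z ∧ ∀ k, MovedBy T k → z k ≤ H) r (x + u.sum) v p' →
      PW T₃ (fun _ z => 0 ≤ z ∧ ∀ k, z k ≤ H) r (cmPr e (x + u.sum)) (v.map (cmPr e)) p' := by
    have hP : ∀ z : Vec d, (0 ≤ z ∧ ∀ k, MovedBy T k → z k ≤ H) →
        (0 ≤ cmPr e z ∧ ∀ k, cmPr e z k ≤ H) := by
      rintro z ⟨h1, h2⟩
      refine ⟨fun c => ?_, fun c => ?_⟩
      · rcases hec : e c with - | k
        · have : cmPr e z c = 0 := by
            simp only [cmPr, hec]
            rfl
          rw [this]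
          rfl
        · rw [cmPr_some hec]
          exact h1 k
      · rcases hec : e c with - | k
        · have : cmPr e z c = 0 := by
            simp only [cmPr, hec]
            rfl
          rw [this]
          exact Int.natCast_nonneg _
        · rw [cmPr_some hec]
          exact h2 k ((hKmem k).1 (he2 c k hec)).2
    intro v
    induction v with
    | nil =>
      intro u r hw hu hpw
      cases hpw with
      | nil h0 => exact .nil (hP _ h0)
    | cons a v ih =>
      intro u r hw hu hpw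
      have hwalk := hpw.walk
      cases hpw with
      | @cons _ r' _ _ _ _ h0 h1 h2 =>
        have e1 : x + (u ++ [a]).sum = x + u.sum + a := by
          rw [List.sum_append, List.sum_singleton, ← add_assoc]
        have e2 : w = (u ++ [a]) ++ v := by rw [hw, List.append_assoc]; rfl
        have hu' : Walk T p (u ++ [a]) r' := hu.append (.cons h1 (.nil _))
        have hr : Rv r := (hRv r).2 ⟨u, a :: v, hw, hu, h0.1, hwalk⟩
        have hr' : Rv r' := (hRv r').2 ⟨u ++ [a], v, e2, hu', by rw [e1]; exact h2.start.1,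
          h2.walk⟩
        have h3 := ih (u ++ [a]) r' e2 hu' (by rw [e1]; exact h2)
        rw [e1, cmPr_add] at h3
        exact .cons (hP _ h0) (hT₃mem _ _ _ ((hT₁mem _ _ _).2 ⟨h1, hr, hr'⟩)) h3
  have hrun₀ := hrun w [] p rfl (.nil p) (by simpa using h)
  rw [List.sum_nil, add_zero] at hrun₀
  obtain ⟨w₃, a1, a2, a3, a4⟩ := chain3l hH hrun₀
  -- lifting
  have hlift : ∀ {a b : Q} {u₃ : List (Vec 3)}, Walk T₃ a u₃ b →
      ∃ u, Walk T₁ a u b ∧ u.map (cmPr e) = u₃ := by
    intro a b u₃ hu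
    induction hu with
    | nil a => exact ⟨[], .nil a, rfl⟩
    | cons h1 _ ih =>
      obtain ⟨v, h2, h3⟩ := hT₃out _ _ _ h1
      obtain ⟨u, h4, h5⟩ := ih
      exact ⟨v :: u, .cons h2 h4, by rw [List.map_cons, h3, h5]⟩
  obtain ⟨w', b1, b2⟩ := hlift a1
  obtain ⟨β, hβ⟩ := hp'
  have hRp : Rv p := (hRv p).2 ⟨[], w, rfl, .nil p, by simpa using h.start.1, h.walk⟩
  -- the other counters
  have hfix : ∀ k, k ∉ K → ∀ r, Rv r → ∀ u, Walk T p u r → 0 ≤ (x + u.sum) k := by
    intro k hk r hr u hu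
    obtain ⟨u₀, v₀, -, h2, h3, h4⟩ := (hRv r).1 hr
    have c1 := hcl _ (hu.append (h4.append hβ)) k hk
    have c2 := hcl _ (h2.append (h4.append hβ)) k hk
    rw [List.sum_append, Pi.add_apply] at c1 c2
    have c3 := h3 k
    simp only [Pi.zero_apply, Pi.add_apply] at c3 ⊢
    linarith
  have hok : ∀ (v u : List (Vec d)) (r : Q), Walk T₁ p u r → Walk T₁ r v p' →
      Ok (cmPr e (x + u.sum)) (v.map (cmPr e)) → Ok (x + u.sum) v := by
    intro v
    induction v with
    | nil =>
      intro u r _ _ _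
      trivial
    | cons a v ih =>
      intro u r hu hv hokv
      cases hv with
      | @cons _ r' _ _ _ h1 h2 =>
        have hu' : Walk T₁ p (u ++ [a]) r' := hu.append (.cons h1 (.nil _))
        have e1 : x + (u ++ [a]).sum = x + u.sum + a := by
          rw [List.sum_append, List.sum_singleton, ← add_assoc]
        rw [List.map_cons] at hokv
        obtain ⟨o1, o2⟩ := hokv
        rw [← cmPr_add] at o1 o2
        refine ⟨fun k => ?_, ?_⟩
        · by_cases hk : k ∈ K
          · obtain ⟨c, hc⟩ := he1 k hk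
            have := o1 c
            rw [cmPr_some hc] at this
            exact this
          · have h3 := hfix k hk r' (hRend hu' hRp) _ (hmono hu')
            rw [e1] at h3
            exact h3
        · have h4 := ih (u ++ [a]) r' hu' h2 (by rw [e1]; exact o2)
          rw [e1] at h4
          exact h4
  refine ⟨w', hmono b1, ?_, fun k => ?_, ?_⟩
  · have h1 := hok w' [] p (.nil p) b1 (by rw [b2]; simpa using a2)
    simpa using h1
  · by_cases hk : k ∈ K
    · obtain ⟨c, hc⟩ := he1 k hk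
      have h1 := a3 c
      rw [← b2, cmPr_sum, cmPr_sum, cmPr_some hc, cmPr_some hc] at h1
      exact h1
    · have c1 := hcl _ (h.walk.append hβ) k hk
      have c2 := hcl _ ((hmono b1).append hβ) k hk
      rw [List.sum_append, Pi.add_apply] at c1 c2
      linarith
  · have h1 : w'.length = w₃.length := by rw [← b2, List.length_map]
    rw [h1]
    refine a4.trans (Nat.mul_le_mul_left _ (Nat.add_le_add_right (Nat.mul_le_mul_left _ ?_) _))
    unfold cHa
    exact Nat.pow_le_pow_left (Nat.mul_le_mul_left _ (by omega)) _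

end Pool.Agent.EE3
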