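import Pool.Agent.EE3.Wall3

/-!
# EE3 / Defs: constants for components of VASS with three counters
-/

set_option autoImplicit false
set_option linter.unusedSectionVars false

namespace Pool.Agent.EE3

open Pool.Agent.EEF Pool.Agent.REV Pool.Agent.EE2 Finset

/-- bound for the weights -/
def cLam (n M : ℕ) : ℕ := (8 * n * (M + 1)) ^ 20

/-- bound for the length of the increasing closed walks -/
def cPmp (n M : ℕ) : ℕ := (8 * n * (M + 1)) ^ 45

/-- two counters are below `b` -/
def Cor3 (b : ℕ) (y : Vec 3) : Prop := ∃ i j, i ≠ j ∧ y i < b ∧ y j < b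

/-- size of the schemes near the edges -/
def cEdge (n b M : ℕ) : ℕ := (n * (b + M) ^ 3 + 1) * (cTot (n * (b + 1)) 3 M + 4)

/-- threshold for interior configurations: the increasing closed walks can be executed -/
def cI (n M : ℕ) : ℕ := M * cPmp n M + 1

/-- threshold for the edges -/
def cH (n M : ℕ) : ℕ := cI n M + M * (n * (cI n M + 1) + 1) + 1

end Pool.Agent.EE3
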