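import Pool.Agent.EE3.Defs
import Pool.Agent.EE2.ClassPM

/-!
# EE3 / Defs2: more constants
-/

set_option autoImplicit false
set_option linter.unusedSectionVars false

namespace Pool.Agent.EE3

open Pool.Agent.EEF Pool.Agent.REV Pool.Agent.EE2 Finset

/-- length factor for systems of geometric dimension two or with two counters -/
def cP2 (n M : ℕ) : ℕ := (8 * n * (M + 1)) ^ 1200

/-- length factor for components with a small weight which no cycle increases -/
def cCo (n M : ℕ) : ℕ := (8 * n * (M + 1)) ^ 1300

end Pool.Agent.EE3
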