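import Pool.Agent.EE3.SeqDefs

/-!
# EE3 / DropC: one counter of `d + 1` counters is large
-/

set_option autoImplicit false
set_option linter.unusedSectionVars false

namespace Pool.Agent.EE3

open Pool.Agent.EEF Pool.Agent.REV Pool.Agent.EE2 Finset

/-- drop a counter -/
def dropC {d : ℕ} (k : Fin (d + 1)) (v : Vec (d + 1)) : Vec d := fun i => v (k.succAbove i)

open Classical in
/-- the VASS without counter `k` -/
noncomputable def dropT {Q : Type} {d : ℕ} (k : Fin (d + 1)) (T : VASS Q (d + 1)) : VASS Q d :=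
  T.image fun t => (t.1, dropC k t.2.1, t.2.2)

private theorem dc_sum {d : ℕ} (k : Fin (d + 1)) (w : List (Vec (d + 1))) :
    (w.map (dropC k)).sum = dropC k w.sum := by
  induction w with
  | nil => rfl
  | cons v w ih =>
    rw [List.map_cons, List.sum_cons, ih, List.sum_cons]
    rfl

private theorem dc_mem {Q : Type} {d : ℕ} {k : Fin (d + 1)} {T : VASS Q (d + 1)} {p q : Q}
    {u : Vec d} : (p, u, q) ∈ dropT k T ↔ ∃ v, (p, v, q) ∈ T ∧ dropC k v = u := by
  classical
  unfold dropT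
  rw [mem_image]
  constructor
  · rintro ⟨⟨a, b, c⟩, h1, h2⟩
    simp only [Prod.mk.injEq] at h2
    obtain ⟨rfl, h3, rfl⟩ := h2
    exact ⟨b, h1, h3⟩
  · rintro ⟨v, h1, rfl⟩
    exact ⟨(p, v, q), h1, rfl⟩

private theorem dc_walk {Q : Type} {d : ℕ} {k : Fin (d + 1)} {T : VASS Q (d + 1)} {p q : Q}
    {w : List (Vec (d + 1))} (h : Walk T p w q) : Walk (dropT k T) p (w.map (dropC k)) q := by
  induction h with
  | nil p => exact .nil p
  | cons h1 _ ih => exact .cons (dc_mem.2 ⟨_, h1, rfl⟩) ih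

private theorem dc_lift {Q : Type} {d : ℕ} {k : Fin (d + 1)} {T : VASS Q (d + 1)} {p q : Q}
    {u : List (Vec d)} (h : Walk (dropT k T) p u q) :
    ∃ w, Walk T p w q ∧ w.map (dropC k) = u := by
  induction h with
  | nil p => exact ⟨[], .nil p, rfl⟩
  | cons h1 _ ih =>
    obtain ⟨v, h2, rfl⟩ := dc_mem.1 h1
    obtain ⟨w, h3, rfl⟩ := ih
    exact ⟨v :: w, .cons h2 h3, rfl⟩

private theorem dc_ok {d : ℕ} {k : Fin (d + 1)} {x : Vec (d + 1)} {w : List (Vec (d + 1))}
    (h : Ok x w) : Ok (dropC k x) (w.map (dropC k)) := by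
  induction w generalizing x with
  | nil => trivial
  | cons v w ih => exact ⟨fun i => h.1 _, ih h.2⟩

private theorem dc_ok_lift {d : ℕ} {k : Fin (d + 1)} {M : ℕ} {x : Vec (d + 1)}
    {w : List (Vec (d + 1))} (hM : ∀ v ∈ w, |v k| ≤ (M : ℤ))
    (h : Ok (dropC k x) (w.map (dropC k))) (hk : (M : ℤ) * w.length ≤ x k) : Ok x w := by
  induction w generalizing x with
  | nil => trivial
  | cons v w ih =>
    have h1 : |v k| ≤ (M : ℤ) := hM v (List.mem_cons_self)
    have h2 : -(M : ℤ) ≤ v k := (abs_le.1 h1).1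
    rw [List.length_cons] at hk
    push_cast at hk
    have h3 : (M : ℤ) * w.length ≤ x k + v k := by
      have : (M : ℤ) * (w.length + 1) = M * w.length + M := by ring
      linarith
    have h4 : (0 : ℤ) ≤ M * w.length := by positivity
    refine ⟨fun j => ?_, ?_⟩
    · by_cases hj : j = k
      · subst hj
        exact le_trans h4 h3
      · obtain ⟨i, rfl⟩ := Fin.exists_succAbove_eq hj
        exact h.1 i
    · exact ih (fun u hu => hM u (List.mem_cons_of_mem _ hu)) h.2 h3

theorem dropT_norm {Q : Type} {d : ℕ} (k : Fin (d + 1)) (T : VASS Q (d + 1)) :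
    maxNorm (dropT k T) ≤ maxNorm T := by
  unfold maxNorm
  refine Finset.sup_le ?_
  rintro ⟨p, u, q⟩ ht
  obtain ⟨v, h1, rfl⟩ := dc_mem.1 ht
  refine le_trans ?_ (Finset.le_sup (f := fun t : Q × (Fin (d + 1) → ℤ) × Q => supZ t.2.1) h1)
  unfold supZ
  refine Finset.sup_le fun i _ => ?_
  exact Finset.le_sup (f := fun j => (v j).natAbs) (mem_univ (k.succAbove i))

theorem dropT_three {Q : Type} {d : ℕ} (k : Fin (d + 1)) {T : VASS Q (d + 1)}
    (h : ∀ p, ThreeAt T p) : ∀ p, ThreeAt (dropT k T) p := by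
  intro p
  obtain ⟨K, h1, h2⟩ := h p
  refine ⟨univ.filter fun i => k.succAbove i ∈ K, ?_, fun u hu i hi => ?_⟩
  · refine le_trans ?_ h1
    refine Finset.card_le_card_of_injOn k.succAbove (fun i hi => ?_)
      (Fin.succAbove_right_injective.injOn)
    exact (Finset.mem_filter.1 (Finset.mem_coe.1 hi)).2
  · obtain ⟨w, h3, rfl⟩ := dc_lift hu
    rw [dc_sum]
    refine h2 w h3 _ fun hc => hi ?_
    exact Finset.mem_filter.2 ⟨mem_univ _, hc⟩

theorem dropT_kap {Q : Type} {d : ℕ} {k : Fin (d + 1)} {T : VASS Q (d + 1)}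
    (h : MovedBy T k) : kap (dropT k T) + 1 ≤ kap T := by
  classical
  unfold kap
  have h1 : ∀ i, MovedBy (dropT k T) i → MovedBy T (k.succAbove i) := by
    rintro i ⟨p, u, hu, hne⟩
    obtain ⟨w, h3, rfl⟩ := dc_lift hu
    rw [dc_sum] at hne
    exact ⟨p, w, h3, hne⟩
  have h2 : k ∉ (univ.filter fun i => MovedBy (dropT k T) i).image k.succAbove := by
    rw [Finset.mem_image]
    rintro ⟨i, -, hi⟩
    exact Fin.succAbove_ne k i hi
  have h3 : insert k ((univ.filter fun i => MovedBy (dropT k T) i).image k.succAbove) ⊆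
      univ.filter fun j => MovedBy T j := by
    intro j hj
    rw [Finset.mem_insert] at hj
    rw [Finset.mem_filter]
    refine ⟨mem_univ _, ?_⟩
    rcases hj with rfl | hj
    · exact h
    · obtain ⟨i, hi, rfl⟩ := Finset.mem_image.1 hj
      exact h1 i (Finset.mem_filter.1 hi).2
  have h4 := Finset.card_le_card h3
  rw [Finset.card_insert_of_notMem h2,
    Finset.card_image_of_injective _ Fin.succAbove_right_injective] at h4
  exact h4

theorem rackD {Q : Type} [Fintype Q] {d : ℕ} {T : VASS Q (d + 1)} {s t : Q} {x : Vec (d + 1)}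
    {y : Fin (d + 1) → ℕ} {w : List (Vec (d + 1))} (hx : 0 ≤ x) (hw : Walk T s w t) (hok : Ok x w)
    (hy : ∀ k, (y k : ℤ) ≤ (x + w.sum) k) {k : Fin (d + 1)} {L : ℕ}
    (hL : ∀ x' y' : Fin d → ℕ, supN y' ≤ supN y → (∃ w, Covers (dropT k T) s x' t y' w) →
      ∃ w, Covers (dropT k T) s x' t y' w ∧ w.length ≤ L)
    (hk : ((maxNorm T * L + supN y : ℕ) : ℤ) ≤ x k) :
    ∃ w', Walk T s w' t ∧ Ok x w' ∧ (∀ k, (y k : ℤ) ≤ (x + w'.sum) k) ∧ w'.length ≤ L := by
  obtain ⟨M, hM⟩ : ∃ M, M = maxNorm T := ⟨_, rfl⟩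
  have hend : 0 ≤ x + w.sum := Ok_end hx hok
  -- the projected run
  have e1 : zv (fun i => (dropC k x i).toNat) = dropC k x := by
    funext i
    exact Int.toNat_of_nonneg (hx _)
  have e2 : zv (fun i => (dropC k (x + w.sum) i).toNat) = dropC k (x + w.sum) := by
    funext i
    exact Int.toNat_of_nonneg (hend _)
  have hrun : Run (dropT k T) s (fun i => (dropC k x i).toNat) (w.map (dropC k)) t
      (fun i => (dropC k (x + w.sum) i).toNat) := by
    refine run_iff.2 ⟨dc_walk hw, ?_, ?_⟩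
    · rw [e1]
      exact dc_ok hok
    · rw [e1, e2, dc_sum]
      rfl
  have hy2 : ∀ i, (fun i => y (k.succAbove i)) i ≤ (fun i => (dropC k (x + w.sum) i).toNat) i := by
    intro i
    have h1 := hy (k.succAbove i)
    show y (k.succAbove i) ≤ ((x + w.sum) (k.succAbove i)).toNat
    omega
  have hsup : supN (fun i => y (k.succAbove i)) ≤ supN y := by
    unfold supN
    refine Finset.sup_le fun i _ => ?_
    exact Finset.le_sup (f := y) (mem_univ (k.succAbove i))
  obtain ⟨u, ⟨y'', h1, h2⟩, h3⟩ := hL (fun i => (dropC k x i).toNat)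
    (fun i => y (k.succAbove i)) hsup ⟨_, _, hrun, hy2⟩
  obtain ⟨h4, h5, h6⟩ := run_iff.1 h1
  obtain ⟨w', h7, rfl⟩ := dc_lift h4
  rw [e1] at h5 h6
  rw [List.length_map] at h3
  have hlet : ∀ v ∈ w', |v k| ≤ (M : ℤ) := by
    intro v hv
    obtain ⟨a, b, hab⟩ := h7.letters v hv
    rw [hM]
    exact abs_le_maxNorm hab k
  rw [← hM] at hk
  push_cast at hk
  have hlen' : (M : ℤ) * w'.length ≤ M * L := by
    exact mul_le_mul_of_nonneg_left (by exact_mod_cast h3) (Int.natCast_nonneg _)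
  have hsy : (0 : ℤ) ≤ (supN y : ℤ) := Int.natCast_nonneg _
  have hok' : Ok x w' := dc_ok_lift hlet h5 (by linarith)
  refine ⟨w', h7, hok', fun j => ?_, h3⟩
  by_cases hj : j = k
  · subst hj
    have h8 := walk_le h7 j
    rw [← hM] at h8
    have h9 := (abs_le.1 h8).1
    have h10 : (y j : ℤ) ≤ supN y := by
      exact_mod_cast (Finset.le_sup (f := y) (mem_univ j))
    have h11 : (w'.length : ℤ) * M = M * w'.length := by ring
    rw [Pi.add_apply]
    rw [h11] at h9
    linarith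
  · obtain ⟨i, rfl⟩ := Fin.exists_succAbove_eq hj
    have h8 := congrFun h6 i
    have h9 := h2 i
    rw [dc_sum] at h8
    have h10 : ((y'' i : ℕ) : ℤ) = (x + w'.sum) (k.succAbove i) := h8
    rw [← h10]
    exact_mod_cast h9

end Pool.Agent.EE3
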