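import Pool.Agent.EE3.Defs
import Pool.Agent.EE2.Zone2

/-!
# EE3 / Edge: runs near the edges
-/

set_option autoImplicit false
set_option linter.unusedSectionVars false

namespace Pool.Agent.EE3

open Pool.Agent.EEF Pool.Agent.REV Pool.Agent.EE2 Finset

variable {Q : Type} {T : VASS Q 3}

private theorem fin3_pair : ∀ i j k i' j' : Fin 3, i ≠ j → k ≠ i → k ≠ j → i' ≠ j' → i' ≠ k →
    j' ≠ k → (i = i' ∧ j = j') ∨ (i = j' ∧ j = i') := by decide

/-- away from the origin the two small counters are always the same -/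
private theorem edge_fix {p₀ : Q} {b : ℕ} {p q : Q} {x : Vec 3} {w : List (Vec 3)}
    (h : PW T (fun r y => (InS T p₀ r ∧ 0 ≤ y ∧ Cor3 b y) ∧
      ∃ k, ((b + maxNorm T : ℕ) : ℤ) ≤ y k) p x w q) :
    ∀ i j : Fin 3, i ≠ j → x i < b → x j < b →
      PW T (fun r y => InS T p₀ r ∧ 0 ≤ y ∧ y i ≤ b) p x w q := by
  induction h with
  | nil h1 =>
    intro i j _ hi _
    exact .nil ⟨h1.1.1, h1.1.2.1, hi.le⟩
  | @cons p p₁ q v x w h1 h3 h4 ih =>
    intro i j hij hi hj
    refine .cons ⟨h1.1.1, h1.1.2.1, hi.le⟩ h3 ?_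
    obtain ⟨k, hk⟩ := h1.2
    push_cast at hk
    have hki : k ≠ i := by rintro rfl; omega
    have hkj : k ≠ j := by rintro rfl; omega
    have hv := abs_le_maxNorm h3 k
    have hk' : (b : ℤ) ≤ (x + v) k := by
      rw [Pi.add_apply]
      have := (abs_le.1 hv).1
      linarith
    obtain ⟨i', j', hij', hi', hj'⟩ := h4.start.1.2.2
    have hi'k : i' ≠ k := by rintro rfl; omega
    have hj'k : j' ≠ k := by rintro rfl; omega
    rcases fin3_pair i j k i' j' hij hki hkj hij' hi'k hj'k with ⟨rfl, rfl⟩ | ⟨rfl, rfl⟩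
    · exact ih _ _ hij hi' hj'
    · exact ih _ _ hij hj' hi'

/-- runs all of whose configurations have two counters below `b` -/
theorem edge3 [Fintype Q] {p₀ : Q} (hmov : ∀ k, Mov T p₀ k) (b : ℕ) {p q : Q} {x : Vec 3}
    {w : List (Vec 3)} (h : PW T (fun r y => InS T p₀ r ∧ 0 ≤ y ∧ Cor3 b y) p x w q) :
    Rlz T p x w.sum q (cEdge (Fintype.card Q) b (maxNorm T)) := by
  classical
  have h3 : Module.finrank ℚ (VS T p₀) ≤ 3 := by
    have h := Submodule.finrank_le (VS T p₀)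
    rwa [Module.finrank_fintype_fun_eq_card, Fintype.card_fin] at h
  set c : ℕ := b + maxNorm T with hc
  let D : Finset (Q × Vec 3) := (univ : Finset (Q × (Fin 3 → Fin c))).image
    (fun z => (z.1, fun k => ((z.2 k : ℕ) : ℤ)))
  have hD : D.card ≤ Fintype.card Q * c ^ 3 := by
    refine card_image_le.trans ?_
    rw [card_univ, Fintype.card_prod, Fintype.card_fun, Fintype.card_fin, Fintype.card_fin]
  have hmem : ∀ (r : Q) (y : Vec 3), 0 ≤ y → (∀ k, y k < c) → (r, y) ∈ D := by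
    intro r y h0 hy
    refine mem_image.2 ⟨(r, fun k => ⟨(y k).toNat, ?_⟩), mem_univ _, ?_⟩
    · have := h0 k
      have := hy k
      simp only [Pi.zero_apply] at *
      omega
    · refine Prod.ext rfl ?_
      funext k
      exact Int.toNat_of_nonneg (h0 k)
  have h5 : PW T (fun r y => (InS T p₀ r ∧ 0 ≤ y ∧ Cor3 b y) ∧
      ((∃ k, (c : ℤ) ≤ y k) ∨ (r, y) ∈ D)) p x w q := by
    refine h.mono fun r y hy => ⟨hy, ?_⟩
    by_cases hk : ∃ k, (c : ℤ) ≤ y k
    · exact Or.inl hk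
    · push Not at hk
      exact Or.inr (hmem r y hy.2.1 hk)
  have h6 := zone2 (T := T) (R := fun r y => InS T p₀ r ∧ 0 ≤ y ∧ Cor3 b y)
    (P := fun _ y => ∃ k, (c : ℤ) ≤ y k) (fun _ _ h => h.2.1)
    (a := cTot (Fintype.card Q * (b + 1)) 3 (maxNorm T)) ?_ _ hD h5
  · exact h6
  · intro p q x w h7
    obtain ⟨i, j, hij, hi, hj⟩ := h7.start.1.2.2
    exact wall3 h3 (hmov i) b (edge_fix h7 i j hij hi hj)

end Pool.Agent.EE3
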