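import Pool.Agent.EE3.Real3
import Pool.Agent.EE3.Circ

/-!
# EE3 / Int3: integer relaxation (row IN)
-/

set_option autoImplicit false
set_option linter.unusedSectionVars false

namespace Pool.Agent.EE3

open Finset

/-- the rows `z (i+1) k - z i k - u * a i` -/
def in3M (N : ℕ) (u : ℤ) (i : Fin N) (k : Fin 3) : Fin N ⊕ (Fin (N + 1) × Fin 3) → ℤ :=
  Sum.elim (fun j => if j = i then -u else 0)
    (fun q => (if q = (i.succ, k) then 1 else 0) - (if q = (i.castSucc, k) then 1 else 0))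

theorem in3M_sum {S : Type} [CommRing S] (N : ℕ) (u : ℤ) (i : Fin N) (k : Fin 3)
    (g : Fin N ⊕ (Fin (N + 1) × Fin 3) → S) :
    ∑ c, ((in3M N u i k c : ℤ) : S) * g c =
      -(u : S) * g (Sum.inl i) + (g (Sum.inr (i.succ, k)) - g (Sum.inr (i.castSucc, k))) := by
  rw [Fintype.sum_sum_type]
  congr 1
  · simp [in3M]
  · simp only [in3M, Sum.elim_inr, Int.cast_sub, Int.cast_ite, Int.cast_one, Int.cast_zero, sub_mul,
      ite_mul, one_mul, zero_mul, sum_sub_distrib, sum_ite_eq', mem_univ, if_true]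

theorem in3M_abs (N : ℕ) (u : ℤ) (i : Fin N) (k : Fin 3) :
    ∑ c, |in3M N u i k c| ≤ |u| + 2 := by
  rw [Fintype.sum_sum_type]
  have h1 : ∑ j : Fin N, |in3M N u i k (Sum.inl j)| = |u| := by
    have : ∀ j : Fin N, |in3M N u i k (Sum.inl j)| = if j = i then |u| else 0 := by
      intro j
      simp only [in3M, Sum.elim_inl]
      split_ifs <;> simp
    simp_rw [this]
    simp
  have h2 : ∑ q : Fin (N + 1) × Fin 3, |in3M N u i k (Sum.inr q)| ≤
      ∑ q : Fin (N + 1) × Fin 3, ((if q = (i.succ, k) then 1 else 0) +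
        (if q = (i.castSucc, k) then 1 else 0)) := by
    refine sum_le_sum fun q _ => ?_
    simp only [in3M, Sum.elim_inr]
    split_ifs <;> simp
  rw [sum_add_distrib] at h2
  simp only [sum_ite_eq', mem_univ, if_true] at h2
  rw [h1]
  linarith

theorem int3 (N A H : ℕ) (lam : Fin 3 → ℕ) (hlam : ∀ k, 1 ≤ lam k ∧ lam k ≤ A)
    (u f b y : ℕ → Fin 3 → ℤ) (a : ℕ → ℕ)
    (ht : ∀ i < N, ∑ k, (lam k : ℤ) * u i k = 0)
    (hy : ∀ i < N, ∀ k, y (i + 1) k = y i k + f i k + a i * u i k)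
    (hu : ∀ i < N, ∀ k, |u i k| ≤ A) (hf : ∀ i < N, ∀ k, |f i k| ≤ A)
    (hb0 : ∀ i ≤ N, ∀ k, 0 ≤ b i k) (hbA : ∀ i ≤ N, ∀ k, b i k ≤ A)
    (hb : ∀ i ≤ N, ∀ k, b i k ≤ y i k) (hH : ∀ k, y 0 k ≤ H) :
    ∃ (a' : ℕ → ℕ) (z : ℕ → Fin 3 → ℤ), z 0 = y 0 ∧ z N = y N ∧
      (∀ i < N, ∀ k, z (i + 1) k = z i k + f i k + a' i * u i k) ∧
      (∀ i < N, a i = 0 → a' i = 0) ∧ (∀ i ≤ N, ∀ k, b i k ≤ z i k) ∧
      ∑ i ∈ range N, a' i ≤ 100 * (A + 1) ^ 8 * (H + N + 1) +
        N * ((4 * N + 3) * (A + 2) ^ (3 * N)) := by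
  classical
  obtain ⟨a', x, hx0, hxN, hxs, ha0, haz, hxb, hsum⟩ :=
    real3 N A H lam hlam u f b y a ht hy hu hf hb0 hbA hb hH
  obtain ⟨z', h1, h2, h3⟩ := circ3
    (fun r : Fin N × Fin 3 => in3M N (u r.1 r.2) r.1 r.2) (A + 2) (by omega)
    (fun r => by
      refine (in3M_abs N (u r.1 r.2) r.1 r.2).trans ?_
      have := hu r.1 r.1.2 r.2
      push_cast
      linarith)
    (Sum.elim (fun i : Fin N => (a i : ℤ)) (fun q : Fin (N + 1) × Fin 3 => y q.1 q.2))
    (Sum.elim (fun i : Fin N => a' i) (fun q : Fin (N + 1) × Fin 3 => x q.1 q.2))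
    (fun r => by
      rw [in3M_sum]
      simp only [Sum.elim_inl, Sum.elim_inr, Fin.val_succ, Fin.val_castSucc, Int.cast_natCast]
      have e1 := hy r.1 r.1.2 r.2
      have e2 := hxs r.1 r.1.2 r.2
      have e3 : ((y (r.1 + 1) r.2 : ℤ) : ℚ) = y r.1 r.2 + f r.1 r.2 + a r.1 * u r.1 r.2 := by
        rw [e1]
        push_cast
        ring
      rw [e2, e3]
      ring)
  have h4 : ∀ i (hi : i < N), (0 : ℤ) ≤ z' (Sum.inl ⟨i, hi⟩) := by
    intro i hi
    have h := (h2 (Sum.inl ⟨i, hi⟩)).1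
    simp only [Sum.elim_inl] at h
    have h5 : (0 : ℚ) ≤ z' (Sum.inl ⟨i, hi⟩) := by
      refine le_trans (le_min ?_ (ha0 i hi)) h
      simp
    exact_mod_cast h5
  refine ⟨fun i => if hi : i < N then (z' (Sum.inl ⟨i, hi⟩)).toNat else 0,
    fun l k => if hl : l < N + 1 then z' (Sum.inr (⟨l, hl⟩, k)) else 0, ?_, ?_, ?_, ?_, ?_, ?_⟩
  · funext k
    have h := h2 (Sum.inr (⟨0, by omega⟩, k))
    simp only [Sum.elim_inr, hx0, min_self, max_self] at h
    dsimp only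
    rw [dif_pos (by omega : 0 < N + 1)]
    have h5 : ((z' (Sum.inr (⟨0, by omega⟩, k)) : ℤ) : ℚ) = (y 0 k : ℤ) := le_antisymm h.2 h.1
    exact_mod_cast h5
  · funext k
    have h := h2 (Sum.inr (⟨N, by omega⟩, k))
    simp only [Sum.elim_inr, hxN, min_self, max_self] at h
    dsimp only
    rw [dif_pos (by omega : N < N + 1)]
    have h5 : ((z' (Sum.inr (⟨N, by omega⟩, k)) : ℤ) : ℚ) = (y N k : ℤ) := le_antisymm h.2 h.1
    exact_mod_cast h5
  · intro i hi k
    have h := h1 (⟨i, hi⟩, k)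
    have h' := in3M_sum (S := ℤ) N (u i k) ⟨i, hi⟩ k (fun c => z' c -
      Sum.elim (fun i : Fin N => (a i : ℤ)) (fun q : Fin (N + 1) × Fin 3 => y q.1 q.2) c)
    simp only [Int.cast_id] at h'
    simp only at h
    rw [h'] at h
    simp only [Sum.elim_inl, Sum.elim_inr, Fin.succ_mk, Fin.castSucc_mk] at h
    dsimp only
    rw [dif_pos (by omega : i + 1 < N + 1), dif_pos (by omega : i < N + 1), dif_pos hi,
      Int.toNat_of_nonneg (h4 i hi)]
    have e1 := hy i hi k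
    rw [e1] at h
    linarith
  · intro i hi hai
    have h := h2 (Sum.inl ⟨i, hi⟩)
    simp only [Sum.elim_inl, hai, haz i hi hai, Nat.cast_zero, Int.cast_zero, min_self,
      max_self] at h
    dsimp only
    rw [dif_pos hi]
    have h5 : ((z' (Sum.inl ⟨i, hi⟩) : ℤ) : ℚ) = 0 := le_antisymm h.2 h.1
    have h6 : z' (Sum.inl ⟨i, hi⟩) = 0 := by exact_mod_cast h5
    rw [h6]
    rfl
  · intro i hi k
    have h := (h2 (Sum.inr (⟨i, by omega⟩, k))).1
    simp only [Sum.elim_inr] at h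
    dsimp only
    rw [dif_pos (by omega : i < N + 1)]
    have h5 : (b i k : ℚ) ≤ z' (Sum.inr (⟨i, by omega⟩, k)) := by
      refine le_trans (le_min ?_ (hxb i hi k)) h
      exact_mod_cast hb i hi k
    exact_mod_cast h5
  · have h5 : ∀ i ∈ range N, ((if hi : i < N then (z' (Sum.inl ⟨i, hi⟩)).toNat else 0 : ℕ) : ℚ) ≤
        a' i + ((4 * N + 3 : ℕ) : ℚ) * ((A + 2 : ℕ) : ℚ) ^ (3 * N) := by
      intro i hi
      have hi' : i < N := mem_range.1 hi
      rw [dif_pos hi']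
      have h := h3 (Sum.inl ⟨i, hi'⟩)
      simp only [Sum.elim_inl] at h
      have hc : Fintype.card (Fin N ⊕ (Fin (N + 1) × Fin 3)) = 4 * N + 3 := by
        simp only [Fintype.card_sum, Fintype.card_prod, Fintype.card_fin]
        ring
      have hr : Fintype.card (Fin N × Fin 3) = 3 * N := by
        simp only [Fintype.card_prod, Fintype.card_fin]
        ring
      rw [hc, hr] at h
      have h6 : (((z' (Sum.inl ⟨i, hi'⟩)).toNat : ℕ) : ℚ) = z' (Sum.inl ⟨i, hi'⟩) := by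
        have := Int.toNat_of_nonneg (h4 i hi')
        exact_mod_cast this
      rw [h6]
      have := (abs_le.1 h).2
      linarith
    have h6 := sum_le_sum h5
    rw [sum_add_distrib, sum_const, card_range, nsmul_eq_mul] at h6
    have h7 : ((∑ i ∈ range N, (if hi : i < N then (z' (Sum.inl ⟨i, hi⟩)).toNat else 0) : ℕ) : ℚ) ≤
        ((100 * (A + 1) ^ 8 * (H + N + 1) + N * ((4 * N + 3) * (A + 2) ^ (3 * N)) : ℕ) : ℚ) := by
      push_cast at h6 hsum ⊢
      linarith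
    exact_mod_cast h7

end Pool.Agent.EE3
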