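import Pool.Agent.EE3.SeqDefs

/-!
# EE3 / Kap: the number of counters which are changed by closed walks
-/

set_option autoImplicit false
set_option linter.unusedSectionVars false

namespace Pool.Agent.EE3

open Pool.Agent.EEF Pool.Agent.REV Pool.Agent.EE2 Finset

/-- if every component changes at most three counters, then at most `3 * geomDim T` counters are
changed -/
theorem kap_le {Q : Type} [Fintype Q] {d : ℕ} {T : VASS Q d} (h : ∀ p, ThreeAt T p) :
    kap T ≤ 3 * geomDim T := by
  classical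
  obtain ⟨b, hbS, hspan, hli⟩ :=
    exists_linearIndependent ℚ {c : Fin d → ℚ | ∃ q w, Walk T q w q ∧ c = qv w.sum}
  have hfin : b.Finite := hli.setFinite
  obtain ⟨B, hB⟩ : ∃ B : Finset (Fin d → ℚ), (B : Set (Fin d → ℚ)) = b :=
    ⟨hfin.toFinset, hfin.coe_toFinset⟩
  have hcard : geomDim T = B.card := by
    unfold geomDim
    rw [← hspan, ← hB]
    refine finrank_span_finset_eq_card ?_
    rw [← hB] at hli
    exact hli
  have hK : ∀ c : Fin d → ℚ, ∃ K : Finset (Fin d), K.card ≤ 3 ∧
      (c ∈ B → ∀ k, k ∉ K → c k = 0) := by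
    intro c
    by_cases hc : c ∈ B
    · obtain ⟨q, w, hw, rfl⟩ := hbS (by rw [← hB]; exact mem_coe.2 hc)
      obtain ⟨K, h1, h2⟩ := h q
      refine ⟨K, h1, fun _ k hk => ?_⟩
      show ((w.sum k : ℤ) : ℚ) = 0
      rw [h2 w hw k hk, Int.cast_zero]
    · exact ⟨∅, by simp, fun h' => absurd h' hc⟩
  choose K hK1 hK2 using hK
  have hsub : (univ.filter fun k => MovedBy T k) ⊆ B.biUnion K := by
    intro k hk
    obtain ⟨p, w, hw, hne⟩ := (mem_filter.1 hk).2
    by_contra hcc
    rw [mem_biUnion] at hcc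
    push Not at hcc
    have h1 : Submodule.span ℚ {c : Fin d → ℚ | ∃ q w, Walk T q w q ∧ c = qv w.sum} ≤
        LinearMap.ker (LinearMap.proj (R := ℚ) (φ := fun _ : Fin d => ℚ) k) := by
      rw [← hspan, Submodule.span_le, ← hB]
      intro c hc
      have hc' : c ∈ B := mem_coe.1 hc
      exact hK2 c hc' k (hcc c hc')
    have h2 := h1 (Submodule.subset_span ⟨p, w, hw, rfl⟩)
    have h3 : ((w.sum k : ℤ) : ℚ) = 0 := h2
    exact hne (by exact_mod_cast h3)
  rw [hcard]
  calc kap T ≤ (B.biUnion K).card := card_le_card hsub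
    _ ≤ B.card * 3 := card_biUnion_le_card_mul _ _ _ fun c _ => hK1 c
    _ = 3 * B.card := Nat.mul_comm _ _

end Pool.Agent.EE3
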