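import Pool.Agent.EE3.Alt

/-!
# EE3 / Mu: a bounded linear functional for pointed components
-/

set_option autoImplicit false
set_option linter.unusedSectionVars false

namespace Pool.Agent.EE3

open Pool.Agent.EEF Pool.Agent.REV Pool.Agent.EE2 Finset

/-- some linear functional is positive on the non-zero effects of closed walks of the component -/
def PointAt {Q : Type} (T : VASS Q 3) (p₀ : Q) : Prop :=
  ∃ mu : Fin 3 → ℤ, ∀ r u, InS T p₀ r → Walk T r u r → u.sum ≠ 0 → 0 < ∑ k, mu k * u.sum k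

theorem FQ_pow (r : ℕ) : r ≤ 6 → ∀ N, FQ r N ≤ (8 * (N + 1)) ^ (2 ^ r - 1) := by
  induction r with
  | zero =>
    intro _ N
    exact le_rfl
  | succ r ih =>
    intro hr N
    have h1 := ih (by omega) (2 * (N + 1) ^ 2)
    have h2 : 8 * (2 * (N + 1) ^ 2 + 1) ≤ (8 * (N + 1)) ^ 2 := by
      have h0 : 1 ≤ (N + 1) ^ 2 := Nat.one_le_pow _ _ (Nat.succ_pos _)
      calc 8 * (2 * (N + 1) ^ 2 + 1) ≤ 64 * (N + 1) ^ 2 := by linarith
        _ = (8 * (N + 1)) ^ 2 := by ring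
    have h3 : FQ r (2 * (N + 1) ^ 2) ≤ ((8 * (N + 1)) ^ 2) ^ (2 ^ r - 1) :=
      h1.trans (Nat.pow_le_pow_left h2 _)
    have h4 : (r + 2) * (N + 1) ≤ 8 * (N + 1) := Nat.mul_le_mul_right _ (by omega)
    calc FQ (r + 1) N = (r + 2) * (N + 1) * FQ r (2 * (N + 1) ^ 2) := rfl
      _ ≤ 8 * (N + 1) * ((8 * (N + 1)) ^ 2) ^ (2 ^ r - 1) := Nat.mul_le_mul h4 h3
      _ = (8 * (N + 1)) ^ (2 ^ (r + 1) - 1) := by
        rw [← pow_mul, ← pow_succ']
        congr 1
        have : 1 ≤ 2 ^ r := Nat.one_le_two_pow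
        rw [pow_succ]
        omega

theorem FQ_six {n M : ℕ} (hn : 1 ≤ n) : FQ 6 (n * M + 1) ≤ (8 * n * (M + 1)) ^ 300 := by
  have h1 := FQ_pow 6 le_rfl (n * M + 1)
  set X := 8 * n * (M + 1) with hX
  have h2 : 8 * (n * M + 1 + 1) ≤ X ^ 2 := by
    have h3 : 8 * (n * M + 1 + 1) ≤ 2 * X := by
      rw [hX]
      nlinarith
    have h4 : 2 ≤ X := by
      rw [hX]
      nlinarith [Nat.zero_le (n * M)]
    nlinarith
  have h5 : 1 ≤ X := by
    rw [hX]
    nlinarith [Nat.zero_le (n * M)]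
  calc FQ 6 (n * M + 1) ≤ (8 * (n * M + 1 + 1)) ^ (2 ^ 6 - 1) := h1
    _ ≤ (X ^ 2) ^ (2 ^ 6 - 1) := Nat.pow_le_pow_left h2 _
    _ = X ^ 126 := by
      rw [← pow_mul]
      norm_num
    _ ≤ X ^ 300 := Nat.pow_le_pow_right h5 (by norm_num)

/-- the functional `∑ mu k * v k` -/
def zwgt (mu : Fin 3 → ℤ) : Vec 3 →+ ℤ where
  toFun v := ∑ k, mu k * v k
  map_zero' := by simp
  map_add' v w := by
    rw [← sum_add_distrib]
    exact sum_congr rfl fun k _ => by rw [Pi.add_apply]; ring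

theorem zwgt_apply (mu : Fin 3 → ℤ) (v : Vec 3) : zwgt mu v = ∑ k, mu k * v k := rfl

variable {Q : Type} {T : VASS Q 3}

/-- a bounded functional exists -/
theorem exists_mu [Fintype Q] {p₀ : Q} (hp : PointAt T p₀) :
    ∃ mu : Fin 3 → ℤ,
      (∀ k, |mu k| ≤ (((8 * Fintype.card Q * (maxNorm T + 1)) ^ 300 : ℕ) : ℤ)) ∧
      ∀ r u, InS T p₀ r → Walk T r u r → u.sum ≠ 0 → 0 < ∑ k, mu k * u.sum k := by
  classical
  have hn : 1 ≤ Fintype.card Q := Fintype.card_pos_iff.2 ⟨p₀⟩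
  obtain ⟨nu, hnu⟩ := hp
  set n := Fintype.card Q with hnn
  set M := maxNorm T with hMM
  set Γ := (eff_finite T p₀ n).toFinset.filter (fun g => g ≠ 0) with hΓ
  have hmem : ∀ g, g ∈ Γ ↔ g ∈ Eff T p₀ n ∧ g ≠ 0 := fun g => by
    rw [hΓ, mem_filter, Set.Finite.mem_toFinset]
  have hpos : ∀ g ∈ Γ, 0 < ∑ k, nu k * g k := by
    intro g hg
    obtain ⟨⟨r, u, h1, h2, -, rfl⟩, h0⟩ := (hmem g).1 hg
    exact hnu r u h1 h2 h0
  have habs : ∀ g ∈ Γ, ∀ k, |g k| ≤ ((n * M + 1 : ℕ) : ℤ) := by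
    intro g hg k
    refine (eff_abs ((hmem g).1 hg).1 k).trans ?_
    push_cast
    linarith
  rcases qfarkas 6 Γ (fun g j => ![g 0, g 1, g 2, -g 0, -g 1, -g 2] j) (fun _ => 1)
      (n * M + 1) (by
        intro g hg j
        have h := habs g hg
        fin_cases j
        · exact h 0
        · exact h 1
        · exact h 2
        · show |-(g 0)| ≤ _
          rw [abs_neg]
          exact h 0
        · show |-(g 1)| ≤ _
          rw [abs_neg]
          exact h 1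
        · show |-(g 2)| ≤ _
          rw [abs_neg]
          exact h 2) (by
        intro g hg
        rw [abs_one]
        push_cast
        have : (0 : ℤ) ≤ (n : ℤ) * M := by positivity
        linarith) with
    ⟨l, q, hq, -, hl, hl2⟩ | ⟨m, -, hm2, hm3⟩
  · have hF := FQ_six (n := n) (M := M) hn
    have hg1 : ∀ g ∈ Γ, 1 ≤ ∑ k, (![(l 0 : ℤ) - l 3, (l 1 : ℤ) - l 4, (l 2 : ℤ) - l 5] k) * g k := by
      intro g hg
      have h1 := hl2 g hg
      rw [Fin.sum_univ_six] at h1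
      rw [Fin.sum_univ_three]
      have h2 : (1 : ℤ) ≤ q := by exact_mod_cast hq
      have h3 : (q : ℤ) * 1 ≤ g 0 * l 0 + g 1 * l 1 + g 2 * l 2 + -g 0 * l 3 + -g 1 * l 4
        + -g 2 * l 5 := h1
      show (1 : ℤ) ≤ ((l 0 : ℤ) - l 3) * g 0 + ((l 1 : ℤ) - l 4) * g 1 + ((l 2 : ℤ) - l 5) * g 2
      linarith
    have hb : ∀ i j : Fin 6, |(l i : ℤ) - l j| ≤ (((8 * n * (M + 1)) ^ 300 : ℕ) : ℤ) := by
      intro i j
      have h1 : (l i : ℤ) ≤ (((8 * n * (M + 1)) ^ 300 : ℕ) : ℤ) := by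
        exact_mod_cast (hl i).trans hF
      have h2 : (l j : ℤ) ≤ (((8 * n * (M + 1)) ^ 300 : ℕ) : ℤ) := by
        exact_mod_cast (hl j).trans hF
      have h3 : (0 : ℤ) ≤ l i := Int.natCast_nonneg _
      have h4 : (0 : ℤ) ≤ l j := Int.natCast_nonneg _
      rw [abs_le]
      constructor <;> linarith
    set mu : Fin 3 → ℤ := ![(l 0 : ℤ) - l 3, (l 1 : ℤ) - l 4, (l 2 : ℤ) - l 5] with hmu
    refine ⟨mu, ?_, ?_⟩
    · intro k
      fin_cases k
      · exact hb 0 3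
      · exact hb 1 4
      · exact hb 2 5
    · intro r u hr hu hu0
      by_contra hc
      push Not at hc
      set K : ℤ := ∑ g ∈ Γ, |∑ k, nu k * g k| with hK
      have hK0 : 0 ≤ K := sum_nonneg fun g _ => abs_nonneg _
      have hKg : ∀ g ∈ Γ, ∑ k, nu k * g k ≤ K := fun g hg =>
        (le_abs_self _).trans
          (single_le_sum (f := fun g : Vec 3 => |∑ k, nu k * g k|) (fun g _ => abs_nonneg _) hg)
      have hf : ∀ v : Vec 3, zwgt (fun k => nu k - K * mu k) v =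
          (∑ k, nu k * v k) - K * ∑ k, mu k * v k := by
        intro v
        rw [zwgt_apply, mul_sum, ← sum_sub_distrib]
        exact sum_congr rfl fun k _ => by ring
      have h1 : 0 < zwgt (fun k => nu k - K * mu k) u.sum := by
        rw [hf]
        have h2 := hnu r u hr hu hu0
        have h3 : K * ∑ k, mu k * u.sum k ≤ 0 := mul_nonpos_of_nonneg_of_nonpos hK0 hc
        linarith
      have hw := walkIn_comp (S := univ.filter fun r => InS T p₀ r) (fun r => by simp) hu hr hr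
      obtain ⟨r', u', k1, k2, k3⟩ := short_pos _ _ le_rfl hw h1
      have k4 : InS T p₀ r' := (mem_filter.1 k1.start).2
      have k5 : u'.sum ≠ 0 := by
        intro h0
        rw [h0, map_zero] at k3
        exact lt_irrefl _ k3
      have k6 : u'.sum ∈ Γ := (hmem _).2 ⟨⟨r', u', k4, k1.walk, k2, rfl⟩, k5⟩
      rw [hf] at k3
      have k7 := hKg _ k6
      have k8 := hg1 _ k6
      have k9 : K * 1 ≤ K * ∑ k, mu k * u'.sum k := mul_le_mul_of_nonneg_left k8 hK0
      linarith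
  · exfalso
    have h0 : ∀ k : Fin 3, ∑ g ∈ Γ, (m g : ℤ) * g k = 0 := by
      intro k
      have key : ∀ (a b : Fin 6), (∀ g : Vec 3, ![g 0, g 1, g 2, -g 0, -g 1, -g 2] a = g k) →
          (∀ g : Vec 3, ![g 0, g 1, g 2, -g 0, -g 1, -g 2] b = -g k) →
          ∑ g ∈ Γ, (m g : ℤ) * g k = 0 := by
        intro a b ha hb
        have e1 := hm2 a
        have e2 := hm2 b
        simp only [ha] at e1
        simp only [hb, mul_neg, sum_neg_distrib] at e2
        linarith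
      fin_cases k
      · exact key 0 3 (fun g => rfl) (fun g => rfl)
      · exact key 1 4 (fun g => rfl) (fun g => rfl)
      · exact key 2 5 (fun g => rfl) (fun g => rfl)
    have h1 : ∑ g ∈ Γ, (m g : ℤ) * ∑ k, nu k * g k = 0 := by
      calc ∑ g ∈ Γ, (m g : ℤ) * ∑ k, nu k * g k
          = ∑ k, nu k * ∑ g ∈ Γ, (m g : ℤ) * g k := by
            simp_rw [mul_sum]
            rw [sum_comm]
            exact sum_congr rfl fun k _ => sum_congr rfl fun g _ => by ring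
        _ = 0 := sum_eq_zero fun k _ => by rw [h0 k, mul_zero]
    have h2 : ∑ g ∈ Γ, (m g : ℤ) * 1 ≤ ∑ g ∈ Γ, (m g : ℤ) * ∑ k, nu k * g k :=
      sum_le_sum fun g hg => mul_le_mul_of_nonneg_left (hpos g hg) (Int.natCast_nonneg _)
    linarith

end Pool.Agent.EE3
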