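import Pool.Agent.EE3.Scc3

/-!
# EE3 / Num3: sizes for VASS with three counters
-/

set_option autoImplicit false
set_option linter.unusedSectionVars false

namespace Pool.Agent.EE3

open Pool.Agent.EEF Pool.Agent.REV Pool.Agent.EE2 Finset

/-- the size for one component -/
def cOne (n g M : ℕ) : ℕ := cPM n 3 g M + cS3 n M

/-- size for the whole run -/
def cAll (n g M : ℕ) : ℕ := n * (cOne n g M + 2) + cPmp n M + n + 2

section

variable {n M N : ℕ}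

theorem nm_cI (hN : N = 8 * n * (M + 1)) (hn : 1 ≤ n) : cI n M + 1 ≤ N ^ 46 := by
  have h0 : 1 ≤ N ^ 45 := Nat.one_le_pow _ _ (by rw [hN]; positivity)
  have h1 : M + 1 ≤ N := by
    rw [hN]
    exact Nat.le_mul_of_pos_left _ (by omega)
  unfold cI cPmp
  rw [← hN]
  calc M * N ^ 45 + 1 + 1 ≤ (M + 1) * N ^ 45 + 1 := by linarith
    _ ≤ N * N ^ 45 := by
        have h2 : M + 2 ≤ N := by
          rw [hN]
          calc M + 2 ≤ 8 * 1 * (M + 1) := by omega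
            _ ≤ 8 * n * (M + 1) := Nat.mul_le_mul_right _ (Nat.mul_le_mul_left _ hn)
        calc (M + 1) * N ^ 45 + 1 ≤ (M + 1) * N ^ 45 + N ^ 45 := by omega
          _ = (M + 2) * N ^ 45 := by ring
          _ ≤ N * N ^ 45 := Nat.mul_le_mul_right _ h2
    _ = N ^ 46 := by ring

theorem nm_big (hN : N = 8 * n * (M + 1)) (hn : 1 ≤ n) :
    8 ≤ N ∧ 8 * n ≤ N ∧ 8 * (M + 1) ≤ N := by
  have hm1 : 1 ≤ M + 1 := by omega
  have h1 : 8 * n ≤ N := by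
    rw [hN]
    exact Nat.le_mul_of_pos_right _ (by omega)
  have h2 : 8 * (M + 1) ≤ N := by
    rw [hN]
    calc 8 * (M + 1) = 8 * 1 * (M + 1) := by ring
      _ ≤ 8 * n * (M + 1) := Nat.mul_le_mul_right _ (Nat.mul_le_mul_left _ hn)
  exact ⟨by omega, h1, h2⟩

theorem nm_cH (hN : N = 8 * n * (M + 1)) (hn : 1 ≤ n) : cH n M + M + 1 ≤ N ^ 48 := by
  obtain ⟨h8, h1, h2⟩ := nm_big hN hn
  have h3 := nm_cI hN hn
  obtain ⟨c, hc⟩ : ∃ c, c = cI n M + 1 := ⟨_, rfl⟩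
  have e : cH n M = (c - 1) + M * (n * c + 1) + 1 := by
    unfold cH
    rw [hc]
    rfl
  rw [← hc] at h3
  have hc1 : 1 ≤ c := by omega
  have h46 : 1 ≤ N ^ 46 := Nat.one_le_pow _ _ (by omega)
  have h47 : N ^ 47 = N * N ^ 46 := by ring
  have h48 : N ^ 48 = N * N ^ 47 := by ring
  have h4 : n * c + 1 ≤ N ^ 47 := by
    rw [h47]
    calc n * c + 1 ≤ n * N ^ 46 + N ^ 46 := Nat.add_le_add (Nat.mul_le_mul_left _ h3) h46
      _ = (n + 1) * N ^ 46 := by ring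
      _ ≤ N * N ^ 46 := Nat.mul_le_mul_right _ (by omega)
  have h5 : N ^ 46 ≤ N ^ 47 := by
    rw [h47]
    exact Nat.le_mul_of_pos_left _ (by omega)
  have h6 : M + 1 ≤ N ^ 47 := by
    calc M + 1 ≤ N * 1 := by omega
      _ ≤ N * N ^ 46 := Nat.mul_le_mul_left _ h46
      _ = N ^ 47 := h47.symm
  rw [e]
  calc c - 1 + M * (n * c + 1) + 1 + M + 1 ≤ c + M * (n * c + 1) + (M + 1) := by omega
    _ ≤ N ^ 47 + M * N ^ 47 + N ^ 47 :=
        Nat.add_le_add (Nat.add_le_add (h3.trans h5) (Nat.mul_le_mul_left _ h4)) h6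
    _ = (M + 2) * N ^ 47 := by ring
    _ ≤ N * N ^ 47 := Nat.mul_le_mul_right _ (by omega)
    _ = N ^ 48 := h48.symm

theorem nm_tot (hN : N = 8 * n * (M + 1)) (hn : 1 ≤ n) {b k : ℕ} (hb : b + 1 ≤ N ^ k) :
    cTot (n * (b + 1)) 3 M + 1 ≤ N ^ ((k + 1) * 79) := by
  refine (cTot_pow (d := 3) (M := M) (n := n * (b + 1)) (Nat.mul_pos hn (by omega))).trans ?_
  rw [pow_mul]
  refine Nat.pow_le_pow_left ?_ 79
  calc 2 * (n * (b + 1)) * (3 + 1) * (M + 1) = (8 * n * (M + 1)) * (b + 1) := by ring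
    _ = N * (b + 1) := by rw [hN]
    _ ≤ N * N ^ k := Nat.mul_le_mul_left _ hb
    _ = N ^ (k + 1) := by ring

theorem nm_cS (hN : N = 8 * n * (M + 1)) (hn : 1 ≤ n) : cS3 n M ≤ N ^ 4018 := by
  obtain ⟨h8, h1, h2⟩ := nm_big hN hn
  have hN1 : 1 ≤ N := by omega
  have hI := nm_cI hN hn
  have hH := nm_cH hN hn
  have t1 : cTot (n * (cH n M + 1)) 3 M + 1 ≤ N ^ 3871 := nm_tot hN hn (k := 48) (by omega)
  have t2 : cTot (n * (cI n M + 1)) 3 M + 1 ≤ N ^ 3713 := nm_tot hN hn (k := 46) hI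
  have hE : cEdge n (cH n M) M ≤ N ^ 4017 := by
    unfold cEdge
    have a1 : (cH n M + M) ^ 3 ≤ N ^ 144 := by
      calc (cH n M + M) ^ 3 ≤ (N ^ 48) ^ 3 := Nat.pow_le_pow_left (by omega) 3
        _ = N ^ 144 := by rw [← pow_mul]
    have a2 : n * (cH n M + M) ^ 3 + 1 ≤ N ^ 145 := by
      have : 1 ≤ N ^ 144 := Nat.one_le_pow _ _ hN1
      calc n * (cH n M + M) ^ 3 + 1 ≤ n * N ^ 144 + N ^ 144 :=
            Nat.add_le_add (Nat.mul_le_mul_left _ a1) this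
        _ = (n + 1) * N ^ 144 := by ring
        _ ≤ N * N ^ 144 := Nat.mul_le_mul_right _ (by omega)
        _ = N ^ 145 := by ring
    have a3 : cTot (n * (cH n M + 1)) 3 M + 4 ≤ N ^ 3872 := by
      have : 1 ≤ N ^ 3871 := Nat.one_le_pow _ _ hN1
      calc cTot (n * (cH n M + 1)) 3 M + 4 ≤ 4 * N ^ 3871 := by omega
        _ ≤ N * N ^ 3871 := Nat.mul_le_mul_right _ (by omega)
        _ = N ^ 3872 := by rw [← pow_succ']
    calc (n * (cH n M + M) ^ 3 + 1) * (cTot (n * (cH n M + 1)) 3 M + 4)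
        ≤ N ^ 145 * N ^ 3872 := Nat.mul_le_mul a2 a3
      _ = N ^ 4017 := by rw [← pow_add]
  have hn47 : n * (cI n M + 1) ≤ N ^ 47 := by
    calc n * (cI n M + 1) ≤ N * N ^ 46 := Nat.mul_le_mul (by omega) hI
      _ = N ^ 47 := by ring
  have p1 : N ^ 3713 ≤ N ^ 4017 := Nat.pow_le_pow_right hN1 (by norm_num)
  have p2 : N ^ 47 ≤ N ^ 4017 := Nat.pow_le_pow_right hN1 (by norm_num)
  have p3 : 1 ≤ N ^ 4017 := Nat.one_le_pow _ _ hN1
  unfold cS3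
  calc cEdge n (cH n M) M + cTot (n * (cI n M + 1)) 3 M + n * (cI n M + 1) + 4
      ≤ 7 * N ^ 4017 := by omega
    _ ≤ N * N ^ 4017 := Nat.mul_le_mul_right _ (by omega)
    _ = N ^ 4018 := by rw [← pow_succ']

theorem nm_cPM (hN : N = 8 * n * (M + 1)) (hn : 1 ≤ n) {g : ℕ} (hg : g ≤ 3) :
    cPM n 3 g M + 1 ≤ N ^ 79 := by
  have h1 := cTot_pow (d := 3) (M := M) hn
  have h2 := num_cyc (d := 3) (M := M) hn hg
  have e : 2 * n * (3 + 1) * (M + 1) = N := by rw [hN]; ring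
  rw [e] at h1 h2
  have hN1 : 1 ≤ N := by
    have := (nm_big hN hn).1
    omega
  unfold cPM
  rcases le_total (cTot n 3 M) (cCyc n 3 g M) with h | h
  · rw [max_eq_right h]
    exact h2.trans (Nat.pow_le_pow_right hN1 (by norm_num))
  · rw [max_eq_left h]
    exact h1

theorem nm_all (hN : N = 8 * n * (M + 1)) (hn : 1 ≤ n) {g : ℕ} (hg : g ≤ 3) :
    cAll n g M + 1 ≤ N ^ 4021 := by
  obtain ⟨h8, h1, h2⟩ := nm_big hN hn
  have hN1 : 1 ≤ N := by omega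
  have a1 := nm_cPM hN hn hg
  have a2 := nm_cS hN hn
  have p1 : N ^ 79 ≤ N ^ 4018 := Nat.pow_le_pow_right hN1 (by norm_num)
  have p3 : 1 ≤ N ^ 4018 := Nat.one_le_pow _ _ hN1
  have b1 : cOne n g M + 2 ≤ N ^ 4019 := by
    unfold cOne
    calc cPM n 3 g M + cS3 n M + 2 ≤ 3 * N ^ 4018 := by omega
      _ ≤ N * N ^ 4018 := Nat.mul_le_mul_right _ (by omega)
      _ = N ^ 4019 := by rw [← pow_succ']
  have b2 : n * (cOne n g M + 2) ≤ N ^ 4020 := by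
    calc n * (cOne n g M + 2) ≤ N * N ^ 4019 := Nat.mul_le_mul (by omega) b1
      _ = N ^ 4020 := by rw [← pow_succ']
  have b3 : cPmp n M ≤ N ^ 4020 := by
    unfold cPmp
    rw [← hN]
    exact Nat.pow_le_pow_right hN1 (by norm_num)
  have b4 : N ≤ N ^ 4020 := Nat.le_self_pow (by norm_num) _
  unfold cAll
  calc n * (cOne n g M + 2) + cPmp n M + n + 2 + 1 ≤ 3 * N ^ 4020 := by omega
    _ ≤ N * N ^ 4020 := Nat.mul_le_mul_right _ (by omega)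
    _ = N ^ 4021 := by rw [← pow_succ']

end

theorem num3 {n g M s : ℕ} (hn : 1 ≤ n) (hg : g ≤ 3) (hs : s ≤ cAll n g M) :
    45 * (s + 1) ^ 4 * (3 + 1) ^ 3 * (M + 1) ^ 2 ≤ (8 * n * (M + 1)) ^ 17000 := by
  obtain ⟨N, hN⟩ : ∃ N, N = 8 * n * (M + 1) := ⟨_, rfl⟩
  rw [← hN]
  obtain ⟨h8, h1, h2⟩ := nm_big hN hn
  have hN1 : 1 ≤ N := by omega
  have h3 : s + 1 ≤ N ^ 4021 := (Nat.succ_le_succ hs).trans (nm_all hN hn hg)
  have h4 : 45 * 4 ^ 3 ≤ N ^ 4 := by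
    calc 45 * 4 ^ 3 ≤ 8 ^ 4 := by norm_num
      _ ≤ N ^ 4 := Nat.pow_le_pow_left h8 4
  calc 45 * (s + 1) ^ 4 * (3 + 1) ^ 3 * (M + 1) ^ 2
      = (45 * 4 ^ 3) * (s + 1) ^ 4 * (M + 1) ^ 2 := by ring
    _ ≤ N ^ 4 * (N ^ 4021) ^ 4 * N ^ 2 := by
        refine Nat.mul_le_mul (Nat.mul_le_mul h4 (Nat.pow_le_pow_left h3 4))
          (Nat.pow_le_pow_left (by omega) 2)
    _ = N ^ 16090 := by rw [← pow_mul, ← pow_add, ← pow_add]
    _ ≤ N ^ 17000 := Nat.pow_le_pow_right hN1 (by norm_num)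

end Pool.Agent.EE3
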