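import Pool.Agent.EE3.Class3
import Pool.Agent.EE3.Costly

/-!
# EE3 / Part3q: one component of a VASS with three counters, all counters at most `H`
-/

set_option autoImplicit false
set_option linter.unusedSectionVars false

namespace Pool.Agent.EE3

open Pool.Agent.EEF Pool.Agent.REV Pool.Agent.EE2 Finset

/-- length factor for one component, all three counters at most `H` -/
def cQ1 (n M : ℕ) : ℕ := (8 * n * (M + 1)) ^ 68000

variable {Q : Type} {T : VASS Q 3}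

theorem pw_ok {d : ℕ} {T : VASS Q d} {P : Q → Vec d → Prop} (hP : ∀ r y, P r y → 0 ≤ y) {p q : Q}
    {x : Vec d} {w : List (Vec d)} (h : PW T P p x w q) : Ok x w := by
  induction h with
  | nil _ => trivial
  | cons _ _ h2 ih => exact ⟨hP _ _ h2.start, ih⟩

theorem exists_zv {d : ℕ} {x : Vec d} (hx : 0 ≤ x) : ∃ x₀ : Fin d → ℕ, zv x₀ = x :=
  ⟨fun k => (x k).toNat, funext fun k => Int.toNat_of_nonneg (hx k)⟩

/-- productive components: linear in the norm of the last configuration -/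
theorem prod_partq [Fintype Q] {p p' : Q} (hp : ProdAt T p) {x : Vec 3} {w : List (Vec 3)}
    {H : ℕ} (hH : 1 ≤ H) (hx : 0 ≤ x) (hok : Ok x w) (hw : Walk T p w p') (hp' : Reach T p' p)
    (hend : 0 ≤ x + w.sum ∧ ∀ k, (x + w.sum) k ≤ H) :
    ∃ w', Walk T p w' p' ∧ Ok x w' ∧ w.sum ≤ w'.sum ∧
      w'.length ≤ H * cQ1 (Fintype.card Q) (maxNorm T) := by
  have hn : 1 ≤ Fintype.card Q := Fintype.card_pos_iff.2 ⟨p⟩
  have hg : geomDim T ≤ 3 := by
    refine (Submodule.finrank_le _).trans ?_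
    rw [Module.finrank_fintype_fun_eq_card, Fintype.card_fin]
  have key : RlzC T p x (x + w.sum) p' (cAll (Fintype.card Q) (geomDim T) (maxNorm T)) := by
    have hle : cS3 (Fintype.card Q) (maxNorm T) +
        (cPmp (Fintype.card Q) (maxNorm T) + Fintype.card Q + 2) ≤
        cAll (Fintype.card Q) (geomDim T) (maxNorm T) := by
      obtain ⟨c, hc⟩ : ∃ c, c = cS3 (Fintype.card Q) (maxNorm T) := ⟨_, rfl⟩
      obtain ⟨e, he⟩ : ∃ e, e = cPM (Fintype.card Q) 3 (geomDim T) (maxNorm T) := ⟨_, rfl⟩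
      unfold cAll cOne
      rw [← hc, ← he]
      have : c ≤ Fintype.card Q * (e + c + 2) := by
        calc c ≤ 1 * (e + c + 2) := by omega
          _ ≤ Fintype.card Q * (e + c + 2) := Nat.mul_le_mul_right _ hn
      omega
    rcases scc3 (prodAt_mov hp) (pw_comp hw hx hok ⟨[], .nil _⟩ hp') with h3 | ⟨r, z, h3, h4, h5⟩
    · exact (rlz_toC h3).mono (by omega)
    · have h6 := pump3 (prodAt_conj h3 hp) (h3.2.trans ⟨_, hw⟩) h5 (x + w.sum)
      exact ((rlz_toC h4).append h6).mono hle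
  obtain ⟨x₀, rfl⟩ := exists_zv hx
  obtain ⟨y₀, hy₀⟩ := exists_zv hend.1
  rw [← hy₀] at key
  obtain ⟨w', y'', h4, h5, h6⟩ := rlzC_run key
  obtain ⟨a1, a2, a3⟩ := run_iff.1 h4
  refine ⟨w', a1, a2, ?_, h6.trans ?_⟩
  · intro k
    have e1 : (y₀ k : ℤ) ≤ y'' k := by exact_mod_cast h5 k
    have e2 : (y₀ k : ℤ) = (zv x₀ + w.sum) k := congrFun hy₀ k
    have e3 : (y'' k : ℤ) = (zv x₀ + w'.sum) k := congrFun a3 k
    rw [Pi.add_apply] at e2 e3
    linarith
  · have hY : max 1 (supN y₀) ≤ H := by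
      refine max_le hH (Finset.sup_le fun k _ => ?_)
      have e2 : (y₀ k : ℤ) = (zv x₀ + w.sum) k := congrFun hy₀ k
      have e4 := hend.2 k
      rw [← e2] at e4
      exact_mod_cast e4
    refine Nat.mul_le_mul hY ?_
    unfold cQ1
    have hN1 : 0 < (8 * Fintype.card Q * (maxNorm T + 1)) ^ 17000 := by positivity
    calc (45 * (cAll (Fintype.card Q) (geomDim T) (maxNorm T) + 1) ^ 4 * (3 + 1) ^ 3 *
          (maxNorm T + 1) ^ 2) ^ (geomDim T + 1)
        ≤ ((8 * Fintype.card Q * (maxNorm T + 1)) ^ 17000) ^ (geomDim T + 1) :=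
          Nat.pow_le_pow_left (num3 hn hg le_rfl) _
      _ ≤ ((8 * Fintype.card Q * (maxNorm T + 1)) ^ 17000) ^ 4 :=
          Nat.pow_le_pow_right hN1 (by omega)
      _ = (8 * Fintype.card Q * (maxNorm T + 1)) ^ 68000 := by rw [← pow_mul]

/-- one component -/
theorem part3q [Fintype Q] {p p' : Q} {x : Vec 3} {w : List (Vec 3)}
    {H : ℕ} (hH : 1 ≤ H) (hp' : Reach T p' p)
    (h : PW T (fun _ y => 0 ≤ y ∧ ∀ k, y k ≤ H) p x w p') :
    ∃ w', Walk T p w' p' ∧ Ok x w' ∧ w.sum ≤ w'.sum ∧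
      w'.length ≤ H ^ 2 * cQ1 (Fintype.card Q) (maxNorm T) := by
  have hok : Ok x w := pw_ok (fun _ _ h => h.1) h
  rcases alt3 (T := T) p with h1 | ⟨lam, h1, h2, h3⟩
  · obtain ⟨θ, h2, h3, -⟩ := h1 p (inS_refl T p)
    obtain ⟨w', h4, h5, h6, h7⟩ := prod_partq ⟨θ, h2, h3⟩ hH h.start.1 hok h.walk hp' h.stop
    refine ⟨w', h4, h5, h6, h7.trans (Nat.mul_le_mul_right _ ?_)⟩
    exact Nat.le_self_pow (by norm_num) _
  · have hin : PW T (fun r y => InS T p r ∧ 0 ≤ y ∧ ∀ k, y k ≤ H) p x w p' := by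
      have key : ∀ {q q' : Q} {x : Vec 3} {w : List (Vec 3)},
          PW T (fun _ y => 0 ≤ y ∧ ∀ k, y k ≤ H) q x w q' → Reach T p q → Reach T q' p →
          PW T (fun r y => InS T p r ∧ 0 ≤ y ∧ ∀ k, y k ≤ H) q x w q' := by
        intro q q' x w h
        induction h with
        | nil h => exact fun a b => .nil ⟨⟨a, b⟩, h⟩
        | @cons q₁ q₂ q₃ v x w h0 h1 h2 ih =>
          intro a b
          refine .cons ⟨⟨a, Reach.trans ⟨_, .cons h1 h2.walk⟩ b⟩, h0⟩ h1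
            (ih (a.trans ⟨[v], .cons h1 (.nil _)⟩) b)
      exact key h ⟨[], .nil _⟩ hp'
    obtain ⟨w', h4, h5, h6, h7⟩ := costly3 h1 h2 h3 hH hin
    refine ⟨w', h4, h5, h6, h7.trans (Nat.mul_le_mul_left _ ?_)⟩
    have hn : 1 ≤ Fintype.card Q := Fintype.card_pos_iff.2 ⟨p⟩
    unfold cCo cQ1
    exact Nat.pow_le_pow_right (by positivity) (by norm_num)

end Pool.Agent.EE3
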