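import Pool.Agent.EE3.Defs

/-!
# EE3 / Perm: if only one counter is small, it stays small or all counters can be made large
-/

set_option autoImplicit false
set_option linter.unusedSectionVars false

namespace Pool.Agent.EE3

open Pool.Agent.EEF Pool.Agent.REV Pool.Agent.EE2 Finset

variable {Q : Type} {T : VASS Q 3}

theorem perm3 [Fintype Q] {p₀ : Q} (B : ℕ) {k : Fin 3} {p q : Q} {x : Vec 3}
    {w : List (Vec 3)} (h : PW T (fun r y => InS T p₀ r ∧ 0 ≤ y) p x w q) (hk : x k ≤ B)
    (hj : ∀ j, j ≠ k →
      ((B + maxNorm T * (Fintype.card Q * (B + 1) + 1) : ℕ) : ℤ) ≤ x j) :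
    PW T (fun r y => InS T p₀ r ∧ 0 ≤ y ∧ y k ≤ B) p x w q ∨
    ∃ r z, InS T p₀ r ∧ Walk T p z r ∧ Ok x z ∧ (∀ j, (B : ℤ) ≤ (x + z.sum) j) ∧
      z.length ≤ Fintype.card Q * (B + 1) + 1 := by
  classical
  rcases h.firstBad (fun _ y => y k ≤ B) with h1 | ⟨u₁, u₂, r, rfl, h2, h3, -, h4⟩
  · exact Or.inl (h1.mono fun r y hy => ⟨hy.1.1, hy.1.2, hy.2⟩)
  · right
    rcases h4 with ⟨rfl, rfl⟩ | ⟨u₀, v, r₀, rfl, h5, h6⟩
    · exact absurd (by simpa using hk) h3
    · set P₁ : Q → Vec 3 → Prop := fun r y => InS T p₀ r ∧ 0 ≤ y k ∧ y k ≤ B with hP₁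
      have h7 : PW T P₁ p x u₀ r₀ := h5.mono fun r y hy => ⟨hy.1.1, hy.1.2 k, hy.2⟩
      have hinv : Inv P₁ {k} := by
        intro r y y' hy h
        have e := hy k rfl
        exact ⟨h.1, by rw [← e]; exact h.2.1, by rw [← e]; exact h.2.2⟩
      obtain ⟨w', h8, h9, h10⟩ := PW.shorten (E := {k}) hinv
        ((univ : Finset Q) ×ˢ range (B + 1)) (fun r y => (r, (y k).toNat))
        (by
          intro r y hy
          rw [mem_product, mem_range]
          refine ⟨mem_univ _, ?_⟩
          have := hy.2.2
          have := hy.2.1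
          simp only
          omega)
        (by
          intro r₁ r₂ a₁ a₂ _ _ hp1 hp2 he
          simp only [Prod.mk.injEq] at he
          refine ⟨he.1, fun j hj => ?_⟩
          rw [Set.mem_singleton_iff.1 hj]
          have e1 := hp1.2.1
          have e2 := hp2.2.1
          have e3 := he.2
          simp only [Pi.add_apply] at e1 e2 e3
          omega)
        _ le_rfl h7
      rw [card_product, card_univ, card_range] at h10
      have a1 : PW T (NP T p₀ {k}) p x w' r₀ := h8.mono fun r y hy =>
        ⟨hy.1, fun j hj => by rw [Set.mem_singleton_iff.1 hj]; exact hy.2.1⟩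
      have a2 : NP T p₀ {k} r (x + w'.sum + v) := by
        refine ⟨h2.1, fun j hj => ?_⟩
        rw [Set.mem_singleton_iff.1 hj]
        have e1 := h2.2 k
        rw [List.sum_append, List.sum_singleton] at e1
        simp only [Pi.add_apply, Pi.zero_apply] at e1 ⊢
        have e2 := h9 k rfl
        linarith
      have h11 : PW T (NP T p₀ {k}) p x (w' ++ [v]) r := a1.append (.cons a1.stop h6 (.nil a2))
      have hlen : (w' ++ [v]).length ≤ Fintype.card Q * (B + 1) + 1 := by
        rw [List.length_append, List.length_singleton]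
        omega
      obtain ⟨h12, h13⟩ := h11.exec (M := maxNorm T) (fun p v q hpq k => abs_le_maxNorm hpq k)
        (D := B) (Int.natCast_nonneg _) (fun j hjk => by
          refine le_trans ?_ (hj j hjk)
          push_cast
          have e1 : ((w' ++ [v]).length : ℤ) ≤ Fintype.card Q * (B + 1) + 1 := by
            exact_mod_cast hlen
          have e2 := mul_le_mul_of_nonneg_left e1 (Int.natCast_nonneg (maxNorm T))
          linarith)
      refine ⟨r, w' ++ [v], h2.1, h12.walk,
        scc2_ok (fun r y hy j => hy.2 j (Set.mem_univ _)) h12, fun j => ?_, hlen⟩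
      by_cases hjk : j = k
      · subst hjk
        push Not at h3
        rw [List.sum_append, List.sum_singleton] at h3 ⊢
        simp only [Pi.add_apply] at h3 ⊢
        have e2 := h9 j rfl
        linarith
      · exact h13 j (by simpa using hjk)

end Pool.Agent.EE3
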