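import Mathlib

/-!
# EE3 / Pot1: the potential argument for loops on one line
-/

set_option autoImplicit false
set_option linter.unusedSectionVars false

namespace Pool.Agent.EE3

open Finset

/-- the segment after a big loop, before the next low checkpoint -/
theorem pot1_seg {d : ℕ} {N A G E : ℕ} {u f y : ℕ → Fin d → ℤ} {a : ℕ → ℕ}
    (hy : ∀ i < N, ∀ c, y (i + 1) c = y i c + f i c + a i * u i c)
    (hu : ∀ i < N, ∀ c, |u i c| ≤ A) (hf : ∀ i < N, ∀ c, |f i c| ≤ A)
    (hz : ∀ i < N, ∀ c, 0 ≤ y i c + f i c)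
    (hline : ∀ i < N, ∀ j < N, ∀ k l, u i k * u j l = u i l * u j k)
    (H1 : ∀ i < N, A ≤ a i → ∃ c, 0 < u i c ∧ ((∃ l, i < l ∧ l ≤ N ∧ y l c < G) ∨ y N c < E))
    (H3 : ∀ i j c, i < j → j < N → A ≤ a i → A ≤ a j → u i c * u j c < 0 →
      ∃ l c', i < l ∧ l ≤ j ∧ 0 < u i c' ∧ y l c' < G)
    {i : ℕ} (hi : A ≤ a i) {c : Fin d} (hc : 0 < u i c) :
    ∀ l, i < l → l ≤ N → (∀ l', i < l' → l' < l → ∀ c', 0 < u i c' → (G : ℤ) ≤ y l' c') →
      ∑ j ∈ Ico i l, (a j : ℤ) ≤ y l c + (2 * A + A ^ 2) * ((l : ℤ) - i) := by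
  intro l hil
  induction l, hil using Nat.le_induction with
  | base =>
    intro hl _
    have hiN : i < N := by omega
    have h1 := hy i hiN c
    have h2 := hz i hiN c
    have h3 : (a i : ℤ) * 1 ≤ a i * u i c :=
      mul_le_mul_of_nonneg_left (by omega) (Int.natCast_nonneg _)
    have h4 : (0 : ℤ) ≤ 2 * A + A ^ 2 := by positivity
    show ∑ j ∈ Ico i (i + 1), (a j : ℤ) ≤
      y (i + 1) c + (2 * A + A ^ 2) * (((i + 1 : ℕ) : ℤ) - i)
    rw [Nat.Ico_succ_singleton, sum_singleton]
    push_cast
    nlinarith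
  | succ l hil ih =>
    intro hl hno
    have hil' : i < l := hil
    have hlN : l < N := by omega
    have h1 := ih (by omega) fun l' h1 h2 => hno l' h1 (by omega)
    have h2 := hy l hlN c
    have h3 := (abs_le.1 (hf l hlN c)).1
    have h4 : (a l : ℤ) - A - A ^ 2 ≤ a l * u l c := by
      by_cases hal : A ≤ a l
      · obtain ⟨c', hc', -⟩ := H1 l hlN hal
        have h5 := hline i (by omega) l hlN c c'
        have h6 : 0 < u i c * u l c' := mul_pos hc hc'
        have h7 : 0 < u l c := by
          rcases lt_trichotomy (u l c) 0 with h7 | h7 | h7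
          · exfalso
            obtain ⟨l', c'', g1, g2, g3, g4⟩ := H3 i l c hil' hlN hi hal
              (mul_neg_of_pos_of_neg hc h7)
            rcases Nat.lt_or_ge l' l with g5 | g5
            · exact absurd g4 (not_lt.2 (hno l' g1 (by omega) c'' g3))
            · exact absurd g4 (not_lt.2 (hno l' g1 (by omega) c'' g3))
          · exfalso
            rw [h5, h7, mul_zero] at h6
            exact lt_irrefl _ h6
          · exact h7
        have h8 : (a l : ℤ) * 1 ≤ a l * u l c :=
          mul_le_mul_of_nonneg_left (by omega) (Int.natCast_nonneg _)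
        have h9 : (0 : ℤ) ≤ A + A ^ 2 := by positivity
        linarith
      · have h5 : (a l : ℤ) ≤ A := by exact_mod_cast (not_le.1 hal).le
        have h6 := (abs_le.1 (hu l hlN c)).1
        have h7 : (a l : ℤ) * (-A) ≤ a l * u l c :=
          mul_le_mul_of_nonneg_left h6 (Int.natCast_nonneg _)
        have h8 : (a l : ℤ) * A ≤ A * A :=
          mul_le_mul_of_nonneg_right h5 (Int.natCast_nonneg _)
        nlinarith
    rw [Finset.sum_Ico_succ_top (by omega)]
    push_cast
    nlinarith

theorem pot1 {d : ℕ} (N A G E : ℕ) (u f y : ℕ → Fin d → ℤ) (a : ℕ → ℕ)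
    (hy : ∀ i < N, ∀ c, y (i + 1) c = y i c + f i c + a i * u i c)
    (hu : ∀ i < N, ∀ c, |u i c| ≤ A) (hf : ∀ i < N, ∀ c, |f i c| ≤ A)
    (hz : ∀ i < N, ∀ c, 0 ≤ y i c + f i c)
    (hline : ∀ i < N, ∀ j < N, ∀ k l, u i k * u j l = u i l * u j k)
    (H1 : ∀ i < N, A ≤ a i → ∃ c, 0 < u i c ∧ ((∃ l, i < l ∧ l ≤ N ∧ y l c < G) ∨ y N c < E))
    (H3 : ∀ i j c, i < j → j < N → A ≤ a i → A ≤ a j → u i c * u j c < 0 →
      ∃ l c', i < l ∧ l ≤ j ∧ 0 < u i c' ∧ y l c' < G) :
    ∑ i ∈ range N, a i ≤ (G + A ^ 2 + 2 * A) * N + E := by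
  have key : ∀ m, ∀ i, i + m = N →
      ∑ j ∈ Ico i N, (a j : ℤ) ≤ (G + A ^ 2 + 2 * A) * m + E := by
    intro m
    induction m using Nat.strong_induction_on with
    | _ m ih =>
      intro i him
      have hC0 : (0 : ℤ) ≤ (G : ℤ) + A ^ 2 + 2 * A := by positivity
      rcases Nat.eq_zero_or_pos m with hm | hm
      · subst hm
        have : i = N := by omega
        subst this
        rw [Ico_self, sum_empty]
        positivity
      · have hiN : i < N := by omega
        by_cases hai : A ≤ a i
        · by_cases hlow : ∃ l, i < l ∧ l ≤ N ∧ ∃ c, 0 < u i c ∧ y l c < G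
          · obtain ⟨g1, g2, c, hc, g3⟩ := Nat.find_spec hlow
            have g4 : ∀ l', i < l' → l' < Nat.find hlow → ∀ c', 0 < u i c' →
                (G : ℤ) ≤ y l' c' := by
              intro l' h1 h2 c' h3
              by_contra h4
              exact Nat.find_min hlow h2 ⟨h1, by omega, c', h3, not_le.1 h4⟩
            obtain ⟨l, hl⟩ : ∃ l, l = Nat.find hlow := ⟨_, rfl⟩
            rw [← hl] at g1 g2 g3 g4
            have h1 := pot1_seg hy hu hf hz hline H1 H3 hai hc l g1 g2 g4
            have h2 := ih (N - l) (by omega) l (by omega)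
            rw [← Finset.sum_Ico_consecutive _ g1.le g2]
            have h3 : ((N - l : ℕ) : ℤ) = N - l := by
              rw [Nat.cast_sub g2]
            have h4 : (N : ℤ) = i + m := by exact_mod_cast him.symm
            rw [h3] at h2
            have h5 : (1 : ℤ) ≤ (l : ℤ) - i := by
              have : (i : ℤ) + 1 ≤ l := by exact_mod_cast g1
              linarith
            have h6 : (G : ℤ) * 1 ≤ G * ((l : ℤ) - i) :=
              mul_le_mul_of_nonneg_left h5 (Int.natCast_nonneg _)
            nlinarith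
          · obtain ⟨c, hc, h1⟩ := H1 i hiN hai
            have h2 : y N c < E := by
              rcases h1 with ⟨l, h3, h4, h5⟩ | h1
              · exact absurd ⟨l, h3, h4, c, hc, h5⟩ hlow
              · exact h1
            have h3 := pot1_seg hy hu hf hz hline H1 H3 hai hc N hiN le_rfl
              (fun l' g1 g2 c' g3 => by
                by_contra g4
                exact hlow ⟨l', g1, g2.le, c', g3, not_le.1 g4⟩)
            have h4 : (N : ℤ) = i + m := by exact_mod_cast him.symm
            have h5 : (0 : ℤ) ≤ (G : ℤ) * m := by positivity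
            nlinarith
        · have h1 := ih (m - 1) (by omega) (i + 1) (by omega)
          rw [Finset.sum_eq_sum_Ico_succ_bot hiN]
          have h2 : ((m - 1 : ℕ) : ℤ) = m - 1 := by
            rw [Nat.cast_sub hm]
            simp
          rw [h2] at h1
          have h3 : (a i : ℤ) ≤ A := by exact_mod_cast (not_le.1 hai).le
          have h4 : (0 : ℤ) ≤ (G : ℤ) + A ^ 2 + A := by positivity
          nlinarith
  have h1 := key N 0 (by omega)
  rw [Nat.Ico_zero_eq_range] at h1
  exact_mod_cast h1

end Pool.Agent.EE3
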