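import Mathlib

/-!
# EE3 / Pot2: the potential argument for two counters
-/

set_option autoImplicit false

namespace Pool.Agent.EE3

open Finset

theorem pot_sum2 {c c' : Fin 2} (h : c ≠ c') (g : Fin 2 → ℚ) : ∑ d, g d = g c + g c' := by
  rw [Fin.sum_univ_two]
  fin_cases c <;> fin_cases c'
  · exact absurd rfl h
  · rfl
  · exact add_comm _ _
  · exact absurd rfl h

/-- The low counters get weight `0`. -/
theorem pot_zero {W : Fin 2 → ℚ} {B : ℚ} {G : ℕ} {v : Fin 2 → ℤ} (h0 : ∀ c, 0 ≤ W c)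
    (hB : ∀ c, W c ≤ B) (hv : ∀ c, 0 ≤ v c) :
    ∑ c, W c * v c ≤ ∑ c, (if v c < G then 0 else W c) * v c + 2 * B * G := by
  have h : ∀ c, W c * v c ≤ (if v c < G then 0 else W c) * v c + B * G := by
    intro c
    have hB0 : 0 ≤ B := le_trans (h0 c) (hB c)
    split_ifs with h1
    · rw [zero_mul, zero_add]
      have h2 : (v c : ℚ) ≤ G := by exact_mod_cast h1.le
      exact mul_le_mul (hB c) h2 (by exact_mod_cast hv c) hB0
    · have h2 : 0 ≤ B * (G : ℚ) := by positivity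
      linarith
  have h3 := h 0
  have h4 := h 1
  rw [Fin.sum_univ_two, Fin.sum_univ_two]
  linarith

/-- Condition (b): a weight larger than `1` comes from a loop after which the counter is high. -/
def PB (A G : ℕ) (B : ℚ) (u f y : ℕ → Fin 2 → ℤ) (a : ℕ → ℕ) (i₀ j₀ k₀ : ℕ) (w : ℚ)
    (c : Fin 2) : Prop :=
  w ≤ 1 ∨ ∃ c' i', c ≠ c' ∧ i' < i₀ ∧ A ≤ a i' ∧ 0 < u i' c ∧ u i' c' < 0 ∧
    (u i' c : ℚ) * w ≤ 1 - (u i' c' : ℚ) * B ∧
    (∀ l, i' < l → l ≤ j₀ → (G : ℤ) ≤ y l c) ∧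
    (∀ l, i' < l → l < k₀ → (G : ℤ) ≤ y l c + f l c)

/-- Condition (b'): a counter of positive weight is low later. -/
def PC (N G E : ℕ) (f y : ℕ → Fin 2 → ℤ) (j₀ k₀ : ℕ) (w : ℚ) (c : Fin 2) : Prop :=
  w = 0 ∨ (∃ l, j₀ < l ∧ l ≤ N ∧ y l c < G) ∨ (∃ l, k₀ ≤ l ∧ l < N ∧ y l c + f l c < G) ∨
    y N c < E

/-- A big loop. -/
theorem pot_big {N A G E : ℕ} {u f y : ℕ → Fin 2 → ℤ} {a : ℕ → ℕ} {B : ℚ}
    (hu : ∀ i < N, ∀ c, |u i c| ≤ A) {i : ℕ} (hi : i < N) (hA : A ≤ a i)
    (H1 : ∃ c, 0 < u i c ∧ ((∃ l, i < l ∧ l ≤ N ∧ y l c < G) ∨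
      (∃ l, i < l ∧ l < N ∧ y l c + f l c < G) ∨ y N c < E))
    (H3 : ∀ i j c c', i < j → j < N → A ≤ a i → A ≤ a j → c ≠ c' → 0 < u i c → u i c' < 0 →
      u j c < 0 → 0 < u j c' → u i c * u j c' ≤ u i c' * u j c →
      ∃ l, i < l ∧ l ≤ j ∧ (y l c < G ∨ y l c + f l c < G))
    (hBA : 2 * (A : ℚ) + 1 ≤ B) {W : Fin 2 → ℚ} (h0 : ∀ c, 0 ≤ W c) (hB : ∀ c, W c ≤ B)
    (hb : ∀ c, PB A G B u f y a i i (i + 1) (W c) c)
    (hc : ∀ c, PC N G E f y i (i + 1) (W c) c) :
    ∃ V : Fin 2 → ℚ, (∀ c, W c ≤ V c) ∧ (∀ c, V c ≤ B) ∧ 1 ≤ ∑ c, V c * u i c ∧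
      (∀ c, PB A G B u f y a (i + 1) i (i + 1) (V c) c) ∧
      ∀ c, PC N G E f y i (i + 1) (V c) c := by
  obtain ⟨c, huc, hlow⟩ := H1
  obtain ⟨c', hne⟩ : ∃ c' : Fin 2, c ≠ c' := by
    fin_cases c
    · exact ⟨1, by decide⟩
    · exact ⟨0, by decide⟩
  have hA0 : (0 : ℚ) ≤ A := Nat.cast_nonneg A
  have hB1 : 1 ≤ B := by linarith
  have hucq : (1 : ℚ) ≤ (u i c : ℚ) := by exact_mod_cast huc
  have hucA : (u i c : ℚ) ≤ A := by exact_mod_cast (abs_le.1 (hu i hi c)).2
  have huA' : -(u i c' : ℚ) ≤ A := by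
    have := (abs_le.1 (hu i hi c')).1
    have h2 : -(u i c') ≤ (A : ℤ) := by linarith
    exact_mod_cast h2
  set m : ℚ := max 0 (-(u i c' : ℚ)) with hm
  have hm0 : 0 ≤ m := le_max_left _ _
  have hmA : m ≤ A := max_le hA0 huA'
  have hmu : -(u i c' : ℚ) ≤ m := le_max_right _ _
  set t : ℚ := (1 + m * W c') / u i c with ht
  have htm : t * u i c = 1 + m * W c' := by
    rw [ht, div_mul_cancel₀]
    linarith
  have htB : t ≤ B := by
    rw [ht, div_le_iff₀ (by linarith)]
    rcases hb c' with h1 | ⟨d, i', hd, hi', ha', hu1, hu2, hw, hy1, hy2⟩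
    · have h2 : m * W c' ≤ A * 1 := mul_le_mul hmA h1 (h0 c') hA0
      have h3 : B * 1 ≤ B * u i c := mul_le_mul_of_nonneg_left hucq (by linarith)
      linarith
    · have hdc : d = c := by
        fin_cases c <;> fin_cases c' <;> fin_cases d <;> simp_all
      subst hdc
      rcases le_or_gt 0 (u i c') with h2 | h2
      · have h3 : m = 0 := by
          rw [hm]
          apply max_eq_left
          have : (0 : ℚ) ≤ (u i c' : ℚ) := by exact_mod_cast h2
          linarith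
        rw [h3, zero_mul, add_zero]
        have h4 : B * 1 ≤ B * u i d := mul_le_mul_of_nonneg_left hucq (by linarith)
        linarith
      · have h3 : m = -(u i c' : ℚ) := by
          rw [hm]
          apply max_eq_right
          have : (u i c' : ℚ) < 0 := by exact_mod_cast h2
          linarith
        have h4 : u i' d * u i c' < u i' c' * u i d := by
          by_contra hcon
          push Not at hcon
          obtain ⟨l, hl1, hl2, hl3⟩ := H3 i' i c' d hi' hi ha' hA hd hu1 hu2 h2 huc hcon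
          rcases hl3 with hl3 | hl3
          · exact absurd (hy1 l hl1 hl2) (not_le.2 hl3)
          · exact absurd (hy2 l hl1 (by omega)) (not_le.2 hl3)
        have h5 : (u i' d : ℚ) * u i c' + 1 ≤ u i' c' * u i d := by exact_mod_cast h4
        have hu1q : (0 : ℚ) < u i' c' := by exact_mod_cast hu1
        have hu1A : (u i' c' : ℚ) ≤ A := by
          exact_mod_cast (abs_le.1 (hu i' (by omega) c')).2
        rw [h3]
        -- multiply by `u i' c'`
        have h6 : (u i' c' : ℚ) * (1 + -(u i c' : ℚ) * W c') ≤ u i' c' * (B * u i d) := by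
          have h7 : -(u i c' : ℚ) * ((u i' c' : ℚ) * W c')
              ≤ -(u i c' : ℚ) * (1 - (u i' d : ℚ) * B) :=
            mul_le_mul_of_nonneg_left hw (by rw [← h3]; exact hm0)
          have h8 : B * ((u i' d : ℚ) * u i c' + 1) ≤ B * (u i' c' * u i d) :=
            mul_le_mul_of_nonneg_left h5 (by linarith)
          nlinarith
        exact le_of_mul_le_mul_left h6 hu1q
  refine ⟨Function.update W c (max (W c) t), ?_, ?_, ?_, ?_, ?_⟩
  · intro d
    by_cases hd : d = c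
    · subst hd
      rw [Function.update_self]
      exact le_max_left _ _
    · rw [Function.update_of_ne hd]
  · intro d
    by_cases hd : d = c
    · subst hd
      rw [Function.update_self]
      exact max_le (hB d) htB
    · rw [Function.update_of_ne hd]
      exact hB d
  · rw [pot_sum2 hne, Function.update_self, Function.update_of_ne hne.symm]
    have h1 : t * u i c ≤ max (W c) t * u i c :=
      mul_le_mul_of_nonneg_right (le_max_right _ _) (by linarith)
    have h2 : -(u i c' : ℚ) * W c' ≤ m * W c' := mul_le_mul_of_nonneg_right hmu (h0 c')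
    linarith
  · intro d
    by_cases hd : d = c
    · subst hd
      rw [Function.update_self]
      rcases le_total t (W d) with h1 | h1
      · rw [max_eq_left h1]
        rcases hb d with h2 | ⟨d', i', hd', hi', h2⟩
        · exact Or.inl h2
        · exact Or.inr ⟨d', i', hd', by omega, h2⟩
      · rw [max_eq_right h1]
        rcases le_or_gt 0 (u i c') with h2 | h2
        · left
          have h3 : m = 0 := by
            rw [hm]
            apply max_eq_left
            have : (0 : ℚ) ≤ (u i c' : ℚ) := by exact_mod_cast h2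
            linarith
          rw [ht, h3, zero_mul, add_zero, div_le_one (by linarith)]
          exact hucq
        · right
          have h3 : m = -(u i c' : ℚ) := by
            rw [hm]
            apply max_eq_right
            have : (u i c' : ℚ) < 0 := by exact_mod_cast h2
            linarith
          refine ⟨c', i, hne, by omega, hA, huc, h2, ?_, fun l hl1 hl2 => by omega,
            fun l hl1 hl2 => by omega⟩
          rw [mul_comm, htm]
          have h4 : m * W c' ≤ m * B := mul_le_mul_of_nonneg_left (hB c') hm0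
          rw [h3] at h4
          rw [h3]
          linarith
    · rw [Function.update_of_ne hd]
      rcases hb d with h2 | ⟨d', i', hd', hi', h2⟩
      · exact Or.inl h2
      · exact Or.inr ⟨d', i', hd', by omega, h2⟩
  · intro d
    by_cases hd : d = c
    · subst hd
      rw [Function.update_self]
      right
      rcases hlow with ⟨l, h1, h2, h3⟩ | ⟨l, h1, h2, h3⟩ | h1
      · exact Or.inl ⟨l, h1, h2, h3⟩
      · exact Or.inr (Or.inl ⟨l, by omega, h2, h3⟩)
      · exact Or.inr (Or.inr h1)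
    · rw [Function.update_of_ne hd]
      exact hc d

/-- One item. -/
theorem pot_step {N A G E : ℕ} {u f y : ℕ → Fin 2 → ℤ} {a : ℕ → ℕ} {B K : ℚ}
    (hy : ∀ i < N, ∀ c, y (i + 1) c = y i c + f i c + a i * u i c)
    (hu : ∀ i < N, ∀ c, |u i c| ≤ A) (hf : ∀ i < N, ∀ c, |f i c| ≤ A)
    (h0 : ∀ i ≤ N, ∀ c, 0 ≤ y i c) (hz : ∀ i < N, ∀ c, 0 ≤ y i c + f i c)
    (H1 : ∀ i < N, A ≤ a i → ∃ c, 0 < u i c ∧ ((∃ l, i < l ∧ l ≤ N ∧ y l c < G) ∨
      (∃ l, i < l ∧ l < N ∧ y l c + f l c < G) ∨ y N c < E))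
    (H3 : ∀ i j c c', i < j → j < N → A ≤ a i → A ≤ a j → c ≠ c' → 0 < u i c → u i c' < 0 →
      u j c < 0 → 0 < u j c' → u i c * u j c' ≤ u i c' * u j c →
      ∃ l, i < l ∧ l ≤ j ∧ (y l c < G ∨ y l c + f l c < G))
    (hBA : 2 * (A : ℚ) + 1 ≤ B) (hK : 4 * B * G + 2 * B * A + 2 * B * A ^ 2 + A ≤ K)
    {i : ℕ} (hi : i < N)
    (ih : ∃ W : Fin 2 → ℚ, (∀ c, 0 ≤ W c) ∧ (∀ c, W c ≤ B) ∧
      ((∑ j ∈ range i, a j : ℕ) : ℚ) ≤ ∑ c, W c * y i c + i * K ∧
      (∀ c, PB A G B u f y a i i i (W c) c) ∧ ∀ c, PC N G E f y i i (W c) c) :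
    ∃ W : Fin 2 → ℚ, (∀ c, 0 ≤ W c) ∧ (∀ c, W c ≤ B) ∧
      ((∑ j ∈ range (i + 1), a j : ℕ) : ℚ) ≤ ∑ c, W c * y (i + 1) c + (i + 1 : ℕ) * K ∧
      (∀ c, PB A G B u f y a (i + 1) (i + 1) (i + 1) (W c) c) ∧
      ∀ c, PC N G E f y (i + 1) (i + 1) (W c) c := by
  obtain ⟨W, hW0, hWB, hS, hb, hc⟩ := ih
  have hA0 : (0 : ℚ) ≤ A := Nat.cast_nonneg A
  have hB0 : 0 ≤ B := by linarith
  -- the drift
  have hfq : ∀ c, -(f i c : ℚ) ≤ A := by
    intro c
    have := (abs_le.1 (hf i hi c)).1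
    have h2 : -(f i c) ≤ (A : ℤ) := by linarith
    exact_mod_cast h2
  have huq : ∀ c, -(u i c : ℚ) ≤ A := by
    intro c
    have := (abs_le.1 (hu i hi c)).1
    have h2 : -(u i c) ≤ (A : ℤ) := by linarith
    exact_mod_cast h2
  have e1 : ∑ c, W c * y i c ≤ ∑ c, W c * ((y i c + f i c : ℤ) : ℚ) + 2 * B * A := by
    have h : ∀ c, W c * y i c ≤ W c * ((y i c + f i c : ℤ) : ℚ) + B * A := by
      intro c
      push_cast
      have h1 : W c * -(f i c : ℚ) ≤ W c * A := mul_le_mul_of_nonneg_left (hfq c) (hW0 c)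
      have h2 : W c * A ≤ B * A := mul_le_mul_of_nonneg_right (hWB c) hA0
      linarith
    have h3 := h 0
    have h4 := h 1
    rw [Fin.sum_univ_two, Fin.sum_univ_two]
    linarith
  -- the checkpoint after the drift
  have e2 := pot_zero (G := G) (v := fun c => y i c + f i c) hW0 hWB (hz i hi)
  set X : Fin 2 → ℚ := fun c => if y i c + f i c < (G : ℤ) then 0 else W c with hX
  have e2' : ∑ c, W c * ((y i c + f i c : ℤ) : ℚ)
      ≤ ∑ c, X c * ((y i c + f i c : ℤ) : ℚ) + 2 * B * G := e2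
  have hX0 : ∀ c, 0 ≤ X c := by
    intro c
    rw [hX]
    dsimp only
    split_ifs
    · exact le_rfl
    · exact hW0 c
  have hXB : ∀ c, X c ≤ B := by
    intro c
    rw [hX]
    dsimp only
    split_ifs
    · exact hB0
    · exact hWB c
  have hXb : ∀ c, PB A G B u f y a i i (i + 1) (X c) c := by
    intro c
    by_cases h1 : y i c + f i c < (G : ℤ)
    · left
      rw [hX]
      dsimp only
      rw [if_pos h1]
      norm_num
    · have h2 : X c = W c := by
        rw [hX]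
        dsimp only
        rw [if_neg h1]
      rw [h2]
      rcases hb c with h3 | ⟨d, i', hd, hi', g1, g2, g3, g4, g5, g6⟩
      · exact Or.inl h3
      · refine Or.inr ⟨d, i', hd, hi', g1, g2, g3, g4, g5, fun l hl1 hl2 => ?_⟩
        rcases Nat.lt_or_ge l i with h3 | h3
        · exact g6 l hl1 h3
        · have h4 : l = i := by omega
          subst h4
          exact not_lt.1 h1
  have hXc : ∀ c, PC N G E f y i (i + 1) (X c) c := by
    intro c
    by_cases h1 : y i c + f i c < (G : ℤ)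
    · left
      rw [hX]
      dsimp only
      rw [if_pos h1]
    · have h2 : X c = W c := by
        rw [hX]
        dsimp only
        rw [if_neg h1]
      rw [h2]
      rcases hc c with h3 | h3 | ⟨l, g1, g2, g3⟩ | h3
      · exact Or.inl h3
      · exact Or.inr (Or.inl h3)
      · refine Or.inr (Or.inr (Or.inl ⟨l, ?_, g2, g3⟩))
        rcases Nat.lt_or_ge i l with h3 | h3
        · exact h3
        · have h4 : l = i := by omega
          subst h4
          exact absurd g3 h1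
      · exact Or.inr (Or.inr (Or.inr h3))
  -- the loop
  have hVex : ∃ V : Fin 2 → ℚ, (∀ c, 0 ≤ V c) ∧ (∀ c, V c ≤ B) ∧
      ∑ c, X c * ((y i c + f i c : ℤ) : ℚ) + a i
        ≤ ∑ c, V c * y (i + 1) c + (2 * B * A ^ 2 + A) ∧
      (∀ c, PB A G B u f y a (i + 1) i (i + 1) (V c) c) ∧
      ∀ c, PC N G E f y i (i + 1) (V c) c := by
    rcases Nat.lt_or_ge (a i) A with hsm | hbig
    · refine ⟨X, hX0, hXB, ?_, ?_, hXc⟩
      · have haq : (a i : ℚ) ≤ A := by exact_mod_cast hsm.le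
        have ha0 : (0 : ℚ) ≤ a i := Nat.cast_nonneg _
        have h : ∀ c, X c * ((y i c + f i c : ℤ) : ℚ) ≤ X c * y (i + 1) c + B * A ^ 2 := by
          intro c
          rw [hy i hi c]
          push_cast
          have h1 : X c * (a i * -(u i c : ℚ)) ≤ X c * (a i * A) :=
            mul_le_mul_of_nonneg_left (mul_le_mul_of_nonneg_left (huq c) ha0) (hX0 c)
          have h2 : X c * (a i * A) ≤ B * (A * A) :=
            mul_le_mul (hXB c) (mul_le_mul_of_nonneg_right haq hA0) (by positivity) hB0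
          nlinarith
        have h3 := h 0
        have h4 := h 1
        rw [Fin.sum_univ_two, Fin.sum_univ_two]
        linarith
      · intro c
        rcases hXb c with h2 | ⟨d', i', hd', hi', h2⟩
        · exact Or.inl h2
        · exact Or.inr ⟨d', i', hd', by omega, h2⟩
    · obtain ⟨V, hV1, hV2, hV3, hV4, hV5⟩ := pot_big hu hi hbig (H1 i hi hbig) H3 hBA hX0 hXB
        hXb hXc
      refine ⟨V, fun c => le_trans (hX0 c) (hV1 c), hV2, ?_, hV4, hV5⟩
      have ha0 : (0 : ℚ) ≤ a i := Nat.cast_nonneg _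
      have h : ∀ c, X c * ((y i c + f i c : ℤ) : ℚ) + a i * (V c * u i c)
          ≤ V c * y (i + 1) c := by
        intro c
        rw [hy i hi c]
        have h1 : X c * ((y i c + f i c : ℤ) : ℚ) ≤ V c * ((y i c + f i c : ℤ) : ℚ) :=
          mul_le_mul_of_nonneg_right (hV1 c) (by exact_mod_cast hz i hi c)
        push_cast at h1 ⊢
        linarith
      have h3 := h 0
      have h4 := h 1
      have h5 : (a i : ℚ) * 1 ≤ a i * ∑ c, V c * u i c := mul_le_mul_of_nonneg_left hV3 ha0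
      rw [Fin.sum_univ_two] at h5
      rw [Fin.sum_univ_two, Fin.sum_univ_two]
      have h6 : 0 ≤ 2 * B * (A : ℚ) ^ 2 := by positivity
      linarith
  obtain ⟨V, hV0, hVB, hVS, hVb, hVc⟩ := hVex
  -- the checkpoint after the loop
  have e3 := pot_zero (G := G) (v := fun c => y (i + 1) c) hV0 hVB (h0 (i + 1) hi)
  refine ⟨fun c => if y (i + 1) c < (G : ℤ) then 0 else V c, ?_, ?_, ?_, ?_, ?_⟩
  · intro c
    dsimp only
    split_ifs
    · exact le_rfl
    · exact hV0 c
  · intro c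
    dsimp only
    split_ifs
    · exact hB0
    · exact hVB c
  · rw [Finset.sum_range_succ]
    push_cast at hS ⊢
    push_cast at e3 e2' e1 hVS
    linarith
  · intro c
    dsimp only
    split_ifs with h1
    · left
      norm_num
    · rcases hVb c with h3 | ⟨d, i', hd, hi', g1, g2, g3, g4, g5, g6⟩
      · exact Or.inl h3
      · refine Or.inr ⟨d, i', hd, hi', g1, g2, g3, g4, fun l hl1 hl2 => ?_, g6⟩
        rcases Nat.lt_or_ge l (i + 1) with h3 | h3
        · exact g5 l hl1 (by omega)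
        · have h4 : l = i + 1 := by omega
          subst h4
          exact not_lt.1 h1
  · intro c
    dsimp only
    split_ifs with h1
    · exact Or.inl rfl
    · rcases hVc c with h3 | ⟨l, g1, g2, g3⟩ | h3 | h3
      · exact Or.inl h3
      · refine Or.inr (Or.inl ⟨l, ?_, g2, g3⟩)
        rcases Nat.lt_or_ge (i + 1) l with h3 | h3
        · exact h3
        · have h4 : l = i + 1 := by omega
          subst h4
          exact absurd g3 h1
      · exact Or.inr (Or.inr (Or.inl h3))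
      · exact Or.inr (Or.inr (Or.inr h3))

theorem pot2 (N A G E : ℕ) (u f y : ℕ → Fin 2 → ℤ) (a : ℕ → ℕ)
    (hy : ∀ i < N, ∀ c, y (i + 1) c = y i c + f i c + a i * u i c)
    (hu : ∀ i < N, ∀ c, |u i c| ≤ A) (hf : ∀ i < N, ∀ c, |f i c| ≤ A)
    (h0 : ∀ i ≤ N, ∀ c, 0 ≤ y i c) (hz : ∀ i < N, ∀ c, 0 ≤ y i c + f i c)
    (H1 : ∀ i < N, A ≤ a i → ∃ c, 0 < u i c ∧ ((∃ l, i < l ∧ l ≤ N ∧ y l c < G) ∨
      (∃ l, i < l ∧ l < N ∧ y l c + f l c < G) ∨ y N c < E))
    (H3 : ∀ i j c c', i < j → j < N → A ≤ a i → A ≤ a j → c ≠ c' → 0 < u i c → u i c' < 0 →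
      u j c < 0 → 0 < u j c' → u i c * u j c' ≤ u i c' * u j c →
      ∃ l, i < l ∧ l ≤ j ∧ (y l c < G ∨ y l c + f l c < G)) :
    ∑ i ∈ range N, a i ≤ 4 * (A + 1) ^ 5 * (G + 1) * (N + E) := by
  set B : ℚ := ((A : ℚ) + 1) ^ 3 with hBdef
  set K : ℚ := 4 * ((A : ℚ) + 1) ^ 5 * (G + 1) with hKdef
  have hA0 : (0 : ℚ) ≤ A := Nat.cast_nonneg A
  have hG0 : (0 : ℚ) ≤ G := Nat.cast_nonneg G
  have hE0 : (0 : ℚ) ≤ E := Nat.cast_nonneg E
  have hBA : 2 * (A : ℚ) + 1 ≤ B := by
    rw [hBdef]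
    have e : ((A : ℚ) + 1) ^ 3 = A ^ 3 + 3 * A ^ 2 + 3 * A + 1 := by ring
    rw [e]
    have h1 : 0 ≤ (A : ℚ) ^ 3 := by positivity
    have h2 : 0 ≤ (A : ℚ) ^ 2 := by positivity
    linarith
  have hB0 : 0 ≤ B := by linarith
  have hKB : K = 4 * B * ((A + 1) ^ 2 * (G + 1)) := by
    rw [hKdef, hBdef]
    ring
  have hK : 4 * B * G + 2 * B * A + 2 * B * A ^ 2 + A ≤ K := by
    rw [hKB]
    have h1 : (G : ℚ) + A + A ^ 2 ≤ (A + 1) ^ 2 * (G + 1) := by
      have e : ((A : ℚ) + 1) ^ 2 * (G + 1) = A ^ 2 * G + 2 * (A * G) + G + A ^ 2 + 2 * A + 1 := by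
        ring
      rw [e]
      have h2 : 0 ≤ (A : ℚ) ^ 2 * G := by positivity
      have h3 : 0 ≤ (A : ℚ) * G := by positivity
      linarith
    have h2 : 4 * B * ((G : ℚ) + A + A ^ 2) ≤ 4 * B * ((A + 1) ^ 2 * (G + 1)) :=
      mul_le_mul_of_nonneg_left h1 (by linarith)
    have h3 : (A : ℚ) ≤ B * A := by
      have h4 : 1 * (A : ℚ) ≤ B * A := mul_le_mul_of_nonneg_right (by linarith) hA0
      linarith
    have h4 : 0 ≤ B * (A : ℚ) ^ 2 := by positivity
    have h5 : 0 ≤ B * (A : ℚ) := by positivity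
    linarith
  have main : ∀ i, i ≤ N → ∃ W : Fin 2 → ℚ, (∀ c, 0 ≤ W c) ∧ (∀ c, W c ≤ B) ∧
      ((∑ j ∈ range i, a j : ℕ) : ℚ) ≤ ∑ c, W c * y i c + i * K ∧
      (∀ c, PB A G B u f y a i i i (W c) c) ∧ ∀ c, PC N G E f y i i (W c) c := by
    intro i
    induction i with
    | zero =>
      intro _
      refine ⟨fun _ => 0, fun _ => le_rfl, fun _ => hB0, ?_, fun _ => Or.inl (by norm_num),
        fun _ => Or.inl rfl⟩
      simp
    | succ i ih =>
      intro hi
      exact pot_step hy hu hf h0 hz H1 H3 hBA hK hi (ih (by omega))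
  obtain ⟨W, hW0, hWB, hS, _, hc⟩ := main N le_rfl
  have h : ∀ c, W c * y N c ≤ B * E := by
    intro c
    rcases hc c with h1 | ⟨l, g1, g2, _⟩ | ⟨l, g1, g2, _⟩ | h1
    · rw [h1, zero_mul]
      positivity
    · omega
    · omega
    · have h2 : (y N c : ℚ) ≤ E := by exact_mod_cast h1.le
      exact mul_le_mul (hWB c) h2 (by exact_mod_cast h0 N le_rfl c) hB0
  have h3 := h 0
  have h4 := h 1
  rw [Fin.sum_univ_two] at hS
  have h5 : 2 * B * E ≤ K * E := by
    refine mul_le_mul_of_nonneg_right ?_ hE0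
    rw [hKB]
    have h6 : (1 : ℚ) ≤ (A + 1) ^ 2 * (G + 1) := by
      have e : ((A : ℚ) + 1) ^ 2 * (G + 1) = A ^ 2 * G + 2 * (A * G) + G + A ^ 2 + 2 * A + 1 := by
        ring
      rw [e]
      have h8 : 0 ≤ (A : ℚ) ^ 2 * G := by positivity
      have h9 : 0 ≤ (A : ℚ) * G := by positivity
      have h10 : 0 ≤ (A : ℚ) ^ 2 := by positivity
      linarith
    have h7 : 4 * B * 1 ≤ 4 * B * ((A + 1) ^ 2 * (G + 1)) :=
      mul_le_mul_of_nonneg_left h6 (by linarith)
    linarith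
  have h6 : ((∑ j ∈ range N, a j : ℕ) : ℚ) ≤ K * (N + E) := by linarith
  have h7 : ((∑ j ∈ range N, a j : ℕ) : ℚ)
      ≤ ((4 * (A + 1) ^ 5 * (G + 1) * (N + E) : ℕ) : ℚ) := by
    refine le_trans h6 (le_of_eq ?_)
    rw [hKdef]
    push_cast
    ring
  exact_mod_cast h7

end Pool.Agent.EE3
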