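import Mathlib

/-!
# EE3 / PotL: the potential argument for two coupled counters, the third one is never an obstacle
-/

set_option autoImplicit false

namespace Pool.Agent.EE3

open Finset

/-- the weight `v` of counter `c` is `0`, or it is `1` and there was a big loop increasing `c` after
which `c` was never low -/
def PLw (A G : ℕ) (u f y : ℕ → Fin 3 → ℤ) (a : ℕ → ℕ) (c : Fin 3) (i₀ j₀ k₀ : ℕ) (v : ℤ) : Prop :=
  v = 0 ∨ (v = 1 ∧ ∃ i', i' < i₀ ∧ A ≤ a i' ∧ 0 < u i' c ∧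
    (∀ l, i' < l → l ≤ j₀ → (G : ℤ) ≤ y l c) ∧ (∀ l, i' < l → l < k₀ → (G : ℤ) ≤ y l c + f l c))

theorem potL_ck {A G : ℕ} {l v z : ℤ} (hlA : l ≤ A) (hv : v = 0 ∨ v = 1)
    (hz : 0 ≤ z) : l * v * z ≤ l * (if z < G then 0 else v) * z + A * G := by
  have hAG : (0 : ℤ) ≤ A * G := by positivity
  have hA0 : (0 : ℤ) ≤ A := Int.natCast_nonneg _
  split_ifs with h
  · rcases hv with rfl | rfl
    · simpa using hAG
    · have h1 : l * z ≤ A * G := by
        calc l * z ≤ A * z := mul_le_mul_of_nonneg_right hlA hz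
          _ ≤ A * G := mul_le_mul_of_nonneg_left h.le hA0
      linarith
  · linarith

theorem potL_mv {l v z z' D A : ℤ} (hl0 : 0 ≤ l) (hlA : l ≤ A) (hv : v = 0 ∨ v = 1)
    (hD : 0 ≤ D) (h : z ≤ z' + D) : l * v * z ≤ l * v * z' + A * D := by
  rcases hv with rfl | rfl
  · have : 0 ≤ A * D := mul_nonneg (hl0.trans hlA) hD
    linarith
  · have h1 : l * z ≤ l * (z' + D) := mul_le_mul_of_nonneg_left h hl0
    have h2 : l * D ≤ A * D := mul_le_mul_of_nonneg_right hlA hD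
    linarith

theorem potL_step {N A G l0 l1 : ℕ} (hl : 1 ≤ l0 ∧ l0 ≤ A ∧ 1 ≤ l1 ∧ l1 ≤ A)
    {u f y : ℕ → Fin 3 → ℤ}
    {a : ℕ → ℕ} (ht : ∀ i < N, (l0 : ℤ) * u i 0 + l1 * u i 1 = 0)
    (hy : ∀ i < N, ∀ c, y (i + 1) c = y i c + f i c + a i * u i c)
    (hu : ∀ i < N, ∀ c, |u i c| ≤ A) (hf : ∀ i < N, ∀ c, |f i c| ≤ A)
    (h0 : ∀ i ≤ N, ∀ c, 0 ≤ y i c) (hz : ∀ i < N, ∀ c, 0 ≤ y i c + f i c)
    (H1 : ∀ i < N, A ≤ a i → u i 0 ≠ 0)
    (H3 : ∀ i j, i < j → j < N → A ≤ a i → A ≤ a j → 0 < u i 0 → u j 0 < 0 →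
      ∃ l, i < l ∧ l ≤ j ∧ (y l 0 < G ∨ y l 0 + f l 0 < G))
    (H3' : ∀ i j, i < j → j < N → A ≤ a i → A ≤ a j → u i 0 < 0 → 0 < u j 0 →
      ∃ l, i < l ∧ l ≤ j ∧ (y l 1 < G ∨ y l 1 + f l 1 < G))
    {i : ℕ} (hi : i < N)
    (ih : ∃ V W : ℤ, PLw A G u f y a 0 i i i V ∧ PLw A G u f y a 1 i i i W ∧
      ((∑ j ∈ range i, a j : ℕ) : ℤ) ≤ l0 * V * y i 0 + l1 * W * y i 1 +
        i * (2 * A * A + 4 * A * G + 2 * A * (A * A) + A)) :
    ∃ V W : ℤ, PLw A G u f y a 0 (i + 1) (i + 1) (i + 1) V ∧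
      PLw A G u f y a 1 (i + 1) (i + 1) (i + 1) W ∧
      ((∑ j ∈ range (i + 1), a j : ℕ) : ℤ) ≤ l0 * V * y (i + 1) 0 + l1 * W * y (i + 1) 1 +
        ((i + 1 : ℕ) : ℤ) * (2 * A * A + 4 * A * G + 2 * A * (A * A) + A) := by
  obtain ⟨hl1, hl2, hl3, hl4⟩ := hl
  have g0 : (1 : ℤ) ≤ l0 := by exact_mod_cast hl1
  have g1 : (1 : ℤ) ≤ l1 := by exact_mod_cast hl3
  have gA0 : (l0 : ℤ) ≤ A := by exact_mod_cast hl2
  have gA1 : (l1 : ℤ) ≤ A := by exact_mod_cast hl4
  have hA0 : (0 : ℤ) ≤ A := Int.natCast_nonneg _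
  have hG0 : (0 : ℤ) ≤ G := Int.natCast_nonneg _
  obtain ⟨V, W, hV, hW, hS⟩ := ih
  have bin : ∀ {c i₀ j₀ k₀ v}, PLw A G u f y a c i₀ j₀ k₀ v → v = 0 ∨ v = 1 := by
    intro c i₀ j₀ k₀ v h
    rcases h with h | ⟨h, -⟩
    · exact Or.inl h
    · exact Or.inr h
  -- drift
  have e1 : ∀ c (l v : ℤ), 0 ≤ l → l ≤ A → (v = 0 ∨ v = 1) →
      l * v * y i c ≤ l * v * (y i c + f i c) + A * A := by
    intro c l v h1 h2 h3
    refine potL_mv h1 h2 h3 hA0 ?_
    have := (abs_le.1 (hf i hi c)).1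
    linarith
  -- the checkpoint after the drift
  have ckf : ∀ c v, PLw A G u f y a c i i i v →
      PLw A G u f y a c i i (i + 1) (if y i c + f i c < G then 0 else v) := by
    intro c v h
    split_ifs with h1
    · exact Or.inl rfl
    · rcases h with h | ⟨h, i', k1, k2, k3, k4, k5⟩
      · exact Or.inl h
      · refine Or.inr ⟨h, i', k1, k2, k3, k4, fun l hl1 hl2 => ?_⟩
        rcases Nat.lt_or_ge l i with h3 | h3
        · exact k5 l hl1 h3
        · have h4 : l = i := by omega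
          subst h4
          exact not_lt.1 h1
  have cky : ∀ c v, PLw A G u f y a c (i + 1) i (i + 1) v →
      PLw A G u f y a c (i + 1) (i + 1) (i + 1) (if y (i + 1) c < G then 0 else v) := by
    intro c v h
    split_ifs with h1
    · exact Or.inl rfl
    · rcases h with h | ⟨h, i', k1, k2, k3, k4, k5⟩
      · exact Or.inl h
      · refine Or.inr ⟨h, i', k1, k2, k3, fun l hl1 hl2 => ?_, k5⟩
        rcases Nat.lt_or_ge l (i + 1) with h3 | h3
        · exact k4 l hl1 (by omega)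
        · have h4 : l = i + 1 := by omega
          subst h4
          exact not_lt.1 h1
  have mono : ∀ c v, PLw A G u f y a c i i (i + 1) v →
      PLw A G u f y a c (i + 1) i (i + 1) v := by
    intro c v h
    rcases h with h | ⟨h, i', k1, k2⟩
    · exact Or.inl h
    · exact Or.inr ⟨h, i', by omega, k2⟩
  have new : ∀ c, A ≤ a i → 0 < u i c → PLw A G u f y a c (i + 1) i (i + 1) 1 :=
    fun c h1 h2 => Or.inr ⟨rfl, i, by omega, h1, h2, fun l _ _ => by omega,
      fun l _ _ => by omega⟩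
  set X : ℤ := if y i 0 + f i 0 < G then 0 else V with hXdef
  set Z : ℤ := if y i 1 + f i 1 < G then 0 else W with hZdef
  have hX := ckf 0 V hV
  have hZ := ckf 1 W hW
  rw [← hXdef] at hX
  rw [← hZdef] at hZ
  have e2 : (l0 : ℤ) * V * y i 0 ≤ l0 * X * (y i 0 + f i 0) + A * A + A * G := by
    have k1 := e1 0 l0 V (by linarith) gA0 (bin hV)
    have k2 := potL_ck (G := G) gA0 (bin hV) (hz i hi 0)
    rw [← hXdef] at k2
    linarith
  have e3 : (l1 : ℤ) * W * y i 1 ≤ l1 * Z * (y i 1 + f i 1) + A * A + A * G := by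
    have k1 := e1 1 l1 W (by linarith) gA1 (bin hW)
    have k2 := potL_ck (G := G) gA1 (bin hW) (hz i hi 1)
    rw [← hZdef] at k2
    linarith
  have hti := ht i hi
  -- the loop
  obtain ⟨V', W', hV', hW', hVW⟩ : ∃ V' W' : ℤ, PLw A G u f y a 0 (i + 1) i (i + 1) V' ∧
      PLw A G u f y a 1 (i + 1) i (i + 1) W' ∧
      (l0 : ℤ) * X * (y i 0 + f i 0) + l1 * Z * (y i 1 + f i 1) + a i ≤
        l0 * V' * y (i + 1) 0 + l1 * W' * y (i + 1) 1 + (2 * A * (A * A) + A) := by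
    rcases Nat.lt_or_ge (a i) A with hsm | hbig
    · refine ⟨X, Z, mono 0 X hX, mono 1 Z hZ, ?_⟩
      have haq : (a i : ℤ) ≤ A := by exact_mod_cast hsm.le
      have ha0 : (0 : ℤ) ≤ a i := Int.natCast_nonneg _
      have k0 : ∀ c, y i c + f i c ≤ y (i + 1) c + A * A := by
        intro c
        rw [hy i hi c]
        have k1 := (abs_le.1 (hu i hi c)).1
        have k2 : (a i : ℤ) * -(u i c) ≤ a i * A := mul_le_mul_of_nonneg_left (by linarith) ha0
        have k3 : (a i : ℤ) * A ≤ A * A := mul_le_mul_of_nonneg_right haq hA0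
        linarith
      have hAA : (0 : ℤ) ≤ A * A := by positivity
      have k1 := potL_mv (l := l0) (v := X) (A := A) (by linarith) gA0 (bin hX) hAA (k0 0)
      have k2 := potL_mv (l := l1) (v := Z) (A := A) (by linarith) gA1 (bin hZ) hAA (k0 1)
      linarith
    · have ha0 : (0 : ℤ) ≤ a i := Int.natCast_nonneg _
      have hpos : (0 : ℤ) ≤ 2 * A * (A * A) + A := by positivity
      have b0 : (l0 : ℤ) * X * (y i 0 + f i 0) ≤ l0 * (y i 0 + f i 0) := by
        rcases bin hX with h | h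
        · rw [h, mul_zero, zero_mul]
          exact mul_nonneg (by linarith) (hz i hi 0)
        · rw [h, mul_one]
      have b1 : (l1 : ℤ) * Z * (y i 1 + f i 1) ≤ l1 * (y i 1 + f i 1) := by
        rcases bin hZ with h | h
        · rw [h, mul_zero, zero_mul]
          exact mul_nonneg (by linarith) (hz i hi 1)
        · rw [h, mul_one]
      rcases lt_trichotomy (u i 0) 0 with hs | hs | hs
      · -- a DOWN loop
        have hX0 : X = 0 := by
          rcases hX with h | ⟨-, i', k1, k2, k3, k4, k5⟩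
          · exact h
          · exfalso
            obtain ⟨l, m1, m2, m3⟩ := H3 i' i k1 hi k2 hbig k3 hs
            rcases m3 with m3 | m3
            · exact absurd (k4 l m1 m2) (not_le.2 m3)
            · exact absurd (k5 l m1 (by omega)) (not_le.2 m3)
        have h1 : 1 ≤ (l1 : ℤ) * u i 1 := by
          have k1 : (l1 : ℤ) * u i 1 = l0 * -(u i 0) := by linarith
          rw [k1]
          have k2 : 1 ≤ -(u i 0) := by omega
          nlinarith
        have hu1 : 0 < u i 1 := by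
          by_contra hc
          push Not at hc
          have := mul_nonpos_of_nonneg_of_nonpos (by linarith : (0 : ℤ) ≤ l1) hc
          linarith
        refine ⟨0, 1, Or.inl rfl, new 1 hbig hu1, ?_⟩
        rw [hX0, hy i hi 1]
        have k3 : (a i : ℤ) * 1 ≤ a i * (l1 * u i 1) := mul_le_mul_of_nonneg_left h1 ha0
        have k4 : (l1 : ℤ) * 1 * (y i 1 + f i 1 + a i * u i 1) =
          l1 * (y i 1 + f i 1) + a i * (l1 * u i 1) := by ring
        rw [k4]
        linarith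
      · exact absurd hs (H1 i hi hbig)
      · -- an UP loop
        have hZ0 : Z = 0 := by
          rcases hZ with h | ⟨-, i', k1, k2, k3, k4, k5⟩
          · exact h
          · exfalso
            have hui : u i' 0 < 0 := by
              have k6 := ht i' (by omega)
              by_contra hc
              push Not at hc
              have k7 : 0 ≤ (l0 : ℤ) * u i' 0 := mul_nonneg (by linarith) hc
              have k8 : 0 < (l1 : ℤ) * u i' 1 := mul_pos (by linarith) k3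
              linarith
            obtain ⟨l, m1, m2, m3⟩ := H3' i' i k1 hi k2 hbig hui hs
            rcases m3 with m3 | m3
            · exact absurd (k4 l m1 m2) (not_le.2 m3)
            · exact absurd (k5 l m1 (by omega)) (not_le.2 m3)
        have h1 : 1 ≤ (l0 : ℤ) * u i 0 := by
          have k2 : 1 ≤ u i 0 := hs
          nlinarith
        refine ⟨1, 0, new 0 hbig hs, Or.inl rfl, ?_⟩
        rw [hZ0, hy i hi 0]
        have k3 : (a i : ℤ) * 1 ≤ a i * (l0 * u i 0) := mul_le_mul_of_nonneg_left h1 ha0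
        have k4 : (l0 : ℤ) * 1 * (y i 0 + f i 0 + a i * u i 0) =
          l0 * (y i 0 + f i 0) + a i * (l0 * u i 0) := by ring
        rw [k4]
        linarith
  -- the checkpoint after the loop
  refine ⟨_, _, cky 0 V' hV', cky 1 W' hW', ?_⟩
  have k1 := potL_ck (G := G) gA0 (bin hV') (h0 (i + 1) hi 0)
  have k2 := potL_ck (G := G) gA1 (bin hW') (h0 (i + 1) hi 1)
  rw [Finset.sum_range_succ]
  push_cast at hS ⊢
  linarith

theorem potL (N A G E l0 l1 : ℕ) (hl : 1 ≤ l0 ∧ l0 ≤ A ∧ 1 ≤ l1 ∧ l1 ≤ A) (u f y : ℕ → Fin 3 → ℤ)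
    (a : ℕ → ℕ) (ht : ∀ i < N, (l0 : ℤ) * u i 0 + l1 * u i 1 = 0)
    (hy : ∀ i < N, ∀ c, y (i + 1) c = y i c + f i c + a i * u i c)
    (hu : ∀ i < N, ∀ c, |u i c| ≤ A) (hf : ∀ i < N, ∀ c, |f i c| ≤ A)
    (h0 : ∀ i ≤ N, ∀ c, 0 ≤ y i c) (hz : ∀ i < N, ∀ c, 0 ≤ y i c + f i c)
    (H1 : ∀ i < N, A ≤ a i → u i 0 ≠ 0)
    (H3 : ∀ i j, i < j → j < N → A ≤ a i → A ≤ a j → 0 < u i 0 → u j 0 < 0 →
      ∃ l, i < l ∧ l ≤ j ∧ (y l 0 < G ∨ y l 0 + f l 0 < G))
    (H3' : ∀ i j, i < j → j < N → A ≤ a i → A ≤ a j → u i 0 < 0 → 0 < u j 0 →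
      ∃ l, i < l ∧ l ≤ j ∧ (y l 1 < G ∨ y l 1 + f l 1 < G))
    (hE : ∀ c : Fin 3, c ≠ 2 → y N c ≤ E) :
    ∑ i ∈ range N, a i ≤ 1000 * (A + 1) ^ 12 * (G + 1) * (N + E) := by
  have main : ∀ i, i ≤ N → ∃ V W : ℤ, PLw A G u f y a 0 i i i V ∧ PLw A G u f y a 1 i i i W ∧
      ((∑ j ∈ range i, a j : ℕ) : ℤ) ≤ l0 * V * y i 0 + l1 * W * y i 1 +
        i * (2 * A * A + 4 * A * G + 2 * A * (A * A) + A) := by
    intro i
    induction i with
    | zero =>
      intro _
      exact ⟨0, 0, Or.inl rfl, Or.inl rfl, by simp⟩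
    | succ i ih =>
      intro hi
      exact potL_step hl ht hy hu hf h0 hz H1 H3 H3' hi (ih (by omega))
  obtain ⟨V, W, hV, hW, hS⟩ := main N le_rfl
  obtain ⟨hl1, hl2, hl3, hl4⟩ := hl
  have gA0 : (l0 : ℤ) ≤ A := by exact_mod_cast hl2
  have gA1 : (l1 : ℤ) ≤ A := by exact_mod_cast hl4
  have hA0 : (0 : ℤ) ≤ A := Int.natCast_nonneg _
  have hE0 : (0 : ℤ) ≤ E := Int.natCast_nonneg _
  have fin : ∀ (l v : ℤ) (c : Fin 3), 0 ≤ l → l ≤ A → (v = 0 ∨ v = 1) → c ≠ 2 →
      l * v * y N c ≤ A * E := by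
    intro l v c k1 k2 k3 k4
    rcases k3 with rfl | rfl
    · have : (0 : ℤ) ≤ A * E := by positivity
      linarith
    · rw [mul_one]
      exact mul_le_mul k2 (hE c k4) (h0 N le_rfl c) hA0
  have b0 := fin l0 V 0 (Int.natCast_nonneg _) gA0 (by
    rcases hV with h | ⟨h, -⟩
    · exact Or.inl h
    · exact Or.inr h) (by decide)
  have b1 := fin l1 W 1 (Int.natCast_nonneg _) gA1 (by
    rcases hW with h | ⟨h, -⟩
    · exact Or.inl h
    · exact Or.inr h) (by decide)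
  have h5 : ((∑ j ∈ range N, a j : ℕ) : ℤ) ≤ ((2 * A * E +
      N * (2 * A * A + 4 * A * G + 2 * A * (A * A) + A) : ℕ) : ℤ) := by
    push_cast at hS ⊢
    linarith
  have h6 : ∑ j ∈ range N, a j ≤ 2 * A * E +
      N * (2 * A * A + 4 * A * G + 2 * A * (A * A) + A) := by exact_mod_cast h5
  refine h6.trans ?_
  set P := (A + 1) ^ 12 with hP
  have p1 : (A + 1) ^ 3 ≤ P := Nat.pow_le_pow_right (by omega) (by norm_num)
  have p0 : (A + 1) ^ 3 = A * (A * A) + 3 * (A * A) + 3 * A + 1 := by ring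
  have p2 : A * (A * A) + 3 * (A * A) + 3 * A + 1 ≤ P := by omega
  have hPG : P * (G + 1) = P * G + P := by ring
  have p3 : 2 * A * A + 4 * A * G + 2 * A * (A * A) + A ≤ 1000 * P * (G + 1) := by
    have q1 : A * G ≤ P * G := Nat.mul_le_mul_right _ (by nlinarith)
    have q2 : 1000 * P * (G + 1) = 1000 * (P * G) + 1000 * P := by ring
    have q3 : 2 * A * A = 2 * (A * A) := by ring
    have q4 : 4 * A * G = 4 * (A * G) := by ring
    have q5 : 2 * A * (A * A) = 2 * (A * (A * A)) := by ring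
    rw [q2, q3, q4, q5]
    omega
  have p4 : 2 * A ≤ 1000 * P * (G + 1) := by
    have q2 : 1000 * P * (G + 1) = 1000 * (P * G) + 1000 * P := by ring
    rw [q2]
    have : 0 ≤ A * (A * A) := Nat.zero_le _
    omega
  calc 2 * A * E + N * (2 * A * A + 4 * A * G + 2 * A * (A * A) + A)
      ≤ 1000 * P * (G + 1) * E + N * (1000 * P * (G + 1)) :=
        Nat.add_le_add (Nat.mul_le_mul_right _ p4) (Nat.mul_le_mul_left _ p3)
    _ = 1000 * P * (G + 1) * (N + E) := by ring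

end Pool.Agent.EE3
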