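import Mathlib

/-!
# EE3 / PotS: the potential argument, counters 0 and 1 are coupled, counter 2 is free
-/

set_option autoImplicit false

namespace Pool.Agent.EE3

open Finset

/-- `c` and `c'` are the two coupled counters. -/
def CpS (c c' : Fin 3) : Prop := (c = 0 ∧ c' = 1) ∨ (c = 1 ∧ c' = 0)

theorem potS_sum {c c' : Fin 3} (h : CpS c c') (g : Fin 3 → ℚ) :
    ∑ d, g d = g c + g c' + g 2 := by
  rw [Fin.sum_univ_three]
  rcases h with ⟨h1, h2⟩ | ⟨h1, h2⟩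
  · rw [h1, h2]
  · rw [h1, h2]
    ring

theorem potS_ne {c c' : Fin 3} (h : CpS c c') : c ≠ c' ∧ c ≠ 2 ∧ c' ≠ 2 := by
  rcases h with ⟨h1, h2⟩ | ⟨h1, h2⟩
  · rw [h1, h2]
    decide
  · rw [h1, h2]
    decide

/-- The low coupled counters get weight `0`. -/
theorem potS_zero {W : Fin 3 → ℚ} {B : ℚ} {G : ℕ} {v : Fin 3 → ℤ} (h0 : ∀ c, 0 ≤ W c)
    (hB : ∀ c, W c ≤ B) (hv : ∀ c, 0 ≤ v c) :
    ∑ c, W c * v c ≤ ∑ c, (if c ≠ 2 ∧ v c < G then 0 else W c) * v c + 2 * B * G := by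
  have hB0 : 0 ≤ B := le_trans (h0 0) (hB 0)
  have h : ∀ c, W c * v c ≤ (if c ≠ 2 ∧ v c < G then 0 else W c) * v c + B * G := by
    intro c
    split_ifs with h1
    · rw [zero_mul, zero_add]
      have h2 : (v c : ℚ) ≤ G := by exact_mod_cast h1.2.le
      exact mul_le_mul (hB c) h2 (by exact_mod_cast hv c) hB0
    · have h2 : 0 ≤ B * (G : ℚ) := by positivity
      linarith
  have h3 := h 0
  have h4 := h 1
  have h5 : (if (2 : Fin 3) ≠ 2 ∧ v 2 < G then 0 else W 2) = W 2 := if_neg (fun h => h.1 rfl)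
  rw [Fin.sum_univ_three, Fin.sum_univ_three, h5]
  linarith

/-- A positive weight of a coupled counter comes from a loop after which the counter is high. -/
def PBS (A G : ℕ) (R : ℚ) (u f y : ℕ → Fin 3 → ℤ) (a : ℕ → ℕ) (i₀ j₀ k₀ : ℕ) (w : ℚ)
    (c : Fin 3) : Prop :=
  w = 0 ∨ ∃ i', i' < i₀ ∧ A ≤ a i' ∧ 0 < u i' c ∧ u i' 2 ≤ 0 ∧
    (u i' c : ℚ) * w ≤ 1 - R * (u i' 2 : ℚ) ∧
    (∀ l, i' < l → l ≤ j₀ → (G : ℤ) ≤ y l c) ∧
    (∀ l, i' < l → l < k₀ → (G : ℤ) ≤ y l c + f l c)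

/-- A big loop. -/
theorem potS_big {N A G : ℕ} {u f y : ℕ → Fin 3 → ℤ} {a : ℕ → ℕ} {R B : ℚ}
    (hA1 : 1 ≤ A) (hR : R = 2 * A) (hBdef : B = 1 + 2 * A * A)
    (hu : ∀ i < N, ∀ c, |u i c| ≤ A) {i : ℕ} (hi : i < N) (hA : A ≤ a i)
    (hfl : (u i 0 = 0 ∧ u i 1 = 0 ∧ 0 < u i 2) ∨ ∃ c c', CpS c c' ∧ 0 < u i c ∧ u i c' < 0)
    (H : ∀ c c', CpS c c' → ∀ i j, i < j → j < N → A ≤ a i → A ≤ a j → 0 < u i c → 0 < u j c' →
      u i 2 ≤ 0 → u i c * u j 2 ≤ u j c * u i 2 →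
      ∃ l, i < l ∧ l ≤ j ∧ (y l c < G ∨ y l c + f l c < G))
    {W : Fin 3 → ℚ} (h0 : ∀ c, 0 ≤ W c) (hB : ∀ c, W c ≤ B) (h2 : W 2 = R)
    (hb : ∀ c, c ≠ 2 → PBS A G R u f y a i i (i + 1) (W c) c) :
    ∃ V : Fin 3 → ℚ, (∀ c, W c ≤ V c) ∧ (∀ c, V c ≤ B) ∧ V 2 = R ∧ 1 ≤ ∑ c, V c * u i c ∧
      ∀ c, c ≠ 2 → PBS A G R u f y a (i + 1) i (i + 1) (V c) c := by
  have hA1q : (1 : ℚ) ≤ A := by exact_mod_cast hA1
  have hR0 : 0 ≤ R := by rw [hR]; linarith
  have hweak : ∀ c, c ≠ 2 → PBS A G R u f y a (i + 1) i (i + 1) (W c) c := by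
    intro c hc
    rcases hb c hc with h | ⟨i', h1, h⟩
    · exact Or.inl h
    · exact Or.inr ⟨i', by omega, h⟩
  rcases hfl with ⟨hu0, hu1, hu2⟩ | ⟨c, c', hcc, huc, huc'⟩
  · refine ⟨W, fun _ => le_rfl, hB, h2, ?_, hweak⟩
    rw [Fin.sum_univ_three, hu0, hu1, h2]
    have h3 : (1 : ℚ) ≤ (u i 2 : ℚ) := by exact_mod_cast hu2
    have h4 : R * 1 ≤ R * u i 2 := mul_le_mul_of_nonneg_left h3 hR0
    push_cast
    linarith
  obtain ⟨hne, hc2, hc2'⟩ := potS_ne hcc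
  have hucq : (1 : ℚ) ≤ (u i c : ℚ) := by exact_mod_cast huc
  have hcc' : CpS c' c := by
    rcases hcc with ⟨h1, h2⟩ | ⟨h1, h2⟩
    · exact Or.inr ⟨h2, h1⟩
    · exact Or.inl ⟨h2, h1⟩
  -- the pairs
  have hpair : ∀ i', i' < i → A ≤ a i' → 0 < u i' c' → u i' 2 ≤ 0 →
      (∀ l, i' < l → l ≤ i → (G : ℤ) ≤ y l c') →
      (∀ l, i' < l → l < i + 1 → (G : ℤ) ≤ y l c' + f l c') →
      u i c' * u i' 2 < u i' c' * u i 2 := by
    intro i' hi' ha' hu1 hu2 hy1 hy2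
    by_contra hcon
    push Not at hcon
    obtain ⟨l, hl1, hl2, hl3⟩ := H c' c hcc' i' i hi' hi ha' hA hu1 huc hu2 hcon
    rcases hl3 with hl3 | hl3
    · exact absurd (hy1 l hl1 hl2) (not_le.2 hl3)
    · exact absurd (hy2 l hl1 (by omega)) (not_le.2 hl3)
  rcases le_or_gt (u i 2) 0 with hu2 | hu2
  · -- the loop decreases counter 2
    have hW0 : W c' = 0 := by
      rcases hb c' hc2' with h | ⟨i', hi', ha', hu1, hu3, _, hy1, hy2⟩
      · exact h
      · exfalso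
        have h3 := hpair i' hi' ha' hu1 hu3 hy1 hy2
        have h4 : 0 ≤ u i c' * u i' 2 := mul_nonneg_of_nonpos_of_nonpos huc'.le hu3
        have h5 : u i' c' * u i 2 ≤ 0 := mul_nonpos_of_nonneg_of_nonpos hu1.le hu2
        linarith
    obtain ⟨t, ht⟩ : ∃ t : ℚ, t = (1 - R * u i 2) / u i c := ⟨_, rfl⟩
    have htm : t * u i c = 1 - R * u i 2 := by
      rw [ht, div_mul_cancel₀]
      linarith
    have htB : t ≤ B := by
      rw [ht, div_le_iff₀ (by linarith), hBdef, hR]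
      have h3 : -(u i 2 : ℚ) ≤ A := by
        have h4 := (abs_le.1 (hu i hi 2)).1
        have h5 : -(u i 2) ≤ (A : ℤ) := by linarith
        exact_mod_cast h5
      have h4 : 2 * (A : ℚ) * -(u i 2 : ℚ) ≤ 2 * A * A :=
        mul_le_mul_of_nonneg_left h3 (by linarith)
      have h5 : (1 + 2 * (A : ℚ) * A) * 1 ≤ (1 + 2 * (A : ℚ) * A) * u i c :=
        mul_le_mul_of_nonneg_left hucq (by positivity)
      linarith
    refine ⟨Function.update W c (max (W c) t), ?_, ?_, ?_, ?_, ?_⟩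
    · intro d
      by_cases hd : d = c
      · subst hd
        rw [Function.update_self]
        exact le_max_left _ _
      · rw [Function.update_of_ne hd]
    · intro d
      by_cases hd : d = c
      · subst hd
        rw [Function.update_self]
        exact max_le (hB d) htB
      · rw [Function.update_of_ne hd]
        exact hB d
    · rw [Function.update_of_ne hc2.symm]
      exact h2
    · rw [potS_sum hcc, Function.update_self, Function.update_of_ne hne.symm,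
        Function.update_of_ne hc2.symm, hW0, h2]
      have h3 : t * u i c ≤ max (W c) t * u i c :=
        mul_le_mul_of_nonneg_right (le_max_right _ _) (by linarith)
      linarith
    · intro d hd2
      by_cases hd : d = c
      · subst hd
        rw [Function.update_self]
        rcases le_total t (W d) with h3 | h3
        · rw [max_eq_left h3]
          exact hweak d hd2
        · rw [max_eq_right h3]
          right
          refine ⟨i, by omega, hA, huc, hu2, ?_, fun l hl1 hl2 => by omega,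
            fun l hl1 hl2 => by omega⟩
          rw [mul_comm, htm]
      · rw [Function.update_of_ne hd]
        exact hweak d hd2
  · -- the loop increases counter 2
    refine ⟨W, fun _ => le_rfl, hB, h2, ?_, hweak⟩
    rw [potS_sum hcc, h2]
    have hu2q : (1 : ℚ) ≤ (u i 2 : ℚ) := by exact_mod_cast hu2
    have h3 : 0 ≤ W c * u i c := mul_nonneg (h0 c) (by linarith)
    rcases hb c' hc2' with h | ⟨i', hi', ha', hu1, hu3, hw, hy1, hy2⟩
    · rw [h, zero_mul]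
      have h4 : R * 1 ≤ R * u i 2 := mul_le_mul_of_nonneg_left hu2q hR0
      linarith
    · have h4 := hpair i' hi' ha' hu1 hu3 hy1 hy2
      have h5 : (u i c' : ℚ) * u i' 2 + 1 ≤ u i' c' * u i 2 := by exact_mod_cast h4
      have hu1q : (1 : ℚ) ≤ u i' c' := by exact_mod_cast hu1
      have hu1A : (u i' c' : ℚ) ≤ A := by
        exact_mod_cast (abs_le.1 (hu i' (by omega) c')).2
      have hβ : -(u i c' : ℚ) ≤ A := by
        have h6 := (abs_le.1 (hu i hi c')).1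
        have h7 : -(u i c') ≤ (A : ℤ) := by linarith
        exact_mod_cast h7
      have hβ0 : 0 ≤ -(u i c' : ℚ) := by
        have : (u i c' : ℚ) < 0 := by exact_mod_cast huc'
        linarith
      -- multiply by `u i' c'`
      have h6 : -(u i c' : ℚ) * ((u i' c' : ℚ) * W c')
          ≤ -(u i c' : ℚ) * (1 - R * (u i' 2 : ℚ)) := mul_le_mul_of_nonneg_left hw hβ0
      have h7 : R * ((u i c' : ℚ) * u i' 2 + 1) ≤ R * (u i' c' * u i 2) :=
        mul_le_mul_of_nonneg_left h5 hR0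
      have h8 : (u i' c' : ℚ) * 1 ≤ u i' c' * (W c' * u i c' + R * u i 2) := by
        have e : (u i' c' : ℚ) * (W c' * u i c' + R * u i 2)
            = R * (u i' c' * u i 2) - -(u i c' : ℚ) * ((u i' c' : ℚ) * W c') := by ring
        rw [e, hR] at *
        linarith
      have h9 : 1 ≤ W c' * u i c' + R * u i 2 := le_of_mul_le_mul_left h8 (by linarith)
      linarith

/-- One item. -/
theorem potS_step {N A G : ℕ} {u f y : ℕ → Fin 3 → ℤ} {a : ℕ → ℕ} {R B K : ℚ}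
    (hA1 : 1 ≤ A) (hR : R = 2 * A) (hBdef : B = 1 + 2 * A * A)
    (hK : 4 * B * G + 3 * B * A + 3 * B * A ^ 2 + A ≤ K)
    (hy : ∀ i < N, ∀ c, y (i + 1) c = y i c + f i c + a i * u i c)
    (hu : ∀ i < N, ∀ c, |u i c| ≤ A) (hf : ∀ i < N, ∀ c, |f i c| ≤ A)
    (h0 : ∀ i ≤ N, ∀ c, 0 ≤ y i c) (hz : ∀ i < N, ∀ c, 0 ≤ y i c + f i c)
    (hfl : ∀ i < N, A ≤ a i → (u i 0 = 0 ∧ u i 1 = 0 ∧ 0 < u i 2) ∨
      ∃ c c', CpS c c' ∧ 0 < u i c ∧ u i c' < 0)
    (H : ∀ c c', CpS c c' → ∀ i j, i < j → j < N → A ≤ a i → A ≤ a j → 0 < u i c → 0 < u j c' →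
      u i 2 ≤ 0 → u i c * u j 2 ≤ u j c * u i 2 →
      ∃ l, i < l ∧ l ≤ j ∧ (y l c < G ∨ y l c + f l c < G))
    {i : ℕ} (hi : i < N)
    (ih : ∃ W : Fin 3 → ℚ, (∀ c, 0 ≤ W c) ∧ (∀ c, W c ≤ B) ∧ W 2 = R ∧
      ((∑ j ∈ range i, a j : ℕ) : ℚ) ≤ ∑ c, W c * y i c + i * K ∧
      ∀ c, c ≠ 2 → PBS A G R u f y a i i i (W c) c) :
    ∃ W : Fin 3 → ℚ, (∀ c, 0 ≤ W c) ∧ (∀ c, W c ≤ B) ∧ W 2 = R ∧
      ((∑ j ∈ range (i + 1), a j : ℕ) : ℚ) ≤ ∑ c, W c * y (i + 1) c + (i + 1 : ℕ) * K ∧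
      ∀ c, c ≠ 2 → PBS A G R u f y a (i + 1) (i + 1) (i + 1) (W c) c := by
  obtain ⟨W, hW0, hWB, hW2, hS, hb⟩ := ih
  have hA0 : (0 : ℚ) ≤ A := Nat.cast_nonneg A
  have hB0 : 0 ≤ B := by rw [hBdef]; positivity
  -- the drift
  have hfq : ∀ c, -(f i c : ℚ) ≤ A := by
    intro c
    have := (abs_le.1 (hf i hi c)).1
    have h2 : -(f i c) ≤ (A : ℤ) := by linarith
    exact_mod_cast h2
  have huq : ∀ c, -(u i c : ℚ) ≤ A := by
    intro c
    have := (abs_le.1 (hu i hi c)).1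
    have h2 : -(u i c) ≤ (A : ℤ) := by linarith
    exact_mod_cast h2
  have e1 : ∑ c, W c * y i c ≤ ∑ c, W c * ((y i c + f i c : ℤ) : ℚ) + 3 * B * A := by
    have h : ∀ c, W c * y i c ≤ W c * ((y i c + f i c : ℤ) : ℚ) + B * A := by
      intro c
      push_cast
      have h1 : W c * -(f i c : ℚ) ≤ W c * A := mul_le_mul_of_nonneg_left (hfq c) (hW0 c)
      have h2 : W c * A ≤ B * A := mul_le_mul_of_nonneg_right (hWB c) hA0
      linarith
    have h3 := h 0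
    have h4 := h 1
    have h5 := h 2
    rw [Fin.sum_univ_three, Fin.sum_univ_three]
    linarith
  -- the checkpoint after the drift
  have e2 := potS_zero (G := G) (v := fun c => y i c + f i c) hW0 hWB (hz i hi)
  obtain ⟨X, hX⟩ : ∃ X : Fin 3 → ℚ, ∀ c, X c = if c ≠ 2 ∧ y i c + f i c < (G : ℤ) then 0
      else W c := ⟨_, fun _ => rfl⟩
  have e2' : ∑ c, W c * ((y i c + f i c : ℤ) : ℚ)
      ≤ ∑ c, X c * ((y i c + f i c : ℤ) : ℚ) + 2 * B * G := by
    simp only [hX]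
    exact e2
  have hX0 : ∀ c, 0 ≤ X c := by
    intro c
    rw [hX]
    split_ifs
    · exact le_rfl
    · exact hW0 c
  have hXB : ∀ c, X c ≤ B := by
    intro c
    rw [hX]
    split_ifs
    · exact hB0
    · exact hWB c
  have hX2 : X 2 = R := by
    rw [hX, if_neg (fun h => h.1 rfl)]
    exact hW2
  have hXb : ∀ c, c ≠ 2 → PBS A G R u f y a i i (i + 1) (X c) c := by
    intro c hc
    by_cases h1 : y i c + f i c < (G : ℤ)
    · left
      rw [hX, if_pos ⟨hc, h1⟩]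
    · have h2 : X c = W c := by
        rw [hX, if_neg (fun h => h1 h.2)]
      rw [h2]
      rcases hb c hc with h3 | ⟨i', hi', g1, g2, g3, g4, g5, g6⟩
      · exact Or.inl h3
      · refine Or.inr ⟨i', hi', g1, g2, g3, g4, g5, fun l hl1 hl2 => ?_⟩
        rcases Nat.lt_or_ge l i with h3 | h3
        · exact g6 l hl1 h3
        · have h4 : l = i := by omega
          subst h4
          exact not_lt.1 h1
  -- the loop
  have hVex : ∃ V : Fin 3 → ℚ, (∀ c, 0 ≤ V c) ∧ (∀ c, V c ≤ B) ∧ V 2 = R ∧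
      ∑ c, X c * ((y i c + f i c : ℤ) : ℚ) + a i
        ≤ ∑ c, V c * y (i + 1) c + (3 * B * A ^ 2 + A) ∧
      ∀ c, c ≠ 2 → PBS A G R u f y a (i + 1) i (i + 1) (V c) c := by
    rcases Nat.lt_or_ge (a i) A with hsm | hbig
    · refine ⟨X, hX0, hXB, hX2, ?_, ?_⟩
      · have haq : (a i : ℚ) ≤ A := by exact_mod_cast hsm.le
        have ha0 : (0 : ℚ) ≤ a i := Nat.cast_nonneg _
        have h : ∀ c, X c * ((y i c + f i c : ℤ) : ℚ) ≤ X c * y (i + 1) c + B * A ^ 2 := by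
          intro c
          rw [hy i hi c]
          push_cast
          have h1 : X c * (a i * -(u i c : ℚ)) ≤ X c * (a i * A) :=
            mul_le_mul_of_nonneg_left (mul_le_mul_of_nonneg_left (huq c) ha0) (hX0 c)
          have h2 : X c * (a i * A) ≤ B * (A * A) :=
            mul_le_mul (hXB c) (mul_le_mul_of_nonneg_right haq hA0) (by positivity) hB0
          nlinarith
        have h3 := h 0
        have h4 := h 1
        have h5 := h 2
        rw [Fin.sum_univ_three, Fin.sum_univ_three]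
        linarith
      · intro c hc
        rcases hXb c hc with h2 | ⟨i', hi', h2⟩
        · exact Or.inl h2
        · exact Or.inr ⟨i', by omega, h2⟩
    · obtain ⟨V, hV1, hV2, hV3, hV4, hV5⟩ := potS_big hA1 hR hBdef hu hi hbig (hfl i hi hbig) H
        hX0 hXB hX2 hXb
      refine ⟨V, fun c => le_trans (hX0 c) (hV1 c), hV2, hV3, ?_, hV5⟩
      have ha0 : (0 : ℚ) ≤ a i := Nat.cast_nonneg _
      have h : ∀ c, X c * ((y i c + f i c : ℤ) : ℚ) + a i * (V c * u i c)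
          ≤ V c * y (i + 1) c := by
        intro c
        rw [hy i hi c]
        have h1 : X c * ((y i c + f i c : ℤ) : ℚ) ≤ V c * ((y i c + f i c : ℤ) : ℚ) :=
          mul_le_mul_of_nonneg_right (hV1 c) (by exact_mod_cast hz i hi c)
        push_cast at h1 ⊢
        linarith
      have h3 := h 0
      have h4 := h 1
      have h5 := h 2
      have h6 : (a i : ℚ) * 1 ≤ a i * ∑ c, V c * u i c := mul_le_mul_of_nonneg_left hV4 ha0
      rw [Fin.sum_univ_three] at h6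
      rw [Fin.sum_univ_three, Fin.sum_univ_three]
      have h7 : 0 ≤ 3 * B * (A : ℚ) ^ 2 := by positivity
      linarith
  obtain ⟨V, hV0, hVB, hV2, hVS, hVb⟩ := hVex
  -- the checkpoint after the loop
  have e3 := potS_zero (G := G) (v := fun c => y (i + 1) c) hV0 hVB (h0 (i + 1) hi)
  refine ⟨fun c => if c ≠ 2 ∧ y (i + 1) c < (G : ℤ) then 0 else V c, ?_, ?_, ?_, ?_, ?_⟩
  · intro c
    dsimp only
    split_ifs
    · exact le_rfl
    · exact hV0 c
  · intro c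
    dsimp only
    split_ifs
    · exact hB0
    · exact hVB c
  · show (if (2 : Fin 3) ≠ 2 ∧ y (i + 1) 2 < (G : ℤ) then 0 else V 2) = R
    rw [if_neg (fun h => h.1 rfl)]
    exact hV2
  · rw [Finset.sum_range_succ]
    push_cast at hS ⊢
    push_cast at e3 e2' e1 hVS
    linarith
  · intro c hc
    dsimp only
    by_cases h1 : y (i + 1) c < (G : ℤ)
    · rw [if_pos ⟨hc, h1⟩]
      exact Or.inl rfl
    · rw [if_neg (fun h => h1 h.2)]
      rcases hVb c hc with h3 | ⟨i', hi', g1, g2, g3, g4, g5, g6⟩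
      · exact Or.inl h3
      · refine Or.inr ⟨i', hi', g1, g2, g3, g4, fun l hl1 hl2 => ?_, g6⟩
        rcases Nat.lt_or_ge l (i + 1) with h3 | h3
        · exact g5 l hl1 (by omega)
        · have h4 : l = i + 1 := by omega
          subst h4
          exact not_lt.1 h1

theorem potS (N A G E l0 l1 : ℕ) (hl : 1 ≤ l0 ∧ l0 ≤ A ∧ 1 ≤ l1 ∧ l1 ≤ A) (u f y : ℕ → Fin 3 → ℤ)
    (a : ℕ → ℕ) (ht : ∀ i < N, (l0 : ℤ) * u i 0 + l1 * u i 1 = 0)
    (hy : ∀ i < N, ∀ c, y (i + 1) c = y i c + f i c + a i * u i c)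
    (hu : ∀ i < N, ∀ c, |u i c| ≤ A) (hf : ∀ i < N, ∀ c, |f i c| ≤ A)
    (h0 : ∀ i ≤ N, ∀ c, 0 ≤ y i c) (hz : ∀ i < N, ∀ c, 0 ≤ y i c + f i c)
    (H1 : ∀ i < N, A ≤ a i → u i 0 = 0 → 0 < u i 2)
    (H3 : ∀ i j, i < j → j < N → A ≤ a i → A ≤ a j → 0 < u i 0 → u j 0 < 0 →
      u i 0 * u j 2 ≤ u j 0 * u i 2 →
      ∃ l, i < l ∧ l ≤ j ∧ ((y l 0 < G ∨ y l 0 + f l 0 < G) ∨
        (0 < u i 2 ∧ (y l 2 < G ∨ y l 2 + f l 2 < G))))
    (H3' : ∀ i j, i < j → j < N → A ≤ a i → A ≤ a j → u i 0 < 0 → 0 < u j 0 →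
      u j 0 * u i 2 ≤ u i 0 * u j 2 →
      ∃ l, i < l ∧ l ≤ j ∧ ((y l 1 < G ∨ y l 1 + f l 1 < G) ∨
        (0 < u i 2 ∧ (y l 2 < G ∨ y l 2 + f l 2 < G))))
    (hE : ∀ c, y N c ≤ E) :
    ∑ i ∈ range N, a i ≤ 1000 * (A + 1) ^ 12 * (G + 1) * (N + E) := by
  obtain ⟨hl0, hl0A, hl1, hl1A⟩ := hl
  have hA1 : 1 ≤ A := le_trans hl0 hl0A
  have hl0z : (0 : ℤ) < l0 := by exact_mod_cast hl0
  have hl1z : (0 : ℤ) < l1 := by exact_mod_cast hl1
  -- signs
  have s01 : ∀ i < N, 0 < u i 0 → u i 1 < 0 := by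
    intro i hi h
    by_contra hcon
    push Not at hcon
    have h1 := ht i hi
    have h2 := mul_pos hl0z h
    have h3 := mul_nonneg hl1z.le hcon
    linarith
  have s01' : ∀ i < N, u i 0 < 0 → 0 < u i 1 := by
    intro i hi h
    by_contra hcon
    push Not at hcon
    have h1 := ht i hi
    have h2 := mul_neg_of_pos_of_neg hl0z h
    have h3 := mul_nonpos_of_nonneg_of_nonpos hl1z.le hcon
    linarith
  have s10 : ∀ i < N, 0 < u i 1 → u i 0 < 0 := by
    intro i hi h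
    by_contra hcon
    push Not at hcon
    have h1 := ht i hi
    have h2 := mul_pos hl1z h
    have h3 := mul_nonneg hl0z.le hcon
    linarith
  have hfl : ∀ i < N, A ≤ a i → (u i 0 = 0 ∧ u i 1 = 0 ∧ 0 < u i 2) ∨
      ∃ c c', CpS c c' ∧ 0 < u i c ∧ u i c' < 0 := by
    intro i hi ha
    rcases lt_trichotomy (u i 0) 0 with h | h | h
    · exact Or.inr ⟨1, 0, Or.inr ⟨rfl, rfl⟩, s01' i hi h, h⟩
    · left
      refine ⟨h, ?_, H1 i hi ha h⟩
      have h1 := ht i hi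
      rw [h, mul_zero, zero_add] at h1
      rcases mul_eq_zero.1 h1 with h2 | h2
      · omega
      · exact h2
    · exact Or.inr ⟨0, 1, Or.inl ⟨rfl, rfl⟩, h, s01 i hi h⟩
  have H : ∀ c c', CpS c c' → ∀ i j, i < j → j < N → A ≤ a i → A ≤ a j → 0 < u i c →
      0 < u j c' → u i 2 ≤ 0 → u i c * u j 2 ≤ u j c * u i 2 →
      ∃ l, i < l ∧ l ≤ j ∧ (y l c < G ∨ y l c + f l c < G) := by
    rintro c c' (⟨hc, hc'⟩ | ⟨hc, hc'⟩) i j hij hj hai haj hui huj hu2 hg
    · subst hc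
      subst hc'
      obtain ⟨l, h1, h2, h3⟩ := H3 i j hij hj hai haj hui (s10 j hj huj) hg
      rcases h3 with h3 | ⟨h3, _⟩
      · exact ⟨l, h1, h2, h3⟩
      · omega
    · subst hc
      subst hc'
      have hg' : u j 0 * u i 2 ≤ u i 0 * u j 2 := by
        have e1 := ht i (by omega)
        have e2 := ht j hj
        have h1 : (l1 : ℤ) * (u i 1 * u j 2) ≤ l1 * (u j 1 * u i 2) :=
          mul_le_mul_of_nonneg_left hg hl1z.le
        have h2 : (l0 : ℤ) * (u j 0 * u i 2) ≤ l0 * (u i 0 * u j 2) := by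
          have e3 : (l0 : ℤ) * (u j 0 * u i 2) = -(l1 * (u j 1 * u i 2)) := by
            linear_combination (u i 2) * e2
          have e4 : (l0 : ℤ) * (u i 0 * u j 2) = -(l1 * (u i 1 * u j 2)) := by
            linear_combination (u j 2) * e1
          rw [e3, e4]
          linarith
        exact le_of_mul_le_mul_left h2 hl0z
      obtain ⟨l, h1, h2, h3⟩ := H3' i j hij hj hai haj (s10 i (by omega) hui) huj hg'
      rcases h3 with h3 | ⟨h3, _⟩
      · exact ⟨l, h1, h2, h3⟩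
      · omega
  obtain ⟨R, hR⟩ : ∃ R : ℚ, R = 2 * A := ⟨_, rfl⟩
  obtain ⟨B, hBdef⟩ : ∃ B : ℚ, B = 1 + 2 * A * A := ⟨_, rfl⟩
  obtain ⟨K, hKdef⟩ : ∃ K : ℚ, K = 4 * B * G + 3 * B * A + 3 * B * A ^ 2 + A := ⟨_, rfl⟩
  have hA1q : (1 : ℚ) ≤ A := by exact_mod_cast hA1
  have hB0 : 0 ≤ B := by rw [hBdef]; positivity
  have hRB : R ≤ B := by
    rw [hR, hBdef]
    nlinarith
  have hR0 : 0 ≤ R := by rw [hR]; positivity
  have main : ∀ i, i ≤ N → ∃ W : Fin 3 → ℚ, (∀ c, 0 ≤ W c) ∧ (∀ c, W c ≤ B) ∧ W 2 = R ∧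
      ((∑ j ∈ range i, a j : ℕ) : ℚ) ≤ ∑ c, W c * y i c + i * K ∧
      ∀ c, c ≠ 2 → PBS A G R u f y a i i i (W c) c := by
    intro i
    induction i with
    | zero =>
      intro _
      refine ⟨fun c => if c = 2 then R else 0, ?_, ?_, if_pos rfl, ?_, ?_⟩
      · intro c
        dsimp only
        split_ifs
        · exact hR0
        · exact le_rfl
      · intro c
        dsimp only
        split_ifs
        · exact hRB
        · exact hB0
      · have h1 : ∀ c : Fin 3, (0 : ℚ) ≤ (if c = 2 then R else 0) * (y 0 c : ℚ) := by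
          intro c
          refine mul_nonneg ?_ (by exact_mod_cast h0 0 (Nat.zero_le _) c)
          split_ifs
          · exact hR0
          · exact le_rfl
        have h2 := Finset.sum_nonneg fun c (_ : c ∈ (univ : Finset (Fin 3))) => h1 c
        simp only [Finset.range_zero, Finset.sum_empty, Nat.cast_zero, zero_mul, add_zero]
        exact h2
      · intro c hc
        left
        dsimp only
        rw [if_neg hc]
    | succ i ih =>
      intro hi
      exact potS_step hA1 hR hBdef hKdef.ge hy hu hf h0 hz hfl H hi (ih (by omega))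
  obtain ⟨W, hW0, hWB, _, hS, _⟩ := main N le_rfl
  have hG0 : (0 : ℚ) ≤ G := Nat.cast_nonneg G
  have hE0 : (0 : ℚ) ≤ E := Nat.cast_nonneg E
  have hN0 : (0 : ℚ) ≤ N := Nat.cast_nonneg N
  have h : ∀ c, W c * y N c ≤ B * E := by
    intro c
    have h2 : (y N c : ℚ) ≤ E := by exact_mod_cast hE c
    exact mul_le_mul (hWB c) h2 (by exact_mod_cast h0 N le_rfl c) hB0
  have h3 := h 0
  have h4 := h 1
  have h5 := h 2
  rw [Fin.sum_univ_three] at hS
  -- the constants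
  obtain ⟨D, hD⟩ : ∃ D : ℚ, D = (A : ℚ) + 1 := ⟨_, rfl⟩
  have hD1 : 1 ≤ D := by rw [hD]; linarith
  have hAD : (A : ℚ) ≤ D := by rw [hD]; linarith
  have hBD : B ≤ 2 * D ^ 2 := by
    rw [hBdef, hD]
    nlinarith
  have hD2 : 1 ≤ D ^ 2 := one_le_pow₀ hD1
  have hp : ∀ j k : ℕ, j ≤ k → D ^ j ≤ D ^ k := fun j k hjk => pow_le_pow_right₀ hD1 hjk
  have hK2 : K ≤ 100 * D ^ 12 * (G + 1) := by
    rw [hKdef]
    have k1 : 4 * B * G ≤ 8 * D ^ 12 * G := by
      have := hp 2 12 (by norm_num)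
      have h6 : 4 * B ≤ 8 * D ^ 12 := by linarith
      exact mul_le_mul_of_nonneg_right h6 hG0
    have k2 : 3 * B * A ≤ 6 * D ^ 12 := by
      have h6 : B * A ≤ 2 * D ^ 2 * D := mul_le_mul hBD hAD (by linarith) (by positivity)
      have h7 := hp 3 12 (by norm_num)
      have e : 2 * D ^ 2 * D = 2 * D ^ 3 := by ring
      linarith
    have k3 : 3 * B * A ^ 2 ≤ 6 * D ^ 12 := by
      have h8 : (A : ℚ) ^ 2 ≤ D ^ 2 := pow_le_pow_left₀ (by linarith) hAD 2
      have h6 : B * A ^ 2 ≤ 2 * D ^ 2 * D ^ 2 := mul_le_mul hBD h8 (by positivity) (by positivity)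
      have h7 := hp 4 12 (by norm_num)
      have e : 2 * D ^ 2 * D ^ 2 = 2 * D ^ 4 := by ring
      linarith
    have k4 : (A : ℚ) ≤ D ^ 12 := by
      have := hp 1 12 (by norm_num)
      rw [pow_one] at this
      linarith
    have k5 : 0 ≤ D ^ 12 := by positivity
    have k6 : 0 ≤ D ^ 12 * G := by positivity
    nlinarith
  have hfin : 3 * (B * E) + N * K ≤ 1000 * D ^ 12 * (G + 1) * (N + E) := by
    have k1 : B * E ≤ 2 * D ^ 12 * E := by
      have := hp 2 12 (by norm_num)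
      exact mul_le_mul_of_nonneg_right (by linarith) hE0
    have k2 : N * K ≤ N * (100 * D ^ 12 * (G + 1)) := mul_le_mul_of_nonneg_left hK2 hN0
    have k3 : 0 ≤ D ^ 12 * E := by positivity
    have k4 : 0 ≤ D ^ 12 * E * G := by positivity
    have k5 : 0 ≤ D ^ 12 * N := by positivity
    have k6 : 0 ≤ D ^ 12 * N * G := by positivity
    nlinarith
  have h6 : ((∑ j ∈ range N, a j : ℕ) : ℚ)
      ≤ ((1000 * (A + 1) ^ 12 * (G + 1) * (N + E) : ℕ) : ℚ) := by
    have e : ((1000 * (A + 1) ^ 12 * (G + 1) * (N + E) : ℕ) : ℚ)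
        = 1000 * D ^ 12 * (G + 1) * (N + E) := by
      rw [hD]
      push_cast
      ring
    rw [e]
    linarith
  exact_mod_cast h6

/-- the same when counter 2 is never an obstacle (`R = 0`, counter 2 is not mentioned) -/
theorem potL (N A G E l0 l1 : ℕ) (hl : 1 ≤ l0 ∧ l0 ≤ A ∧ 1 ≤ l1 ∧ l1 ≤ A) (u f y : ℕ → Fin 3 → ℤ)
    (a : ℕ → ℕ) (ht : ∀ i < N, (l0 : ℤ) * u i 0 + l1 * u i 1 = 0)
    (hy : ∀ i < N, ∀ c, y (i + 1) c = y i c + f i c + a i * u i c)
    (hu : ∀ i < N, ∀ c, |u i c| ≤ A) (hf : ∀ i < N, ∀ c, |f i c| ≤ A)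
    (h0 : ∀ i ≤ N, ∀ c, 0 ≤ y i c) (hz : ∀ i < N, ∀ c, 0 ≤ y i c + f i c)
    (H1 : ∀ i < N, A ≤ a i → u i 0 ≠ 0)
    (H3 : ∀ i j, i < j → j < N → A ≤ a i → A ≤ a j → 0 < u i 0 → u j 0 < 0 →
      ∃ l, i < l ∧ l ≤ j ∧ (y l 0 < G ∨ y l 0 + f l 0 < G))
    (H3' : ∀ i j, i < j → j < N → A ≤ a i → A ≤ a j → u i 0 < 0 → 0 < u j 0 →
      ∃ l, i < l ∧ l ≤ j ∧ (y l 1 < G ∨ y l 1 + f l 1 < G))
    (hE : ∀ c : Fin 3, c ≠ 2 → y N c ≤ E) :
    ∑ i ∈ range N, a i ≤ 1000 * (A + 1) ^ 12 * (G + 1) * (N + E) := by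
  have e0 : ∀ g : ℕ → Fin 3 → ℤ, ∀ i, (if (0 : Fin 3) = 2 then 0 else g i 0) = g i 0 :=
    fun g i => if_neg (by decide)
  have e1 : ∀ g : ℕ → Fin 3 → ℤ, ∀ i, (if (1 : Fin 3) = 2 then 0 else g i 1) = g i 1 :=
    fun g i => if_neg (by decide)
  refine potS N A G E l0 l1 hl (fun i c => if c = 2 then 0 else u i c)
    (fun i c => if c = 2 then 0 else f i c) (fun i c => if c = 2 then 0 else y i c) a
    ?_ ?_ ?_ ?_ ?_ ?_ ?_ ?_ ?_ ?_
  · intro i hi
    rw [e0, e1]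
    exact ht i hi
  · intro i hi c
    split_ifs
    · ring
    · exact hy i hi c
  · intro i hi c
    split_ifs
    · rw [abs_zero]
      exact Int.natCast_nonneg _
    · exact hu i hi c
  · intro i hi c
    split_ifs
    · rw [abs_zero]
      exact Int.natCast_nonneg _
    · exact hf i hi c
  · intro i hi c
    split_ifs
    · exact le_rfl
    · exact h0 i hi c
  · intro i hi c
    split_ifs
    · norm_num
    · exact hz i hi c
  · intro i hi ha h
    rw [e0] at h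
    exact absurd h (H1 i hi ha)
  · intro i j hij hj hai haj hui huj _
    rw [e0] at hui huj
    obtain ⟨l, h1, h2, h3⟩ := H3 i j hij hj hai haj hui huj
    refine ⟨l, h1, h2, Or.inl ?_⟩
    rw [e0, e0]
    exact h3
  · intro i j hij hj hai haj hui huj _
    rw [e0] at hui huj
    obtain ⟨l, h1, h2, h3⟩ := H3' i j hij hj hai haj hui huj
    refine ⟨l, h1, h2, Or.inl ?_⟩
    rw [e1, e1]
    exact h3
  · intro c
    split_ifs with h
    · exact Int.natCast_nonneg _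
    · exact hE c h

end Pool.Agent.EE3
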