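import Mathlib

/-!
# EE3 / RePhi: an order preserving map which makes almost feasible dual prices feasible
-/

set_option autoImplicit false
set_option linter.unusedSectionVars false

namespace Pool.Agent.EE3

open Finset

/-- the fractions with denominator at most `A` in the unit interval -/
def reTh (A : ℕ) : Finset ℚ :=
  (((range (A + 1)) ×ˢ (range A)).filter fun x => x.1 ≤ x.2 + 1).image
    fun x => (x.1 : ℚ) / ((x.2 : ℚ) + 1)

theorem reTh_mem {A p q : ℕ} (hq : 1 ≤ q) (hqA : q ≤ A) (hp : p ≤ q) : (p : ℚ) / q ∈ reTh A := by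
  refine mem_image.2 ⟨(p, q - 1), mem_filter.2 ⟨mem_product.2 ⟨mem_range.2 ?_, mem_range.2 ?_⟩, ?_⟩,
    ?_⟩
  · show p < A + 1
    omega
  · show q - 1 < A
    omega
  · show p ≤ q - 1 + 1
    omega
  · show (p : ℚ) / (((q - 1 : ℕ) : ℚ) + 1) = (p : ℚ) / q
    have : ((q - 1 : ℕ) : ℚ) + 1 = q := by
      rw [Nat.cast_sub hq]
      simp
    rw [this]

theorem reTh_out {A : ℕ} {θ : ℚ} (h : θ ∈ reTh A) :
    ∃ p q : ℕ, 1 ≤ q ∧ q ≤ A ∧ p ≤ q ∧ θ = (p : ℚ) / q := by
  obtain ⟨x, hx, rfl⟩ := mem_image.1 h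
  obtain ⟨h1, h2⟩ := mem_filter.1 hx
  have h3 := mem_range.1 (mem_product.1 h1).2
  exact ⟨x.1, x.2 + 1, by omega, by omega, h2, by push_cast; rfl⟩

theorem reTh_le {A : ℕ} {θ : ℚ} (h : θ ∈ reTh A) : 0 ≤ θ ∧ θ ≤ 1 := by
  obtain ⟨p, q, h1, h2, h3, rfl⟩ := reTh_out h
  have hq : (0 : ℚ) < q := by exact_mod_cast h1
  constructor
  · positivity
  · rw [div_le_one hq]
    exact_mod_cast h3

theorem reTh_gap {A : ℕ} {θ θ' : ℚ} (h : θ ∈ reTh A) (h' : θ' ∈ reTh A) (hlt : θ < θ') :
    1 ≤ (θ' - θ) * (A : ℚ) ^ 2 := by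
  obtain ⟨p, q, h1, h2, h3, rfl⟩ := reTh_out h
  obtain ⟨p', q', h1', h2', h3', rfl⟩ := reTh_out h'
  have hq : (0 : ℚ) < q := by exact_mod_cast h1
  have hq' : (0 : ℚ) < q' := by exact_mod_cast h1'
  have e : (p' : ℚ) / q' - (p : ℚ) / q = ((p' : ℚ) * q - p * q') / (q' * q) := by
    field_simp
  have h4 : 0 < (p' : ℚ) * q - p * q' := by
    rw [div_lt_div_iff₀ hq hq'] at hlt
    linarith
  have h5 : (1 : ℚ) ≤ (p' : ℚ) * q - p * q' := by
    have h6 : (0 : ℤ) < (p' : ℤ) * q - p * q' := by exact_mod_cast h4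
    have h7 : (1 : ℤ) ≤ (p' : ℤ) * q - p * q' := h6
    exact_mod_cast h7
  have h6 : (q' : ℚ) * q ≤ (A : ℚ) ^ 2 := by
    rw [pow_two]
    exact mul_le_mul (by exact_mod_cast h2') (by exact_mod_cast h2) hq.le (Nat.cast_nonneg _)
  have h7 : (0 : ℚ) < q' * q := mul_pos hq' hq
  rw [e]
  calc (1 : ℚ) = (1 / (q' * q)) * (q' * q) := by field_simp
    _ ≤ (((p' : ℚ) * q - p * q') / (q' * q)) * (A : ℚ) ^ 2 := by
        refine mul_le_mul ?_ h6 h7.le ?_
        · exact div_le_div_of_nonneg_right h5 h7.le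
        · exact div_nonneg h4.le h7.le

theorem reTh_zero {A : ℕ} (hA : 1 ≤ A) : (0 : ℚ) ∈ reTh A := by
  have := reTh_mem (A := A) (p := 0) (q := 1) le_rfl hA (Nat.zero_le _)
  simpa using this

theorem reTh_one {A : ℕ} (hA : 1 ≤ A) : (1 : ℚ) ∈ reTh A := by
  have := reTh_mem (A := A) (p := 1) (q := 1) le_rfl hA le_rfl
  simpa using this

/-- the map in one coordinate -/
noncomputable def reF (A : ℕ) (hA : 1 ≤ A) (K m X t : ℚ) : ℚ :=
  (reTh A).sup' ⟨0, reTh_zero hA⟩ fun θ => min ((1 - θ) * m + θ * max (X - K) m) (t - θ * K + 1)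

theorem reF_ge {A : ℕ} (hA : 1 ≤ A) (K m X t : ℚ) {θ : ℚ} (hθ : θ ∈ reTh A) :
    min ((1 - θ) * m + θ * max (X - K) m) (t - θ * K + 1) ≤ reF A hA K m X t :=
  Finset.le_sup' (fun θ => min ((1 - θ) * m + θ * max (X - K) m) (t - θ * K + 1)) hθ

theorem reF_le {A : ℕ} (hA : 1 ≤ A) (K m X t : ℚ) {z : ℚ}
    (h : ∀ θ ∈ reTh A, min ((1 - θ) * m + θ * max (X - K) m) (t - θ * K + 1) ≤ z) :
    reF A hA K m X t ≤ z :=
  Finset.sup'_le _ _ h

theorem reF_mono {A : ℕ} (hA : 1 ≤ A) (K : ℚ) {m m' X X' t t' : ℚ} (hm : m ≤ m') (hX : X ≤ X')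
    (ht : t ≤ t') : reF A hA K m X t ≤ reF A hA K m' X' t' := by
  refine reF_le hA _ _ _ _ fun θ hθ => le_trans ?_ (reF_ge hA K m' X' t' hθ)
  obtain ⟨h0, h1⟩ := reTh_le hθ
  refine min_le_min ?_ (by linarith)
  have h2 : max (X - K) m ≤ max (X' - K) m' := max_le_max (by linarith) hm
  have h3 : (1 - θ) * m ≤ (1 - θ) * m' := mul_le_mul_of_nonneg_left hm (by linarith)
  have h4 : θ * max (X - K) m ≤ θ * max (X' - K) m' := mul_le_mul_of_nonneg_left h2 h0
  linarith

theorem reF_upper {A : ℕ} (hA : 1 ≤ A) {K : ℚ} (hK : 0 ≤ K) (m X t : ℚ) :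
    reF A hA K m X t ≤ t + 1 := by
  refine reF_le hA _ _ _ _ fun θ hθ => (min_le_right _ _).trans ?_
  have := mul_nonneg (reTh_le hθ).1 hK
  linarith

theorem reF_lower {A : ℕ} (hA : 1 ≤ A) {K : ℚ} {m X t : ℚ} (ht : t ≤ X) :
    t - K ≤ reF A hA K m X t := by
  refine le_trans ?_ (reF_ge hA K m X t (reTh_one hA))
  refine le_min ?_ (by linarith)
  have := le_max_left (X - K) m
  linarith

/-- the sorted form of the main property -/
theorem reF_sorted {A : ℕ} (hA : 1 ≤ A) {K : ℚ} (hK : 2 * (A : ℚ) ^ 2 ≤ K) {ra rc rb : ℚ}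
    (h1 : ra ≤ rc) (h2 : rc ≤ rb) {wa wc wb : ℤ} (hw : wa + wc + wb = 0)
    (hc : |wc| ≤ A) (h : ra * wa + rc * wc + rb * wb ≤ 1) :
    reF A hA K ra rb ra * wa + reF A hA K ra rb rc * wc + reF A hA K ra rb rb * wb ≤ 0 := by
  have hA1 : (1 : ℚ) ≤ A := by exact_mod_cast hA
  have hA2 : (1 : ℚ) ≤ (A : ℚ) ^ 2 := one_le_pow₀ hA1
  have hK2 : 2 ≤ K := by linarith
  obtain ⟨s, hs⟩ : ∃ s, s = max (rb - K) ra - ra := ⟨_, rfl⟩
  have hs0 : 0 ≤ s := by rw [hs]; linarith [le_max_right (rb - K) ra]
  have hmax : max (rb - K) ra = ra + s := by rw [hs]; ring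
  have hfirst : ∀ θ : ℚ, (1 - θ) * ra + θ * max (rb - K) ra = ra + θ * s := by
    intro θ
    rw [hmax]
    ring
  -- gaps from zero
  have hgap : ∀ θ ∈ reTh A, θ = 0 ∨ 2 ≤ θ * K := by
    intro θ hθ
    rcases (reTh_le hθ).1.eq_or_lt with h0 | h0
    · exact Or.inl h0.symm
    · right
      have h3 := reTh_gap (reTh_zero hA) hθ h0
      rw [sub_zero] at h3
      have h4 : θ * (2 * (A : ℚ) ^ 2) ≤ θ * K := mul_le_mul_of_nonneg_left hK h0.le
      linarith
  have Fa : reF A hA K ra rb ra = ra := by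
    refine le_antisymm (reF_le hA _ _ _ _ fun θ hθ => ?_) ?_
    · rcases hgap θ hθ with rfl | h3
      · refine (min_le_left _ _).trans ?_
        rw [hfirst]
        linarith
      · refine (min_le_right _ _).trans ?_
        linarith
    · refine le_trans ?_ (reF_ge hA K ra rb ra (reTh_zero hA))
      rw [hfirst]
      exact le_min (by linarith) (by linarith)
  have Flow : ∀ t, ra ≤ t → ra ≤ reF A hA K ra rb t := by
    intro t ht
    refine le_trans ?_ (reF_ge hA K ra rb t (reTh_zero hA))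
    rw [hfirst]
    exact le_min (by linarith) (by linarith)
  have Fhigh : ∀ t, reF A hA K ra rb t ≤ ra + s := by
    intro t
    refine reF_le hA _ _ _ _ fun θ hθ => (min_le_left _ _).trans ?_
    rw [hfirst]
    have := mul_le_mul_of_nonneg_right (reTh_le hθ).2 hs0
    linarith
  have Fb : reF A hA K ra rb rb = ra + s := by
    refine le_antisymm (Fhigh rb) ?_
    rcases hs0.eq_or_lt with h3 | h3
    · rw [← h3, add_zero]
      exact Flow rb (h1.trans h2)
    · refine le_trans ?_ (reF_ge hA K ra rb rb (reTh_one hA))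
      rw [hfirst]
      refine le_min (by linarith) ?_
      rw [← hmax]
      rcases le_total (rb - K) ra with h4 | h4
      · rw [max_eq_right h4] at hmax
        linarith
      · rw [max_eq_left h4]
        linarith
  obtain ⟨ξ, hξ⟩ : ∃ ξ, ξ = reF A hA K ra rb rc - ra := ⟨_, rfl⟩
  have hFc : reF A hA K ra rb rc = ra + ξ := by rw [hξ]; ring
  have ξ0 : 0 ≤ ξ := by
    have := Flow rc h1
    linarith
  have ξs : ξ ≤ s := by
    have := Fhigh rc
    linarith
  have hwq : (wa : ℚ) + wc + wb = 0 := by exact_mod_cast hw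
  have hgoal : reF A hA K ra rb ra * wa + reF A hA K ra rb rc * wc + reF A hA K ra rb rb * wb =
      ξ * wc + s * wb := by
    rw [Fa, Fb, hFc]
    linear_combination ra * hwq
  rw [hgoal]
  rcases hs0.eq_or_lt with h3 | h3
  · have : ξ = 0 := le_antisymm (by rw [← h3] at ξs; exact ξs) ξ0
    rw [this, ← h3]
    simp
  have hS : rb - ra = s + K := by
    rcases le_total (rb - K) ra with h4 | h4
    · rw [max_eq_right h4] at hmax
      linarith
    · rw [max_eq_left h4] at hmax
      linarith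
  obtain ⟨x, hx⟩ : ∃ x, x = rc - ra := ⟨_, rfl⟩
  obtain ⟨S, hSd⟩ : ∃ S, S = rb - ra := ⟨_, rfl⟩
  have hSK : S = s + K := by rw [hSd, hS]
  have x0 : 0 ≤ x := by rw [hx]; linarith
  have xS : x ≤ S := by rw [hx, hSd]; linarith
  have hxS : x * wc + S * wb ≤ 1 := by
    have e : x * wc + S * wb = ra * wa + rc * wc + rb * wb := by
      rw [hx, hSd]
      linear_combination (-ra) * hwq
    rw [e]
    exact h
  have S1 : 1 < S := by linarith
  rcases lt_trichotomy wb 0 with hb | hb | hb
  · rcases le_or_gt wc 0 with hcc | hcc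
    · have c1 : (wc : ℚ) ≤ 0 := by exact_mod_cast hcc
      have c2 : (wb : ℚ) ≤ 0 := by exact_mod_cast hb.le
      have c3 := mul_nonneg ξ0 (neg_nonneg.2 c1)
      have c4 := mul_nonneg hs0 (neg_nonneg.2 c2)
      linarith
    · -- `wb < 0 < wc`
      obtain ⟨q, hq⟩ : ∃ q : ℕ, (q : ℤ) = wc := ⟨wc.toNat, Int.toNat_of_nonneg hcc.le⟩
      obtain ⟨p, hp⟩ : ∃ p : ℕ, (p : ℤ) = -wb := ⟨(-wb).toNat, Int.toNat_of_nonneg (by omega)⟩
      have hq1 : 1 ≤ q := by omega
      have hqA : q ≤ A := by
        rw [← hq, Nat.abs_cast] at hc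
        exact_mod_cast hc
      have cq : (wc : ℚ) = q := by rw [← hq]; simp
      have cp : (wb : ℚ) = -p := by
        have : wb = -(p : ℤ) := by omega
        rw [this]
        simp
      have q0 : (0 : ℚ) < q := by exact_mod_cast hq1
      rw [cq, cp] at hxS ⊢
      rcases le_total q p with hqp | hpq
      · have c1 : (q : ℚ) ≤ p := by exact_mod_cast hqp
        have c2 : ξ * q ≤ s * p := mul_le_mul ξs c1 q0.le hs0
        linarith
      · have hθ : (p : ℚ) / q ∈ reTh A := reTh_mem hq1 hqA hpq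
        obtain ⟨θ', hθ'⟩ : ∃ θ' : ℚ, θ' = (p : ℚ) / q := ⟨_, rfl⟩
        rw [← hθ'] at hθ
        have hθq : θ' * q = p := by rw [hθ']; field_simp
        have hxle : x ≤ θ' * S + 1 := by
          have c1 : x * q ≤ (θ' * S + 1 / q) * q := by
            have c2 : (θ' * S + 1 / q) * q = (θ' * q) * S + 1 := by field_simp
            rw [c2, hθq]
            linarith
          have c3 := le_of_mul_le_mul_right c1 q0
          have c4 : (1 : ℚ) / q ≤ 1 := by
            rw [div_le_one q0]
            exact_mod_cast hq1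
          linarith
        have hF : reF A hA K ra rb rc ≤ ra + θ' * s := by
          refine reF_le hA _ _ _ _ fun θ hθm => ?_
          rcases le_or_gt θ θ' with hle | hlt
          · refine (min_le_left _ _).trans ?_
            rw [hfirst]
            have := mul_le_mul_of_nonneg_right hle hs0
            linarith
          · refine (min_le_right _ _).trans ?_
            have g1 := reTh_gap hθ hθm hlt
            have g2 : (θ - θ') * (2 * (A : ℚ) ^ 2) ≤ (θ - θ') * K :=
              mul_le_mul_of_nonneg_left hK (by linarith)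
            rw [hSK] at hxle
            have g3 : rc = ra + x := by rw [hx]; ring
            rw [g3]
            nlinarith
        have hξ' : ξ ≤ θ' * s := by linarith
        have c1 : ξ * q ≤ (θ' * s) * q := mul_le_mul_of_nonneg_right hξ' q0.le
        have c2 : (θ' * s) * q = s * p := by rw [← hθq]; ring
        linarith
  · -- `wb = 0`
    subst hb
    rcases le_or_gt wc 0 with hcc | hcc
    · have c1 : (wc : ℚ) ≤ 0 := by exact_mod_cast hcc
      have c3 := mul_nonneg ξ0 (neg_nonneg.2 c1)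
      push_cast
      linarith
    · have c1 : (1 : ℚ) ≤ wc := by exact_mod_cast hcc
      have c2 : x ≤ 1 := by
        have c3 : x * 1 ≤ x * wc := mul_le_mul_of_nonneg_left c1 x0
        push_cast at hxS
        linarith
      have hF : reF A hA K ra rb rc ≤ ra := by
        refine reF_le hA _ _ _ _ fun θ hθ => ?_
        rcases hgap θ hθ with rfl | h5
        · refine (min_le_left _ _).trans ?_
          rw [hfirst]
          linarith
        · refine (min_le_right _ _).trans ?_
          linarith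
      have : ξ = 0 := le_antisymm (by linarith) ξ0
      rw [this]
      simp
  · rcases le_or_gt 0 wc with hcc | hcc
    · exfalso
      have c1 : (0 : ℚ) ≤ wc := by exact_mod_cast hcc
      have c2 : (1 : ℚ) ≤ wb := by exact_mod_cast hb
      have c3 := mul_nonneg x0 c1
      have c4 : S * 1 ≤ S * wb := mul_le_mul_of_nonneg_left c2 (by linarith)
      linarith
    · -- `wc < 0 < wb`
      obtain ⟨q, hq⟩ : ∃ q : ℕ, (q : ℤ) = -wc := ⟨(-wc).toNat, Int.toNat_of_nonneg (by omega)⟩
      obtain ⟨p, hp⟩ : ∃ p : ℕ, (p : ℤ) = wb := ⟨wb.toNat, Int.toNat_of_nonneg hb.le⟩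
      have hq1 : 1 ≤ q := by omega
      have hqA : q ≤ A := by
        have e : |wc| = (q : ℤ) := by rw [abs_of_neg hcc, hq]
        rw [e] at hc
        exact_mod_cast hc
      have cq : (wc : ℚ) = -q := by
        have : wc = -(q : ℤ) := by omega
        rw [this]
        simp
      have cp : (wb : ℚ) = p := by rw [← hp]; simp
      have q0 : (0 : ℚ) < q := by exact_mod_cast hq1
      rw [cq, cp] at hxS ⊢
      rcases lt_or_ge q p with hqp | hpq
      · exfalso
        have c1 : (q : ℚ) + 1 ≤ p := by exact_mod_cast hqp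
        have c2 : x * q ≤ S * q := mul_le_mul_of_nonneg_right xS q0.le
        have c3 : S * (q + 1) ≤ S * p := mul_le_mul_of_nonneg_left c1 (by linarith)
        linarith
      · have hθ : (p : ℚ) / q ∈ reTh A := reTh_mem hq1 hqA hpq
        obtain ⟨θ', hθ'⟩ : ∃ θ' : ℚ, θ' = (p : ℚ) / q := ⟨_, rfl⟩
        rw [← hθ'] at hθ
        have hθq : θ' * q = p := by rw [hθ']; field_simp
        have hxge : θ' * S - 1 ≤ x := by
          have c1 : (θ' * S - 1 / q) * q ≤ x * q := by
            have c2 : (θ' * S - 1 / q) * q = (θ' * q) * S - 1 := by field_simp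
            rw [c2, hθq]
            linarith
          have c3 := le_of_mul_le_mul_right c1 q0
          have c4 : (1 : ℚ) / q ≤ 1 := by
            rw [div_le_one q0]
            exact_mod_cast hq1
          linarith
        have hF : ra + θ' * s ≤ reF A hA K ra rb rc := by
          refine le_trans ?_ (reF_ge hA K ra rb rc hθ)
          rw [hfirst]
          refine le_min le_rfl ?_
          rw [hSK] at hxge
          have g3 : rc = ra + x := by rw [hx]; ring
          rw [g3]
          nlinarith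
        have hξ' : θ' * s ≤ ξ := by linarith
        have c1 : (θ' * s) * q ≤ ξ * q := mul_le_mul_of_nonneg_right hξ' q0.le
        have c2 : (θ' * s) * q = s * p := by rw [← hθq]; ring
        linarith

/-- the map -/
noncomputable def rePhi (A : ℕ) (hA : 1 ≤ A) (K : ℚ) (r : Fin 3 → ℚ) (k : Fin 3) : ℚ :=
  reF A hA K (min (r 0) (min (r 1) (r 2))) (max (r 0) (max (r 1) (r 2))) (r k)

theorem rePhi_mono {A : ℕ} (hA : 1 ≤ A) (K : ℚ) {r r' : Fin 3 → ℚ} (h : ∀ k, r k ≤ r' k)
    (k : Fin 3) : rePhi A hA K r k ≤ rePhi A hA K r' k :=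
  reF_mono hA K (min_le_min (h 0) (min_le_min (h 1) (h 2)))
    (max_le_max (h 0) (max_le_max (h 1) (h 2))) (h k)

theorem rePhi_abs {A : ℕ} (hA : 1 ≤ A) {K : ℚ} (hK : 1 ≤ K) (r : Fin 3 → ℚ) (k : Fin 3) :
    |rePhi A hA K r k - r k| ≤ K := by
  have h1 := reF_upper hA (K := K) (by linarith) (min (r 0) (min (r 1) (r 2)))
    (max (r 0) (max (r 1) (r 2))) (r k)
  have hk : r k ≤ max (r 0) (max (r 1) (r 2)) := by
    fin_cases k
    · exact le_max_left _ _
    · exact (le_max_left _ _).trans (le_max_right _ _)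
    · exact (le_max_right _ _).trans (le_max_right _ _)
  have h2 := reF_lower hA (K := K) (m := min (r 0) (min (r 1) (r 2))) hk
  rw [abs_le]
  unfold rePhi
  constructor <;> linarith

theorem rePhi_main {A : ℕ} (hA : 1 ≤ A) {K : ℚ} (hK : 2 * (A : ℚ) ^ 2 ≤ K) {r : Fin 3 → ℚ}
    {w : Fin 3 → ℤ} (hw : w 0 + w 1 + w 2 = 0) (hc : ∀ k, |w k| ≤ A)
    (h : ∑ k, r k * w k ≤ 1) : ∑ k, rePhi A hA K r k * w k ≤ 0 := by
  rw [Fin.sum_univ_three] at h ⊢
  unfold rePhi
  rcases le_total (r 0) (r 1) with h01 | h01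
  · rcases le_total (r 1) (r 2) with h12 | h12
    · -- 0 1 2
      have e1 : min (r 0) (min (r 1) (r 2)) = r 0 := by
        rw [min_eq_left h12, min_eq_left h01]
      have e2 : max (r 0) (max (r 1) (r 2)) = r 2 := by
        rw [max_eq_right h12, max_eq_right (h01.trans h12)]
      rw [e1, e2]
      have := reF_sorted hA hK h01 h12 (wa := w 0) (wc := w 1) (wb := w 2) (by omega) (hc 1)
        (by linarith)
      linarith
    · rcases le_total (r 0) (r 2) with h02 | h02
      · -- 0 2 1
        have e1 : min (r 0) (min (r 1) (r 2)) = r 0 := by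
          rw [min_eq_right h12, min_eq_left h02]
        have e2 : max (r 0) (max (r 1) (r 2)) = r 1 := by
          rw [max_eq_left h12, max_eq_right h01]
        rw [e1, e2]
        have := reF_sorted hA hK h02 h12 (wa := w 0) (wc := w 2) (wb := w 1) (by omega) (hc 2)
          (by linarith)
        linarith
      · -- 2 0 1
        have e1 : min (r 0) (min (r 1) (r 2)) = r 2 := by
          rw [min_eq_right h12, min_eq_right h02]
        have e2 : max (r 0) (max (r 1) (r 2)) = r 1 := by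
          rw [max_eq_left h12, max_eq_right h01]
        rw [e1, e2]
        have := reF_sorted hA hK h02 h01 (wa := w 2) (wc := w 0) (wb := w 1) (by omega) (hc 0)
          (by linarith)
        linarith
  · rcases le_total (r 0) (r 2) with h02 | h02
    · -- 1 0 2
      have e1 : min (r 0) (min (r 1) (r 2)) = r 1 := by
        rw [min_eq_left (h01.trans h02), min_eq_right h01]
      have e2 : max (r 0) (max (r 1) (r 2)) = r 2 := by
        rw [max_eq_right (h01.trans h02), max_eq_right h02]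
      rw [e1, e2]
      have := reF_sorted hA hK h01 h02 (wa := w 1) (wc := w 0) (wb := w 2) (by omega) (hc 0)
        (by linarith)
      linarith
    · rcases le_total (r 1) (r 2) with h12 | h12
      · -- 1 2 0
        have e1 : min (r 0) (min (r 1) (r 2)) = r 1 := by
          rw [min_eq_left h12, min_eq_right h01]
        have e2 : max (r 0) (max (r 1) (r 2)) = r 0 := by
          rw [max_eq_right h12, max_eq_left h02]
        rw [e1, e2]
        have := reF_sorted hA hK h12 h02 (wa := w 1) (wc := w 2) (wb := w 0) (by omega) (hc 2)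
          (by linarith)
        linarith
      · -- 2 1 0
        have e1 : min (r 0) (min (r 1) (r 2)) = r 2 := by
          rw [min_eq_right h12, min_eq_right h02]
        have e2 : max (r 0) (max (r 1) (r 2)) = r 0 := by
          rw [max_eq_left h12, max_eq_left h01]
        rw [e1, e2]
        have := reF_sorted hA hK h12 h01 (wa := w 2) (wc := w 1) (wb := w 0) (by omega) (hc 1)
          (by linarith)
        linarith

theorem rePhi_zero {A : ℕ} (hA : 1 ≤ A) {K : ℚ} (hK : 2 * (A : ℚ) ^ 2 ≤ K) (k : Fin 3) :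
    rePhi A hA K (fun _ => 0) k = 0 := by
  have hK0 : 0 ≤ K := le_trans (by positivity) hK
  unfold rePhi
  have e1 : min (0 : ℚ) (min 0 0) = 0 := by simp
  have e2 : max (0 : ℚ) (max 0 0) = 0 := by simp
  rw [e1, e2]
  refine le_antisymm (reF_le hA _ _ _ _ fun θ hθ => (min_le_left _ _).trans ?_) ?_
  · have : max (0 - K) 0 = 0 := max_eq_right (by linarith)
    rw [this]
    simp
  · refine le_trans ?_ (reF_ge hA K 0 0 0 (reTh_zero hA))
    refine le_min ?_ (by norm_num)
    simp

end Pool.Agent.EE3
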