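import Pool.Agent.EE3.RePhi
import Pool.Agent.EEF.Farkas

/-!
# EE3 / Real3: the real relaxation of a scheme, with a bound which is linear in the number of items
-/

set_option autoImplicit false
set_option linter.unusedSectionVars false

namespace Pool.Agent.EE3

open Finset

private theorem re_tel (W : ℕ → ℚ) {m n : ℕ} (h : m ≤ n) :
    ∑ l ∈ Ico m n, (W l - W (l + 1)) = W m - W n := by
  induction n, h using Nat.le_induction with
  | base => simp
  | succ n h ih =>
    rw [Finset.sum_Ico_succ_top h, ih]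
    ring

private theorem re_abel (D r : ℕ → ℚ) (n : ℕ) :
    ∑ l ∈ range (n + 1), (D l - D (l + 1)) * r l =
      D 0 * r 0 + ∑ l ∈ range n, D (l + 1) * (r (l + 1) - r l) - D (n + 1) * r n := by
  induction n with
  | zero =>
    rw [sum_range_succ, sum_range_zero, sum_range_zero]
    ring
  | succ n ih =>
    rw [sum_range_succ, ih, sum_range_succ _ n]
    ring

/-- restricting a sum -/
private theorem re_restr {N l : ℕ} (g : ℕ → ℚ) (h : l ≤ N) :
    ∑ j ∈ range N, (if j < l then g j else 0) = ∑ j ∈ range l, g j := by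
  rw [← Finset.sum_filter]
  congr 1
  ext j
  simp only [mem_filter, mem_range]
  omega

private theorem re_restr' {N j : ℕ} (g : ℕ → ℚ) :
    ∑ l ∈ range N, (if j < l then g l else 0) = ∑ l ∈ Ico (j + 1) N, g l := by
  rw [← Finset.sum_filter]
  congr 1
  ext l
  simp only [mem_filter, mem_range, mem_Ico]
  omega

/-- the value of dual prices -/
private def reV (N : ℕ) (r : ℕ → Fin 3 → ℚ) (W : ℕ → Fin 3 → ℚ) : ℚ :=
  ∑ l ∈ range (N + 2), ∑ k, (W l k - W (l + 1) k) * r l k

private theorem reV_sub (N : ℕ) (r W W' : ℕ → Fin 3 → ℚ) :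
    reV N r W = reV N r W' + reV N r (fun l k => W l k - W' l k) := by
  unfold reV
  rw [← sum_add_distrib]
  refine sum_congr rfl fun l _ => ?_
  rw [← sum_add_distrib]
  exact sum_congr rfl fun k _ => by ring

/-- nonincreasing feasible prices have nonpositive value -/
private theorem reV_nonpos {N : ℕ} {r W v : ℕ → Fin 3 → ℚ} {a : ℕ → ℚ} (ha : ∀ j, 0 ≤ a j)
    (hr : ∀ l ≤ N + 1, ∀ k, r l k ≤ ∑ j ∈ range N, (if j < l then a j * v j k else 0))
    (hW : ∀ l ≤ N + 1, ∀ k, W (l + 1) k ≤ W l k) (hW0 : ∀ k, W (N + 2) k = 0)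
    (hv : ∀ j < N, ∑ k, W (j + 1) k * v j k ≤ 0) : reV N r W ≤ 0 := by
  have h1 : reV N r W ≤ ∑ l ∈ range (N + 2), ∑ k, (W l k - W (l + 1) k) *
      ∑ j ∈ range N, (if j < l then a j * v j k else 0) := by
    refine sum_le_sum fun l hl => sum_le_sum fun k _ => ?_
    have hl' : l ≤ N + 1 := by
      have := mem_range.1 hl
      omega
    exact mul_le_mul_of_nonneg_left (hr l hl' k) (by have := hW l hl' k; linarith)
  have h2 : ∑ l ∈ range (N + 2), ∑ k, (W l k - W (l + 1) k) *
      ∑ j ∈ range N, (if j < l then a j * v j k else 0) =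
      ∑ j ∈ range N, a j * ∑ k, W (j + 1) k * v j k := by
    calc ∑ l ∈ range (N + 2), ∑ k, (W l k - W (l + 1) k) *
        ∑ j ∈ range N, (if j < l then a j * v j k else 0)
        = ∑ l ∈ range (N + 2), ∑ k, ∑ j ∈ range N,
            (if j < l then (W l k - W (l + 1) k) * (a j * v j k) else 0) := by
          refine sum_congr rfl fun l _ => sum_congr rfl fun k _ => ?_
          rw [mul_sum]
          refine sum_congr rfl fun j _ => ?_
          rw [mul_ite, mul_zero]
      _ = ∑ j ∈ range N, ∑ k, ∑ l ∈ range (N + 2),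
            (if j < l then (W l k - W (l + 1) k) * (a j * v j k) else 0) := by
          rw [sum_congr rfl fun l _ => sum_comm (s := (univ : Finset (Fin 3))) (t := range N)
            (f := fun k j => if j < l then (W l k - W (l + 1) k) * (a j * v j k) else 0)]
          rw [sum_comm]
          refine sum_congr rfl fun j _ => ?_
          rw [sum_comm]
      _ = ∑ j ∈ range N, a j * ∑ k, W (j + 1) k * v j k := by
          refine sum_congr rfl fun j hj => ?_
          rw [mul_sum]
          refine sum_congr rfl fun k _ => ?_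
          rw [re_restr' (fun l => (W l k - W (l + 1) k) * (a j * v j k)), ← sum_mul,
            re_tel (fun l => W l k) (by have := mem_range.1 hj; omega), hW0, sub_zero]
          ring
  refine h1.trans ?_
  rw [h2]
  refine sum_nonpos fun j hj => ?_
  exact mul_nonpos_of_nonneg_of_nonpos (ha j) (hv j (mem_range.1 hj))

/-- bounded prices have bounded value -/
private theorem reV_bound {N : ℕ} {r D : ℕ → Fin 3 → ℚ} {δ R S : ℚ} {e : Fin 3 → ℚ} (hδ : 0 ≤ δ)
    (hD : ∀ l k, |D l k| ≤ δ) (hD0 : ∀ k, D (N + 2) k = 0) (h0 : ∀ k, |r 0 k| ≤ R)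
    (h1 : ∀ l < N, ∀ k, |r (l + 1) k - r l k| ≤ S) (h2 : ∀ k, |r (N + 1) k - r N k| ≤ e k) :
    reV N r D ≤ δ * (3 * R + 3 * (N * S) + ∑ k, e k) := by
  have key : ∀ k, ∑ l ∈ range (N + 2), (D l k - D (l + 1) k) * r l k ≤
      δ * (R + N * S + e k) := by
    intro k
    rw [re_abel (fun l => D l k) (fun l => r l k) (N + 1)]
    show D 0 k * r 0 k + ∑ l ∈ range (N + 1), D (l + 1) k * (r (l + 1) k - r l k) -
      D (N + 2) k * r (N + 1) k ≤ _
    rw [hD0, zero_mul, sub_zero, sum_range_succ]
    have g0 : D 0 k * r 0 k ≤ δ * R := by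
      refine (le_abs_self _).trans ?_
      rw [abs_mul]
      exact mul_le_mul (hD 0 k) (h0 k) (abs_nonneg _) hδ
    have g2 : D (N + 1) k * (r (N + 1) k - r N k) ≤ δ * e k := by
      refine (le_abs_self _).trans ?_
      rw [abs_mul]
      exact mul_le_mul (hD _ k) (h2 k) (abs_nonneg _) hδ
    have g1 : ∑ l ∈ range N, D (l + 1) k * (r (l + 1) k - r l k) ≤ N * (δ * S) := by
      have : ∑ l ∈ range N, D (l + 1) k * (r (l + 1) k - r l k) ≤ ∑ l ∈ range N, δ * S := by
        refine sum_le_sum fun l hl => (le_abs_self _).trans ?_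
        rw [abs_mul]
        exact mul_le_mul (hD _ k) (h1 l (mem_range.1 hl) k) (abs_nonneg _) hδ
      rw [sum_const, card_range, nsmul_eq_mul] at this
      exact this
    linarith
  unfold reV
  rw [sum_comm, Fin.sum_univ_three, Fin.sum_univ_three]
  have := key 0
  have := key 1
  have := key 2
  linarith

theorem real3 (N A H : ℕ) (lam : Fin 3 → ℕ) (hlam : ∀ k, 1 ≤ lam k ∧ lam k ≤ A)
    (u f b y : ℕ → Fin 3 → ℤ) (a : ℕ → ℕ)
    (ht : ∀ i < N, ∑ k, (lam k : ℤ) * u i k = 0)
    (hy : ∀ i < N, ∀ k, y (i + 1) k = y i k + f i k + a i * u i k)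
    (hu : ∀ i < N, ∀ k, |u i k| ≤ A) (hf : ∀ i < N, ∀ k, |f i k| ≤ A)
    (hb0 : ∀ i ≤ N, ∀ k, 0 ≤ b i k) (hbA : ∀ i ≤ N, ∀ k, b i k ≤ A)
    (hb : ∀ i ≤ N, ∀ k, b i k ≤ y i k) (hH : ∀ k, y 0 k ≤ H) :
    ∃ (a' : ℕ → ℚ) (z : ℕ → Fin 3 → ℚ), (∀ k, z 0 k = y 0 k) ∧ (∀ k, z N k = y N k) ∧
      (∀ i < N, ∀ k, z (i + 1) k = z i k + f i k + a' i * u i k) ∧
      (∀ i < N, 0 ≤ a' i) ∧ (∀ i < N, a i = 0 → a' i = 0) ∧
      (∀ i ≤ N, ∀ k, (b i k : ℚ) ≤ z i k) ∧
      ∑ i ∈ range N, a' i ≤ 100 * ((A : ℚ) + 1) ^ 8 * (H + N + 1) := by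
  classical
  have hA : 1 ≤ A := (hlam 0).1.trans (hlam 0).2
  have hAq : (1 : ℚ) ≤ A := by exact_mod_cast hA
  obtain ⟨vz, hvz⟩ : ∃ vz : ℕ → Fin 3 → ℤ, vz = fun i k => if a i = 0 then 0 else u i k :=
    ⟨_, rfl⟩
  have hvz0 : ∀ i k, a i = 0 → vz i k = 0 := fun i k h => by rw [hvz]; exact if_pos h
  have hvz1 : ∀ i k, a i ≠ 0 → vz i k = u i k := fun i k h => by rw [hvz]; exact if_neg h
  obtain ⟨v, hv⟩ : ∃ v : ℕ → Fin 3 → ℚ, v = fun i k => ((vz i k : ℤ) : ℚ) := ⟨_, rfl⟩
  have hvd : ∀ i k, v i k = ((vz i k : ℤ) : ℚ) := fun i k => by rw [hv]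
  have hav : ∀ i k, (a i : ℚ) * v i k = a i * u i k := by
    intro i k
    rw [hvd]
    by_cases h : a i = 0
    · rw [h]
      simp
    · rw [hvz1 i k h]
  obtain ⟨cF, hcF⟩ : ∃ cF : ℕ → Fin 3 → ℚ,
      cF = fun l k => (y 0 k : ℚ) + ∑ i ∈ range (min l N), (f i k : ℚ) := ⟨_, rfl⟩
  have hcFd : ∀ l k, cF l k = (y 0 k : ℚ) + ∑ i ∈ range (min l N), (f i k : ℚ) :=
    fun l k => by rw [hcF]
  obtain ⟨b', hb'⟩ : ∃ b' : ℕ → Fin 3 → ℚ, b' = fun l k => if l ≤ N then (b l k : ℚ) else y N k :=
    ⟨_, rfl⟩
  have hb'1 : ∀ l k, l ≤ N → b' l k = b l k := fun l k h => by rw [hb']; exact if_pos h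
  have hb'2 : ∀ k, b' (N + 1) k = y N k := fun k => by rw [hb']; exact if_neg (by omega)
  obtain ⟨r, hr⟩ : ∃ r : ℕ → Fin 3 → ℚ, r = fun l k => b' l k - cF l k := ⟨_, rfl⟩
  have hrd : ∀ l k, r l k = b' l k - cF l k := fun l k => by rw [hr]
  obtain ⟨bd, hbd⟩ : ∃ bd : ℚ, bd = 100 * ((A : ℚ) + 1) ^ 8 * (H + N + 1) := ⟨_, rfl⟩
  -- the given solution
  have hysum : ∀ l ≤ N, ∀ k, (y l k : ℚ) =
      (y 0 k : ℚ) + ∑ i ∈ range l, ((f i k : ℚ) + a i * u i k) := by
    intro l
    induction l with
    | zero =>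
      intro _ k
      rw [sum_range_zero, add_zero]
    | succ l ih =>
      intro hl k
      rw [sum_range_succ, ← add_assoc, ← ih (by omega) k, hy l (by omega) k]
      push_cast
      ring
  have hyc : ∀ l ≤ N, ∀ k, (y l k : ℚ) - cF l k =
      ∑ j ∈ range N, (if j < l then (a j : ℚ) * v j k else 0) := by
    intro l hl k
    rw [re_restr _ hl, hysum l hl k, hcFd, min_eq_left hl, sum_add_distrib]
    rw [sum_congr rfl fun j _ => hav j k]
    ring
  have hy0 : ∀ l ≤ N, ∀ k, 0 ≤ y l k := fun l hl k => (hb0 l hl k).trans (hb l hl k)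
  -- rows
  rcases Pool.Agent.EEF.farkas (range N) (ι := Option (ℕ × Fin 3))
      (insertNone ((range (N + 2)) ×ˢ (univ : Finset (Fin 3))))
      (fun o j => o.elim (-1) fun x => if j < x.1 then v j x.2 else 0)
      (fun o => o.elim (-bd) fun x => r x.1 x.2) with ⟨t, ht0, ht1⟩ | ⟨m, hm0, hm1, hm2⟩
  · obtain ⟨a', ha'⟩ : ∃ a' : ℕ → ℚ, a' = fun i => if a i = 0 then 0 else t i := ⟨_, rfl⟩
    have ha0 : ∀ i, a i = 0 → a' i = 0 := fun i h => by rw [ha']; exact if_pos h
    have ha1 : ∀ i, a i ≠ 0 → a' i = t i := fun i h => by rw [ha']; exact if_neg h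
    have hau : ∀ i k, a' i * u i k = v i k * t i := by
      intro i k
      rw [hvd]
      by_cases h : a i = 0
      · rw [ha0 i h, hvz0 i k h]
        simp
      · rw [ha1 i h, hvz1 i k h]
        ring
    have hann : ∀ i, 0 ≤ a' i := by
      intro i
      by_cases h : a i = 0
      · rw [ha0 i h]
      · rw [ha1 i h]
        exact ht0 i
    have hale : ∀ i, a' i ≤ t i := by
      intro i
      by_cases h : a i = 0
      · rw [ha0 i h]
        exact ht0 i
      · rw [ha1 i h]
    obtain ⟨z, hz⟩ : ∃ z : ℕ → Fin 3 → ℚ,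
        z = fun l k => (y 0 k : ℚ) + ∑ i ∈ range l, ((f i k : ℚ) + a' i * u i k) := ⟨_, rfl⟩
    have hzd : ∀ l k, z l k = (y 0 k : ℚ) + ∑ i ∈ range l, ((f i k : ℚ) + a' i * u i k) :=
      fun l k => by rw [hz]
    have hzc : ∀ l ≤ N, ∀ k, z l k - cF l k =
        ∑ j ∈ range N, (if j < l then v j k else 0) * t j := by
      intro l hl k
      have e1 : ∑ j ∈ range N, (if j < l then v j k else 0) * t j =
          ∑ j ∈ range N, (if j < l then v j k * t j else 0) := by
        refine sum_congr rfl fun j _ => ?_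
        rw [ite_mul, zero_mul]
      rw [e1, re_restr _ hl, hzd, hcFd, min_eq_left hl, sum_add_distrib]
      rw [sum_congr rfl fun j _ => hau j k]
      ring
    have hrow : ∀ l ≤ N, ∀ k, (b l k : ℚ) ≤ z l k := by
      intro l hl k
      have h1 := ht1 (some (l, k)) (some_mem_insertNone.2
        (mem_product.2 ⟨mem_range.2 (by omega), mem_univ _⟩))
      have h2 : r l k ≤ ∑ j ∈ range N, (if j < l then v j k else 0) * t j := h1
      rw [← hzc l hl k, hrd, hb'1 l k hl] at h2
      linarith
    have hrowN : ∀ k, (y N k : ℚ) ≤ z N k := by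
      intro k
      have h1 := ht1 (some (N + 1, k)) (some_mem_insertNone.2
        (mem_product.2 ⟨mem_range.2 (by omega), mem_univ _⟩))
      have h2 : r (N + 1) k ≤ ∑ j ∈ range N, (if j < N + 1 then v j k else 0) * t j := h1
      have h3 : ∑ j ∈ range N, (if j < N + 1 then v j k else 0) * t j =
          ∑ j ∈ range N, (if j < N then v j k else 0) * t j := by
        refine sum_congr rfl fun j hj => ?_
        have := mem_range.1 hj
        rw [if_pos (by omega), if_pos this]
      rw [h3, ← hzc N le_rfl k, hrd, hb'2] at h2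
      have h4 : cF (N + 1) k = cF N k := by
        rw [hcFd, hcFd, min_eq_right (by omega), min_self]
      rw [h4] at h2
      linarith
    have hlamz : ∀ c : ℕ → ℚ, ∑ k, (lam k : ℚ) * ∑ i ∈ range N, ((f i k : ℚ) + c i * u i k) =
        ∑ k, (lam k : ℚ) * ∑ i ∈ range N, (f i k : ℚ) := by
      intro c
      have e1 : ∑ k, (lam k : ℚ) * ∑ i ∈ range N, c i * (u i k : ℚ) = 0 := by
        calc ∑ k, (lam k : ℚ) * ∑ i ∈ range N, c i * (u i k : ℚ)
            = ∑ i ∈ range N, c i * ∑ k, (lam k : ℚ) * u i k := by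
              simp_rw [mul_sum]
              rw [sum_comm]
              exact sum_congr rfl fun i _ => sum_congr rfl fun k _ => by ring
          _ = 0 := by
              refine sum_eq_zero fun i hi => ?_
              have h1 := ht i (mem_range.1 hi)
              have h2 : ∑ k, (lam k : ℚ) * u i k = 0 := by exact_mod_cast h1
              rw [h2, mul_zero]
      simp_rw [sum_add_distrib, mul_add]
      rw [sum_add_distrib, e1, add_zero]
    have hzN : ∀ k, z N k = y N k := by
      have h1 : ∑ k, (lam k : ℚ) * (z N k - y N k) = 0 := by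
        have e1 : ∀ k, (lam k : ℚ) * (z N k - y N k) =
            (lam k : ℚ) * ∑ i ∈ range N, ((f i k : ℚ) + a' i * u i k) -
            (lam k : ℚ) * ∑ i ∈ range N, ((f i k : ℚ) + a i * u i k) := by
          intro k
          rw [hzd, hysum N le_rfl k]
          ring
        rw [sum_congr rfl fun k _ => e1 k, sum_sub_distrib, hlamz a', hlamz fun i => (a i : ℚ),
          sub_self]
      have h2 : ∀ k ∈ (univ : Finset (Fin 3)), 0 ≤ (lam k : ℚ) * (z N k - y N k) := fun k _ =>
        mul_nonneg (Nat.cast_nonneg _) (by have := hrowN k; linarith)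
      intro k
      have h3 := (sum_eq_zero_iff_of_nonneg h2).1 h1 k (mem_univ _)
      have h4 : (lam k : ℚ) ≠ 0 := by
        have := (hlam k).1
        exact_mod_cast (by omega : lam k ≠ 0)
      have h5 := (mul_eq_zero.1 h3).resolve_left h4
      linarith
    refine ⟨a', z, fun k => by rw [hzd]; simp, hzN, fun i _ k => ?_, fun i _ => hann i,
      fun i _ h => ha0 i h, hrow, ?_⟩
    · rw [hzd, hzd, sum_range_succ]
      ring
    · have h1 := ht1 none none_mem_insertNone
      have h2 : -bd ≤ ∑ j ∈ range N, (-1 : ℚ) * t j := h1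
      rw [← mul_sum] at h2
      have h3 : ∑ i ∈ range N, a' i ≤ ∑ i ∈ range N, t i := sum_le_sum fun i _ => hale i
      rw [← hbd]
      linarith
  · exfalso
    obtain ⟨τ, hτ⟩ : ∃ τ, τ = m none := ⟨_, rfl⟩
    have hτ0 : 0 ≤ τ := by rw [hτ]; exact hm0 _
    obtain ⟨W, hW⟩ : ∃ W : ℕ → Fin 3 → ℚ,
        W = fun l k => ∑ l' ∈ Ico l (N + 2), m (some (l', k)) := ⟨_, rfl⟩
    have hWd : ∀ l k, W l k = ∑ l' ∈ Ico l (N + 2), m (some (l', k)) := fun l k => by rw [hW]
    have hWs : ∀ l < N + 2, ∀ k, W l k - W (l + 1) k = m (some (l, k)) := by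
      intro l hl k
      rw [hWd, hWd, Finset.sum_eq_sum_Ico_succ_bot hl]
      ring
    have hWmono : ∀ l ≤ N + 1, ∀ k, W (l + 1) k ≤ W l k := by
      intro l hl k
      have h1 := hWs l (by omega) k
      have h2 := hm0 (some (l, k))
      linarith
    have hWend : ∀ k, W (N + 2) k = 0 := by
      intro k
      rw [hWd, Ico_self, sum_empty]
    -- feasibility
    have hfeas : ∀ j < N, ∑ k, W (j + 1) k * v j k ≤ τ := by
      intro j hj
      have h1 := hm1 j (mem_range.2 hj)
      rw [sum_insertNone] at h1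
      have h2 : m none * (-1) + ∑ x ∈ (range (N + 2)) ×ˢ (univ : Finset (Fin 3)),
          m (some x) * (if j < x.1 then v j x.2 else 0) ≤ 0 := h1
      rw [sum_product, sum_comm] at h2
      have h3 : ∀ k, ∑ l ∈ range (N + 2), m (some (l, k)) * (if j < l then v j k else 0) =
          W (j + 1) k * v j k := by
        intro k
        rw [hWd, sum_mul, ← re_restr' (fun l => m (some (l, k)) * v j k)]
        refine sum_congr rfl fun l _ => ?_
        rw [mul_ite, mul_zero]
      have h4 : ∑ k, ∑ l ∈ range (N + 2), m (some (l, k)) * (if j < l then v j k else 0) =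
          ∑ k, W (j + 1) k * v j k := sum_congr rfl fun k _ => h3 k
      have h5 : m none * (-1) + ∑ k, ∑ l ∈ range (N + 2),
          m (some (l, k)) * (if j < l then v j k else 0) ≤ 0 := h2
      rw [h4, ← hτ] at h5
      linarith
    -- value
    have hval : τ * bd < reV N r W := by
      have h1 := hm2
      rw [sum_insertNone] at h1
      have h2 : 0 < m none * (-bd) + ∑ x ∈ (range (N + 2)) ×ˢ (univ : Finset (Fin 3)),
          m (some x) * r x.1 x.2 := h1
      rw [sum_product] at h2
      have h3 : ∑ l ∈ range (N + 2), ∑ k, m (some (l, k)) * r l k = reV N r W := by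
        unfold reV
        refine sum_congr rfl fun l hl => sum_congr rfl fun k _ => ?_
        rw [hWs l (mem_range.1 hl) k]
      have h4 : 0 < m none * (-bd) + ∑ l ∈ range (N + 2), ∑ k, m (some (l, k)) * r l k := h2
      rw [h3, ← hτ] at h4
      linarith
    -- the bound for r
    have hrg : ∀ l ≤ N + 1, ∀ k,
        r l k ≤ ∑ j ∈ range N, (if j < l then (a j : ℚ) * v j k else 0) := by
      intro l hl k
      rw [hrd]
      rcases Nat.lt_or_ge N l with h | h
      · have hlN : l = N + 1 := by omega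
        subst hlN
        rw [hb'2]
        have e1 : cF (N + 1) k = cF N k := by
          rw [hcFd, hcFd, min_eq_right (by omega), min_self]
        have e2 : ∑ j ∈ range N, (if j < N + 1 then (a j : ℚ) * v j k else 0) =
            ∑ j ∈ range N, (if j < N then (a j : ℚ) * v j k else 0) := by
          refine sum_congr rfl fun j hj => ?_
          have := mem_range.1 hj
          rw [if_pos (by omega), if_pos this]
        rw [e1, e2, ← hyc N le_rfl k]
      · rw [hb'1 l k h, ← hyc l h k]
        have : (b l k : ℚ) ≤ y l k := by exact_mod_cast hb l h k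
        linarith
    rcases hτ0.eq_or_lt with hτz | hτp
    · have h1 := reV_nonpos (a := fun j => (a j : ℚ)) (fun j => Nat.cast_nonneg _) hrg hWmono hWend
        (fun j hj => by rw [hτz]; exact hfeas j hj)
      rw [← hτz, zero_mul] at hval
      linarith
    · -- the prices after the map
      have hA' : 1 ≤ A ^ 2 := Nat.one_le_pow _ _ (by omega)
      obtain ⟨K, hK⟩ : ∃ K : ℚ, K = 2 * ((A ^ 2 : ℕ) : ℚ) ^ 2 := ⟨_, rfl⟩
      have hK4 : K = 2 * (A : ℚ) ^ 4 := by
        rw [hK]
        push_cast
        ring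
      have hK1 : 1 ≤ K := by
        have : (1 : ℚ) ≤ (A : ℚ) ^ 4 := one_le_pow₀ hAq
        linarith
      have lamp : ∀ k, (0 : ℚ) < lam k := fun k => by
        have := (hlam k).1
        exact_mod_cast this
      obtain ⟨R, hR⟩ : ∃ R : ℕ → Fin 3 → ℚ, R = fun l k => W l k / (lam k * τ) := ⟨_, rfl⟩
      have hRd : ∀ l k, R l k = W l k / (lam k * τ) := fun l k => by rw [hR]
      have hRW : ∀ l k, W l k = τ * lam k * R l k := by
        intro l k
        rw [hRd]
        have := (lamp k).ne'
        have := hτp.ne'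
        field_simp
      obtain ⟨W', hW'⟩ : ∃ W' : ℕ → Fin 3 → ℚ,
          W' = fun l k => τ * lam k * rePhi (A ^ 2) hA' K (R l) k := ⟨_, rfl⟩
      have hW'd : ∀ l k, W' l k = τ * lam k * rePhi (A ^ 2) hA' K (R l) k := fun l k => by
        rw [hW']
      have hc1 : ∀ l ≤ N + 1, ∀ k, W' (l + 1) k ≤ W' l k := by
        intro l hl k
        rw [hW'd, hW'd]
        refine mul_le_mul_of_nonneg_left (rePhi_mono hA' K (fun k => ?_) k)
          (mul_nonneg hτ0 (lamp k).le)
        rw [hRd, hRd]
        exact div_le_div_of_nonneg_right (hWmono l hl k) (mul_nonneg (lamp k).le hτ0)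
      have hc2 : ∀ k, W' (N + 2) k = 0 := by
        intro k
        rw [hW'd]
        have : R (N + 2) = fun _ => 0 := by
          funext k
          rw [hRd, hWend, zero_div]
        rw [this, rePhi_zero hA' (by rw [hK]), mul_zero]
      have hc3 : ∀ j < N, ∑ k, W' (j + 1) k * v j k ≤ 0 := by
        intro j hj
        have h1 : ∑ k, rePhi (A ^ 2) hA' K (R (j + 1)) k * ((lam k * vz j k : ℤ) : ℚ) ≤ 0 := by
          refine rePhi_main hA' (by rw [hK]) ?_ ?_ ?_
          · have h2 := ht j hj
            rw [Fin.sum_univ_three] at h2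
            by_cases h : a j = 0
            · rw [hvz0 j 0 h, hvz0 j 1 h, hvz0 j 2 h]
              simp
            · rw [hvz1 j 0 h, hvz1 j 1 h, hvz1 j 2 h]
              exact h2
          · intro k
            rw [abs_mul]
            have h3 : |(lam k : ℤ)| ≤ A := by
              rw [Nat.abs_cast]
              exact_mod_cast (hlam k).2
            have h4 : |vz j k| ≤ A := by
              by_cases h : a j = 0
              · rw [hvz0 j k h, abs_zero]
                exact Int.natCast_nonneg _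
              · rw [hvz1 j k h]
                exact hu j hj k
            have h5 := mul_le_mul h3 h4 (abs_nonneg _) (Int.natCast_nonneg A)
            refine h5.trans (le_of_eq ?_)
            push_cast
            ring
          · have h3 := hfeas j hj
            have h4 : τ * ∑ k, R (j + 1) k * ((lam k * vz j k : ℤ) : ℚ) ≤ τ * 1 := by
              rw [mul_sum, mul_one]
              refine le_trans (le_of_eq ?_) h3
              refine sum_congr rfl fun k _ => ?_
              rw [hRW, hvd]
              push_cast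
              ring
            exact le_of_mul_le_mul_left h4 hτp
        have h2 : ∑ k, W' (j + 1) k * v j k =
            τ * ∑ k, rePhi (A ^ 2) hA' K (R (j + 1)) k * ((lam k * vz j k : ℤ) : ℚ) := by
          rw [mul_sum]
          refine sum_congr rfl fun k _ => ?_
          rw [hW'd, hvd]
          push_cast
          ring
        rw [h2]
        exact mul_nonpos_of_nonneg_of_nonpos hτ0 h1
      have h1 := reV_nonpos (a := fun j => (a j : ℚ)) (fun j => Nat.cast_nonneg _) hrg hc1 hc2 hc3
      -- the difference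
      have hδ : (0 : ℚ) ≤ τ * (A * K) := by positivity
      have hD : ∀ l k, |W l k - W' l k| ≤ τ * (A * K) := by
        intro l k
        have e1 : W l k - W' l k = -(τ * lam k * (rePhi (A ^ 2) hA' K (R l) k - R l k)) := by
          rw [hW'd, hRW l k]
          ring
        rw [e1, abs_neg, abs_mul, abs_of_nonneg (mul_nonneg hτ0 (lamp k).le)]
        have h3 := rePhi_abs hA' hK1 (R l) k
        have h4 : (lam k : ℚ) ≤ A := by exact_mod_cast (hlam k).2
        calc τ * lam k * |rePhi (A ^ 2) hA' K (R l) k - R l k| ≤ τ * lam k * K :=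
              mul_le_mul_of_nonneg_left h3 (mul_nonneg hτ0 (lamp k).le)
          _ = τ * (lam k * K) := by ring
          _ ≤ τ * (A * K) :=
              mul_le_mul_of_nonneg_left (mul_le_mul_of_nonneg_right h4 (by linarith)) hτ0
      have hr0 : ∀ k, |r 0 k| ≤ (H : ℚ) := by
        intro k
        rw [hrd, hb'1 0 k (Nat.zero_le _), hcFd, min_eq_left (Nat.zero_le _), sum_range_zero,
          add_zero, abs_le]
        have g1 : (0 : ℚ) ≤ b 0 k := by exact_mod_cast hb0 0 (Nat.zero_le _) k
        have g2 : (b 0 k : ℚ) ≤ y 0 k := by exact_mod_cast hb 0 (Nat.zero_le _) k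
        have g3 : (y 0 k : ℚ) ≤ H := by exact_mod_cast hH k
        constructor <;> linarith
      have hr1 : ∀ l < N, ∀ k, |r (l + 1) k - r l k| ≤ 2 * (A : ℚ) := by
        intro l hl k
        rw [hrd, hrd, hb'1 _ k hl, hb'1 l k hl.le, hcFd, hcFd, min_eq_left (show l + 1 ≤ N from hl),
          min_eq_left hl.le, sum_range_succ, abs_le]
        have g1 : (0 : ℚ) ≤ b l k := by exact_mod_cast hb0 l hl.le k
        have g2 : (b l k : ℚ) ≤ A := by exact_mod_cast hbA l hl.le k
        have g3 : (0 : ℚ) ≤ b (l + 1) k := by exact_mod_cast hb0 (l + 1) hl k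
        have g4 : (b (l + 1) k : ℚ) ≤ A := by exact_mod_cast hbA (l + 1) hl k
        have g5 := abs_le.1 (hf l hl k)
        have g6 : (-(A : ℚ)) ≤ f l k := by exact_mod_cast g5.1
        have g7 : (f l k : ℚ) ≤ A := by exact_mod_cast g5.2
        constructor <;> linarith
      have hr2 : ∀ k, |r (N + 1) k - r N k| ≤ (y N k : ℚ) := by
        intro k
        have e1 : cF (N + 1) k = cF N k := by
          rw [hcFd, hcFd, min_eq_right (by omega), min_self]
        rw [hrd, hrd, hb'2, hb'1 N k le_rfl, e1, abs_le]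
        have g1 : (0 : ℚ) ≤ b N k := by exact_mod_cast hb0 N le_rfl k
        have g2 : (b N k : ℚ) ≤ y N k := by exact_mod_cast hb N le_rfl k
        constructor <;> linarith
      have h2 := reV_bound (r := r) (D := fun l k => W l k - W' l k) hδ hD
        (fun k => by rw [hWend, hc2, sub_zero]) hr0 hr1 hr2
      have h3 := reV_sub N r W W'
      -- the final configuration
      have hyN : ∑ k, (y N k : ℚ) ≤ 3 * A * H + N * (3 * (A : ℚ) ^ 2) := by
        have g1 : ∑ k, (y N k : ℚ) ≤ ∑ k, (lam k : ℚ) * y N k := by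
          refine sum_le_sum fun k _ => ?_
          have g2 : (0 : ℚ) ≤ y N k := by exact_mod_cast hy0 N le_rfl k
          have g3 : (1 : ℚ) ≤ lam k := by exact_mod_cast (hlam k).1
          nlinarith
        have g4 : ∀ l ≤ N, ∑ k, (lam k : ℚ) * y l k ≤ 3 * A * H + l * (3 * (A : ℚ) ^ 2) := by
          intro l
          induction l with
          | zero =>
            intro _
            have g5 : ∀ k, (lam k : ℚ) * y 0 k ≤ A * H := by
              intro k
              have g6 : (lam k : ℚ) ≤ A := by exact_mod_cast (hlam k).2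
              have g7 : (y 0 k : ℚ) ≤ H := by exact_mod_cast hH k
              have g8 : (0 : ℚ) ≤ y 0 k := by exact_mod_cast hy0 0 (Nat.zero_le _) k
              exact mul_le_mul g6 g7 g8 (Nat.cast_nonneg _)
            rw [Fin.sum_univ_three]
            have := g5 0
            have := g5 1
            have := g5 2
            push_cast
            linarith
          | succ l ih =>
            intro hl
            have g5 := ih (by omega)
            have g6 : ∑ k, (lam k : ℚ) * y (l + 1) k =
                ∑ k, (lam k : ℚ) * y l k + ∑ k, (lam k : ℚ) * f l k +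
                  a l * ∑ k, (lam k : ℚ) * u l k := by
              rw [mul_sum, ← sum_add_distrib, ← sum_add_distrib]
              refine sum_congr rfl fun k _ => ?_
              rw [hy l (by omega) k]
              push_cast
              ring
            have g7 : ∑ k, (lam k : ℚ) * u l k = 0 := by exact_mod_cast ht l (by omega)
            have g8 : ∀ k, (lam k : ℚ) * f l k ≤ (A : ℚ) ^ 2 := by
              intro k
              have e6 : (lam k : ℚ) ≤ A := by exact_mod_cast (hlam k).2
              have e7 : (f l k : ℚ) ≤ A := by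
                exact_mod_cast (abs_le.1 (hf l (by omega) k)).2
              calc (lam k : ℚ) * f l k ≤ lam k * A := mul_le_mul_of_nonneg_left e7 (lamp k).le
                _ ≤ A * A := mul_le_mul_of_nonneg_right e6 (Nat.cast_nonneg _)
                _ = (A : ℚ) ^ 2 := by ring
            have g9 : ∑ k, (lam k : ℚ) * f l k ≤ 3 * (A : ℚ) ^ 2 := by
              rw [Fin.sum_univ_three]
              have := g8 0
              have := g8 1
              have := g8 2
              linarith
            rw [g6, g7, mul_zero, add_zero]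
            push_cast
            linarith
        exact g1.trans (g4 N le_rfl)
      have hN0 : (0 : ℚ) ≤ N := Nat.cast_nonneg _
      have hH0 : (0 : ℚ) ≤ H := Nat.cast_nonneg _
      have h4 : τ * (A * K) * (3 * (H : ℚ) + 3 * (N * (2 * (A : ℚ))) + ∑ k, (y N k : ℚ)) ≤
          τ * bd := by
        rw [mul_assoc τ]
        refine mul_le_mul_of_nonneg_left ?_ hτ0
        have g1 : 3 * (H : ℚ) + 3 * (N * (2 * (A : ℚ))) + ∑ k, (y N k : ℚ) ≤
            9 * (A : ℚ) ^ 2 * (H + N + 1) := by
          have c1 : (A : ℚ) ≤ (A : ℚ) ^ 2 := by nlinarith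
          have c2 : (1 : ℚ) ≤ (A : ℚ) ^ 2 := one_le_pow₀ hAq
          have c3 : 1 * (H : ℚ) ≤ (A : ℚ) ^ 2 * H := mul_le_mul_of_nonneg_right c2 hH0
          have c4 : (A : ℚ) * N ≤ (A : ℚ) ^ 2 * N := mul_le_mul_of_nonneg_right c1 hN0
          have c5 : (A : ℚ) * H ≤ (A : ℚ) ^ 2 * H := mul_le_mul_of_nonneg_right c1 hH0
          nlinarith
        have g2 : (A : ℚ) ^ 7 ≤ ((A : ℚ) + 1) ^ 8 := by
          calc (A : ℚ) ^ 7 ≤ ((A : ℚ) + 1) ^ 7 := by gcongr; linarith
            _ ≤ ((A : ℚ) + 1) ^ 8 := pow_le_pow_right₀ (by linarith) (by norm_num)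
        calc (A : ℚ) * K * (3 * (H : ℚ) + 3 * (N * (2 * (A : ℚ))) + ∑ k, (y N k : ℚ))
            ≤ (A : ℚ) * K * (9 * (A : ℚ) ^ 2 * (H + N + 1)) :=
              mul_le_mul_of_nonneg_left g1 (by positivity)
          _ = 18 * (A : ℚ) ^ 7 * (H + N + 1) := by rw [hK4]; ring
          _ ≤ 100 * ((A : ℚ) + 1) ^ 8 * (H + N + 1) := by
              refine mul_le_mul_of_nonneg_right ?_ (by positivity)
              have c6 : (0 : ℚ) ≤ (A : ℚ) ^ 7 := by positivity
              linarith
          _ = bd := hbd.symm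
      linarith

end Pool.Agent.EE3
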