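import Pool.Agent.EE3.Perm
import Pool.Agent.EE3.Edge

/-!
# EE3 / Scc3: one component of a VASS with three counters
-/

set_option autoImplicit false
set_option linter.unusedSectionVars false

namespace Pool.Agent.EE3

open Pool.Agent.EEF Pool.Agent.REV Pool.Agent.EE2 Finset

variable {Q : Type}

theorem rlz_word {d : ℕ} {T : VASS Q d} {p q : Q} {x : Vec d} {w : List (Vec d)}
    (hw : Walk T p w q) (hok : Ok x w) : Rlz T p x w.sum q (w.length + 1) := by
  refine ⟨[(w, [], 0)], .cons hw (.nil _) (.nil _), ?_, ?_, ?_⟩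
  · rw [unroll_cons, unroll_nil, wrd, rep_zero, List.append_nil, List.append_nil]
    exact hok
  · rw [unroll_cons, unroll_nil, wrd, rep_zero, List.append_nil, List.append_nil]
  · simp [schemeSize, isk]

variable {T : VASS Q 3}

theorem fin_three (T : VASS Q 3) (p₀ : Q) : Module.finrank ℚ (VS T p₀) ≤ 3 := by
  refine (Submodule.finrank_le _).trans ?_
  rw [Module.finrank_fintype_fun_eq_card, Fintype.card_fin]

/-- size of the schemes in one component -/
def cS3 (n M : ℕ) : ℕ :=
  cEdge n (cH n M) M + cTot (n * (cI n M + 1)) 3 M + n * (cI n M + 1) + 4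

/-- a run in one component is realized by a small scheme, or a small scheme makes all counters
large -/
theorem scc3 [Fintype Q] {p₀ : Q} (hmov : ∀ k, Mov T p₀ k) {p q : Q} {x : Vec 3}
    {w : List (Vec 3)} (h : PW T (fun r y => InS T p₀ r ∧ 0 ≤ y) p x w q) :
    Rlz T p x w.sum q (cS3 (Fintype.card Q) (maxNorm T)) ∨
    ∃ r z, InS T p₀ r ∧ Rlz T p x z r (cS3 (Fintype.card Q) (maxNorm T)) ∧
      ∀ j, (cI (Fintype.card Q) (maxNorm T) : ℤ) ≤ (x + z) j := by
  classical
  obtain ⟨n, hn⟩ : ∃ n, n = Fintype.card Q := ⟨_, rfl⟩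
  obtain ⟨M, hM⟩ : ∃ M, M = maxNorm T := ⟨_, rfl⟩
  obtain ⟨B, hB⟩ : ∃ B, B = cI n M := ⟨_, rfl⟩
  obtain ⟨H, hH⟩ : ∃ H, H = cH n M := ⟨_, rfl⟩
  have hHB : H = B + M * (n * (B + 1) + 1) + 1 := by rw [hH, hB]; rfl
  have hS : cS3 n M = cEdge n H M + cTot (n * (B + 1)) 3 M + n * (B + 1) + 4 := by
    rw [hH, hB]; rfl
  rw [← hn, ← hM, ← hB, hS]
  rcases h.firstBad (fun _ y => Cor3 H y) with h1 | ⟨u₁, u₂, r, rfl, h2, h3, h4, h5⟩
  · left
    have h6 := edge3 hmov H (h1.mono fun r y hy => ⟨hy.1.1, hy.1.2, hy.2⟩)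
    rw [← hn, ← hM] at h6
    exact h6.mono (by omega)
  · -- the first part
    have hpre : Rlz T p x u₁.sum r (cEdge n H M + 2) := by
      rcases h5 with ⟨rfl, rfl⟩ | ⟨u₀, v, r₀, rfl, h6, h7⟩
      · exact (Rlz.nil _ _).mono (Nat.zero_le _)
      · have h8 := edge3 hmov H (h6.mono fun r y hy => ⟨hy.1.1, hy.1.2, hy.2⟩)
        rw [← hn, ← hM] at h8
        rw [List.sum_append, List.sum_singleton]
        refine h8.append (Rlz.step h7 ?_)
        have := h2.2
        rwa [List.sum_append, List.sum_singleton, ← add_assoc] at this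
    by_cases hint : ∀ j, (B : ℤ) ≤ (x + u₁.sum) j
    · exact Or.inr ⟨r, u₁.sum, h2.1, hpre.mono (by omega), hint⟩
    · push Not at hint
      obtain ⟨k, hk⟩ := hint
      have hHB' : (B : ℤ) ≤ H := by
        rw [hHB]
        exact_mod_cast (by omega : B ≤ B + M * (n * (B + 1) + 1) + 1)
      have hoth : ∀ j, j ≠ k → ((B + maxNorm T * (Fintype.card Q * (B + 1) + 1) : ℕ) : ℤ) ≤
          (x + u₁.sum) j := by
        intro j hj
        rw [← hn, ← hM]
        by_contra hc
        push Not at hc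
        refine h3 ⟨j, k, hj, ?_, by linarith⟩
        rw [hHB]
        push_cast at hc ⊢
        linarith
      rcases perm3 B h4 hk.le hoth with h6 | ⟨r', z, h7, h8, h9, h10, h11⟩
      · left
        have h7 := wall3 (fin_three T p₀) (hmov k) B h6
        rw [← hn, ← hM] at h7
        rw [List.sum_append]
        exact (hpre.append h7).mono (by omega)
      · right
        rw [← hn] at h11
        refine ⟨r', u₁.sum + z.sum, h7, (hpre.append (rlz_word h8 h9)).mono (by omega), fun j => ?_⟩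
        rw [← add_assoc]
        exact h10 j

end Pool.Agent.EE3
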