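import Pool.Agent.EE3.Quad

/-!
# EE3 / SeqDefs: VASS each of whose strongly connected components changes at most three counters
-/

set_option autoImplicit false
set_option linter.unusedSectionVars false

namespace Pool.Agent.EE3

open Pool.Agent.EEF Pool.Agent.REV Pool.Agent.EE2 Finset

/-- the closed walks through `p` change at most three counters -/
def ThreeAt {Q : Type} {d : ℕ} (T : VASS Q d) (p : Q) : Prop :=
  ∃ K : Finset (Fin d), K.card ≤ 3 ∧ ∀ w, Walk T p w p → ∀ k, k ∉ K → w.sum k = 0

/-- counter `k` is changed by some closed walk -/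
def MovedBy {Q : Type} {d : ℕ} (T : VASS Q d) (k : Fin d) : Prop :=
  ∃ p w, Walk T p w p ∧ w.sum k ≠ 0

open Classical in
/-- the number of counters which are changed by closed walks -/
noncomputable def kap {Q : Type} {d : ℕ} (T : VASS Q d) : ℕ :=
  (univ.filter fun k => MovedBy T k).card

/-- all components in turn, for any property of the configurations -/
theorem chain_boxD {Q : Type} [Fintype Q] {d : ℕ} {T : VASS Q d} {P : Vec d → Prop}
    (hP : ∀ z, P z → 0 ≤ z) (L : ℕ)
    (hL : ∀ (p p' : Q) (x : Vec d) (w : List (Vec d)), Reach T p' p →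
      PW T (fun _ z => P z) p x w p' →
      ∃ w', Walk T p w' p' ∧ Ok x w' ∧ w.sum ≤ w'.sum ∧ w'.length ≤ L) : ∀ (n : ℕ)
    {S : Finset Q}, S.card ≤ n → ∀ {p q : Q} {x : Vec d} {w : List (Vec d)}, WalkIn T S p w q →
    PW T (fun _ z => P z) p x w q →
    ∃ w', Walk T p w' q ∧ Ok x w' ∧ w.sum ≤ w'.sum ∧ w'.length ≤ n * (L + 1) := by
  classical
  intro n
  induction n with
  | zero =>
    intro S hS p q x w h _
    have : S = ∅ := Finset.card_eq_zero.1 (Nat.le_zero.1 hS)
    have h' := h.start
    rw [this] at h'
    simp at h'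
  | succ n ih =>
    intro S hS p q x w h hpw
    have hexp : (n + 1) * (L + 1) = n * (L + 1) + (L + 1) := by ring
    have hpp : Reach T p p := ⟨[], .nil p⟩
    by_cases hq : Reach T q p
    · obtain ⟨w', h1, h2, h3, h4⟩ := hL _ _ _ _ hq hpw
      exact ⟨w', h1, h2, h3, by rw [hexp]; omega⟩
    · obtain ⟨u, v, p₂, p₃, w₂, rfl, h1, h2, h3, h4⟩ := leave hq h hpp
      obtain ⟨q', h5, h6⟩ := hpw.split
      have h7 := pw_transfer (P := P) h5 h1
      obtain ⟨u', a1, a2, a3, a4⟩ := hL _ _ _ _ h2 h7
      have h8 := pw_transfer (P := P) h6 (.cons h3 h4.walk)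
      cases h8 with
      | cons h9 h10 h11 =>
        have h12 := pw_transfer (P := P) h11 h4.walk
        have hcard : (S.erase p).card ≤ n := by
          rw [card_erase_of_mem h.start]
          omega
        obtain ⟨w₂', b1, b2, b3, b4⟩ := ih hcard h4 h12
        have hle : x + u.sum + v ≤ x + u'.sum + v :=
          add_le_add_left (add_le_add_right a3 x) v
        refine ⟨u' ++ v :: w₂', a1.append (.cons h3 b1), ?_, ?_, ?_⟩
        · rw [Ok_append]
          exact ⟨a2, (hP _ h12.start).trans hle, ok_mono b2 hle⟩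
        · rw [List.sum_append, List.sum_append, List.sum_cons, List.sum_cons]
          exact add_le_add a3 (add_le_add le_rfl b3)
        · rw [List.length_append, List.length_cons, hexp]
          omega

end Pool.Agent.EE3
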