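import Pool.Agent.EE3.CompThree
import Pool.Agent.EE3.DropC

/-!
# EE3 / SeqMain: covering runs of VASS each of whose components changes at most three counters
-/

set_option autoImplicit false
set_option linter.unusedSectionVars false

namespace Pool.Agent.EE3

open Pool.Agent.EEF Pool.Agent.REV Pool.Agent.EE2 Finset

theorem sm_big {n M X : ℕ} (hn : 1 ≤ n) (hX : X = 8 * n * (M + 1)) :
    8 ≤ X ∧ n ≤ X ∧ 2 * n + 1 ≤ X ∧ 2 * M + 2 ≤ X := by
  have h1 : n ≤ n * (M + 1) := Nat.le_mul_of_pos_right _ (by omega)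
  have h2 : M + 1 ≤ n * (M + 1) := Nat.le_mul_of_pos_left _ hn
  have h3 : X = 8 * (n * (M + 1)) := by rw [hX]; ring
  omega

theorem sm_num {n M X c Z Y a H s : ℕ} (hn : 1 ≤ n) (hX : X = 8 * n * (M + 1)) (hc1 : 1 ≤ c)
    (hcZ : X ^ 4 * c ≤ Z) (ha : 1 ≤ a) (hY : 1 ≤ Y) (hs : s ≤ Y)
    (hH : H = M * (Y * a) + s + M + 1) :
    n * (n * (H * c + 1) + 1) + Y * a ≤ Y * (a * Z) := by
  obtain ⟨h8, h1, h2, h3⟩ := sm_big hn hX
  obtain ⟨b, hb⟩ : ∃ b, b = Y * a := ⟨_, rfl⟩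
  have hb1 : 1 ≤ b := by rw [hb]; exact Nat.mul_pos hY ha
  have hbY : Y ≤ b := by rw [hb]; exact Nat.le_mul_of_pos_right _ ha
  rw [← hb] at hH
  have h4 : H ≤ X * b := by
    calc H ≤ M * b + b + (M + 1) * b := by
          have : M + 1 ≤ (M + 1) * b := Nat.le_mul_of_pos_right _ hb1
          omega
      _ = (2 * M + 2) * b := by ring
      _ ≤ X * b := Nat.mul_le_mul_right _ h3
  have e1 : 1 ≤ X * b * c := Nat.mul_pos (Nat.mul_pos (by omega) hb1) hc1
  have h5 : n * (H * c + 1) + 1 ≤ X * (X * b * c) := by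
    calc n * (H * c + 1) + 1 ≤ n * (X * b * c + X * b * c) + X * b * c := by
          refine Nat.add_le_add (Nat.mul_le_mul_left _ (Nat.add_le_add ?_ e1)) e1
          exact Nat.mul_le_mul_right _ h4
      _ = (2 * n + 1) * (X * b * c) := by ring
      _ ≤ X * (X * b * c) := Nat.mul_le_mul_right _ h2
  have e2 : b ≤ X * (X * (X * b * c)) := by
    have : b ≤ X * b * c := by
      calc b = 1 * b * 1 := by ring
        _ ≤ X * b * c := Nat.mul_le_mul (Nat.mul_le_mul_right _ (by omega)) hc1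
    calc b ≤ 1 * (1 * (X * b * c)) := by omega
      _ ≤ X * (X * (X * b * c)) := Nat.mul_le_mul (by omega) (Nat.mul_le_mul_right _ (by omega))
  calc n * (n * (H * c + 1) + 1) + Y * a ≤ X * (X * (X * b * c)) + X * (X * (X * b * c)) := by
        rw [← hb]
        exact Nat.add_le_add (Nat.mul_le_mul h1 h5) e2
    _ = 2 * (X ^ 3 * b * c) := by ring
    _ ≤ X * (X ^ 3 * b * c) := Nat.mul_le_mul_right _ (by omega)
    _ = b * (X ^ 4 * c) := by ring
    _ ≤ b * Z := Nat.mul_le_mul_left _ hcZ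
    _ = Y * (a * Z) := by rw [hb]; ring

theorem sm_box {Q : Type} [Fintype Q] {d : ℕ} {T : VASS Q d} (h3 : ∀ p, ThreeAt T p) {H : ℕ}
    (hH : 1 ≤ H) {s t : Q} {x : Vec d} {w : List (Vec d)}
    (h : PW T (fun _ z => 0 ≤ z ∧ ∀ k, MovedBy T k → z k ≤ (H : ℤ)) s x w t) :
    ∃ w', Walk T s w' t ∧ Ok x w' ∧ w.sum ≤ w'.sum ∧ w'.length ≤ Fintype.card Q *
      (Fintype.card Q * (H * cHa (Fintype.card Q) (maxNorm T) + 1) + 1) := by
  classical
  exact chain_boxD (P := fun z => 0 ≤ z ∧ ∀ k, MovedBy T k → z k ≤ (H : ℤ)) (fun _ h => h.1) _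
    (fun p p' x w hr h => compThree (h3 p) hr hH h) (Fintype.card Q) (le_of_eq card_univ)
    h.walk.walkIn h

theorem sm_fin {Q : Type} {d : ℕ} {T : VASS Q d} {s t : Q} {x y : Fin d → ℕ}
    {w' : List (Vec d)} (e1 : Walk T s w' t) (e2 : Ok (zv x) w')
    (e3 : ∀ k, (y k : ℤ) ≤ (zv x + w'.sum) k) : Covers T s x t y w' := by
  refine ⟨fun k => ((zv x + w'.sum) k).toNat, run_iff.2 ⟨e1, e2, ?_⟩, fun k => ?_⟩
  · funext k
    exact Int.toNat_of_nonneg ((Int.natCast_nonneg _).trans (e3 k))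
  · have h := e3 k
    show y k ≤ ((zv x + w'.sum) k).toNat
    omega

/-- the step: first time a moved counter is large -/
theorem sm_step {Q : Type} [Fintype Q] {d : ℕ} {T : VASS Q d} (h3 : ∀ p, ThreeAt T p)
    {s t : Q} {x y : Fin d → ℕ} {w : List (Vec d)} (h1 : Walk T s w t) (h2 : Ok (zv x) w)
    (hyy : ∀ k, (y k : ℤ) ≤ (zv x + w.sum) k) (L : ℕ)
    (hrack : ∀ {r : Q} {z : Vec d} {w₂ : List (Vec d)} {k : Fin d}, MovedBy T k → 0 ≤ z →
      Walk T r w₂ t → Ok z w₂ → (∀ k, (y k : ℤ) ≤ (z + w₂.sum) k) →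
      ((maxNorm T * L + supN y : ℕ) : ℤ) ≤ z k →
      ∃ w', Walk T r w' t ∧ Ok z w' ∧ (∀ k, (y k : ℤ) ≤ (z + w'.sum) k) ∧ w'.length ≤ L) :
    ∃ w', Covers T s x t y w' ∧ w'.length ≤ Fintype.card Q * (Fintype.card Q *
      ((maxNorm T * L + supN y + maxNorm T + 1) * cHa (Fintype.card Q) (maxNorm T) + 1) + 1) +
        L := by
  classical
  obtain ⟨H₀, hH₀⟩ : ∃ H₀, H₀ = maxNorm T * L + supN y := ⟨_, rfl⟩
  rw [← hH₀] at hrack ⊢
  have hpw := pw_of_ok h1 (zv_nonneg x) h2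
  rcases hpw.firstBad (fun _ z => ∀ k, MovedBy T k → z k < (H₀ : ℤ)) with
    h4 | ⟨u₁, u₂, r, rfl, h5, h6, h7, h8⟩
  · obtain ⟨w', a1, a2, a3, a4⟩ := sm_box h3 (H := H₀ + maxNorm T + 1) (by omega)
      (h4.mono fun _ z hz => ⟨hz.1, fun k hk => by
        have := hz.2 k hk
        push_cast
        omega⟩)
    refine ⟨w', sm_fin a1 a2 fun k => (hyy k).trans ?_, a4.trans (Nat.le_add_right _ _)⟩
    exact add_le_add le_rfl (a3 k)
  · push Not at h6
    obtain ⟨k, hkm, hk⟩ := h6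
    have h9 : ∃ u', Walk T s u' r ∧ Ok (zv x) u' ∧ u₁.sum ≤ u'.sum ∧
        u'.length ≤ Fintype.card Q * (Fintype.card Q * ((H₀ + maxNorm T + 1) *
          cHa (Fintype.card Q) (maxNorm T) + 1) + 1) := by
      rcases h8 with ⟨rfl, rfl⟩ | ⟨u₀, v, r₀, rfl, h8, h9⟩
      · exact ⟨[], .nil _, trivial, le_rfl, Nat.zero_le _⟩
      · have h10 : PW T (fun _ z => 0 ≤ z ∧ ∀ k, MovedBy T k →
            z k ≤ ((H₀ + maxNorm T + 1 : ℕ) : ℤ)) s (zv x) u₀ r₀ :=
          h8.mono fun _ z hz => ⟨hz.1, fun k hk => by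
            have := hz.2 k hk
            push_cast
            omega⟩
        have h11 : PW T (fun _ z => 0 ≤ z ∧ ∀ k, MovedBy T k →
            z k ≤ ((H₀ + maxNorm T + 1 : ℕ) : ℤ)) r₀ (zv x + u₀.sum) [v] r := by
          refine .cons h10.stop h9 (.nil ⟨?_, fun k hk => ?_⟩)
          · rw [List.sum_append, List.sum_singleton, ← add_assoc] at h5
            exact h5
          · have e1 := h8.stop.2 k hk
            have e2 := (abs_le.1 (abs_le_maxNorm h9 k)).2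
            rw [Pi.add_apply]
            push_cast
            linarith
        exact sm_box h3 (by omega) (h10.append h11)
    obtain ⟨u', a1, a2, a3, a4⟩ := h9
    have hle : zv x + u₁.sum ≤ zv x + u'.sum := add_le_add le_rfl a3
    have hok₂ : Ok (zv x + u₁.sum) u₂ := ok_of_pw (fun _ _ h => h) h7
    obtain ⟨w', b1, b2, b3, b4⟩ := hrack (z := zv x + u'.sum) hkm
      (h5.trans hle) h7.walk (ok_mono hok₂ hle) (fun k => by
        have h := hyy k
        rw [List.sum_append, ← add_assoc] at h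
        exact h.trans (add_le_add (hle k) le_rfl)) (hk.trans (hle k))
    refine ⟨u' ++ w', sm_fin (a1.append b1) ?_ fun k => ?_, ?_⟩
    · rw [Ok_append]
      exact ⟨a2, b2⟩
    · rw [List.sum_append, ← add_assoc]
      exact b3 k
    · rw [List.length_append]
      exact Nat.add_le_add a4 b4

theorem sm_cHa {n M : ℕ} (hn : 1 ≤ n) :
    1 ≤ cHa n M ∧ (8 * n * (M + 1)) ^ 4 * cHa n M ≤ (8 * n * (M + 1)) ^ 20000000000 := by
  unfold cHa
  obtain ⟨X, hX⟩ : ∃ X, X = 8 * n * (M + 1) := ⟨_, rfl⟩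
  obtain ⟨h8, -⟩ := sm_big hn hX
  rw [← hX]
  refine ⟨Nat.one_le_pow _ _ (by omega), ?_⟩
  rw [← pow_add]
  exact Nat.pow_le_pow_right (by omega) (by norm_num)

/-- **Covering runs for VASS each of whose components changes at most three counters.** -/
theorem seq_main {Q : Type} [Fintype Q] (j : ℕ) : ∀ {d : ℕ} {T : VASS Q d}, (∀ p, ThreeAt T p) →
    kap T ≤ j → ∀ {s t : Q} {x y : Fin d → ℕ}, (∃ w, Covers T s x t y w) →
    ∃ w, Covers T s x t y w ∧ w.length ≤ max 1 (supN y) *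
      ((8 * Fintype.card Q * (maxNorm T + 1)) ^ 20000000000) ^ (j + 1) := by
  classical
  induction j with
  | zero =>
    rintro d T h3 hkap s t x y ⟨w, y', hrun, hy⟩
    have hn : 1 ≤ Fintype.card Q := Fintype.card_pos_iff.2 ⟨s⟩
    obtain ⟨h1, h2, h4⟩ := run_iff.1 hrun
    have hno : ∀ k, ¬ MovedBy T k := by
      intro k hk
      have h5 : k ∈ univ.filter fun k => MovedBy T k := mem_filter.2 ⟨mem_univ _, hk⟩
      have h6 : 0 < (univ.filter fun k => MovedBy T k).card := card_pos.2 ⟨k, h5⟩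
      have h7 : kap T = (univ.filter fun k => MovedBy T k).card := by
        unfold kap
        congr
      omega
    obtain ⟨w', a1, a2, a3, a4⟩ := sm_box h3 (H := 1) le_rfl
      ((pw_of_ok h1 (zv_nonneg x) h2).mono fun _ z hz => ⟨hz, fun k hk => absurd hk (hno k)⟩)
    refine ⟨w', sm_fin a1 a2 fun k => ?_, a4.trans ?_⟩
    · have e1 : (y k : ℤ) ≤ y' k := by exact_mod_cast hy k
      have e2 : (y' k : ℤ) = (zv x + w.sum) k := congrFun h4 k
      rw [e2] at e1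
      exact e1.trans (add_le_add le_rfl (a3 k))
    · obtain ⟨c1, c2⟩ := sm_cHa (M := maxNorm T) hn
      obtain ⟨c, hc⟩ : ∃ c, c = cHa (Fintype.card Q) (maxNorm T) := ⟨_, rfl⟩
      rw [← hc] at c1 c2 ⊢
      rw [zero_add, pow_one]
      obtain ⟨Z, hZ⟩ : ∃ Z, Z = (8 * Fintype.card Q * (maxNorm T + 1)) ^ 20000000000 := ⟨_, rfl⟩
      rw [← hZ] at c2 ⊢
      have hm : 1 ≤ max 1 (supN y) := le_max_left _ _
      have h5 := sm_num (n := Fintype.card Q) (M := maxNorm T) (c := c) (Z := Z) (Y := 1)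
        (a := 1) (s := 0) hn rfl c1 c2 le_rfl le_rfl (by omega) rfl
      calc Fintype.card Q * (Fintype.card Q * (1 * c + 1) + 1)
          ≤ Fintype.card Q * (Fintype.card Q *
              ((maxNorm T * (1 * 1) + 0 + maxNorm T + 1) * c + 1) + 1) + 1 * 1 := by
            refine le_trans ?_ (Nat.le_add_right _ _)
            refine Nat.mul_le_mul_left _ (Nat.add_le_add_right (Nat.mul_le_mul_left _
              (Nat.add_le_add_right (Nat.mul_le_mul_right _ (by omega)) _)) _)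
        _ ≤ 1 * (1 * Z) := h5
        _ = 1 * Z := by ring
        _ ≤ max 1 (supN y) * Z := Nat.mul_le_mul_right _ hm
  | succ j ih =>
    rintro d T h3 hkap s t x y ⟨w, y', hrun, hy⟩
    have hn : 1 ≤ Fintype.card Q := Fintype.card_pos_iff.2 ⟨s⟩
    obtain ⟨h1, h2, h4⟩ := run_iff.1 hrun
    obtain ⟨Z, hZ⟩ : ∃ Z, Z = (8 * Fintype.card Q * (maxNorm T + 1)) ^ 20000000000 := ⟨_, rfl⟩
    obtain ⟨Y, hY⟩ : ∃ Y, Y = max 1 (supN y) := ⟨_, rfl⟩
    have hyy : ∀ k, (y k : ℤ) ≤ (zv x + w.sum) k := by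
      intro k
      rw [← h4]
      show (y k : ℤ) ≤ (y' k : ℤ)
      exact_mod_cast hy k
    rw [← hZ, ← hY]
    obtain ⟨w', a1, a2⟩ := sm_step h3 h1 h2 hyy (Y * Z ^ (j + 1)) (by
      intro r z w₂ k hkm hz hw₂ hok hyz hk
      obtain ⟨d', rfl⟩ : ∃ d', d = d' + 1 := ⟨d - 1, by have := k.pos; omega⟩
      refine rackD hz hw₂ hok hyz (fun x' y' hs hcov => ?_) hk
      obtain ⟨w'', b1, b2⟩ := ih (dropT_three k h3) (by have := dropT_kap hkm; omega) hcov
      refine ⟨w'', b1, b2.trans ?_⟩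
      rw [hY, hZ]
      have hM := dropT_norm k T
      refine Nat.mul_le_mul (max_le_max le_rfl hs) (Nat.pow_le_pow_left
        (Nat.pow_le_pow_left (Nat.mul_le_mul_left _ (by omega)) _) _))
    refine ⟨w', a1, a2.trans ?_⟩
    obtain ⟨c1, c2⟩ := sm_cHa (M := maxNorm T) hn
    rw [← hZ] at c2
    have hX8 : 1 ≤ 8 * Fintype.card Q * (maxNorm T + 1) := by
      have := (sm_big (M := maxNorm T) hn rfl).1
      omega
    have hZ1 : 1 ≤ Z := by rw [hZ]; exact Nat.one_le_pow _ _ hX8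
    have h5 := sm_num (n := Fintype.card Q) (M := maxNorm T)
      (c := cHa (Fintype.card Q) (maxNorm T)) (Z := Z) (Y := Y)
      (a := Z ^ (j + 1)) (s := supN y) hn rfl c1 c2 (Nat.one_le_pow _ _ hZ1)
      (by rw [hY]; exact le_max_left _ _) (by rw [hY]; exact le_max_right _ _) rfl
    refine h5.trans (le_of_eq ?_)
    rw [pow_succ Z (j + 1)]

end Pool.Agent.EE3
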