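import Pool.Agent.EE3.Mu
import Pool.Agent.EE3.WDefs

/-!
# EE3 / Transfer: components which are not wedges can move weight between any two counters
-/

set_option autoImplicit false
set_option linter.unusedSectionVars false

namespace Pool.Agent.EE3

open Pool.Agent.EEF Pool.Agent.REV Pool.Agent.EE2 Finset

variable {Q : Type} {T : VASS Q 3}

/-- bound for the combinations -/
def cTr (n M : ℕ) : ℕ := (8 * n * (M + 1)) ^ 1500

/-- the common kernel of two independent functionals is a line -/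
theorem ker_line {F G u u' v : Fin 3 → ℤ} (hF : ∃ k, F k ≠ 0) (hFv : ∑ k, F k * v k = 0)
    (hGv : ∑ k, G k * v k ≠ 0) (hFu : ∑ k, F k * u k = 0) (hFu' : ∑ k, F k * u' k = 0)
    (hGu : ∑ k, G k * u k = 0) (hGu' : ∑ k, G k * u' k = 0) :
    ∀ k l, u k * u' l = u l * u' k := by
  rw [Fin.sum_univ_three] at hFv hGv hFu hFu' hGu hGu'
  obtain ⟨w0, hw0⟩ : ∃ w0, w0 = u 1 * u' 2 - u 2 * u' 1 := ⟨_, rfl⟩
  obtain ⟨w1, hw1⟩ : ∃ w1, w1 = u 2 * u' 0 - u 0 * u' 2 := ⟨_, rfl⟩
  obtain ⟨w2, hw2⟩ : ∃ w2, w2 = u 0 * u' 1 - u 1 * u' 0 := ⟨_, rfl⟩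
  have key : ∀ E : Fin 3 → ℤ, E 0 * u 0 + E 1 * u 1 + E 2 * u 2 = 0 →
      E 0 * u' 0 + E 1 * u' 1 + E 2 * u' 2 = 0 →
      E 0 * w1 = E 1 * w0 ∧ E 0 * w2 = E 2 * w0 ∧ E 1 * w2 = E 2 * w1 := by
    intro E h h'
    rw [hw0, hw1, hw2]
    refine ⟨?_, ?_, ?_⟩
    · linear_combination u 2 * h' - u' 2 * h
    · linear_combination -(u 1) * h' + u' 1 * h
    · linear_combination u 0 * h' - u' 0 * h
  obtain ⟨S, hS⟩ : ∃ S, S = w0 * v 0 + w1 * v 1 + w2 * v 2 := ⟨_, rfl⟩
  obtain ⟨f1, f2, f3⟩ := key F hFu hFu'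
  obtain ⟨g1, g2, g3⟩ := key G hGu hGu'
  have hS0 : S = 0 := by
    obtain ⟨k, hk⟩ := hF
    have h0 : F 0 * S = 0 := by
      rw [hS]
      linear_combination w0 * hFv + v 1 * f1 + v 2 * f2
    have h1 : F 1 * S = 0 := by
      rw [hS]
      linear_combination w1 * hFv - v 0 * f1 + v 2 * f3
    have h2 : F 2 * S = 0 := by
      rw [hS]
      linear_combination w2 * hFv - v 0 * f2 - v 1 * f3
    fin_cases k
    · exact (mul_eq_zero.1 h0).resolve_left hk
    · exact (mul_eq_zero.1 h1).resolve_left hk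
    · exact (mul_eq_zero.1 h2).resolve_left hk
  have z0 : w0 = 0 := by
    have : w0 * (G 0 * v 0 + G 1 * v 1 + G 2 * v 2) = 0 := by
      rw [hS] at hS0
      linear_combination G 0 * hS0 - v 1 * g1 - v 2 * g2
    exact (mul_eq_zero.1 this).resolve_right hGv
  have z1 : w1 = 0 := by
    have : w1 * (G 0 * v 0 + G 1 * v 1 + G 2 * v 2) = 0 := by
      rw [hS] at hS0
      linear_combination G 1 * hS0 + v 0 * g1 - v 2 * g3
    exact (mul_eq_zero.1 this).resolve_right hGv
  have z2 : w2 = 0 := by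
    have : w2 * (G 0 * v 0 + G 1 * v 1 + G 2 * v 2) = 0 := by
      rw [hS] at hS0
      linear_combination G 2 * hS0 + v 0 * g2 + v 1 * g3
    exact (mul_eq_zero.1 this).resolve_right hGv
  rw [hw0] at z0
  rw [hw1] at z1
  rw [hw2] at z2
  intro k l
  fin_cases k <;> fin_cases l <;> simp only [Fin.zero_eta, Fin.mk_one, Fin.reduceFinMk] <;>
    first
    | rfl
    | linarith

/-- a component with a weight which no closed walk increases and which is not a wedge: every small
vector of weight zero is a small non-negative rational combination of effects of short closed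
walks -/
theorem transfer_gen [Fintype Q] {p₀ : Q} {lam : Fin 3 → ℕ} (hlam : ∃ k, lam k ≠ 0)
    (hc : ∀ r u, InS T p₀ r → Walk T r u r → ∑ k, (lam k : ℤ) * u.sum k ≤ 0)
    (hw : ¬ WedgeAt T p₀) {V : ℕ} {v : Vec 3} (hv : ∑ k, (lam k : ℤ) * v k = 0)
    (hV : ∀ k, |v k| ≤ (V : ℤ)) :
    ∃ (G : Finset (Vec 3)) (m : Vec 3 → ℕ) (c : ℕ),
      (∀ g ∈ G, g ∈ Eff T p₀ (Fintype.card Q)) ∧ 1 ≤ c ∧
      c ≤ FQ 6 (Fintype.card Q * maxNorm T + V + 1) ∧
      ∑ g ∈ G, m g ≤ FQ 6 (Fintype.card Q * maxNorm T + V + 1) ∧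
      ∀ k, ∑ g ∈ G, (m g : ℤ) * g k = c * v k := by
  classical
  set n := Fintype.card Q with hnn
  set M := maxNorm T with hMM
  set Γ := (eff_finite T p₀ n).toFinset with hΓ
  have hmem : ∀ g, g ∈ Γ ↔ g ∈ Eff T p₀ n := fun g => by
    rw [hΓ, Set.Finite.mem_toFinset]
  obtain ⟨A, hA⟩ : ∃ A : Option (Vec 3) → Vec 3, A = fun o => o.getD (-v) := ⟨_, rfl⟩
  have hAn : A none = -v := by rw [hA]; rfl
  have hAs : ∀ g, A (some g) = g := fun g => by rw [hA]; rfl
  obtain ⟨b, hb⟩ : ∃ b : Option (Vec 3) → ℤ, b = fun o => if o = none then 1 else 0 := ⟨_, rfl⟩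
  have hbn : b none = 1 := by rw [hb]; simp
  have hbs : ∀ g, b (some g) = 0 := fun g => by rw [hb]; simp
  have habs : ∀ o ∈ insertNone Γ, ∀ k, |A o k| ≤ ((n * M + V + 1 : ℕ) : ℤ) := by
    intro o ho k
    rcases o with - | g
    · rw [hAn, Pi.neg_apply, abs_neg]
      refine (hV k).trans ?_
      push_cast
      have : (0 : ℤ) ≤ (n : ℤ) * M := by positivity
      linarith
    · rw [hAs]
      have hg : g ∈ Γ := some_mem_insertNone.1 ho
      refine (eff_abs ((hmem g).1 hg) k).trans ?_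
      push_cast
      linarith [Int.natCast_nonneg V]
  rcases qfarkas 6 (insertNone Γ)
      (fun o j => ![A o 0, A o 1, A o 2, -A o 0, -A o 1, -A o 2] j) b (n * M + V + 1) (by
        intro o ho j
        have h := habs o ho
        fin_cases j
        · exact h 0
        · exact h 1
        · exact h 2
        · show |-(A o 0)| ≤ _
          rw [abs_neg]
          exact h 0
        · show |-(A o 1)| ≤ _
          rw [abs_neg]
          exact h 1
        · show |-(A o 2)| ≤ _
          rw [abs_neg]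
          exact h 2) (by
        intro o ho
        have h0 : (0 : ℤ) ≤ ((n * M + V : ℕ) : ℤ) := Int.natCast_nonneg _
        rcases o with - | g
        · rw [hbn, abs_one]
          push_cast at h0 ⊢
          linarith
        · rw [hbs, abs_zero]
          exact Int.natCast_nonneg _) with
    ⟨l, q, hq, -, hl, hl2⟩ | ⟨m, hm1, hm2, hm3⟩
  · exfalso
    apply hw
    obtain ⟨f, hf⟩ : ∃ f : Fin 3 → ℤ, f = ![(l 0 : ℤ) - l 3, (l 1 : ℤ) - l 4, (l 2 : ℤ) - l 5] :=
      ⟨_, rfl⟩
    have hfA : ∀ o ∈ insertNone Γ, (q : ℤ) * b o ≤ ∑ k, f k * A o k := by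
      intro o ho
      have h1 := hl2 o ho
      rw [Fin.sum_univ_six] at h1
      rw [Fin.sum_univ_three, hf]
      have h3 : (q : ℤ) * b o ≤ A o 0 * l 0 + A o 1 * l 1 + A o 2 * l 2 + -A o 0 * l 3
        + -A o 1 * l 4 + -A o 2 * l 5 := h1
      show (q : ℤ) * b o ≤ ((l 0 : ℤ) - l 3) * A o 0 + ((l 1 : ℤ) - l 4) * A o 1 +
        ((l 2 : ℤ) - l 5) * A o 2
      linarith
    have hfv : ∑ k, f k * v k ≠ 0 := by
      have h1 := hfA none none_mem_insertNone
      rw [hbn, hAn] at h1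
      have h2 : ∑ k, f k * (-v) k = -∑ k, f k * v k := by
        rw [← sum_neg_distrib]
        exact sum_congr rfl fun k _ => by rw [Pi.neg_apply]; ring
      rw [h2] at h1
      have h3 : (0 : ℤ) < q := by exact_mod_cast hq
      intro h0
      rw [h0] at h1
      linarith
    have hfg : ∀ g ∈ Γ, 0 ≤ ∑ k, f k * g k := by
      intro g hg
      have h1 := hfA (some g) (some_mem_insertNone.2 hg)
      rw [hbs, hAs, mul_zero] at h1
      exact h1
    have hD : ∀ r u, InS T p₀ r → Walk T r u r → 0 ≤ ∑ k, f k * u.sum k := by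
      intro r u hr hu
      by_contra hcc
      push Not at hcc
      have h1 : ∀ v : Vec 3, zwgt (fun k => -f k) v = -∑ k, f k * v k := by
        intro v
        rw [zwgt_apply, ← sum_neg_distrib]
        exact sum_congr rfl fun k _ => by ring
      have hw := walkIn_comp (S := univ.filter fun r => InS T p₀ r) (fun r => by simp) hu hr hr
      obtain ⟨r', u', k1, k2, k3⟩ := short_pos (zwgt fun k => -f k) _ le_rfl hw
        (by rw [h1]; linarith)
      have k4 : InS T p₀ r' := (mem_filter.1 k1.start).2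
      have k5 := hfg _ ((hmem _).2 ⟨r', u', k4, k1.walk, k2, rfl⟩)
      rw [h1] at k3
      linarith
    have hsplit : ∀ v : Vec 3, ∑ k, (f k - (lam k : ℤ)) * v k =
        ∑ k, f k * v k - ∑ k, (lam k : ℤ) * v k := by
      intro v
      rw [← sum_sub_distrib]
      exact sum_congr rfl fun k _ => by ring
    refine ⟨fun k => f k - (lam k : ℤ), ?_, ?_⟩
    · intro r u hr hu
      show 0 ≤ ∑ k, (f k - (lam k : ℤ)) * u.sum k
      rw [hsplit]
      have h1 := hD r u hr hu
      have h2 := hc r u hr hu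
      linarith
    · intro r u r' u' hr hr' hu hu' h1 h2
      have h1' : ∑ k, (f k - (lam k : ℤ)) * u.sum k = 0 := h1
      have h2' : ∑ k, (f k - (lam k : ℤ)) * u'.sum k = 0 := h2
      rw [hsplit] at h1' h2'
      have a1 := hD r u hr hu
      have a2 := hc r u hr hu
      have a3 := hD r' u' hr' hu'
      have a4 := hc r' u' hr' hu'
      refine ker_line (F := fun k => (lam k : ℤ)) (G := f) (v := v) ?_ hv hfv (by linarith)
        (by linarith) (by linarith) (by linarith)
      obtain ⟨k, hk⟩ := hlam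
      exact ⟨k, by exact_mod_cast hk⟩
  · rw [sum_insertNone] at hm1
    have h0 : ∀ k : Fin 3, ∑ g ∈ Γ, (m (some g) : ℤ) * g k = (m none : ℤ) * v k := by
      intro k
      have key : ∀ (a b : Fin 6),
          (∀ o, ![A o 0, A o 1, A o 2, -A o 0, -A o 1, -A o 2] a = A o k) →
          (∀ o, ![A o 0, A o 1, A o 2, -A o 0, -A o 1, -A o 2] b = -A o k) →
          ∑ g ∈ Γ, (m (some g) : ℤ) * g k = (m none : ℤ) * v k := by
        intro a b ha hb
        have e1 := hm2 a
        have e2 := hm2 b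
        simp only [ha] at e1
        simp only [hb, mul_neg, sum_neg_distrib] at e2
        rw [sum_insertNone] at e1 e2
        simp only [hAn, hAs, Pi.neg_apply] at e1 e2
        linarith
      fin_cases k
      · exact key 0 3 (fun o => rfl) (fun o => rfl)
      · exact key 1 4 (fun o => rfl) (fun o => rfl)
      · exact key 2 5 (fun o => rfl) (fun o => rfl)
    have h1 : 1 ≤ m none := by
      rw [sum_insertNone] at hm3
      simp only [hbn, hbs, mul_zero, sum_const_zero, add_zero, mul_one] at hm3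
      exact_mod_cast hm3
    have h2 : m none ≤ FQ 6 (n * M + V + 1) := by omega
    have h3 : ∑ g ∈ Γ, m (some g) ≤ FQ 6 (n * M + V + 1) := by omega
    exact ⟨Γ, fun g => m (some g), m none, fun g hg => (hmem g).1 hg, h1, h2, h3, h0⟩

theorem FQ_tr {n M V : ℕ} (hn : 1 ≤ n) (hV : V ≤ cLam n M) :
    FQ 6 (n * M + V + 1) ≤ cTr n M := by
  have h1 := FQ_pow 6 le_rfl (n * M + V + 1)
  obtain ⟨X, hX⟩ : ∃ X, X = 8 * n * (M + 1) := ⟨_, rfl⟩
  have hX8 : 8 ≤ X := by
    rw [hX]
    have : 1 ≤ n * (M + 1) := Nat.mul_pos hn (by omega)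
    calc 8 = 8 * 1 := by ring
      _ ≤ 8 * (n * (M + 1)) := Nat.mul_le_mul_left _ this
      _ = 8 * n * (M + 1) := by ring
  have hV' : V ≤ X ^ 20 := by rw [hX]; exact hV
  have h2 : n * M + 2 ≤ X := by
    rw [hX]
    nlinarith
  have h3 : X ≤ X ^ 20 := by
    calc X = X ^ 1 := (pow_one X).symm
      _ ≤ X ^ 20 := Nat.pow_le_pow_right (by omega) (by norm_num)
  have h4 : 8 * (n * M + V + 1 + 1) ≤ X ^ 22 := by
    calc 8 * (n * M + V + 1 + 1) ≤ 8 * (2 * X ^ 20) := Nat.mul_le_mul_left _ (by omega)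
      _ = (8 * 2) * X ^ 20 := by ring
      _ ≤ (X * X) * X ^ 20 := Nat.mul_le_mul_right _ (Nat.mul_le_mul hX8 (by omega))
      _ = X ^ 22 := by ring
  calc FQ 6 (n * M + V + 1) ≤ (8 * (n * M + V + 1 + 1)) ^ (2 ^ 6 - 1) := h1
    _ ≤ (X ^ 22) ^ (2 ^ 6 - 1) := Nat.pow_le_pow_left h4 _
    _ = X ^ (22 * 63) := by
      rw [← pow_mul]
      norm_num
    _ ≤ X ^ 1500 := Nat.pow_le_pow_right (by omega) (by norm_num)
    _ = cTr n M := by rw [cTr, hX]

/-- transfer between two counters -/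
theorem transfer3 [Fintype Q] {p₀ : Q} {lam : Fin 3 → ℕ} (hlam : ∃ k, lam k ≠ 0)
    (hb : ∀ k, lam k ≤ cLam (Fintype.card Q) (maxNorm T))
    (hc : ∀ r u, InS T p₀ r → Walk T r u r → ∑ k, (lam k : ℤ) * u.sum k ≤ 0)
    (hw : ¬ WedgeAt T p₀) {a b : Fin 3} (hab : a ≠ b) :
    ∃ (G : Finset (Vec 3)) (m : Vec 3 → ℕ) (c : ℕ),
      (∀ g ∈ G, g ∈ Eff T p₀ (Fintype.card Q)) ∧ 1 ≤ c ∧
      c ≤ cTr (Fintype.card Q) (maxNorm T) ∧ ∑ g ∈ G, m g ≤ cTr (Fintype.card Q) (maxNorm T) ∧
      ∀ k, ∑ g ∈ G, (m g : ℤ) * g k =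
        c * (if k = a then (lam b : ℤ) else if k = b then -(lam a : ℤ) else 0) := by
  have hn : 1 ≤ Fintype.card Q := Fintype.card_pos_iff.2 ⟨p₀⟩
  obtain ⟨G, m, c, h1, h2, h3, h4, h5⟩ := transfer_gen hlam hc hw
    (V := cLam (Fintype.card Q) (maxNorm T))
    (v := fun k => if k = a then (lam b : ℤ) else if k = b then -(lam a : ℤ) else 0) (by
      have e : ∀ k : Fin 3, (lam k : ℤ) *
          (if k = a then (lam b : ℤ) else if k = b then -(lam a : ℤ) else 0) =
          (if k = a then (lam a : ℤ) * lam b else 0) +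
            if k = b then -((lam a : ℤ) * lam b) else 0 := by
        intro k
        by_cases h1 : k = a
        · subst h1
          rw [if_pos rfl, if_pos rfl, if_neg hab, add_zero]
        · rw [if_neg h1, if_neg h1, zero_add]
          by_cases h2 : k = b
          · subst h2
            rw [if_pos rfl, if_pos rfl]
            ring
          · rw [if_neg h2, if_neg h2, mul_zero]
      rw [sum_congr rfl fun k _ => e k, sum_add_distrib, sum_ite_eq', sum_ite_eq']
      simp) (by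
      intro k
      have h1 : ∀ j, |(lam j : ℤ)| ≤ ((cLam (Fintype.card Q) (maxNorm T) : ℕ) : ℤ) := by
        intro j
        rw [abs_of_nonneg (Int.natCast_nonneg _)]
        exact_mod_cast hb j
      show |if k = a then (lam b : ℤ) else if k = b then -(lam a : ℤ) else 0| ≤ _
      split_ifs
      · exact h1 b
      · rw [abs_neg]
        exact h1 a
      · rw [abs_zero]
        exact Int.natCast_nonneg _)
  exact ⟨G, m, c, h1, h2, h3.trans (FQ_tr hn le_rfl), h4.trans (FQ_tr hn le_rfl), h5⟩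

end Pool.Agent.EE3
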