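import Pool.Agent.EE3.Quad
import Pool.Agent.EE3.Transfer

/-!
# EE3 / Shallow3: runs in a component which always have a small counter
-/

set_option autoImplicit false
set_option linter.unusedSectionVars false

namespace Pool.Agent.EE3

open Pool.Agent.EEF Pool.Agent.REV Pool.Agent.EE2 Finset

/-- length factor for runs which always have a counter below `B` -/
def cSh (n M B : ℕ) : ℕ := (8 * n * (M + 1) * (B + 1)) ^ 3000

section

variable {Q : Type} {d : ℕ} {T : VASS Q d}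

/-- the last visit of a key -/
theorem sh91_last {κ : Type} [DecidableEq κ] (key : Q → Vec d → κ) {R P : Q → Vec d → Prop}
    {D : Finset κ} (k₀ : κ) {p q : Q} {x : Vec d} {w : List (Vec d)}
    (h : PW T (fun r y => R r y ∧ (P r y ∨ key r y ∈ D)) p x w q) :
    PW T (fun r y => R r y ∧ (P r y ∨ key r y ∈ D.erase k₀)) p x w q ∨
      ∃ u w' p', w = u ++ w' ∧ Walk T p u p' ∧ R p' (x + u.sum) ∧ key p' (x + u.sum) = k₀ ∧
      ((w' = [] ∧ q = p') ∨ ∃ v r w'', w' = v :: w'' ∧ (p', v, r) ∈ T ∧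
        PW T (fun r y => R r y ∧ (P r y ∨ key r y ∈ D.erase k₀)) r (x + u.sum + v) w'' q) := by
  induction h with
  | @nil p x h1 =>
    by_cases hp : key p x = k₀
    · exact Or.inr ⟨[], [], p, rfl, .nil _, by simpa using h1.1, by simpa using hp,
        Or.inl ⟨rfl, rfl⟩⟩
    · exact Or.inl (.nil ⟨h1.1, h1.2.imp id fun h => mem_erase.2 ⟨hp, h⟩⟩)
  | @cons p p₁ q v x w h1 h3 h4 ih =>
    rcases ih with ih | ⟨u, w', p', e, h5, h6, h7, h8⟩
    · by_cases hp : key p x = k₀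
      · exact Or.inr ⟨[], v :: w, p, rfl, .nil _, by simpa using h1.1, by simpa using hp,
          Or.inr ⟨v, p₁, w, rfl, h3, by simpa using ih⟩⟩
      · exact Or.inl (.cons ⟨h1.1, h1.2.imp id fun h => mem_erase.2 ⟨hp, h⟩⟩ h3 ih)
    · have es : x + (v :: u).sum = x + v + u.sum := by rw [List.sum_cons, add_assoc]
      refine Or.inr ⟨v :: u, w', p', by rw [e, List.cons_append], .cons h3 h5, ?_, ?_, ?_⟩
      · rw [es]; exact h6
      · rw [es]; exact h7
      · rw [es]; exact h8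

/-- pieces with short words, separated by configurations whose keys determine them up to a
decrease -/
theorem sh91_main {κ : Type} [DecidableEq κ] (key : Q → Vec d → κ) {R P : Q → Vec d → Prop}
    (hR : ∀ r y, R r y → 0 ≤ y) {L : ℕ}
    (hL : ∀ {p q : Q} {x : Vec d} {w : List (Vec d)}, PW T (fun r y => R r y ∧ P r y) p x w q →
      ∃ w', Walk T p w' q ∧ Ok x w' ∧ w.sum ≤ w'.sum ∧ w'.length ≤ L)
    (hkey : ∀ {p p' : Q} {x : Vec d} {u : List (Vec d)}, Walk T p u p' → R p x →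
      R p' (x + u.sum) → ¬ P p x → key p' (x + u.sum) = key p x → p = p' ∧ u.sum ≤ 0) :
    ∀ (m : ℕ) {D : Finset κ}, D.card ≤ m →
    ∀ {p q : Q} {x : Vec d} {w : List (Vec d)},
    PW T (fun r y => R r y ∧ (P r y ∨ key r y ∈ D)) p x w q →
      ∃ w', Walk T p w' q ∧ Ok x w' ∧ w.sum ≤ w'.sum ∧ w'.length ≤ (m + 1) * (L + 2) := by
  intro m
  induction m with
  | zero =>
    intro D hD p q x w h
    have hD0 : D = ∅ := Finset.card_eq_zero.1 (Nat.le_zero.1 hD)
    have h' : PW T (fun r y => R r y ∧ P r y) p x w q := h.mono fun r y hy =>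
      ⟨hy.1, hy.2.resolve_right (by rw [hD0]; exact notMem_empty _)⟩
    obtain ⟨w', a1, a2, a3, a4⟩ := hL h'
    exact ⟨w', a1, a2, a3, by omega⟩
  | succ m ih =>
    intro D hD p q x w h
    have hexp : (m + 1 + 1) * (L + 2) = (m + 1) * (L + 2) + (L + 2) := by ring
    rcases h.firstBad P with h' | ⟨w₀, w', p', rfl, h0, hnP, h2, h3⟩
    · obtain ⟨w', a1, a2, a3, a4⟩ := hL (h'.mono fun r y hy => ⟨hy.1.1, hy.2⟩)
      exact ⟨w', a1, a2, a3, by rw [hexp]; omega⟩
    · have h1 : key p' (x + w₀.sum) ∈ D := h0.2.resolve_left hnP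
      have hcard : (D.erase (key p' (x + w₀.sum))).card ≤ m := by
        rw [card_erase_of_mem h1]
        omega
      have hfst : ∃ u', Walk T p u' p' ∧ Ok x u' ∧ w₀.sum ≤ u'.sum ∧ u'.length ≤ L + 1 := by
        rcases h3 with ⟨rfl, rfl⟩ | ⟨w₁, v, r, rfl, h4, h5⟩
        · exact ⟨[], .nil _, trivial, le_rfl, Nat.zero_le _⟩
        · obtain ⟨u', a1, a2, a3, a4⟩ := hL (h4.mono fun r y hy => ⟨hy.1.1, hy.2⟩)
          have h7 : 0 ≤ x + w₁.sum + v := by
            have := hR _ _ h0.1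
            rw [List.sum_append, List.sum_singleton, ← add_assoc] at this
            exact this
          have hle : x + w₁.sum + v ≤ x + u'.sum + v :=
            add_le_add_left (add_le_add_right a3 x) v
          refine ⟨u' ++ [v], a1.append (.cons h5 (.nil _)), ?_, ?_, ?_⟩
          · rw [Ok_append]
            exact ⟨a2, h7.trans hle, trivial⟩
          · rw [List.sum_append, List.sum_append]
            exact add_le_add a3 le_rfl
          · rw [List.length_append, List.length_singleton]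
            omega
      obtain ⟨u', a1, a2, a3, a4⟩ := hfst
      have hle : x + w₀.sum ≤ x + u'.sum := add_le_add_right a3 x
      rcases sh91_last key (key p' (x + w₀.sum)) h2 with h4 | ⟨u, w'', p'', rfl, h5, h6, h7, h8⟩
      · obtain ⟨w'', b1, b2, b3, b4⟩ := ih hcard h4
        refine ⟨u' ++ w'', a1.append b1, ?_, ?_, ?_⟩
        · rw [Ok_append]
          exact ⟨a2, ok_mono b2 hle⟩
        · rw [List.sum_append, List.sum_append]
          exact add_le_add a3 b3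
        · rw [List.length_append, hexp]
          omega
      · obtain ⟨rfl, hu0⟩ := hkey h5 h0.1 h6 hnP h7
        have hle2 : x + w₀.sum + u.sum ≤ x + u'.sum := by
          calc x + w₀.sum + u.sum ≤ x + w₀.sum + 0 := add_le_add_right hu0 _
            _ = x + w₀.sum := add_zero _
            _ ≤ x + u'.sum := hle
        have hsu : w₀.sum + u.sum ≤ u'.sum := by
          calc w₀.sum + u.sum ≤ w₀.sum + 0 := add_le_add_right hu0 _
            _ = w₀.sum := add_zero _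
            _ ≤ u'.sum := a3
        rcases h8 with ⟨rfl, rfl⟩ | ⟨v, r, w''', rfl, h9, h10⟩
        · refine ⟨u', a1, a2, ?_, by rw [hexp]; omega⟩
          rw [List.sum_append, List.append_nil]
          exact hsu
        · obtain ⟨w'', b1, b2, b3, b4⟩ := ih hcard h10
          have hle3 : x + w₀.sum + u.sum + v ≤ x + u'.sum + v := add_le_add_left hle2 v
          refine ⟨u' ++ v :: w'', a1.append (.cons h9 b1), ?_, ?_, ?_⟩
          · rw [Ok_append]
            exact ⟨a2, (hR _ _ h10.start.1).trans hle3, ok_mono b2 hle3⟩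
          · rw [List.sum_append, List.sum_append, List.sum_append, List.sum_cons, List.sum_cons,
              ← add_assoc]
            exact add_le_add hsu (add_le_add le_rfl b3)
          · rw [List.length_append, List.length_cons, hexp]
            omega

end

variable {Q : Type} {T : VASS Q 3}

/-- all counters move -/
theorem sh91_mov [Fintype Q] {p₀ : Q} {lam : Fin 3 → ℕ} (hlam : ∀ k, 1 ≤ lam k)
    (hb : ∀ k, lam k ≤ cLam (Fintype.card Q) (maxNorm T))
    (hc : ∀ r u, InS T p₀ r → Walk T r u r → ∑ k, (lam k : ℤ) * u.sum k ≤ 0)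
    (hw : ¬ WedgeAt T p₀) (i : Fin 3) : Mov T p₀ i := by
  obtain ⟨b, hib⟩ : ∃ b : Fin 3, i ≠ b := ⟨i + 1, by fin_cases i <;> decide⟩
  obtain ⟨G, m, c, h1, h2, -, -, h5⟩ := transfer3 ⟨0, by have := hlam 0; omega⟩ hb hc hw hib
  have h6 := h5 i
  rw [if_pos rfl] at h6
  have h7 : ∑ g ∈ G, (m g : ℤ) * g i ≠ 0 := by
    rw [h6]
    have e1 := hlam b
    have e2 : (0 : ℤ) < c := by exact_mod_cast h2
    have e3 : (0 : ℤ) < lam b := by exact_mod_cast e1
    exact (mul_pos e2 e3).ne'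
  obtain ⟨g, hg, hne⟩ := exists_ne_zero_of_sum_ne_zero h7
  have hgi : g i ≠ 0 := right_ne_zero_of_mul hne
  obtain ⟨r, u, hr, hu, -, rfl⟩ := h1 g hg
  obtain ⟨a, ha⟩ := hr.1
  obtain ⟨b', hb'⟩ := hr.2
  by_cases h0 : (a ++ b').sum i = 0
  · refine ⟨a ++ u ++ b', (ha.append hu).append hb', ?_⟩
    rw [List.sum_append, Pi.add_apply] at h0
    rw [List.sum_append, List.sum_append, Pi.add_apply, Pi.add_apply]
    intro h8
    apply hgi
    linarith
  · exact ⟨a ++ b', ha.append hb', h0⟩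

/-- away from the edges the small counter stays the same -/
theorem sh91_small {B : ℕ} {R : Q → Vec 3 → Prop} (hR : ∀ r y, R r y → ∃ k, y k < (B : ℤ))
    {p q : Q} {x : Vec 3} {w : List (Vec 3)}
    (h : PW T (fun r y => R r y ∧ ¬ Cor3 (B + maxNorm T) y) p x w q) {i : Fin 3}
    (hi : x i < (B : ℤ)) : PW T (fun r y => R r y ∧ y i < (B : ℤ)) p x w q := by
  induction h with
  | nil h0 => exact .nil ⟨h0.1, hi⟩
  | @cons p p₁ q v x w h0 h1 h2 ih =>
    refine .cons ⟨h0.1, hi⟩ h1 (ih ?_)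
    obtain ⟨k, hk⟩ := hR _ _ h2.start.1
    by_cases hki : k = i
    · rw [← hki]; exact hk
    · exfalso
      refine h0.2 ⟨k, i, hki, ?_, ?_⟩
      · have e1 := (abs_le.1 (abs_le_maxNorm h1 k)).1
        rw [Pi.add_apply] at hk
        push_cast
        linarith
      · push_cast
        have : (0 : ℤ) ≤ maxNorm T := Int.natCast_nonneg _
        linarith

theorem sh91_num {n M B H F g : ℕ} (hn : 1 ≤ n) (hg : g ≤ 3) (hH : 1 ≤ H)
    (hF : F = (45 * (cTot (n * (B + 1)) 3 M + 1) ^ 4 * (3 + 1) ^ 3 * (M + 1) ^ 2) ^ (g + 1)) :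
    (n * (B + M + 1) ^ 3 + 1) * (H * F + 2) ≤ H * cSh n M B := by
  obtain ⟨Y, hY⟩ : ∃ Y, Y = 8 * n * (M + 1) * (B + 1) := ⟨_, rfl⟩
  have hMB : 1 ≤ (M + 1) * (B + 1) := Nat.mul_pos (by omega) (by omega)
  have h8 : 8 ≤ Y := by
    rw [hY]
    calc 8 = 8 * 1 * 1 := by ring
      _ ≤ 8 * n * ((M + 1) * (B + 1)) := Nat.mul_le_mul (Nat.mul_le_mul_left _ hn) hMB
      _ = 8 * n * (M + 1) * (B + 1) := by ring
  have hY1 : 1 ≤ Y := by omega
  have h1 : cTot (n * (B + 1)) 3 M + 1 ≤ Y ^ 79 := by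
    have h := cTot_pow (n := n * (B + 1)) (d := 3) (M := M) (Nat.mul_pos hn (by omega))
    have e : 2 * (n * (B + 1)) * (3 + 1) * (M + 1) = Y := by rw [hY]; ring
    rw [e] at h
    exact h
  have hM : M + 1 ≤ Y := by
    rw [hY]
    calc M + 1 = 1 * (M + 1) * 1 := by ring
      _ ≤ 8 * n * (M + 1) * (B + 1) :=
        Nat.mul_le_mul (Nat.mul_le_mul_right _ (by omega)) (by omega)
  have hnY : n ≤ Y := by
    rw [hY]
    calc n = n * 1 := by ring
      _ ≤ (8 * n) * ((M + 1) * (B + 1)) := Nat.mul_le_mul (by omega) hMB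
      _ = 8 * n * (M + 1) * (B + 1) := by ring
  have hc : B + M + 1 ≤ Y := by
    rw [hY]
    calc B + M + 1 ≤ (M + 1) * (B + 1) := by nlinarith [Nat.zero_le (M * B)]
      _ = 1 * ((M + 1) * (B + 1)) := by ring
      _ ≤ (8 * n) * ((M + 1) * (B + 1)) := Nat.mul_le_mul_right _ (by omega)
      _ = 8 * n * (M + 1) * (B + 1) := by ring
  have h2 : 45 * (cTot (n * (B + 1)) 3 M + 1) ^ 4 * (3 + 1) ^ 3 * (M + 1) ^ 2 ≤ Y ^ 322 := by
    calc 45 * (cTot (n * (B + 1)) 3 M + 1) ^ 4 * (3 + 1) ^ 3 * (M + 1) ^ 2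
        ≤ 45 * (Y ^ 79) ^ 4 * (3 + 1) ^ 3 * Y ^ 2 := by gcongr
      _ = 2880 * (Y ^ 318) := by
        rw [← pow_mul]
        ring
      _ ≤ Y ^ 4 * Y ^ 318 := by
        refine Nat.mul_le_mul_right _ ?_
        calc 2880 ≤ 8 ^ 4 := by norm_num
          _ ≤ Y ^ 4 := Nat.pow_le_pow_left h8 4
      _ = Y ^ 322 := by rw [← pow_add]
  have h3 : F ≤ Y ^ 1288 := by
    rw [hF]
    calc (45 * (cTot (n * (B + 1)) 3 M + 1) ^ 4 * (3 + 1) ^ 3 * (M + 1) ^ 2) ^ (g + 1)
        ≤ (Y ^ 322) ^ (g + 1) := Nat.pow_le_pow_left h2 _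
      _ ≤ (Y ^ 322) ^ 4 := Nat.pow_le_pow_right (Nat.one_le_pow _ _ hY1) (by omega)
      _ = Y ^ 1288 := by rw [← pow_mul]
  have h4 : n * (B + M + 1) ^ 3 ≤ Y ^ 4 := by
    calc n * (B + M + 1) ^ 3 ≤ Y * Y ^ 3 := Nat.mul_le_mul hnY (Nat.pow_le_pow_left hc 3)
      _ = Y ^ 4 := by ring
  obtain ⟨a, ha⟩ : ∃ a, a = Y ^ 1288 := ⟨_, rfl⟩
  have ha1 : 1 ≤ a := by rw [ha]; exact Nat.one_le_pow _ _ hY1
  have hY4 : 1 ≤ Y ^ 4 := Nat.one_le_pow _ _ hY1
  rw [← ha] at h3
  have h5 : 1 ≤ H * a := Nat.mul_pos hH ha1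
  have h6 : (n * (B + M + 1) ^ 3 + 1) * (H * F + 2) ≤ H * (Y * Y ^ 4 * a) := by
    calc (n * (B + M + 1) ^ 3 + 1) * (H * F + 2) ≤ (Y ^ 4 + Y ^ 4) * (H * a + 2 * (H * a)) := by
          refine Nat.mul_le_mul (Nat.add_le_add h4 hY4) (Nat.add_le_add ?_ (by omega))
          exact Nat.mul_le_mul_left _ h3
      _ = 6 * (H * (Y ^ 4 * a)) := by ring
      _ ≤ Y * (H * (Y ^ 4 * a)) := Nat.mul_le_mul_right _ (by omega)
      _ = H * (Y * Y ^ 4 * a) := by ring
  refine h6.trans (Nat.mul_le_mul_left _ ?_)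
  unfold cSh
  rw [← hY, ha, ← pow_succ', ← pow_add]
  exact Nat.pow_le_pow_right hY1 (by norm_num)

/-- runs inside a component which always have a counter below `B` -/
theorem shallow3 {Q : Type} [Fintype Q] {T : VASS Q 3} {p₀ : Q} {lam : Fin 3 → ℕ}
    (hlam : ∀ k, 1 ≤ lam k) (hb : ∀ k, lam k ≤ cLam (Fintype.card Q) (maxNorm T))
    (hc : ∀ r u, InS T p₀ r → Walk T r u r → ∑ k, (lam k : ℤ) * u.sum k ≤ 0)
    (hw : ¬ WedgeAt T p₀) (B : ℕ) {H : ℕ} (hH : 1 ≤ H) {p q : Q} {x : Vec 3} {w : List (Vec 3)}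
    (h : PW T (fun r y => InS T p₀ r ∧ 0 ≤ y ∧ (∀ k, y k ≤ H) ∧ ∃ k, y k < B) p x w q) :
    ∃ w', Walk T p w' q ∧ Ok x w' ∧ w.sum ≤ w'.sum ∧
      w'.length ≤ H * cSh (Fintype.card Q) (maxNorm T) B := by
  classical
  have hn : 1 ≤ Fintype.card Q := Fintype.card_pos_iff.2 ⟨p⟩
  have hg : geomDim T ≤ 3 := by
    refine (Submodule.finrank_le _).trans ?_
    rw [Module.finrank_fintype_fun_eq_card, Fintype.card_fin]
  have hmov := sh91_mov hlam hb hc hw
  obtain ⟨F, hF⟩ : ∃ F, F = (45 * (cTot (Fintype.card Q * (B + 1)) 3 (maxNorm T) + 1) ^ 4 *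
    (3 + 1) ^ 3 * (maxNorm T + 1) ^ 2) ^ (geomDim T + 1) := ⟨_, rfl⟩
  obtain ⟨c, hcc⟩ : ∃ c, c = B + maxNorm T := ⟨_, rfl⟩
  -- pieces away from the edges
  have hL : ∀ {p q : Q} {x : Vec 3} {w : List (Vec 3)},
      PW T (fun r y => (InS T p₀ r ∧ 0 ≤ y ∧ (∀ k, y k ≤ (H : ℤ)) ∧ ∃ k, y k < (B : ℤ)) ∧
        ¬ Cor3 c y) p x w q →
      ∃ w', Walk T p w' q ∧ Ok x w' ∧ w.sum ≤ w'.sum ∧ w'.length ≤ H * F := by
    intro p q x w h
    obtain ⟨i, hi⟩ := h.start.1.2.2.2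
    rw [hcc] at h
    have h1 := sh91_small (fun r y hy => hy.2.2.2) h hi
    have h2 := wall3 (fin_three T p₀) (hmov i) B (h1.mono fun r y hy =>
      ⟨hy.1.1, hy.1.2.1, hy.2.le⟩)
    have key := rlz_toC h2
    have hst := h1.stop.1
    obtain ⟨x₀, rfl⟩ := exists_zv h1.start.1.2.1
    obtain ⟨y₀, hy₀⟩ := exists_zv hst.2.1
    rw [← hy₀] at key
    obtain ⟨w', y'', h4, h5, h6⟩ := rlzC_run key
    obtain ⟨a1, a2, a3⟩ := run_iff.1 h4
    refine ⟨w', a1, a2, ?_, h6.trans ?_⟩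
    · intro k
      have e1 : (y₀ k : ℤ) ≤ y'' k := by exact_mod_cast h5 k
      have e2 : (y₀ k : ℤ) = (zv x₀ + w.sum) k := congrFun hy₀ k
      have e3 : (y'' k : ℤ) = (zv x₀ + w'.sum) k := congrFun a3 k
      rw [Pi.add_apply] at e2 e3
      linarith
    · have hY : max 1 (supN y₀) ≤ H := by
        refine max_le hH (Finset.sup_le fun k _ => ?_)
        have e2 : (y₀ k : ℤ) = (zv x₀ + w.sum) k := congrFun hy₀ k
        have e4 := hst.2.2.1 k
        rw [← e2] at e4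
        exact_mod_cast e4
      rw [hF]
      exact Nat.mul_le_mul_right _ hY
  -- the keys
  obtain ⟨key, hkey⟩ : ∃ key : Q → Vec 3 → Q × (Fin 3 → Fin (c + 1)),
      key = fun r y => (r, fun k => ⟨min (y k).toNat c, by omega⟩) := ⟨_, rfl⟩
  have hk : ∀ {p p' : Q} {x : Vec 3} {u : List (Vec 3)}, Walk T p u p' →
      (InS T p₀ p ∧ 0 ≤ x ∧ (∀ k, x k ≤ (H : ℤ)) ∧ ∃ k, x k < (B : ℤ)) →
      (InS T p₀ p' ∧ 0 ≤ x + u.sum ∧ (∀ k, (x + u.sum) k ≤ (H : ℤ)) ∧
        ∃ k, (x + u.sum) k < (B : ℤ)) →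
      ¬ ¬ Cor3 c x → key p' (x + u.sum) = key p x → p = p' ∧ u.sum ≤ 0 := by
    intro p p' x u hu h1 h2 h3 h4
    rw [hkey] at h4
    obtain ⟨h5, h6⟩ := Prod.mk.inj h4
    subst h5
    refine ⟨rfl, ?_⟩
    have h7 : ∀ k, min ((x + u.sum) k).toNat c = min (x k).toNat c := fun k =>
      congrArg Fin.val (congrFun h6 k)
    obtain ⟨i, j, hij, hi, hj⟩ := not_not.1 h3
    have hz : ∀ k, x k < (c : ℤ) → u.sum k = 0 := by
      intro k hk
      have e1 := h7 k
      have e2 : (0 : ℤ) ≤ x k := h1.2.1 k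
      have e3 : (0 : ℤ) ≤ (x + u.sum) k := h2.2.1 k
      have e4 : (x + u.sum) k = x k + u.sum k := Pi.add_apply _ _ _
      rw [e4] at e1 e3
      omega
    have hi0 := hz i hi
    have hj0 := hz j hj
    have hs := hc _ _ h1.1 hu
    intro k
    by_cases hki : k = i
    · rw [hki, hi0]; exact le_rfl
    by_cases hkj : k = j
    · rw [hkj, hj0]; exact le_rfl
    have hs' : ∑ l, (lam l : ℤ) * u.sum l = lam k * u.sum k := by
      refine Finset.sum_eq_single k (fun l _ hl => ?_) (fun h => absurd (mem_univ _) h)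
      have : l = i ∨ l = j := by
        revert hij hki hkj hl
        clear * -
        revert i j k l
        decide
      rcases this with rfl | rfl
      · rw [hi0, mul_zero]
      · rw [hj0, mul_zero]
    rw [hs'] at hs
    have e1 : (0 : ℤ) < lam k := by exact_mod_cast hlam k
    show u.sum k ≤ 0
    by_contra hcon
    push Not at hcon
    exact absurd (mul_pos e1 hcon) (not_lt.2 hs)
  have hcard : (univ : Finset (Q × (Fin 3 → Fin (c + 1)))).card ≤
      Fintype.card Q * (B + maxNorm T + 1) ^ 3 := by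
    rw [card_univ, Fintype.card_prod, Fintype.card_fun, Fintype.card_fin, Fintype.card_fin, hcc]
  obtain ⟨w', a1, a2, a3, a4⟩ := sh91_main key
    (R := fun r y => InS T p₀ r ∧ 0 ≤ y ∧ (∀ k, y k ≤ (H : ℤ)) ∧ ∃ k, y k < (B : ℤ))
    (P := fun _ y => ¬ Cor3 c y) (fun _ _ hy => hy.2.1) hL hk _ hcard
    (h.mono fun r y hy => ⟨hy, Or.inr (mem_univ _)⟩)
  exact ⟨w', a1, a2, a3, a4.trans (sh91_num hn hg hH hF)⟩

end Pool.Agent.EE3
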