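import Pool.Agent.EE3.ChainS
import Pool.Agent.EE3.NonInc

/-!
# EE3 / Supp3: components with a weight with exactly one zero coordinate which no cycle increases
-/

set_option autoImplicit false
set_option linter.unusedSectionVars false

namespace Pool.Agent.EE3

open Pool.Agent.EEF Pool.Agent.REV Pool.Agent.EE2 Finset

/-- length factor for components with a small weight with one zero coordinate -/
def cSu (n M : ℕ) : ℕ := (8 * n * (M + 1)) ^ 5000

/-- one tight piece as a scheme with the same effect -/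
theorem tight_schemeS {Q : Type} [Fintype Q] {lam : Fin 3 → ℕ} (hlam : ∃ k, lam k ≠ 0)
    {π : Q → ℤ} {T T₀ : VASS Q 3}
    (hT₀ : ∀ r v r', (r, v, r') ∈ T₀ → wt3 lam v + π r' = π r) (hsub : T₀ ⊆ T)
    {p q : Q} {x : Vec 3} {u : List (Vec 3)} (hx : 0 ≤ x)
    (hu : Walk T₀ p u q) (hok : Ok x u) {s : ℕ}
    (hs : Fintype.card Q * (cPM (Fintype.card Q) 3 (geomDim T₀) (maxNorm T₀) + 2) ≤ s) :
    ∃ I : List (Itm 3), IsScheme T p (I.map isk) q ∧ Ok x (unroll I) ∧
      (unroll I).sum = u.sum ∧ (∀ e ∈ I, ∑ k, (lam k : ℤ) * e.2.1.sum k = 0) ∧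
      (∀ e ∈ I, e.1.length + e.2.1.length ≤ s) ∧ I.length ≤ s := by
  classical
  obtain ⟨h1, -⟩ := tight_two hlam hT₀
  have hwk : ∀ {p q : Q} {w : List (Vec 3)}, Walk T₀ p w q →
      wt3 lam w.sum + π q = π p := by
    intro p q w h
    induction h with
    | nil p => rw [List.sum_nil, wt3_zero, zero_add]
    | cons h1 _ ih =>
      rw [List.sum_cons, wt3_add, add_assoc, ih]
      exact hT₀ _ _ _ h1
  obtain ⟨I, h2, h3, h4, h5⟩ := pm_scheme (fun p => Or.inl (h1 p)) (Fintype.card Q)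
    (le_of_eq card_univ) hx hu.walkIn hok
  refine ⟨I, scheme_sub hsub h2, h3, h4, fun e he => ?_, fun e he => ?_, ?_⟩
  · obtain ⟨-, r, hr⟩ := scheme_loops I h2 e he
    have := hwk hr
    have h6 : wt3 lam e.2.1.sum = 0 := by linarith
    exact h6
  · have := size_mem.2 (isk e) (List.mem_map_of_mem he)
    have h6 : (isk e).1.length + (isk e).2.length = e.1.length + e.2.1.length := rfl
    omega
  · have := (size_mem (L := I.map isk)).1
    rw [List.length_map] at this
    omega

theorem supp3 {Q : Type} [Fintype Q] {T : VASS Q 3} {p₀ : Q} {k₀ : Fin 3} {lam : Fin 3 → ℕ}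
    (h0 : lam k₀ = 0) (hl : ∀ k, k ≠ k₀ → lam k ≠ 0)
    (hb : ∀ k, lam k ≤ cLam (Fintype.card Q) (maxNorm T))
    (hc : ∀ r u, InS T p₀ r → Walk T r u r → ∑ k, (lam k : ℤ) * u.sum k ≤ 0) {H : ℕ}
    (hH : 1 ≤ H) {p q : Q} {x : Vec 3} {w : List (Vec 3)}
    (h : PW T (fun r y => InS T p₀ r ∧ 0 ≤ y ∧ ∀ k, y k ≤ H) p x w q) :
    ∃ w', Walk T p w' q ∧ Ok x w' ∧ w.sum ≤ w'.sum ∧
      w'.length ≤ H * cSu (Fintype.card Q) (maxNorm T) := by
  classical
  have hlam : ∃ k, lam k ≠ 0 := by
    obtain ⟨k, hk⟩ : ∃ k, k ≠ k₀ := exists_ne k₀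
    exact ⟨k, hl k hk⟩
  obtain ⟨L, hL⟩ : ∃ L, L = cLam (Fintype.card Q) (maxNorm T) := ⟨_, rfl⟩
  rw [← hL] at hb
  obtain ⟨π, hπ1, hπ2⟩ := exists_pot (T := T) (p₀ := p₀) (lam := lam) hb
    (fun r u hr hu => hc r u hr hu)
  obtain ⟨T₀, hT₀⟩ : ∃ T₀ : VASS Q 3,
      T₀ = T.filter fun t => wt3 lam t.2.1 + π t.2.2 = π t.1 := ⟨_, rfl⟩
  have hsub : T₀ ⊆ T := by rw [hT₀]; exact filter_subset _ _
  have htight : ∀ r v r', (r, v, r') ∈ T₀ → wt3 lam v + π r' = π r := by
    intro r v r' h
    rw [hT₀, mem_filter] at h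
    exact h.2
  obtain ⟨n, hn⟩ : ∃ n, n = Fintype.card Q := ⟨_, rfl⟩
  obtain ⟨M, hM⟩ : ∃ M, M = maxNorm T := ⟨_, rfl⟩
  have hn1 : 1 ≤ n := by
    rw [hn]
    exact Fintype.card_pos_iff.2 ⟨p⟩
  obtain ⟨X, hX⟩ : ∃ X, X = 8 * n * (M + 1) := ⟨_, rfl⟩
  have hLX : L = X ^ 20 := by
    rw [hL, ← hn, ← hM, hX, cLam]
  have hX8 : 8 ≤ X := by
    rw [hX]
    have : 1 ≤ n * (M + 1) := Nat.mul_pos hn1 (by omega)
    calc 8 = 8 * 1 := by ring
      _ ≤ 8 * (n * (M + 1)) := Nat.mul_le_mul_left _ this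
      _ = 8 * n * (M + 1) := by ring
  have hX1 : 1 ≤ X := by omega
  have hnX : 8 * n ≤ X := by
    rw [hX]
    exact Nat.le_mul_of_pos_right _ (by omega)
  have hMX : M + 1 ≤ X := by
    rw [hX]
    exact Nat.le_mul_of_pos_left _ (by omega)
  -- the size of the schemes
  obtain ⟨s, hs⟩ : ∃ s, s = X ^ 80 := ⟨_, rfl⟩
  have hs0 : Fintype.card Q * (cPM (Fintype.card Q) 3 (geomDim T₀) (maxNorm T₀) + 2) ≤ s := by
    have hg : geomDim T₀ ≤ 3 := by
      refine (Submodule.finrank_le _).trans ?_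
      rw [Module.finrank_fintype_fun_eq_card, Fintype.card_fin]
    have hM0 : maxNorm T₀ ≤ M := by
      rw [hM]
      exact Finset.sup_mono hsub
    have h1 := cTot_pow (d := 3) (M := maxNorm T₀) hn1
    have h2 := num_cyc (d := 3) (M := maxNorm T₀) hn1 hg
    have hN : 2 * n * (3 + 1) * (maxNorm T₀ + 1) ≤ X := by
      rw [hX]
      have : 2 * n * (3 + 1) = 8 * n := by ring
      rw [this]
      exact Nat.mul_le_mul_left _ (by omega)
    have h3 : cPM n 3 (geomDim T₀) (maxNorm T₀) + 1 ≤ X ^ 79 := by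
      unfold cPM
      rcases le_total (cTot n 3 (maxNorm T₀)) (cCyc n 3 (geomDim T₀) (maxNorm T₀)) with h | h
      · rw [max_eq_right h]
        exact (h2.trans (Nat.pow_le_pow_left hN _)).trans
          (Nat.pow_le_pow_right hX1 (by norm_num))
      · rw [max_eq_left h]
        exact h1.trans (Nat.pow_le_pow_left hN _)
    rw [← hn, hs]
    obtain ⟨c, hc⟩ : ∃ c, c = cPM n 3 (geomDim T₀) (maxNorm T₀) := ⟨_, rfl⟩
    rw [← hc] at h3 ⊢
    calc n * (c + 2) ≤ n * (2 * X ^ 79) := Nat.mul_le_mul_left _ (by omega)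
      _ = (2 * n) * X ^ 79 := by ring
      _ ≤ X * X ^ 79 := Nat.mul_le_mul_right _ (by omega)
      _ = X ^ 80 := by ring
  have hs1 : 1 ≤ s := by
    rw [hs]
    exact Nat.one_le_pow _ _ (by omega)
  have hwk : ∀ {p q : Q} {w : List (Vec 3)}, Walk T₀ p w q →
      wt3 lam w.sum + π q = π p := by
    intro p q w h
    induction h with
    | nil p => rw [List.sum_nil, wt3_zero, zero_add]
    | cons h1 _ ih =>
      rw [List.sum_cons, wt3_add, add_assoc, ih]
      exact htight _ _ _ h1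
  have hPok : ∀ {T' : VASS Q 3} {p q : Q} {x : Vec 3} {w : List (Vec 3)},
      PW T' (fun r y => InS T p₀ r ∧ 0 ≤ y ∧ ∀ k, y k ≤ H) p x w q → Ok x w := by
    intro T' p q x w h
    induction h with
    | nil _ => trivial
    | cons _ _ h2 ih => exact ⟨h2.start.2.1, ih⟩
  have main : ∀ (N : ℕ) {p : Q} {x : Vec 3} {w : List (Vec 3)}, w.length ≤ N →
      PW T (fun r y => InS T p₀ r ∧ 0 ≤ y ∧ ∀ k, y k ≤ H) p x w q →
      ∃ I : List (Itm 3), IsScheme T p (I.map isk) q ∧ Ok x (unroll I) ∧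
        (unroll I).sum = w.sum ∧ (∀ e ∈ I, ∑ k, (lam k : ℤ) * e.2.1.sum k = 0) ∧
        (∀ e ∈ I, e.1.length + e.2.1.length ≤ s) ∧
        (I.length : ℤ) ≤ (π p - (wt3 lam w.sum + π q)) * (s + 1) + s := by
    intro N
    induction N with
    | zero =>
      intro p x w hl h
      have hw : w = [] := List.length_eq_zero_iff.1 (Nat.le_zero.1 hl)
      subst hw
      cases h with
      | nil h0 =>
        refine ⟨[], .nil _, trivial, rfl, by simp, by simp, ?_⟩
        rw [List.sum_nil, wt3_zero, zero_add, sub_self, zero_mul, zero_add]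
        simp
    | succ N ih =>
      intro p x w hl h
      rcases first_loose (T₀ := T₀) h with h1 | ⟨u, v, r, r', w₁, rfl, h1, h2, h3, h4⟩
      · obtain ⟨I, a1, a2, a3, a4, a5, a6⟩ := tight_schemeS hlam htight hsub h1.start.2.1
          h1.walk (hPok h1) hs0
        refine ⟨I, a1, a2, a3, a4, a5, ?_⟩
        have h5 := hwk h1.walk
        rw [h5, sub_self, zero_mul, zero_add]
        exact_mod_cast a6
      · obtain ⟨I, a1, a2, a3, a4, a5, a6⟩ := tight_schemeS hlam htight hsub h1.start.2.1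
          h1.walk (hPok h1) hs0
        have hl2 : w₁.length ≤ N := by
          rw [List.length_append, List.length_cons] at hl
          omega
        obtain ⟨J, b1, b2, b3, b4, b5, b6⟩ := ih hl2 h4
        have h5 := hwk h1.walk
        have h6 : wt3 lam v + π r' + 1 ≤ π r := by
          have h7 := hπ2 _ _ _ h1.stop.1 h4.start.1 h2
          have h8 : wt3 lam v + π r' ≠ π r := by
            intro he
            apply h3
            rw [hT₀, mem_filter]
            exact ⟨h2, he⟩
          omega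
        have hu0 : unroll (([v], [], 0) :: J) = v :: unroll J := by
          rw [unroll_cons, wrd, rep_zero]
          rfl
        refine ⟨I ++ ([v], [], 0) :: J, ?_, ?_, ?_, ?_, ?_, ?_⟩
        · rw [List.map_append]
          exact a1.append (.cons (.cons h2 (.nil _)) (.nil _) b1)
        · rw [unroll_append, Ok_append, hu0, a3]
          exact ⟨a2, h4.start.2.1, b2⟩
        · rw [unroll_append, List.sum_append, hu0, List.sum_cons, a3, b3, List.sum_append,
            List.sum_cons]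
        · intro e he
          rcases List.mem_append.1 he with he | he
          · exact a4 e he
          · rcases List.mem_cons.1 he with rfl | he
            · simp
            · exact b4 e he
        · intro e he
          rcases List.mem_append.1 he with he | he
          · exact a5 e he
          · rcases List.mem_cons.1 he with rfl | he
            · simpa using hs1
            · exact b5 e he
        · rw [List.sum_append, List.sum_cons, wt3_add, wt3_add, List.length_append,
            List.length_cons]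
          have a7 : (I.length : ℤ) ≤ s := by exact_mod_cast a6
          push_cast
          have h9 : π p - (wt3 lam u.sum + (wt3 lam v + wt3 lam w₁.sum) + π q) ≥
              π r' - (wt3 lam w₁.sum + π q) + 1 := by linarith
          have hK0 : (0 : ℤ) ≤ (s : ℤ) + 1 := by positivity
          have h10 := mul_le_mul_of_nonneg_right h9 hK0
          nlinarith
  obtain ⟨I, c1, c2, c3, c4, c5, c6⟩ := main w.length le_rfl h
  have hHend : ∀ k, (x + (unroll I).sum) k ≤ H := by
    rw [c3]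
    exact h.stop.2.2
  have hX80 : 1 ≤ X ^ 80 := Nat.one_le_pow _ _ (by omega)
  have hA : s * maxNorm T + 1 ≤ X ^ 82 := by
    rw [hs, ← hM]
    calc X ^ 80 * M + 1 ≤ X ^ 80 * M + X ^ 80 := by omega
      _ = X ^ 80 * (M + 1) := by ring
      _ ≤ X ^ 80 * (X * X) := by
          refine Nat.mul_le_mul_left _ ?_
          nlinarith
      _ = X ^ 82 := by ring
  have hbA : ∀ k, lam k ≤ X ^ 82 := by
    intro k
    refine (hb k).trans ?_
    rw [hLX]
    exact Nat.pow_le_pow_right hX1 (by norm_num)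
  obtain ⟨J, d1, d2, d3, d4⟩ := chainS h0 hl c1 h.start.2.1 h.start.2.2 c2 c4 c5 hA hbA hHend
  have hJs : ∀ e ∈ J, e.1.length + e.2.1.length ≤ s := by
    intro e he
    have h1 : isk e ∈ I.map isk := by
      rw [← d1]
      exact List.mem_map_of_mem he
    obtain ⟨e', he', h2⟩ := List.mem_map.1 h1
    have h3 := c5 e' he'
    have h4 : e'.1 = e.1 := congrArg (fun z : List (Vec 3) × List (Vec 3) => z.1) h2
    have h5 : e'.2.1 = e.2.1 := congrArg (fun z : List (Vec 3) × List (Vec 3) => z.2) h2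
    rw [h4, h5] at h3
    exact h3
  have hJl : J.length = I.length := by
    have := congrArg List.length d1
    rwa [List.length_map, List.length_map] at this
  have hJw : Walk T p (unroll J) q := scheme_walk J (by rw [d1]; exact c1)
  refine ⟨unroll J, hJw, d2, by rw [← c3]; exact d3, ?_⟩
  have hlen := unroll_length_le hJs
  rw [hJl] at hlen
  rw [← hn, ← hM] at hπ1
  rw [← hn, ← hM]
  -- the number of items
  have hw0 : -(3 * (L : ℤ) * H) ≤ wt3 lam w.sum := by
    have e : wt3 lam w.sum = wt3 lam (x + w.sum) - wt3 lam x := by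
      rw [wt3_add]
      ring
    have h4 : 0 ≤ wt3 lam (x + w.sum) := by
      refine Finset.sum_nonneg fun k _ => ?_
      exact mul_nonneg (Int.natCast_nonneg _) (h.stop.2.1 k)
    have h5 : |wt3 lam x| ≤ 3 * (L : ℤ) * H := by
      refine wt3_abs hb fun k => ?_
      rw [abs_of_nonneg (h.start.2.1 k)]
      exact h.start.2.2 k
    have h6 := (abs_le.1 h5).2
    linarith
  have hd : π p - (wt3 lam w.sum + π q) ≤ ((3 * L * H + 6 * L * (n * M) : ℕ) : ℤ) := by
    have h1 := (abs_le.1 (hπ1 p h.start.1)).2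
    have h2 := (abs_le.1 (hπ1 q h.stop.1)).1
    push_cast at h1 h2 ⊢
    linarith
  have h1 : (I.length : ℤ) ≤ ((3 * L * H + 6 * L * (n * M) : ℕ) : ℤ) * (s + 1) + s := by
    have hK0 : (0 : ℤ) ≤ (s : ℤ) + 1 := by positivity
    have := mul_le_mul_of_nonneg_right hd hK0
    linarith
  have h2 : I.length ≤ (3 * L * H + 6 * L * (n * M)) * (s + 1) + s := by exact_mod_cast h1
  have h3 : I.length + H + 1 ≤ H * X ^ 104 := by
    have h4 : 3 * L * H + 6 * L * (n * M) ≤ H * X ^ 21 := by
      have h5 : 6 * L * (n * M) ≤ H * (6 * L * (n * M)) := Nat.le_mul_of_pos_left _ hH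
      have h6 : 3 + 6 * (n * M) ≤ X := by
        rw [hX]
        nlinarith
      calc 3 * L * H + 6 * L * (n * M) ≤ 3 * L * H + H * (6 * L * (n * M)) := by omega
        _ = H * (L * (3 + 6 * (n * M))) := by ring
        _ ≤ H * (X ^ 20 * X) := by
            rw [hLX]
            exact Nat.mul_le_mul_left _ (Nat.mul_le_mul_left _ h6)
        _ = H * X ^ 21 := by ring
    have h7 : s + 1 ≤ X ^ 81 := by
      rw [hs]
      calc X ^ 80 + 1 ≤ 2 * X ^ 80 := by omega
        _ ≤ X * X ^ 80 := Nat.mul_le_mul_right _ (by omega)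
        _ = X ^ 81 := by ring
    have h8 : s + 1 ≤ H * X ^ 102 := by
      refine h7.trans ?_
      calc X ^ 81 ≤ X ^ 102 := Nat.pow_le_pow_right hX1 (by norm_num)
        _ ≤ H * X ^ 102 := Nat.le_mul_of_pos_left _ hH
    have h9 : H ≤ H * X ^ 102 := Nat.le_mul_of_pos_right _ (by positivity)
    calc I.length + H + 1 ≤ (3 * L * H + 6 * L * (n * M)) * (s + 1) + s + H + 1 := by omega
      _ ≤ (H * X ^ 21) * X ^ 81 + (s + 1) + H := by
          have := Nat.mul_le_mul h4 h7
          omega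
      _ = H * X ^ 102 + (s + 1) + H := by ring
      _ ≤ H * X ^ 102 + H * X ^ 102 + H * X ^ 102 := by omega
      _ = 3 * (H * X ^ 102) := by ring
      _ ≤ (X * X) * (H * X ^ 102) := Nat.mul_le_mul_right _ (by nlinarith)
      _ = H * X ^ 104 := by ring
  have h5 : 100000 * (X ^ 82 + 1) ^ 20 ≤ X ^ 1666 := by
    have h6 : 100000 ≤ X ^ 6 := le_trans (by norm_num) (Nat.pow_le_pow_left hX8 6)
    have h7 : X ^ 82 + 1 ≤ X ^ 83 := by
      have : 1 ≤ X ^ 82 := Nat.one_le_pow _ _ (by omega)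
      calc X ^ 82 + 1 ≤ 2 * X ^ 82 := by omega
        _ ≤ X * X ^ 82 := Nat.mul_le_mul_right _ (by omega)
        _ = X ^ 83 := by ring
    calc 100000 * (X ^ 82 + 1) ^ 20 ≤ X ^ 6 * (X ^ 83) ^ 20 :=
          Nat.mul_le_mul h6 (Nat.pow_le_pow_left h7 20)
      _ = X ^ 1666 := by ring
  calc (unroll J).length ≤ s * (I.length + (J.map fun e => e.2.2).sum) := hlen
    _ ≤ s * (I.length + 100000 * (X ^ 82 + 1) ^ 20 * (I.length + H + 1)) := by
        exact Nat.mul_le_mul_left _ (by omega)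
    _ ≤ X ^ 80 * (H * X ^ 104 + X ^ 1666 * (H * X ^ 104)) := by
        rw [hs]
        refine Nat.mul_le_mul_left _ (Nat.add_le_add (by omega) ?_)
        exact Nat.mul_le_mul h5 h3
    _ = H * X ^ 184 + H * X ^ 1850 := by ring
    _ ≤ H * X ^ 1850 + H * X ^ 1850 := by
        refine Nat.add_le_add_right (Nat.mul_le_mul_left _ ?_) _
        exact Nat.pow_le_pow_right (by omega) (by norm_num)
    _ = 2 * (H * X ^ 1850) := by ring
    _ ≤ X * (H * X ^ 1850) := Nat.mul_le_mul_right _ (by omega)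
    _ = H * X ^ 1851 := by ring
    _ ≤ H * X ^ 5000 := Nat.mul_le_mul_left _ (Nat.pow_le_pow_right (by omega) (by norm_num))
    _ = H * cSu n M := by rw [cSu, hX]

end Pool.Agent.EE3
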