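import Pool.Agent.EE3.Transfer

/-!
# EE3 / Tour3: closed walks which move weight from one counter to another one
-/

set_option autoImplicit false
set_option linter.unusedSectionVars false

namespace Pool.Agent.EE3

open Pool.Agent.EEF Pool.Agent.REV Pool.Agent.EE2 Finset

/-- the transfer from counter `b` to counter `a` -/
def trv (lam : Fin 3 → ℕ) (a b : Fin 3) : Vec 3 :=
  fun k => if k = a then (lam b : ℤ) else if k = b then -(lam a : ℤ) else 0

/-- bound for the tours -/
def cTo (n M : ℕ) : ℕ := (8 * n * (M + 1)) ^ 4000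

/-- closed walks at `r` which repeat given short closed walks; the part of the effect which comes
from the paths between them does not depend on the number of repetitions -/
theorem tour_exact {Q : Type} [Fintype Q] {T : VASS Q 3} {p₀ r : Q} (hr : InS T p₀ r)
    (m : Vec 3 → ℕ) (G : Finset (Vec 3)) (hG : ∀ g ∈ G, g ∈ Eff T p₀ (Fintype.card Q)) :
    ∃ l : Vec 3,
      (∀ k, |l k| ≤ (((∑ g ∈ G, m g) * (2 * Fintype.card Q * maxNorm T) : ℕ) : ℤ)) ∧
      ∀ t : ℕ, ∃ θ, Walk T r θ r ∧
        θ.length ≤ (∑ g ∈ G, m g) * (2 * Fintype.card Q + Fintype.card Q * t) ∧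
        ∀ k, θ.sum k = l k + t * ∑ g ∈ G, (m g : ℤ) * g k := by
  classical
  induction G using Finset.induction_on with
  | empty => exact ⟨0, by simp, fun t => ⟨[], .nil _, by simp, fun k => by simp⟩⟩
  | insert g G hgG ih =>
    obtain ⟨l, hl, h⟩ := ih fun g hg => hG g (mem_insert_of_mem hg)
    rcases Nat.eq_zero_or_pos (m g) with hm | hm
    · refine ⟨l, ?_, fun t => ?_⟩
      · rw [sum_insert hgG, hm, zero_add]
        exact hl
      · obtain ⟨θ, h1, h2, h3⟩ := h t
        refine ⟨θ, h1, ?_, fun k => ?_⟩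
        · rw [sum_insert hgG, hm, zero_add]
          exact h2
        · rw [sum_insert hgG, hm, h3 k, Nat.cast_zero, zero_mul, zero_add]
    · obtain ⟨s, u, hs, h4, h5, h6⟩ := hG g (mem_insert_self g G)
      obtain ⟨a, ha, hal⟩ := inS_path hr hs
      obtain ⟨b, hb, hbl⟩ := inS_path hs hr
      refine ⟨a.sum + b.sum + l, fun k => ?_, fun t => ?_⟩
      · rw [sum_insert hgG]
        have e1 := walk_abs ha k
        have e2 := walk_abs hb k
        have e3 := hl k
        have hM : (0 : ℤ) ≤ maxNorm T := Int.natCast_nonneg _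
        have e4 : (a.length : ℤ) * maxNorm T ≤ Fintype.card Q * maxNorm T :=
          mul_le_mul_of_nonneg_right (by exact_mod_cast hal) hM
        have e5 : (b.length : ℤ) * maxNorm T ≤ Fintype.card Q * maxNorm T :=
          mul_le_mul_of_nonneg_right (by exact_mod_cast hbl) hM
        have e6 : (1 : ℤ) * (2 * Fintype.card Q * maxNorm T) ≤
            m g * (2 * Fintype.card Q * maxNorm T) := by
          refine mul_le_mul_of_nonneg_right (by exact_mod_cast hm) ?_
          positivity
        have e7 : |a.sum k + b.sum k + l k| ≤ |a.sum k| + |b.sum k| + |l k| :=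
          (abs_add_le _ _).trans (add_le_add (abs_add_le _ _) le_rfl)
        show |a.sum k + b.sum k + l k| ≤ _
        push_cast at e3 ⊢
        linarith
      · obtain ⟨θ, h1, h2, h3⟩ := h t
        refine ⟨a ++ rep (t * m g) u ++ b ++ θ, (((ha.append (h4.rep _)).append hb).append h1),
          ?_, fun k => ?_⟩
        · rw [sum_insert hgG, List.length_append, List.length_append, List.length_append,
            rep_length, add_mul]
          have e1 : t * m g * u.length ≤ m g * (Fintype.card Q * t) := by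
            calc t * m g * u.length ≤ t * m g * Fintype.card Q := Nat.mul_le_mul_left _ h5
              _ = m g * (Fintype.card Q * t) := by ring
          have e2 : 2 * Fintype.card Q ≤ m g * (2 * Fintype.card Q) :=
            Nat.le_mul_of_pos_left _ hm
          have e3 : m g * (2 * Fintype.card Q + Fintype.card Q * t) =
            m g * (2 * Fintype.card Q) + m g * (Fintype.card Q * t) := by ring
          omega
        · rw [sum_insert hgG, List.sum_append, List.sum_append, List.sum_append, rep_sum, h6]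
          have e7 : ((t * m g) • g : Vec 3) k = (t : ℤ) * m g * g k := by
            rw [Pi.smul_apply, nsmul_eq_mul]
            push_cast
            ring
          rw [Pi.add_apply, Pi.add_apply, Pi.add_apply, e7, h3 k]
          show _ = a.sum k + b.sum k + l k + _
          ring

/-- a walk can be executed from configurations which are large compared with its length -/
theorem ok_of_long {Q : Type} {T : VASS Q 3} {p q : Q} {w : List (Vec 3)} (h : Walk T p w q)
    {B : ℕ} (hB : w.length * maxNorm T ≤ B) {x : Vec 3} (hx : ∀ k, (B : ℤ) ≤ x k) : Ok x w := by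
  refine Ok_of_prefix fun u u' hu k => ?_
  have h1 : |u.sum k| ≤ u.length * maxNorm T := by
    refine sum_le (fun v hv k => ?_) k
    obtain ⟨a, b, hab⟩ := h.letters v (by rw [hu]; exact List.mem_append_left _ hv)
    exact abs_le_maxNorm hab k
  have h2 : u.length * maxNorm T ≤ w.length * maxNorm T := by
    refine Nat.mul_le_mul_right _ ?_
    rw [hu, List.length_append]
    exact Nat.le_add_right _ _
  have h3 : ((u.length * maxNorm T : ℕ) : ℤ) ≤ (B : ℤ) := by exact_mod_cast h2.trans hB
  have h4 := (abs_le.1 h1).1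
  have h5 := hx k
  push_cast at h3
  show 0 ≤ x k + u.sum k
  linarith

theorem num_to {n M F t : ℕ} (hn : 1 ≤ n) (hF : F ≤ cTr n M) :
    F * (2 * n + n * t) * (M + 1) ≤ cTo n M * (t + 1) := by
  obtain ⟨X, hX⟩ : ∃ X, X = 8 * n * (M + 1) := ⟨_, rfl⟩
  have h1 : 8 * n ≤ X := by
    rw [hX]
    exact Nat.le_mul_of_pos_right _ (Nat.succ_pos _)
  have h2 : M + 1 ≤ X := by
    rw [hX]
    exact Nat.le_mul_of_pos_left _ (by omega)
  have h3 : 2 * n + n * t ≤ X * (t + 1) := by
    calc 2 * n + n * t ≤ 8 * n * (t + 1) := by nlinarith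
      _ ≤ X * (t + 1) := Nat.mul_le_mul_right _ h1
  have hF' : F ≤ X ^ 1500 := by rw [hX]; exact hF
  calc F * (2 * n + n * t) * (M + 1) ≤ X ^ 1500 * (X * (t + 1)) * X :=
        Nat.mul_le_mul (Nat.mul_le_mul hF' h3) h2
    _ = X ^ 1502 * (t + 1) := by ring
    _ ≤ X ^ 4000 * (t + 1) :=
        Nat.mul_le_mul_right _ (Nat.pow_le_pow_right (by omega) (by norm_num))
    _ = cTo n M * (t + 1) := by rw [cTo, hX]

theorem cTr_le_cTo {n M : ℕ} (hn : 1 ≤ n) : cTr n M ≤ cTo n M :=
  Nat.pow_le_pow_right (Nat.mul_pos (by omega) (Nat.succ_pos _)) (by norm_num)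

/-- Closed walks at `r` which transfer weight from counter `b` to counter `a`, with a loss which
does not depend on the amount. -/
theorem tour3 {Q : Type} [Fintype Q] {T : VASS Q 3} {p₀ : Q} {lam : Fin 3 → ℕ}
    (hlam : ∃ k, lam k ≠ 0) (hb : ∀ k, lam k ≤ cLam (Fintype.card Q) (maxNorm T))
    (hc : ∀ r u, InS T p₀ r → Walk T r u r → ∑ k, (lam k : ℤ) * u.sum k ≤ 0)
    (hw : ¬ WedgeAt T p₀) {a b : Fin 3} (hab : a ≠ b) {r : Q} (hr : InS T p₀ r) :
    ∃ (c : ℕ) (l : Vec 3), 1 ≤ c ∧ c ≤ cTo (Fintype.card Q) (maxNorm T) ∧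
      (∀ k, |l k| ≤ cTo (Fintype.card Q) (maxNorm T)) ∧ ∑ k, (lam k : ℤ) * l k ≤ 0 ∧
      ∀ t : ℕ, ∃ w, Walk T r w r ∧ w.length ≤ cTo (Fintype.card Q) (maxNorm T) * (t + 1) ∧
        (∀ k, w.sum k = l k + (c * t : ℕ) * trv lam a b k) ∧
        ∀ x : Vec 3, (∀ k, (cTo (Fintype.card Q) (maxNorm T) * (t + 1) : ℕ) ≤ x k) → Ok x w := by
  have hn : 1 ≤ Fintype.card Q := Fintype.card_pos_iff.2 ⟨p₀⟩
  obtain ⟨G, m, c, h1, h2, h3, h4, h5⟩ := transfer3 hlam hb hc hw hab
  obtain ⟨l, hl, h⟩ := tour_exact hr m G h1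
  refine ⟨c, l, h2, h3.trans (cTr_le_cTo hn), fun k => ?_, ?_, fun t => ?_⟩
  · refine (hl k).trans ?_
    have e := num_to (t := 0) (n := Fintype.card Q) (M := maxNorm T) hn h4
    have e1 : (∑ g ∈ G, m g) * (2 * Fintype.card Q * maxNorm T) ≤
        (∑ g ∈ G, m g) * (2 * Fintype.card Q + Fintype.card Q * 0) * (maxNorm T + 1) := by
      rw [mul_zero, add_zero, mul_assoc (∑ g ∈ G, m g) (2 * Fintype.card Q) (maxNorm T + 1)]
      exact Nat.mul_le_mul_left _ (Nat.mul_le_mul_left _ (Nat.le_succ _))
    have e2 := e1.trans e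
    rw [zero_add, mul_one] at e2
    exact_mod_cast e2
  · obtain ⟨θ, k1, -, k3⟩ := h 0
    have e := hc r θ hr k1
    have e2 : ∀ k, θ.sum k = l k := fun k => by
      rw [k3 k, Nat.cast_zero, zero_mul, add_zero]
    simp only [e2] at e
    exact e
  · obtain ⟨θ, k1, k2, k3⟩ := h t
    have e := num_to (t := t) (n := Fintype.card Q) (M := maxNorm T) hn h4
    refine ⟨θ, k1, ?_, fun k => ?_, fun x hx => ok_of_long k1 ?_ hx⟩
    · exact (k2.trans (Nat.le_mul_of_pos_right _ (Nat.succ_pos _))).trans e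
    · rw [k3 k, h5 k]
      show _ = l k + ((c * t : ℕ) : ℤ) *
        (if k = a then (lam b : ℤ) else if k = b then -(lam a : ℤ) else 0)
      push_cast
      ring
    · exact (Nat.mul_le_mul k2 (Nat.le_succ _)).trans e

end Pool.Agent.EE3
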