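import Pool.Agent.EE2.ClassPM

/-!
# EE3 / Wall3: pieces with one bounded moving coordinate, in a component of dimension three
-/

set_option autoImplicit false
set_option linter.unusedSectionVars false

namespace Pool.Agent.EE3

open Pool.Agent.EEF Pool.Agent.REV Pool.Agent.EE2 Finset

variable {Q : Type} {d : ℕ} {T : VASS Q d}

theorem prodT_two {p₀ : Q} (h3 : Module.finrank ℚ (VS T p₀) ≤ 3) {i : Fin d}
    (hi : Mov T p₀ i) (C : ℕ) (P : Q × Fin (C + 1)) : TwoAt (prodT T p₀ i C) P := by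
  unfold TwoAt VS
  by_cases hP : InS T p₀ P.1
  swap
  · have hle : Submodule.span ℚ {c : Fin d → ℚ | ∃ w, Walk (prodT T p₀ i C) P w P ∧
        c = qv w.sum} ≤ ⊥ := by
      rw [Submodule.span_le]
      rintro c ⟨w, hw, rfl⟩
      cases w with
      | nil => exact qv_zero
      | cons v w => exact absurd (prodT_start hw) hP
    refine (Submodule.finrank_mono hle).trans ?_
    simp
  · set K : Submodule ℚ (Fin d → ℚ) := VS T p₀ ⊓ LinearMap.ker (LinearMap.proj i) with hK
    have hle : Submodule.span ℚ {c : Fin d → ℚ | ∃ w, Walk (prodT T p₀ i C) P w P ∧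
        c = qv w.sum} ≤ K := by
      rw [Submodule.span_le]
      rintro c ⟨w, hw, rfl⟩
      obtain ⟨h3, h4⟩ := prodT_walk hw
      refine ⟨vs_closed hP h3, ?_⟩
      have h5 : w.sum i = 0 := by linarith
      change qv w.sum i = 0
      simp [qv, h5]
    have hlt : K < VS T p₀ := by
      refine lt_of_le_of_ne inf_le_left fun heq => ?_
      obtain ⟨u, hu, hne⟩ := hi
      have h3 : qv u.sum ∈ K := by rw [heq]; exact vs_mem hu
      have h4 : qv u.sum i = 0 := h3.2
      apply hne
      simp only [qv] at h4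
      exact_mod_cast h4
    have h4 := Submodule.finrank_lt_finrank_of_lt hlt
    have h5 := Submodule.finrank_mono hle
    omega

/-- pieces along a wall -/
theorem wall3 [Fintype Q] {p₀ : Q} (h3 : Module.finrank ℚ (VS T p₀) ≤ 3) {i : Fin d}
    (hi : Mov T p₀ i) (C : ℕ) {p q : Q} {x : Vec d} {w : List (Vec d)}
    (h : PW T (fun r y => InS T p₀ r ∧ 0 ≤ y ∧ y i ≤ C) p x w q) :
    Rlz T p x w.sum q (cTot (Fintype.card Q * (C + 1)) d (maxNorm T)) := by
  classical
  have hs := h.start
  obtain ⟨hok, hw⟩ := prodT_lift h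
  have hn : 0 ≤ x i := hs.2.1 i
  have hC : x i ≤ C := hs.2.2
  have hlt : (x i).toNat < C + 1 := by omega
  have hm : (((x i).toNat : ℕ) : ℤ) = x i := Int.toNat_of_nonneg hn
  obtain ⟨m', hm'⟩ := hw ⟨(x i).toNat, hlt⟩ hm
  have hcard : Fintype.card (Q × Fin (C + 1)) = Fintype.card Q * (C + 1) := by
    rw [Fintype.card_prod, Fintype.card_fin]
  have h4 := two_scheme (T := prodT T p₀ i C) (prodT_two h3 hi C) hm' hs.2.1 hok
  rw [hcard] at h4
  obtain ⟨I, h5, h6, h7, h8⟩ := h4.mono (ph_cTot_mono _ _ (prodT_norm (T := T) (p₀ := p₀)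
    (i := i) (C := C)))
  exact ⟨I, prodT_scheme h5, h6, h7, h8⟩

end Pool.Agent.EE3
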