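import Pool.Agent.EEF.Main
import Pool.Agent.EE3.Int3

/-!
# EE3 / Window3: a window of items with few different counters
-/

set_option autoImplicit false
set_option linter.unusedSectionVars false

namespace Pool.Agent.EE3

open Pool.Agent.EEF Finset

/-- a word with small letters is executable from the constant configuration `A` -/
private theorem wi_const {M : ℕ} : ∀ {w : List (Vec 3)} {x : Vec 3},
    (∀ v ∈ w, ∀ k, |v k| ≤ M) → (∀ k, (w.length * M : ℤ) ≤ x k) → Ok x w := by
  intro w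
  induction w with
  | nil => intro x _ _; trivial
  | cons v w ih =>
    intro x h hx
    have h1 : ∀ k, (w.length * M : ℤ) ≤ (x + v) k := by
      intro k
      have h2 := hx k
      have h3 := (abs_le.1 (h v List.mem_cons_self k)).1
      rw [List.length_cons] at h2
      push_cast at h2
      simp only [Pi.add_apply]
      linarith
    refine ⟨fun k => ?_, ih (fun u hu => h u (List.mem_cons_of_mem _ hu)) h1⟩
    have := h1 k
    have h0 : (0 : ℤ) ≤ w.length * M := by positivity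
    exact h0.trans this

/-- comparison with an executable configuration -/
private theorem wi_cmp {M A : ℕ} {w : List (Vec 3)} {x z : Vec 3} (hw : ∀ v ∈ w, ∀ k, |v k| ≤ M)
    (hA : w.length * M ≤ A) (hx : Ok x w) (hz : ∀ k, min (x k) A ≤ z k) : Ok z w :=
  Ok_between (y := fun _ => (A : ℤ)) hx (wi_const hw fun _ => by exact_mod_cast hA) hz

/-- one item -/
private theorem wi_item {M A a a' : ℕ} {α β : List (Vec 3)} {y0 z0 : Vec 3}
    (hα : ∀ v ∈ α, ∀ k, |v k| ≤ M) (hβ : ∀ v ∈ β, ∀ k, |v k| ≤ M)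
    (hA : (α.length + β.length) * M ≤ A) (hok : Ok y0 (wrd (α, β, a)))
    (h0 : ∀ k, min (y0 k) A ≤ z0 k) (h1 : ∀ k, min ((y0 + α.sum) k) A ≤ (z0 + α.sum) k)
    (h2 : ∀ k, min ((y0 + α.sum + a • β.sum) k) A ≤ (z0 + α.sum + a' • β.sum) k)
    (haa : a = 0 → a' = 0) : Ok z0 (wrd (α, β, a')) := by
  have hA1 : α.length * M ≤ A := le_trans (Nat.mul_le_mul_right _ (by omega)) hA
  have hA2 : β.length * M ≤ A := le_trans (Nat.mul_le_mul_right _ (by omega)) hA
  simp only [wrd] at hok ⊢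
  rw [Ok_append] at hok ⊢
  refine ⟨wi_cmp hα hA1 hok.1 h0, ?_⟩
  rcases Nat.eq_zero_or_pos a' with rfl | hp
  · trivial
  have ha : a ≠ 0 := fun h => by
    have := haa h
    omega
  obtain ⟨n, rfl⟩ : ∃ n, a = n + 1 := ⟨a - 1, by omega⟩
  obtain ⟨n', rfl⟩ : ∃ n', a' = n' + 1 := ⟨a' - 1, by omega⟩
  have hfirst : Ok (y0 + α.sum) β := by
    have h3 := hok.2
    rw [rep_succ, Ok_append] at h3
    exact h3.1
  have hlast : Ok (y0 + α.sum + n • β.sum) β := by
    have h3 := hok.2
    rw [rep_add, rep_one, Ok_append, rep_sum] at h3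
    exact h3.2
  have hboth : Ok (fun k => min ((y0 + α.sum) k) ((y0 + α.sum + n • β.sum) k)) β :=
    Ok_between hfirst hlast fun k => le_rfl
  refine Ok_rep fun j hj => wi_cmp hβ hA2 hboth fun k => ?_
  have e1 := h1 k
  have e2 := h2 k
  have hj' : (j : ℤ) ≤ n' := by exact_mod_cast Nat.lt_succ_iff.1 hj
  have hj0 : (0 : ℤ) ≤ j := Int.natCast_nonneg j
  simp only [Pi.add_apply, Pi.smul_apply] at e1 e2 ⊢
  simp only [nsmul_eq_mul] at e2 ⊢
  push_cast at e2
  set s := β.sum k
  set p := y0 k + α.sum k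
  set r := z0 k + α.sum k
  rcases le_total 0 s with hs | hs
  · have h3 : 0 ≤ (j : ℤ) * s := mul_nonneg hj0 hs
    have h4 : min (min p (p + n * s)) (A : ℤ) ≤ min p A := min_le_min_right _ (min_le_left _ _)
    linarith
  · have h3 : (n' : ℤ) * s ≤ j * s := mul_le_mul_of_nonpos_right hj' hs
    have h4 : min (min p (p + n * s)) (A : ℤ) ≤ min (p + n * s) A :=
      min_le_min_right _ (min_le_right _ _)
    have h5 : min (p + n * s) (A : ℤ) ≤ min (p + (n + 1) * s) (A : ℤ) - s := by
      rw [← min_sub_sub_right]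
      refine le_min ?_ ?_
      · refine (min_le_left _ _).trans ?_
        linarith
      · refine (min_le_right _ _).trans ?_
        linarith
    linarith

/-- the loops -/
private def wiU : List (Itm 3) → ℕ → Vec 3
  | [], _ => 0
  | _ :: _, 0 => 0
  | e :: _, 1 => e.2.1.sum
  | _ :: I, i + 2 => wiU I i

/-- the drifts -/
private def wiF : List (Itm 3) → ℕ → Vec 3
  | [], _ => 0
  | e :: _, 0 => e.1.sum
  | _ :: _, 1 => 0
  | _ :: I, i + 2 => wiF I i

/-- the multiplicities -/
private def wiA : List (Itm 3) → ℕ → ℕ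
  | [], _ => 0
  | _ :: _, 0 => 0
  | e :: _, 1 => e.2.2
  | _ :: I, i + 2 => wiA I i

/-- the checkpoints -/
private def wiY : List (Itm 3) → Vec 3 → ℕ → Vec 3
  | [], x, _ => x
  | _ :: _, x, 0 => x
  | e :: _, x, 1 => x + e.1.sum
  | e :: I, x, i + 2 => wiY I (x + (wrd e).sum) i

private theorem wi_zero (I : List (Itm 3)) (x : Vec 3) : wiY I x 0 = x := by
  cases I <;> rfl

private theorem wi_wrd (e : Itm 3) : (wrd e).sum = e.1.sum + e.2.2 • e.2.1.sum := by
  rw [wrd, List.sum_append, rep_sum]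

private theorem wi_step : ∀ (I : List (Itm 3)) (x : Vec 3) (i : ℕ), i < 2 * I.length →
    wiY I x (i + 1) = wiY I x i + wiF I i + wiA I i • wiU I i := by
  intro I
  induction I with
  | nil =>
    intro x i hi
    simp at hi
  | cons e I ih =>
    intro x i hi
    rw [List.length_cons] at hi
    match i with
    | 0 => simp [wiY, wiF, wiA, wiU]
    | 1 =>
      show wiY I (x + (wrd e).sum) 0 = x + e.1.sum + 0 + e.2.2 • e.2.1.sum
      rw [wi_zero, wi_wrd, add_zero, add_assoc]
    | i + 2 => exact ih _ i (by omega)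

private theorem wi_end : ∀ (I : List (Itm 3)) (x : Vec 3),
    wiY I x (2 * I.length) = x + (unroll I).sum := by
  intro I
  induction I with
  | nil =>
    intro x
    simp [wiY, unroll]
  | cons e I ih =>
    intro x
    show wiY I (x + (wrd e).sum) (2 * I.length) = _
    rw [ih, unroll_cons, List.sum_append, add_assoc]

private theorem wi_nonneg : ∀ (I : List (Itm 3)) (x : Vec 3) (i : ℕ), 0 ≤ x → Ok x (unroll I) →
    0 ≤ wiY I x i := by
  intro I
  induction I with
  | nil =>
    intro x i hx _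
    exact hx
  | cons e I ih =>
    intro x i hx hok
    rw [unroll_cons, Ok_append] at hok
    match i with
    | 0 => exact hx
    | 1 =>
      have h1 := hok.1
      rw [wrd, Ok_append] at h1
      exact Ok_end hx h1.1
    | i + 2 => exact ih _ i (Ok_end hx hok.1) hok.2

private theorem wi_U {s M : ℕ} : ∀ (I : List (Itm 3)) (i : ℕ) (k : Fin 3),
    (∀ e ∈ I, (∀ v ∈ e.1, ∀ k, |v k| ≤ M) ∧ ∀ v ∈ e.2.1, ∀ k, |v k| ≤ M) →
    (∀ e ∈ I, e.1.length + e.2.1.length ≤ s) → |wiU I i k| ≤ (s * M : ℕ) ∧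
      |wiF I i k| ≤ (s * M : ℕ) := by
  intro I
  induction I with
  | nil =>
    intro i k _ _
    simp only [wiU, wiF, Pi.zero_apply, abs_zero]
    exact ⟨by positivity, by positivity⟩
  | cons e I ih =>
    intro i k hl hs
    match i with
    | 0 =>
      show |(0 : Vec 3) k| ≤ _ ∧ |e.1.sum k| ≤ _
      refine ⟨by simp only [Pi.zero_apply, abs_zero]; positivity, ?_⟩
      have h1 := sum_le (hl e List.mem_cons_self).1 k
      have h2 := hs e List.mem_cons_self
      have h3 : e.1.length * M ≤ s * M := Nat.mul_le_mul_right _ (by omega)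
      refine h1.trans ?_
      exact_mod_cast h3
    | 1 =>
      show |e.2.1.sum k| ≤ _ ∧ |(0 : Vec 3) k| ≤ _
      refine ⟨?_, by simp only [Pi.zero_apply, abs_zero]; positivity⟩
      have h1 := sum_le (hl e List.mem_cons_self).2 k
      have h2 := hs e List.mem_cons_self
      have h3 : e.2.1.length * M ≤ s * M := Nat.mul_le_mul_right _ (by omega)
      refine h1.trans ?_
      exact_mod_cast h3
    | i + 2 =>
      exact ih i k (fun e he => hl e (List.mem_cons_of_mem _ he))
        fun e he => hs e (List.mem_cons_of_mem _ he)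

private theorem wi_lam {lam : Fin 3 → ℕ} : ∀ (I : List (Itm 3)) (i : ℕ),
    (∀ e ∈ I, ∑ k, (lam k : ℤ) * e.2.1.sum k = 0) → ∑ k, (lam k : ℤ) * wiU I i k = 0 := by
  intro I
  induction I with
  | nil =>
    intro i _
    simp [wiU]
  | cons e I ih =>
    intro i h
    match i with
    | 0 => simp [wiU]
    | 1 => exact h e List.mem_cons_self
    | i + 2 => exact ih i fun e he => h e (List.mem_cons_of_mem _ he)

/-- the items of a new solution -/
private theorem wi_rebuild {s M A : ℕ} (hA : s * M ≤ A) : ∀ (I : List (Itm 3)) (y0 : Vec 3)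
    (z : ℕ → Vec 3) (a' : ℕ → ℕ), Ok y0 (unroll I) →
    (∀ e ∈ I, (∀ v ∈ e.1, ∀ k, |v k| ≤ M) ∧ ∀ v ∈ e.2.1, ∀ k, |v k| ≤ M) →
    (∀ e ∈ I, e.1.length + e.2.1.length ≤ s) →
    (∀ i < 2 * I.length, z (i + 1) = z i + wiF I i + a' i • wiU I i) →
    (∀ i < 2 * I.length, wiA I i = 0 → a' i = 0) →
    (∀ i ≤ 2 * I.length, ∀ k, min (wiY I y0 i k) A ≤ z i k) →
    ∃ J : List (Itm 3), J.map isk = I.map isk ∧ Ok (z 0) (unroll J) ∧
      z 0 + (unroll J).sum = z (2 * I.length) ∧
      (J.map fun e => e.2.2).sum ≤ ∑ i ∈ range (2 * I.length), a' i := by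
  intro I
  induction I with
  | nil =>
    intro y0 z a' _ _ _ _ _ _
    exact ⟨[], rfl, trivial, by simp [unroll], by simp⟩
  | cons e I ih =>
    intro y0 z a' hok hl hs hz ha hb
    obtain ⟨α, β, a⟩ := e
    rw [unroll_cons, Ok_append] at hok
    rw [List.length_cons] at hz ha hb
    have z1 : z 1 = z 0 + α.sum := by
      have h := hz 0 (by omega)
      have e1 : wiF ((α, β, a) :: I) 0 = α.sum := rfl
      have e2 : wiU ((α, β, a) :: I) 0 = 0 := rfl
      rw [e1, e2, smul_zero, add_zero] at h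
      exact h
    have z2 : z 2 = z 1 + a' 1 • β.sum := by
      have h := hz 1 (by omega)
      have e1 : wiF ((α, β, a) :: I) 1 = 0 := rfl
      have e2 : wiU ((α, β, a) :: I) 1 = β.sum := rfl
      rw [e1, e2, add_zero] at h
      exact h
    have hs0 := hs (α, β, a) List.mem_cons_self
    have hl0 := hl (α, β, a) List.mem_cons_self
    simp only at hs0 hl0
    have hitem : Ok (z 0) (wrd (α, β, a' 1)) := by
      refine wi_item (M := M) (A := A) (a := a) (y0 := y0) hl0.1 hl0.2
        (le_trans (Nat.mul_le_mul_right _ hs0) hA) hok.1 (fun k => ?_) (fun k => ?_) (fun k => ?_)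
        fun h => ?_
      · exact hb 0 (by omega) k
      · have h := hb 1 (by omega) k
        rw [z1] at h
        exact h
      · have h := hb 2 (by omega) k
        have e1 : wiY ((α, β, a) :: I) y0 2 = y0 + α.sum + a • β.sum := by
          show wiY I (y0 + (wrd (α, β, a)).sum) 0 = _
          rw [wi_zero, wi_wrd, ← add_assoc]
        rw [z2, z1, e1] at h
        exact h
      · exact ha 1 (by omega) h
    obtain ⟨J, j1, j2, j3, j4⟩ := ih (y0 + (wrd (α, β, a)).sum) (fun i => z (i + 2))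
      (fun i => a' (i + 2)) hok.2 (fun e he => hl e (List.mem_cons_of_mem _ he))
      (fun e he => hs e (List.mem_cons_of_mem _ he)) (fun i hi => hz (i + 2) (by omega))
      (fun i hi => ha (i + 2) (by omega)) (fun i hi => hb (i + 2) (by omega))
    have e0 : z 0 + (wrd (α, β, a' 1)).sum = z 2 := by
      rw [wi_wrd, z2, z1, add_assoc]
    refine ⟨(α, β, a' 1) :: J, ?_, ?_, ?_, ?_⟩
    · rw [List.map_cons, List.map_cons, j1]
      rfl
    · rw [unroll_cons, Ok_append, e0]
      exact ⟨hitem, j2⟩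
    · rw [unroll_cons, List.sum_append, ← add_assoc, e0]
      exact j3
    · rw [List.map_cons, List.sum_cons, List.length_cons]
      have e1 : 2 * (I.length + 1) = 2 * I.length + 1 + 1 := by ring
      rw [e1, sum_range_succ', sum_range_succ']
      have e2 : ∑ k ∈ range (2 * I.length), a' (k + 1 + 1) =
          ∑ i ∈ range (2 * I.length), a' (i + 2) := rfl
      rw [e2, Nat.zero_add]
      show a' 1 + _ ≤ _
      omega

private theorem wi_num {A H m : ℕ} (hA : 1 ≤ A) :
    100 * (A + 1) ^ 8 * (H + 2 * m + 1) + 2 * m * ((4 * (2 * m) + 3) * (A + 2) ^ (3 * (2 * m))) ≤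
      1000 * (A + 1) ^ 8 * (H + m + 1) + (A + 8) ^ (7 * m + 8) := by
  have h1 : 100 * (A + 1) ^ 8 * (H + 2 * m + 1) ≤ 1000 * (A + 1) ^ 8 * (H + m + 1) := by
    calc 100 * (A + 1) ^ 8 * (H + 2 * m + 1) ≤ 100 * (A + 1) ^ 8 * (2 * (H + m + 1)) :=
          Nat.mul_le_mul_left _ (by omega)
      _ = 200 * (A + 1) ^ 8 * (H + m + 1) := by ring
      _ ≤ 1000 * (A + 1) ^ 8 * (H + m + 1) :=
          Nat.mul_le_mul_right _ (Nat.mul_le_mul_right _ (by norm_num))
  have h2 : 2 * m * (4 * (2 * m) + 3) ≤ (A + 8) ^ (m + 8) := by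
    have h3 : m < 2 ^ m := Nat.lt_two_pow_self
    have h4 : m * m ≤ 4 ^ m := by
      calc m * m ≤ 2 ^ m * 2 ^ m := Nat.mul_le_mul h3.le h3.le
        _ = 4 ^ m := by
          rw [← mul_pow]
          norm_num
    have h5 : m ≤ 4 ^ m := le_trans h3.le (Nat.pow_le_pow_left (by norm_num) m)
    have h6 : 2 * m * (4 * (2 * m) + 3) = 16 * (m * m) + 6 * m := by ring
    calc 2 * m * (4 * (2 * m) + 3) = 16 * (m * m) + 6 * m := h6
      _ ≤ 16 * 4 ^ m + 6 * 4 ^ m := by omega
      _ ≤ 4 ^ m * 4 ^ 8 := by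
          have : 0 < 4 ^ m := by positivity
          omega
      _ = 4 ^ (m + 8) := by rw [pow_add]
      _ ≤ (A + 8) ^ (m + 8) := Nat.pow_le_pow_left (by omega) _
  have h7 : (A + 2) ^ (3 * (2 * m)) ≤ (A + 8) ^ (6 * m) := by
    have e : 3 * (2 * m) = 6 * m := by ring
    rw [e]
    exact Nat.pow_le_pow_left (by omega) _
  have h8 : 2 * m * ((4 * (2 * m) + 3) * (A + 2) ^ (3 * (2 * m))) ≤ (A + 8) ^ (7 * m + 8) := by
    calc 2 * m * ((4 * (2 * m) + 3) * (A + 2) ^ (3 * (2 * m)))
        = 2 * m * (4 * (2 * m) + 3) * (A + 2) ^ (3 * (2 * m)) := by ring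
      _ ≤ (A + 8) ^ (m + 8) * (A + 8) ^ (6 * m) := Nat.mul_le_mul h2 h7
      _ = (A + 8) ^ (7 * m + 8) := by
          rw [← pow_add]
          congr 1
          ring
  exact Nat.add_le_add h1 h8

theorem window3 {Q : Type} {T : VASS Q 3} {p q : Q} {x : Vec 3} {I : List (Itm 3)}
    {lam : Fin 3 → ℕ} {s H A : ℕ} (hA : s * maxNorm T + 1 ≤ A) (hlam : ∀ k, 1 ≤ lam k ∧ lam k ≤ A)
    (hI : IsScheme T p (I.map isk) q) (hx : 0 ≤ x) (hxH : ∀ k, x k ≤ H)
    (hok : Ok x (unroll I)) (hk : ∀ e ∈ I, ∑ k, (lam k : ℤ) * e.2.1.sum k = 0)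
    (hs : ∀ e ∈ I, e.1.length + e.2.1.length ≤ s) :
    ∃ J : List (Itm 3), J.map isk = I.map isk ∧ Ok x (unroll J) ∧
      (unroll J).sum = (unroll I).sum ∧
      (J.map fun e => e.2.2).sum ≤ 1000 * (A + 1) ^ 8 * (H + I.length + 1) +
        (A + 8) ^ (7 * I.length + 8) := by
  have hlet : ∀ i ∈ I, (∀ v ∈ i.1, ∀ k, |v k| ≤ maxNorm T) ∧
      ∀ v ∈ i.2.1, ∀ k, |v k| ≤ maxNorm T := by
    intro i hi
    obtain ⟨⟨p, q, h4⟩, r, h5⟩ := scheme_loops I hI i hi
    refine ⟨fun v hv k => ?_, fun v hv k => ?_⟩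
    · obtain ⟨a, b, hab⟩ := h4.letters v hv
      exact abs_le_maxNorm hab k
    · obtain ⟨a, b, hab⟩ := h5.letters v hv
      exact abs_le_maxNorm hab k
  have hA' : s * maxNorm T ≤ A := by omega
  have hAZ : ((s * maxNorm T : ℕ) : ℤ) ≤ A := by exact_mod_cast hA'
  obtain ⟨a', z, z0, zN, zs, za, zb, zsum⟩ := int3 (2 * I.length) A H lam hlam (wiU I) (wiF I)
    (fun i k => min (wiY I x i k) A) (wiY I x) (wiA I) (fun i _ => wi_lam I i hk)
    (fun i hi k => by
      have h := congrFun (wi_step I x i hi) k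
      simpa using h)
    (fun i _ k => ((wi_U I i k hlet hs).1).trans hAZ)
    (fun i _ k => ((wi_U I i k hlet hs).2).trans hAZ)
    (fun i _ k => le_min (wi_nonneg I x i hx hok k) (Int.natCast_nonneg A))
    (fun i _ k => min_le_right _ _) (fun i _ k => min_le_left _ _)
    (fun k => by rw [wi_zero]; exact hxH k)
  obtain ⟨J, j1, j2, j3, j4⟩ := wi_rebuild hA' I x z a' hok hlet hs (fun i hi => by
    funext k
    have h := zs i hi k
    simpa using h) za zb
  rw [wi_zero] at z0
  rw [z0] at j2 j3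
  rw [zN, wi_end] at j3
  exact ⟨J, j1, j2, add_left_cancel j3, (j4.trans zsum).trans (wi_num (by omega))⟩

end Pool.Agent.EE3
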